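import Pool.Agent.Work.MP_8c679b_co.Six.GNorm
import Pool.Agent.Work.MP_8c679b_co.Six.Cut

-- merged part: Pool.Agent.Work.MP_8c679b_co.A3.GR
section
/-!
Rings as sets.
-/

set_option autoImplicit false
set_option linter.unusedSectionVars false

namespace Pool.Agent.Work.MP_8c679b_co

open Finset

namespace SG

variable {V E : Type} [Fintype V] [DecidableEq V] [DecidableEq E] [Nonempty E] {G : SG V E}
  {U Nb Tm X Y Z M L D D' H P Q W X1 X2 A1 A2 A3 A4 S : Finset V}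
  {F F' F1 F2 E1 E2 E3 E4 R : Finset E} {a b c v w x y z s t u B B1 B2 : V} {e f g : E}

theorem Cw.sub (h : G.Cw X F) : F ⊆ G.A := by
  obtain ⟨n, v, g, hc, -, rfl⟩ := h
  exact hc.cc.2.2.1

theorem Cw.ends (h : G.Cw X F) (he : e ∈ F) (hv : G.At e v) : v ∈ X := by
  obtain ⟨n, u, g, hc, rfl, rfl⟩ := h
  rw [← hc.cc.2.1]
  exact mem_vs.2 ⟨e, he, hv⟩

theorem Cw.deg_nl (h : G.Cw X F) (he : e ∈ F) : G.s e ≠ G.t e := by
  obtain ⟨n, u, g, hc, rfl, rfl⟩ := h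
  obtain ⟨j, hj, rfl⟩ := mem_pe.1 he
  have key : ∀ i k, i ≤ n → k ≤ n → i ≠ k → G.Je (g j) (u i) (u k) → G.s (g j) ≠ G.t (g j) := by
    intro i k hi hk hik hJ h0
    apply hik
    apply hc.pth.inj i hi k hk
    rcases hJ with ⟨h1, h2⟩ | ⟨h1, h2⟩
    · rw [← h1, ← h2, h0]
    · rw [← h1, ← h2, h0]
  rcases Nat.lt_succ_iff_lt_or_eq.1 hj with h1 | rfl
  · exact key j (j + 1) (by omega) (by omega) (by omega) (hc.pth.jn j h1)
  · have := hc.pos
    exact key j 0 le_rfl (by omega) (by omega) hc.cj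

/-- HINT: `Cyc.cc`; the edges of a ring are no loops. -/
theorem Cw.deg (h : G.Cw X F) (hv : v ∈ X) : (F ∩ G.cut {v}).card = 2 := by
  have e1 : F ∩ G.cut {v} = F.filter fun e => G.s e = v ∨ G.t e = v := by
    ext e
    rw [mem_inter, mem_filter]
    refine and_congr_right fun he => ?_
    rw [mem_cut_single (h.deg_nl he)]
    exact ⟨fun k => k.2, fun k => ⟨h.sub he, k⟩⟩
  have e2 : G.deg F v = 2 := by
    obtain ⟨n, u, g, hc, rfl, rfl⟩ := h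
    obtain ⟨j, hj, rfl⟩ := mem_pv.1 hv
    exact hc.cc.2.2.2.2 j hj
  rw [e1, card_filter, ← e2]
  refine sum_congr rfl fun e he => ?_
  have := h.deg_nl he
  unfold inc iv
  by_cases h1 : G.s e = v <;> by_cases h2 : G.t e = v
  · exact absurd (h1.trans h2.symm) this
  · simp [h1, h2]
  · simp [h1, h2]
  · simp [h1, h2]

theorem Cw.two (h : G.Cw X F) (hv : v ∈ X) : ∃ w ∈ X, w ≠ v := by
  obtain ⟨n, u, g, hc, rfl, rfl⟩ := h
  have := hc.pos
  by_cases h0 : u 0 = v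
  · refine ⟨u 1, mem_pv.2 ⟨1, this, rfl⟩, fun h1 => ?_⟩
    have := hc.pth.inj 0 (by omega) 1 this (h0.trans h1.symm)
    omega
  · exact ⟨u 0, mem_pv.2 ⟨0, by omega, rfl⟩, h0⟩

theorem Cw.ne (h : G.Cw X F) : X.Nonempty := by
  obtain ⟨n, u, g, -, rfl, rfl⟩ := h
  exact ⟨u 0, mem_pv.2 ⟨0, by omega, rfl⟩⟩

theorem Cw.rch (h : G.Cw X F) (hv : v ∈ X) (hw : w ∈ X) : G.Rch F v w := by
  obtain ⟨n, u, g, hc, rfl, rfl⟩ := h
  rw [← hc.cc.2.1] at hv hw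
  exact hc.cc.1.2.2 v hv w hw

/-- HINT: `cyc_of_two` with the reversed second path. -/
theorem cw_of_two (h : G.Pw a b X F) (h' : G.Pw a b Y F') (hab : a ≠ b)
    (hi : ∀ v ∈ X, v ∈ Y → v = a ∨ v = b) (hd : Disjoint F F') :
    G.Cw (X ∪ Y) (F ∪ F') ∧ G.par (F ∪ F') = G.par F + G.par F' := by
  refine ⟨?_, par_union hd⟩
  obtain ⟨n, v, g, h1, v0, vn, rfl, rfl⟩ := h
  obtain ⟨m, u, k, h2, u0, um, rfl, rfl⟩ := h'.symm
  have hn : 1 ≤ n := by
    rcases Nat.eq_zero_or_pos n with rfl | hn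
    · exact absurd (v0.symm.trans vn) hab
    · exact hn
  have hm : 1 ≤ m := by
    rcases Nat.eq_zero_or_pos m with rfl | hm
    · exact absurd (um.symm.trans u0) hab
    · exact hm
  have hc := cyc_of_two h1 h2 hn hm (u0.trans vn.symm) (um.trans v0.symm) (fun j j0 jm hj => by
    rcases hi _ hj (mem_pv.2 ⟨j, jm.le, rfl⟩) with h3 | h3
    · have := h2.inj j jm.le m le_rfl (h3.trans um.symm)
      omega
    · have := h2.inj j jm.le 0 (by omega) (h3.trans u0.symm)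
      omega) (fun h3 => disjoint_left.1 hd (mem_pe.2 ⟨0, hn, rfl⟩)
        (mem_pe.2 ⟨m - 1, by omega, h3⟩))
  refine ⟨n + m - 1, _, _, hc, ?_, ?_⟩
  · ext x
    rw [mem_union, ← mem_pv_cat (vn.trans u0.symm), mem_pv, mem_pv]
    constructor
    · rintro ⟨i, hi, rfl⟩
      exact ⟨i, by omega, rfl⟩
    · rintro ⟨i, hi, rfl⟩
      by_cases h3 : i = n + m
      · refine ⟨0, by omega, ?_⟩
        rw [Pth_catL (by omega), Pth_catR (vn.trans u0.symm) (by omega), h3,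
          Nat.add_sub_cancel_left, v0, um]
      · exact ⟨i, by omega, rfl⟩
  · ext x
    rw [mem_union, ← mem_pe_cat, show n + m - 1 + 1 = n + m by omega]

theorem Cw.arcs_img {α : Type} [DecidableEq α] {n i : ℕ} (hi : i ≤ n) (v : ℕ → α) :
    (range (n + 1)).image (fun k => v ((i + k) % (n + 1))) = (range (n + 1)).image v := by
  ext x
  simp only [mem_image, mem_range]
  constructor
  · rintro ⟨k, -, rfl⟩
    exact ⟨_, Nat.mod_lt _ (by omega), rfl⟩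
  · rintro ⟨j, hj, rfl⟩
    by_cases h : i ≤ j
    · refine ⟨j - i, by omega, ?_⟩
      rw [show i + (j - i) = j by omega, Nat.mod_eq_of_lt hj]
    · refine ⟨j + (n + 1) - i, by omega, ?_⟩
      rw [show i + (j + (n + 1) - i) = j + (n + 1) by omega, Nat.add_mod_right,
        Nat.mod_eq_of_lt hj]

/-- a ring is a path from `a` closed by an edge -/
theorem Cw.arcs_open (h : G.Cw X F) (ha : a ∈ X) :
    ∃ c e F', G.Pw a c X F' ∧ e ∈ G.A ∧ G.Je e a c ∧ e ∉ F' ∧ F = insert e F' := by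
  obtain ⟨n, u, g, hc, rfl, rfl⟩ := h
  obtain ⟨i, hi, rfl⟩ := mem_pv.1 ha
  have hr := hc.rot hi
  set u' : ℕ → V := fun k => u ((i + k) % (n + 1)) with hu'
  set g' : ℕ → E := fun k => g ((i + k) % (n + 1)) with hg'
  have h0 : u' 0 = u i := by
    simp only [hu', Nat.add_zero]
    rw [Nat.mod_eq_of_lt (by omega)]
  refine ⟨u' n, g' n, pe n g', ⟨n, u', g', hr.pth, h0, rfl, Cw.arcs_img hi u, rfl⟩, hr.cm,
    h0 ▸ hr.cj.symm, fun hm => ?_, ?_⟩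
  · obtain ⟨j, hj, e⟩ := mem_pe.1 hm
    have := hr.einj hj.le le_rfl e
    omega
  · have e1 : pe (n + 1) g' = pe (n + 1) g := Cw.arcs_img hi g
    rw [← e1]
    unfold pe
    rw [range_add_one, image_insert]

theorem Cw.arcs_0 (h : G.Cw X F) (ha : a ∈ X) (hb : b ∈ X) (hab : a ≠ b) :
    ∃ X1 F1 X2 F2, G.Pw a b X1 F1 ∧ G.Pw a b X2 F2 ∧ X = X1 ∪ X2 ∧ F = F1 ∪ F2 ∧
      (∀ v ∈ X1, v ∈ X2 → v = a ∨ v = b) ∧ Disjoint F1 F2 := by
  obtain ⟨c, e, F', hp, he, hj, hn, rfl⟩ := h.arcs_open ha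
  obtain ⟨X1, F1, X2, F2, p1, p2, rfl, rfl, hi, -⟩ := hp.split hb
  have ha2 : a ∉ X2 := fun k => hab (hi a p1.left k)
  refine ⟨X1, F1, insert a X2, insert e F2, p1, (p2.symm.cons he hj ha2).1, ?_, ?_, ?_, ?_⟩
  · rw [union_insert, insert_eq_of_mem (mem_union_left _ p1.left)]
  · rw [union_insert]
  · intro v h1 h2
    rcases mem_insert.1 h2 with h2 | h2
    · exact Or.inl h2
    · exact Or.inr (hi v h1 h2)
  · exact disjoint_insert_right.2 ⟨fun k => hn (mem_union_left _ k), p1.dj1 p2 hi⟩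

/-- the two arcs, the first one contains `t`.  HINT: `Cyc.rot` to start at `a`, `Pth.sub`, and the
other arc as the rotation starting at `b`. -/
theorem Cw.arcs (h : G.Cw X F) (ha : a ∈ X) (hb : b ∈ X) (hab : a ≠ b) (ht : t ∈ X) :
    ∃ X1 F1 X2 F2, G.Pw a b X1 F1 ∧ G.Pw a b X2 F2 ∧ X = X1 ∪ X2 ∧ F = F1 ∪ F2 ∧
      (∀ v ∈ X1, v ∈ X2 → v = a ∨ v = b) ∧ Disjoint F1 F2 ∧ G.par F = G.par F1 + G.par F2 ∧
      t ∈ X1 := by
  obtain ⟨X1, F1, X2, F2, p1, p2, rfl, rfl, hi, hd⟩ := h.arcs_0 ha hb hab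
  rcases mem_union.1 ht with ht | ht
  · exact ⟨X1, F1, X2, F2, p1, p2, rfl, rfl, hi, hd, par_union hd, ht⟩
  · exact ⟨X2, F2, X1, F1, p2, p1, union_comm _ _, union_comm _ _, fun v h1 h2 => hi v h2 h1,
      hd.symm, by rw [par_union hd, add_comm], ht⟩

/-- a path with both ends on a ring closes with both arcs -/
theorem Cw.ear (h : G.Cw H R) (hp : G.Pw a b X F) (ha : a ∈ H) (hb : b ∈ H) (hab : a ≠ b)
    (hi : ∀ v ∈ X, v ∈ H → v = a ∨ v = b) (hd : Disjoint F R) (ht : t ∈ H) :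
    ∃ X1 F1 X2 F2, G.Pw a b X1 F1 ∧ G.Pw a b X2 F2 ∧ H = X1 ∪ X2 ∧ R = F1 ∪ F2 ∧
      (∀ v ∈ X1, v ∈ X2 → v = a ∨ v = b) ∧ Disjoint F1 F2 ∧ G.par R = G.par F1 + G.par F2 ∧
      t ∈ X1 ∧ G.Cw (X ∪ X1) (F ∪ F1) ∧ G.Cw (X ∪ X2) (F ∪ F2) ∧
      G.par (F ∪ F1) = G.par F + G.par F1 ∧ G.par (F ∪ F2) = G.par F + G.par F2 := by
  obtain ⟨X1, F1, X2, F2, p1, p2, rfl, rfl, h1, h2, h3, h4⟩ := h.arcs ha hb hab ht
  have c1 := cw_of_two hp p1 hab (fun v k1 k2 => hi v k1 (mem_union_left _ k2))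
    (hd.mono_right subset_union_left)
  have c2 := cw_of_two hp p2 hab (fun v k1 k2 => hi v k1 (mem_union_right _ k2))
    (hd.mono_right subset_union_right)
  exact ⟨X1, F1, X2, F2, p1, p2, rfl, rfl, h1, h2, h3, h4, c1.1, c2.1, c1.2, c2.2⟩

/-- the ring without the vertex `v` is a path.  HINT: `Cyc.rot`. -/
theorem Cw.del (h : G.Cw X F) (hv : v ∈ X) :
    ∃ e f a b Y F', e ≠ f ∧ G.Je e v a ∧ G.Je f v b ∧ G.Pw a b Y F' ∧ v ∉ Y ∧ X = insert v Y ∧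
      F = insert e (insert f F') ∧ F ∩ G.cut {v} = {e, f} := by
  obtain ⟨w, hw, hwv⟩ := h.two hv
  obtain ⟨X1, F1, X2, F2, p1, p2, rfl, rfl, hi, hd, -, -⟩ := h.arcs hv hw hwv.symm hv
  obtain ⟨e, a, Y1, G1, eA, je, q1, n1, rfl, rfl, -, u1⟩ := p1.head hwv.symm
  obtain ⟨f, b, Y2, G2, fA, jf, q2, n2, rfl, rfl, -, u2⟩ := p2.head hwv.symm
  have key : ∀ {k : E} {y : V}, k ∈ G.A → G.Je k v y → y ≠ v → k ∈ G.cut {v} := by
    intro k y hk hj hy
    refine (mem_cut_single ?_).2 ⟨hk, hj.at_iff.2 (Or.inl rfl)⟩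
    rcases hj with ⟨k1, k2⟩ | ⟨k1, k2⟩
    · rw [k1, k2]
      exact hy.symm
    · rw [k1, k2]
      exact hy
  refine ⟨e, f, a, b, Y1 ∪ Y2, G1 ∪ G2,
    fun k => disjoint_left.1 hd (mem_insert_self _ _) (k ▸ mem_insert_self _ _), je, jf,
    (q1.cat q2.symm fun u k1 k2 => ?_).1, fun k => (mem_union.1 k).elim n1 n2, ?_, ?_, ?_⟩
  · exact (hi u (mem_insert_of_mem k1) (mem_insert_of_mem k2)).resolve_left fun k => n1 (k ▸ k1)
  · ext u
    simp only [mem_union, mem_insert]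
    (clear * -; tauto)
  · ext u
    simp only [mem_union, mem_insert]
    (clear * -; tauto)
  · ext k
    rw [mem_inter, mem_union, mem_insert (s := {f}), mem_singleton]
    constructor
    · rintro ⟨k1, k2⟩
      have k3 : G.At k v := by
        have := (mem_filter.1 k2).2
        simp only [mem_singleton] at this
        unfold At
        tauto
      exact k1.imp (fun k4 => u1 k k4 k3) fun k4 => u2 k k4 k3
    · rintro (rfl | rfl)
      · exact ⟨Or.inl (mem_insert_self _ _), key eA je fun k => n1 (k ▸ q1.left)⟩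
      · exact ⟨Or.inr (mem_insert_self _ _), key fA jf fun k => n2 (k ▸ q2.left)⟩

/-- closing a path through a new vertex -/
theorem Pw.close (h : G.Pw a b X F) (he : e ∈ G.A) (hf : f ∈ G.A) (hef : e ≠ f)
    (h1 : G.Je e v a) (h2 : G.Je f v b) (hv : v ∉ X) :
    G.Cw (insert v X) (insert e (insert f F)) ∧
      G.par (insert e (insert f F)) = G.n e + G.n f + G.par F := by
  have hvb : v ≠ b := fun k => hv (k ▸ h.right)
  obtain ⟨p1, ne⟩ := h.cons he h1 hv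
  have nf : f ∉ F := fun k => hv (h.ends k (h2.at_iff.2 (Or.inl rfl)))
  have hc := (cw_of_two p1 (pw_edge hf h2 hvb) hvb (fun u _ k => by simpa using k)
    (disjoint_singleton_right.2 fun k => (mem_insert.1 k).elim (fun k => hef k.symm) nf)).1
  have e1 : insert v X ∪ {v, b} = insert v X :=
    union_eq_left.2 (insert_subset (mem_insert_self _ _)
      (singleton_subset_iff.2 (mem_insert_of_mem h.right)))
  have e2 : insert e F ∪ {f} = insert e (insert f F) := by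
    ext u
    simp only [mem_union, mem_insert, mem_singleton]
    tauto
  rw [e1, e2] at hc
  refine ⟨hc, ?_⟩
  unfold par
  rw [sum_insert fun k => (mem_insert.1 k).elim hef ne, sum_insert nf, add_assoc]

/-- HINT: `Ev.even_crs` for the edges of the ring, and `Cw.rch`. -/
theorem Cw.inside (h : G.Cw X F) (hv : v ∈ X) (hz : v ∈ Z)
    (hc : ∀ e ∈ F, ∀ x y, G.Je e x y → x ∈ Z → y ∉ Z → e = f) : X ⊆ Z := by
  intro w hw
  by_contra hn
  obtain ⟨X1, F1, X2, F2, p1, p2, -, rfl, -, hd, -, -⟩ :=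
    h.arcs hv hw (fun k => hn (k ▸ hz)) hv
  obtain ⟨e1, k1, x1, y1, j1, a1, b1⟩ := p1.exit hz hn
  obtain ⟨e2, k2, x2, y2, j2, a2, b2⟩ := p2.exit hz hn
  rw [hc e1 (mem_union_left _ k1) _ _ j1 a1 b1] at k1
  rw [hc e2 (mem_union_right _ k2) _ _ j2 a2 b2] at k2
  exact disjoint_left.1 hd k1 k2

/-- the two halves of a ring from `v` to the first vertices in `M` -/
theorem Cw.ea (h : G.Cw X F) (hv : v ∈ X) (hM : v ∉ M) (hd : ¬ Disjoint X M) :
    ∃ x y X1 X2 F1 F2, G.Ea v M ∅ x y X1 X2 F1 F2 ∧ X1 ⊆ X ∧ X2 ⊆ X := by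
  obtain ⟨w, hw, hwM⟩ := not_disjoint_iff.1 hd
  obtain ⟨Y1, G1, Y2, G2, p1, p2, rfl, -, hi, hdj, -, -⟩ :=
    h.arcs hv hw (fun k => hM (k ▸ hwM)) hv
  obtain ⟨x, X1, F1, X3, F3, m1, q1, -, rfl, rfl, -, -, o1⟩ :=
    p1.first (not_disjoint_iff.2 ⟨w, p1.right, hwM⟩)
  obtain ⟨y, X2, F2, X4, F4, m2, q2, -, rfl, rfl, -, -, o2⟩ :=
    p2.first (not_disjoint_iff.2 ⟨w, p2.right, hwM⟩)
  refine ⟨x, y, X1, X2, F1, F2, ⟨q1, q2, m1, m2, o1, o2, fun u k1 k2 => ?_,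
    hdj.mono subset_union_left subset_union_left, disjoint_empty_right _,
    disjoint_empty_right _⟩, subset_union_left.trans subset_union_left,
    subset_union_left.trans subset_union_right⟩
  exact (hi u (mem_union_left _ k1) (mem_union_left _ k2)).imp_right fun (k : u = w) =>
    ⟨o1 u k1 (k ▸ hwM), o2 u k2 (k ▸ hwM)⟩

theorem Ea.symm (h : G.Ea v M L x y X1 X2 F1 F2) : G.Ea v M L y x X2 X1 F2 F1 :=
  ⟨h.p2, h.p1, h.m2, h.m1, h.o2, h.o1,
    fun w h2 h1 => (h.i12 w h1 h2).imp id And.symm, h.dF.symm, h.l2, h.l1⟩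

/-- the two halves as one path -/
theorem Ea.pw (h : G.Ea v M L x y X1 X2 F1 F2) (hxy : x ≠ y) :
    G.Pw x y (X1 ∪ X2) (F1 ∪ F2) ∧ G.par (F1 ∪ F2) = G.par F1 + G.par F2 ∧
      ∀ w ∈ X1 ∪ X2, w ∈ M → w = x ∨ w = y := by
  obtain ⟨k1, k2⟩ := h.p1.symm.cat h.p2 fun u k1 k2 =>
    (h.i12 u k1 k2).resolve_right fun k => hxy (k.1.symm.trans k.2)
  exact ⟨k1, k2, fun u hu hm => (mem_union.1 hu).imp (fun k => h.o1 u k hm) fun k => h.o2 u k hm⟩

/-- the two halves as one ring -/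
theorem Ea.cw (h : G.Ea v M L x x X1 X2 F1 F2) (hv : v ∉ M) :
    G.Cw (X1 ∪ X2) (F1 ∪ F2) ∧ ∀ w ∈ X1 ∪ X2, w ∈ M → w = x := by
  exact ⟨(cw_of_two h.p1 h.p2 (fun k => hv (k ▸ h.m1))
    (fun u k1 k2 => (h.i12 u k1 k2).imp_right And.left) h.dF).1,
    fun u hu hm => (mem_union.1 hu).elim (fun k => h.o1 u k hm) fun k => h.o2 u k hm⟩

/-- the last edges of the two halves -/
theorem Ea.last (h : G.Ea v M L x y X1 X2 F1 F2) (hv : v ∉ M) :
    ∃ e ∈ F1, ∃ f ∈ F2, ∃ a ∈ X1, ∃ b ∈ X2, e ≠ f ∧ G.Je e x a ∧ G.Je f y b ∧ a ∉ M ∧ b ∉ M := by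
  obtain ⟨e, a, Y1, G1, -, je, q1, n1, e1, e2, -, -⟩ := h.p1.symm.head fun k => hv (k ▸ h.m1)
  obtain ⟨f, b, Y2, G2, -, jf, q2, n2, e3, e4, -, -⟩ := h.p2.symm.head fun k => hv (k ▸ h.m2)
  have k1 : e ∈ F1 := e2 ▸ mem_insert_self _ _
  have k2 : f ∈ F2 := e4 ▸ mem_insert_self _ _
  have k3 : a ∈ X1 := e1 ▸ mem_insert_of_mem q1.left
  have k4 : b ∈ X2 := e3 ▸ mem_insert_of_mem q2.left
  exact ⟨e, k1, f, k2, a, k3, b, k4, fun k => disjoint_left.1 h.dF k1 (k ▸ k2), je, jf,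
    fun k => n1 (h.o1 a k3 k ▸ q1.left), fun k => n2 (h.o2 b k4 k ▸ q2.left)⟩

theorem ring3 (he : e ∈ G.A) (hf : f ∈ G.A) (hg : g ∈ G.A) (h1 : G.Je e a b) (h2 : G.Je f b c)
    (h3 : G.Je g c a) (hab : a ≠ b) (hbc : b ≠ c) (hac : a ≠ c) :
    G.Cw {a, b, c} {e, f, g} := by
  have := ((pw_edge hf h2 hbc).close he hg (Cut_je_ne h1.symm h3 hbc hab.symm) h1 h3.symm
    (by simp [hab, hac])).1
  rwa [pair_comm g f] at this

theorem ring4 {k : E} (he : e ∈ G.A) (hf : f ∈ G.A) (hg : g ∈ G.A) (hk : k ∈ G.A)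
    (h1 : G.Je e a b) (h2 : G.Je f b c) (h3 : G.Je g c z) (h4 : G.Je k z a) (hab : a ≠ b)
    (hac : a ≠ c) (haz : a ≠ z) (hbc : b ≠ c) (hbz : b ≠ z) (hcz : c ≠ z) :
    G.Cw {a, b, c, z} {e, f, g, k} := by
  have := (((pw_edge hg h3 hcz).cons hf h2 (by simp [hbc, hbz])).1.close he hk
    (Cut_je_ne h1.symm h4 hbz hab.symm) h1 h4.symm (by simp [hab, hac, haz])).1
  have e1 : (insert e (insert k (insert f {g})) : Finset E) = {e, f, g, k} := by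
    ext u
    simp only [mem_insert, mem_singleton]
    (clear * -; tauto)
  rwa [e1] at this

end SG

end Pool.Agent.Work.MP_8c679b_co
end

-- merged part: Pool.Agent.Work.MP_8c679b_co.A3.GC
section
/-!
Cut counting in the quotient and first facts on objects.
-/

set_option autoImplicit false
set_option linter.unusedSectionVars false

namespace Pool.Agent.Work.MP_8c679b_co

open Finset

namespace SG

variable {V E : Type} [Fintype V] [DecidableEq V] [DecidableEq E] [Nonempty E] {G : SG V E}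
  {U Nb Tm X Y Z M L D D' H P Q W X1 X2 A1 A2 A3 A4 S : Finset V}
  {F F' F1 F2 E1 E2 E3 E4 R : Finset E} {a b c v w x y z s t u B B1 B2 : V} {e f g : E}

/-- a closed set is left only by the listed edges -/
theorem Clo.cut (h : G.Clo X ∅ R) : G.cut X ⊆ R := by
  intro e he
  obtain ⟨h1, h2⟩ := mem_cut.1 he
  by_cases hs : G.s e ∈ X
  · simpa using h e h1 _ _ (Or.inl ⟨rfl, rfl⟩) hs fun k => h2 (iff_of_true hs k)
  · simpa using h e h1 _ _ (Or.inr ⟨rfl, rfl⟩) (by tauto) hs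

theorem T3n.mem (h : T3n Tm s t u) : s ∈ Tm ∧ t ∈ Tm ∧ u ∈ Tm ∧ ∀ v ∈ Tm, v = s ∨ v = t ∨ v = u := by
  rw [h.1]
  simp

theorem T3n.sw1 (h : T3n Tm s t u) : T3n Tm t s u := by
  exact ⟨h.1.trans (insert_comm _ _ _), h.2.1.symm, h.2.2.2, h.2.2.1⟩

theorem T3n.sw2 (h : T3n Tm s t u) : T3n Tm s u t := by
  exact ⟨by rw [h.1, pair_comm], h.2.2.1, h.2.1, h.2.2.2.symm⟩

theorem QG.third (hq : G.QG U Nb Tm) (hs : s ∈ Tm) (ht : t ∈ Tm) (hst : s ≠ t) :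
    ∃ u, T3n Tm s t u := by
  obtain ⟨R, h1, h2, h3, h4⟩ := Cut_rest (k := 1) hq.c3 hs ht hst
  obtain ⟨u, rfl⟩ := card_eq_one.1 h1
  exact ⟨u, h2, hst, notMem_singleton.1 h3, notMem_singleton.1 h4⟩

theorem QG.two (hq : G.QG U Nb Tm) (hs : s ∈ Tm) : ∃ t u, T3n Tm s t u := by
  obtain ⟨t, ht, h⟩ := exists_mem_ne (hq.c3 ▸ by decide : 1 < Tm.card) s
  exact ⟨t, hq.third hs ht h.symm⟩

theorem QG.je (hq : G.QG U Nb Tm) (he : e ∈ G.A) (hj : G.Je e x y) : x ∈ U ∧ y ∈ U ∧ x ≠ y := by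
  obtain ⟨h1, h2, h3⟩ := hq.ins e he
  rcases hj with ⟨rfl, rfl⟩ | ⟨rfl, rfl⟩
  exacts [⟨h1, h2, h3⟩, ⟨h2, h1, h3.symm⟩]

theorem QG.cut1 (hq : G.QG U Nb Tm) : e ∈ G.cut {v} ↔ e ∈ G.A ∧ ∃ w, G.Je e v w := by
  refine ⟨fun h => ?_, fun ⟨h, w, k⟩ =>
    (mem_cut_single (hq.ins e h).2.2).2 ⟨h, k.at_iff.2 (Or.inl rfl)⟩⟩
  have h1 := (mem_cut.1 h).1
  rcases ((mem_cut_single (hq.ins e h1).2.2).1 h).2 with k | k
  exacts [⟨h1, _, Or.inl ⟨k, rfl⟩⟩, ⟨h1, _, Or.inr ⟨rfl, k⟩⟩]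

theorem QG.pw (hq : G.QG U Nb Tm) (h : G.Pw a b X F) (ha : a ∈ U) : X ⊆ U := by
  obtain ⟨n, v, g, hp, rfl, -, rfl, -⟩ := h
  intro x hx
  obtain ⟨i, hi, rfl⟩ := mem_pv.1 hx
  cases i with
  | zero => exact ha
  | succ i => exact (hq.je (hp.mem i hi) (hp.jn i hi)).2.1

theorem QG.cw (hq : G.QG U Nb Tm) (h : G.Cw X F) : X ⊆ U := by
  obtain ⟨n, v, g, hp, rfl, -⟩ := h
  exact hq.pw ⟨n, v, g, hp.pth, rfl, rfl, rfl, rfl⟩ (hq.je hp.cm hp.cj).2.1

theorem QG.rc (hq : G.QG U Nb Tm) (h : Z ⊆ U) : G.rc M Z ⊆ U := by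
  intro v hv
  obtain ⟨z, hz, -, k⟩ := mem_rc.1 hv
  exact k.stay (h hz) fun e he x y hj _ hy => absurd (hq.je he hj).2.1 hy

theorem QG.ob (hq : G.QG U Nb Tm) (h : G.Ob Nb D) : D ⊆ U ∧ D.Nonempty := by
  rcases h with ⟨b, hb, rfl⟩ | ⟨F, h, -⟩
  exacts [⟨singleton_subset_iff.2 (hq.nb hb), singleton_nonempty b⟩, ⟨hq.cw h, h.ne⟩]

theorem QG.c2_aux (hq : G.QG U Nb Tm) (hX : X ⊆ U) (h0 : X ≠ ∅) (h1 : X ≠ U) :
    3 ≤ (G.cut X).card + (X ∩ Tm).card ∧ 3 ≤ (G.cut X).card + (U \ X ∩ Tm).card ∧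
      (X ∩ Tm).card + (U \ X ∩ Tm).card = 3 ∧ ((G.cut X).card + (X ∩ Tm).card = 3 → X.card = 1) ∧
      ((G.cut X).card + (U \ X ∩ Tm).card = 3 → (U \ X).card = 1) := by
  have e1 : G.cut (U \ X) = G.cut X := by
    ext e
    simp only [mem_cut, mem_sdiff]
    refine and_congr_right fun he => ?_
    have := hq.ins e he
    tauto
  obtain ⟨v, hv⟩ := nonempty_iff_ne_empty.2 h0
  obtain ⟨a1, a2⟩ := hq.ht X hX ⟨v, hv⟩
  obtain ⟨a3, a4⟩ := hq.ht (U \ X) sdiff_subset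
    (sdiff_nonempty.2 fun c => h1 (Subset.antisymm hX c))
  rw [e1] at a3 a4
  refine ⟨a1, a3, ?_, fun c => (a2 c).resolve_right h1, fun c => (a4 c).resolve_right fun k =>
    (mem_sdiff.1 (k.symm ▸ hX hv : v ∈ U \ X)).2 hv⟩
  rw [← hq.c3, ← card_sdiff_add_card_inter Tm X, add_comm, inter_comm X]
  congr 2
  ext t
  simp only [mem_inter, mem_sdiff]
  exact ⟨fun c => ⟨c.2, c.1.2⟩, fun c => ⟨⟨hq.tm c.1, c.2⟩, c.1⟩⟩

/-- HINT: `cut X = cut (U \ X)`; use `ht` for `X` and for `U \ X` by the number of terminals in `X`;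
a single vertex with at most two edges is a terminal. -/
theorem QG.c2 (hq : G.QG U Nb Tm) (hX : X ⊆ U) (h : G.Clo X ∅ {e, f}) :
    X = ∅ ∨ X = U ∨ (∃ t ∈ Tm, X = {t}) ∨ ∃ t ∈ Tm, U \ X = {t} := by
  by_cases h0 : X = ∅
  · exact Or.inl h0
  by_cases h1 : X = U
  · exact Or.inr (Or.inl h1)
  obtain ⟨a1, a2, a3, a4, a5⟩ := hq.c2_aux hX h0 h1
  have := (card_le_card h.cut).trans card_le_two
  have k : ∀ Y : Finset V, Y.card = 1 → 0 < (Y ∩ Tm).card → ∃ t ∈ Tm, Y = {t} := fun Y b1 b2 => by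
    obtain ⟨t, ht⟩ := card_pos.1 b2
    obtain ⟨w, rfl⟩ := card_eq_one.1 b1
    exact ⟨w, mem_singleton.1 (mem_inter.1 ht).1 ▸ (mem_inter.1 ht).2, rfl⟩
  by_cases c : (X ∩ Tm).card = 1
  · exact Or.inr (Or.inr (Or.inl (k _ (a4 (by omega)) (by omega))))
  · exact Or.inr (Or.inr (Or.inr (k _ (a5 (by omega)) (by omega))))

theorem QG.c1 (hq : G.QG U Nb Tm) (hX : X ⊆ U) (h : G.Clo X ∅ {e}) : X = ∅ ∨ X = U := by
  by_contra k
  obtain ⟨a1, a2, a3, -⟩ := hq.c2_aux hX (fun c => k (Or.inl c)) fun c => k (Or.inr c)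
  have := (card_le_card h.cut).trans (card_singleton e).le
  omega

/-- a nonempty set without terminals and with at most three leaving edges is a plain vertex -/
theorem QG.c3' (hq : G.QG U Nb Tm) (hX : X ⊆ U) (hT : Disjoint X Tm) (hn : X.Nonempty)
    (h : (G.cut X).card ≤ 3) : (G.cut X).card = 3 ∧ ∃ v, v ∉ Nb ∧ X = {v} := by
  obtain ⟨h1, h2⟩ := hq.ht X hX hn
  rw [disjoint_iff_inter_eq_empty.1 hT, card_empty, add_zero] at h1 h2
  have h3 := le_antisymm h h1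
  rcases h2 h3 with k | rfl
  · obtain ⟨v, rfl⟩ := card_eq_one.1 k
    exact ⟨h3, v, fun c => absurd ((hq.d4 v c).symm.trans h3) (by decide), rfl⟩
  · have := hq.c3
    rw [(disjoint_self_iff_empty Tm).1 (hT.mono_left hq.tm)] at this
    simp at this

/-- HINT: `QG.c3'`; a ring has two vertices. -/
theorem QG.c4 (hq : G.QG U Nb Tm) (hX : X ⊆ U) (hT : Disjoint X Tm) (hD : G.Ob Nb D)
    (hDX : D ⊆ X) : 4 ≤ (G.cut X).card := by
  by_contra k
  obtain ⟨-, v, hv, rfl⟩ := hq.c3' hX hT ((hq.ob hD).2.mono hDX) (by omega)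
  rcases hD with ⟨b, hb, rfl⟩ | ⟨F, h, -⟩
  · exact hv (mem_singleton.1 (hDX (mem_singleton_self b)) ▸ hb)
  · obtain ⟨w, hw⟩ := h.ne
    obtain ⟨w', h1, h2⟩ := h.two hw
    exact h2 ((mem_singleton.1 (hDX h1)).trans (mem_singleton.1 (hDX hw)).symm)

/-- HINT: with `k` edges between `X` and `B` the set `insert B X` has at most `4 - k + 1` leaving
edges (`QG.c4`), so `k ≤ 1` and `X` has at most two leaving edges. -/
theorem QG.nov (hq : G.QG U Nb Tm) (hX : X ⊆ U) (hT : Disjoint X Tm) (hB : B ∈ Nb) (hBX : B ∉ X)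
    (h : G.Clo X {B} {f}) : X = ∅ := by
  by_contra k
  have s : ({B} : Finset V) ⊆ insert B X := singleton_subset_iff.2 (mem_insert_self _ _)
  have h1 := (hq.ht X hX (nonempty_iff_ne_empty.2 k)).1
  have h2 := hq.c4 (insert_subset (hq.nb hB) hX)
    (disjoint_insert_left.2 ⟨disjoint_left.1 hq.dj hB, hT⟩) (Or.inl ⟨B, hB, rfl⟩) s
  have h3 := cut_add (G := G) s
  have h4 : G.cut X ⊆ insert f (G.cut {B} \ G.cut (insert B X)) := fun e he => by
    obtain ⟨a1, a2⟩ := mem_cut.1 he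
    have a3 := h e a1 _ _ (Or.inl ⟨rfl, rfl⟩)
    have a4 := h e a1 _ _ (Or.inr ⟨rfl, rfl⟩)
    simp only [mem_insert, mem_sdiff, mem_cut, mem_singleton] at a3 a4 ⊢
    grind
  have h5 := (card_le_card h4).trans (card_insert_le _ _)
  rw [disjoint_iff_inter_eq_empty.1 hT, card_empty] at h1
  rw [crs_ins s, sdiff_singleton_eq_erase, erase_insert hBX, hq.d4 B hB] at h3
  omega

/-- both edges of a terminal on a ring belong to the ring -/
theorem QG.tm_cw (hq : G.QG U Nb Tm) (h : G.Cw X F) (ht : t ∈ Tm) (hX : t ∈ X) (he : e ∈ G.A)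
    (hj : G.Je e t w) : e ∈ F ∧ w ∈ X := by
  have h1 := eq_of_subset_of_card_le (inter_subset_right (s₁ := F))
    ((hq.d2 t ht).trans (h.deg hX).symm).le
  have h2 : e ∈ F := (mem_inter.1 (h1.symm ▸ hq.cut1.2 ⟨he, w, hj⟩ : e ∈ F ∩ G.cut {t})).1
  exact ⟨h2, h.ends h2 (hj.at_iff.2 (Or.inr rfl))⟩

/-- two different edges from a vertex of a ring to the outside: the vertex is a box -/
theorem QG.two_out (hq : G.QG U Nb Tm) (h : G.Cw X F) (hx : x ∈ X) (he : e ∈ G.A) (hf : f ∈ G.A)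
    (hef : e ≠ f) (h1 : G.Je e x a) (h2 : G.Je f x b) (ha : e ∉ F) (hb : f ∉ F) : x ∈ Nb := by
  by_contra k
  have h3 : insert e (insert f (F ∩ G.cut {x})) ⊆ G.cut {x} :=
    insert_subset (hq.cut1.2 ⟨he, a, h1⟩) (insert_subset (hq.cut1.2 ⟨hf, b, h2⟩) inter_subset_right)
  have h4 := card_le_card h3
  rw [card_insert_of_notMem (by simp [hef, ha]), card_insert_of_notMem (by simp [hb]),
    h.deg hx] at h4
  by_cases c : x ∈ Tm
  · have := hq.d2 x c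
    omega
  · have := hq.d3 x (hq.cw h hx) k c
    omega

/-- the four edges of a box, two of them given -/
theorem QG.q4 (hq : G.QG U Nb Tm) (hB : B ∈ Nb) (he : e ∈ G.cut {B}) (hf : f ∈ G.cut {B})
    (hef : e ≠ f) : ∃ c d, G.Q4 {B} e f c d := exists_q4 (hq.d4 B hB) he hf hef

/-- a box on a ring: two ring edges and two outer edges -/
theorem QG.q4_cw (hq : G.QG U Nb Tm) (hB : B ∈ Nb) (h : G.Cw X F) (hX : B ∈ X) :
    ∃ p q g k, G.Q4 {B} p q g k ∧ p ∈ F ∧ q ∈ F ∧ g ∉ F ∧ k ∉ F := by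
  obtain ⟨p, q, h1, h2⟩ := card_eq_two.1 (h.deg hX)
  have h3 : ∀ e, e ∈ F ∧ e ∈ G.cut {B} ↔ e = p ∨ e = q := fun e => by
    rw [← mem_inter, h2, mem_insert, mem_singleton]
  have hp := (h3 p).2 (Or.inl rfl)
  have hq' := (h3 q).2 (Or.inr rfl)
  obtain ⟨c, d, k⟩ := hq.q4 hB hp.2 hq'.2 h1
  refine ⟨p, q, c, d, k, hp.1, hq'.1, fun a => ?_, fun a => ?_⟩
  · exact ((h3 c).1 ⟨a, k.mem.2.2.1⟩).elim k.2.2.1.symm k.2.2.2.2.1.symm
  · exact ((h3 d).1 ⟨a, k.mem.2.2.2⟩).elim k.2.2.2.1.symm k.2.2.2.2.2.1.symm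

theorem ob_box (hB : B ∈ Nb) : G.Ob Nb {B} := Or.inl ⟨B, hB, rfl⟩

theorem Ob.rv (h : G.Ob Nb D) (hM : Disjoint D M) (hv : v ∈ D) (hw : w ∈ D) : G.Rv M v w := by
  rcases h with ⟨b, -, rfl⟩ | ⟨F, hc, -, -⟩
  · rw [mem_singleton.1 hv, mem_singleton.1 hw]
    exact Rv.refl _ _
  · exact (hc.rch hv hw).mono fun e he => mem_filter.2 ⟨hc.sub he,
      disjoint_left.1 hM (hc.ends he (Or.inl rfl)), disjoint_left.1 hM (hc.ends he (Or.inr rfl))⟩

/-- an object that meets a closed set lies in it -/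
theorem Ob.inside (h : G.Ob Nb D) (hc : G.Clo Z L {f}) (hL : Disjoint D L) (hv : v ∈ D)
    (hz : v ∈ Z) : D ⊆ Z := by
  rcases h with ⟨b, -, rfl⟩ | ⟨F, hw, -, -⟩
  · rw [mem_singleton.1 hv] at hz
    exact singleton_subset_iff.2 hz
  · refine hw.inside (f := f) hv hz fun e he x y hj hx hy => ?_
    rcases hc e (hw.sub he) x y hj hx hy with k | k
    · exact (disjoint_left.1 hL (hw.ends he (hj.at_iff.2 (Or.inr rfl))) k).elim
    · exact mem_singleton.1 k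

/-- an object through a terminal is a valid ring -/
theorem Ob.vr (hq : G.QG U Nb Tm) (h : G.Ob Nb D) (ht : t ∈ Tm) (hD : t ∈ D) : G.Vr Nb D := by
  rcases h with ⟨b, hb, rfl⟩ | ⟨F, hw, hp, -⟩
  · rw [mem_singleton.1 hD] at ht
    exact (disjoint_left.1 hq.dj hb ht).elim
  · exact ⟨F, hw, Or.inl hp⟩

/-- paths of both signs inside an object.  HINT: `Cw.arcs`. -/
theorem Ob.arc (h : G.Ob Nb D) (hx : x ∈ D) (hy : y ∈ D) (hxy : x = y → x ∈ Nb) (ε : ZMod 2) :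
    ∃ Y F, G.Pw x y Y F ∧ Y ⊆ D ∧ ((G.par F = ε ∧ Disjoint D Nb) ∨ (x ∈ Nb ∧ D = {x})) := by
  rcases h with ⟨b, hb, rfl⟩ | ⟨F, hw, hp, hd⟩
  · rw [mem_singleton.1 hx, mem_singleton.1 hy]
    exact ⟨_, _, pw_refl b, Subset.rfl, Or.inr ⟨hb, rfl⟩⟩
  · obtain ⟨X1, F1, X2, F2, p1, p2, rfl, -, -, -, k, -⟩ :=
      hw.arcs hx hy (fun k => disjoint_left.1 hd hx (hxy k)) hx
    by_cases k1 : G.par F1 = ε
    · exact ⟨_, _, p1, subset_union_left, Or.inl ⟨k1, hd⟩⟩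
    · refine ⟨_, _, p2, subset_union_right, Or.inl ⟨?_, hd⟩⟩
      rw [hp] at k
      revert k k1
      generalize G.par F1 = i
      generalize G.par F2 = j
      revert i j ε
      decide

/-- two different edges from one vertex of an object to the outside -/
theorem Ob.two_out (hq : G.QG U Nb Tm) (h : G.Ob Nb D) (hx : x ∈ D) (he : e ∈ G.A) (hf : f ∈ G.A)
    (hef : e ≠ f) (h1 : G.Je e x a) (h2 : G.Je f x b) (ha : a ∉ D) (hb : b ∉ D) : x ∈ Nb := by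
  rcases h with ⟨b, hb, rfl⟩ | ⟨F, hw, -, -⟩
  · rwa [mem_singleton.1 hx]
  · exact hq.two_out hw hx he hf hef h1 h2 (fun k => ha (hw.ends k (h1.at_iff.2 (Or.inr rfl))))
      fun k => hb (hw.ends k (h2.at_iff.2 (Or.inr rfl)))

/-- a path through an object can take both signs.  HINT: first hit `p`, last hit `q`
(`Pw.first` and `Pw.symm`), `Ob.two_out` if `p = q`, `Ob.arc`, `Pw.cat` twice. -/
theorem Ob.thru (hq : G.QG U Nb Tm) (h : G.Ob Nb D) (hp : G.Pw a b X F) (ha : a ∉ D) (hb : b ∉ D)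
    (hd : ¬ Disjoint X D) : ∃ p q X1 F1 X2 F2, p ∈ D ∧ q ∈ D ∧ G.Pw a p X1 F1 ∧ G.Pw q b X2 F2 ∧
      X1 ⊆ X ∧ X2 ⊆ X ∧ (∀ v ∈ X1, v ∈ D → v = p) ∧ (∀ v ∈ X2, v ∈ D → v = q) ∧
      ∀ ε, ∃ X' F', G.Pw a b X' F' ∧ X' ⊆ X1 ∪ D ∪ X2 ∧ ¬ Disjoint X' D ∧
        (∀ e ∈ F', e ∈ F ∨ (G.s e ∈ D ∧ G.t e ∈ D)) ∧
        (G.par F' = ε ∨ ¬ Disjoint X' Nb) := by
  obtain ⟨p, X1, F1, Y, R, hpD, p1, p2, rfl, rfl, i1, -, o1⟩ := hp.first hd
  obtain ⟨q, X2, F2, Y', R', hqD, p3, -, rfl, rfl, -, -, o2⟩ :=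
    p2.symm.first (M := D) fun k => disjoint_left.1 k p2.left hpD
  have i2 : ∀ v ∈ X1, v ∈ X2 → v = p := fun v h1 h2 => i1 v h1 (mem_union_left _ h2)
  have hpq : p = q → p ∈ Nb := by
    rintro rfl
    obtain ⟨e, w, Y1, R1, he, hj, k1, k2, k3, k4, -⟩ := p1.symm.head fun k => ha (k ▸ hpD)
    obtain ⟨f, z, Y2, R2, hf, hj', l1, l2, l3, l4, -⟩ := p3.symm.head fun k => hb (k ▸ hpD)
    refine h.two_out hq hpD he hf (fun k => ?_) hj hj' (fun k => k2 ?_) fun k => l2 ?_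
    · exact disjoint_left.1 (p1.dj1 p3 i2) (k4 ▸ mem_insert_self e R1)
        (k ▸ l4 ▸ mem_insert_self f R2)
    · exact o1 w (k3 ▸ mem_insert_of_mem k1.left) k ▸ k1.left
    · exact o2 z (l3 ▸ mem_insert_of_mem l1.left) k ▸ l1.left
  refine ⟨p, q, X1, F1, X2, F2, hpD, hqD, p1, p3.symm, subset_union_left,
    subset_union_left.trans subset_union_right, o1, o2, fun ε => ?_⟩
  obtain ⟨Y0, F0, p0, s0, k0⟩ := h.arc hpD hqD hpq (ε + G.par F1 + G.par F2)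
  obtain ⟨c1, c2⟩ := p1.cat p0 fun v h1 h2 => o1 v h1 (s0 h2)
  obtain ⟨c3, c4⟩ := c1.cat p3.symm fun v h1 h2 => o2 v h2 (by
    rcases mem_union.1 h1 with k | k
    · exact i2 v k h2 ▸ hpD
    · exact s0 k)
  have hm : p ∈ X1 ∪ Y0 ∪ X2 := mem_union_left _ (mem_union_left _ p1.right)
  refine ⟨_, _, c3, union_subset_union (union_subset_union Subset.rfl s0) Subset.rfl,
    fun k => disjoint_left.1 k hm hpD, fun e he => ?_, k0.imp (fun k => ?_) fun k l =>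
      disjoint_left.1 l hm k.1⟩
  · rcases mem_union.1 he with k | k
    · rcases mem_union.1 k with k | k
      · exact Or.inl (mem_union_left _ k)
      · exact Or.inr ⟨s0 (p0.ends k (Or.inl rfl)), s0 (p0.ends k (Or.inr rfl))⟩
    · exact Or.inl (mem_union_right _ (mem_union_left _ k))
  · rw [c4, c2, k.1]
    generalize G.par F1 = i
    generalize G.par F2 = j
    clear k k0
    revert i j ε
    decide

/-- two halves that end in an object close to a valid ring -/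
theorem Ea.ob (hq : G.QG U Nb Tm) (hD : G.Ob Nb D) (h : G.Ea v D L x y X1 X2 F1 F2) (hv : v ∉ D)
    (ε : ZMod 2) : ∃ X F, G.Cw X F ∧ X1 ∪ X2 ⊆ X ∧ X ⊆ X1 ∪ X2 ∪ D ∧ F1 ∪ F2 ⊆ F ∧
      ((G.par F = ε ∧ Disjoint D Nb) ∨ (x ∈ Nb ∧ D = {x})) := by
  by_cases hxy : x = y
  · subst hxy
    obtain ⟨e, he, f, hf, a, -, b, -, hef, j1, j2, ha, hb⟩ := h.last hv
    have hN := hD.two_out hq h.m1 (h.p1.sub he) (h.p2.sub hf) hef j1 j2 ha hb
    obtain ⟨_, _, -, -, k⟩ := hD.arc h.m1 h.m1 (fun _ => hN) ε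
    exact ⟨_, _, (h.cw hv).1, Subset.rfl, subset_union_left, Subset.rfl,
      Or.inr (k.resolve_left fun k => disjoint_left.1 k.2 h.m1 hN)⟩
  · obtain ⟨p1, -, o1⟩ := h.pw hxy
    obtain ⟨Y0, F0, p0, s0, k0⟩ := hD.arc h.m1 h.m2 (fun k => (hxy k).elim) (ε + G.par (F1 ∪ F2))
    have hi : ∀ w ∈ X1 ∪ X2, w ∈ Y0 → w = x ∨ w = y := fun w h1 h2 => o1 w h1 (s0 h2)
    obtain ⟨c1, c2⟩ := cw_of_two p1 p0 hxy hi (p1.dj2 p0 hi (mem_union_left _ h.p1.left)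
      (fun k => hv (k ▸ h.m1)) fun k => hv (k ▸ h.m2))
    refine ⟨_, _, c1, subset_union_left, union_subset_union Subset.rfl s0, subset_union_left,
      k0.imp (fun k => ⟨?_, k.2⟩) id⟩
    rw [c2, k.1, add_comm ε, ← add_assoc, z2_add_self, zero_add]

/-- both halves meet an object: a valid ring through `v` inside the halves and the object -/
theorem Ea.both (hq : G.QG U Nb Tm) (hD : G.Ob Nb D) (h : G.Ea v M L x y X1 X2 F1 F2)
    (hv : v ∉ D) (hM : Disjoint D M) (h1 : ¬ Disjoint X1 D) (h2 : ¬ Disjoint X2 D) :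
    ∃ X, G.Vr Nb X ∧ v ∈ X ∧ X ⊆ X1 ∪ X2 ∪ D ∧ Disjoint X M := by
  obtain ⟨p, Y1, R1, Y1', R1', hp, p1, p1', e1, f1, i1, -, o1⟩ := h.p1.first h1
  obtain ⟨q, Y2, R2, Y2', R2', hq', p2, p2', e2, f2, i2, -, o2⟩ := h.p2.first h2
  have s1 : Y1 ⊆ X1 := e1 ▸ subset_union_left
  have s2 : Y2 ⊆ X2 := e2 ▸ subset_union_left
  have d1 : Disjoint Y1 M := disjoint_left.2 fun w k l => by
    obtain rfl := h.o1 w (s1 k) l
    exact disjoint_left.1 hM (i1 w k p1'.right ▸ hp) l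
  have d2 : Disjoint Y2 M := disjoint_left.2 fun w k l => by
    obtain rfl := h.o2 w (s2 k) l
    exact disjoint_left.1 hM (i2 w k p2'.right ▸ hq') l
  have k : G.Ea v D ∅ p q Y1 Y2 R1 R2 := ⟨p1, p2, hp, hq', o1, o2,
    fun w k l => Or.inl ((h.i12 w (s1 k) (s2 l)).resolve_right fun m =>
      disjoint_left.1 d1 k (m.1 ▸ h.m1)),
    h.dF.mono (f1 ▸ subset_union_left) (f2 ▸ subset_union_left), disjoint_empty_right _,
    disjoint_empty_right _⟩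
  obtain ⟨X, F, c, a1, a2, -, a3⟩ := k.ob hq hD hv 1
  refine ⟨X, ⟨F, c, a3.imp (fun l => l.1) fun l m =>
    disjoint_left.1 m (a1 (mem_union_left _ p1.right)) l.1⟩, a1 (mem_union_left _ p1.left),
    a2.trans (union_subset_union (union_subset_union s1 s2) Subset.rfl),
    (disjoint_union_left.2 ⟨disjoint_union_left.2 ⟨d1, d2⟩, hM⟩).mono_left a2⟩

/-- a set without objects is balanced.  HINT: `exists_odd_cc` for `G.ins W`; all degrees on the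
odd set are two, `cyc_of_deg`; then `Od.par_eq` with `Pth.od`. -/
theorem QG.bal (hq : G.QG U Nb Tm) (hW : Disjoint W Nb) (h : ∀ D, G.Ob Nb D → ¬ D ⊆ W) :
    ∃ p : V → ZMod 2, ∀ a b X F, G.Pw a b X F → X ⊆ W → G.par F = p a + p b := by
  have hB : G.Bal (G.ins W) := by
    by_contra hB
    obtain ⟨C, hC, ⟨⟨e, he⟩, hE, hn⟩, hp⟩ := exists_odd_cc hB
    obtain ⟨hA, hV⟩ := sub_ins_iff.1 hC
    have hl : ∀ f ∈ C, G.s f ≠ G.t f := fun f hf => (hq.ins f (hA hf)).2.2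
    have hd : ∀ x, G.deg C x = 0 ∨ G.deg C x = 2 := fun x => by
      by_cases hx : x ∈ G.vs C
      · have k1 : G.deg C x ≤ (G.cut {x}).card := by
          calc G.deg C x ≤ ∑ f ∈ C, if f ∈ G.cut {x} then 1 else 0 := by
                refine sum_le_sum fun f hf => ?_
                have k := hl f hf
                simp only [mem_cut_single k, hA hf, true_and, At, inc, iv]
                by_cases k1 : G.s f = x <;> by_cases k2 : G.t f = x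
                · exact (k (k1.trans k2.symm)).elim
                all_goals simp [k1, k2]
            _ = (C.filter fun f => f ∈ G.cut {x}).card := (card_filter _ _).symm
            _ ≤ _ := card_le_card fun f hf => (mem_filter.1 hf).2
        have k2 : x ∈ U := by
          obtain ⟨f, hf, k | k⟩ := mem_vs.1 hx
          · exact k ▸ (hq.ins f (hA hf)).1
          · exact k ▸ (hq.ins f (hA hf)).2.1
        have k3 : (G.cut {x}).card ≤ 3 := by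
          by_cases ht : x ∈ Tm
          · rw [hq.d2 x ht]
            omega
          · rw [hq.d3 x k2 (disjoint_left.1 hW (hV hx)) ht]
        obtain ⟨m, hm⟩ := dg_eq_zero.1 (hE x)
        omega
      · exact Or.inl (Nat.eq_zero_of_not_pos fun k => hx (deg_pos.1 k))
    obtain ⟨n, v, g, hc, h0, -, hcl⟩ := cyc_of_deg hl hd he (Or.inl rfl)
    obtain ⟨-, c2, c3, -, -⟩ := hc.cc
    have hcl' : ∀ f ∈ C, ∀ x ∈ pv n v, G.At f x → f ∈ pe (n + 1) g := fun f hf x hx k => by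
      obtain ⟨i, hi, rfl⟩ := mem_pv.1 hx
      exact hcl f hf i hi k
    have hCe : pe (n + 1) g = C := by
      refine Subset.antisymm c3 fun f hf => hcl' f hf _ ?_ (Or.inl rfl)
      refine (hn _ (s_mem_vs he) _ (s_mem_vs hf)).closed (P := fun x => x ∈ pv n v)
        (fun f hf => ⟨fun k => ?_, fun k => ?_⟩) (mem_pv.2 ⟨0, Nat.zero_le n, h0⟩)
      · exact c2 ▸ t_mem_vs (hcl' f hf _ k (Or.inl rfl))
      · exact c2 ▸ s_mem_vs (hcl' f hf _ k (Or.inr rfl))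
    have hs : pv n v ⊆ W := by
      rw [← c2, hCe]
      exact hV
    exact h _ (Or.inr ⟨C, ⟨n, v, g, hc.mono fun i hi => hA (c3 (mem_pe.2
      ⟨i, Nat.lt_succ_of_le hi, rfl⟩)), rfl, hCe⟩, hp, hW.mono_left hs⟩) hs
  obtain ⟨p, hp⟩ := hB
  refine ⟨p, fun a b X F hw hX => ?_⟩
  have k1 : ∑ e ∈ F, G.sw p e = 0 := sum_eq_zero fun e he => hp e (mem_ins.2
    ⟨hw.sub he, hX (hw.ends he (Or.inl rfl)), hX (hw.ends he (Or.inr rfl))⟩)
  obtain ⟨n, v, g, hw, rfl, rfl, -, rfl⟩ := hw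
  rw [hw.od.par_eq p, add_assoc] at k1
  exact z2_eq_of_add k1

theorem Goo.mono (h : G.Goo Tm M) (hM : M ⊆ L) : G.Goo Tm L := by
  exact fun t ht t' ht' h1 h2 hr =>
    h t ht t' ht' (fun k => h1 (hM k)) (fun k => h2 (hM k)) (hr.mono hM)

theorem Ofr.mono (h : G.Ofr Nb M) (hM : M ⊆ L) : G.Ofr Nb L := by
  exact fun D hD k => h D hD (k.mono_right hM)

/-- two terminals off `M`, one of them in a set that is left only towards `M` -/
theorem goo_of (h3 : T3n Tm s t u) (hs : s ∈ M) (hu : u ∈ Z) (ht : t ∉ Z)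
    (hc : ∀ e ∈ G.A, ∀ x y, G.Je e x y → x ∈ Z → y ∉ Z → x ∈ M ∨ y ∈ M) : G.Goo Tm M := by
  intro a ha b hb h1 h2 hr
  rcases h3.mem.2.2.2 a ha with rfl | rfl | rfl
  · exact (h1 hs).elim
  · rcases h3.mem.2.2.2 b hb with rfl | rfl | rfl
    · exact (h2 hs).elim
    · rfl
    · exact (ht (hr.symm.stay hu hc)).elim
  · rcases h3.mem.2.2.2 b hb with rfl | rfl | rfl
    · exact (h2 hs).elim
    · exact (ht (hr.stay hu hc)).elim
    · rfl

end SG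

end Pool.Agent.Work.MP_8c679b_co
end

-- merged part: Pool.Agent.Work.MP_8c679b_co.A3.GE
section
/-!
Two paths or a cut with one edge.
-/

set_option autoImplicit false
set_option linter.unusedSectionVars false

namespace Pool.Agent.Work.MP_8c679b_co

open Finset

namespace SG

variable {V E : Type} [Fintype V] [DecidableEq V] [DecidableEq E] [Nonempty E] {G : SG V E}
  {U Nb Tm X Y Z M L D D' H P Q W X1 X2 A1 A2 A3 A4 S : Finset V}
  {F F' F1 F2 E1 E2 E3 E4 R : Finset E} {a b c v w x y z s t u B B1 B2 : V} {e f g : E}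

theorem QG.ed2_cut (h : G.Pw v a X F) (hF : F ⊆ G.avo G.A L) (hL : v ∉ L) (ha : a ∈ M) :
    ∃ x X1 F1, G.Pw v x X1 F1 ∧ x ∈ M ∧ (∀ w ∈ X1, w ∈ M → w = x) ∧ F1 ⊆ F ∧ Disjoint X1 L := by
  obtain ⟨x, X1, F1, X2, F2, k1, k2, -, rfl, rfl, -, -, k3⟩ :=
    h.first (M := M) fun d => disjoint_left.1 d h.right ha
  refine ⟨x, X1, F1, k2, k1, k3, subset_union_left, disjoint_left.2 fun w hw => ?_⟩
  exact Rv.not_mem ((k2.rch k2.left hw).mono (subset_union_left.trans hF)) hL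

/-- HINT: `two_paths` for `S = G.avo G.A L`, `T = M`, `x1 = x2 = v`.  If a set `X` off `M` with `v`
has at most one crossing edge in `S`, take `(X ∩ U) \ L`.  Else the component of `v` in `R` contains
`p` and `q`; a path `F1` from `v` to `p` in `R` (`Rch.pw`), then `R \ F1` has the odd vertices `v, q`
(`Od.rch`); cut both paths at the first vertex in `M`. -/
theorem QG.ed2 (hq : G.QG U Nb Tm) (hv : v ∈ U) (hM : v ∉ M) (hL : v ∉ L) :
    (∃ X ⊆ U, v ∈ X ∧ Disjoint X M ∧ Disjoint X L ∧ ∃ f, G.Clo X L {f}) ∨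
      ∃ x y X1 X2 F1 F2, G.Pw v x X1 F1 ∧ G.Pw v y X2 F2 ∧ x ∈ M ∧ y ∈ M ∧
        (∀ w ∈ X1, w ∈ M → w = x) ∧ (∀ w ∈ X2, w ∈ M → w = y) ∧ Disjoint F1 F2 ∧
        Disjoint X1 L ∧ Disjoint X2 L := by
  classical
  by_cases hc : ∀ X : Finset V, Disjoint X M →
      iv (v ∈ X) + iv (v ∈ X) ≤ (G.crs (G.avo G.A L) X).card
  · right
    obtain ⟨p, hp, q, hq', R, r1, r2, -, r4⟩ := two_paths (G := G) _ M v v hM hM hc
    have hA : R ⊆ G.A := r1.trans (filter_subset _ _)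
    have ho : G.Od R p q := fun w => by rw [r2 w, z2_add_self, zero_add]
    have hr : G.Rch R v p := by
      have := r4 (univ.filter fun w => G.Rch R v w) fun e he => by
        simp only [mem_filter, mem_univ, true_and]
        exact ⟨fun k => k.trans (rch_edge he), fun k => k.trans (rch_edge he).symm⟩
      by_contra k
      simp only [iv, mem_filter, mem_univ, true_and, Rch.refl, k, if_true, if_false] at this
      split_ifs at this
      omega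
    obtain ⟨Y1, G1, a1, a2⟩ := hr.pw hA
    have ho1 : G.Od G1 p v := by
      obtain ⟨n, u, g, k, rfl, rfl, -, rfl⟩ := a1
      exact k.od.symm
    obtain ⟨Y2, G2, b1, b2⟩ := (ho.sdiff ho1 a2).rch.pw (sdiff_subset.trans hA)
    obtain ⟨x, X1, F1, c1, c2, c3, c4, c5⟩ := QG.ed2_cut a1 (a2.trans r1) hL hp
    obtain ⟨y, X2, F2, d1, d2, d3, d4, d5⟩ :=
      QG.ed2_cut b1 (b2.trans (sdiff_subset.trans r1)) hL hq'
    exact ⟨x, y, X1, X2, F1, F2, c1, d1, c2, d2, c3, d3,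
      disjoint_sdiff.mono c4 (d4.trans b2), c5, d5⟩
  · left
    push Not at hc
    obtain ⟨X, h1, h2⟩ := hc
    have h3 : v ∈ X := by
      by_contra k
      simp [iv, k] at h2
    obtain ⟨f, hf⟩ : ∃ f, G.crs (G.avo G.A L) X ⊆ {f} := card_le_one_iff_subset_singleton.1 (by
      simp only [iv, h3, if_true] at h2
      omega)
    refine ⟨(X ∩ U) \ L, sdiff_subset.trans inter_subset_right,
      mem_sdiff.2 ⟨mem_inter.2 ⟨h3, hv⟩, hL⟩, h1.mono_left (sdiff_subset.trans inter_subset_left),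
      sdiff_disjoint, f, fun e he x y hj hx hy => ?_⟩
    by_cases k : y ∈ L
    · exact Or.inl k
    · have k1 := (mem_inter.1 (mem_sdiff.1 hx).1).1
      have k2 := (mem_sdiff.1 hx).2
      have k3 : y ∉ X := fun h => hy (mem_sdiff.2 ⟨mem_inter.2 ⟨h, (hq.je he hj).2.1⟩, k⟩)
      refine Or.inr (hf (mem_crs.2 ?_))
      rcases hj with ⟨rfl, rfl⟩ | ⟨rfl, rfl⟩
      · exact ⟨mem_avo.2 ⟨he, k2, k⟩, fun h => k3 (h.1 k1)⟩
      · exact ⟨mem_avo.2 ⟨he, k, k2⟩, fun h => k3 (h.2 k1)⟩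

/-- a common inner vertex of two paths without common edges is a box (`Pw.inner`) -/
theorem QG.common (hq : G.QG U Nb Tm) (h1 : G.Pw v x X1 F1) (h2 : G.Pw v y X2 F2)
    (hd : Disjoint F1 F2) (hw1 : w ∈ X1) (hw2 : w ∈ X2) (hv : w ≠ v) (hx : w ≠ x) (hy : w ≠ y) :
    w ∈ Nb := by
  have k1 := h1.inner hw1 hv hx
  have k2 := h2.inner hw2 hv hy
  have k3 := card_union_of_disjoint
    (hd.mono (inter_subset_left (s₂ := G.cut {w})) (inter_subset_left (s₂ := G.cut {w})))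
  have k4 : (F1 ∩ G.cut {w} ∪ F2 ∩ G.cut {w}).card ≤ (G.cut {w}).card :=
    card_le_card (union_subset inter_subset_right inter_subset_right)
  obtain ⟨e, he⟩ : (G.cut {w}).Nonempty := card_pos.1 (by omega)
  obtain ⟨k5, z, k6⟩ := hq.cut1.1 he
  by_contra k
  by_cases k7 : w ∈ Tm
  · have := hq.d2 w k7
    omega
  · have := hq.d3 w (hq.je k5 k6).1 k k7
    omega

/-- the first part of a path that meets `M` only in its last vertex -/
theorem QG.ed_off (h : G.Pw w x X2 F2) (hi : ∀ v ∈ X1, v ∈ X2 → v = w) (hw : w ∉ M)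
    (ho : ∀ v ∈ X1 ∪ X2, v ∈ M → v = x) : Disjoint X1 M := by
  refine disjoint_left.2 fun u hu hM => ?_
  obtain rfl := ho u (mem_union_left _ hu) hM
  exact hw (hi u hu h.right ▸ hM)

/-- HINT: `QG.ed2`; if the paths share a vertex off `M` other than `v`, take the first such vertex
on the first path (`Pw.head`, `Pw.first`); it is a box and closes a ring (`cw_of_two`). -/
theorem QG.ed (hq : G.QG U Nb Tm) (hv : v ∈ U) (hM : v ∉ M) (hL : v ∉ L) :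
    (∃ X ⊆ U, v ∈ X ∧ Disjoint X M ∧ Disjoint X L ∧ ∃ f, G.Clo X L {f}) ∨
      (∃ X F, G.Cw X F ∧ v ∈ X ∧ ¬ Disjoint X Nb ∧ Disjoint X M ∧ Disjoint X L) ∨
      ∃ x y X1 X2 F1 F2, G.Ea v M L x y X1 X2 F1 F2 := by
  rcases hq.ed2 hv hM hL with h | ⟨x, y, X1, X2, F1, F2, p1, p2, m1, m2, o1, o2, d, l1, l2⟩
  · exact Or.inl h
  right
  by_cases hd : Disjoint X1 (X2.erase v \ M)
  · refine Or.inr ⟨x, y, X1, X2, F1, F2, p1, p2, m1, m2, o1, o2, fun w h1 h2 => ?_, d, l1, l2⟩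
    by_cases k : w ∈ M
    · exact Or.inr ⟨o1 w h1 k, o2 w h2 k⟩
    · by_contra k'
      exact disjoint_left.1 hd h1 (mem_sdiff.2 ⟨mem_erase.2 ⟨fun e => k' (Or.inl e), h2⟩, k⟩)
  · obtain ⟨w, Y1, G1, Z1, H1, k1, a1, a2, rfl, rfl, a3, -, a4⟩ := p1.first hd
    obtain ⟨k2, k3⟩ := mem_sdiff.1 k1
    obtain ⟨k4, k5⟩ := mem_erase.1 k2
    have hw := hq.common p1 p2 d (mem_union_left _ a1.right) k5 k4 (fun e => k3 (e ▸ m1))
      fun e => k3 (e ▸ m2)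
    obtain ⟨Y2, G2, Z2, H2, b1, b2, rfl, rfl, b3, -⟩ := p2.split k5
    have c1 := QG.ed_off a2 a3 k3 o1
    have c2 := QG.ed_off b2 b3 k3 o2
    refine Or.inl ⟨_, _, (cw_of_two a1 b1 k4.symm (fun u h1 h2 => ?_)
      (d.mono subset_union_left subset_union_left)).1, mem_union_left _ a1.left,
      fun k => disjoint_left.1 k (mem_union_left _ a1.right) hw, disjoint_union_left.2 ⟨c1, c2⟩,
      disjoint_union_left.2 ⟨l1.mono_left subset_union_left, l2.mono_left subset_union_left⟩⟩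
    by_cases k : u = v
    · exact Or.inl k
    · exact Or.inr (a4 u h1 (mem_sdiff.2 ⟨mem_erase.2 ⟨k, mem_union_left _ h2⟩,
        disjoint_left.1 c1 h1⟩))

theorem QG.edo_rv (h : G.Pw v x X F) (ho : ∀ w ∈ X, w ∈ M → w = x) (hL : Disjoint X L)
    (ha : a ∈ X) (hM : a ∉ M) : G.Rv (M ∪ L) v a := by
  obtain ⟨Y1, G1, Y2, G2, b1, b2, rfl, rfl, b3, -⟩ := h.split ha
  exact b1.rv (disjoint_union_right.2 ⟨QG.ed_off b2 b3 hM ho, hL.mono_left subset_union_left⟩)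
    b1.left b1.right

/-- the tail of a path after its last vertex in `D` -/
theorem QG.edo_tail (h : G.Pw v x X F) (hv : v ∈ D) (hx : x ∉ D) :
    ∃ p ∈ D, ∃ Z ⊆ X, ∃ R ⊆ F, G.Pw x p Z R ∧ (∀ w ∈ Z, w ∈ D → w = p) ∧
      (∃ e ∈ R, ∃ a ∈ Z, G.Je e x a ∧ a ≠ x) ∧ ∃ e ∈ R, ∃ a, G.Je e p a ∧ a ∉ D := by
  obtain ⟨p, Z, R, Z', R', k1, a1, -, rfl, rfl, -, -, a4⟩ :=
    h.symm.first (M := D) fun d => disjoint_left.1 d h.left hv
  have hp : x ≠ p := fun e => hx (e ▸ k1)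
  refine ⟨p, k1, Z, subset_union_left, R, subset_union_left, a1, a4, ?_, ?_⟩
  · obtain ⟨e, a, Y, F', -, b1, b2, b3, rfl, rfl, -⟩ := a1.head hp
    exact ⟨e, mem_insert_self _ _, a, mem_insert_of_mem b2.left, b1, fun k => b3 (k ▸ b2.left)⟩
  · obtain ⟨e, a, Y, F', -, b1, b2, b3, rfl, rfl, -⟩ := a1.symm.head hp.symm
    exact ⟨e, mem_insert_self _ _, a, b1, fun k =>
      b3 (a4 a (mem_insert_of_mem b2.left) k ▸ b2.left)⟩

theorem QG.edo_ea (hq : G.QG U Nb Tm) (hD : G.Ob Nb D) (hM : Disjoint D M) (hL : Disjoint D L)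
    (hv : v ∈ D) (h : G.Ea v M L x y X1 X2 F1 F2) :
    ∃ e f a b, e ∈ G.A ∧ f ∈ G.A ∧ e ≠ f ∧ G.Je e x a ∧ G.Je f y b ∧ a ∈ X1 ∧ b ∈ X2 ∧ a ∉ M ∧
      b ∉ M ∧ (x ≠ y → ∀ ε, ∃ X F, G.Pw x y X F ∧ (∀ w ∈ X, w ∈ M → w = x ∨ w = y) ∧
        Disjoint X L ∧ a ∈ X ∧ ((G.par F = ε ∧ Disjoint D Nb) ∨ ∃ B ∈ Nb, B ∈ X ∧ B ∉ M)) := by
  obtain ⟨p, hp, Z1, z1, R1, r1, a1, a2, ⟨e, he, a, ha, a3, a4⟩, e', he', a', a5, a6⟩ :=
    QG.edo_tail h.p1 hv (disjoint_right.1 hM h.m1)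
  obtain ⟨q, hq', Z2, z2, R2, r2, b1, b2, ⟨f, hf, b, hb, b3, b4⟩, f', hf', b', b5, b6⟩ :=
    QG.edo_tail h.p2 hv (disjoint_right.1 hM h.m2)
  have hd : ∀ g ∈ R1, ∀ g' ∈ R2, g ≠ g' := fun g h1 g' h2 k =>
    disjoint_left.1 h.dF (r1 h1) (k ▸ r2 h2)
  refine ⟨e, f, a, b, a1.sub he, b1.sub hf, hd e he f hf, a3, b3, z1 ha, z2 hb,
    fun k => a4 (h.o1 a (z1 ha) k), fun k => b4 (h.o2 b (z2 hb) k), fun hxy ε => ?_⟩
  obtain ⟨Y, F, c1, c2, c3⟩ := hD.arc hp hq' (fun k => hD.two_out hq hp (a1.sub he') (b1.sub hf')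
    (hd e' he' f' hf') a5 (k ▸ b5) a6 b6) (ε - G.par R1 - G.par R2)
  obtain ⟨d1, d2⟩ := a1.cat c1 fun u h1 h2 => a2 u h1 (c2 h2)
  obtain ⟨d3, d4⟩ := d1.cat b1.symm fun u h1 h2 => by
    refine b2 u h2 ((mem_union.1 h1).elim (fun h3 => ?_) fun h3 => c2 h3)
    rcases h.i12 u (z1 h3) (z2 h2) with k | k
    · exact k ▸ hv
    · exact absurd (k.1.symm.trans k.2) hxy
  refine ⟨_, _, d3, fun w h1 h2 => ?_, disjoint_union_left.2 ⟨disjoint_union_left.2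
    ⟨h.l1.mono_left z1, hL.mono_left c2⟩, h.l2.mono_left z2⟩,
    mem_union_left _ (mem_union_left _ ha), c3.imp (fun k => ⟨?_, k.2⟩) fun k =>
      ⟨p, k.1, mem_union_left _ (mem_union_left _ a1.right), disjoint_left.1 hM hp⟩⟩
  · rcases mem_union.1 h1 with h3 | h3
    · rcases mem_union.1 h3 with h4 | h4
      · exact Or.inl (h.o1 w (z1 h4) h2)
      · exact absurd h2 (disjoint_left.1 hM (c2 h4))
    · exact Or.inr (h.o2 w (z2 h3) h2)
  · rw [d4, d2, k.1]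
    ring

/-- two paths from an object.  HINT: `QG.ed2` from a vertex `v` of `D`; a cut contains `D`
(`Ob.inside`).  Let `w` be the last vertex off `M` of the first path that is on the second path.
If `w` is a box the two tails form the ear.  Else `w = v`, `D` is a ring; take the last vertices
on `D` of both paths, they differ (`Ob.two_out`), and join them by `Ob.arc`. -/
theorem QG.edo (hq : G.QG U Nb Tm) (hD : G.Ob Nb D) (hM : Disjoint D M) (hL : Disjoint D L) :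
    (∃ X ⊆ U, D ⊆ X ∧ Disjoint X M ∧ Disjoint X L ∧ ∃ f, G.Clo X L {f}) ∨
      ∃ x ∈ M, ∃ y ∈ M, ∃ e f a b, e ∈ G.A ∧ f ∈ G.A ∧ e ≠ f ∧ G.Je e x a ∧ G.Je f y b ∧
        x ∉ L ∧ y ∉ L ∧ (∃ p ∈ D, G.Rv (M ∪ L) p a) ∧ (∃ p ∈ D, G.Rv (M ∪ L) p b) ∧
        (x ≠ y → ∀ ε, ∃ X F, G.Pw x y X F ∧ (∀ w ∈ X, w ∈ M → w = x ∨ w = y) ∧ Disjoint X L ∧
          a ∈ X ∧ ((G.par F = ε ∧ Disjoint D Nb) ∨ ∃ B ∈ Nb, B ∈ X ∧ B ∉ M)) := by
  obtain ⟨hU, v, hv⟩ := hq.ob hD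
  have hvM := disjoint_left.1 hM hv
  rcases hq.ed2 (hU hv) hvM (disjoint_left.1 hL hv) with ⟨X, h1, h2, h3, h4, f, h5⟩ |
    ⟨x, y, X1, X2, F1, F2, p1, p2, m1, m2, o1, o2, d, l1, l2⟩
  · exact Or.inl ⟨X, h1, hD.inside h5 hL hv h2, h3, h4, f, h5⟩
  right
  obtain ⟨w, Y1, G1, Z1, H1, k1, a1, -, e1, e2, -, -, a4⟩ := p1.symm.first (M := X2 \ M)
    fun k => disjoint_left.1 k p1.left (mem_sdiff.2 ⟨p2.left, hvM⟩)
  obtain ⟨k2, k3⟩ := mem_sdiff.1 k1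
  obtain ⟨Z2, H2, Y2, G2, -, b2, e3, e4, -⟩ := p2.split k2
  have s1 : Y1 ⊆ X1 := e1 ▸ subset_union_left
  have s2 : Y2 ⊆ X2 := e3 ▸ subset_union_right
  have s3 : G1 ⊆ F1 := e2 ▸ subset_union_left
  have s4 : G2 ⊆ F2 := e4 ▸ subset_union_right
  have ea : G.Ea w M L x y Y1 Y2 G1 G2 := ⟨a1.symm, b2, m1, m2, fun u h => o1 u (s1 h),
    fun u h => o2 u (s2 h), fun u h1 h2 => by
      by_cases k : u ∈ M
      · exact Or.inr ⟨o1 u (s1 h1) k, o2 u (s2 h2) k⟩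
      · exact Or.inl (a4 u h1 (mem_sdiff.2 ⟨s2 h2, k⟩)),
    d.mono s3 s4, l1.mono_left s1, l2.mono_left s2⟩
  have key : ∃ D', G.Ob Nb D' ∧ Disjoint D' M ∧ Disjoint D' L ∧ w ∈ D' ∧
      (Disjoint D' Nb → Disjoint D Nb) := by
    by_cases k : w = v
    · exact ⟨D, hD, hM, hL, k ▸ hv, id⟩
    · have hw := hq.common p1 p2 d (s1 a1.right) k2 k (fun e => k3 (e ▸ m1)) fun e => k3 (e ▸ m2)
      exact ⟨{w}, ob_box hw, disjoint_singleton_left.2 k3,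
        disjoint_singleton_left.2 (disjoint_left.1 l2 k2), mem_singleton_self w,
        fun h => absurd hw (disjoint_singleton_left.1 h)⟩
  obtain ⟨D', g1, g2, g3, g4, g5⟩ := key
  obtain ⟨e, f, a, b, c1, c2, c3, c4, c5, c6, c7, c8, c9, c0⟩ := hq.edo_ea g1 g2 g3 g4 ea
  refine ⟨x, m1, y, m2, e, f, a, b, c1, c2, c3, c4, c5, disjoint_left.1 l1 p1.right,
    disjoint_left.1 l2 p2.right, ⟨v, hv, QG.edo_rv p1 o1 l1 (s1 c6) c8⟩,
    ⟨v, hv, QG.edo_rv p2 o2 l2 (s2 c7) c9⟩, fun hxy ε => ?_⟩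
  obtain ⟨X, F, j1, j2, j3, j4, j5⟩ := c0 hxy ε
  exact ⟨X, F, j1, j2, j3, j4, j5.imp_left fun k => ⟨k.1, g5 k.2⟩⟩

theorem sx_ends (h : G.Je e a b) (h' : G.Je e x y) : (a = x ∧ b = y) ∨ (a = y ∧ b = x) := by
  rcases h with ⟨rfl, rfl⟩ | ⟨rfl, rfl⟩ <;> rcases h' with ⟨rfl, rfl⟩ | ⟨rfl, rfl⟩ <;> tauto

theorem sx_cut (he : e ∈ G.A) (hj : G.Je e v y) (hy : y ≠ v) : e ∈ G.cut {v} := by
  refine mem_filter.2 ⟨he, ?_⟩
  rcases hj with ⟨h1, h2⟩ | ⟨h1, h2⟩ <;> simp [h1, h2, hy]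

theorem sx_two (hq : G.QG U Nb Tm) (hML : Disjoint M L) (hM : (M ∩ U).Nonempty)
    (hL : (L ∩ U).Nonempty) (hX : X ⊆ U) (h1 : v ∈ X) (h2 : v ∈ Y)
    (d1 : Disjoint X M) (d4 : Disjoint Y L) (c1 : G.Clo X L {f}) (c2 : G.Clo Y M {g}) :
    v ∈ Tm ∧ X ∩ Y = {v} ∧ G.cut {v} ⊆ {f, g} := by
  rw [disjoint_left] at hML d1 d4
  have hc : G.Clo (X ∩ Y) ∅ {f, g} := fun e he x y hj hx hy => by
    have k1 := c1 e he x y hj (mem_inter.1 hx).1
    have k2 := c2 e he x y hj (mem_inter.1 hx).2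
    have k3 := @hML y
    have k4 := @d1 y
    have k5 := @d4 y
    simp only [mem_inter, mem_singleton, mem_insert] at *
    (clear * - hx hy k1 k2 k3 k4 k5; grind)
  obtain ⟨m, hm⟩ := hM
  obtain ⟨l, hl⟩ := hL
  rw [mem_inter] at hm hl
  have hv : v ∈ X ∩ Y := mem_inter.2 ⟨h1, h2⟩
  rcases hq.c2 (inter_subset_left.trans hX) hc with e | e | ⟨t, ht, e⟩ | ⟨t, -, e⟩
  · exact absurd (e ▸ hv) (notMem_empty v)
  · exact absurd hm.1 (d1 (mem_inter.1 (e ▸ hm.2 : m ∈ X ∩ Y)).1)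
  · obtain rfl : v = t := mem_singleton.1 (e ▸ hv)
    exact ⟨ht, e, e ▸ hc.cut⟩
  · have k1 : m = t := mem_singleton.1 (e ▸ mem_sdiff.2 ⟨hm.2, fun k => d1 (mem_inter.1 k).1 hm.1⟩)
    have k2 : l = t := mem_singleton.1 (e ▸ mem_sdiff.2 ⟨hl.2, fun k => d4 (mem_inter.1 k).2 hl.1⟩)
    exact absurd (k2.trans k1.symm ▸ hl.1) (hML hm.1)

theorem sx_clo (hi : X ∩ Y = {v}) (d1 : Disjoint X M) (c1 : G.Clo X L {f})
    (hc : G.cut {v} = {f, g}) (hj : G.Je f v w) (hw : w ∈ Y.erase v ∨ w ∈ M) :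
    G.Clo (X.erase v) L {g} := fun e he x y hxy hx hy => by
  obtain ⟨x1, x2⟩ := mem_erase.1 hx
  by_cases hv : y = v
  · subst hv
    have := hc ▸ sx_cut he hxy.symm x1
    rcases mem_insert.1 this with rfl | k
    · rcases sx_ends hxy hj with k | k
      · exact absurd k.1 x1
      · rcases hw with m | m
        · exact absurd (mem_singleton.1 (hi ▸ mem_inter.2 ⟨x2, k.1 ▸ (mem_erase.1 m).2⟩)) x1
        · exact absurd (k.1 ▸ m) (disjoint_left.1 d1 x2)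
    · exact Or.inr k
  · refine (c1 e he x y hxy x2 fun k => hy (mem_erase.2 ⟨hv, k⟩)).imp_right fun k => ?_
    obtain rfl := mem_singleton.1 k
    exact ((sx_ends hxy hj).elim (fun k => x1 k.1) fun k => hv k.2).elim

/-- HINT: at most the edges `f, g` leave `X ∩ Y`, so `X ∩ Y = {v}` by `QG.c2` (`M ∪ L` has two
vertices of `U`).  Take `P = X.erase v`, `Q = Y.erase v`; the edge `g` of `Y` is the one towards
`P ∪ L`. -/
theorem QG.sx (hq : G.QG U Nb Tm) (hv : v ∈ Tm) (hML : Disjoint M L) (hM : (M ∩ U).Nonempty)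
    (hL : (L ∩ U).Nonempty) (hX : X ⊆ U) (hY : Y ⊆ U) (h1 : v ∈ X) (h2 : v ∈ Y)
    (d1 : Disjoint X M) (d2 : Disjoint X L) (d3 : Disjoint Y M) (d4 : Disjoint Y L)
    (c1 : G.Clo X L {f}) (c2 : G.Clo Y M {g}) :
    ∃ P Q f' g', G.Sx U v M L P Q f' g' := by
  obtain ⟨-, hi, hc⟩ := sx_two hq hML hM hL hX h1 h2 d1 d4 c1 c2
  have hc' : G.cut {v} = {f, g} :=
    eq_of_subset_of_card_le hc (card_le_two.trans (hq.d2 v hv).ge)
  have ne : f ≠ g := by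
    rintro rfl
    have := hq.d2 v hv
    rw [hc'] at this
    simp at this
  obtain ⟨fA, a, ha⟩ := hq.cut1.1 (hc' ▸ mem_insert_self f {g} : f ∈ G.cut {v})
  obtain ⟨gA, b, hb⟩ := hq.cut1.1 (hc' ▸ mem_insert_of_mem (mem_singleton_self g) : g ∈ G.cut {v})
  have ea : a ∈ Y.erase v ∨ a ∈ M := (em (a ∈ Y)).imp
    (fun k => mem_erase.2 ⟨(hq.je fA ha).2.2.symm, k⟩) fun k =>
      (c2 f fA v a ha h2 k).resolve_right fun m => ne (mem_singleton.1 m)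
  have eb : b ∈ X.erase v ∨ b ∈ L := (em (b ∈ X)).imp
    (fun k => mem_erase.2 ⟨(hq.je gA hb).2.2.symm, k⟩) fun k =>
      (c1 g gA v b hb h1 k).resolve_right fun m => ne (mem_singleton.1 m).symm
  have dj : ∀ {Z : Finset V}, Disjoint Z M → Disjoint Z L →
      Disjoint (Z.erase v) (insert v (M ∪ L)) := fun k1 k2 => disjoint_insert_right.2
    ⟨notMem_erase _ _, (disjoint_union_right.2 ⟨k1, k2⟩).mono_left (erase_subset _ _)⟩
  exact ⟨X.erase v, Y.erase v, g, f, hc'.trans (pair_comm _ _), ne.symm,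
    (erase_subset _ _).trans hX, (erase_subset _ _).trans hY, dj d1 d2, dj d3 d4,
    disjoint_left.2 fun w k1 k2 => (mem_erase.1 k1).1
      (mem_singleton.1 (hi ▸ mem_inter.2 ⟨(mem_erase.1 k1).2, (mem_erase.1 k2).2⟩)),
    sx_clo hi d1 c1 hc' ha ea,
    sx_clo (inter_comm X Y ▸ hi) d4 c2 (hc'.trans (pair_comm _ _)) hb eb, ⟨b, hb, eb⟩, a, ha, ea⟩

theorem Sx.symm (h : G.Sx U v M L P Q f g) : G.Sx U v L M Q P g f :=
  ⟨h.cu.trans (pair_comm _ _), h.ne.symm, h.qu, h.pu, union_comm M L ▸ h.dQ, union_comm M L ▸ h.dP,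
    h.dPQ.symm, h.cQ, h.cP, h.eQ, h.eP⟩

theorem Sx.clo_a (h : G.Sx U v M L P Q f g) (he : e ∈ G.A) (hj : G.Je e x y)
    (hx : x ∈ P ∨ (x = v ∧ e = f)) (hv : y ≠ v) (hy : y ∉ P) : y ∈ L := by
  obtain ⟨w, h1, h2⟩ := h.eP
  rcases hx with hx | ⟨rfl, rfl⟩
  · refine (h.cP e he x y hj hx hy).resolve_right fun k => ?_
    obtain rfl := mem_singleton.1 k
    exact (sx_ends hj h1).elim
      (fun k => disjoint_left.1 h.dP hx (mem_insert.2 (Or.inl k.1))) fun k => hv k.2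
  · rcases sx_ends hj h1 with k | k
    · exact (k.2 ▸ h2).resolve_left hy
    · exact absurd k.2 hv

/-- the component of `v` -/
theorem Sx.clo (h : G.Sx U v M L P Q f g) : G.Clo (insert v (P ∪ Q)) (M ∪ L) ∅ := by
  intro e he x y hj hx hy
  simp only [mem_insert, mem_union, not_or] at hx hy
  refine Or.inl (mem_union.2 ?_)
  rcases hx with rfl | hx | hx
  · rcases mem_insert.1 (h.cu ▸ sx_cut he hj hy.1) with k | k
    · exact Or.inr (h.clo_a he hj (Or.inr ⟨rfl, k⟩) hy.1 hy.2.1)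
    · exact Or.inl (h.symm.clo_a he hj (Or.inr ⟨rfl, mem_singleton.1 k⟩) hy.1 hy.2.2)
  · exact Or.inr (h.clo_a he hj (Or.inl hx) hy.1 hy.2.1)
  · exact Or.inl (h.symm.clo_a he hj (Or.inl hx) hy.1 hy.2.2)

theorem Sx.pw_rc (h : G.Sx U v M L P Q f g) (hw : w ∈ Q) : w ∈ G.rc (insert v M) {w} ∧
    G.rc (insert v M) {w} ⊆ Q ∧ G.Clo (G.rc (insert v M) {w}) M {g} := by
  have hs : G.rc (insert v M) {w} ⊆ Q := fun a ha => by
    obtain ⟨z, h1, -, h2⟩ := mem_rc.1 ha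
    obtain rfl := mem_singleton.1 h1
    refine h2.stay hw fun e he x y hj hx hy => Or.inr (mem_insert.2 ?_)
    exact (em (y = v)).imp_right fun k => h.symm.clo_a he hj (Or.inl hx) k hy
  refine ⟨mem_rc.2 ⟨w, mem_singleton_self w, fun k => disjoint_left.1 h.dQ hw
    (insert_subset_insert v subset_union_left k), Rv.refl _ _⟩, hs, fun e he x y hj hx hy => ?_⟩
  refine h.cQ e he x y hj (hs hx) fun k => disjoint_left.1 h.dQ k
    (insert_subset_insert v subset_union_left ?_)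
  exact (rc_clo e he x y hj hx hy).resolve_right (notMem_empty e)

/-- a path from `v` through `Q` to `M`.  HINT: if the end `w` of `g` is in `Q`, the set
`G.rc (insert v M) {w}` lies in `Q` and is not closed (`QG.c1`). -/
theorem Sx.pw (hq : G.QG U Nb Tm) (h : G.Sx U v M L P Q f g) (hv : v ∈ U) (hM : v ∉ M) :
    ∃ z ∈ M, ∃ X F, G.Pw v z X F ∧ g ∈ F ∧ (∀ w ∈ X, w = v ∨ w ∈ Q ∨ w = z) := by
  obtain ⟨w, h1, h2⟩ := h.eQ
  have gA : g ∈ G.A :=
    (hq.cut1.1 (h.cu ▸ mem_insert_of_mem (mem_singleton_self g) : g ∈ G.cut {v})).1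
  rcases h2 with h2 | h2
  · obtain ⟨r1, r2, r3⟩ := h.pw_rc h2
    have vQ : v ∉ Q := fun k => disjoint_left.1 h.dQ k (mem_insert_self _ _)
    have nc : ¬ G.Clo (G.rc (insert v M) {w}) ∅ {g} := fun k =>
      (hq.c1 (r2.trans h.qu) k).elim (fun e => notMem_empty w (e ▸ r1)) fun e => vQ (r2 (e ▸ hv))
    simp only [Clo, not_forall, not_or] at nc
    obtain ⟨e, he, x, y, hj, hx, hy, -, k⟩ := nc
    have yM := (r3 e he x y hj hx hy).resolve_right k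
    obtain ⟨X, F, p1, p2⟩ := rc_pw r1 hx
    have p3 := (p1.cons gA h1 fun m => vQ (r2 (p2 m))).1
    have p4 := (p3.symm.cons he hj.symm fun m => (mem_insert.1 m).elim (fun q => hM (q ▸ yM))
      fun q => disjoint_left.1 h.dQ (r2 (p2 q)) (mem_insert_of_mem (mem_union_left _ yM))).1
    refine ⟨y, yM, _, _, p4.symm, mem_insert_of_mem (mem_insert_self _ _), fun a ha => ?_⟩
    simp only [mem_insert] at ha
    rcases ha with k | k | k
    exacts [Or.inr (Or.inr k), Or.inl k, Or.inr (Or.inl (r2 (p2 k)))]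
  · refine ⟨w, h2, _, _, pw_edge gA h1 (hq.je gA h1).2.2, mem_singleton_self g, fun a ha => ?_⟩
    exact (mem_insert.1 ha).imp_right fun k => Or.inr (mem_singleton.1 k)

theorem Sx.off_a {P' Q' : Finset V} {f' g' : E} (hq : G.QG U Nb Tm) (ht : t ∈ Tm) (hu : u ∈ Tm)
    (hML : Disjoint M L) (hM : (M ∩ U).Nonempty) (hL : (L ∩ U).Nonempty)
    (h : G.Sx U t M L P Q f g) (h' : G.Sx U u M L P' Q' f' g') : u ∉ P := fun hP => by
  obtain ⟨w, h1, h2⟩ := h'.eQ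
  have gA : g' ∈ G.A :=
    (hq.cut1.1 (h'.cu ▸ mem_insert_of_mem (mem_singleton_self g') : g' ∈ G.cut {u})).1
  have d1 : Disjoint P M := h.dP.mono_right (subset_union_left.trans (subset_insert _ _))
  have d4 : Disjoint Q' L := h'.dQ.mono_right (subset_union_right.trans (subset_insert _ _))
  have nT : w ∉ Tm := fun k => hq.nj u hu w k ⟨g', gA, h1⟩
  have wP : w ∈ P := by_contra fun k => by
    have := h.clo_a gA h1 (Or.inl hP) (fun e => nT (e ▸ ht)) k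
    exact h2.elim (fun m => disjoint_left.1 d4 m this) fun m => disjoint_left.1 hML m this
  exact nT (sx_two hq hML hM hL h.pu wP (h2.resolve_right (disjoint_left.1 d1 wP)) d1 d4 h.cP
    h'.cQ).1

/-- HINT: if `u ∈ P` the end `w` of `g'` lies in `P ∩ Q'`, which is left only by `f` and `g'`;
`QG.c2`, and `w` is no terminal (`nj`).  The case `u ∈ Q` is `Sx.symm`. -/
theorem Sx.off {P' Q' : Finset V} {f' g' : E} (hq : G.QG U Nb Tm) (ht : t ∈ Tm) (hu : u ∈ Tm)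
    (htu : t ≠ u) (hML : Disjoint M L) (hM : (M ∩ U).Nonempty) (hL : (L ∩ U).Nonempty)
    (h : G.Sx U t M L P Q f g) (h' : G.Sx U u M L P' Q' f' g') : u ∉ P ∧ u ∉ Q :=
  ⟨h.off_a hq ht hu hML hM hL h', h.symm.off_a hq ht hu hML.symm hL hM h'.symm⟩

/-- the parts of two terminals are disjoint and not adjacent -/
theorem Sx.dis {P' Q' : Finset V} {f' g' : E} (hq : G.QG U Nb Tm) (ht : t ∈ Tm) (hu : u ∈ Tm)
    (htu : t ≠ u) (hML : Disjoint M L) (hM : (M ∩ U).Nonempty) (hL : (L ∩ U).Nonempty)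
    (h : G.Sx U t M L P Q f g) (h' : G.Sx U u M L P' Q' f' g') (h1 : t ∉ M ∪ L) (h2 : u ∉ M ∪ L) :
    ¬ G.Rv (M ∪ L) t u := fun k => by
  obtain ⟨k1, k2⟩ := h.off hq ht hu htu hML hM hL h'
  have := k.stay (mem_insert_self t (P ∪ Q)) fun e he x y hj hx hy =>
    Or.inr ((h.clo e he x y hj hx hy).resolve_right (notMem_empty e))
  simp only [mem_insert, mem_union] at this
  exact this.elim htu.symm fun m => m.elim k1 k2

/-- the part of `Q` that is connected to `v` -/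
theorem Sx.conn (h : G.Sx U v M L P Q f g) (hv : v ∉ M) :
    ∃ Q' ⊆ Q, G.Sx U v M L P Q' f g ∧ ∀ a ∈ Q', ∀ b ∈ Q', ∃ X F, G.Pw a b X F ∧ X ⊆ Q' := by
  obtain ⟨w, h1, h2 | h2⟩ := h.eQ
  · obtain ⟨r1, r2, r3⟩ := h.pw_rc h2
    exact ⟨_, r2, ⟨h.cu, h.ne, h.pu, r2.trans h.qu, h.dP, h.dQ.mono_left r2, h.dPQ.mono_right r2,
      h.cP, r3, h.eP, w, h1, Or.inl r1⟩, fun a ha b hb => rc_pw ha hb⟩
  · exact ⟨∅, empty_subset _, ⟨h.cu, h.ne, h.pu, empty_subset _, h.dP, disjoint_empty_left _,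
      disjoint_empty_right _, h.cP, fun _ _ x _ _ k => absurd k (notMem_empty x), h.eP, w, h1,
      Or.inr h2⟩, fun a k => absurd k (notMem_empty a)⟩

theorem QG.earv_tail (h : G.Pw a b X F) (ho : ∀ u ∈ X, u ∈ M → u = b) (hv : v ∈ X) (hb : v ≠ b) :
    ∃ Y R, G.Pw a v Y R ∧ Y ⊆ X ∧ Disjoint Y M := by
  obtain ⟨Y, R, Y', R', h1, h2, rfl, -, h3, -⟩ := h.split hv
  refine ⟨Y, R, h1, subset_union_left, disjoint_left.2 fun u hu hM => hb ?_⟩
  obtain rfl := ho u (mem_union_left _ hu) hM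
  exact (h3 u hu h2.right).symm

theorem QG.earv_key (hB : B ∈ Nb) (hH : B ∉ H)
    (hb : ∀ X, G.Vr Nb X → t ∈ X → ¬ Disjoint X H) (he : e ∈ G.A) (hj : G.Je e B w)
    (h : G.Ea t (insert B H) ∅ x y X1 X2 F1 F2) (hp : G.Pw w c Y R) (hY : Disjoint Y (insert B H))
    (hi : ∀ v ∈ Y, v ∈ X1 ∪ X2 → v = c) (h1 : c ∈ X1) (h2 : y = B → c ∉ X2) :
    ∃ z ∈ H, ∃ X F, G.Pw B z X F ∧ e ∈ F ∧ t ∈ X ∧ (∀ v ∈ X, v ∈ H → v = z) ∧
      ∀ v ∈ X, v = B ∨ v = z ∨ G.Rv (insert B H) t v := by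
  have hc := disjoint_left.1 hY hp.right
  obtain ⟨Z, R', a1, a2, a3⟩ := QG.earv_tail h.p1 h.o1 h1 fun e => hc (e ▸ h.m1)
  have b1 := (hp.cat a1.symm fun v hv hz => hi v hv (mem_union_left _ (a2 hz))).1
  have b2 : Disjoint (Y ∪ Z) (insert B H) := disjoint_union_left.2 ⟨hY, a3⟩
  have b3 : ∀ v ∈ Y ∪ Z, v ∈ X2 → v = t := fun v hv hx =>
    (h.i12 v ((mem_union.1 hv).elim (fun hy => hi v hy (mem_union_right _ hx) ▸ h1) (a2 ·))
      hx).resolve_right fun e => disjoint_left.1 b2 hv (e.1 ▸ h.m1)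
  have b4 : B ∉ Y ∪ Z := disjoint_right.1 b2 (mem_insert_self _ _)
  by_cases hy : y = B
  · subst hy
    have c1 := (b1.cons he hj b4).1
    have c2 : ∀ v ∈ insert y (Y ∪ Z), v ∈ X2 → v = y ∨ v = t := fun v hv hx =>
      (mem_insert.1 hv).imp_right (b3 v · hx)
    have c3 := disjoint_left.1 b2 b1.right
    refine absurd (disjoint_left.2 fun v hv hH' => ?_) (hb _ ⟨_, (cw_of_two c1 h.p2.symm
      (fun e => c3 (e ▸ mem_insert_self _ _)) c2 (c1.dj2 h.p2 c2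
        (mem_insert_of_mem (mem_union_left _ hp.right)) (fun e => hc (e ▸ mem_insert_self _ _))
        fun e => h2 rfl (e ▸ h.p2.left))).1, Or.inr (not_disjoint_iff.2
          ⟨y, mem_union_right _ h.p2.right, hB⟩)⟩ (mem_union_right _ h.p2.left))
    rcases mem_union.1 hv with hv | hv
    · rcases mem_insert.1 hv with rfl | hv
      exacts [hH hH', disjoint_left.1 b2 hv (mem_insert_of_mem hH')]
    · exact hH (h.o2 v hv (mem_insert_of_mem hH') ▸ hH')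
  · refine ⟨y, (mem_insert.1 h.m2).resolve_left hy, _, _, ((b1.cat h.p2 b3).1.cons he hj
      (notMem_union.2 ⟨b4, fun hx => hy (h.o2 _ hx (mem_insert_self _ _)).symm⟩)).1,
      mem_insert_self _ _, mem_insert_of_mem (mem_union_right _ h.p2.left), fun v hv hH' => ?_,
      fun v hv => (mem_insert.1 hv).imp_right fun hv => or_iff_not_imp_left.2 fun e => ?_⟩
    · rcases mem_insert.1 hv with rfl | hv
      · exact absurd hH' hH
      · exact h.o2 v ((mem_union.1 hv).resolve_left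
          (disjoint_right.1 b2 (mem_insert_of_mem hH'))) (mem_insert_of_mem hH')
    · rcases mem_union.1 hv with hv | hv
      · exact b1.rv b2 b1.right hv
      · obtain ⟨Z', R'', d1, -, d2⟩ := QG.earv_tail h.p2 h.o2 hv e
        exact d1.rv d2 d1.left d1.right

/-- an ear through the terminal `t` that starts with a given edge of the box `B`.
HINT: `QG.ed` from `t` to `insert B H` (a cut is impossible by `QG.c1`, a ring by `hb`), not both
ends are `B`.  Follow a path from `w` to `t` up to the first vertex on the two halves and replace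
the tail of that half; if the other half ends in `B` there is a ring against `hb`. -/
theorem QG.earv (hq : G.QG U Nb Tm) (hB : B ∈ Nb) (hH : B ∉ H) (hn : (H ∩ U).Nonempty)
    (ht : t ∈ Tm) (htH : t ∉ H)
    (hb : ∀ X, G.Vr Nb X → t ∈ X → ¬ Disjoint X H) (he : e ∈ G.A) (hj : G.Je e B w)
    (hr : G.Rv (insert B H) t w) :
    ∃ z ∈ H, ∃ X F, G.Pw B z X F ∧ e ∈ F ∧ t ∈ X ∧ (∀ v ∈ X, v ∈ H → v = z) ∧
      ∀ v ∈ X, v = B ∨ v = z ∨ G.Rv (insert B H) t v := by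
  have h0 : t ∉ insert B H := fun h => (mem_insert.1 h).elim
    (fun e => disjoint_left.1 hq.dj hB (e ▸ ht)) htH
  rcases hq.ed (hq.tm ht) h0 (notMem_empty t) with ⟨X, h1, h2, h3, -, f, h4⟩ |
    ⟨X, F, h1, h2, h3, h4, -⟩ | ⟨x, y, X1, X2, F1, F2, h⟩
  · rcases hq.c1 h1 h4 with rfl | rfl
    exacts [absurd h2 (notMem_empty t),
      absurd (mem_insert_self _ _) (disjoint_left.1 h3 (hq.nb hB))]
  · exact absurd (h4.mono_right (subset_insert _ _)) (hb X ⟨F, h1, Or.inr h3⟩ h2)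
  obtain ⟨Y, R, a1, a2, -⟩ := hr.symm.pw (hr.not_mem h0)
  obtain ⟨c, Y, R, Y', R', b1, b2, -, rfl, -, -, -, b3⟩ := a1.first (M := X1 ∪ X2)
    (not_disjoint_iff.2 ⟨t, a1.right, mem_union_left _ h.p1.left⟩)
  have k1 := QG.earv_key hB hH hb he hj h b2 (disjoint_union_left.1 a2).1 b3
  have k2 := QG.earv_key hB hH hb he hj h.symm b2 (disjoint_union_left.1 a2).1
    (union_comm X1 X2 ▸ b3)
  by_cases h1 : c ∈ X1
  · by_cases h2 : y = B → c ∉ X2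
    · exact k1 h1 h2
    obtain ⟨rfl, h3⟩ := Classical.not_imp.1 h2
    refine k2 (not_not.1 h3) fun e => ?_
    subst e
    obtain ⟨c1, c2⟩ := h.cw h0
    exact absurd (disjoint_left.2 fun v hv hH' => hH (c2 v hv (mem_insert_of_mem hH') ▸ hH'))
      (hb _ ⟨_, c1, Or.inr (not_disjoint_iff.2 ⟨_, mem_union_left _ h.p1.right, hB⟩)⟩
        (mem_union_left _ h.p1.left))
  · exact k2 ((mem_union.1 b1).resolve_left h1) fun _ => h1

end SG

end Pool.Agent.Work.MP_8c679b_co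
end

-- merged part: Pool.Agent.Work.MP_8c679b_co.A3.G0
section
/-!
Two rings through terminals that share exactly one box and miss an object: impossible.
-/

set_option autoImplicit false
set_option linter.unusedSectionVars false

namespace Pool.Agent.Work.MP_8c679b_co

open Finset

namespace SG

variable {V E : Type} [Fintype V] [DecidableEq V] [DecidableEq E] [Nonempty E] {G : SG V E}
  {U Nb Tm X Y Z M L D D' H P Q W X1 X2 A1 A2 A3 A4 S : Finset V}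
  {F F' F1 F2 E1 E2 E3 E4 R : Finset E} {a b c v w x y z s t u B B1 B2 : V} {e f g : E}

/-- a valid ring `C` through the terminal `s`, another terminal `v` and an object `D` off `C`:
one edge separates `v` from `D` off `C`.  HINT: `QG.ed` with `M = D`, `L = C`; `Ea.ob`. -/
theorem cut_b (hq : G.QG U Nb Tm) (hb : G.Hb Nb Tm) (hC : G.Vr Nb H) (hs : s ∈ Tm) (hsH : s ∈ H)
    (hD : G.Ob Nb D) (hd : Disjoint H D) (hv : v ∈ Tm) (hvH : v ∉ H) :
    v ∉ D ∧ ∃ X ⊆ U, v ∈ X ∧ Disjoint X D ∧ Disjoint X H ∧ ∃ f, G.Clo X H {f} := by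
  have hvD : v ∉ D := fun k => hb H D hC (hD.vr hq hv k) s hs v hv hsH k hd
  refine ⟨hvD, ?_⟩
  rcases hq.ed (hq.tm hv) hvD hvH with h | ⟨X, F, h1, h2, h3, -, h5⟩ | ⟨x, y, X1, X2, F1, F2, h⟩
  · exact h
  · exact (hb H X hC ⟨F, h1, Or.inr h3⟩ s hs v hv hsH h2 h5.symm).elim
  · obtain ⟨X, F, h1, h2, h3, -, h5⟩ := h.ob hq hD hvD 1
    refine (hb H X hC ⟨F, h1, h5.imp And.left fun k => ?_⟩ s hs v hv hsH
      (h2 (mem_union_left _ h.p1.left)) ?_).elim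
    · exact not_disjoint_iff.2 ⟨x, h2 (mem_union_left _ h.p1.right), k.1⟩
    · exact Disjoint.mono_right h3
        (disjoint_union_right.2 ⟨disjoint_union_right.2 ⟨h.l1.symm, h.l2.symm⟩, hd⟩)

/-- HINT: a path off `insert B D` from `X1` to `X2`; take its last vertex `p` on `X1` and the first
vertex `q` on `X2` after it; the arc of `X1` from `B` to `p` through `s`, the path, and the arc of
`X2` from `q` to `B` through `t` form a valid ring (`Cw.arcs`, `Pw.cat`, `cw_of_two`). -/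
theorem th0_sep (hq : G.QG U Nb Tm) (ha : G.Ha Nb Tm) (hB : B ∈ Nb) (h1 : G.Cw X1 F1)
    (h2 : G.Cw X2 F2) (b1 : B ∈ X1) (b2 : B ∈ X2) (hi : ∀ v ∈ X1, v ∈ X2 → v = B) (hs : s ∈ Tm)
    (ht : t ∈ Tm) (s1 : s ∈ X1) (t2 : t ∈ X2) (hD : G.Ob Nb D) (d1 : Disjoint X1 D)
    (d2 : Disjoint X2 D) (hx : x ∈ X1) (hy : y ∈ X2) (hxB : x ≠ B) :
    ¬ G.Rv (insert B D) x y := by
  intro hr
  have hx' : x ∉ insert B D := fun k =>
    (mem_insert.1 k).elim hxB fun k => disjoint_left.1 d1 hx k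
  obtain ⟨W, F, pW, dW, -⟩ := hr.pw hx'
  obtain ⟨q, W1, E1, W1', E1', q2, p1, -, rfl, -, -, -, o1⟩ :=
    pW.first (M := X2) (not_disjoint_iff.2 ⟨y, pW.right, hy⟩)
  obtain ⟨p, W2, E2, W2', E2', q1, p2, -, rfl, -, -, -, o2⟩ :=
    p1.symm.first (M := X1) (not_disjoint_iff.2 ⟨x, p1.left, hx⟩)
  have dB : ∀ v ∈ W2, v ≠ B ∧ v ∉ D := fun v hv => by
    have := disjoint_left.1 dW (mem_union_left _ (mem_union_left _ hv))
    rwa [mem_insert, not_or] at this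
  have pB := (dB p p2.right).1
  have qB := (dB q p2.left).1
  have pq : p ≠ q := fun k => pB (hi p q1 (k ▸ q2))
  obtain ⟨A1, R1, A1', R1', a1, -, rfl, -, -, -, -, sA⟩ := h1.arcs b1 q1 pB.symm s1
  obtain ⟨A2, R2, A2', R2', a2, -, rfl, -, -, -, -, tA⟩ := h2.arcs b2 q2 qB.symm t2
  have c1 := (a1.cat p2.symm fun v k k' => o2 v k' (mem_union_left _ k)).1
  have i2 : ∀ v ∈ A1 ∪ W2, v ∈ A2 → v = B ∨ v = q := fun v k k' =>
    (mem_union.1 k).imp (fun k => hi v (mem_union_left _ k) (mem_union_left _ k'))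
      fun k => o1 v (mem_union_left _ k) (mem_union_left _ k')
  have c2 := (cw_of_two c1 a2 qB.symm i2
    (c1.dj2 a2 i2 (mem_union_right _ p2.right) pB pq)).1
  refine ha _ ⟨_, c2, Or.inr (not_disjoint_iff.2 ⟨B, mem_union_right _ a2.left, hB⟩)⟩ s hs t ht
    (fun k => disjoint_left.1 hq.dj hB (hi s s1 (k ▸ t2) ▸ hs))
    (mem_union_left _ (mem_union_left _ sA)) (mem_union_right _ tA) D hD ?_
  exact disjoint_union_left.2 ⟨disjoint_union_left.2 ⟨(disjoint_union_left.1 d1).1,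
    disjoint_left.2 fun v k => (dB v k).2⟩, (disjoint_union_left.1 d2).1⟩

/-- the four edges of the common box are the edges of the two rings -/
theorem th0_part_edge (hq : G.QG U Nb Tm) (hB : B ∈ Nb) (h1 : G.Cw X1 F1) (h2 : G.Cw X2 F2)
    (b1 : B ∈ X1) (b2 : B ∈ X2) (hi : ∀ v ∈ X1, v ∈ X2 → v = B) (he : e ∈ G.A)
    (hj : G.Je e x B) (hx : x ∉ X2) : e ∈ F1 := by
  have hd : Disjoint (F1 ∩ G.cut {B}) (F2 ∩ G.cut {B}) := disjoint_left.2 fun k k1 k2 => by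
    obtain ⟨kA, w, jw⟩ := hq.cut1.1 (mem_inter.1 k1).2
    have aw := jw.at_iff.2 (Or.inr rfl)
    exact (hq.je kA jw).2.2
      (hi w (h1.ends (mem_inter.1 k1).1 aw) (h2.ends (mem_inter.1 k2).1 aw)).symm
  have e4 : F1 ∩ G.cut {B} ∪ F2 ∩ G.cut {B} = G.cut {B} :=
    eq_of_subset_of_card_le (union_subset inter_subset_right inter_subset_right) (by
      rw [card_union_of_disjoint hd, h1.deg b1, h2.deg b2, hq.d4 B hB])
  have h3 : e ∈ G.cut {B} := hq.cut1.2 ⟨he, x, hj.symm⟩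
  rw [← e4] at h3
  exact (mem_union.1 h3).elim (fun k => (mem_inter.1 k).1)
    fun k => (hx (h2.ends (mem_inter.1 k).1 (hj.at_iff.2 (Or.inl rfl)))).elim

/-- one ring edge of the box does not end in the part -/
theorem th0_part_small (hq : G.QG U Nb Tm) (hB : B ∈ Nb) (h1 : G.Cw X1 F1) (hs : s ∈ Tm)
    (s1 : s ∈ X1) (hP : P ⊆ U) (sP : s ∈ P) (bP : B ∉ P) (hc : G.Clo P {B} {g})
    (hk : ∀ k ∈ G.A, ∀ x ∈ P, G.Je k x B → k ∈ F1) (hF : F1 ∩ G.cut {B} = {e, f})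
    (je : G.Je e B a) (jf : G.Je f B b) (ha : a ∉ P) :
    P = {s} ∧ G.Adj G.A s B ∧ ∃ w ∈ X1, w ≠ B ∧ G.Je g s w := by
  have h2 : ∀ k ∈ G.A, ∀ x ∈ P, G.Je k x B → k = f := fun k kA x hx j => by
    have : k ∈ F1 ∩ G.cut {B} := mem_inter.2 ⟨hk k kA x hx j, hq.cut1.2 ⟨kA, x, j.symm⟩⟩
    rw [hF, mem_insert, mem_singleton] at this
    refine this.resolve_left ?_
    rintro rfl
    rcases je.at_iff.1 (j.at_iff.2 (Or.inl rfl)) with rfl | rfl
    exacts [bP hx, ha hx]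
  have h3 : G.Clo P ∅ {f, g} := fun k kA x y j hx hy => Or.inr (by
    rcases hc k kA x y j hx hy with m | m
    · rw [mem_singleton.1 m] at j
      exact mem_insert.2 (Or.inl (h2 k kA x hx j))
    · exact mem_insert_of_mem m)
  have h4 : P = {s} := by
    rcases hq.c2 hP h3 with m | m | ⟨r, -, m⟩ | ⟨r, hr, m⟩
    · exact (notMem_empty s (m ▸ sP)).elim
    · exact (bP (m ▸ hq.nb hB)).elim
    · rw [m] at sP ⊢
      rw [mem_singleton.1 sP]
    · have : B ∈ U \ P := mem_sdiff.2 ⟨hq.nb hB, bP⟩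
      rw [m, mem_singleton] at this
      exact (disjoint_left.1 hq.dj hB (this ▸ hr)).elim
  have h5 : G.cut {s} = {f, g} :=
    eq_of_subset_of_card_le (h4 ▸ h3.cut) (by rw [hq.d2 s hs]; exact card_le_two)
  have fg : f ≠ g := by
    rintro rfl
    have := hq.d2 s hs
    rw [h5, pair_eq_singleton, card_singleton] at this
    omega
  obtain ⟨fA, w', jw'⟩ := hq.cut1.1 (h5 ▸ mem_insert_self f {g})
  obtain ⟨gA, w, jw⟩ := hq.cut1.1 (h5 ▸ mem_insert_of_mem (mem_singleton_self g))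
  refine ⟨h4, adj_iff.2 ⟨f, fA, ?_⟩, w, (hq.tm_cw h1 hs s1 gA jw).2, ?_, jw⟩
  · rcases jf.at_iff.1 (jw'.at_iff.2 (Or.inl rfl)) with rfl | rfl
    exacts [(bP sP).elim, jf.symm]
  · rintro rfl
    exact fg (h2 g gA s sP jw).symm

/-- the part `P` around `s`.  HINT: `cut_b` for the ring `X2`, `P = X ∩ G.rc (insert B D) X1`.
Edges from `P` go to `B` (then they are the ring edges `e, f` of `Cw.del`, as `B` has four edges and
the other two go to `X2`) or are the one edge `g`.  If both `e, f` end in `P` use `Pw.inside`, else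
`QG.c2`. -/
theorem th0_part (hq : G.QG U Nb Tm) (ha : G.Ha Nb Tm) (hb : G.Hb Nb Tm) (hB : B ∈ Nb)
    (h1 : G.Cw X1 F1) (h2 : G.Cw X2 F2) (b1 : B ∈ X1) (b2 : B ∈ X2)
    (hi : ∀ v ∈ X1, v ∈ X2 → v = B) (hs : s ∈ Tm) (ht : t ∈ Tm) (s1 : s ∈ X1) (t2 : t ∈ X2)
    (hD : G.Ob Nb D) (d1 : Disjoint X1 D) (d2 : Disjoint X2 D) :
    ∃ P g, P ⊆ G.rc (insert B D) X1 ∧ s ∈ P ∧ G.Clo P {B} {g} ∧
      (X1 ⊆ insert B P ∨ (P = {s} ∧ G.Adj G.A s B ∧ ∃ w ∈ X1, w ≠ B ∧ G.Je g s w)) := by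
  have sB : s ≠ B := fun k => disjoint_left.1 hq.dj hB (k ▸ hs)
  obtain ⟨sD, X, hX, sX, dD, dX, g, hc⟩ := cut_b hq hb
    ⟨F2, h2, Or.inr (not_disjoint_iff.2 ⟨B, b2, hB⟩)⟩ ht t2 hD d2 hs fun k => sB (hi s s1 k)
  have sP : s ∈ X ∩ G.rc (insert B D) X1 := mem_inter.2 ⟨sX, mem_rc.2
    ⟨s, s1, fun k => (mem_insert.1 k).elim sB sD, Rv.refl _ _⟩⟩
  have cP : G.Clo (X ∩ G.rc (insert B D) X1) {B} {g} := fun k kA x y j hx hy => by
    by_cases yB : y = B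
    · exact Or.inl (mem_singleton.2 yB)
    by_cases yX : y ∈ X
    · have := rc_clo k kA x y j (mem_inter.1 hx).2 fun m => hy (mem_inter.2 ⟨yX, m⟩)
      rcases this with m | m
      · exact ((mem_insert.1 m).elim yB (disjoint_left.1 dD yX)).elim
      · exact (notMem_empty _ m).elim
    refine Or.inr ((hc k kA x y j (mem_inter.1 hx).1 yX).resolve_left fun y2 => ?_)
    obtain ⟨z, z1, zB, r⟩ := mem_rc.1 (mem_inter.1 hx).2
    exact th0_sep hq ha hB h1 h2 b1 b2 hi hs ht s1 t2 hD d1 d2 z1 y2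
      (fun m => zB (m ▸ mem_insert_self _ _)) (r.trans (rv_edge kA j (r.not_mem zB)
        fun m => (mem_insert.1 m).elim yB (disjoint_left.1 d2 y2)))
  refine ⟨_, g, inter_subset_right, sP, cP, ?_⟩
  have hP : X ∩ G.rc (insert B D) X1 ⊆ U := inter_subset_left.trans hX
  have bP : B ∉ X ∩ G.rc (insert B D) X1 := fun m => disjoint_left.1 dX (mem_inter.1 m).1 b2
  have hk : ∀ k ∈ G.A, ∀ x ∈ X ∩ G.rc (insert B D) X1, G.Je k x B → k ∈ F1 := fun k kA x hx j =>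
    th0_part_edge hq hB h1 h2 b1 b2 hi kA j (disjoint_left.1 dX (mem_inter.1 hx).1)
  obtain ⟨e, f, a, b, Y, F', -, je, jf, pY, bY, eX, -, eF⟩ := h1.del b1
  by_cases aP : a ∈ X ∩ G.rc (insert B D) X1
  · by_cases bP' : b ∈ X ∩ G.rc (insert B D) X1
    · refine Or.inl (eX.subset.trans (insert_subset_insert _ (pY.inside (f := g) aP bP'
        fun k kF x y j hx hy => mem_singleton.1
          ((cP k (pY.sub kF) x y j hx hy).resolve_left fun m => ?_))))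
      exact bY (mem_singleton.1 m ▸ (pY.je kF j).2.1)
    · exact Or.inr
        (th0_part_small hq hB h1 hs s1 hP sP bP cP hk (eF.trans (pair_comm _ _)) jf je bP')
  · exact Or.inr (th0_part_small hq hB h1 hs s1 hP sP bP cP hk eF je jf aP)

theorem th0_je (h : G.Je e a b) (h' : G.Je e x y) : (a = x ∧ b = y) ∨ (a = y ∧ b = x) := by
  rcases h with ⟨rfl, rfl⟩ | ⟨rfl, rfl⟩ <;> rcases h' with ⟨rfl, rfl⟩ | ⟨rfl, rfl⟩ <;> simp

theorem th0_cut (h : e ∈ G.cut Z) (hj : G.Je e x y) : x ∈ Z ∨ y ∈ Z := by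
  by_contra k
  rw [not_or] at k
  refine (mem_cut.1 h).2 ?_
  rcases hj with ⟨rfl, rfl⟩ | ⟨rfl, rfl⟩
  exacts [iff_of_false k.1 k.2, iff_of_false k.2 k.1]

theorem th0_clo (h : ∀ e ∈ G.A, ∀ x y, G.Je e x y → x ∈ Z → y ∉ Z → e ∈ R) : G.Clo Z ∅ R :=
  fun e he x y hj hx hy => Or.inr (h e he x y hj hx hy)

theorem th0_one (h : G.Clo P {B} {g}) (he : e ∈ G.A) (hj : G.Je e x y) (hx : x ∈ P) (hy : y ∉ P)
    (hB : y ≠ B) : e = g :=
  mem_singleton.1 ((h e he x y hj hx hy).resolve_left fun k => hB (mem_singleton.1 k))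

/-- the four edges of the common box -/
theorem th0_box (hq : G.QG U Nb Tm) (hB : B ∈ Nb) (h1 : G.Cw X1 F1) (h2 : G.Cw X2 F2)
    (b1 : B ∈ X1) (b2 : B ∈ X2) (hi : ∀ v ∈ X1, v ∈ X2 → v = B) :
    ∃ e f a c, G.Je e B a ∧ G.Je f B c ∧ a ∈ X2 ∧ c ∈ X2 ∧ ∀ k ∈ G.A, ∀ y, G.Je k B y →
      (y ∈ X1 ∧ y ∉ X2) ∨ (k = e ∧ y = a) ∨ (k = f ∧ y = c) := by
  obtain ⟨e', f', a', c', Y', R', n', j1, j2, p', m', rfl, -, i'⟩ := h1.del b1
  obtain ⟨e, f, a, c, Y, R, n, j3, j4, p, m, rfl, -, i⟩ := h2.del b2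
  have u : ∀ {k y z}, G.Je k B y → G.Je k B z → y = z := fun h h' =>
    (th0_je h h').elim And.right fun q => q.2.trans q.1
  have o : ∀ y ∈ Y', y ∉ insert B Y := fun y hy k => m' (hi y (mem_insert_of_mem hy) k ▸ hy)
  have d : ∀ {k k' y z}, G.Je k B y → G.Je k' B z → y ∈ Y' → z ∈ Y → k ≠ k' :=
    fun h h' hy hz q => o _ hy (mem_insert_of_mem (u (q ▸ h) h' ▸ hz))
  have c4 : ({e', f', e, f} : Finset E) = G.cut {B} := by
    refine eq_of_subset_of_card_le (fun k hk => ?_) ?_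
    · rw [insert_eq, insert_eq f', ← union_assoc, ← insert_eq, ← i, ← i', mem_union] at hk
      exact hk.elim (fun q => (mem_inter.1 q).2) fun q => (mem_inter.1 q).2
    · rw [hq.d4 B hB, card_insert_of_notMem, card_insert_of_notMem, card_pair n]
      · simp only [mem_insert, mem_singleton, not_or]
        exact ⟨d j2 j3 p'.right p.left, d j2 j4 p'.right p.right⟩
      · simp only [mem_insert, mem_singleton, not_or]
        exact ⟨n', d j1 j3 p'.left p.left, d j1 j4 p'.left p.right⟩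
  refine ⟨e, f, a, c, j3, j4, mem_insert_of_mem p.left, mem_insert_of_mem p.right,
    fun k hk y hj => ?_⟩
  have := hq.cut1.2 ⟨hk, y, hj⟩
  simp only [← c4, mem_insert, mem_singleton] at this
  rcases this with rfl | rfl | rfl | rfl
  · exact Or.inl (u j1 hj ▸ ⟨mem_insert_of_mem p'.left, o _ p'.left⟩)
  · exact Or.inl (u j2 hj ▸ ⟨mem_insert_of_mem p'.right, o _ p'.right⟩)
  · exact Or.inr (Or.inl ⟨rfl, u hj j3⟩)
  · exact Or.inr (Or.inr ⟨rfl, u hj j4⟩)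

/-- the second edge of the ring `X2` at the box -/
theorem th0_sec (hq : G.QG U Nb Tm) (hB : B ∈ Nb) (h1 : G.Cw X1 F1) (h2 : G.Cw X2 F2)
    (b1 : B ∈ X1) (b2 : B ∈ X2) (hi : ∀ v ∈ X1, v ∈ X2 → v = B) (t2 : t ∈ X2)
    (hA : G.Adj G.A t B) : ∃ k c, G.Je k B c ∧ c ∈ X2 ∧ ∀ e ∈ G.A, ∀ y, G.Je e B y →
      y ∈ X1 ∨ y = t ∨ e = k := by
  obtain ⟨e, f, a, c, j1, j2, m1, m2, h⟩ := th0_box hq hB h1 h2 b1 b2 hi
  obtain ⟨k, hk, j⟩ := hA
  rcases h k hk t (Or.symm j) with q | q | q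
  · exact absurd t2 q.2
  · exact ⟨f, c, j2, m2, fun e he y hj =>
      (h e he y hj).imp And.left (Or.imp (fun r => r.2.trans q.2.symm) And.left)⟩
  · exact ⟨e, a, j1, m1, fun e he y hj =>
      (h e he y hj).imp And.left fun r => r.symm.imp (fun r => r.2.trans q.2.symm) And.left⟩

theorem th0_tm (h3 : T3n Tm s t u) (hs : s ∉ Z) (ht : t ∉ Z) (hu : u ∉ Z) : Disjoint Z Tm :=
  disjoint_left.2 fun v hv k => by
    rcases h3.mem.2.2.2 v k with rfl | rfl | rfl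
    exacts [hs hv, ht hv, hu hv]

theorem th0_three {k : E} (hq : G.QG U Nb Tm) (hZ : Z ⊆ U) (hT : Disjoint Z Tm) (hD : G.Ob Nb D)
    (hDZ : D ⊆ Z) (h : G.Clo Z ∅ {e, f, k}) : False :=
  absurd ((hq.c4 hZ hT hD hDZ).trans ((card_le_card h.cut).trans card_le_three)) (by decide)

/-- a large part on `X1`, a small part on `X2` -/
theorem th0_ls {g' : E} (hq : G.QG U Nb Tm) (hb : G.Hb Nb Tm) (hB : B ∈ Nb) (h1 : G.Cw X1 F1)
    (h2 : G.Cw X2 F2) (b1 : B ∈ X1) (b2 : B ∈ X2) (hi : ∀ v ∈ X1, v ∈ X2 → v = B)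
    (h3 : T3n Tm s t u) (s1 : s ∈ X1) (t2 : t ∈ X2) (u1 : u ∉ X1) (hD : G.Ob Nb D)
    (d1 : Disjoint X1 D) (d2 : Disjoint X2 D) (dP : Disjoint P D)
    (cP : G.Clo P {B} {g}) (hP : X1 ⊆ insert B P) (cT : G.Clo {t} {B} {g'})
    (hA : G.Adj G.A t B) : False := by
  obtain ⟨k, c, -, -, hk⟩ := th0_sec hq hB h1 h2 b1 b2 hi t2 hA
  obtain ⟨-, X, XU, uX, XD, XH, f, cX⟩ := cut_b hq hb
    ⟨F1, h1, Or.inr (not_disjoint_iff.2 ⟨B, b1, hB⟩)⟩ h3.mem.1 s1 hD d1 h3.mem.2.2.1 u1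
  obtain ⟨M, hM⟩ : ∃ M : Finset V, ∀ v, v ∈ M ↔ v ∈ U ∧ v ≠ B ∧ v ≠ t ∧ v ∉ P :=
    ⟨U \ insert B (insert t P), fun v => by simp only [mem_sdiff, mem_insert, not_or]⟩
  have MU : M ⊆ U := fun v hv => ((hM v).1 hv).1
  have M1 : ∀ v ∈ M, v ∉ X1 := fun v hv q =>
    (mem_insert.1 (hP q)).elim ((hM v).1 hv).2.1 ((hM v).1 hv).2.2.2
  have cM : G.Clo M ∅ {g, g', k} := th0_clo fun e he x y hj hx hy => by
    obtain ⟨-, a1, a2, a3⟩ := (hM x).1 hx
    simp only [mem_insert, mem_singleton]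
    by_cases q1 : y = B
    · exact Or.inr (Or.inr (((hk e he x (q1 ▸ hj.symm)).resolve_left (M1 x hx)).resolve_left a2))
    by_cases q2 : y = t
    · exact Or.inr (Or.inl (th0_one cT he hj.symm (mem_singleton.2 q2) (notMem_singleton.2 a2) a1))
    · exact Or.inl (th0_one cP he hj.symm
        (by_contra fun q => hy ((hM y).2 ⟨(hq.je he hj).2.1, q1, q2, q⟩)) a3 a1)
  have DM : D ⊆ M := fun v hv => (hM v).2 ⟨(hq.ob hD).1 hv,
    fun q => disjoint_left.1 d1 b1 (q ▸ hv), fun q => disjoint_left.1 d2 t2 (q ▸ hv),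
    disjoint_right.1 dP hv⟩
  have sM : s ∉ M := fun q => M1 s q s1
  have tM : t ∉ M := fun q => ((hM t).1 q).2.2.1 rfl
  by_cases uM : u ∈ M
  swap
  · exact th0_three hq MU (th0_tm h3 sM tM uM) hD DM cM
  have cf : ∀ e ∈ G.A, ∀ x y, G.Je e x y → x ∈ X → y ∉ X → y ∈ M → e = f :=
    fun e he x y hj hx hy m => mem_singleton.1 ((cX e he x y hj hx hy).resolve_left (M1 y m))
  have cZ : G.Clo (M \ X) ∅ {f, g, g', k} := th0_clo fun e he x y hj hx hy => by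
    obtain ⟨a1, a2⟩ := mem_sdiff.1 hx
    by_cases q : y ∈ M
    · exact mem_insert.2 (Or.inl (cf e he y x hj.symm
        (by_contra fun r => hy (mem_sdiff.2 ⟨q, r⟩)) a2 a1))
    · exact mem_insert_of_mem ((cM e he x y hj a1 q).resolve_left (notMem_empty _))
  have e4 := eq_of_subset_of_card_le cZ.cut (card_le_four.trans (hq.c4 (sdiff_subset.trans MU)
    (th0_tm h3 (fun q => sM (mem_sdiff.1 q).1) (fun q => tM (mem_sdiff.1 q).1)
      fun q => (mem_sdiff.1 q).2 uX) hD (subset_sdiff.2 ⟨DM, XD.symm⟩)))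
  have cN : G.Clo (X ∩ M) ∅ {f} := th0_clo fun e he x y hj hx hy => by
    obtain ⟨a1, a2⟩ := mem_inter.1 hx
    by_cases q : y ∈ M
    · exact mem_singleton.2 (cf e he x y hj a1 (fun r => hy (mem_inter.2 ⟨r, q⟩)) q)
    · have := mem_insert_of_mem (b := f) ((cM e he x y hj a2 q).resolve_left (notMem_empty _))
      rw [← e4] at this
      exact absurd (th0_cut this hj)
        (not_or.2 ⟨fun r => (mem_sdiff.1 r).2 a1, fun r => q (mem_sdiff.1 r).1⟩)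
  rcases hq.c1 (inter_subset_right.trans MU) cN with q | q
  · exact notMem_empty u (q ▸ mem_inter.2 ⟨uX, uM⟩)
  · exact M1 B (mem_inter.1 (q.symm ▸ hq.nb hB : B ∈ X ∩ M)).2 b1

/-- both parts are small -/
theorem th0_ss {g' : E} (hq : G.QG U Nb Tm) (hb : G.Hb Nb Tm) (hB : B ∈ Nb) (h1 : G.Cw X1 F1)
    (h2 : G.Cw X2 F2) (b1 : B ∈ X1) (b2 : B ∈ X2) (hi : ∀ v ∈ X1, v ∈ X2 → v = B)
    (h3 : T3n Tm s t u) (s1 : s ∈ X1) (t2 : t ∈ X2) (u1 : u ∉ X1) (u2 : u ∉ X2) (hD : G.Ob Nb D)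
    (d1 : Disjoint X1 D) (d2 : Disjoint X2 D) (cS : G.Clo {s} {B} {g}) (hS : G.Adj G.A s B)
    (w1 : w ∈ X1) (jg : G.Je g s w) (cT : G.Clo {t} {B} {g'}) (hA : G.Adj G.A t B)
    (uR : u ∉ G.rc (insert B D) X2) : False := by
  obtain ⟨k', -, -, -, hk'⟩ := th0_sec hq hB h1 h2 b1 b2 hi t2 hA
  obtain ⟨k, c, jk, c1, hk⟩ := th0_sec hq hB h2 h1 b2 b1 (fun v a b => hi v b a) s1 hS
  obtain ⟨-, X, XU, uX, XD, XH, f, cX⟩ := cut_b hq hb
    ⟨F2, h2, Or.inr (not_disjoint_iff.2 ⟨B, b2, hB⟩)⟩ h3.mem.2.1 t2 hD d2 h3.mem.2.2.1 u2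
  have r1 : ∀ v ∈ X2, v ≠ B → v ∈ G.rc (insert B D) X2 := fun v hv q => mem_rc.2
    ⟨v, hv, fun r => (mem_insert.1 r).elim q (disjoint_left.1 d2 hv), Rv.refl _ _⟩
  have r2 := rc_clo (G := G) (M := insert B D) (Z := X2)
  generalize G.rc (insert B D) X2 = Q at uR r1 r2
  obtain ⟨N, hN⟩ : ∃ N : Finset V, ∀ v, v ∈ N ↔ v ∈ X ∧ v ≠ s ∧ v ∉ Q :=
    ⟨X.erase s \ Q, fun v => by simp only [mem_sdiff, mem_erase, and_assoc, and_left_comm]⟩
  have NX : N ⊆ X := fun v hv => ((hN v).1 hv).1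
  have N2 : ∀ v ∈ N, v ∉ X2 := fun v hv => disjoint_left.1 XH (NX hv)
  have uN : u ∈ N := (hN u).2 ⟨uX, h3.2.2.1.symm, uR⟩
  have sN : s ∉ N := fun q => ((hN s).1 q).2.1 rfl
  have cN : ∀ e ∈ G.A, ∀ x y, G.Je e x y → x ∈ N → y ∉ N →
      e = f ∨ (e = g ∧ x = w) ∨ (e = k ∧ x = c) := fun e he x y hj hx hy => by
    obtain ⟨a1, a2, a3⟩ := (hN x).1 hx
    have xB : x ≠ B := fun q => N2 x hx (q ▸ b2)
    have yQ : y ∉ Q := fun q => ((r2 e he y x hj.symm q a3).resolve_right (notMem_empty _)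
      |> mem_insert.1).elim xB (disjoint_left.1 XD a1)
    by_cases q1 : y = s
    · obtain rfl := th0_one cS he hj.symm (mem_singleton.2 q1) (notMem_singleton.2 a2) xB
      exact Or.inr (Or.inl ⟨rfl, ((th0_je hj jg).resolve_left fun r => a2 r.1).1⟩)
    by_cases q2 : y = B
    · obtain rfl := ((hk e he x (q2 ▸ hj.symm)).resolve_left (N2 x hx)).resolve_left a2
      exact Or.inr (Or.inr ⟨rfl, ((th0_je hj jk).resolve_left fun r => xB r.1).1⟩)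
    · exact Or.inl (mem_singleton.1 ((cX e he x y hj a1 fun r => hy ((hN y).2 ⟨r, q1, yQ⟩))
        |>.resolve_left fun r => yQ (r1 y r q2)))
  have two : ∀ {l : E} {a b : V}, G.Je l a b → a ∈ X1 → b ∈ X1 → ¬ G.Clo N ∅ {f, l} :=
    fun {l a b} j ha hb' cl => by
      have BN : B ∉ N := fun q => N2 B q b2
      rcases hq.c2 (NX.trans XU) cl with q | q | ⟨v, hv, q⟩ | ⟨v, hv, q⟩
      · exact notMem_empty u (q ▸ uN)
      · exact BN (q ▸ hq.nb hB)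
      · obtain rfl : u = v := mem_singleton.1 (q ▸ uN)
        rw [q] at cl
        have e2 := eq_of_subset_of_card_le cl.cut (card_le_two.trans (hq.d2 u hv).ge)
        have := th0_cut (e2.symm ▸ mem_insert_of_mem (mem_singleton_self l) : l ∈ G.cut {u}) j
        exact this.elim (fun r => u1 (mem_singleton.1 r ▸ ha)) fun r => u1 (mem_singleton.1 r ▸ hb')
      · obtain rfl : B = v := mem_singleton.1 (q ▸ mem_sdiff.2 ⟨hq.nb hB, BN⟩)
        exact disjoint_left.1 hq.dj hB hv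
  have wN : w ∈ N := by_contra fun q => two jk b1 c1 (th0_clo fun e he x y hj hx hy => by
    rcases cN e he x y hj hx hy with r | r | r
    · exact mem_insert.2 (Or.inl r)
    · exact absurd (r.2 ▸ hx) q
    · exact mem_insert_of_mem (mem_singleton.2 r.1))
  have cN' : c ∈ N := by_contra fun q => two jg s1 w1 (th0_clo fun e he x y hj hx hy => by
    rcases cN e he x y hj hx hy with r | r | r
    · exact mem_insert.2 (Or.inl r)
    · exact mem_insert_of_mem (mem_singleton.2 r.1)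
    · exact absurd (r.2 ▸ hx) q)
  obtain ⟨Z, hZ⟩ : ∃ Z : Finset V, ∀ v, v ∈ Z ↔ v ∈ U ∧ v ≠ s ∧ v ≠ B ∧ v ≠ t ∧ v ∉ N :=
    ⟨U \ insert s (insert B (insert t N)), fun v => by simp only [mem_sdiff, mem_insert, not_or]⟩
  refine th0_three (e := f) (f := g') (k := k') hq (Z := Z) (fun v hv => ((hZ v).1 hv).1)
    (th0_tm h3 (fun q => ((hZ s).1 q).2.1 rfl) (fun q => ((hZ t).1 q).2.2.2.1 rfl)
      fun q => ((hZ u).1 q).2.2.2.2 uN) hD (fun v hv => (hZ v).2 ⟨(hq.ob hD).1 hv,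
      fun q => disjoint_left.1 d1 s1 (q ▸ hv), fun q => disjoint_left.1 d1 b1 (q ▸ hv),
      fun q => disjoint_left.1 d2 t2 (q ▸ hv), fun q => disjoint_left.1 XD (NX q) hv⟩)
    (th0_clo fun e he x y hj hx hy => ?_)
  obtain ⟨-, a1, a2, a3, a4⟩ := (hZ x).1 hx
  have ng : e ≠ g := fun q => (th0_je hj (q ▸ jg)).elim (fun r => a1 r.1) fun r => a4 (r.1 ▸ wN)
  have nk : e ≠ k := fun q => (th0_je hj (q ▸ jk)).elim (fun r => a2 r.1) fun r => a4 (r.1 ▸ cN')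
  simp only [mem_insert, mem_singleton]
  by_cases q1 : y = s
  · exact absurd (th0_one cS he hj.symm (mem_singleton.2 q1) (notMem_singleton.2 a1) a2) ng
  by_cases q2 : y = B
  · have x2 := ((hk e he x (q2 ▸ hj.symm)).resolve_right (not_or.2 ⟨a1, nk⟩))
    exact Or.inr (Or.inr (((hk' e he x (q2 ▸ hj.symm)).resolve_left
      fun r => a2 (hi x r x2)).resolve_left a3))
  by_cases q3 : y = t
  · exact Or.inr (Or.inl (th0_one cT he hj.symm (mem_singleton.2 q3) (notMem_singleton.2 a3) a2))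
  · exact Or.inl ((cN e he y x hj.symm (by_contra fun r => hy ((hZ y).2
      ⟨(hq.je he hj).2.1, q1, q2, q3, r⟩)) a4).resolve_right
        (not_or.2 ⟨fun r => ng r.1, fun r => nk r.1⟩))

/-- HINT: parts `P, P'` of `th0_part`, `u` the third terminal (off both rings by `ha`).
Both large: `P ∪ P' ∪ {B}` has two leaving edges, `QG.c2`.  `P` large, `P' = {t}`: the rest
`M = U \ (P ∪ {B, t})` has three leaving edges; `u ∉ M` is against `QG.c4`; else `cut_b` for `X1`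
gives `X`, `M \ X` contains `D`, so no leaving edge of `M` starts in `X ∩ M`, against `QG.c1`.
Both small: `M = U \ {s, B, t}`, say `u` is not in `R' = G.rc (insert B D) X2`; `cut_b` for `X2` gives
`X`, `N = X ∩ M \ R'` is left only by the edge of `X`, the edge `g` at `s` and the second edge `e` of
`X1` at `B`.  If one of `g, e` does not start in `N` then `N = {u}` (`QG.c2`) and `u` is on `X1`.
Else `M \ N` has three leaving edges, against `QG.c4`. -/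
theorem th0 (hq : G.QG U Nb Tm) (ha : G.Ha Nb Tm) (hb : G.Hb Nb Tm) (hB : B ∈ Nb)
    (h1 : G.Cw X1 F1) (h2 : G.Cw X2 F2) (b1 : B ∈ X1) (b2 : B ∈ X2)
    (hi : ∀ v ∈ X1, v ∈ X2 → v = B) (hs : s ∈ Tm) (ht : t ∈ Tm) (s1 : s ∈ X1) (t2 : t ∈ X2)
    (hD : G.Ob Nb D) (d1 : Disjoint X1 D) (d2 : Disjoint X2 D) : False := by
  have hi' : ∀ v ∈ X2, v ∈ X1 → v = B := fun v a b => hi v b a
  have nB : ∀ v ∈ Tm, v ≠ B := fun v hv q => disjoint_left.1 hq.dj hB (q ▸ hv)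
  obtain ⟨u, h3⟩ := hq.third hs ht fun q => nB s hs (hi s s1 (q ▸ t2))
  have v1 : G.Vr Nb X1 := ⟨F1, h1, Or.inr (not_disjoint_iff.2 ⟨B, b1, hB⟩)⟩
  have v2 : G.Vr Nb X2 := ⟨F2, h2, Or.inr (not_disjoint_iff.2 ⟨B, b2, hB⟩)⟩
  have hu := h3.mem.2.2.1
  have u1 : u ∉ X1 := fun q => ha X1 v1 s hs u hu h3.2.2.1 s1 q D hD d1
  have u2 : u ∉ X2 := fun q => ha X2 v2 t ht u hu h3.2.2.2 t2 q D hD d2
  obtain ⟨P, g, p1, -, p3, p4⟩ := th0_part hq ha hb hB h1 h2 b1 b2 hi hs ht s1 t2 hD d1 d2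
  obtain ⟨P', g', q1, -, q3, q4⟩ := th0_part hq ha hb hB h2 h1 b2 b1 hi' ht hs t2 s1 hD d2 d1
  have dP : Disjoint P D := rc_dj.mono p1 (subset_insert _ _)
  have dP' : Disjoint P' D := rc_dj.mono q1 (subset_insert _ _)
  rcases p4 with p4 | ⟨rfl, p4, w, p5, -, p6⟩ <;> rcases q4 with q4 | ⟨rfl, q4, w', q5, -, q6⟩
  · obtain ⟨e, f, a, c, -, -, m1, m2, hk⟩ := th0_box hq hB h1 h2 b1 b2 hi
    have s12 : X1 ∪ X2 ⊆ insert B (P ∪ P') := union_subset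
      (p4.trans (insert_subset_insert _ subset_union_left))
      (q4.trans (insert_subset_insert _ subset_union_right))
    have cW : G.Clo (insert B (P ∪ P')) ∅ {g, g'} := th0_clo fun k he x y hj hx hy => by
      have yB : y ≠ B := fun q => hy (mem_insert.2 (Or.inl q))
      rcases mem_insert.1 hx with rfl | r
      · refine absurd (s12 (mem_union.2 ?_)) hy
        exact (hk k he y hj).imp And.left fun r => r.elim (fun r => r.2 ▸ m1) fun r => r.2 ▸ m2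
      rcases mem_union.1 r with r | r
      · exact mem_insert.2 (Or.inl (th0_one p3 he hj r
          (fun q => hy (mem_insert_of_mem (mem_union_left _ q))) yB))
      · exact mem_insert_of_mem (mem_singleton.2 (th0_one q3 he hj r
          (fun q => hy (mem_insert_of_mem (mem_union_right _ q))) yB))
    obtain ⟨DU, d, hd⟩ := hq.ob hD
    have dW : d ∉ insert B (P ∪ P') := fun q => (mem_insert.1 q).elim
      (fun r => disjoint_left.1 d1 b1 (r ▸ hd)) fun r => (mem_union.1 r).elim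
        (disjoint_right.1 dP hd) (disjoint_right.1 dP' hd)
    rcases hq.c2 (insert_subset (hq.nb hB) (union_subset (p1.trans (hq.rc (hq.cw h1)))
      (q1.trans (hq.rc (hq.cw h2))))) cW with q | q | ⟨v, hv, q⟩ | ⟨v, hv, q⟩
    · exact insert_ne_empty _ _ q
    · exact dW (q ▸ DU hd)
    · exact nB v hv (mem_singleton.1 (q ▸ mem_insert_self _ _)).symm
    · obtain rfl : d = v := mem_singleton.1 (q ▸ mem_sdiff.2 ⟨DU hd, dW⟩)
      exact disjoint_left.1 (th0_tm h3 (disjoint_left.1 d1 s1) (disjoint_left.1 d2 t2)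
        (cut_b hq hb v1 hs s1 hD d1 hu u1).1) hd hv
  · exact th0_ls hq hb hB h1 h2 b1 b2 hi h3 s1 t2 u1 hD d1 d2 dP p3 p4 q3 q4
  · exact th0_ls hq hb hB h2 h1 b2 b1 hi' h3.sw1 t2 s1 u2 hD d2 d1 dP' q3 q4 p3 p4
  by_cases k : u ∈ G.rc (insert B D) X2
  · refine th0_ss hq hb hB h2 h1 b2 b1 hi' h3.sw1 t2 s1 u2 u1 hD d2 d1 q3 q4 q5 q6 p3 p4
      fun k' => ?_
    obtain ⟨x, x1, x2, x3⟩ := mem_rc.1 k'
    obtain ⟨y, y1, -, y3⟩ := mem_rc.1 k
    exact th0_sep hq ha hB h1 h2 b1 b2 hi hs ht s1 t2 hD d1 d2 x1 y1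
      (fun q => x2 (mem_insert.2 (Or.inl q))) (x3.trans y3.symm)
  · exact th0_ss hq hb hB h1 h2 b1 b2 hi h3 s1 t2 u1 u2 hD d1 d2 p3 p4 p5 p6 q3 q4 k

end SG

end Pool.Agent.Work.MP_8c679b_co
end

-- merged part: Pool.Agent.Work.MP_8c679b_co.A3.GT
section
/-!
The configuration `Th`: symmetries, rings, the shortest third path.
-/

set_option autoImplicit false
set_option linter.unusedSectionVars false

namespace Pool.Agent.Work.MP_8c679b_co

open Finset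

namespace SG

variable {V E : Type} [Fintype V] [DecidableEq V] [DecidableEq E] [Nonempty E] {G : SG V E}
  {U Nb Tm X Y Z M L D D' H P Q W X1 X2 A1 A2 A3 A4 S : Finset V}
  {F F' F1 F2 E1 E2 E3 E4 R : Finset E} {a b c v w x y z s t u B B1 B2 : V} {e f g : E}

theorem Th.sw (h : G.Th Nb Tm s t x y A1 A2 A3 A4 S E1 E2 E3 E4 F) :
    G.Th Nb Tm t s x y A2 A1 A4 A3 S E2 E1 E4 E3 F := by
  refine ⟨h.ht, h.hs, h.st.symm, h.tx, h.ty, h.sx, h.sy, h.xy, h.p2, h.p1, h.p4, h.p3, h.ps,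
    fun v h2 h1 => h.i12 v h1 h2, h.i24, h.i23, h.i14, h.i13, fun v h4 h3 => h.i34 v h3 h4,
    h.j2, h.j1, h.j4, h.j3, ?_, ?_, ?_⟩
  · have e : A2 ∪ A1 ∪ A4 ∪ A3 = A1 ∪ A2 ∪ A3 ∪ A4 := by
      ext v; simp only [mem_union]; tauto
    rw [e]; exact h.nb
  · have := h.ev
    linear_combination this
  · refine h.va.imp (fun k => ?_) id
    have hev := h.ev
    revert hev k
    generalize G.par E1 = p1
    generalize G.par E2 = p2
    generalize G.par E3 = p3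
    generalize G.par E4 = p4
    generalize G.par F = p5
    revert p1 p2 p3 p4 p5
    decide

theorem Th.fl (h : G.Th Nb Tm s t x y A1 A2 A3 A4 S E1 E2 E3 E4 F) :
    G.Th Nb Tm s t y x A4 A3 A2 A1 S E4 E3 E2 E1 F := by
  refine ⟨h.hs, h.ht, h.st, h.sy, h.sx, h.ty, h.tx, h.xy.symm, h.p4, h.p3, h.p2, h.p1, h.ps.symm,
    fun v h4 h3 => h.i34 v h3 h4, h.i24.symm, fun v h4 h1 => h.i14 v h1 h4,
    fun v h3 h2 => h.i23 v h2 h3, h.i13.symm, fun v h2 h1 => h.i12 v h1 h2,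
    h.j4, h.j3, h.j2, h.j1, ?_, ?_, ?_⟩
  · have e : A4 ∪ A3 ∪ A2 ∪ A1 = A1 ∪ A2 ∪ A3 ∪ A4 := by
      ext v; simp only [mem_union]; tauto
    rw [e]; exact h.nb
  · have := h.ev
    linear_combination this
  · refine h.va.imp (fun k => ?_) id
    linear_combination k

/-- the ring through `s` and the third path -/
theorem Th.ring (h : G.Th Nb Tm s t x y A1 A2 A3 A4 S E1 E2 E3 E4 F) :
    G.Cw (A1 ∪ A4 ∪ S) (E1 ∪ E4 ∪ F) ∧
      G.par (E1 ∪ E4 ∪ F) = G.par E1 + G.par E4 + G.par F ∧ G.Vr Nb (A1 ∪ A4 ∪ S) := by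
  obtain ⟨q, hq⟩ := h.p1.symm.cat h.p4 h.i14
  have hi : ∀ v ∈ A1 ∪ A4, v ∈ S → v = x ∨ v = y := by
    intro v hv hS
    rcases mem_union.1 hv with k | k
    · exact Or.inl (h.j1 v k hS)
    · exact Or.inr (h.j4 v k hS)
  have hd : Disjoint (E1 ∪ E4) F :=
    q.dj2 h.ps hi (mem_union_left _ h.p1.left) h.sx h.sy
  obtain ⟨c1, c2⟩ := cw_of_two q h.ps h.xy hi hd
  rw [hq] at c2
  refine ⟨c1, c2, _, c1, ?_⟩
  rcases h.va with k | k
  · exact Or.inl (c2.trans k)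
  · exact Or.inr fun hh => k (hh.mono_left subset_union_right)

/-- the even ring -/
theorem Th.rr (h : G.Th Nb Tm s t x y A1 A2 A3 A4 S E1 E2 E3 E4 F) :
    G.Cw (A1 ∪ A2 ∪ A3 ∪ A4) (E1 ∪ E2 ∪ E3 ∪ E4) := by
  obtain ⟨q, -⟩ := h.p1.symm.cat h.p4 h.i14
  obtain ⟨q', -⟩ := h.p2.symm.cat h.p3 h.i23
  have hi : ∀ v ∈ A1 ∪ A4, v ∈ A2 ∪ A3 → v = x ∨ v = y := by
    intro v hv hS
    rcases mem_union.1 hv with k | k <;> rcases mem_union.1 hS with k' | k'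
    · exact Or.inl (h.i12 v k k')
    · exact (disjoint_left.1 h.i13 k k').elim
    · exact (disjoint_left.1 h.i24 k' k).elim
    · exact Or.inr (h.i34 v k' k)
  have hd : Disjoint (E1 ∪ E4) (E2 ∪ E3) :=
    q.dj2 q' hi (mem_union_left _ h.p1.left) h.sx h.sy
  obtain ⟨c1, -⟩ := cw_of_two q q' h.xy hi hd
  have e1 : A1 ∪ A2 ∪ A3 ∪ A4 = A1 ∪ A4 ∪ (A2 ∪ A3) := by
    ext v; simp only [mem_union]; tauto
  have e2 : E1 ∪ E2 ∪ E3 ∪ E4 = E1 ∪ E4 ∪ (E2 ∪ E3) := by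
    ext v; simp only [mem_union]; tauto
  rw [e1, e2]; exact c1

/-- the edges at `x`.  HINT: `x` is no box, `Pw.head` three times. -/
theorem Th.atx (hq : G.QG U Nb Tm) (h : G.Th Nb Tm s t x y A1 A2 A3 A4 S E1 E2 E3 E4 F) :
    ∃ α ∈ F, G.At α x ∧ ∀ e ∈ G.A, ∀ w, G.Je e x w → w ∉ A1 → w ∉ A2 → e = α := by
  obtain ⟨e1, w1, Y1, F1, a1, j1, -, -, -, r1, -, -⟩ := h.p1.symm.head h.sx.symm
  obtain ⟨e2, w2, Y2, F2, a2, j2, -, -, -, r2, -, -⟩ := h.p2.symm.head h.tx.symm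
  obtain ⟨e3, w3, Y3, F3, a3, j3, -, -, -, r3, -, -⟩ := h.ps.head h.xy
  have m1 : e1 ∈ E1 := r1 ▸ mem_insert_self _ _
  have m2 : e2 ∈ E2 := r2 ▸ mem_insert_self _ _
  have m3 : e3 ∈ F := r3 ▸ mem_insert_self _ _
  have n12 : e1 ≠ e2 := fun k => disjoint_left.1 (h.p1.dj1 h.p2 h.i12) m1 (k ▸ m2)
  have n13 : e1 ≠ e3 := fun k => disjoint_left.1 (h.p1.dj1 h.ps h.j1) m1 (k ▸ m3)
  have n23 : e2 ≠ e3 := fun k => disjoint_left.1 (h.p2.dj1 h.ps h.j2) m2 (k ▸ m3)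
  have hsub : ({e1, e2, e3} : Finset E) ⊆ G.cut {x} := by
    intro e he
    simp only [mem_insert, mem_singleton] at he
    rcases he with rfl | rfl | rfl
    · exact hq.cut1.2 ⟨a1, _, j1⟩
    · exact hq.cut1.2 ⟨a2, _, j2⟩
    · exact hq.cut1.2 ⟨a3, _, j3⟩
  have hc : ({e1, e2, e3} : Finset E).card = 3 := card_eq_three.2 ⟨e1, e2, e3, n12, n13, n23, rfl⟩
  have hxU : x ∈ U := (hq.je a1 j1).1
  have hxN : x ∉ Nb := disjoint_left.1 h.nb
    (mem_union_left _ (mem_union_left _ (mem_union_left _ h.p1.right)))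
  have hxT : x ∉ Tm := by
    intro k
    have := card_le_card hsub
    rw [hc, hq.d2 x k] at this
    omega
  have heq : ({e1, e2, e3} : Finset E) = G.cut {x} :=
    eq_of_subset_of_card_le hsub (by rw [hc, hq.d3 x hxU hxN hxT])
  refine ⟨e3, m3, j3.at_iff.2 (Or.inl rfl), fun e he w hj h1 h2 => ?_⟩
  have : e ∈ ({e1, e2, e3} : Finset E) := heq ▸ hq.cut1.2 ⟨he, _, hj⟩
  simp only [mem_insert, mem_singleton] at this
  rcases this with rfl | rfl | rfl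
  · exact (h1 (h.p1.je m1 hj).2.1).elim
  · exact (h2 (h.p2.je m2 hj).2.1).elim
  · rfl

/-- the third terminal is off the configuration.  HINT: on `S`, `A1`, `A4` use `Th.ring`, on
`A2`, `A3` the same for `Th.sw`. -/
theorem Th.third (ha : G.Ha Nb Tm) (h : G.Th Nb Tm s t x y A1 A2 A3 A4 S E1 E2 E3 E4 F)
    (h3 : T3n Tm s t u) (hD : G.Ob Nb D) (hd : Disjoint (A1 ∪ A2 ∪ A3 ∪ A4 ∪ S) D) :
    u ∉ A1 ∪ A2 ∪ A3 ∪ A4 ∪ S ∧ s ∉ S ∧ t ∉ S := by
  obtain ⟨ms, mt, mu, -⟩ := h3.mem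
  obtain ⟨-, -, su, tu⟩ := h3
  have k1 : u ∉ A1 ∪ A4 ∪ S := by
    intro k
    refine ha _ h.ring.2.2 s ms u mu su (mem_union_left _ (mem_union_left _ h.p1.left)) k D hD
      (hd.mono_left ?_)
    intro v; simp only [mem_union]; tauto
  have k2 : u ∉ A2 ∪ A3 ∪ S := by
    intro k
    refine ha _ h.sw.ring.2.2 t mt u mu tu (mem_union_left _ (mem_union_left _ h.p2.left)) k D hD
      (hd.mono_left ?_)
    intro v; simp only [mem_union]; (clear * -; tauto)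
  refine ⟨?_, fun k => h.sx (h.j1 s h.p1.left k), fun k => h.tx (h.j2 t h.p2.left k)⟩
  simp only [mem_union] at k1 k2 ⊢
  tauto

/-- a path between two vertices of the arc from `s` to `t` through `x` replaces a piece of it -/
theorem Th.arc (h : G.Th Nb Tm s t x y A1 A2 A3 A4 S E1 E2 E3 E4 F) (hab : a ≠ b)
    (h1 : a ∈ A1 ∪ A2) (h2 : b ∈ A1 ∪ A2) :
    ∃ Z F2, G.Pw a b Z F2 ∧ Z ⊆ A1 ∪ A2 ∧ ∀ X R, G.Pw a b X R →
      (∀ v ∈ X, v ∈ A1 ∪ A2 ∪ A3 ∪ A4 → v = a ∨ v = b) → (∃ v ∈ X, v ≠ a ∧ v ≠ b) →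
      ∃ Y F', G.Cw Y F' ∧ s ∈ Y ∧ t ∈ Y ∧ X ⊆ Y ∧ Y ⊆ A1 ∪ A2 ∪ A3 ∪ A4 ∪ X ∧
        G.par F' = G.par R + G.par F2 := by
  obtain ⟨q, hq⟩ := h.p1.cat h.p2.symm h.i12
  obtain ⟨q', hq'⟩ := h.p4.cat h.p3.symm (fun v h4 h3 => h.i34 v h3 h4)
  obtain ⟨a', b', X1, F1, X2, F2, X3, F3, hab', p1, p2, p3, eX, -, -, -, i13, hp⟩ := q.split2 h1 h2
  have s1 : X1 ⊆ A1 ∪ A2 := by rw [eX]; intro v; simp only [mem_union]; tauto
  have s2 : X2 ⊆ A1 ∪ A2 := by rw [eX]; intro v; simp only [mem_union]; tauto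
  have s3 : X3 ⊆ A1 ∪ A2 := by rw [eX]; intro v; simp only [mem_union]; tauto
  have s0 : A1 ∪ A2 ⊆ A1 ∪ A2 ∪ A3 ∪ A4 := by intro v; simp only [mem_union]; (clear * - hab'; tauto)
  have hst : ∀ v ∈ A4 ∪ A3, v ∈ A1 ∪ A2 → v = s ∨ v = t := by
    intro v hv hS
    rcases mem_union.1 hv with k | k <;> rcases mem_union.1 hS with k' | k'
    · exact Or.inl (h.i14 v k' k)
    · exact (disjoint_left.1 h.i24 k' k).elim
    · exact (disjoint_left.1 h.i13 k' k).elim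
    · exact Or.inr (h.i23 v k' k)
  have key : ∀ X R, G.Pw a' b' X R →
      (∀ v ∈ X, v ∈ A1 ∪ A2 ∪ A3 ∪ A4 → v = a' ∨ v = b') →
      ∃ Y F', G.Cw Y F' ∧ s ∈ Y ∧ t ∈ Y ∧ X ⊆ Y ∧ Y ⊆ A1 ∪ A2 ∪ A3 ∪ A4 ∪ X ∧
        G.par F' = G.par R + G.par F2 := by
    intro X R pX hX
    obtain ⟨c1, d1⟩ := p1.cat pX (by
      intro v k k'
      rcases hX v k' (s0 (s1 k)) with e | e
      · exact e
      · exact (i13 v k (e ▸ p3.left)).1)
    obtain ⟨c2, d2⟩ := c1.cat p3 (by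
      intro v k k'
      rcases mem_union.1 k with k | k
      · exact (i13 v k k').2
      · rcases hX v k (s0 (s3 k')) with e | e
        · exact (i13 v (e ▸ p1.right) k').2
        · exact e)
    have hi : ∀ v ∈ A4 ∪ A3, v ∈ X1 ∪ X ∪ X3 → v = s ∨ v = t := by
      intro v hv k
      refine hst v hv ?_
      rcases mem_union.1 k with k | k
      · rcases mem_union.1 k with k | k
        · exact s1 k
        · have hv' : v ∈ A1 ∪ A2 ∪ A3 ∪ A4 := by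
            simp only [mem_union] at hv ⊢; tauto
          rcases hX v k hv' with e | e
          · exact e ▸ s1 p1.right
          · exact e ▸ s3 p3.left
      · exact s3 k
    have hd : Disjoint (E4 ∪ E3) (F1 ∪ R ∪ F3) :=
      q'.dj2 c2 hi (mem_union_left _ h.p4.right) h.sy.symm h.ty.symm
    obtain ⟨c3, d3⟩ := cw_of_two q' c2 h.st hi hd
    refine ⟨_, _, c3, mem_union_left _ q'.left, mem_union_left _ q'.right, ?_, ?_, ?_⟩
    · intro v; simp only [mem_union]; tauto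
    · intro v k
      have u1 := @s1 v
      have u3 := @s3 v
      simp only [mem_union] at k u1 u3 ⊢
      (clear * - hab' k u1 u3; grind)
    · rw [d3, d2, d1, hq']
      rw [hq] at hp
      have hev := h.ev
      revert hev hp
      generalize G.par E1 = p1
      generalize G.par E2 = p2
      generalize G.par E3 = p3
      generalize G.par E4 = p4
      generalize G.par F1 = p5
      generalize G.par F2 = p6
      generalize G.par F3 = p7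
      generalize G.par R = p8
      intro hp hev
      have h2 : (2 : ZMod 2) = 0 := rfl
      linear_combination hev - hp + (p5 + p7 - p1 - p2 + p1 + p2 - p5 - p7 - p6) * h2
  rcases hab' with ⟨rfl, rfl⟩ | ⟨rfl, rfl⟩
  · exact ⟨X2, F2, p2, s2, fun X R pX hX _ => key X R pX hX⟩
  · exact ⟨X2, F2, p2.symm, s2, fun X R pX hX _ =>
      key X R pX.symm fun v k k' => (hX v k k').symm⟩

/-- an ear with ends on the two sides of `s` -/
theorem Th.par14 (h : G.Th Nb Tm s t x y A1 A2 A3 A4 S E1 E2 E3 E4 F)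
    (h1 : a ∈ A1) (h2 : b ∈ A4) (as : a ≠ s) (bs : b ≠ s) :
    ∃ Y1 F1 Y2 F2 Y3 F3 Y4 F4, G.Pw s a Y1 F1 ∧ G.Pw a x Y2 F2 ∧ G.Pw s b Y3 F3 ∧ G.Pw b y Y4 F4 ∧
      A1 = Y1 ∪ Y2 ∧ A4 = Y3 ∪ Y4 ∧ (∀ v ∈ Y1, v ∈ Y2 → v = a) ∧ (∀ v ∈ Y3, v ∈ Y4 → v = b) ∧
      G.par E1 = G.par F1 + G.par F2 ∧ G.par E4 = G.par F3 + G.par F4 ∧
      ∀ X R, G.Pw a b X R → (∀ v ∈ X, v ∈ A1 ∪ A4 → v = a ∨ v = b) →
        G.Cw (Y1 ∪ Y3 ∪ X) (F1 ∪ F3 ∪ R) ∧
          G.par (F1 ∪ F3 ∪ R) = G.par F1 + G.par F3 + G.par R := by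
  obtain ⟨Y1, F1, Y2, F2, p1, p2, e1, -, i1, d1⟩ := h.p1.split h1
  obtain ⟨Y3, F3, Y4, F4, p3, p4, e4, -, i4, d4⟩ := h.p4.split h2
  refine ⟨Y1, F1, Y2, F2, Y3, F3, Y4, F4, p1, p2, p3, p4, e1, e4, i1, i4, d1, d4, ?_⟩
  intro X R pX hX
  have s1 : Y1 ⊆ A1 := e1 ▸ subset_union_left
  have s3 : Y3 ⊆ A4 := e4 ▸ subset_union_left
  have hab : a ≠ b := fun k => as (h.i14 a h1 (k ▸ h2))
  obtain ⟨q, hq⟩ := p1.symm.cat p3 fun v k k' => h.i14 v (s1 k) (s3 k')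
  have hi : ∀ v ∈ Y1 ∪ Y3, v ∈ X → v = a ∨ v = b := fun v k k' =>
    hX v k' (union_subset_union s1 s3 k)
  have hd : Disjoint (F1 ∪ F3) R :=
    q.dj2 pX hi (mem_union_left _ p1.left) as.symm bs.symm
  obtain ⟨c1, c2⟩ := cw_of_two q pX hab hi hd
  exact ⟨c1, by rw [c2, hq]⟩

/-- a crossing ear: the ring `s, a, ear, b, t, x, S, y` and the ring `s, a, ear, b, y` -/
theorem Th.crs13 (h : G.Th Nb Tm s t x y A1 A2 A3 A4 S E1 E2 E3 E4 F)
    (h1 : a ∈ A1) (h2 : b ∈ A3) (ax : a ≠ x) (by' : b ≠ y) :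
    ∃ Y1 F1 Y2 F2 Y3 F3 Y4 F4, G.Pw s a Y1 F1 ∧ G.Pw a x Y2 F2 ∧ G.Pw t b Y3 F3 ∧ G.Pw b y Y4 F4 ∧
      A1 = Y1 ∪ Y2 ∧ A3 = Y3 ∪ Y4 ∧ (∀ v ∈ Y1, v ∈ Y2 → v = a) ∧ (∀ v ∈ Y3, v ∈ Y4 → v = b) ∧
      G.par E1 = G.par F1 + G.par F2 ∧ G.par E3 = G.par F3 + G.par F4 ∧
      ∀ X R, G.Pw a b X R → (∀ v ∈ X, v ∈ A1 ∪ A2 ∪ A3 ∪ A4 ∪ S → v = a ∨ v = b) →
        (∃ F', G.Cw (Y1 ∪ X ∪ Y3 ∪ A2 ∪ S ∪ A4) F' ∧ R ⊆ F' ∧ F ⊆ F' ∧
          G.par F' = G.par F1 + G.par R + G.par F3 + G.par E2 + G.par F + G.par E4) ∧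
        ∃ F', G.Cw (Y1 ∪ X ∪ Y4 ∪ A4) F' ∧
          G.par F' = G.par F1 + G.par R + G.par F4 + G.par E4 := by
  obtain ⟨Y1, F1, Y2, F2, p1, p2, e1, -, i1, d1⟩ := h.p1.split h1
  obtain ⟨Y3, F3, Y4, F4, p3, p4, e3, -, i3, d3⟩ := h.p3.split h2
  refine ⟨Y1, F1, Y2, F2, Y3, F3, Y4, F4, p1, p2, p3, p4, e1, e3, i1, i3, d1, d3, ?_⟩
  intro X R pX hX
  have s1 : Y1 ⊆ A1 := e1 ▸ subset_union_left
  have s3 : Y3 ⊆ A3 := e3 ▸ subset_union_left
  have s4 : Y4 ⊆ A3 := e3 ▸ subset_union_right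
  have hab : a ≠ b := fun k => disjoint_left.1 h.i13 h1 (k ▸ h2)
  have nx : x ∉ Y1 := fun k => ax (i1 x k p2.right).symm
  have ny : y ∉ Y3 := fun k => by' (i3 y k p4.right).symm
  have xb : x ≠ b := fun k => disjoint_left.1 h.i13 h.p1.right (k ▸ h2)
  have ya : y ≠ a := fun k => disjoint_left.1 h.i13 h1 (k ▸ h.p3.right)
  obtain ⟨q1, r1⟩ := p1.symm.cat h.p4 fun v k k' => h.i14 v (s1 k) k'
  constructor
  · obtain ⟨q2, r2⟩ := q1.cat h.ps.symm (by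
      intro v k k'
      rcases mem_union.1 k with k | k
      · exact (nx (h.j1 v (s1 k) k' ▸ k)).elim
      · exact h.j4 v k k')
    obtain ⟨q3, r3⟩ := q2.cat h.p2.symm (by
      intro v k k'
      rcases mem_union.1 k with k | k
      · rcases mem_union.1 k with k | k
        · exact h.i12 v (s1 k) k'
        · exact (disjoint_left.1 h.i24 k' k).elim
      · exact h.j2 v k' k)
    obtain ⟨q4, r4⟩ := q3.cat p3 (by
      intro v k k'
      rcases mem_union.1 k with k | k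
      · rcases mem_union.1 k with k | k
        · rcases mem_union.1 k with k | k
          · exact (disjoint_left.1 h.i13 (s1 k) (s3 k')).elim
          · exact (ny (h.i34 v (s3 k') k ▸ k')).elim
        · exact (ny (h.j3 v (s3 k') k ▸ k')).elim
      · exact h.i23 v k (s3 k'))
    have hi : ∀ v ∈ Y1 ∪ A4 ∪ S ∪ A2 ∪ Y3, v ∈ X → v = a ∨ v = b := by
      intro v k k'
      refine hX v k' ?_
      have u1 := @s1 v
      have u3 := @s3 v
      simp only [mem_union] at k ⊢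
      (clear * - k u1 u3; grind)
    have hd : Disjoint (F1 ∪ E4 ∪ F ∪ E2 ∪ F3) R :=
      q4.dj2 pX hi (mem_union_left _ (mem_union_right _ h.p2.right)) ax.symm xb
    obtain ⟨c1, c2⟩ := cw_of_two q4 pX hab hi hd
    have e : Y1 ∪ X ∪ Y3 ∪ A2 ∪ S ∪ A4 = Y1 ∪ A4 ∪ S ∪ A2 ∪ Y3 ∪ X := by
      ext v; simp only [mem_union]; (clear * -; grind)
    refine ⟨_, e ▸ c1, subset_union_right, ?_, ?_⟩
    · intro v; simp only [mem_union]; (clear * -; tauto)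
    · rw [c2, r4, r3, r2, r1]; ring
  · obtain ⟨q2, r2⟩ := q1.cat p4.symm (by
      intro v k k'
      rcases mem_union.1 k with k | k
      · exact (disjoint_left.1 h.i13 (s1 k) (s4 k')).elim
      · exact h.i34 v (s4 k') k)
    have hi : ∀ v ∈ Y1 ∪ A4 ∪ Y4, v ∈ X → v = a ∨ v = b := by
      intro v k k'
      refine hX v k' ?_
      have u1 := @s1 v
      have u3 := @s4 v
      simp only [mem_union] at k ⊢
      (clear * - k u1 u3; grind)
    have hd : Disjoint (F1 ∪ E4 ∪ F4) R :=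
      q2.dj2 pX hi (mem_union_right _ p4.right) ya by'.symm
    obtain ⟨c1, c2⟩ := cw_of_two q2 pX hab hi hd
    have e : Y1 ∪ X ∪ Y4 ∪ A4 = Y1 ∪ A4 ∪ Y4 ∪ X := by
      ext v; simp only [mem_union]; (clear * -; tauto)
    refine ⟨_, e ▸ c1, ?_⟩
    rw [c2, r2, r1]; ring

theorem th_of_ea_dj (h : G.Ea t H D x y X1 X2 F1 F2) (hc : G.Cw H R) : Disjoint (F1 ∪ F2) R := by
  refine disjoint_left.2 fun e he hR => ?_
  have h1 := hc.ends hR (Or.inl rfl)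
  have h2 := hc.ends hR (Or.inr rfl)
  rcases mem_union.1 he with he | he
  · obtain ⟨a1, a2, a3⟩ := h.p1.je he (Or.inl ⟨rfl, rfl⟩)
    exact a3 ((h.o1 _ a1 h1).trans (h.o1 _ a2 h2).symm)
  · obtain ⟨a1, a2, a3⟩ := h.p2.je he (Or.inl ⟨rfl, rfl⟩)
    exact a3 ((h.o2 _ a1 h1).trans (h.o2 _ a2 h2).symm)

/-- an ear of the ring `H` through a second terminal with plain ends gives the configuration.
HINT: `Cw.ear` with `t := s`; the ring through `s` is not valid by `ha`; split its arc at `s`. -/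
theorem th_of_ea (hq : G.QG U Nb Tm) (ha : G.Ha Nb Tm) (hz : G.Tz Nb Tm s H R D) (ht : t ∈ Tm)
    (htH : t ∉ H) (h : G.Ea t H D x y X1 X2 F1 F2) (hxy : x ≠ y) :
    ∃ A1 A4 S E1 E4 F, G.Th Nb Tm s t x y A1 X1 X2 A4 S E1 F1 F2 E4 F ∧ H = A1 ∪ A4 ∪ S := by
  obtain ⟨hp, hpar, hi⟩ := h.pw hxy
  obtain ⟨Y1, R1, Y2, R2, q1, q2, eH, -, i1, -, pR, sY, c1, -, pc, -⟩ :=
    hz.cw.ear hp h.m1 h.m2 hxy hi (th_of_ea_dj h hz.cw) hz.sh
  have st : s ≠ t := fun e => htH (e ▸ hz.sh)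
  have y1 : ∀ v ∈ Y1, v ∈ H := fun v hv => eH ▸ mem_union_left _ hv
  have y2 : ∀ v ∈ Y2, v ∈ H := fun v hv => eH ▸ mem_union_right _ hv
  have nv : ¬ (G.par (F1 ∪ F2 ∪ R1) = 1 ∨ ¬ Disjoint (X1 ∪ X2 ∪ Y1) Nb) := fun hv =>
    ha _ ⟨_, c1, hv⟩ s hz.tm t ht st (mem_union_right _ sY)
      (mem_union_left _ (mem_union_left _ h.p1.left)) D hz.ob
      (disjoint_union_left.2 ⟨disjoint_union_left.2 ⟨h.l1, h.l2⟩,
        disjoint_of_subset_left y1 hz.dj⟩)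
  rw [not_or, not_not, disjoint_union_left, disjoint_union_left] at nv
  obtain ⟨e, he, f, hf, a, -, b, -, -, ja, jb, aH, bH⟩ := h.last htH
  have sx : s ≠ x := fun e' =>
    aH (hq.tm_cw hz.cw hz.tm hz.sh (h.p1.sub he) (e' ▸ ja)).2
  have sy : s ≠ y := fun e' =>
    bH (hq.tm_cw hz.cw hz.tm hz.sh (h.p2.sub hf) (e' ▸ jb)).2
  obtain ⟨A1, E1, A4, E4, r1, r4, eY, -, i2, pY⟩ := q1.split sY
  have a1 : ∀ v ∈ A1, v ∈ Y1 := fun v hv => eY ▸ mem_union_left _ hv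
  have a4 : ∀ v ∈ A4, v ∈ Y1 := fun v hv => eY ▸ mem_union_right _ hv
  have ya : y ∉ A1 := fun hy => sy (i2 y hy r4.right).symm
  have xa : x ∉ A4 := fun hx => sx (i2 x r1.left hx).symm
  refine ⟨A1, A4, Y2, E1, E4, R2, ⟨hz.tm, ht, st, sx, sy, fun e => htH (e ▸ h.m1),
    fun e => htH (e ▸ h.m2), hxy, r1.symm, h.p1, h.p2, r4, q2,
    fun v h1 h2 => h.o1 v h2 (y1 v (a1 v h1)),
    disjoint_left.2 fun v h1 h2 => ya (h.o2 v h2 (y1 v (a1 v h1)) ▸ h1), i2,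
    fun v h1 h2 => (h.i12 v h1 h2).resolve_right fun e => hxy (e.1.symm.trans e.2),
    disjoint_left.2 fun v h1 h2 => xa (h.o1 v h1 (y1 v (a4 v h2)) ▸ h2),
    fun v h1 h2 => h.o2 v h1 (y1 v (a4 v h2)),
    fun v h1 h2 => (i1 v (a1 v h1) h2).resolve_right fun e => ya (e ▸ h1),
    fun v h1 h2 => h.o1 v h1 (y2 v h2), fun v h1 h2 => h.o2 v h1 (y2 v h2),
    fun v h1 h2 => (i1 v (a4 v h1) h2).resolve_left fun e => xa (e ▸ h1), ?_, ?_, ?_⟩, ?_⟩
  · exact disjoint_union_left.2 ⟨disjoint_union_left.2 ⟨disjoint_union_left.2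
      ⟨disjoint_of_subset_left a1 nv.2.2, nv.2.1.1⟩, nv.2.1.2⟩, disjoint_of_subset_left a4 nv.2.2⟩
  · have h0 := (by decide : ∀ a : ZMod 2, a ≠ 1 → a = 0) _ nv.1
    rw [pc, hpar, pY] at h0
    rw [← h0]
    ring
  · rcases hz.va with h1 | h1
    · exact Or.inl (by rw [← pY, ← pR, h1])
    · exact Or.inr fun h2 => h1 (eH ▸ disjoint_union_left.2 ⟨nv.2.2, h2⟩)
  · rw [eH, eY]

theorem tz_ed_one (hq : G.QG U Nb Tm) (ha : G.Ha Nb Tm) (hz : G.Tz Nb Tm s H R D)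
    (hD : G.Ob Nb D') (hd : Disjoint H D') (hDD : Disjoint D D') (ht : t ∈ Tm) (hst : s ≠ t)
    (htD : t ∉ D') (h : G.Ea t H D x y X1 X2 F1 F2) (hxy : x ≠ y) (h2 : Disjoint X2 D') :
    Disjoint X1 D' := by
  by_contra h1
  obtain ⟨Y1, R1, Y2, R2, q1, -, eH, eR, -, -, -, sY⟩ := hz.cw.arcs h.m1 h.m2 hxy hz.sh
  obtain ⟨p, q, P1, -, P2, -, -, -, -, -, s1, s2, -, -, k⟩ :=
    hD.thru hq h.p1 htD (disjoint_left.1 hd h.m1) h1
  obtain ⟨X', F', k1, k2, -, k3, k4⟩ := k (1 - G.par F2 - G.par R1)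
  have k5 : ∀ v ∈ X', v ∈ X1 ∨ v ∈ D' := fun v hv => by
    rcases mem_union.1 (k2 hv) with h' | h'
    · exact (mem_union.1 h').imp_left fun h' => s1 h'
    · exact Or.inl (s2 h')
  have h' : G.Ea t H D x y X' X2 F' F2 :=
    ⟨k1, h.p2, h.m1, h.m2,
      fun v h3 h4 => h.o1 v ((k5 v h3).resolve_right (disjoint_left.1 hd h4)) h4, h.o2,
      fun v h3 h4 => h.i12 v ((k5 v h3).resolve_right (disjoint_left.1 h2 h4)) h4,
      disjoint_left.2 fun e h3 h4 => (k3 e h3).elim (fun h5 => disjoint_left.1 h.dF h5 h4)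
        fun h5 => disjoint_left.1 h2 (h.p2.ends h4 (Or.inl rfl)) h5.1,
      disjoint_left.2 fun v h3 h4 => (k5 v h3).elim (fun h5 => disjoint_left.1 h.l1 h5 h4)
        (disjoint_left.1 hDD h4), h.l2⟩
  obtain ⟨hp, hpar, hi⟩ := h'.pw hxy
  have y1 : Y1 ⊆ H := eH ▸ subset_union_left
  obtain ⟨c1, c2⟩ := cw_of_two hp q1 hxy (fun v h3 h4 => hi v h3 (y1 h4))
    (disjoint_of_subset_right (eR ▸ subset_union_left) (th_of_ea_dj h' hz.cw))
  refine ha _ ⟨_, c1, k4.imp (fun e => ?_) fun h3 h4 => h3 ?_⟩ s hz.tm t ht hst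
    (mem_union_right _ sY) (mem_union_left _ (mem_union_left _ k1.left)) D hz.ob
    (disjoint_union_left.2 ⟨disjoint_union_left.2 ⟨h'.l1, h.l2⟩, disjoint_of_subset_left y1 hz.dj⟩)
  · rw [c2, hpar, e]
    ring
  · exact (disjoint_union_left.1 (disjoint_union_left.1 h4).1).1

/-- an ear or a separation.  HINT: `cut_b` gives one cut; `QG.ed` with `M = H`, `L = D`: a cut gives
`QG.sx`, a ring is against `hb`.  An ear with equal ends has a box as end (`QG.two_out`), `th0`.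
Else `th_of_ea`; if a half meets `D'`: both halves `Ea.both` and `hb`; one half: take the
arc of `H` through `s` (`Cw.arcs`), then `Ob.thru` with the sign that makes the ring valid. -/
theorem tz_ed (hq : G.QG U Nb Tm) (ha : G.Ha Nb Tm) (hb : G.Hb Nb Tm) (hz : G.Tz Nb Tm s H R D)
    (hD : G.Ob Nb D') (hd : Disjoint H D') (hDD : D' = D ∨ Disjoint D D') (ht : t ∈ Tm)
    (hst : s ≠ t) : t ∉ H ∧ t ∉ D ∧
      ((∃ x y A1 A2 A3 A4 S E1 E2 E3 E4 F, G.Th Nb Tm s t x y A1 A2 A3 A4 S E1 E2 E3 E4 F ∧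
        Disjoint (A1 ∪ A2 ∪ A3 ∪ A4 ∪ S) (D ∪ D')) ∨ ∃ P Q f g, G.Sx U t H D P Q f g) := by
  have hv : G.Vr Nb H := ⟨R, hz.cw, hz.va⟩
  have htH : t ∉ H := fun h => ha H hv s hz.tm t ht hst hz.sh h D hz.ob hz.dj
  obtain ⟨htD, Y, y1, y2, y3, y4, g, y5⟩ := cut_b hq hb hv hz.tm hz.sh hz.ob hz.dj ht htH
  have htD' := (cut_b hq hb hv hz.tm hz.sh hD hd ht htH).1
  refine ⟨htH, htD, ?_⟩
  rcases hq.ed (hq.tm ht) htH htD with ⟨X, x1, x2, x3, x4, f, x5⟩ | ⟨X, F, x1, x2, x3, x4, -⟩ |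
    ⟨x, y, X1, X2, F1, F2, h⟩
  · obtain ⟨d, hd'⟩ := (hq.ob hz.ob).2
    exact Or.inr (hq.sx ht hz.dj ⟨s, mem_inter.2 ⟨hz.sh, hq.tm hz.tm⟩⟩
      ⟨d, mem_inter.2 ⟨hd', (hq.ob hz.ob).1 hd'⟩⟩ x1 y1 x2 y2 x3 x4 y4 y3 x5 y5)
  · exact (hb X H ⟨F, x1, Or.inr x3⟩ hv t ht s hz.tm x2 hz.sh x4).elim
  by_cases hxy : x = y
  · subst hxy
    obtain ⟨c1, c2⟩ := h.cw htH
    obtain ⟨e, he, f, hf, a, -, b, -, ef, ja, jb, aH, bH⟩ := h.last htH
    exact (th0 hq ha hb (hq.two_out hz.cw h.m1 (h.p1.sub he) (h.p2.sub hf) ef ja jb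
      (fun h' => aH (hz.cw.ends h' (ja.at_iff.2 (Or.inr rfl))))
      (fun h' => bH (hz.cw.ends h' (jb.at_iff.2 (Or.inr rfl))))) hz.cw c1 h.m1
      (mem_union_left _ h.p1.right) (fun v h1 h2 => c2 v h2 h1) hz.tm ht hz.sh
      (mem_union_left _ h.p1.left) hz.ob hz.dj (disjoint_union_left.2 ⟨h.l1, h.l2⟩)).elim
  have h12 : Disjoint X1 D' ∧ Disjoint X2 D' := by
    rcases hDD with rfl | hDD
    · exact ⟨h.l1, h.l2⟩
    by_cases h2 : Disjoint X2 D'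
    · exact ⟨tz_ed_one hq ha hz hD hd hDD ht hst htD' h hxy h2, h2⟩
    by_cases h1 : Disjoint X1 D'
    · exact ⟨h1, tz_ed_one hq ha hz hD hd hDD ht hst htD' h.symm (Ne.symm hxy) h1⟩
    obtain ⟨X, x1, x2, -, x3⟩ := h.both hq hD htD' hd.symm h1 h2
    exact (hb X H x1 hv t ht s hz.tm x2 hz.sh x3).elim
  obtain ⟨A1, A4, S, E1, E4, F, h1, e⟩ := th_of_ea hq ha hz ht htH h hxy
  refine Or.inl ⟨x, y, A1, X1, X2, A4, S, E1, F1, F2, E4, F, h1, ?_⟩
  have h2 := disjoint_union_right.2 ⟨hz.dj, hd⟩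
  rw [e, disjoint_union_left, disjoint_union_left] at h2
  exact disjoint_union_left.2 ⟨disjoint_union_left.2 ⟨disjoint_union_left.2 ⟨disjoint_union_left.2
    ⟨h2.1.1, disjoint_union_right.2 ⟨h.l1, h12.1⟩⟩, disjoint_union_right.2 ⟨h.l2, h12.2⟩⟩, h2.1.2⟩,
    h2.2⟩

theorem th_min (h : G.Th Nb Tm s t x y A1 A2 A3 A4 S E1 E2 E3 E4 F)
    (hd : Disjoint (A1 ∪ A2 ∪ A3 ∪ A4 ∪ S) L) :
    ∃ s t x y A1 A2 A3 A4 S E1 E2 E3 E4 F, G.Th Nb Tm s t x y A1 A2 A3 A4 S E1 E2 E3 E4 F ∧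
      Disjoint (A1 ∪ A2 ∪ A3 ∪ A4 ∪ S) L ∧ G.Tmin Nb Tm L F.card := by
  classical
  have ex : ∃ k, ∃ s t x y A1 A2 A3 A4 S E1 E2 E3 E4 F,
      G.Th Nb Tm s t x y A1 A2 A3 A4 S E1 E2 E3 E4 F ∧
        Disjoint (A1 ∪ A2 ∪ A3 ∪ A4 ∪ S) L ∧ F.card = k :=
    ⟨_, s, t, x, y, A1, A2, A3, A4, S, E1, E2, E3, E4, F, h, hd, rfl⟩
  obtain ⟨s, t, x, y, A1, A2, A3, A4, S, E1, E2, E3, E4, F, h1, h2, h3⟩ := Nat.find_spec ex
  refine ⟨s, t, x, y, A1, A2, A3, A4, S, E1, E2, E3, E4, F, h1, h2, ?_⟩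
  intro s t x y A1 A2 A3 A4 S E1 E2 E3 E4 F h4 h5
  rw [h3]
  exact Nat.find_min' ex ⟨s, t, x, y, A1, A2, A3, A4, S, E1, E2, E3, E4, F, h4, h5, rfl⟩

/-- a ring through two terminals that misses an object is even and off the boxes -/
theorem th_F1_ev (ha : G.Ha Nb Tm) (hs : s ∈ Tm) (ht : t ∈ Tm) (st : s ≠ t) (sy : s ≠ y)
    (ty : t ≠ y) (p1 : G.Pw s x A1 E1) (p2 : G.Pw t x A2 E2) (p3 : G.Pw t y A3 E3)
    (p4 : G.Pw s y A4 E4) (i12 : ∀ v ∈ A1, v ∈ A2 → v = x) (i13 : Disjoint A1 A3)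
    (i14 : ∀ v ∈ A1, v ∈ A4 → v = s) (i23 : ∀ v ∈ A2, v ∈ A3 → v = t) (i24 : Disjoint A2 A4)
    (i34 : ∀ v ∈ A3, v ∈ A4 → v = y) (hD : G.Ob Nb D) (hd : Disjoint (A1 ∪ A2 ∪ A3 ∪ A4) D) :
    Disjoint (A1 ∪ A2 ∪ A3 ∪ A4) Nb ∧ G.par E1 + G.par E2 + G.par E3 + G.par E4 = 0 := by
  obtain ⟨q1, r1⟩ := p1.cat p2.symm i12
  obtain ⟨q2, r2⟩ := q1.cat p3 (fun v hv h3 => by
    rcases mem_union.1 hv with hv | hv
    · exact absurd h3 (disjoint_left.1 i13 hv)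
    · exact i23 v hv h3)
  have hi : ∀ v ∈ A1 ∪ A2 ∪ A3, v ∈ A4 → v = s ∨ v = y := fun v hv h4 => by
    rcases mem_union.1 hv with hv | hv
    · rcases mem_union.1 hv with hv | hv
      · exact Or.inl (i14 v hv h4)
      · exact absurd h4 (disjoint_left.1 i24 hv)
    · exact Or.inr (i34 v hv h4)
  have ht3 : t ∈ A1 ∪ A2 ∪ A3 := mem_union_right _ p3.left
  obtain ⟨c, r⟩ := cw_of_two q2 p4 sy hi (q2.dj2 p4 hi ht3 st.symm ty)
  have hn : ¬ G.Vr Nb (A1 ∪ A2 ∪ A3 ∪ A4) := fun hv =>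
    ha _ hv s hs t ht st (mem_union_right _ p4.left) (mem_union_left _ ht3) D hD hd
  refine ⟨by_contra fun h => hn ⟨_, c, Or.inr h⟩, ?_⟩
  have h1 : G.par (E1 ∪ E2 ∪ E3 ∪ E4) ≠ 1 := fun h => hn ⟨_, c, Or.inl h⟩
  rw [r, r2, r1] at h1
  revert h1
  generalize G.par E1 + G.par E2 + G.par E3 + G.par E4 = k
  revert k
  decide

/-- a proper piece of a path has fewer edges -/
theorem th_F1_lt (p1 : G.Pw a b X1 F1) (hab : a ≠ b) (hd : Disjoint F1 F2) (h1 : F1 ⊆ F)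
    (h2 : F2 ⊆ F) : F2.card < F.card := by
  obtain ⟨e, -, -, F', -, -, -, -, -, he, -, -⟩ := p1.head hab
  have he1 : e ∈ F1 := he ▸ mem_insert_self _ _
  exact card_lt_card ⟨h2, fun h => disjoint_left.1 hd he1 (h (h1 he1))⟩

/-- HINT: split `S` at `z` and `A1` at `w`.  The ring `s, w, X, z, x, t, y` is not valid by `ha`
(if `X` meets `D'` use `Ob.thru` first), so it is the even ring of a configuration with `z` in place
of `x` and the piece of `S` from `z` to `y`; its ring through `t` and the third path is the old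
one. -/
theorem th_F1 (hq : G.QG U Nb Tm) (ha : G.Ha Nb Tm)
    (h : G.Th Nb Tm s t x y A1 A2 A3 A4 S E1 E2 E3 E4 F) (hD : G.Ob Nb D) (hD' : G.Ob Nb D')
    (hDD : D' = D ∨ Disjoint D D') (hd : Disjoint (A1 ∪ A2 ∪ A3 ∪ A4 ∪ S) (D ∪ D'))
    (hm : G.Tmin Nb Tm (D ∪ D') F.card) (hp : G.Pw z w X R) (hz : z ∈ S) (zx : z ≠ x) (zy : z ≠ y)
    (hw : w ∈ A1) (wx : w ≠ x) (ws : w ≠ s)
    (hi : ∀ v ∈ X, v ∈ A1 ∪ A2 ∪ A3 ∪ A4 ∪ S → v = z ∨ v = w) (hX : Disjoint X D) : False := by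
  obtain ⟨S1, G1, S2, G2, s1, s2, hS, hF, iS, pS⟩ := h.ps.split hz
  obtain ⟨B1, H1, B2, H2, b1, b2, hA, -, iB, -⟩ := h.p1.split hw
  have mS : ∀ v, v ∈ S ↔ v ∈ S1 ∨ v ∈ S2 := fun v => by rw [hS, mem_union]
  have mA : ∀ v, v ∈ A1 ↔ v ∈ B1 ∨ v ∈ B2 := fun v => by rw [hA, mem_union]
  have xB : x ∉ B1 := fun hx => wx (iB x hx b2.right).symm
  have yS : y ∉ S1 := fun hy => zy (iS y hy s2.right).symm
  have xS : x ∉ S2 := fun hx => zx (iS x s1.left hx).symm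
  have wS : w ∉ S := fun hv => wx (h.j1 w hw hv)
  have z2 : z ∉ A2 := fun hv => zx (h.j2 z hv hz)
  have z3 : z ∉ A3 := fun hv => zy (h.j3 z hv hz)
  have z4 : z ∉ A4 := fun hv => zy (h.j4 z hv hz)
  have w2 : w ∉ A2 := fun hv => wx (h.i12 w hw hv)
  have w3 : w ∉ A3 := disjoint_left.1 h.i13 hw
  have w4 : w ∉ A4 := fun hv => ws (h.i14 w hw hv)
  have z1 : z ∉ A1 := fun hv => zx (h.j1 z hv hz)
  obtain ⟨q2, r2⟩ := h.p2.cat s1 (fun v hv h1 => h.j2 v hv ((mS v).2 (Or.inl h1)))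
  have hd' := disjoint_left.1 hd
  have i23 : ∀ v ∈ A2 ∪ S1, v ∈ A3 → v = t := fun v hv h3 => by
    rcases mem_union.1 hv with hv | hv
    · exact h.i23 v hv h3
    · exact absurd (h.j3 v h3 ((mS v).2 (Or.inl hv)) ▸ hv) yS
  have i24 : Disjoint (A2 ∪ S1) A4 := disjoint_left.2 fun v hv h4 => by
    rcases mem_union.1 hv with hv | hv
    · exact disjoint_left.1 h.i24 hv h4
    · exact yS (h.j4 v h4 ((mS v).2 (Or.inl hv)) ▸ hv)
  have key : ∀ X R, G.Pw z w X R → (∀ v ∈ X, v ∈ A1 ∪ A2 ∪ A3 ∪ A4 ∪ S → v = z ∨ v = w) →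
      Disjoint X D → G.Pw s z (B1 ∪ X) (H1 ∪ R) ∧ G.par (H1 ∪ R) = G.par H1 + G.par R ∧
      (∀ v ∈ B1 ∪ X, v ∈ A2 ∪ S1 → v = z) ∧ Disjoint (B1 ∪ X) A3 ∧
      (∀ v ∈ B1 ∪ X, v ∈ A4 → v = s) ∧ Disjoint (B1 ∪ X ∪ (A2 ∪ S1) ∪ A3 ∪ A4) Nb ∧
      G.par (H1 ∪ R) + G.par (E2 ∪ G1) + G.par E3 + G.par E4 = 0 := by
    intro X R hp hi hX
    simp only [mem_union] at hi
    obtain ⟨q1, r1⟩ := b1.cat hp.symm (fun v hv h1 => by
      have h2 := (mA v).2 (Or.inl hv)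
      rcases hi v h1 (by simp only [h2, true_or]) with e | e
      · exact absurd (e ▸ h2) z1
      · exact e)
    have i12 : ∀ v ∈ B1 ∪ X, v ∈ A2 ∪ S1 → v = z := fun v hv h2 => by
      rcases mem_union.1 hv with hv | hv <;> rcases mem_union.1 h2 with h2 | h2
      · exact absurd (h.i12 v ((mA v).2 (Or.inl hv)) h2 ▸ hv) xB
      · exact absurd (h.j1 v ((mA v).2 (Or.inl hv)) ((mS v).2 (Or.inl h2)) ▸ hv) xB
      · rcases hi v hv (by simp only [h2, true_or, or_true]) with e | e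
        · exact e
        · exact absurd (e ▸ h2) w2
      · have h3 := (mS v).2 (Or.inl h2)
        rcases hi v hv (Or.inr h3) with e | e
        · exact e
        · exact absurd (e ▸ h3) wS
    have i13 : Disjoint (B1 ∪ X) A3 := disjoint_left.2 fun v hv h3 => by
      rcases mem_union.1 hv with hv | hv
      · exact disjoint_left.1 h.i13 ((mA v).2 (Or.inl hv)) h3
      · rcases hi v hv (by simp only [h3, true_or, or_true]) with e | e
        · exact z3 (e ▸ h3)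
        · exact w3 (e ▸ h3)
    have i14 : ∀ v ∈ B1 ∪ X, v ∈ A4 → v = s := fun v hv h4 => by
      rcases mem_union.1 hv with hv | hv
      · exact h.i14 v ((mA v).2 (Or.inl hv)) h4
      · rcases hi v hv (by simp only [h4, true_or, or_true]) with e | e
        · exact absurd (e ▸ h4) z4
        · exact absurd (e ▸ h4) w4
    refine ⟨q1, r1, i12, i13, i14, th_F1_ev ha h.hs h.ht h.st h.sy h.ty q1 q2 h.p3 h.p4 i12 i13
      i14 i23 i24 h.i34 hD (disjoint_left.2 fun v hv hv' => ?_)⟩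
    have h1 := @hd' v
    have h2 := fun k => disjoint_left.1 hX (show v ∈ _ from k)
    have h3 := mA v
    have h4 := mS v
    simp only [mem_union] at hv h1
    clear * - hv hv' h1 h2 h3 h4
    grind
  by_cases hX' : Disjoint X D'
  · obtain ⟨q1, r1, i12, i13, i14, nb, ev⟩ := key X R hp hi hX
    simp only [mem_union] at hi
    have hlt : G2.card < F.card := th_F1_lt s1 zx.symm (s1.dj1 s2 iS)
      (hF ▸ subset_union_left) (hF ▸ subset_union_right)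
    refine absurd (hm s t z y (B1 ∪ X) (A2 ∪ S1) A3 A4 S2 (H1 ∪ R) (E2 ∪ G1) E3 E4 G2
      ⟨h.hs, h.ht, h.st, fun e => z4 (e ▸ h.p4.left), h.sy, fun e => z3 (e ▸ h.p3.left), h.ty, zy,
        q1, q2, h.p3, h.p4, s2, i12, i13, i14, i23, i24, h.i34, fun v hv h2 => ?_,
        fun v hv h2 => ?_, fun v hv h2 => h.j3 v hv ((mS v).2 (Or.inr h2)),
        fun v hv h2 => h.j4 v hv ((mS v).2 (Or.inr h2)), nb, ev, ?_⟩
      (disjoint_left.2 fun v hv hv' => ?_)) (not_le.2 hlt)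
    · have h3 := (mS v).2 (Or.inr h2)
      rcases mem_union.1 hv with hv | hv
      · exact absurd (h.j1 v ((mA v).2 (Or.inl hv)) h3 ▸ hv) xB
      · rcases hi v hv (Or.inr h3) with e | e
        · exact e
        · exact absurd (e ▸ h3) wS
    · rcases mem_union.1 hv with hv | hv
      · exact absurd (h.j2 v hv ((mS v).2 (Or.inr h2)) ▸ h2) xS
      · exact iS v hv h2
    · rcases h.va with va | va
      · left
        have ev0 := h.ev
        rw [r2] at ev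
        rw [pS] at va
        revert ev ev0 va
        generalize G.par (H1 ∪ R) = k1
        generalize G.par E1 = k2
        generalize G.par E2 = k3
        generalize G.par E3 = k4
        generalize G.par E4 = k5
        generalize G.par G1 = k6
        generalize G.par G2 = k7
        revert k1 k2 k3 k4 k5 k6 k7
        decide
      · right
        intro h2
        refine va (disjoint_left.2 fun v hv hv' => ?_)
        rcases (mS v).1 hv with h3 | h3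
        · exact disjoint_left.1 nb (by simp only [mem_union, h3, true_or, or_true]) hv'
        · exact disjoint_left.1 h2 h3 hv'
    · have h1 := @hd' v
      have h2 := fun k => disjoint_left.1 hX (show v ∈ _ from k)
      have h2' := fun k => disjoint_left.1 hX' (show v ∈ _ from k)
      have h3 := mA v
      have h4 := mS v
      simp only [mem_union] at hv h1 hv'
      clear * - hv hv' h1 h2 h2' h3 h4
      grind
  · have hDD' : Disjoint D D' := hDD.resolve_left fun e => hX' (e ▸ hX)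
    obtain ⟨p, q, X1, F1, X2, F2, -, -, -, -, x1, x2, -, -, hε⟩ := hD'.thru hq hp
      (fun hv => hd' (mem_union_right _ hz) (mem_union_right _ hv))
      (fun hv => hd' (by simp only [mem_union, hw, true_or]) (mem_union_right _ hv)) hX'
    obtain ⟨X', R', hp', hs', -, -, hv'⟩ :=
      hε (1 + (G.par H1 + G.par (E2 ∪ G1) + G.par E3 + G.par E4))
    have hsub : ∀ v ∈ X', v ∈ X ∨ v ∈ D' := fun v hv => by
      have h1 := hs' hv
      have h2 := @x1 v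
      have h3 := @x2 v
      simp only [mem_union] at h1
      clear * - h1 h2 h3
      grind
    obtain ⟨-, r1, -, -, -, nb, ev⟩ := key X' R' hp'
      (fun v hv h1 => (hsub v hv).elim (fun h2 => hi v h2 h1)
        fun h2 => absurd (mem_union_right _ h2) (hd' h1))
      (disjoint_left.2 fun v hv h1 => (hsub v hv).elim (fun h2 => disjoint_left.1 hX h2 h1)
        fun h2 => disjoint_left.1 hDD' h1 h2)
    rcases hv' with hv' | hv'
    · rw [r1, hv'] at ev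
      revert ev
      generalize G.par H1 = k1
      generalize G.par (E2 ∪ G1) = k3
      generalize G.par E3 = k4
      generalize G.par E4 = k5
      revert k1 k3 k4 k5
      decide
    · exact hv' (disjoint_left.2 fun v hv h1 =>
        disjoint_left.1 nb (by simp only [mem_union, hv, true_or, or_true]) h1)

/-- what is reached from the inside of the third path has two more exits.  HINT: an edge from the
set to the even ring ends in `x` or `y` (`Th.atx`), not in `s, t` (`QG.tm_cw`), and else gives a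
path as in `th_F1` (last vertex on `S`) for one of the four symmetric forms. -/
theorem th_sig (hq : G.QG U Nb Tm) (ha : G.Ha Nb Tm)
    (h : G.Th Nb Tm s t x y A1 A2 A3 A4 S E1 E2 E3 E4 F) (hD : G.Ob Nb D) (hD' : G.Ob Nb D')
    (hDD : D' = D ∨ Disjoint D D') (hd : Disjoint (A1 ∪ A2 ∪ A3 ∪ A4 ∪ S) (D ∪ D'))
    (hm : G.Tmin Nb Tm (D ∪ D') F.card) :
    ∃ α ∈ F, ∃ β ∈ F, G.At α x ∧ G.At β y ∧
      G.Clo (G.rc (A1 ∪ A2 ∪ A3 ∪ A4 ∪ D) S) D {α, β} := by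
  obtain ⟨α, hα, aα, cα⟩ := h.atx hq
  obtain ⟨β, hβ, aβ, cβ⟩ := h.fl.atx hq
  refine ⟨α, hα, β, hβ, aα, aβ, fun e he p q hj hp hq' => ?_⟩
  have hj' : G.Je e q p := Or.symm hj
  have qM : q ∈ A1 ∪ A2 ∪ A3 ∪ A4 ∪ D :=
    (rc_clo e he p q hj hp hq').resolve_right (notMem_empty _)
  have pM : p ∉ A1 ∪ A2 ∪ A3 ∪ A4 ∪ D := disjoint_left.1 rc_dj hp
  rcases mem_union.1 qM with qR | qD
  swap
  · exact Or.inl qD
  right
  have pR : p ∉ A1 ∪ A2 ∪ A3 ∪ A4 := fun h1 => pM (mem_union_left _ h1)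
  have pR' := pR
  simp only [mem_union, not_or] at pR'
  by_cases qx : q = x
  · rw [cα e he p (qx ▸ hj') pR'.1.1.1 pR'.1.1.2]
    exact mem_insert_self _ _
  by_cases qy : q = y
  · rw [cβ e he p (qy ▸ hj') pR'.2 pR'.1.2]
    exact mem_insert_of_mem (mem_singleton_self _)
  exfalso
  have qs : q ≠ s := fun e1 => pR (hq.tm_cw h.rr h.hs (e1 ▸ qR) he (e1 ▸ hj')).2
  have qt : q ≠ t := fun e1 => pR (hq.tm_cw h.rr h.ht (e1 ▸ qR) he (e1 ▸ hj')).2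
  obtain ⟨z0, z0S, z0M, hr⟩ := mem_rc.1 hp
  obtain ⟨X, R, hX, dX, -⟩ := hr.symm.pw pM
  obtain ⟨hc, -⟩ := hX.cons he hj' fun h1 => disjoint_left.1 dX h1 qM
  obtain ⟨z, X1, F1, X2, F2, zS, p1, -, hX1, -, -, -, o1⟩ := hc.first (M := S)
    fun h1 => disjoint_left.1 h1 hc.right z0S
  have sub : ∀ v ∈ X1, v = q ∨ v ∈ X := fun v hv =>
    mem_insert.1 (hX1 ▸ mem_union_left _ hv)
  have qR' := qR
  simp only [mem_union] at qR'
  have qS : q ∉ S := fun h1 => by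
    rcases qR' with ((h2 | h2) | h2) | h2
    · exact qx (h.j1 q h2 h1)
    · exact qx (h.j2 q h2 h1)
    · exact qy (h.j3 q h2 h1)
    · exact qy (h.j4 q h2 h1)
  have zM : z ∉ A1 ∪ A2 ∪ A3 ∪ A4 ∪ D := by
    rcases sub z p1.right with e1 | h1
    · exact absurd (e1 ▸ zS) qS
    · exact disjoint_left.1 dX h1
  have zx : z ≠ x := fun e1 => zM (by
    have := h.p1.right
    simp only [e1, mem_union, this, true_or, or_true])
  have zy : z ≠ y := fun e1 => zM (by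
    have := h.p4.right
    simp only [e1, mem_union, this, true_or, or_true])
  have hi : ∀ v ∈ X1, v ∈ A1 ∪ A2 ∪ A3 ∪ A4 ∪ S → v = z ∨ v = q := fun v hv h1 => by
    rcases mem_union.1 h1 with h1 | h1
    · exact Or.inr ((sub v hv).resolve_right fun h2 =>
        disjoint_left.1 dX h2 (mem_union_left _ h1))
    · exact Or.inl (o1 v hv h1)
  have hXD : Disjoint X1 D := disjoint_left.2 fun v hv h1 => by
    rcases sub v hv with e1 | h2
    · exact disjoint_left.1 hd (mem_union_left _ qR) (mem_union_left _ (e1 ▸ h1))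
    · exact disjoint_left.1 dX h2 (mem_union_right _ h1)
  have u1 : A2 ∪ A1 ∪ A4 ∪ A3 ∪ S = A1 ∪ A2 ∪ A3 ∪ A4 ∪ S := by
    ac_rfl
  have u2 : A4 ∪ A3 ∪ A2 ∪ A1 ∪ S = A1 ∪ A2 ∪ A3 ∪ A4 ∪ S := by
    ac_rfl
  have u3 : A3 ∪ A4 ∪ A1 ∪ A2 ∪ S = A1 ∪ A2 ∪ A3 ∪ A4 ∪ S := by
    ac_rfl
  rcases qR' with ((h2 | h2) | h2) | h2
  · exact th_F1 hq ha h hD hD' hDD hd hm p1.symm zS zx zy h2 qx qs hi hXD
  · exact th_F1 hq ha h.sw hD hD' hDD (u1 ▸ hd) hm p1.symm zS zx zy h2 qx qt (u1 ▸ hi) hXD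
  · exact th_F1 hq ha h.sw.fl hD hD' hDD (u3 ▸ hd) hm p1.symm zS zy zx h2 qy qt (u3 ▸ hi) hXD
  · exact th_F1 hq ha h.fl hD hD' hDD (u2 ▸ hd) hm p1.symm zS zy zx h2 qy qs (u2 ▸ hi) hXD

/-- the ends in the order of the third path -/
theorem th_ss_ord {S1 S2 S3 : Finset V} {G1 G2 G3 : Finset E} (ha : G.Ha Nb Tm)
    (h : G.Th Nb Tm s t x y A1 A2 A3 A4 S E1 E2 E3 E4 F) (h3 : T3n Tm s t u) (hD : G.Ob Nb D)
    (hDL : D ⊆ L) (hd : Disjoint (A1 ∪ A2 ∪ A3 ∪ A4 ∪ S) L) (hm : G.Tmin Nb Tm L F.card)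
    (he : G.Ea u S (A1 ∪ A2 ∪ A3 ∪ A4 ∪ L) a b X1 X2 F1 F2) (hab : a ≠ b)
    (s1 : G.Pw x a S1 G1) (s2 : G.Pw a b S2 G2) (s3 : G.Pw b y S3 G3) (hS : S = S1 ∪ S2 ∪ S3)
    (hF : F = G1 ∪ G2 ∪ G3) (k12 : ∀ v ∈ S1, v ∈ S2 → v = a) (k23 : ∀ v ∈ S2, v ∈ S3 → v = b)
    (k13 : ∀ v ∈ S1, v ∈ S3 → v = a ∧ v = b) (pS : G.par F = G.par G1 + G.par G2 + G.par G3) :
    False := by
  have m1 : ∀ v ∈ S1, v ∈ S := fun v hv => hS ▸ mem_union_left _ (mem_union_left _ hv)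
  have m2 : ∀ v ∈ S2, v ∈ S := fun v hv => hS ▸ mem_union_left _ (mem_union_right _ hv)
  have m3 : ∀ v ∈ S3, v ∈ S := fun v hv => hS ▸ mem_union_right _ hv
  have d13 : ∀ v ∈ S1, v ∉ S3 := fun v h1 h2 => hab ((k13 v h1 h2).1.symm.trans (k13 v h1 h2).2)
  have l1 : ∀ v ∈ X1, v ∉ A1 ∧ v ∉ A4 ∧ v ∉ L := fun v hv => by
    have := disjoint_left.1 he.l1 hv
    simp only [mem_union] at this
    clear * - this
    grind
  have l2 : ∀ v ∈ X2, v ∉ A1 ∧ v ∉ A4 ∧ v ∉ L := fun v hv => by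
    have := disjoint_left.1 he.l2 hv
    simp only [mem_union] at this
    clear * - this
    grind
  have uS : u ∉ S := fun h1 =>
    (h.third ha h3 hD (hd.mono_right hDL)).1 (mem_union_right _ h1)
  obtain ⟨q1, r1⟩ := h.p1.cat s1 fun v hv h1 => h.j1 v hv (m1 v h1)
  obtain ⟨q4, r4⟩ := h.p4.cat s3.symm fun v hv h1 => h.j4 v hv (m3 v h1)
  have i12 : ∀ v ∈ A1 ∪ S1, v ∈ X1 → v = a := fun v hv h1 => by
    rcases mem_union.1 hv with hv | hv
    · exact absurd hv (l1 v h1).1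
    · exact he.o1 v h1 (m1 v hv)
  have i13 : Disjoint (A1 ∪ S1) X2 := disjoint_left.2 fun v hv h1 => by
    rcases mem_union.1 hv with hv | hv
    · exact (l2 v h1).1 hv
    · exact d13 b (he.o2 v h1 (m1 v hv) ▸ hv) s3.left
  have i14 : ∀ v ∈ A1 ∪ S1, v ∈ A4 ∪ S3 → v = s := fun v hv h1 => by
    rcases mem_union.1 hv with hv | hv <;> rcases mem_union.1 h1 with h1 | h1
    · exact h.i14 v hv h1
    · exact absurd (h.j1 v hv (m3 v h1) ▸ h1) (d13 x s1.left)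
    · exact absurd s3.right (d13 y (h.j4 v h1 (m1 v hv) ▸ hv))
    · exact absurd h1 (d13 v hv)
  have i23 : ∀ v ∈ X1, v ∈ X2 → v = u := fun v hv h1 =>
    (he.i12 v hv h1).resolve_right fun h2 => hab (h2.1.symm.trans h2.2)
  have i24 : Disjoint X1 (A4 ∪ S3) := disjoint_left.2 fun v hv h1 => by
    rcases mem_union.1 h1 with h1 | h1
    · exact (l1 v hv).2.1 h1
    · exact d13 a s1.right (he.o1 v hv (m3 v h1) ▸ h1)
  have i34 : ∀ v ∈ X2, v ∈ A4 ∪ S3 → v = b := fun v hv h1 => by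
    rcases mem_union.1 h1 with h1 | h1
    · exact absurd h1 (l2 v hv).2.1
    · exact he.o2 v hv (m3 v h1)
  have dL : Disjoint (A1 ∪ S1 ∪ X1 ∪ X2 ∪ (A4 ∪ S3) ∪ S2) L := disjoint_left.2 fun v hv h1 => by
    have h2 := fun k => disjoint_left.1 hd (show v ∈ _ from k)
    have n1 := m1 v
    have n2 := m2 v
    have n3 := m3 v
    have n4 := l1 v
    have n5 := l2 v
    simp only [mem_union] at hv h2
    clear * - hv h1 h2 n1 n2 n3 n4 n5
    grind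
  have sb : s ≠ b := fun e1 => (l2 b he.p2.right).1 (e1 ▸ h.p1.left)
  have ub : u ≠ b := fun e1 => uS (e1 ▸ he.m2)
  obtain ⟨nb, ev⟩ := th_F1_ev ha h.hs h3.mem.2.2.1 h3.2.2.1 sb ub q1 he.p1 he.p2 q4 i12 i13 i14
    i23 i24 i34 hD ((dL.mono_left subset_union_left).mono_right hDL)
  have hlt : G2.card < F.card := th_F1_lt s1
    (fun e1 => (l1 a he.p1.right).1 (e1 ▸ h.p1.right)) (s1.dj1 s2 k12)
    (hF ▸ subset_union_left.trans subset_union_left)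
    (hF ▸ subset_union_right.trans subset_union_left)
  refine absurd (hm s u a b (A1 ∪ S1) X1 X2 (A4 ∪ S3) S2 (E1 ∪ G1) F1 F2 (E4 ∪ G3) G2
    ⟨h.hs, h3.mem.2.2.1, h3.2.2.1, fun e1 => (l1 a he.p1.right).1 (e1 ▸ h.p1.left), sb,
      fun e1 => uS (e1 ▸ he.m1), ub, hab, q1, he.p1, he.p2, q4, s2, i12, i13, i14, i23, i24, i34,
      fun v hv h2 => ?_, fun v hv h2 => he.o1 v hv (m2 v h2), fun v hv h2 => he.o2 v hv (m2 v h2),
      fun v hv h2 => ?_, nb, ev, ?_⟩ dL) (not_le.2 hlt)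
  · rcases mem_union.1 hv with hv | hv
    · have e1 := h.j1 v hv (m2 v h2)
      exact k12 v (e1 ▸ s1.left) h2
    · exact k12 v hv h2
  · rcases mem_union.1 hv with hv | hv
    · have e1 := h.j4 v hv (m2 v h2)
      exact k23 v h2 (e1 ▸ s3.right)
    · exact k23 v h2 hv
  · rcases h.va with va | va
    · left
      rw [r1, r4, ← va, pS]
      ring
    · right
      intro h2
      refine va (disjoint_left.2 fun v hv hv' => ?_)
      rw [hS] at hv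
      have h4 := fun k => disjoint_left.1 nb (show v ∈ _ from k)
      have h5 := fun k => disjoint_left.1 h2 (show v ∈ _ from k)
      simp only [mem_union] at hv h4
      clear * - hv hv' h4 h5
      grind

/-- an ear through the third terminal with two different ends on the third path.
HINT: order the ends by `Pw.split2`.  The ring `s, x, a, u, b, y` is not valid by `ha`; with the
middle piece of `S` it is a configuration for `s, u` with a shorter third path. -/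
theorem th_ss (hq : G.QG U Nb Tm) (ha : G.Ha Nb Tm)
    (h : G.Th Nb Tm s t x y A1 A2 A3 A4 S E1 E2 E3 E4 F) (h3 : T3n Tm s t u) (hD : G.Ob Nb D)
    (hDL : D ⊆ L) (hd : Disjoint (A1 ∪ A2 ∪ A3 ∪ A4 ∪ S) L) (hm : G.Tmin Nb Tm L F.card)
    (he : G.Ea u S (A1 ∪ A2 ∪ A3 ∪ A4 ∪ L) a b X1 X2 F1 F2) (hab : a ≠ b) : False := by
  obtain ⟨a', b', S1, G1, S2, G2, S3, G3, ho, s1, s2, s3, hS, hF, k12, k23, k13, pS⟩ :=
    h.ps.split2 he.m1 he.m2
  rcases ho with ⟨rfl, rfl⟩ | ⟨rfl, rfl⟩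
  · exact th_ss_ord ha h h3 hD hDL hd hm he hab s1 s2 s3 hS hF k12 k23 k13 pS
  · exact th_ss_ord ha h h3 hD hDL hd hm he.symm hab.symm s1 s2 s3 hS hF k12 k23 k13 pS

end SG

end Pool.Agent.Work.MP_8c679b_co
end

-- merged part: Pool.Agent.Work.MP_8c679b_co.A3.G3
section
/-!
A valid ring through a terminal does not miss two disjoint objects.
-/

set_option autoImplicit false
set_option linter.unusedSectionVars false

namespace Pool.Agent.Work.MP_8c679b_co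

open Finset

namespace SG

variable {V E : Type} [Fintype V] [DecidableEq V] [DecidableEq E] [Nonempty E] {G : SG V E}
  {U Nb Tm X Y Z M L D D' H P Q W X1 X2 A1 A2 A3 A4 S : Finset V}
  {F F' F1 F2 E1 E2 E3 E4 R : Finset E} {a b c v w x y z s t u B B1 B2 : V} {e f g : E}

theorem s2_diff_je (h : G.Je e a b) (h' : G.Je e a c) : b = c := by
  rcases h with ⟨h1, h2⟩ | ⟨h1, h2⟩ <;> rcases h' with ⟨h3, h4⟩ | ⟨h3, h4⟩ <;> simp_all

theorem s2_diff_end (h : G.Je e a b) (h' : G.Je e x y) : a = x ∨ a = y := by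
  rcases h with ⟨h1, h2⟩ | ⟨h1, h2⟩ <;> rcases h' with ⟨h3, h4⟩ | ⟨h3, h4⟩ <;> simp_all

theorem s2_diff_c1 (hq : G.QG U Nb Tm) (hX : X ⊆ U) (hw : w ∈ X) (ht : t ∈ U) (ht' : t ∉ X)
    (h : ∀ e ∈ G.A, ∀ x y, G.Je e x y → x ∈ X → y ∉ X → e = f) : False := by
  rcases hq.c1 hX (e := f) (fun e he x y hj hx hy => Or.inr (mem_singleton.2 (h e he x y hj hx hy)))
    with k | k
  · rw [k] at hw; exact notMem_empty _ hw
  · exact ht' (k ▸ ht)

theorem s2_diff_or (hD : G.Ob Nb D) (hc : G.Clo Z L {f}) (hL : Disjoint D L) :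
    D ⊆ Z ∨ Disjoint D Z := by
  by_cases k : Disjoint D Z
  · exact Or.inr k
  · obtain ⟨v, h1, h2⟩ := not_disjoint_iff.1 k
    exact Or.inl (hD.inside hc hL h1 h2)

theorem s2_diff_P (h : G.Sx U t M D P Q f g) (hx : x ∈ P) : x ≠ t ∧ x ∉ M ∧ x ∉ D := by
  simpa [not_or] using disjoint_left.1 h.dP hx

theorem s2_diff_Q (h : G.Sx U t M D P Q f g) (hx : x ∈ Q) : x ≠ t ∧ x ∉ M ∧ x ∉ D := by
  simpa [not_or] using disjoint_left.1 h.dQ hx

theorem s2_diff_cl (h : G.Clo Z L {f}) (he : e ∈ G.A) (hj : G.Je e x y) (hx : x ∈ Z) (hy : y ∉ Z) :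
    y ∈ L ∨ e = f := (h e he x y hj hx hy).imp id mem_singleton.1

/-- the two sides differ: `D'` lies in the part towards `M` -/
theorem s2_diff {P' Q' : Finset V} (hq : G.QG U Nb Tm) (hD : G.Ob Nb D') (hM : Disjoint D' M)
    (ht : t ∉ D') (htU : t ∈ U) (h : G.Sx U t M D P Q f g) (h' : G.Sx U t M D' P' Q' g f) :
    D' ⊆ Q := by
  refine (s2_diff_or hD h.cQ hM).resolve_right fun k => ?_
  obtain ⟨w, j, hw⟩ := h.eQ
  obtain ⟨w', j', hw'⟩ := h'.eP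
  obtain rfl := s2_diff_je j j'
  have m := @disjoint_left _ _ _ |>.1 hM
  have wQ : w ∈ Q := hw.resolve_right fun n => hw'.elim (fun p => (s2_diff_P h' p).2.1 n)
    fun p => m p n
  have wP : w ∈ P' := hw'.resolve_right fun n => disjoint_left.1 k n wQ
  refine s2_diff_c1 hq (X := P' ∩ Q) (f := g) (inter_subset_right.trans h.qu)
    (mem_inter.2 ⟨wP, wQ⟩) htU (fun n => (s2_diff_Q h (mem_inter.1 n).2).1 rfl)
    fun e he x y hj hx hy => ?_
  rw [mem_inter] at hx hy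
  by_contra ne
  have a1 : y ∉ P' → y ∈ D' := fun n => (s2_diff_cl h'.cP he hj hx.1 n).resolve_right ne
  have a2 : y ∉ Q → y ∈ M := fun n => (s2_diff_cl h.cQ he hj hx.2 n).resolve_right ne
  by_cases p : y ∈ P'
  · exact (s2_diff_P h' p).2.1 (a2 fun n => hy ⟨p, n⟩)
  · exact m (a1 p) (a2 (disjoint_left.1 k (a1 p)))

/-- the two sides agree: exactly one object lies behind the other -/
theorem s2_same {P' Q' : Finset V} (hq : G.QG U Nb Tm) (hD : G.Ob Nb D) (hD' : G.Ob Nb D')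
    (hd : Disjoint D D') (ht : t ∉ D) (ht' : t ∉ D') (htU : t ∈ U) (h : G.Sx U t M D P Q f g)
    (h' : G.Sx U t M D' P' Q' f g) : (D' ⊆ P ∧ Disjoint D P') ∨ (D ⊆ P' ∧ Disjoint D' P) := by
  have m := @disjoint_left _ _ _ |>.1 hd
  rcases s2_diff_or hD' h.cP hd.symm with k | k <;> rcases s2_diff_or hD h'.cP hd with k' | k'
  · exfalso
    obtain ⟨w, hw⟩ := (hq.ob hD).2
    refine s2_diff_c1 hq (X := P ∪ P') (f := f) (union_subset h.pu h'.pu)
      (mem_union_right _ (k' hw)) htU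
      (fun n => (mem_union.1 n).elim (fun p => (s2_diff_P h p).1 rfl) fun p => (s2_diff_P h' p).1 rfl)
      fun e he x y hj hx hy => ?_
    rw [mem_union, not_or] at hy
    rcases mem_union.1 hx with p | p
    · exact (s2_diff_cl h.cP he hj p hy.1).resolve_left fun n => hy.2 (k' n)
    · exact (s2_diff_cl h'.cP he hj p hy.2).resolve_left fun n => hy.1 (k n)
  · exact Or.inl ⟨k, k'⟩
  · exact Or.inr ⟨k', k⟩
  · exfalso
    obtain ⟨w, j, hw⟩ := h.eP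
    obtain ⟨w', j', hw'⟩ := h'.eP
    obtain rfl := s2_diff_je j j'
    have n1 := @disjoint_left _ _ _ |>.1 k
    have n2 := @disjoint_left _ _ _ |>.1 k'
    have wP : w ∈ P := hw.resolve_right fun n => hw'.elim (n2 n) (m n)
    have wP' : w ∈ P' := hw'.resolve_right fun n => n1 n wP
    refine s2_diff_c1 hq (X := P ∩ P') (f := f) (inter_subset_left.trans h.pu)
      (mem_inter.2 ⟨wP, wP'⟩) htU (fun n => (s2_diff_P h (mem_inter.1 n).1).1 rfl)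
      fun e he x y hj hx hy => ?_
    rw [mem_inter] at hx hy
    by_contra ne
    have a1 : y ∉ P → y ∈ D := fun n => (s2_diff_cl h.cP he hj hx.1 n).resolve_right ne
    have a2 : y ∉ P' → y ∈ D' := fun n => (s2_diff_cl h'.cP he hj hx.2 n).resolve_right ne
    by_cases p : y ∈ P
    · exact n1 (a2 fun n => hy ⟨p, n⟩) p
    · exact m (a1 p) (a2 (n2 (a1 p)))

theorem s2_false_mem (hq : G.QG U Nb Tm) (h : G.Sx U t M D P Q f g) : f ∈ G.A :=
  (hq.cut1.1 (show f ∈ G.cut {t} by rw [h.cu]; exact mem_insert_self _ _)).1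

theorem s2_false_or {P' Q' : Finset V} {f' g' : E} (h : G.Sx U t M D P Q f g)
    (h' : G.Sx U t M D' P' Q' f' g') : (f' = f ∧ g' = g) ∨ (f' = g ∧ g' = f) := by
  have e : ({f', g'} : Finset E) = {f, g} := h'.cu.symm.trans h.cu
  have a1 : f' ∈ ({f, g} : Finset E) := e ▸ mem_insert_self _ _
  have a2 : g' ∈ ({f, g} : Finset E) := e ▸ mem_insert_of_mem (mem_singleton_self _)
  have a3 := h'.ne
  simp only [mem_insert, mem_singleton] at a1 a2
  rcases a1 with rfl | rfl <;> rcases a2 with rfl | rfl <;> simp_all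

theorem s2_false_diff {P' Q' : Finset V} {f' g' : E} (hq : G.QG U Nb Tm)
    (h : G.Sx U t M D P Q f g) (h' : G.Sx U u M D' P' Q' f' g') (hD : D' ⊆ Q) (htU : t ∈ U)
    (tu : t ≠ u) (tP : t ∉ P') (uQ : u ∉ Q) (uM : u ∉ M) : False := by
  obtain ⟨w, j, hw⟩ := h'.eP
  obtain ⟨z, jz, -⟩ := h.eQ
  have tQ : t ∉ Q := fun n => (s2_diff_Q h n).1 rfl
  have wQ : w ∈ Q := by
    by_contra n
    refine s2_diff_c1 hq (X := P' \ Q) (f := f') (sdiff_subset.trans h'.pu)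
      (mem_sdiff.2 ⟨hw.resolve_right fun k => n (hD k), n⟩) htU (fun k => tP (mem_sdiff.1 k).1)
      fun e he x y hj hx hy => ?_
    rw [mem_sdiff] at hx hy
    by_contra ne
    have yQ : y ∈ Q := by
      by_contra k
      exact k (hD ((s2_diff_cl h'.cP he hj hx.1 fun p => hy ⟨p, k⟩).resolve_right ne))
    rcases s2_diff_cl h.cQ he hj.symm yQ hx.2 with k | rfl
    · exact (s2_diff_P h' hx.1).2.1 k
    · rcases s2_diff_end jz hj with rfl | rfl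
      · exact tP hx.1
      · exact tQ yQ
  rcases s2_diff_cl h.cQ (s2_false_mem hq h') j.symm wQ uQ with k | rfl
  · exact uM k
  · rcases s2_diff_end jz j with rfl | rfl
    · exact tu rfl
    · exact tQ wQ

theorem s2_false_a {P' Q' : Finset V} {f' g' : E} (hq : G.QG U Nb Tm) (h3 : T3n Tm s t u)
    (hs : s ∈ M) (hD : G.Ob Nb D) (h : G.Sx U t M D P Q f g) (h' : G.Sx U u M D' P' Q' f' g')
    (k : D' ⊆ P) (k' : D ⊆ P') (tP : t ∉ P') (uP : u ∉ P) : False := by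
  obtain ⟨m1, m2, m3, m4⟩ := h3.mem
  have n1 : s ∉ P ∪ P' := fun n =>
    (mem_union.1 n).elim (fun p => (s2_diff_P h p).2.1 hs) fun p => (s2_diff_P h' p).2.1 hs
  have n2 : t ∉ P ∪ P' := fun n => (mem_union.1 n).elim (fun p => (s2_diff_P h p).1 rfl) tP
  have n3 : u ∉ P ∪ P' := fun n => (mem_union.1 n).elim uP fun p => (s2_diff_P h' p).1 rfl
  have c : G.Clo (P ∪ P') ∅ {f, f'} := fun e he x y hj hx hy => by
    rw [mem_union, not_or] at hy
    refine Or.inr ?_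
    rcases mem_union.1 hx with p | p
    · rw [(s2_diff_cl h.cP he hj p hy.1).resolve_left fun n => hy.2 (k' n)]
      exact mem_insert_self _ _
    · rw [(s2_diff_cl h'.cP he hj p hy.2).resolve_left fun n => hy.1 (k n)]
      exact mem_insert_of_mem (mem_singleton_self _)
  rcases hq.c2 (union_subset h.pu h'.pu) c with e | e | ⟨r, hr, e⟩ | ⟨r, hr, e⟩
  · obtain ⟨w, hw⟩ := (hq.ob hD).2
    exact notMem_empty w (e ▸ mem_union_right _ (k' hw))
  · exact n1 (e ▸ hq.tm m1)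
  · have : r ∈ P ∪ P' := e ▸ mem_singleton_self r
    rcases m4 r hr with rfl | rfl | rfl
    exacts [n1 this, n2 this, n3 this]
  · have a1 : s ∈ ({r} : Finset V) := e ▸ mem_sdiff.2 ⟨hq.tm m1, n1⟩
    have a2 : t ∈ ({r} : Finset V) := e ▸ mem_sdiff.2 ⟨hq.tm m2, n2⟩
    exact h3.2.1 ((mem_singleton.1 a1).trans (mem_singleton.1 a2).symm)

theorem s2_false_b {P' Q' P'' Q'' : Finset V} {f' g' : E} (hq : G.QG U Nb Tm)
    (hd : Disjoint D D') (h : G.Sx U t M D P Q f g) (h' : G.Sx U t M D' P' Q' f g)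
    (h'' : G.Sx U u M D P'' Q'' f' g') (k : Disjoint D P') (k' : D' ⊆ P'') (htU : t ∈ U)
    (tu : t ≠ u) (ht : t ∉ D) (tP : t ∉ P'') (uP : u ∉ P) : False := by
  obtain ⟨w, j, hw⟩ := h.eP
  obtain ⟨w', j', hw'⟩ := h'.eP
  obtain rfl := s2_diff_je j j'
  obtain ⟨z, jz, -⟩ := h''.eP
  have uP'' : u ∉ P'' := fun n => (s2_diff_P h'' n).1 rfl
  have wP : w ∈ P := hw.resolve_right fun n =>
    hw'.elim (disjoint_left.1 k n) (disjoint_left.1 hd n)
  have w4 : w ∉ P'' := fun n => by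
    rcases s2_diff_cl h''.cP (s2_false_mem hq h) j.symm n tP with p | rfl
    · exact ht p
    · rcases s2_diff_end jz j with rfl | rfl
      · exact tu rfl
      · exact uP'' n
  have wP' : w ∈ P' := hw'.resolve_right fun n => w4 (k' n)
  refine s2_diff_c1 hq (X := (P ∩ P') \ P'') (f := f)
    (sdiff_subset.trans (inter_subset_left.trans h.pu))
    (mem_sdiff.2 ⟨mem_inter.2 ⟨wP, wP'⟩, w4⟩) htU
    (fun n => (s2_diff_P h (mem_inter.1 (mem_sdiff.1 n).1).1).1 rfl) fun e he x y hj hx hy => ?_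
  rw [mem_sdiff, mem_inter] at hx hy
  by_contra ne
  by_cases p : y ∈ P''
  · rcases s2_diff_cl h''.cP he hj.symm p hx.2 with n | rfl
    · exact (s2_diff_P h hx.1.1).2.2 n
    · rcases s2_diff_end jz hj with rfl | rfl
      · exact uP hx.1.1
      · exact uP'' p
  · by_cases p' : y ∈ P'
    · exact disjoint_left.1 k
        ((s2_diff_cl h.cP he hj hx.1.1 fun n => hy ⟨⟨n, p'⟩, p⟩).resolve_right ne) p'
    · exact p (k' ((s2_diff_cl h'.cP he hj hx.1.2 p').resolve_right ne))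

/-- HINT: all eight parts are free of terminals (`Sx.off`, `s ∈ M`).  The pair of edges at `t` is
the same for `D` and `D'` up to the order.  Different sides at `t`: `D' ⊆ Q`, and the end of the edge
of `u` towards `D'` lies in `Q` because `P(u, D') \ Q` is left by one edge only; then `u ∈ Q`.
Same sides at both, say `D' ⊆ P(t, D)`.  If `D ⊆ P(u, D')` the union of these two parts is left by two
edges.  If `D' ⊆ P(u, D)` then `P(t, D) ∩ P(t, D') \ P(u, D)` contains the end of `f` and is left by `f`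
only. -/
theorem s2_false (hq : G.QG U Nb Tm) (h3 : T3n Tm s t u) (hs : s ∈ M) (hD : G.Ob Nb D)
    (hD' : G.Ob Nb D') (hd : Disjoint D D') (hM : Disjoint M D) (hM' : Disjoint M D')
    (ht : t ∉ D) (ht' : t ∉ D') (hu : u ∉ D) (hu' : u ∉ D') (tM : t ∉ M) (uM : u ∉ M)
    (h1 : ∃ P Q f g, G.Sx U t M D P Q f g) (h2 : ∃ P Q f g, G.Sx U t M D' P Q f g)
    (h4 : ∃ P Q f g, G.Sx U u M D P Q f g) (h5 : ∃ P Q f g, G.Sx U u M D' P Q f g) : False := by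
  obtain ⟨P1, Q1, f1, g1, h1⟩ := h1
  obtain ⟨P2, Q2, f2, g2, h2⟩ := h2
  obtain ⟨P4, Q4, f4, g4, h4⟩ := h4
  obtain ⟨P5, Q5, f5, g5, h5⟩ := h5
  obtain ⟨m1, m2, m3, -⟩ := h3.mem
  have tu : t ≠ u := h3.2.2.2
  have nM : (M ∩ U).Nonempty := ⟨s, mem_inter.2 ⟨hs, hq.tm m1⟩⟩
  have nD : ∀ {D}, G.Ob Nb D → (D ∩ U).Nonempty := fun k => by
    rw [inter_eq_left.2 (hq.ob k).1]; exact (hq.ob k).2
  have o1 := Sx.off hq m2 m3 tu hM nM (nD hD) h1 h4
  have o2 := Sx.off hq m2 m3 tu hM' nM (nD hD') h2 h5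
  have o4 := Sx.off hq m3 m2 tu.symm hM nM (nD hD) h4 h1
  have o5 := Sx.off hq m3 m2 tu.symm hM' nM (nD hD') h5 h2
  have tU := hq.tm m2
  have uU := hq.tm m3
  rcases s2_false_or h1 h2 with ⟨rfl, rfl⟩ | ⟨rfl, rfl⟩
  swap
  · exact s2_false_diff hq h1 h5 (s2_diff hq hD' hM'.symm ht' tU h1 h2) tU tu o5.1 o1.2 uM
  rcases s2_false_or h4 h5 with ⟨rfl, rfl⟩ | ⟨rfl, rfl⟩
  swap
  · exact s2_false_diff hq h4 h2 (s2_diff hq hD' hM'.symm hu' uU h4 h5) uU tu.symm o2.1 o4.2 tM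
  rcases s2_same hq hD hD' hd ht ht' tU h1 h2 with k | k <;>
    rcases s2_same hq hD hD' hd hu hu' uU h4 h5 with k' | k'
  · exact s2_false_b hq hd h1 h2 h4 k.2 k'.1 tU tu ht o4.1 o1.1
  · exact s2_false_a hq h3 hs hD h1 h5 k.1 k'.1 o5.1 o1.1
  · exact s2_false_a hq h3 hs hD' h2 h4 k.1 k'.1 o4.1 o2.1
  · exact s2_false_b hq hd.symm h2 h1 h5 k.2 k'.1 tU tu ht' o5.1 o2.1

/-- ears from `a` to `b` off `D` that are valid for each sign -/
def d3_kind_ear (G : SG V E) (Nb M D : Finset V) (a b : V) : Prop :=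
  ∀ ε, ∃ X R, G.Pw a b X R ∧ (∀ w ∈ X, w ∈ M → w = a ∨ w = b) ∧ Disjoint X D ∧
    (∃ v ∈ X, v ∉ M) ∧ (G.par R = ε ∨ ¬ Disjoint X Nb)

theorem d3_kind_ear.symm (h : G.d3_kind_ear Nb M D a b) : G.d3_kind_ear Nb M D b a := by
  intro ε
  obtain ⟨X, R, k1, k2, k3, k4, k5⟩ := h ε
  exact ⟨X, R, k1.symm, fun w h1 h2 => (k2 w h1 h2).symm, k3, k4, k5⟩

theorem d3_kind_arc (ha : G.Ha Nb Tm) (h : G.Th Nb Tm s t x y A1 A2 A3 A4 S E1 E2 E3 E4 F)
    (hD : G.Ob Nb D) (hM : A1 ∪ A2 ∪ A3 ∪ A4 ∪ S ⊆ M) (hd : Disjoint M D) (hab : a ≠ b)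
    (h1 : a ∈ A1 ∪ A2) (h2 : b ∈ A1 ∪ A2) (hp : G.d3_kind_ear Nb M D a b) : False := by
  obtain ⟨Z, F2, -, -, k⟩ := h.arc hab h1 h2
  obtain ⟨X, R, k1, k2, k3, ⟨v, k4, k5⟩, k6⟩ := hp (1 + G.par F2)
  have hR : A1 ∪ A2 ∪ A3 ∪ A4 ⊆ M := subset_union_left.trans hM
  have h12 : A1 ∪ A2 ⊆ M := (subset_union_left.trans subset_union_left).trans hR
  obtain ⟨Y, F', c1, c2, c3, c4, c5, c6⟩ := k X R k1 (fun w w1 w2 => k2 w w1 (hR w2))
    ⟨v, k4, fun e => k5 (e ▸ h12 h1), fun e => k5 (e ▸ h12 h2)⟩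
  refine ha Y ⟨F', c1, k6.imp (fun e => ?_) fun e e' => e (e'.mono_left c4)⟩ s h.hs t h.ht h.st
    c2 c3 D hD ((disjoint_union_left.2 ⟨hd.mono_left hR, k3⟩).mono_left c5)
  rw [c6, e, add_assoc, z2_add_self, add_zero]

theorem d3_kind_par (hb : G.Hb Nb Tm) (h : G.Th Nb Tm s t x y A1 A2 A3 A4 S E1 E2 E3 E4 F)
    (hM : A1 ∪ A2 ∪ A3 ∪ A4 ∪ S ⊆ M) (h1 : a ∈ A1) (h2 : b ∈ A4) (as : a ≠ s) (bs : b ≠ s)
    (ax : a ≠ x) (by' : b ≠ y) (hp : G.d3_kind_ear Nb M D a b) : False := by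
  obtain ⟨Y1, F1, Y2, F2, Y3, F3, Y4, F4, p1, p2, p3, p4, e1, e4, i1, i2, -, -, k⟩ :=
    h.par14 h1 h2 as bs
  obtain ⟨X, R, k1, k2, -, -, k6⟩ := hp (1 + (G.par F1 + G.par F3))
  have m : ∀ v, v ∈ A1 ∨ v ∈ A2 ∨ v ∈ A3 ∨ v ∈ A4 ∨ v ∈ S → v ∈ M := fun v hv =>
    hM (by simpa only [mem_union, or_assoc] using hv)
  obtain ⟨c1, c2⟩ := k X R k1 fun w w1 w2 => k2 w w1 (m w (by rw [mem_union] at w2; (clear * - k6 w2; tauto)))
  have d1 : ∀ v ∈ A1, v ≠ x → v ∉ A2 ∪ A3 ∪ S := fun v v1 v2 v3 => by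
    simp only [mem_union] at v3
    rcases v3 with (v3 | v3) | v3
    exacts [v2 (h.i12 v v1 v3), disjoint_left.1 h.i13 v1 v3, v2 (h.j1 v v1 v3)]
  have d4 : ∀ v ∈ A4, v ≠ y → v ∉ A2 ∪ A3 ∪ S := fun v v1 v2 v3 => by
    simp only [mem_union] at v3
    rcases v3 with (v3 | v3) | v3
    exacts [disjoint_left.1 h.i24 v3 v1, v2 (h.i34 v v3 v1), v2 (h.j4 v v1 v3)]
  refine hb _ _ ⟨_, c1, k6.imp (fun e => ?_) fun e e' => e (e'.mono_left subset_union_right)⟩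
    h.sw.ring.2.2 s h.hs t h.ht (mem_union_left _ (mem_union_left _ p1.left))
    (mem_union_left _ (mem_union_left _ h.p2.left)) (disjoint_left.2 fun v v1 v2 => ?_)
  · rw [c2, e, add_comm 1, ← add_assoc, z2_add_self, zero_add]
  · rcases mem_union.1 v1 with v1 | v1
    · rcases mem_union.1 v1 with v1 | v1
      · exact d1 v (e1 ▸ mem_union_left _ v1) (fun e => ax (i1 x (e ▸ v1) p2.right).symm) v2
      · exact d4 v (e4 ▸ mem_union_left _ v1) (fun e => by' (i2 y (e ▸ v1) p4.right).symm) v2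
    · rcases k2 v v1 (m v (by simp only [mem_union] at v2; (clear * - k6 v2; tauto))) with rfl | rfl
      exacts [d1 v h1 ax v2, d4 v h2 by' v2]

theorem d3_kind_crs (ha : G.Ha Nb Tm) (h : G.Th Nb Tm s t x y A1 A2 A3 A4 S E1 E2 E3 E4 F)
    (hD : G.Ob Nb D) (hM : A1 ∪ A2 ∪ A3 ∪ A4 ∪ S ⊆ M) (hd : Disjoint M D) (h1 : a ∈ A1)
    (h2 : b ∈ A3) (ax : a ≠ x) (by' : b ≠ y) (hp : G.d3_kind_ear Nb M D a b) : False := by
  obtain ⟨Y1, F1, Y2, F2, Y3, F3, Y4, F4, p1, -, p3, -, e1, e3, -, -, -, -, k⟩ :=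
    h.crs13 h1 h2 ax by'
  obtain ⟨X, R, k1, k2, k3, -, k6⟩ :=
    hp (1 + (G.par F1 + G.par F3 + G.par E2 + G.par F + G.par E4))
  obtain ⟨⟨F', c1, -, -, c2⟩, -⟩ := k X R k1 fun w w1 w2 => k2 w w1 (hM w2)
  have m : ∀ v, v ∈ A1 ∨ v ∈ A2 ∨ v ∈ A3 ∨ v ∈ A4 ∨ v ∈ S → v ∈ M := fun v hv =>
    hM (by simpa only [mem_union, or_assoc] using hv)
  have sX : X ⊆ Y1 ∪ X ∪ Y3 ∪ A2 ∪ S ∪ A4 := fun v hv => by
    simp only [mem_union, hv, or_true, true_or]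
  refine ha _ ⟨F', c1, k6.imp (fun e => ?_) fun e e' => e (e'.mono_left sX)⟩ s h.hs t
    h.ht h.st ?_ ?_ D hD (disjoint_left.2 fun v v1 v2 => ?_)
  · rw [c2, e]
    linear_combination z2_add_self (G.par F1 + G.par F3 + G.par E2 + G.par F + G.par E4)
  · simp only [mem_union, p1.left, true_or]
  · simp only [mem_union, p3.left, or_true, true_or]
  · have a1 : v ∈ Y1 → v ∈ A1 := fun k => e1 ▸ mem_union_left _ k
    have a3 : v ∈ Y3 → v ∈ A3 := fun k => e3 ▸ mem_union_left _ k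
    have a4 : v ∉ X := fun k => disjoint_left.1 k3 k v2
    simp only [mem_union] at v1
    exact disjoint_left.1 hd (m v (by (clear * - a1 a3 a4 k6 v1; grind))) v2

/-- an edge from the even ring to the outside does not start in `s` or `x` -/
theorem d3_kind_end (hq : G.QG U Nb Tm) (h : G.Th Nb Tm s t x y A1 A2 A3 A4 S E1 E2 E3 E4 F)
    (hM : A1 ∪ A2 ∪ A3 ∪ A4 ∪ S ⊆ M) (he : e ∈ G.A) (hj : G.Je e z a) (ha : a ∉ M) :
    z ≠ s ∧ z ≠ x := by
  have m : ∀ v, v ∈ A1 ∨ v ∈ A2 ∨ v ∈ A3 ∨ v ∈ A4 ∨ v ∈ S → v ∈ M := fun v hv =>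
    hM (by simpa only [mem_union, or_assoc] using hv)
  constructor
  · rintro rfl
    exact ha (hM (mem_union_left _ (hq.tm_cw h.rr h.hs
      (by simp only [mem_union, h.p1.left, true_or]) he hj).2))
  · rintro rfl
    obtain ⟨α, a1, -, a2⟩ := h.atx hq
    obtain rfl := a2 e he a hj (fun k => ha (m a (by tauto))) fun k => ha (m a (by tauto))
    exact ha (hM (mem_union_right _ (h.ps.je a1 hj).2.1))

/-- two paths from `D'` off `D` end inside the third path.  HINT: `QG.edo` with `M` the whole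
configuration, `L = D`.  The ends are not `s, t, x, y`.  One end inside `S` is the second
alternative (`rv_edge`).  Both on the even ring: they differ (`QG.two_out`); `Th.arc` and `ha`,
`Th.par14` and `hb` (against the ring of `Th.sw`), `Th.crs13` and `ha`, in the symmetric forms. -/
theorem d3_kind (hq : G.QG U Nb Tm) (ha : G.Ha Nb Tm) (hb : G.Hb Nb Tm)
    (h : G.Th Nb Tm s t x y A1 A2 A3 A4 S E1 E2 E3 E4 F) (hD : G.Ob Nb D) (hD' : G.Ob Nb D')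
    (hDD : Disjoint D D') (hd : Disjoint (A1 ∪ A2 ∪ A3 ∪ A4 ∪ S) (D ∪ D')) :
    (∃ X ⊆ U, D' ⊆ X ∧ Disjoint X (A1 ∪ A2 ∪ A3 ∪ A4 ∪ S) ∧ ∃ f, G.Clo X D {f}) ∨
      D' ⊆ G.rc (A1 ∪ A2 ∪ A3 ∪ A4 ∪ D) S := by
  obtain ⟨d1, d2⟩ := disjoint_union_right.1 hd
  rcases hq.edo hD' d2.symm hDD.symm with ⟨X, k1, k2, k3, -, k4⟩ |
    ⟨p, hp, q, hq', e, f, a, b, he, hf, hef, j1, j2, pD, qD, r1, r2, k⟩
  · exact Or.inl ⟨X, k1, k2, k3, k4⟩
  right
  have d3 : Disjoint D' (A1 ∪ A2 ∪ A3 ∪ A4 ∪ S ∪ D) := disjoint_union_right.2 ⟨d2.symm, hDD.symm⟩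
  have sb : A1 ∪ A2 ∪ A3 ∪ A4 ∪ D ⊆ A1 ∪ A2 ∪ A3 ∪ A4 ∪ S ∪ D :=
    union_subset_union subset_union_left Subset.rfl
  have out : ∀ c, (∃ p ∈ D', G.Rv (A1 ∪ A2 ∪ A3 ∪ A4 ∪ S ∪ D) p c) →
      c ∉ A1 ∪ A2 ∪ A3 ∪ A4 ∪ S ∪ D := fun c ⟨p, p1, p2⟩ =>
    p2.not_mem (disjoint_left.1 d3 p1)
  have ins : ∀ g z c, g ∈ G.A → G.Je g z c → z ∈ A1 ∪ A2 ∪ A3 ∪ A4 ∪ S → z ∉ D →
      (∃ p ∈ D', G.Rv (A1 ∪ A2 ∪ A3 ∪ A4 ∪ S ∪ D) p c) → z ∉ A1 ∪ A2 ∪ A3 ∪ A4 →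
      D' ⊆ G.rc (A1 ∪ A2 ∪ A3 ∪ A4 ∪ D) S := by
    intro g z c hg hj z1 z2 hr z3 v hv
    have z4 : z ∉ A1 ∪ A2 ∪ A3 ∪ A4 ∪ D := fun k => (mem_union.1 k).elim z3 z2
    have c1 := out c hr
    obtain ⟨p, p1, p2⟩ := hr
    exact mem_rc.2 ⟨z, (mem_union.1 z1).resolve_left z3, z4,
      ((rv_edge hg hj z4 fun k => c1 (sb k)).trans (p2.mono sb).symm).trans
        (hD'.rv (d3.mono_right sb) p1 hv)⟩
  by_contra hn
  have pR : p ∈ A1 ∪ A2 ∪ A3 ∪ A4 := by_contra fun k => hn (ins e p a he j1 hp pD r1 k)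
  have qR : q ∈ A1 ∪ A2 ∪ A3 ∪ A4 := by_contra fun k => hn (ins f q b hf j2 hq' qD r2 k)
  have aM : a ∉ A1 ∪ A2 ∪ A3 ∪ A4 ∪ S := fun k => out a r1 (mem_union_left _ k)
  have bM : b ∉ A1 ∪ A2 ∪ A3 ∪ A4 ∪ S := fun k => out b r2 (mem_union_left _ k)
  have hpq : p ≠ q := by
    rintro rfl
    exact disjoint_left.1 h.nb pR (hq.two_out h.rr pR he hf hef j1 j2
      (fun k => aM (mem_union_left _ (h.rr.ends k (j1.at_iff.2 (Or.inr rfl)))))
      fun k => bM (mem_union_left _ (h.rr.ends k (j2.at_iff.2 (Or.inr rfl)))))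
  have ear : G.d3_kind_ear Nb (A1 ∪ A2 ∪ A3 ∪ A4 ∪ S) D p q := fun ε => by
    obtain ⟨X, R, k1, k2, k3, k4, k5⟩ := k hpq ε
    exact ⟨X, R, k1, k2, k3, ⟨a, k4, aM⟩, k5.imp And.left fun ⟨B, b1, b2, _⟩ k6 =>
      disjoint_left.1 k6 b2 b1⟩
  generalize hM : A1 ∪ A2 ∪ A3 ∪ A4 ∪ S = M at d1 aM bM ear
  have m0 : A1 ∪ A2 ∪ A3 ∪ A4 ∪ S ⊆ M := hM.le
  have m1 : A2 ∪ A1 ∪ A4 ∪ A3 ∪ S ⊆ M := fun v hv => m0 (by simp only [mem_union] at hv ⊢; (clear * - hpq hv k r1 r2; grind))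
  have m2 : A4 ∪ A3 ∪ A2 ∪ A1 ∪ S ⊆ M := fun v hv => m0 (by simp only [mem_union] at hv ⊢; (clear * - hpq hv k r1 r2; grind))
  obtain ⟨ps, px⟩ := d3_kind_end hq h m0 he j1 aM
  obtain ⟨qs, qx⟩ := d3_kind_end hq h m0 hf j2 bM
  have pt := (d3_kind_end hq h.sw m1 he j1 aM).1
  have qt := (d3_kind_end hq h.sw m1 hf j2 bM).1
  have py := (d3_kind_end hq h.fl m2 he j1 aM).2
  have qy := (d3_kind_end hq h.fl m2 hf j2 bM).2
  have main : ∀ p q, p ≠ s → p ≠ t → p ≠ x → q ≠ s → q ≠ t → q ≠ y → p ∈ A1 ∪ A2 → q ∈ A4 ∪ A3 →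
      ¬ G.d3_kind_ear Nb M D p q := by
    intro p q ps pt px qs qt qy h1 h2 ear
    rcases mem_union.1 h1 with h1 | h1 <;> rcases mem_union.1 h2 with h2 | h2
    · exact d3_kind_par hb h m0 h1 h2 ps qs px qy ear
    · exact d3_kind_crs ha h hD m0 d1 h1 h2 px qy ear
    · exact d3_kind_crs ha h.sw hD m1 d1 h1 h2 px qy ear
    · exact d3_kind_par hb h.sw m1 h1 h2 pt qt px qy ear
  rw [union_assoc, union_comm A3] at pR qR
  rcases mem_union.1 pR with h1 | h1 <;> rcases mem_union.1 qR with h2 | h2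
  · exact d3_kind_arc ha h hD m0 d1 hpq h1 h2 ear
  · exact main p q ps pt px qs qt qy h1 h2 ear
  · exact main q p qs qt qx ps pt py h2 h1 ear.symm
  · exact d3_kind_arc ha h.fl hD m2 d1 hpq h1 h2 ear

/-- a set with one terminal, an object and three leaving edges contains a valid ring through the
terminal.  HINT: `Ob.vr` if `u ∈ D`.  `QG.ed` with `M = D`, `L = U \ X`: for a cut `Y` the set `X \ Y`
contains `D`, so by `QG.c4` no leaving edge of `X` starts in `Y`, against `QG.c1`. -/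
theorem ring_in (hq : G.QG U Nb Tm) (hX : X ⊆ U) (h3 : T3n Tm s t u) (hs : s ∉ X) (ht : t ∉ X)
    (hu : u ∈ X) (hD : G.Ob Nb D) (hDX : D ⊆ X) (hc : (G.cut X).card ≤ 3) :
    ∃ Y ⊆ X, G.Vr Nb Y ∧ u ∈ Y := by
  obtain ⟨m1, -, m3, m4⟩ := h3.mem
  by_cases huD : u ∈ D
  · exact ⟨D, hDX, hD.vr hq m3 huD, huD⟩
  have sub : ∀ Y ⊆ U, Disjoint Y (U \ X) → Y ⊆ X := fun Y h1 h2 v hv =>
    by_contra fun k => disjoint_left.1 h2 hv (mem_sdiff.2 ⟨h1 hv, k⟩)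
  rcases hq.ed (M := D) (L := U \ X) (hX hu) huD (fun k => (mem_sdiff.1 k).2 hu) with
    ⟨Y, k1, k2, k3, k4, f, k5⟩ | ⟨Y, F, k1, k2, k3, -, k5⟩ | ⟨x, y, X1, X2, F1, F2, k⟩
  · exfalso
    have hYX := sub Y k1 k4
    have h4 := hq.c4 (X := X \ Y) (sdiff_subset.trans hX) (disjoint_left.2 fun v hv k => by
      obtain ⟨v1, v2⟩ := mem_sdiff.1 hv
      rcases m4 v k with rfl | rfl | rfl
      exacts [hs v1, ht v1, v2 k2]) hD (subset_sdiff.2 ⟨hDX, k3.symm⟩)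
    have h1 : G.Clo Y ∅ {f} := fun e he x y hj hx hy => by
      refine Or.inr ((k5 e he x y hj hx hy).resolve_left fun k => ?_)
      have y1 := (mem_sdiff.1 k).2
      have x1 := hYX hx
      have e1 : e ∈ G.cut X := mem_cut.2 ⟨he, by
        rcases hj with ⟨a1, a2⟩ | ⟨a1, a2⟩ <;> rw [a1, a2] <;> tauto⟩
      have e2 : G.cut (X \ Y) ⊆ insert f ((G.cut X).erase e) := fun g hg => by
        obtain ⟨g1, g2⟩ := mem_cut.1 hg
        rw [mem_sdiff, mem_sdiff] at g2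
        by_cases c : g ∈ G.cut X
        · refine mem_insert_of_mem (mem_erase.2 ⟨?_, c⟩)
          rintro rfl
          rcases hj with ⟨a1, a2⟩ | ⟨a1, a2⟩ <;> rw [a1, a2] at g2 <;> (clear * - g2 hx y1; tauto)
        · have c1 : G.s g ∈ X ↔ G.t g ∈ X := by_contra fun c1 => c (mem_cut.2 ⟨g1, c1⟩)
          refine mem_insert.2 (Or.inl (mem_singleton.1 ?_))
          by_cases c2 : G.s g ∈ Y
          · exact (k5 g g1 _ _ (Or.inl ⟨rfl, rfl⟩) c2 (by (clear * - c1 c2 g2; tauto))).resolve_left fun k =>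
              (mem_sdiff.1 k).2 (c1.1 (hYX c2))
          · have c3 : G.t g ∈ Y := by (clear * - c1 c2 g2; tauto)
            exact (k5 g g1 _ _ (Or.inr ⟨rfl, rfl⟩) c3 c2).resolve_left fun k =>
              (mem_sdiff.1 k).2 (c1.2 (hYX c3))
      have e3 := (card_le_card e2).trans (card_insert_le _ _)
      have e4 := card_erase_add_one e1
      omega
    rcases hq.c1 k1 h1 with rfl | rfl
    · exact notMem_empty _ k2
    · exact hs (hYX (hq.tm m1))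
  · exact ⟨Y, sub Y (hq.cw k1) k5, ⟨F, k1, Or.inr k3⟩, k2⟩
  · obtain ⟨Y, F, c1, c2, c3, -, c4⟩ := k.ob hq hD huD 1
    refine ⟨Y, c3.trans (union_subset (union_subset (sub _ (hq.pw k.p1 (hX hu)) k.l1)
      (sub _ (hq.pw k.p2 (hX hu)) k.l2)) hDX), ⟨F, c1, c4.imp And.left fun c5 c6 => ?_⟩,
      c2 (mem_union_left _ k.p1.left)⟩
    exact disjoint_left.1 c6 (c2 (mem_union_left _ k.p1.right)) c5.1

theorem d3_end_eq (hq : G.QG U Nb Tm) (ha : G.Ha Nb Tm) (hb : G.Hb Nb Tm)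
    (h : G.Th Nb Tm s t x y A1 A2 A3 A4 S E1 E2 E3 E4 F) (hu : u ∈ Tm) (hD : G.Ob Nb D)
    (hd : Disjoint (A1 ∪ A2 ∪ A3 ∪ A4 ∪ S) D) (huS : u ∉ S)
    (he : G.Ea u S (A1 ∪ A2 ∪ A3 ∪ A4 ∪ D) a a X1 X2 F1 F2) : False := by
  obtain ⟨r1, -, -⟩ := h.ring
  obtain ⟨c1, c2⟩ := he.cw huS
  have l1 := disjoint_left.1 he.l1
  have l2 := disjoint_left.1 he.l2
  have l3 := disjoint_left.1 hd
  simp only [mem_union, not_or] at l1 l2 l3
  have k0 : ∀ v ∈ X1 ∪ X2, v ∈ A1 ∪ A4 ∪ S → v = a := fun v k1 k2 => c2 v k1 (by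
    have a1 := @l1 v
    have a2 := @l2 v
    simp only [mem_union] at k1 k2
    (clear * - a1 a2 k1 k2; grind))
  obtain ⟨e, e1, f, f1, a', a1, b', b1, k1, k2, k3, k4, k5⟩ := he.last huS
  have m : a ∈ A1 ∪ A4 ∪ S := mem_union_right _ he.m1
  have hB : a ∈ Nb := hq.two_out r1 m (he.p1.sub e1) (he.p2.sub f1) k1 k2 k3
    (fun k => k4 (k0 a' (mem_union_left _ a1) (r1.ends k (k2.elim (fun j => Or.inr j.2)
      fun j => Or.inl j.1)) ▸ he.m1))
    fun k => k5 (k0 b' (mem_union_right _ b1) (r1.ends k (k3.elim (fun j => Or.inr j.2)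
      fun j => Or.inl j.1)) ▸ he.m1)
  refine th0 hq ha hb hB r1 c1 m (mem_union_left _ he.p1.right) (fun v k k' => k0 v k' k) h.hs hu
    (mem_union_left _ (mem_union_left _ h.p1.left)) (mem_union_left _ he.p1.left) hD
    (disjoint_left.2 fun v k => l3 ?_) (disjoint_left.2 fun v k => ?_)
  · simp only [mem_union] at k
    (clear * - k; tauto)
  · exact (mem_union.1 k).elim (fun j => (l1 j).2) fun j => (l2 j).2

theorem d3_end_ne (ha : G.Ha Nb Tm) (h : G.Th Nb Tm s t x y A1 A2 A3 A4 S E1 E2 E3 E4 F)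
    (hu : u ∈ Tm) (hsu : s ≠ u) (hD : G.Ob Nb D) (hd : Disjoint (A1 ∪ A2 ∪ A3 ∪ A4 ∪ S) D)
    (h1 : a ∈ S) (h2 : b ∈ S)
    (he : ∀ ε, ∃ X R, G.Pw a b X R ∧ u ∈ X ∧ (∀ w ∈ X, w ∈ S → w = a ∨ w = b) ∧
      Disjoint X (A1 ∪ A2 ∪ A3 ∪ A4 ∪ D) ∧ (G.par R = ε ∨ ¬ Disjoint X Nb)) : False := by
  obtain ⟨a', b', S1, G1, S2, G2, S3, G3, ho, q1, q2, q3, eS, -, i1, i2, i3, -⟩ :=
    h.ps.split2 h1 h2
  obtain ⟨Y1, F1, Y2, F2, Y3, F3, Y4, F4, y1, -, -, -, e1, e4, -, -, -, -, hr⟩ :=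
    h.par14 h.p1.right h.p4.right h.sx.symm h.sy.symm
  obtain ⟨X, R, p, ux, k1, k2, k3⟩ := he (1 + G.par F1 + G.par F3 + G.par G1 + G.par G3)
  have p' : G.Pw a' b' X R := by
    rcases ho with ⟨rfl, rfl⟩ | ⟨rfl, rfl⟩
    exacts [p, p.symm]
  have k4 : ∀ w ∈ X, w ∈ S → w = a' ∨ w = b' := fun w j1 j2 => by
    rcases ho with ⟨rfl, rfl⟩ | ⟨rfl, rfl⟩
    exacts [k1 w j1 j2, (k1 w j1 j2).symm]
  have s1 : S1 ⊆ S := eS ▸ subset_union_left.trans subset_union_left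
  have s3 : S3 ⊆ S := eS ▸ subset_union_right
  obtain ⟨c1, d1⟩ := q1.cat p' fun v j1 j2 => (k4 v j2 (s1 j1)).elim id fun j =>
    i1 v j1 (j ▸ q2.right)
  obtain ⟨c2, d2⟩ := c1.cat q3 fun v j1 j2 => (mem_union.1 j1).elim (fun j => (i3 v j j2).2)
    fun j => (k4 v j (s3 j2)).elim (fun j' => i2 v (j' ▸ q2.left) j2) id
  have s4 : ∀ v ∈ S, v ∈ A1 ∪ A4 → v = x ∨ v = y := fun v j1 j2 =>
    (mem_union.1 j2).imp (fun j => h.j1 v j j1) fun j => h.j4 v j j1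
  obtain ⟨c3, d3⟩ := hr _ _ c2 fun v j1 j2 => (mem_union.1 j1).elim
    (fun j => (mem_union.1 j).elim (fun j => s4 v (s1 j) j2) fun j => absurd (mem_union_left _
      (union_subset_union (subset_union_left.trans subset_union_left) subset_rfl j2))
      (disjoint_left.1 k2 j)) fun j => s4 v (s3 j) j2
  have k5 : X ⊆ Y1 ∪ Y3 ∪ (S1 ∪ X ∪ S3) :=
    (subset_union_right.trans subset_union_left).trans subset_union_right
  have k6 : Disjoint (Y1 ∪ Y3 ∪ (S1 ∪ X ∪ S3)) D := by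
    have a1 : Y1 ⊆ A1 := e1 ▸ subset_union_left
    have a2 : Y3 ⊆ A4 := e4 ▸ subset_union_left
    simp only [disjoint_union_left, disjoint_union_right] at hd k2 ⊢
    exact ⟨⟨hd.1.1.1.1.mono_left a1, hd.1.2.mono_left a2⟩, ⟨hd.2.mono_left s1, k2.2⟩,
      hd.2.mono_left s3⟩
  refine ha _ ⟨_, c3, k3.imp (fun j => ?_) fun j j' => j (j'.mono_left k5)⟩ s h.hs u hu hsu
    (mem_union_left _ (mem_union_left _ y1.left)) (k5 ux) D hD k6
  rw [d3, d2, d1, j]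
  linear_combination z2_add_self (G.par F1) + z2_add_self (G.par F3) +
    z2_add_self (G.par G1) + z2_add_self (G.par G3)

/-- a path that meets `M` at most in its last vertex lies, up to that vertex, in a reached set -/
theorem d3_end_rc (hp : G.Pw a b X F) (hM : ∀ v ∈ X, v ∈ M → v = b) (h1 : a ∈ G.rc M S)
    (hv : v ∈ X) (hb : v ≠ b) : v ∈ G.rc M S := by
  obtain ⟨X1, F1, X2, F2, p1, p2, eX, -, hi, -⟩ := hp.split hv
  obtain ⟨z, z1, z2, z3⟩ := mem_rc.1 h1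
  refine mem_rc.2 ⟨z, z1, z2, z3.trans (p1.rv (disjoint_left.2 fun w j1 j2 => hb ?_) p1.left
    p1.right)⟩
  have := hM w (eX ▸ mem_union_left _ j1) j2
  subst this
  exact (hi w j1 p2.right).symm

theorem d3_end_half (hq : G.QG U Nb Tm) (ha : G.Ha Nb Tm) (hb : G.Hb Nb Tm)
    (h : G.Th Nb Tm s t x y A1 A2 A3 A4 S E1 E2 E3 E4 F) (h3 : T3n Tm s t u) (hD : G.Ob Nb D)
    (hD' : G.Ob Nb D') (hDD : Disjoint D D') (hd : Disjoint (A1 ∪ A2 ∪ A3 ∪ A4 ∪ S) (D ∪ D'))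
    (hm : G.Tmin Nb Tm (D ∪ D') F.card) (huS : u ∉ S) (huD : u ∉ D)
    (hn : Disjoint D' (G.rc (A1 ∪ A2 ∪ A3 ∪ A4 ∪ D) S)) (he : G.Ea u S ∅ a b X1 X2 F1 F2)
    (r1 : Disjoint X1 (A1 ∪ A2 ∪ A3 ∪ A4)) (r2 : Disjoint X2 (A1 ∪ A2 ∪ A3 ∪ A4))
    (h2 : Disjoint X2 D) : False := by
  have hu := h3.mem.2.2.1
  have d1 : Disjoint (A1 ∪ A2 ∪ A3 ∪ A4 ∪ S) D := hd.mono_right subset_union_left
  have d2 : Disjoint (A1 ∪ A2 ∪ A3 ∪ A4 ∪ S) D' := hd.mono_right subset_union_right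
  have in1 : ∀ {c : V} {X : Finset V} {R : Finset E}, G.Pw u c X R → c ∈ S →
      Disjoint X (A1 ∪ A2 ∪ A3 ∪ A4 ∪ D) → X ⊆ G.rc (A1 ∪ A2 ∪ A3 ∪ A4 ∪ D) S :=
    fun p k1 k2 v hv => mem_rc.2 ⟨_, k1, disjoint_left.1 k2 p.right, p.rv k2 p.right hv⟩
  have n2 := in1 he.p2 he.m2 (disjoint_union_right.2 ⟨r2, h2⟩)
  have n3 : Disjoint X2 D' := (hn.mono_right n2).symm
  by_cases h1 : Disjoint X1 D
  · have n4 : Disjoint X1 D' :=
      (hn.mono_right (in1 he.p1 he.m1 (disjoint_union_right.2 ⟨r1, h1⟩))).symm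
    by_cases hab : a = b
    · subst hab
      exact d3_end_eq hq ha hb h hu hD d1 huS ⟨he.p1, he.p2, he.m1, he.m2, he.o1, he.o2, he.i12,
        he.dF, disjoint_union_right.2 ⟨r1, h1⟩, disjoint_union_right.2 ⟨r2, h2⟩⟩
    · exact th_ss hq ha h h3 hD subset_union_left hd hm ⟨he.p1, he.p2, he.m1, he.m2, he.o1, he.o2,
        he.i12, he.dF, disjoint_union_right.2 ⟨r1, disjoint_union_right.2 ⟨h1, n4⟩⟩,
        disjoint_union_right.2 ⟨r2, disjoint_union_right.2 ⟨h2, n3⟩⟩⟩ hab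
  have aD : a ∉ D := disjoint_left.1 d1 (mem_union_right _ he.m1)
  obtain ⟨p, q, Z1, G1, Z2, G2, p1, q1, z1, z2, s1, s2, o1, o2, hε⟩ :=
    hD.thru hq he.p1 huD aD h1
  have aN : a ∈ G.rc (A1 ∪ A2 ∪ A3 ∪ A4 ∪ D) S := mem_rc.2 ⟨a, he.m1, fun k =>
    (mem_union.1 k).elim (disjoint_left.1 r1 he.p1.right) aD, Rv.refl _ _⟩
  have n5 : Disjoint (Z1 ∪ D ∪ Z2) D' := disjoint_union_left.2 ⟨disjoint_union_left.2
    ⟨disjoint_left.2 fun v j1 j2 => by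
      by_cases k : v = p
      · exact disjoint_left.1 hDD (k ▸ p1) j2
      · exact disjoint_left.1 hn j2 (d3_end_rc z1 (fun w j3 j4 => (mem_union.1 j4).elim
          (fun j5 => absurd j5 (disjoint_left.1 r1 (s1 j3))) (o1 w j3)) (n2 he.p2.left) j1 k),
    hDD⟩, disjoint_left.2 fun v j1 j2 => by
      by_cases k : v = q
      · exact disjoint_left.1 hDD (k ▸ q1) j2
      · exact disjoint_left.1 hn j2 (d3_end_rc z2.symm (fun w j3 j4 => (mem_union.1 j4).elim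
          (fun j5 => absurd j5 (disjoint_left.1 r1 (s2 j3))) (o2 w j3)) aN j1 k)⟩
  have key : ∀ ε, ∃ X' F', G.Ea u S (A1 ∪ A2 ∪ A3 ∪ A4 ∪ D') a b X' X2 F' F2 ∧
      (G.par F' = ε ∨ ¬ Disjoint X' Nb) := fun ε => by
    obtain ⟨X', F', x1, x2, -, x3, x4⟩ := hε ε
    have x5 : ∀ v ∈ X', v ∈ X1 ∨ v ∈ D := fun v hv => by
      have a1 := x2 hv
      have a2 := @s1 v
      have a3 := @s2 v
      simp only [mem_union] at a1
      (clear * - a1 a2 a3 x4; grind)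
    refine ⟨X', F', ⟨x1, he.p2, he.m1, he.m2, fun w j1 j2 => (x5 w j1).elim
      (fun j => he.o1 w j j2) fun j => absurd j (disjoint_left.1 d1 (mem_union_right _ j2)), he.o2,
      fun w j1 j2 => (x5 w j1).elim (fun j => he.i12 w j j2)
        fun j => absurd j (disjoint_left.1 h2 j2),
      disjoint_left.2 fun e j1 j2 => (x3 e j1).elim (fun j => disjoint_left.1 he.dF j j2)
        fun j => disjoint_left.1 h2 (he.p2.ends j2 (Or.inl rfl)) j.1,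
      disjoint_union_right.2 ⟨disjoint_left.2 fun v j1 j2 => (x5 v j1).elim
        (fun j => disjoint_left.1 r1 j j2)
        fun j => disjoint_left.1 d1 (mem_union_left _ j2) j, n5.mono_left x2⟩,
      disjoint_union_right.2 ⟨r2, n3⟩⟩, x4⟩
  by_cases hab : a = b
  · subst hab
    obtain ⟨X', F', k, -⟩ := key 0
    exact d3_end_eq hq ha hb h hu hD' d2 huS k
  refine d3_end_ne ha h hu h3.2.2.1 hD' d2 he.m1 he.m2 fun ε => ?_
  obtain ⟨X', F', k1, k2⟩ := key (ε + G.par F2)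
  obtain ⟨k3, k4, k5⟩ := k1.pw hab
  refine ⟨_, _, k3, mem_union_left _ k1.p1.left, k5, disjoint_union_left.2 ⟨k1.l1, k1.l2⟩,
    k2.imp (fun j => ?_) fun j j' => j (j'.mono_left subset_union_left)⟩
  rw [k4, j]
  linear_combination z2_add_self (G.par F2)

/-- HINT: the ring `Y` meets `S` by `hb`; `Cw.ea` gives two halves from `u` to `S`.  Neither object
is on both halves (`Ea.both`, `u` is off the objects by `hb`).  A half that misses `D` lies in the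
set reached off `D`, so it misses `D'`.  If both halves miss `D`: equal ends `th0` (with the ring of
`Th.ring`), else `th_ss`.  Else replace the half that meets `D` by `Ob.thru`; the new half misses
`D'`.  Equal ends: `th0` with `D'`.  Else the ring `s, x, ear, y` is valid for one sign and misses
`D'`. -/
theorem d3_end (hq : G.QG U Nb Tm) (ha : G.Ha Nb Tm) (hb : G.Hb Nb Tm)
    (h : G.Th Nb Tm s t x y A1 A2 A3 A4 S E1 E2 E3 E4 F) (h3 : T3n Tm s t u) (hD : G.Ob Nb D)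
    (hD' : G.Ob Nb D') (hDD : Disjoint D D') (hd : Disjoint (A1 ∪ A2 ∪ A3 ∪ A4 ∪ S) (D ∪ D'))
    (hm : G.Tmin Nb Tm (D ∪ D') F.card) (hY : G.Vr Nb Y) (hu : u ∈ Y)
    (hYR : Disjoint Y (A1 ∪ A2 ∪ A3 ∪ A4))
    (hn : Disjoint D' (G.rc (A1 ∪ A2 ∪ A3 ∪ A4 ∪ D) S)) : False := by
  have tu := h3.mem.2.2.1
  have d1 : Disjoint (A1 ∪ A2 ∪ A3 ∪ A4 ∪ S) D := hd.mono_right subset_union_left
  have key : ∀ Z, G.Vr Nb Z → u ∈ Z → Disjoint Z (A1 ∪ A2 ∪ A3 ∪ A4) → ¬ Disjoint Z S :=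
    fun Z z1 z2 z3 z4 => hb Z _ z1 h.ring.2.2 u tu s h.hs z2
      (mem_union_left _ (mem_union_left _ h.p1.left)) (disjoint_union_right.2
        ⟨z3.mono_right (union_subset_union (subset_union_left.trans subset_union_left)
          subset_rfl), z4⟩)
  have uS : u ∉ S := fun k => (h.third ha h3 hD d1).1 (mem_union_right _ k)
  have uD : u ∉ D := fun k => key D (hD.vr hq tu k) k (d1.mono_left subset_union_left).symm
    (d1.mono_left subset_union_right).symm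
  obtain ⟨R, c1, c2⟩ := id hY
  obtain ⟨a, b, X1, X2, F1, F2, he, s1, s2⟩ := c1.ea hu uS (key Y hY hu hYR)
  by_cases h2 : Disjoint X2 D
  · exact d3_end_half hq ha hb h h3 hD hD' hDD hd hm uS uD hn he (hYR.mono_left s1)
      (hYR.mono_left s2) h2
  by_cases h1 : Disjoint X1 D
  · exact d3_end_half hq ha hb h h3 hD hD' hDD hd hm uS uD hn he.symm (hYR.mono_left s2)
      (hYR.mono_left s1) h1
  obtain ⟨Z, z1, z2, z3, z4⟩ := he.both hq hD uD (d1.mono_left subset_union_right).symm h1 h2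
  exact key Z z1 z2 ((disjoint_union_left.2 ⟨hYR.mono_left (union_subset s1 s2),
    (d1.mono_left subset_union_left).symm⟩).mono_left z3) z4

theorem d3_th_at (hq : G.QG U Nb Tm) (h : G.Th Nb Tm s t x y A1 A2 A3 A4 S E1 E2 E3 E4 F)
    (he : e ∈ F) (hf : f ∈ F) (h1 : G.At e x) (h2 : G.At f x) : e = f := by
  obtain ⟨α, -, -, k⟩ := h.atx hq
  have key : ∀ g ∈ F, G.At g x → g = α := fun g g1 g2 => by
    obtain ⟨w, hw⟩ : ∃ w, G.Je g x w := g2.elim (fun j => ⟨_, Or.inl ⟨j, rfl⟩⟩)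
      fun j => ⟨_, Or.inr ⟨rfl, j⟩⟩
    obtain ⟨-, a1, a2⟩ := h.ps.je g1 hw
    exact k g (h.ps.sub g1) w hw (fun j => a2 (h.j1 w j a1).symm) fun j => a2 (h.j2 w j a1).symm
  rw [key e he h1, key f hf h2]

theorem d3_th_two (hq : G.QG U Nb Tm) (hs : s ∈ Tm) (ht : t ∈ Tm) (hst : s ≠ t) (hD : G.Ob Nb D)
    (hD' : G.Ob Nb D') (hDD : Disjoint D D') (hX : X ⊆ U) (h1 : D ⊆ X) (h2 : D' ⊆ X) (h3 : s ∉ X)
    (h4 : t ∉ X) (hc : G.Clo X ∅ {e, f}) : False := by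
  obtain ⟨p, hp⟩ := (hq.ob hD).2
  obtain ⟨q, hq'⟩ := (hq.ob hD').2
  rcases hq.c2 hX hc with k | k | ⟨r, -, k⟩ | ⟨r, -, k⟩
  · exact notMem_empty p (k ▸ h1 hp)
  · exact h3 (k ▸ hq.tm hs)
  · have a1 := mem_singleton.1 (k ▸ h1 hp)
    have a2 := mem_singleton.1 (k ▸ h2 hq')
    exact disjoint_left.1 hDD hp (a1 ▸ a2 ▸ hq')
  · exact hst ((mem_singleton.1 (k ▸ mem_sdiff.2 ⟨hq.tm hs, h3⟩)).trans
      (mem_singleton.1 (k ▸ mem_sdiff.2 ⟨hq.tm ht, h4⟩)).symm)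

theorem d3_th_both (hq : G.QG U Nb Tm) (ha : G.Ha Nb Tm)
    (h : G.Th Nb Tm s t x y A1 A2 A3 A4 S E1 E2 E3 E4 F) (hD : G.Ob Nb D)
    (hD' : G.Ob Nb D') (hDD : Disjoint D D') (hd : Disjoint (A1 ∪ A2 ∪ A3 ∪ A4 ∪ S) (D ∪ D'))
    (hm : G.Tmin Nb Tm (D ∪ D') F.card) (h1 : D' ⊆ G.rc (A1 ∪ A2 ∪ A3 ∪ A4 ∪ D) S)
    (h2 : D ⊆ G.rc (A1 ∪ A2 ∪ A3 ∪ A4 ∪ D') S) : False := by
  obtain ⟨α, a1, β, b1, a2, b2, c1⟩ := th_sig hq ha h hD hD' (Or.inr hDD) hd hm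
  obtain ⟨α', a3, β', b3, a4, b4, c2⟩ := th_sig hq ha h hD' hD (Or.inr hDD.symm)
    (union_comm D D' ▸ hd) (union_comm D D' ▸ hm)
  obtain rfl := d3_th_at hq h a1 a3 a2 a4
  obtain rfl := d3_th_at hq h.fl b1 b3 b2 b4
  have sU : S ⊆ U := hq.cw h.ring.1 |> subset_union_right.trans
  have n : ∀ v ∈ A1 ∪ A2, v ∉ G.rc (A1 ∪ A2 ∪ A3 ∪ A4 ∪ D) S ∪ G.rc (A1 ∪ A2 ∪ A3 ∪ A4 ∪ D') S :=
    fun v hv k => (mem_union.1 k).elim
      (fun j => disjoint_left.1 rc_dj j (mem_union_left _ (mem_union_left _ (mem_union_left _ hv))))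
      fun j => disjoint_left.1 rc_dj j (mem_union_left _ (mem_union_left _ (mem_union_left _ hv)))
  refine d3_th_two (e := α) (f := β) hq h.hs h.ht h.st hD hD' hDD
    (union_subset (hq.rc sU) (hq.rc sU)) (h2.trans subset_union_right) (h1.trans subset_union_left)
    (n s (mem_union_left _ h.p1.left)) (n t (mem_union_right _ h.p2.left))
    fun e he v w j k1 k2 => Or.inr ?_
  rw [mem_union, not_or] at k2
  rcases mem_union.1 k1 with k | k
  · exact (c1 e he v w j k k2.1).resolve_left fun k3 => k2.2 (h2 k3)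
  · exact (c2 e he v w j k k2.2).resolve_left fun k3 => k2.1 (h1 k3)

theorem d3_th_mix (hq : G.QG U Nb Tm) (ha : G.Ha Nb Tm) (hb : G.Hb Nb Tm)
    (h : G.Th Nb Tm s t x y A1 A2 A3 A4 S E1 E2 E3 E4 F) (hD : G.Ob Nb D)
    (hD' : G.Ob Nb D') (hDD : Disjoint D D') (hd : Disjoint (A1 ∪ A2 ∪ A3 ∪ A4 ∪ S) (D ∪ D'))
    (hm : G.Tmin Nb Tm (D ∪ D') F.card) (hX : X ⊆ U) (h1 : D' ⊆ X)
    (h0 : Disjoint X (A1 ∪ A2 ∪ A3 ∪ A4 ∪ S)) (hc : G.Clo X D {f})
    (h2 : D ⊆ G.rc (A1 ∪ A2 ∪ A3 ∪ A4 ∪ D') S) : False := by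
  have hn : Disjoint D' (G.rc (A1 ∪ A2 ∪ A3 ∪ A4 ∪ D) S) := by
    refine disjoint_left.2 fun v k1 k2 => d3_th_both hq ha h hD hD' hDD hd hm (fun w k3 => ?_) h2
    obtain ⟨z, z1, z2, z3⟩ := mem_rc.1 k2
    exact mem_rc.2 ⟨z, z1, z2, z3.trans (hD'.rv (disjoint_union_right.2
      ⟨(hd.mono subset_union_left subset_union_right).symm, hDD.symm⟩) k1 k3)⟩
  obtain ⟨α, -, β, -, -, -, c2⟩ := th_sig hq ha h hD' hD (Or.inr hDD.symm)
    (union_comm D D' ▸ hd) (union_comm D D' ▸ hm)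
  obtain ⟨u, h3⟩ := hq.third h.hs h.ht h.st
  have sU : S ⊆ U := hq.cw h.ring.1 |> subset_union_right.trans
  have zU := union_subset hX (hq.rc (M := A1 ∪ A2 ∪ A3 ∪ A4 ∪ D') sU)
  have zR : Disjoint (X ∪ G.rc (A1 ∪ A2 ∪ A3 ∪ A4 ∪ D') S) (A1 ∪ A2 ∪ A3 ∪ A4) :=
    disjoint_union_left.2 ⟨h0.mono_right subset_union_left, rc_dj.mono_right subset_union_left⟩
  have zs := disjoint_right.1 zR
    (mem_union_left _ (mem_union_left _ (mem_union_left _ h.p1.left)))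
  have zt := disjoint_right.1 zR
    (mem_union_left _ (mem_union_left _ (mem_union_right _ h.p2.left)))
  have zc : (G.cut (X ∪ G.rc (A1 ∪ A2 ∪ A3 ∪ A4 ∪ D') S)).card ≤ 3 :=
    (card_le_card (Clo.cut (R := {f, α, β}) fun e he v w j k1 k2 => Or.inr (by
      rw [mem_union, not_or] at k2
      rcases mem_union.1 k1 with k | k
      · exact mem_insert.2 (Or.inl (mem_singleton.1
          ((hc e he v w j k k2.1).resolve_left fun k3 => k2.2 (h2 k3))))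
      · exact mem_insert_of_mem
          ((c2 e he v w j k k2.2).resolve_left fun k3 => k2.1 (h1 k3))))).trans card_le_three
  have zu : u ∈ X ∪ G.rc (A1 ∪ A2 ∪ A3 ∪ A4 ∪ D') S := by
    by_contra k
    have := hq.c4 zU (disjoint_left.2 fun v k1 k2 => by
      rcases h3.mem.2.2.2 v k2 with rfl | rfl | rfl
      exacts [zs k1, zt k1, k k1]) hD' (h1.trans subset_union_left)
    omega
  obtain ⟨Y, y1, y2, y3⟩ := ring_in hq zU h3 zs zt zu hD' (h1.trans subset_union_left) zc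
  exact d3_end hq ha hb h h3 hD hD' hDD hd hm y2 y3 (zR.mono_left y1) hn

/-- HINT: `d3_kind` for both orders, `th_sig` for both orders (the two pairs of exits agree by
`Th.atx`).  Both objects reached: the union of the two reached sets is left by two edges.  Two cuts:
their union is left by two edges (`QG.c2`).  Else say `D'` has the cut `X`, `D` is reached off `D'`
and `D'` is not reached off `D`: the union of `X` and that set is left by three edges,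
it contains `u` (`QG.c4`); `ring_in`, `d3_end`. -/
theorem d3_th (hq : G.QG U Nb Tm) (ha : G.Ha Nb Tm) (hb : G.Hb Nb Tm)
    (h : G.Th Nb Tm s t x y A1 A2 A3 A4 S E1 E2 E3 E4 F) (hD : G.Ob Nb D)
    (hD' : G.Ob Nb D') (hDD : Disjoint D D') (hd : Disjoint (A1 ∪ A2 ∪ A3 ∪ A4 ∪ S) (D ∪ D'))
    (hm : G.Tmin Nb Tm (D ∪ D') F.card) : False := by
  have hd' := union_comm D D' ▸ hd
  rcases d3_kind hq ha hb h hD hD' hDD hd with ⟨X', x1, x2, x3, f', x4⟩ | k1 <;>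
    rcases d3_kind hq ha hb h hD' hD hDD.symm hd' with ⟨X, y1, y2, y3, f, y4⟩ | k2
  · have n : ∀ v ∈ A1 ∪ A2, v ∉ X ∪ X' := fun v hv k => (mem_union.1 k).elim
      (fun j => disjoint_left.1 y3 j (mem_union_left _ (mem_union_left _ (mem_union_left _ hv))))
      fun j => disjoint_left.1 x3 j (mem_union_left _ (mem_union_left _ (mem_union_left _ hv)))
    refine d3_th_two (e := f) (f := f') hq h.hs h.ht h.st hD hD' hDD (union_subset y1 x1)
      (y2.trans subset_union_left) (x2.trans subset_union_right)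
      (n s (mem_union_left _ h.p1.left)) (n t (mem_union_right _ h.p2.left))
      fun e he v w j k1 k2 => Or.inr ?_
    rw [mem_union, not_or] at k2
    rcases mem_union.1 k1 with k | k
    · exact mem_insert.2 (Or.inl (mem_singleton.1
        ((y4 e he v w j k k2.1).resolve_left fun k3 => k2.2 (x2 k3))))
    · exact mem_insert_of_mem ((x4 e he v w j k k2.2).resolve_left fun k3 => k2.1 (y2 k3))
  · exact d3_th_mix hq ha hb h hD hD' hDD hd hm x1 x2 x3 x4 k2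
  · exact d3_th_mix hq ha hb h hD' hD hDD.symm hd' (union_comm D D' ▸ hm) y1 y2 y3 y4 k1
  · exact d3_th_both hq ha h hD hD' hDD hd hm k1 k2

/-- HINT: `tz_ed` four times, `s2_false`, `th_min`, `d3_th`. -/
theorem d3 (hq : G.QG U Nb Tm) (ha : G.Ha Nb Tm) (hb : G.Hb Nb Tm) : G.Hdd Nb Tm := by
  rintro X ⟨R, c1, c2⟩ s hs sX D D' hD hD' hDD d1 d2
  obtain ⟨t, u, h3⟩ := hq.two hs
  obtain ⟨-, ht, hu, -⟩ := h3.mem
  have z1 : G.Tz Nb Tm s X R D := ⟨hs, c1, sX, c2, hD, d1⟩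
  have z2 : G.Tz Nb Tm s X R D' := ⟨hs, c1, sX, c2, hD', d2⟩
  have key : ∀ v ∈ Tm, s ≠ v → v ∉ X ∧ v ∉ D ∧ v ∉ D' ∧ (∃ P Q f g, G.Sx U v X D P Q f g) ∧
      ∃ P Q f g, G.Sx U v X D' P Q f g := fun v hv hsv => by
    obtain ⟨a1, a2, a3⟩ := tz_ed hq ha hb z1 hD' d2 (Or.inr hDD) hv hsv
    obtain ⟨-, a4, a5⟩ := tz_ed hq ha hb z2 hD d1 (Or.inr hDD.symm) hv hsv
    refine ⟨a1, a2, a4, a3.resolve_left ?_, a5.resolve_left ?_⟩
    · rintro ⟨x, y, A1, A2, A3, A4, S, E1, E2, E3, E4, F, k1, k2⟩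
      obtain ⟨_, _, _, _, _, _, _, _, _, _, _, _, _, _, k3, k4, k5⟩ := th_min k1 k2
      exact d3_th hq ha hb k3 hD hD' hDD k4 k5
    · rintro ⟨x, y, A1, A2, A3, A4, S, E1, E2, E3, E4, F, k1, k2⟩
      obtain ⟨_, _, _, _, _, _, _, _, _, _, _, _, _, _, k3, k4, k5⟩ := th_min k1 k2
      exact d3_th hq ha hb k3 hD' hD hDD.symm k4 k5
  obtain ⟨a1, a2, a3, a4, a5⟩ := key t ht h3.2.1
  obtain ⟨b1, b2, b3, b4, b5⟩ := key u hu h3.2.2.1
  exact s2_false hq h3 sX hD hD' hDD d1 d2 a2 a3 b2 b3 a1 b1 a4 a5 b4 b5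

end SG

end Pool.Agent.Work.MP_8c679b_co
end
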