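import Pool.Agent.Work.MP_8c679b_co.Top.LRad
import Pool.Agent.Work.MP_8c679b_co.K1.Tp2
import Pool.Agent.Work.MP_8c679b_co.Six.GNorm
import Pool.Agent.Work.MP_8c679b_co.Cubic
import Pool.Agent.Work.MP_8c679b_co.Key.Z1
import Pool.Agent.Work.MP_8c679b_co.Six.AGad
import Pool.Agent.Work.MP_8c679b_co.Key.IH
import Pool.Agent.Work.MP_8c679b_co.Key.MB4
import Pool.Agent.Work.MP_8c679b_co.A3.G3
import Pool.Agent.Work.MP_8c679b_co.Key.LB
import Pool.Agent.Work.MP_8c679b_co.Six.PAll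

-- merged part: Pool.Agent.Work.MP_8c679b_co.A3.YB
section
-- merged part: Pool.Agent.Work.MP_8c679b_co.A3.Acc
section
/-!
From residue solutions to the extension property.
-/

set_option autoImplicit false

namespace Pool.Agent.Work.MP_8c679b_co

open Finset

namespace SG

variable {V E : Type} [Fintype V] [DecidableEq V] [DecidableEq E] {G : SG V E}
  {T : Finset V} {η : E → ZMod 3} {ε : ZMod 2} {O : Finset E} {φ : E → ZMod 3} {m : ℕ}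

theorem Rs.mono {m' : ℕ} (h : G.Rs T η ε m) (hm : m ≤ m') : G.Rs T η ε m' := by
  obtain ⟨O, φ, M, h1, h2, h3⟩ := h
  exact ⟨O, φ, M, h1, h2.trans hm, h3⟩

/-- HINT: apply the absorption to `η`; a hit side is not bad; `M = ∅`. -/
theorem rall_of_abs (h : G.Abs0 T O ∅ (G.Kus T)) : G.Rall T (G.par O) 0 := by
  intro η hη
  have k : ∀ e, e ∈ G.fr T ∅ ↔ e ∈ G.ins T := fun e => by rw [fr, inter_empty, union_empty]
  obtain ⟨φ, k1, k2⟩ := h.2.2 η (fun e he h1 _ =>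
    hη e ((mem_tch_iff.1 he).resolve_left fun h2 => h1 ((k e).2 h2))) trivial
  refine ⟨O, φ, ∅, ⟨h.1, rfl, ⟨k2.1, k2.2.1, fun t ht => ht.elim⟩,
    fun e he => k1 e fun h1 => not_ins_of_cut he ((k e).1 h1)⟩, le_rfl, fun S hS hB => ?_⟩
  obtain ⟨e, e1, -, e2⟩ := k2.2.2 _ ⟨S, hS, hB.1, rfl⟩
  exact (e2.elim (fun r => r (hB.2 e e1).1) (hB.2 e e1).2).elim

/-- HINT: replace `φ` by `-φ` (`bd_mul`). -/
theorem Rs.neg (h : G.Rs T η ε m) : G.Rs T (fun e => -η e) ε m := by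
  obtain ⟨O, φ, M, ⟨h1, h2, h3, h4⟩, h5, h6⟩ := h
  exact ⟨O, fun e => -φ e, M, ⟨h1, h2, h3.neg, fun e he => congrArg Neg.neg (h4 e he)⟩, h5,
    fun S hS hB => h6 S hS ⟨hB.1, fun e he => ⟨(hB.2 e he).1, neg_ne_zero.1 (hB.2 e he).2⟩⟩⟩

omit [Fintype V] in
theorem Acc_tri {A B C : Finset V} (h : ∀ v ∈ A, v ∈ B → v ∉ C) :
    (G.cut (A ∩ B)).card + (G.cut (A ∩ C)).card + (G.cut (B ∩ C)).card +
      (G.cut (A ∪ B ∪ C)).card ≤ (G.cut A).card + (G.cut B).card + (G.cut C).card := by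
  simp only [cut, crs, card_filter, ← sum_add_distrib, mem_inter, mem_union]
  refine sum_le_sum fun e _ => ?_
  have h1 := h (G.s e)
  have h2 := h (G.t e)
  by_cases p1 : G.s e ∈ A <;> by_cases p2 : G.t e ∈ A <;> by_cases p3 : G.s e ∈ B <;>
    by_cases p4 : G.t e ∈ B <;> by_cases p5 : G.s e ∈ C <;> by_cases p6 : G.t e ∈ C <;>
    first
    | exact absurd p5 (h1 p1 p3)
    | exact absurd p6 (h2 p2 p4)
    | simp [p1, p2, p3, p4, p5, p6]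

theorem Acc_four (hT : G.HT T) (hO : G.St T O ∅) {X : Finset V} (hX : X ⊆ T) (hn : X.Nonempty)
    (h : G.cut X ⊆ O) : 4 ≤ (G.cut X).card := by
  have h1 := hO.ev.even_crs X
  have h2 : G.crs O X = G.cut X := by
    ext e
    rw [mem_crs, mem_cut]
    exact and_congr_left fun k => ⟨fun r => ins_sub_A (hO.sub_ins r), fun r => h (mem_cut.2 ⟨r, k⟩)⟩
  rw [h2, Nat.even_iff] at h1
  have h3 := hT.mono3 hX hn
  omega

/-- Pairwise meeting bad sides have a common vertex.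
HINT: call `S ⊆ T` full if it is nonempty, has four leaving edges and all of them lie in `O`
(then none of them leaves `T`).  A nonempty `X ⊆ T` whose leaving edges lie in `O` has an even
number of them (`Ev.even_crs`, `St.ev`), so at least four.  For two meeting full sets the
submodular inequality makes the intersection and the union full.  Three pairwise meeting full
sets `A, B, C` have a common vertex: otherwise `A ∩ B`, `A ∩ C`, `B ∩ C` are disjoint full sets;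
`(A ∩ B) ∪ (A ∩ C) ⊆ A`; count with the three inequalities
`cut (A \ B) + cut (B \ A) + 2 (edges between A ∩ B and the outside of A ∪ B) = cut A + cut B`:
if `A` and `B` cross, no edge joins `A ∩ B` and the outside of `A ∪ B`, and two edges go to each
of `A \ B`, `B \ A`; apply this also to the pairs `A ∪ B, C` etc.; all leaving edges of `A`, `B`, `C`
end inside `A ∪ B ∪ C`, whose cut is then empty, against `HT`.  Finally take a minimal nonempty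
intersection of bad sides (induction on the family: the intersection of a subfamily is full and
meets every further member). -/
theorem helly (hc : G.Cub) (hT : G.HT T) (hO : G.St T O ∅)
    (h : ∀ S ⊆ T, ∀ S' ⊆ T, G.Bad O φ S → G.Bad O φ S' → ¬ Disjoint S S') :
    ∃ M : Finset V, M.card ≤ 1 ∧ ∀ S ⊆ T, G.Bad O φ S → ¬ Disjoint S M := by
  let Fu : Finset V → Prop := fun X => X ⊆ T ∧ G.cut X ⊆ O ∧ (G.cut X).card = 4
  have a1 : ∀ {A B : Finset V}, G.cut A ⊆ O → G.cut B ⊆ O → G.cut (A ∩ B) ⊆ O :=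
    fun hA hB => cut_inter_sub.trans (union_subset hA hB)
  have a2 : ∀ {A B : Finset V}, G.cut A ⊆ O → G.cut B ⊆ O → G.cut (A ∪ B) ⊆ O :=
    fun hA hB => cut_union_sub.trans (union_subset hA hB)
  have a3 : ∀ {A B : Finset V}, Fu A → Fu B → ¬ Disjoint A B → 4 ≤ (G.cut (A ∩ B)).card :=
    fun hA hB d => Acc_four hT hO (inter_subset_left.trans hA.1)
      (not_disjoint_iff_nonempty_inter.1 d) (a1 hA.2.1 hB.2.1)
  have a4 : ∀ {A B : Finset V}, Fu A → Fu B → ¬ Disjoint A B → Fu (A ∩ B) := by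
    intro A B hA hB d
    refine ⟨inter_subset_left.trans hA.1, a1 hA.2.1 hB.2.1, ?_⟩
    have k1 := a3 hA hB d
    have k2 := Acc_four hT hO (union_subset hA.1 hB.1)
      ((not_disjoint_iff_nonempty_inter.1 d).mono (inter_subset_union (s := A) (t := B)))
      (a2 hA.2.1 hB.2.1)
    have k3 := cut_submod (G := G) (X := A) (Y := B)
    have k4 := hA.2.2
    have k5 := hB.2.2
    omega
  have a5 : ∀ {A B C : Finset V}, Fu A → Fu B → Fu C → ¬ Disjoint A B → ¬ Disjoint A C →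
      ¬ Disjoint B C → ¬ Disjoint (A ∩ B) C := by
    intro A B C hA hB hC d1 d2 d3 d
    have k0 := Acc_tri (G := G) (A := A) (B := B) (C := C) fun v h1 h2 =>
      disjoint_left.1 d (mem_inter.2 ⟨h1, h2⟩)
    have k1 := a3 hA hB d1
    have k2 := a3 hA hC d2
    have k3 := a3 hB hC d3
    have k4 := Acc_four hT hO (union_subset (union_subset hA.1 hB.1) hC.1)
      ((not_disjoint_iff_nonempty_inter.1 d1).mono
        ((inter_subset_union (s := A) (t := B)).trans subset_union_left))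
      (a2 (a2 hA.2.1 hB.2.1) hC.2.1)
    have k5 := hA.2.2
    have k6 := hB.2.2
    have k7 := hC.2.2
    omega
  have a6 : ∀ S ⊆ T, G.Bad O φ S → Fu S := fun S hS hB =>
    ⟨hS, fun e he => (hB.2 e he).1, hB.1.1⟩
  by_cases h0 : ∃ S ⊆ T, G.Bad O φ S
  swap
  · exact ⟨∅, Nat.zero_le _, fun S hS hB => absurd ⟨S, hS, hB⟩ h0⟩
  obtain ⟨S0, s1, s2⟩ := h0
  obtain ⟨X, ⟨x1, x2⟩, x3⟩ := wellFounded_lt.has_min
    {X : Finset V | Fu X ∧ ∀ S ⊆ T, G.Bad O φ S → ¬ Disjoint X S}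
    ⟨S0, a6 S0 s1 s2, fun S hS hB => h S0 s1 S hS s2 hB⟩
  obtain ⟨v, hv, -⟩ := not_disjoint_iff.1 (x2 S0 s1 s2)
  refine ⟨{v}, (card_singleton v).le, fun S hS hB => not_disjoint_iff.2
    ⟨v, ?_, mem_singleton_self v⟩⟩
  have k := x3 (X ∩ S) ⟨a4 x1 (a6 S hS hB) (x2 S hS hB), fun S' hS' hB' =>
    a5 x1 (a6 S hS hB) (a6 S' hS' hB') (x2 S hS hB) (x2 S' hS' hB') (h S hS S' hS' hB hB')⟩
  have k' : X ∩ S = X := (inter_subset_left (s₁ := X) (s₂ := S)).eq_of_not_ssubset k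
  exact (mem_inter.1 (k'.ge hv)).2

theorem rs_of_meet (hc : G.Cub) (hT : G.HT T) (hq : G.Rq T η ε O φ)
    (h : ∀ S ⊆ T, ∀ S' ⊆ T, G.Bad O φ S → G.Bad O φ S' → ¬ Disjoint S S') : G.Rs T η ε 1 := by
  obtain ⟨M, h1, h2⟩ := helly hc hT hq.1 h
  exact ⟨O, φ, M, hq, h1, h2⟩

theorem Acc_lift (hc : G.Cub) (hT : G.HT T) {h : E → ℤ}
    (hh : ∀ e ∈ G.cut T, |h e| = 2 ∨ |h e| = 4) (hr : G.Rs T (fun e => (h e : ZMod 3)) ε m)
    (h4 : (4 : ℤ) ∣ ∑ e ∈ G.cut T, |h e| + 2 * (ε.val : ℤ))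
    (hs : 2 * (m : ℤ) + ∑ e ∈ G.cut T, |h e| < 12) : G.Ext T h := by
  obtain ⟨O, φ, M, ⟨hO, hp, hφ, hη⟩, hM, hit⟩ := hr
  have hOA : O ⊆ G.A := hO.sub_ins.trans ins_sub_A
  obtain ⟨f, f1, f2, f3⟩ := lift6 (h := h) hc hT.act (fun e he => hT.noloop hc he) hOA hO.2.1 hφ
    subset_rfl (fun e he => ⟨by rcases hh e he with k | k <;> omega,
      iff_of_false (fun k => by
        rw [← odd_abs, Int.odd_iff] at k
        rcases hh e he with k' | k' <;> omega) fun k => not_ins_of_cut he (hO.sub_ins k),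
      (hη e he).symm⟩)
    (fun v => if v ∈ M then 2 else 0) (fun e => (h e).natAbs)
    (fun e _ => (Int.natCast_natAbs _).ge)
    (fun K hK hn _ g hd => by
      have k2 := sum_split_max (G := G) K (G.cut T) g fun e => (h e).natAbs
      have k0 : (0 : ℤ) ≤ ∑ v ∈ K, ((if v ∈ M then 2 else 0 : ℕ) : ℤ) :=
        sum_nonneg fun _ _ => Nat.cast_nonneg _
      have hO' : ∀ v ∈ K, G.dg O v = 0 := fun v hv => hO.2.1 v (hK.1 hv)
      by_cases hB : G.Bad O φ K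
      · obtain ⟨v, v1, v2⟩ := not_disjoint_iff.1 (hit K hK.1 hB)
        have k6 := single_le_sum (f := fun v => ((if v ∈ M then 2 else 0 : ℕ) : ℤ))
          (fun _ _ => Nat.cast_nonneg _) v1
        have := hd.four hOA hO' (fun e he => hφ.2.1 e (tch_mono hK.1 (cut_sub_tch he)))
          (hT.mono3 hK.1 hn)
        simp only [if_pos v2, Nat.cast_ofNat] at k6
        omega
      · have := hT.df hc hK hn hOA hO' ⟨fun v hv => hφ.1 v (hK.1 hv),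
          fun e he => hφ.2.1 e (tch_mono hK.1 he), fun t ht => ht.elim⟩ (fun hu => Or.inl (by
            by_contra r
            refine hB ⟨hu, fun e he => ⟨?_, fun r' => r ⟨e, he, Or.inr r'⟩⟩⟩
            by_contra r'
            exact r ⟨e, he, Or.inl r'⟩)) hd
        omega)
    (Or.inl ⟨rfl, fun hd => hd.2 (by
      have k : (4 : ℤ) ∣ ∑ e ∈ G.cut T, G.out T h e - ∑ e ∈ G.cut T, |h e| := by
        rw [← sum_sub_distrib]
        refine dvd_sum fun e he => ?_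
        have k1 := hh e he
        rw [out]
        rcases Def6_kap (fun _ => 0) he with k | k <;> rw [k] <;>
          rcases abs_cases (h e) with k | k <;> omega
      rw [inter_eq_left.2 hO.sub_ins, hp]
      omega), by
      have k : ((∑ e ∈ G.cut T, (h e).natAbs : ℕ) : ℤ) = ∑ e ∈ G.cut T, |h e| := by
        rw [Nat.cast_sum]
        exact sum_congr rfl fun e _ => Int.natCast_natAbs _
      have k' := card_le_card (inter_subset_right (s₁ := T) (s₂ := M))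
      simp only [sum_ite_mem, sum_const, smul_eq_mul]
      omega⟩)
  exact ext_of_av hφ f1 f2 f3

/-- HINT: `η = h` modulo three; parity one if all three values are two in size, parity zero if
one of them is four.  `lift6` with `P = cut T`, `wp e = (h e).natAbs`, weight two on `M`
(compare `w_lift` and `C4.fin`): `HT.df` for a side that is not bad, `Df.four` for a bad one,
`sum_split_max`.  Not `Df`: every outflow is congruent to the size of the value modulo four.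
`ext_of_av`. -/
theorem acc_of_rall (hc : G.Cub) (hT : G.T3 T) (h1 : G.Rall T 1 2) (h0 : G.Rall T 0 1) :
    G.Acc T := by
  intro h hh hu
  have hη : ∀ e ∈ G.cut T, (h e : ZMod 3) ≠ 0 := fun e he k => by
    rw [ZMod.intCast_zmod_eq_zero_iff_dvd] at k
    have k1 := hh e he
    rcases abs_cases (h e) with k2 | k2 <;> omega
  by_cases h4 : ∃ e ∈ G.cut T, |h e| = 4
  · obtain ⟨e0, e1, e2⟩ := h4
    have k : ∑ e ∈ G.cut T, |h e| = 8 := by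
      rw [← add_sum_erase _ _ e1, e2, sum_congr rfl fun e he => (hh e (mem_erase.1 he).2).resolve_right
        fun r => (mem_erase.1 he).1 (hu e (mem_erase.1 he).2 e0 e1 r e2), sum_const,
        card_erase_of_mem e1, hT.2.1]
      rfl
    exact Acc_lift hc hT.1 hh (h0 _ hη) (by rw [k]; decide) (by rw [k]; decide)
  · have k : ∑ e ∈ G.cut T, |h e| = 6 := by
      rw [sum_congr rfl fun e he => (hh e he).resolve_right fun r => h4 ⟨e, he, r⟩, sum_const,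
        hT.2.1]
      rfl
    exact Acc_lift hc hT.1 hh (h1 _ hη) (by rw [k]; decide) (by rw [k]; decide)

end SG

end Pool.Agent.Work.MP_8c679b_co
end

-- merged part: Pool.Agent.Work.MP_8c679b_co.A3.YA
section
/-!
Closing tools for the chain case: rings of four passes, targets of dangerous sides, finishing by
a rest in which no two terminals are connected.
-/

set_option autoImplicit false

namespace Pool.Agent.Work.MP_8c679b_co

open Finset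

namespace Rl

variable {R0 R1 R2 R3 : Rl} {t0 t1 t2 t3 s0 s1 s2 s3 l : ZMod 2}

/-- four relations close up along links with signs `t0, …, t3` -/
def Y4 (t0 t1 t2 t3 : ZMod 2) (R0 R1 R2 R3 : Rl) : Prop :=
  ∃ x y, Z3cp t3 (Z3cp t2 (Z3cp t1 R0 R1) R2) R3 x y ∧ x = -(chi t0) * y

/-- four terms as a cyclic sequence -/
def y4_q {α : Type} (a b c d : α) : ℕ → α
  | 1 => b
  | 2 => c
  | 3 => d
  | _ => a

theorem y4_ex {p : ℕ → Prop} : (∃ i ≤ 3, p i) ↔ ((p 0 ∨ p 1) ∨ p 2) ∨ p 3 := by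
  constructor
  · rintro ⟨i, hi, h⟩
    interval_cases i <;> tauto
  · rintro (((h | h) | h) | h) <;> exact ⟨_, by norm_num, h⟩

/-- HINT: `cl_gg` with `n = 3`, `Rs = fun i => if i = 0 then R0 else …`. -/
theorem y4_gg (h0 : R0.P s0) (h1 : R1.Gd) (h2 : R2.P s2) (h3 : R3.Gd) :
    Y4 t0 t1 t2 t3 R0 R1 R2 R3 := by
  refine cl_gg (τ := y4_q t0 t1 t2 t3) (Rs := y4_q R0 R1 R2 R3) (n := 3) (j := 1) (k := 3)
    (by norm_num) le_rfl (by norm_num) (fun i hi a b => ?_) h1 h3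
  interval_cases i
  exacts [⟨_, h0⟩, absurd rfl a, ⟨_, h2⟩, absurd rfl b]

/-- HINT: `cl_uu` with `j = 2`, `k = 1`, `l = 3`. -/
theorem y4_uu (h0 : R0.P s0) (h1 : R1.U s1) (h2 : R2.Tt) (h3 : R3.U s3) :
    Y4 t0 t1 t2 t3 R0 R1 R2 R3 := by
  refine cl_uu (τ := y4_q t0 t1 t2 t3) (Rs := y4_q R0 R1 R2 R3) (n := 3) (j := 2) (k := 1) (l := 3)
    (fun i hi => ?_) (fun i hi a => ?_) (by norm_num) le_rfl (by norm_num) (by norm_num)
    (by norm_num) ⟨_, h1⟩ ⟨_, h3⟩ <;> interval_cases i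
  exacts [h0.tt, h1.p.tt, h2, h3.p.tt, ⟨_, h0⟩, ⟨_, h1.p⟩, absurd rfl a, ⟨_, h3.p⟩]

/-- HINT: `Z3_p`, `Z1_pm`, `Z1_mp`; the line `x + chi t0 * y = 0`. -/
theorem y4_mt (h0 : R0.P s0) (h1 : R1.P s1) (h2 : R2.Mt l) (h3 : R3.P s3)
    (h : l = s0 + s1 + s3 + (t0 + t1 + t2 + t3)) : Y4 t0 t1 t2 t3 R0 R1 R2 R3 := by
  have k := Z1_mp t3 (Z1_pm t2 (Z3_p t1 h0 h1) h2) h3
  rw [show s0 + t1 + s1 + t2 + l + t3 + s3 = t0 by
    rw [h]; linear_combination z2_add_self (s0 + s1 + s3 + t1 + t2 + t3)] at k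
  obtain ⟨x, y, k1, k2⟩ := k 0
  exact ⟨x, y, k1, by linear_combination k2⟩

/-- a permutation and a relation that meets all lines close up -/
theorem y2_mt (h0 : R0.P s0) (h1 : R1.Mt l) (h : l = s0 + (t0 + t1)) :
    ∃ x y z, R0 x y ∧ R1 (-(chi t1) * y) z ∧ x = -(chi t0) * z := by
  have k := Z1_pm t1 h0 h1
  rw [show s0 + t1 + l = t0 by rw [h]; linear_combination z2_add_self (s0 + t1)] at k
  obtain ⟨x, z, ⟨y, k1, k2⟩, k3⟩ := k 0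
  exact ⟨x, y, z, k1, k2, by linear_combination k3⟩

end Rl

namespace SG

variable {V E : Type} [Fintype V] [DecidableEq V] [DecidableEq E] {G : SG V E}
  {T W X B S : Finset V} {O O' : Finset E} {K K' : Set (Finset E)} {v : V} {e f : E}

variable (G) in
/-- the cuts of the dangerous sides that avoid `v` -/
def Kd (T : Finset V) (v : V) : Set (Finset E) := {t | ∃ S, G.KA T S ∧ v ∉ S ∧ t = G.cut S}

/-- a dangerous side contains no terminal -/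
theorem KA.nt (h : G.KA T B) (hv : v ∈ B) : ¬ G.Ex T v := by
  rintro ⟨-, e, h1, h2⟩
  exact not_ins_of_cut h1 (h.2.2 (cut_of_sub h.1 h1 (Cut_tch (mem_cut.1 h1).1 h2 hv)).1)

/-- HINT: as `rall_of_abs` with `M = {v}`; a bad side has its cut in `O ⊆ ins T`. -/
theorem rall_kd (h : G.Abs0 T O ∅ (G.Kd T v)) : G.Rall T (G.par O) 1 := by
  intro η hη
  have k : ∀ e, e ∈ G.fr T ∅ ↔ e ∈ G.ins T := fun e => by rw [fr, inter_empty, union_empty]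
  obtain ⟨φ, k1, k2⟩ := h.2.2 η (fun e he h1 _ =>
    hη e ((mem_tch_iff.1 he).resolve_left fun h2 => h1 ((k e).2 h2))) trivial
  refine ⟨O, φ, {v}, ⟨h.1, rfl, ⟨k2.1, k2.2.1, fun t ht => ht.elim⟩,
    fun e he => k1 e fun h1 => not_ins_of_cut he ((k e).1 h1)⟩, le_rfl, fun S hS hB hd => ?_⟩
  obtain ⟨e, e1, -, e2⟩ := k2.2.2 _ ⟨S, ⟨hS, hB.1, fun e he => h.1.sub_ins (hB.2 e he).1⟩,
    disjoint_singleton_right.1 hd, rfl⟩
  exact e2.elim (fun r => r (hB.2 e e1).1) (hB.2 e e1).2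

/-- One dead edge per component is free.
HINT: `Ab.sl` gives one solution `φ`.  For given nonzero values `ψ` negate `φ` (`Sl.negOn`) on the
union `Y` of the components `cmp W (ie T e)` over the edges `e ∈ cut T ∩ tch W` with `φ e ≠ ψ e`;
such a component touches no other edge of `cut T` (`Gd2`, `HT.f2'`).  Then take `ψ` off `tch W`
(`Sl.congr`). -/
theorem abs_gd (hc : G.Cub) (hT : G.T3 T) (hW : W ⊆ T) (hg : G.Gd2 T W)
    (h : G.Abs0 W O (G.cut W) K) : G.Abs0 W O (G.cut W \ G.cut T) K := by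
  classical
  refine ⟨h.1, fr_sub_tch, fun ψ hψ _ => ?_⟩
  obtain ⟨φ, hφ⟩ := h.2.sl
  let Y := W.filter fun x => ∃ e ∈ G.cut T, e ∈ G.tch W ∧ φ e ≠ ψ e ∧ G.Rch (G.ins W) (G.ie T e) x
  have hY : ∀ e ∈ G.tch Y, ∀ v ∈ W, G.At e v → v ∈ Y := fun e he v hv ha => by
    obtain ⟨k1, f, f1, f2, f3, f4⟩ := mem_filter.1 (ie_mem he)
    refine mem_filter.2 ⟨hv, f, f1, f2, f3, ?_⟩
    by_cases k : e ∈ G.cut W
    · rwa [eq_ie k hv ha, ← eq_ie k k1 ie_at]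
    · exact f4.trans (rch_at ((mem_tch_iff.1 (tch_mono (filter_subset _ _) he)).resolve_right k)
        ie_at ha)
  have tw : ∀ e ∈ G.cut T, e ∈ G.tch W → G.Ex T (G.ie T e) ∧ G.ie T e ∈ W := fun e k1 k2 =>
    ⟨⟨ie_mem (cut_sub_tch k1), e, k1, ie_at⟩, (cut_of_sub hW k1 k2).2 ▸ ie_mem k2⟩
  refine ⟨fun e => if e ∈ G.tch W then if e ∈ G.tch Y then -φ e else φ e else ψ e, fun e he => ?_,
    (hφ.negOn hY).congr (fun e he => if_pos he) fun _ _ => Iff.rfl⟩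
  by_cases k : e ∈ G.tch W
  swap
  · exact if_neg k
  have k1 : e ∉ G.ins W := fun r => he (mem_union_left _ r)
  have k2 := (mem_tch_iff.1 k).resolve_left k1
  have k3 : e ∈ G.cut T := by_contra fun r =>
    he (mem_union_right _ (mem_inter.2 ⟨k2, mem_sdiff.2 ⟨k2, r⟩⟩))
  refine (if_pos k).trans ?_
  split_ifs with r
  · obtain ⟨-, f, f1, f2, f3, f4⟩ := mem_filter.1 (ie_mem r)
    rw [(cut_of_sub ((filter_subset _ _).trans hW) k3 r).2] at f4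
    obtain rfl : f = e := by_contra fun q => AX3_dv hc hT f1 k3 q
      (hg _ _ (tw f f1 f2).1 (tw e k3 k).1 (tw f f1 f2).2 (tw e k3 k).2 f4)
    exact (Ab_sgn _ _ (hφ.2.1 f k (h.not_mem k1)) (hψ f k he (h.not_mem k1))).resolve_left f3
  · exact by_contra fun q => r (Cut_tch (mem_cut.1 k3).1 ie_at
      (mem_filter.2 ⟨(tw e k3 k).2, e, k3, k, q, Rch.refl _ _⟩))

/-- Finishing: first the rest, then `X`.  HINT: `abs_gd`, `Abs0.seq`, `Abs0.cov`, `rall_kd`. -/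
theorem fin_gd (hc : G.Cub) (hT : G.T3 T) (hX : X ⊆ T) (h : G.Abs0 X O ∅ K)
    (hg : G.Gd2 T (T \ X)) (h' : G.Abs0 (T \ X) O' (G.cut (T \ X)) K')
    (hK : ∀ S, G.KA T S → v ∉ S → ∃ t ∈ K ∪ K', t ⊆ G.cut S) :
    G.Rall T (G.par O' + G.par O) 1 := by
  obtain ⟨h1, h2⟩ := (abs_gd hc hT sdiff_subset hg h').seq (L := ∅) h sdiff_disjoint
    (fun e k => absurd k (notMem_empty e)) (fun e k _ => Or.inl (by
      have k1 := @hX (G.s e)
      have k2 := @hX (G.t e)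
      simp only [mem_sdiff, mem_cut, mem_tch] at k ⊢
      (clear * - k k1 k2; grind))) fun e k => absurd k (notMem_empty e)
  rw [sdiff_union_of_subset hX] at h1
  refine h2 ▸ rall_kd (v := v) (h1.cov ?_)
  rintro _ ⟨S, k1, k2, rfl⟩
  exact Or.inl (Set.union_comm K K' ▸ hK S k1 k2)

omit [Fintype V] in
theorem Gd2.mono {W' : Finset V} (h : G.Gd2 T W) (hW : W' ⊆ W) : G.Gd2 T W' := by
  exact fun s s' h1 h2 h3 h4 h5 => h s s' h1 h2 (hW h3) (hW h4) (h5.mono (ins_mono hW))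

/-- HINT: `run_abs` with `n = 3`. -/
theorem y_ring4 {X0 X1 X2 X3 : Finset V} {O0 O1 O2 O3 : Finset E}
    {K0 K1 K2 K3 : Set (Finset E)} {C0 C1 C2 C3 : Rl → Prop} {e0 e1 e2 e3 : E}
    (h0 : G.Pas0 X0 O0 e0 e1 ∅ K0 C0) (h1 : G.Pas0 X1 O1 e1 e2 ∅ K1 C1)
    (h2 : G.Pas0 X2 O2 e2 e3 ∅ K2 C2) (h3 : G.Pas0 X3 O3 e3 e0 ∅ K3 C3)
    (d01 : Disjoint X0 X1) (d02 : Disjoint X0 X2) (d03 : Disjoint X0 X3) (d12 : Disjoint X1 X2)
    (d13 : Disjoint X1 X3) (d23 : Disjoint X2 X3)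
    (hC : ∀ R0 R1 R2 R3, C0 R0 → C1 R1 → C2 R2 → C3 R3 →
      Rl.Y4 (G.n e0) (G.n e1) (G.n e2) (G.n e3) R0 R1 R2 R3) :
    ∃ O, G.Abs0 (X0 ∪ X1 ∪ X2 ∪ X3) O ∅ (K0 ∪ K1 ∪ K2 ∪ K3) ∧
      G.par O = G.par (O0 ∩ G.ins X0) + G.par (O1 ∩ G.ins X1) + G.par (O2 ∩ G.ins X2) +
        G.par (O3 ∩ G.ins X3) + (G.n e0 + G.n e1 + G.n e2 + G.n e3) := by
  obtain ⟨k1, k2⟩ := run_abs (G := G) (n := 3) (Y := univ) (L := ∅) (X := Rl.y4_q X0 X1 X2 X3)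
    (O := Rl.y4_q O0 O1 O2 O3) (K := Rl.y4_q K0 K1 K2 K3) (C := Rl.y4_q C0 C1 C2 C3)
    (e := Rl.y4_q e0 e1 e2 e3) (fun _ _ => subset_univ _) (fun i hi j hj k => by
      interval_cases i <;> interval_cases j <;>
        first | exact absurd rfl k | assumption | exact Disjoint.symm (by assumption))
    (empty_subset _) (fun i hi => by interval_cases i <;> assumption) (by norm_num) rfl
    fun Rs h => hC _ _ _ _ (h 0 (by norm_num)) (h 1 (by norm_num)) (h 2 (by norm_num)) (h 3 le_rfl)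
  have a1 : bu 3 (Rl.y4_q X0 X1 X2 X3) = X0 ∪ X1 ∪ X2 ∪ X3 := Finset.ext fun x => by
    rw [mem_bu, Rl.y4_ex, mem_union, mem_union, mem_union]
    rfl
  have a2 : ku 3 (Rl.y4_q K0 K1 K2 K3) = K0 ∪ K1 ∪ K2 ∪ K3 := Set.ext fun x => Rl.y4_ex
  simp only [sum_range_succ, sum_range_zero, zero_add] at k2
  exact ⟨_, a1 ▸ a2 ▸ k1, k2⟩

end SG

end Pool.Agent.Work.MP_8c679b_co
end

-- merged part: Pool.Agent.Work.MP_8c679b_co.A3.YH
section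
/-!
Heads of chains: passes of both signs, rings through a balanced initial part, crosswise passes.
-/

set_option autoImplicit false

namespace Pool.Agent.Work.MP_8c679b_co

open Finset

namespace SG

variable {V E : Type} [Fintype V] [DecidableEq V] [DecidableEq E] {G : SG V E}
  {T B N S A X X0 X1 : Finset V} {a b c d u w : E} {O : Finset E} {C : Rl → Prop}

/-- The tolerance vertex can be moved into the last piece of the head.
HINT: `hd_cov`: a side inside `X1` that contains a vertex of `X0` contains `X1 \ X0`. -/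
theorem yh_kv (hc : G.Cub) (hT : G.HT T) (hN : N ⊆ T) (hq : G.Q4 N a b c d)
    (h : G.Hd N a b X0 X1) {v : V} (hv : v ∈ X1) : ∃ v' ∈ X1 \ X0, G.Kv X1 v' ⊆ G.Kv X1 v := by
  by_cases h0 : v ∈ X0
  · obtain ⟨k, k1, -⟩ := h.str hc hT hN hq
    obtain ⟨v', h1, h2⟩ := exists_of_ssubset k
    refine ⟨v', mem_sdiff.2 ⟨h1, h2⟩, ?_⟩
    rintro _ ⟨Z, z1, z2, z3, rfl⟩
    refine ⟨Z, z1, z2, fun z4 => ?_, rfl⟩
    rcases hd_cov hc hT hN hq h (z1.trans k1) z2 with r | r | r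
    exacts [(mem_sdiff.1 (r z4)).2 h0, z3 (r (mem_sdiff.2 ⟨h1, h2⟩)), disjoint_left.1 r z4 hv]
  · exact ⟨v, mem_sdiff.2 ⟨hv, h0⟩, Set.Subset.rfl⟩

theorem yh_sub {K K' : Set (Finset E)} {L : Finset E} (h : G.Pas0 X O a b L K C) (hK : K' ⊆ K) :
    G.Pas0 X O a b L K' C :=
  h.cov fun t ht => Or.inl ⟨t, hK ht, Subset.rfl⟩

/-- A pass of sign and parity `s` on a split inside `A`.
HINT: `exists_head`; `X1 ⊆ A` by `Hd.min`.  If `Hs a b X0 X1 s`: `hd_real`, `yh_kv`, `hd_cov`,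
`P.mt`, `kv_sub`.  Otherwise `s` is the sign of the balanced part: `bp` on `X0`, the tolerance
vertex is `ie X0 x` for a link `x` (`cross_link`). -/
theorem yh_head (hc : G.Cub) (hT : G.HT T) (hB : B ⊆ T) (hq : G.Q4 B a b c d) (hI : G.IHd B)
    (h : G.Sp B a b A) (hu : ¬ G.Bal (G.ins A)) (s : ZMod 2) :
    ∃ X ⊆ A, G.Sp B a b X ∧ ∃ O, ∃ v ∈ X, G.par (O ∩ G.ins X) = s ∧
      G.Pas0 X O a b ∅ (G.Kv X v) (Rl.Mt (s + 1)) ∧
      ∀ S ⊆ B, G.US S → v ∉ S → S ⊆ X ∨ S ⊆ B \ X := by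
  obtain ⟨X0, X1, hd⟩ := exists_head hc hT hB ⟨hq.card, fun k => hu (k.mono (ins_mono h.1))⟩ hq
  have h1 := hd.min A h hu
  have h2 : G.Sp B a b X1 := hd.sp.resolve_left fun k => (Spl_ss h).2 (k ▸ h1)
  have tol : ∀ v ∈ X1 \ X0, ∀ S ⊆ B, G.US S → v ∉ S → S ⊆ X1 ∨ S ⊆ B \ X1 :=
    fun v hv S s1 s2 s3 => by
      rcases hd_cov hc hT hB hq hd s1 s2 with r | r | r
      exacts [Or.inl (r.trans sdiff_subset), absurd (r hv) s3,
        Or.inr (subset_sdiff.2 ⟨s1, r⟩)]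
  by_cases hs : G.Hs a b X0 X1 s
  · refine ⟨X1, h1, h2, ?_⟩
    rcases hd_real hc hT hB hq hI hd hs with ⟨O, o1, o2⟩ | k
    · obtain ⟨v, v1, v2⟩ := exists_of_ssubset (hd.str hc hT hB hq).1
      exact ⟨O, v, v1, o1, (yh_sub o2 kv_sub).imp fun _ r => r.mt, tol v (mem_sdiff.2 ⟨v1, v2⟩)⟩
    · obtain ⟨O, v, v1, o1, o2⟩ := k s
      obtain ⟨v', v2, v3⟩ := yh_kv hc hT hB hq hd v1
      exact ⟨O, v', (mem_sdiff.1 v2).1, o1, yh_sub o2 v3, tol v' v2⟩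
  · simp only [Hs, not_forall] at hs
    obtain ⟨h0, -, p, hp, hs⟩ := hs
    obtain ⟨sp, hb, -⟩ := hd.pc.resolve_left fun k => h0 k.1
    have h3 := h2.trans sp
    obtain ⟨-, -, -, -, -, -, hv, -, -, -, -, -, x, y, hx, -⟩ := h3.str hc hT hB hq
    obtain ⟨O, o1, o2⟩ := bp hc hT (h3.1.trans hB) a b x y hx hv p hp
    have e : p (G.ie X0 a) + p (G.ie X0 b) = s := by
      revert hs
      generalize p (G.ie X0 a) + p (G.ie X0 b) = r
      revert r s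
      decide
    rw [e] at o1 o2
    refine ⟨X0, sp.1.trans h1, h3, O, G.ie X0 x, Spl_ie hx.mem.2.2.1, o1,
      (yh_sub o2 (kv_sub.trans (kus_bal hb).subset)).imp fun _ r => r.mt, fun S s1 s2 s3 => ?_⟩
    by_contra k
    rw [not_or] at k
    exact s3 (cross_link hc hT hB hq h3 hx s1 s2 k.1 fun r => k.2 (subset_sdiff.2 ⟨s1, r⟩)).2.2

variable (G) in
/-- a complete absorption with all leaving edges dead -/
def Yr (X : Finset V) (K : Set (Finset E)) (ε : ZMod 2) : Prop :=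
  ∃ O, G.par O = ε ∧ G.Abs0 X O ∅ K

/-- The ring through the two links between the balanced part and the last piece of a head.
HINT: `Q4 X0 a b x y`; `bp` on `X0` from `x` to `y` (`Q4.flip`, `Sp.link`) has sign and parity
`p x + p y`; the piece `Y = X1 \ X0` is passed from `y` to `x` with sign
`σ = p x + p y + n x + n y + 1`: `bp` and `sgn` if `Y` is balanced, else `ER` from `hI` and `PSN`
from `kb`.  `close_two` with `y2_mt`; targets by `Sp.cov1` (the links `u, w` of `X1` are off `O`);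
`ch_last` for the tolerance vertex. -/
theorem yh_ring (hc : G.Cub) (hT : G.HT T) (hN : N ⊆ T) (hq : G.Q4 N a b c d) (hI : G.IHd N)
    (h : G.Hd N a b X0 X1) (h0 : X0 ≠ ∅) (hu : G.Q4 X1 a b u w) :
    (∃ v ∈ X1, ∀ Z ⊆ X1, (G.cut Z).card = 4 → u ∈ G.cut Z → w ∈ G.cut Z → v ∈ Z) ∧
    (G.Yr X1 (G.Kus X1) 1 ∨ ((∃ ε, G.Yr X1 (G.Kus X1) ε) ∧ ∀ ε, ∃ v ∈ X1,
      (∀ Z ⊆ X1, (G.cut Z).card = 4 → u ∈ G.cut Z → w ∈ G.cut Z → v ∈ Z) ∧
      G.Yr X1 (G.Kv X1 v) ε)) := by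
  obtain ⟨-, hXN, -⟩ := h.str hc hT hN hq
  have hX := hXN.trans hN
  obtain ⟨sp, hb, nc⟩ := h.pc.resolve_left fun k => h0 k.1
  obtain ⟨-, -, -, -, -, -, -, -, -, -, -, -, x, y, hx, -⟩ := sp.str hc hT hX hu
  obtain ⟨h4, -, -, l0, l1, -, l2⟩ := sp.link hc hT hX hu hx
  have hn := nc x y hx
  have hY : X1 \ X0 ⊆ T := sdiff_subset.trans hX
  have tol : ∀ v ∈ X1 \ X0, ∀ Z ⊆ X1, (G.cut Z).card = 4 → u ∈ G.cut Z → w ∈ G.cut Z → v ∈ Z :=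
    fun v hv Z z1 z2 z3 z4 =>
      ch_last hT hX sdiff_subset h4 hn hu.mem.2.2.1 hu.mem.2.2.2 z1 z2 z3 z4 hv
  obtain ⟨p, hp⟩ := id hb
  obtain ⟨O1, o1, o2⟩ := bp hc hT (sp.1.trans hX) x y a b hx.flip l0 p hp
  obtain ⟨σ, hσ⟩ : ∃ σ, σ = p (G.ie X0 x) + p (G.ie X0 y) + (G.n x + G.n y) + 1 := ⟨_, rfl⟩
  have ring : ∀ (O2 : Finset E) (K K' : Set (Finset E)),
      G.Pas0 (X1 \ X0) O2 x y ∅ K (Rl.Mt (σ + 1)) →
      (∀ t ∈ K', (∃ t' ∈ K, t' ⊆ t) ∨ u ∈ t) →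
      G.Yr X1 K' (G.par (O2 ∩ G.ins (X1 \ X0)) + σ + 1) := fun O2 K K' k hK => by
    obtain ⟨r1, r2⟩ := close_two (Y := X1) o2 (k.symm fun _ r => r.swap) disjoint_sdiff
      (empty_subset _) sp.1 sdiff_subset fun R1 R2 r1 r2 => Rl.y2_mt r1 r2 (by
        rw [hσ, add_assoc, z2_add_self, add_zero])
    rw [union_sdiff_of_subset sp.1] at r1
    refine ⟨_, ?_, r1.cov fun t ht => (hK t ht).imp (fun ⟨t', k1, k2⟩ => ⟨t', Or.inr k1, k2⟩)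
      fun k1 => ⟨u, k1, cut_sub_tch hu.mem.2.2.1, r1.not_mem (not_ins_of_cut hu.mem.2.2.1)⟩⟩
    rw [r2, o1, hσ]
    linear_combination (-1 : ZMod 2) * TY3_two
  have c1 : ∀ t ∈ G.Kus X1, (∃ t' ∈ G.Kus (X1 \ X0), t' ⊆ t) ∨ u ∈ t := fun t ht =>
    (sp.cov1 hc hT hX hu hx hb hn t ht).imp (fun k => ⟨t, k, Subset.rfl⟩) And.left
  have real : G.Rc (X1 \ X0) x y σ → G.Yr X1 (G.Kus X1) 1 := fun ⟨O2, k1, k2⟩ => by
    have k := ring O2 _ _ (k2.imp fun _ r => r.mt) c1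
    rwa [k1, z2_add_self, zero_add] at k
  refine ⟨⟨_, (mem_sdiff.1 (Spl_ie h4.mem.1)).1, tol _ (Spl_ie h4.mem.1)⟩, ?_⟩
  by_cases hb' : G.Bal (G.ins (X1 \ X0))
  · obtain ⟨q, hq'⟩ := id hb'
    obtain ⟨O2, k1, k2⟩ := bp hc hT hY x y u w h4 l1 q hq'
    have e : q (G.ie (X1 \ X0) x) + q (G.ie (X1 \ X0) y) = σ := by
      linear_combination sgn sp.1 l2 h.us.2 hp hq' - hσ -
        (p (G.ie X0 x) + p (G.ie X0 y) + (G.n x + G.n y)) * TY3_two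
    rw [e] at k1 k2
    exact Or.inl (real ⟨O2, k1, (kus_bal hb').symm ▸ k2⟩)
  have hu' : G.US (X1 \ X0) := ⟨h4.card, hb'⟩
  refine ((hI _ (sdiff_subset.trans hXN) hu' x y u w h4 hn).1 σ).imp real fun k => ⟨?_, fun ε => ?_⟩
  · obtain ⟨O2, k2⟩ := (kb hc hT _ hY).2.2.2.2.1 hu' x y u w h4 hn σ
    exact ⟨_, ring O2 _ _ (k2.imp fun _ r => r.mt) c1⟩
  · obtain ⟨O2, v, v1, k1, k2⟩ := k (ε + σ + 1)
    have k3 := ring O2 _ (G.Kv X1 v) k2 (by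
      rintro _ ⟨Z, z1, z2, z3, rfl⟩
      rcases sp.f6 hc hT hX hu z1 z2 with r | r | r | ⟨X', k5, k6, -⟩
      · exact absurd (hb.mono (ins_mono r)) z2.2
      · exact Or.inl ⟨_, ⟨Z, r, z2, z3, rfl⟩, Subset.rfl⟩
      · exact Or.inr r.1
      · exact absurd (sp.sub hc hT hX hu hx k5 k6).1 (hn _))
    refine ⟨v, (mem_sdiff.1 v1).1, tol v v1, ?_⟩
    rwa [k1, show ε + σ + 1 + σ + 1 = ε by linear_combination (σ + 1) * TY3_two] at k3

/-- in a four-cycle one pair through `a` is diagonal.  HINT: else `ie N a` has four edges. -/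
theorem yh_qd (hc : G.Cub) (hT : G.HT T) (hN : N ⊆ T) (hq : G.Q4 N a b c d) (h4 : N.card = 4) :
    G.Qd N a b ∨ G.Qd N a c ∨ G.Qd N a d := by
  by_contra k
  simp only [Qd, h4, true_and, not_or, not_not] at k
  obtain ⟨⟨e1, m1, j1⟩, ⟨e2, m2, j2⟩, e3, m3, j3⟩ := k
  obtain ⟨ha, hb, hc', hd⟩ := hq.mem
  have dv : ∀ e ∈ G.cut N, ∀ f ∈ G.cut N, e ≠ f → G.ie N e ≠ G.ie N f := fun e he f hf x =>
    hT.f2 hc hN hq.card (by omega) he hf x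
  obtain ⟨-, q1, q2, q3, q4, q5, q6⟩ := hq
  have ia := ie_mem (cut_sub_tch ha)
  have key : ∀ e ∈ G.A, ∀ f ∈ G.cut N, a ≠ f → G.Je e (G.ie N a) (G.ie N f) →
      e ∈ G.cut {G.ie N a} ∧ a ≠ e := fun e he f hf x j =>
    ⟨(Node_cut he j (mem_singleton_self _) (by simpa using (dv a ha f hf x).symm)).1,
      fun r => not_ins_of_cut ha (r ▸ Cut_je_ins he j ia (ie_mem (cut_sub_tch hf)))⟩
  obtain ⟨c1, n1⟩ := key e1 m1 b hb q1 j1
  obtain ⟨c2, n2⟩ := key e2 m2 c hc' q2 j2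
  obtain ⟨c3, n3⟩ := key e3 m3 d hd q3 j3
  have n4 : e1 ≠ e2 := Cut_je_ne (Je.symm j1) j2 (dv b hb a ha q1.symm) (dv b hb c hc' q4)
  have n5 : e1 ≠ e3 := Cut_je_ne (Je.symm j1) j3 (dv b hb a ha q1.symm) (dv b hb d hd q5)
  have n6 : e2 ≠ e3 := Cut_je_ne (Je.symm j2) j3 (dv c hc' a ha q2.symm) (dv c hc' d hd q6)
  have := card_le_card (show {a, e1, e2, e3} ⊆ G.cut {G.ie N a} by
    simp [insert_subset_iff, c1, c2, c3, (mem_inter.1 (Cut_ie ha rfl)).1])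
  rw [(hT.vtx hc (hN ia)).1, card_insert_of_notMem (by simp [n1, n2, n3]),
    card_insert_of_notMem (by simp [n4, n5]), card_pair n6] at this
  omega

theorem yh_four_a (hc : G.Cub) (hT : G.HT T) (hN : N ⊆ T) (hu : G.US N) (hq : G.Q4 N a b c d)
    (hd : G.Qd N a c) : ∃ O σ, G.Pas0 N O a b ∅ (G.Kus N) (Rl.U σ) := by
  obtain ⟨u, z, v, w, e1, e2, e3, e4, ia, ic, ib, id, d1, d2, d3, d4, d5, d6, hS, hi, j1, j2, j3,
    j4, hn⟩ := Node_q hc hT hN hu hq.mid hd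
  obtain ⟨m1, m2, m3, m4⟩ : e1 ∈ G.A ∧ e2 ∈ G.A ∧ e3 ∈ G.A ∧ e4 ∈ G.A := by
    simpa [hi, insert_subset_iff] using ins_sub_A (G := G) (W := N)
  have hp := KBp_ext (KBp_ext (Node_edge m4 j4.symm) m3 j3.symm (by simp [d1.symm, d5])) m2 j2.symm
    (by simp [d4.symm, d2.symm, d6])
  rw [show insert v (insert z {u, w}) = N by
    rw [hS, insert_comm v, insert_comm v, insert_comm z], ← ia, ← ib] at hp
  obtain ⟨q, p1, p2, p3, p4⟩ : ∃ q : V → ZMod 2,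
      q u = G.n e4 + G.n e3 ∧ q v = G.n e2 ∧ q w = G.n e3 ∧ q z = 0 :=
    ⟨fun t => if t = u then G.n e4 + G.n e3 else if t = v then G.n e2 else
      if t = w then G.n e3 else 0, by simp, by simp [d2.symm], by simp [d3.symm, d6.symm],
      by simp [d1.symm, d4, d5]⟩
  have s1 : G.sw q e1 = 1 := by rw [Cut_sw j1, p1, p2, ← hn]; ring
  have s2 : G.sw q e2 = 0 := by rw [Cut_sw j2, p2, p4, z2_add_self, add_zero]
  have s3 : G.sw q e3 = 0 := by rw [Cut_sw j3, p3, p4, add_zero, z2_add_self]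
  have s4 : G.sw q e4 = 0 := by rw [Cut_sw j4, p3, p1, z2_add_self]
  exact ⟨_, _, yh_sub (TY2b_cov hc hT hN hq hd.1 (pure_u (p := q) hp hq.mem.1 hq.mem.2.1 hq.2.1
    (by simp [s2, s3, s4]) (Or.inl ⟨by simp [hi], s1⟩))) fun t ht => ⟨ht, Or.inl rfl⟩⟩



/-- The long pass of an odd four-cycle between adjacent terminals.
HINT: `yh_qd`, `Node_q` for the diagonal pair, the path with three edges (`Node_edge`, `KBp_ext`),
`pure_u` with the fourth edge as chord, `TY2b_cov` or `HT.kus4`. -/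
theorem yh_four (hc : G.Cub) (hT : G.HT T) (hN : N ⊆ T) (hu : G.US N) (hq : G.Q4 N a b c d)
    (h4 : N.card = 4) (hd : ¬ G.Qd N a b) : ∃ O σ, G.Pas0 N O a b ∅ (G.Kus N) (Rl.U σ) := by
  rcases yh_qd hc hT hN hq h4 with k | k | k
  exacts [absurd k hd, yh_four_a hc hT hN hu hq k, yh_four_a hc hT hN hu hq.swap2 k]

/-- crosswise passes of a large chain.  HINT: `cross_nc`, `rpn_fpn`, `kb`. -/
theorem yh_big (hc : G.Cub) (hT : G.HT T) (hN : N ⊆ T) (hu : G.US N) (hq : G.Q4 N a b c d)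
    (h : G.Sp N a b X) (h4 : N.card ≠ 4) : (∃ O, G.Pas0 N O a c ∅ (G.Kus N) Rl.Gd) ∧
      ∀ σ, ∃ O, G.Pas0 N O a c ∅ (G.Kus N) (Rl.P σ) := by
  have k := (cross_nc hc hT hN hq h h4).1
  exact ⟨(rpn_fpn hc hT hN).1 hu a c b d hq.mid k fun r => h4 r.1,
    (kb hc hT N hN).2.2.2.2.1 hu a c b d hq.mid k⟩

/-- passes of both parities.  HINT: `par_all`; in case `E1` the targets `Kp N X0 c d` are empty. -/
theorem yh_fp (hc : G.Cub) (hT : G.HT T) (hN : N ⊆ T) (hu : G.US N) (hq : G.Q4 N a b c d)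
    (ε : ZMod 2) : ∃ X O, G.Rg N X c d ∧ G.par (O ∩ G.ins X) = ε ∧
      G.Pas0 X O a b ∅ (G.Kp N X c d) Rl.PX := by
  rcases (par_all hc hT N hN).2 hu a b c d hq with ⟨X, h1, h2⟩ |
    ⟨X, h1, h2, h3, π, ⟨O, o1, o2⟩, ⟨O', o3, o4⟩, -⟩
  · obtain ⟨O, o⟩ := h2 ε
    exact ⟨X, O, h1, o⟩
  · rcases (by decide : ∀ s t : ZMod 2, s = t ∨ s = t + 1) ε π with rfl | rfl
    · exact ⟨X, O', h2, o3, yh_sub o4 fun t ht =>
        ht.2.elim h1 fun r => r.elim (fun r => r (h3 t ht.1).1) fun r => r (h3 t ht.1).2⟩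
    · exact ⟨N, O, Or.inl rfl, o1, yh_sub o2 fun t ht => ht.1⟩

/-- A crosswise pass hits all sides that reach into the split.
HINT: for `Z` not inside `X` use `ch_link`: `cut (Z ∩ X) = {u, w, x, y}`, `St.res` and
`St.card_even`: `u ∈ O`, `w ∉ O`, so one of `x, y` is off `O`; it leaves `Z`. -/
theorem yh_cross (hc : G.Cub) (hT : G.HT T) (hS : S ⊆ T) (hq : G.Q4 S a b c d)
    (h : G.Sp S a b X) (hu : G.Q4 X a b u w) (hp : G.Pas0 X O a u ∅ (G.Kus X) C) :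
    G.Pas0 X O a u ∅
      {t | (∃ Z ⊆ S, G.US Z ∧ ¬ Z ⊆ S \ X ∧ t = G.cut Z) ∨ w ∈ t} C := by
  obtain ⟨-, -, o1, o2, o3⟩ := hp.cut
  have hw : w ∉ O := fun k => (o3 w hu.mem.2.2.2 k).elim hu.2.2.2.1.symm hu.2.2.2.2.2.2.symm
  refine hp.cov ?_
  rintro _ (⟨Z, z1, z2, z3, rfl⟩ | ht)
  · by_cases z4 : Z ⊆ X
    · exact Or.inl ⟨_, ⟨Z, z4, z2, rfl⟩, Subset.rfl⟩
    obtain ⟨-, -, l1, -, l2⟩ := ch_link hc hT hS hq h hu z1 z2 z4 z3
    refine Or.inr (by_contra fun k => ?_)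
    have k1 : ∀ e ∈ G.cut (Z ∩ X), e ∈ G.cut Z → e ∈ O := fun e he r => by_contra fun r' =>
      k ⟨e, r, tch_mono inter_subset_right (cut_sub_tch he), r'⟩
    have k2 : O ∩ G.cut (Z ∩ X) = (G.cut (Z ∩ X)).erase w := by
      ext e
      rw [mem_inter, mem_erase]
      refine and_congr_left fun he => ⟨fun r r' => hw (r' ▸ r), fun r => ?_⟩
      refine (mem_union.1 (cut_inter_sub he)).elim (k1 e he) fun r' => ?_
      rw [hu.1] at r'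
      simp only [mem_insert, mem_singleton] at r'
      rcases r' with rfl | rfl | rfl | rfl
      exacts [o1, k1 e he (cut_of_sub z1 hq.mem.2.1
        (tch_mono inter_subset_left (cut_sub_tch he))).1, o2, absurd rfl r]
    have k3 := (hp.2.1.res (inter_subset_right (s₁ := Z))).card_even
    rw [k2, card_erase_of_mem l2, l1] at k3
    exact absurd k3 (by decide)
  · exact Or.inr ⟨w, ht, cut_sub_tch hu.mem.2.2.2, hw⟩

end SG

end Pool.Agent.Work.MP_8c679b_co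
end

-- merged part: Pool.Agent.Work.MP_8c679b_co.A3.YB
section
/-!
The chain that fills a three-side without one terminal.
-/

set_option autoImplicit false

namespace Pool.Agent.Work.MP_8c679b_co

open Finset

namespace SG

variable {V E : Type} [Fintype V] [DecidableEq V] [DecidableEq E] {G : SG V E}
  {T X X' N N' Y : Finset V} {t v : V} {g e g' e' z u w u' w' : E}

variable (G) in
/-- `T` without the terminal `t` is a chain; its ends `X, X'` are balanced, contain the other two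
terminals, and lie in disjoint unbalanced splits `N, N'` -/
structure Ybd (T : Finset V) (t : V) (g e g' e' z : E) (X X' N N' : Finset V) : Prop where
  ht : t ∈ T
  q3 : G.Q3 {t} g g' z
  hz : z ∈ G.cut T
  he : e ∈ G.cut T
  he' : e' ∈ G.cut T
  q4 : G.Q4 (T \ {t}) g e g' e'
  sx : G.Sp (T \ {t}) g e X
  sx' : G.Sp (T \ {t}) g' e' X'
  bx : G.Bal (G.ins X)
  bx' : G.Bal (G.ins X')
  sn : G.Sp (T \ {t}) g e N
  sn' : G.Sp (T \ {t}) g' e' N'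
  un : ¬ G.Bal (G.ins N)
  un' : ¬ G.Bal (G.ins N')
  dj : Disjoint N N'

theorem Ybd.symm (h : G.Ybd T t g e g' e' z X X' N N') : G.Ybd T t g' e' g e z X' X N' N := by
  obtain ⟨k, k1, k2, k3⟩ := h.q3
  exact ⟨h.ht, ⟨by rw [k, insert_comm], k1.symm, k3, k2⟩, h.hz, h.he', h.he, h.q4.flip, h.sx',
    h.sx, h.bx', h.bx, h.sn', h.sn, h.un', h.un, h.dj.symm⟩

/-- HINT: `Sp.nested`, `Sp.of_sub`. -/
theorem Ybd.sp (hc : G.Cub) (hT : G.T3 T) (h : G.Ybd T t g e g' e' z X X' N N') :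
    G.Sp N g e X := by
  refine h.sn.of_sub h.sx ?_ hT.1 sdiff_subset h.q4.2.1
  rcases h.sx.nested hc hT.1 sdiff_subset h.q4 h.sn with k | k
  · exact k.ssubset_of_ne fun r => h.un (r ▸ h.bx)
  · exact absurd (h.bx.mono (ins_mono k)) h.un

/-- the terminals.  HINT: `cut T = {z, e, e'}`. -/
theorem Ybd.ex (hT : G.T3 T) (h : G.Ybd T t g e g' e' z X X' N N') :
    G.Ex T t ∧ ∀ s, G.Ex T s → s = t ∨ s ∈ N ∨ s ∈ N' := by
  have hz : z ∈ G.cut {t} := (AX3_mem h.q3).2.2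
  have k : ∀ f ∈ G.cut (T \ {t}), f ∈ G.cut T → f ≠ z := fun f h1 h2 r =>
    (Spl_sd (singleton_subset_iff.2 h.ht) f).1 h1 (iff_of_true h2 (r ▸ hz))
  have k1 : ({z, e, e'} : Finset E) = G.cut T := eq_of_subset_of_card_le
    (insert_subset h.hz (insert_subset h.he (singleton_subset_iff.2 h.he'))) (by
      rw [hT.2.1, card_insert_of_notMem, card_pair h.q4.2.2.2.2.2.1]
      simp only [mem_insert, mem_singleton, not_or]
      exact ⟨(k e h.q4.mem.2.1 h.he).symm, (k e' h.q4.mem.2.2.2 h.he').symm⟩)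
  have k2 : ∀ {f Z s}, Z ⊆ T → f ∈ G.cut T → f ∈ G.cut Z → s ∈ T → G.At f s → s ∈ Z :=
    fun h1 h2 h3 h4 h5 => by
      rw [eq_ie h2 h4 h5, ← (cut_of_sub h1 h2 (cut_sub_tch h3)).2]
      exact Spl_ie h3
  refine ⟨⟨h.ht, z, h.hz, mem_singleton.1 (Spl_ie hz) ▸ ie_at⟩, fun s ⟨s1, f, s2, s3⟩ => ?_⟩
  have s4 := s2
  rw [← k1, mem_insert, mem_insert, mem_singleton] at s4
  rcases s4 with rfl | rfl | rfl
  · exact Or.inl (mem_singleton.1 (k2 (singleton_subset_iff.2 h.ht) s2 hz s1 s3))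
  · exact Or.inr (Or.inl (k2 (h.sn.1.trans sdiff_subset) s2 (Spl_ab h.sn).2.1 s1 s3))
  · exact Or.inr (Or.inr (k2 (h.sn'.1.trans sdiff_subset) s2 (Spl_ab h.sn').2.1 s1 s3))

theorem yb_cut {O L : Finset E} {K : Set (Finset E)} (h : G.Abs0 X O L K) :
    G.Abs0 X O L (K ∪ {s | ∃ f ∈ s, f ∈ G.cut X}) :=
  h.cov fun s hs => hs.imp (fun k => ⟨s, k, Subset.rfl⟩) fun ⟨f, k1, k2⟩ =>
    ⟨f, k1, cut_sub_tch k2, h.not_mem (not_ins_of_cut k2)⟩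

theorem Ybd.sub (hT : G.T3 T) (h : G.Ybd T t g e g' e' z X X' N N') {S : Finset V}
    (hS : G.KA T S) : S ⊆ T \ {t} :=
  subset_sdiff.2 ⟨hS.1, disjoint_singleton_right.2 fun k => hS.nt k (h.ex hT).1⟩

/-- Two rings and a middle part.
HINT: `Abs0.seq`: first `{t}` (`vtx_abs`, `Abs0.neg` with the dead edge `z`), then the middle part,
then `N`, `N'`; targets by `Ch_cov` (a dangerous side avoids `t`); `rall_kd`. -/
theorem yb_two (hc : G.Cub) (hT : G.T3 T) (h : G.Ybd T t g e g' e' z X X' N N')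
    (hu : G.Q4 N g e u w) (hu' : G.Q4 N' g' e' u' w') (hM : G.ChM ((T \ {t}) \ (N ∪ N')) u' w')
    (hv : ∀ Z ⊆ N, (G.cut Z).card = 4 → u ∈ G.cut Z → w ∈ G.cut Z → v ∈ Z) {ε ε' : ZMod 2}
    (h1 : G.Yr N (G.Kv N v) ε) (h2 : G.Yr N' (G.Kus N') ε') : G.Rall T (ε + ε') 1 := by
  obtain ⟨O1, p1, a1⟩ := h1
  obtain ⟨O2, p2, a2⟩ := h2
  obtain ⟨O3, p3, a3⟩ := hM
  have hN := h.sn.1.trans sdiff_subset
  have hN' := h.sn'.1.trans sdiff_subset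
  obtain ⟨r1, r2⟩ := Abs0.seq (L := ∅) (yb_cut a1) (yb_cut a2) h.dj (fun _ k => by simp at k)
    (fun _ k => by simp at k) fun _ k => by simp at k
  have ht : t ∈ T \ (N ∪ N') := mem_sdiff.2 ⟨h.ht, fun k => (mem_union.1 k).elim
    (fun k => (mem_sdiff.1 (h.sn.1 k)).2 (mem_singleton_self t))
    fun k => (mem_sdiff.1 (h.sn'.1 k)).2 (mem_singleton_self t)⟩
  have e1 : (T \ (N ∪ N')) \ {t} = (T \ {t}) \ (N ∪ N') := sdiff_right_comm _ _ _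
  obtain ⟨v1, v2, -⟩ := hT.1.vtx hc h.ht
  have out : ∀ {f Z}, Z ⊆ N ∪ N' → f ∈ G.cut Z → f ∉ G.ins (T \ (N ∪ N')) := fun h1 h2 k => by
    obtain ⟨-, k1, k2⟩ := mem_ins.1 k
    exact (mem_cut.1 h2).2 (iff_of_false (fun r => (mem_sdiff.1 k1).2 (h1 r))
      fun r => (mem_sdiff.1 k2).2 (h1 r))
  obtain ⟨r3, r4⟩ := Abs0.join (singleton_subset_iff.2 ht) (by
    rw [card_le_one]
    suffices k : ∀ f ∈ G.crs (G.ins (T \ (N ∪ N'))) {t}, False from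
      fun f hf => (k f hf).elim
    intro f hf
    obtain ⟨f1, f2⟩ := mem_crs.1 hf
    have f3 : f ∈ G.cut {t} := mem_cut.2 ⟨ins_sub_A f1, f2⟩
    rw [h.q3.1, mem_insert, mem_insert, mem_singleton] at f3
    rcases f3 with rfl | rfl | rfl
    exacts [out subset_union_left hu.mem.1 f1, out subset_union_right hu'.mem.1 f1,
      not_ins_of_cut h.hz (ins_mono sdiff_subset f1)]) (vtx_abs v2 v1) (e1 ▸ a3)
  have k := fin_gd (v := v) hc hT (union_subset hN hN') r1 (fun s s' s1 s2 s3 s4 _ => by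
    have k : ∀ s, G.Ex T s → s ∈ T \ (N ∪ N') → s = t := fun s s1 s2 =>
      ((h.ex hT).2 s s1).resolve_right fun r => (mem_sdiff.1 s2).2 (mem_union.2 r)
    rw [k s s1 s3, k s' s2 s4]) r3 fun S s1 s2 => by
      rcases Ch_cov hc hT.1 sdiff_subset h.q4 h.sn h.sn' h.dj hu hu' hv _
        ⟨S, h.sub hT s1, s1.2.1, s2, rfl⟩ with ⟨s, (k | k) | k, k1⟩ | ⟨f, f1, f2, f3, f4, f5⟩
      · exact ⟨s, Or.inl (Or.inl (Or.inl k)), k1⟩
      · exact ⟨s, Or.inl (Or.inr (Or.inl k)), k1⟩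
      · exact ⟨s, Or.inr (Or.inr (e1 ▸ k)), k1⟩
      · refine ⟨_, Or.inl ?_, Subset.rfl⟩
        have k : f ∈ G.cut N ∨ f ∈ G.cut N' := by
          by_contra k
          obtain ⟨m0, m1, m2⟩ := mem_ins.1 f2
          have n : ∀ {Z}, f ∉ G.ins Z → f ∉ G.cut Z → G.s f ∉ Z ∧ G.t f ∉ Z := fun k1 k2 =>
            not_or.1 fun r => (mem_tch_iff.1 (mem_tch.2 ⟨m0, r⟩)).elim k1 k2
          obtain ⟨n1, n2⟩ := n f3 (not_or.1 k).1
          obtain ⟨n3, n4⟩ := n f4 (not_or.1 k).2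
          exact f5 (mem_ins.2 ⟨m0, mem_sdiff.2 ⟨m1, fun r => (mem_union.1 r).elim n1 n3⟩,
            mem_sdiff.2 ⟨m2, fun r => (mem_union.1 r).elim n2 n4⟩⟩)
        exact k.imp (fun k => Or.inr ⟨f, f1, k⟩) fun k => Or.inr ⟨f, f1, k⟩
  rwa [r4, r2, p1, p2, p3, par, sum_empty, add_zero, zero_add] at k

/-- A balanced middle part between two heads.
HINT: `Ybd.sp`, `hd_bal` give `X0 ≠ ∅`; `yh_ring` twice; `Ch_mid`, `Ch_m0`, `Ch_mb`; `yb_two` for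
`h` or `h.symm`. -/
theorem yb_bal (hc : G.Cub) (hT : G.T3 T) (hI : G.IHd T) (h : G.Ybd T t g e g' e' z X X' N N')
    {X0 X0' : Finset V} (h1 : G.Hd (T \ {t}) g e X0 N) (h2 : G.Hd (T \ {t}) g' e' X0' N')
    (hB : G.Bal (G.ins ((T \ {t}) \ (N ∪ N')))) : G.Rall T 0 1 := by
  have hS : T \ {t} ⊆ T := sdiff_subset
  have hI' : G.IHd (T \ {t}) := fun S hS' => hI S (hS'.trans hS)
  obtain ⟨-, -, -, -, -, -, -, -, -, -, -, -, u, w, hu, -⟩ := h.sn.str hc hT.1 hS h.q4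
  obtain ⟨-, -, -, -, -, -, -, -, -, -, -, -, u', w', hu', -⟩ := h.sn'.str hc hT.1 hS h.q4.flip
  obtain ⟨⟨v, -, hv⟩, r1⟩ := yh_ring hc hT.1 hS h.q4 hI' h1
    ((Spl_nonempty h.sx.2.1).mono (hd_bal hc hT.1 hS h.q4 h1 h.sx h.bx)).ne_empty hu
  obtain ⟨-, r2⟩ := yh_ring hc hT.1 hS h.q4.flip hI' h2
    ((Spl_nonempty h.sx'.2.1).mono (hd_bal hc hT.1 hS h.q4.flip h2 h.sx' h.bx')).ne_empty hu'
  have mid : ∀ {g e g' e' X X' N N' u w u' w'}, G.Ybd T t g e g' e' z X X' N N' →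
      G.Q4 N g e u w → G.Q4 N' g' e' u' w' → G.Bal (G.ins ((T \ {t}) \ (N ∪ N'))) →
      G.ChM ((T \ {t}) \ (N ∪ N')) u' w' := fun h hu hu' hB => by
    obtain ⟨k, -, k1 | ⟨-, k1, k2⟩⟩ := Ch_mid hc hT.1 hS h.q4 h.sn h.sn' h.dj hu hu'
    · rw [k, k1, sdiff_self]
      exact Ch_m0
    · exact Ch_mb hc hT.1 (sdiff_subset.trans hS) k1 k2 hB
  have m1 := mid h hu hu' hB
  have m2 := mid h.symm hu' hu (union_comm N N' ▸ hB)
  rcases r2 with r2 | ⟨⟨ε', r2⟩, r4⟩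
  · rcases r1 with ⟨O, o1, o2⟩ | ⟨-, r3⟩
    · exact yb_two hc hT h hu hu' m1 hv
        ⟨O, o1, o2.cov fun s hs => Or.inl ⟨s, kv_sub hs, Subset.rfl⟩⟩ r2
    · obtain ⟨v', -, k1, k2⟩ := r3 1
      exact yb_two hc hT h hu hu' m1 k1 k2 r2
  · obtain ⟨ε, r⟩ : ∃ ε, G.Yr N (G.Kus N) ε := r1.elim (fun k => ⟨1, k⟩) And.left
    obtain ⟨v', -, k1, k2⟩ := r4 ε
    exact z2_add_self ε ▸ yb_two hc hT h.symm hu' hu m2 k1 k2 r

/-- One ring through `t`, `N`, the middle part and `N'`.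
HINT: `vtx_p` for `{t}` from `g'` to `g`; `yh_cross` for `N` and for `N'` (use `Pas0.symm` twice);
`y_ring4`; the rest is empty or a rung without terminal (`HT.abs_bal`, `Ybd.ex`); `fin_gd`. -/
theorem yb_all (hc : G.Cub) (hT : G.T3 T) (h : G.Ybd T t g e g' e' z X X' N N')
    (hu : G.Q4 N g e u w) (hu' : G.Q4 N' g' e' u' w')
    (hq : G.Q4 ((T \ {t}) \ (N ∪ N')) u u' w w') (hM : G.US ((T \ {t}) \ (N ∪ N')))
    {O1 O2 O3 : Finset E} {K : Set (Finset E)} {C1 C2 C3 : Rl → Prop}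
    (h1 : G.Pas0 N O1 g u ∅ (G.Kus N) C1) (hr : G.Rg ((T \ {t}) \ (N ∪ N')) Y w w')
    (h2 : G.Pas0 Y O2 u u' ∅ K C2)
    (hK : ∀ S ⊆ (T \ {t}) \ (N ∪ N'), G.US S → v ∉ S → G.cut S ∈ K ∨ w ∈ G.cut S)
    (h3 : G.Pas0 N' O3 u' g' ∅ (G.Kus N') C3)
    (hC : ∀ R0 R1 R2 R3, R0.P 0 → C1 R1 → C2 R2 → C3 R3 →
      Rl.Y4 (G.n g') (G.n g) (G.n u) (G.n u') R0 R1 R2 R3) :
    G.Rall T (G.par (O1 ∩ G.ins N) + G.par (O2 ∩ G.ins Y) + G.par (O3 ∩ G.ins N') +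
      (G.n g' + G.n g + G.n u + G.n u')) 1 := by
  have hS : T \ {t} ⊆ T := sdiff_subset
  obtain ⟨-, v2, -⟩ := hT.1.vtx hc h.ht
  have sy : ∀ {Z O K a b C}, G.Pas0 Z O a b ∅ K C →
      G.Pas0 Z O b a ∅ K fun R => C fun x y => R y x := fun k => k.symm fun _ r => r
  have k1 := yh_cross hc hT.1 hS h.q4 h.sn hu h1
  have k3 := sy (yh_cross hc hT.1 hS h.q4.flip h.sn' hu' (sy h3))
  have hY := hr.sub
  have d : ∀ {Z}, Z ⊆ T \ {t} → Disjoint {t} Z := fun k => disjoint_sdiff.mono_right k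
  have d1 : Disjoint (N ∪ N') Y := disjoint_sdiff.mono_right hY
  obtain ⟨O, r1, r2⟩ := y_ring4 (vtx_p (L := ∅) v2 h.symm.q3) k1 h2 k3 (d h.sn.1)
    (d (hY.trans sdiff_subset)) (d h.sn'.1) (d1.mono_left subset_union_left) h.dj
    (d1.mono_left subset_union_right).symm fun R0 R1 R2 R3 c0 => hC R0 R1 R2 R3 c0.1
  have e1 : T \ ({t} ∪ N ∪ Y ∪ N') = ((T \ {t}) \ (N ∪ N')) \ Y := by
    ext x
    simp only [mem_sdiff, mem_union]
    (clear * -; tauto)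
  have hb : G.Bal (G.ins (((T \ {t}) \ (N ∪ N')) \ Y)) := by
    rcases hr with k | ⟨-, k, k4, k5⟩
    · rw [k, sdiff_self]
      exact ⟨0, fun f hf => by simp [mem_ins] at hf⟩
    · rw [k]
      exact (hT.1.rung' hc (hS (mem_sdiff.1 (Spl_ie hq.mem.2.2.1)).1)
        (hS (mem_sdiff.1 (Spl_ie hq.mem.2.2.2)).1) k4 k5).2.1
  obtain ⟨O', o1, o2⟩ := hT.1.abs_bal (sdiff_subset.trans (sdiff_subset.trans hS)) hb
  have k := fin_gd (v := v) hc hT (union_subset (union_subset (union_subset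
      (singleton_subset_iff.2 h.ht) (h.sn.1.trans hS)) (hY.trans (sdiff_subset.trans hS)))
      (h.sn'.1.trans hS)) r1 (fun s s' s1 _ s3 _ _ => by
    refine absurd ((h.ex hT).2 s s1) ?_
    simp only [mem_sdiff, mem_union, mem_singleton] at s3
    (clear * - s3; tauto)) (e1 ▸ o2) fun S s1 s2 => by
      have s3 := h.sub hT s1
      refine ⟨_, Or.inl ?_, Subset.rfl⟩
      by_cases c1 : S ⊆ (T \ {t}) \ N
      · by_cases c2 : S ⊆ (T \ {t}) \ N'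
        · rcases hK S (subset_sdiff.2 ⟨s3, disjoint_union_right.2
            ⟨(subset_sdiff.1 c1).2, (subset_sdiff.1 c2).2⟩⟩) s1.2.1 s2 with r | r
          exacts [Or.inl (Or.inr r), Or.inl (Or.inl (Or.inr (Or.inr r)))]
        · exact Or.inr (Or.inl ⟨S, s3, s1.2.1, c2, rfl⟩)
      · exact Or.inl (Or.inl (Or.inr (Or.inl ⟨S, s3, s1.2.1, c1, rfl⟩)))
  rwa [o1, r2, v2, inter_empty, par, sum_empty, zero_add, zero_add] at k

/-- the links of the middle part.  HINT: `Ch_mid`. -/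
theorem yb_mid (hc : G.Cub) (hT : G.T3 T) (h : G.Ybd T t g e g' e' z X X' N N')
    (hu : G.Q4 N g e u w) (hu' : G.Q4 N' g' e' u' w')
    (hB : ¬ G.Bal (G.ins ((T \ {t}) \ (N ∪ N')))) :
    G.Q4 ((T \ {t}) \ (N ∪ N')) u u' w w' ∧ G.US ((T \ {t}) \ (N ∪ N')) := by
  obtain ⟨k, -, k1 | ⟨-, k1, -⟩⟩ := Ch_mid hc hT.1 sdiff_subset h.q4 h.sn h.sn' h.dj hu hu'
  · rw [k, k1, sdiff_self] at hB
    exact absurd ⟨0, fun f hf => by simp [mem_ins] at hf⟩ hB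
  · exact ⟨k1.flip.mid, k1.card, hB⟩

theorem yb_link (hc : G.Cub) (hT : G.T3 T) (h : G.Ybd T t g e g' e' z X X' N N') :
    ∃ u w, G.Q4 N g e u w ∧ ¬ G.Qd N g u := by
  obtain ⟨-, -, -, -, -, -, -, -, -, -, -, -, u, w, hu, -⟩ := h.sn.str hc hT.1 sdiff_subset h.q4
  by_cases k : G.Qd N g u
  · exact ⟨w, u, hu.swap2, (hT.1.qd_mid hc (h.sn.1.trans sdiff_subset) hu.mid.swap2 k).1⟩
  · exact ⟨u, w, hu, k⟩

theorem yb_kp {M : Finset V} : ∀ S ⊆ M, G.US S → v ∉ S → G.cut S ∈ G.Kp M Y w w' ∨ w ∈ G.cut S :=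
  fun S s1 s2 _ => or_iff_not_imp_right.2 fun k => ⟨⟨S, s1, s2, rfl⟩, Or.inr (Or.inl k)⟩

/-- Two four-cycles.  HINT: choose the links `u, u'` not diagonal (`HT.qd_mid`); `yh_four` twice,
`yh_fp`, `y4_uu`. -/
theorem yb_qq (hc : G.Cub) (hT : G.T3 T) (h : G.Ybd T t g e g' e' z X X' N N')
    (hB : ¬ G.Bal (G.ins ((T \ {t}) \ (N ∪ N')))) (h4 : N.card = 4) (h4' : N'.card = 4) :
    G.Rall T 0 1 := by
  obtain ⟨u, w, hu, k⟩ := yb_link hc hT h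
  obtain ⟨u', w', hu', k'⟩ := yb_link hc hT h.symm
  obtain ⟨hq, hM⟩ := yb_mid hc hT h hu hu' hB
  obtain ⟨O1, σ1, p1⟩ := yh_four hc hT.1 (h.sn.1.trans sdiff_subset) ⟨hu.card, h.un⟩ hu.mid h4 k
  obtain ⟨O3, σ3, p3⟩ := yh_four hc hT.1 (h.sn'.1.trans sdiff_subset) ⟨hu'.card, h.un'⟩
    hu'.mid.swap1 h4' fun r => k' r.symm
  obtain ⟨Y, O2, r1, r2, r3⟩ := yh_fp hc hT.1 (sdiff_subset.trans sdiff_subset) hM hq
    (G.par (O1 ∩ G.ins N) + G.par (O3 ∩ G.ins N') + (G.n g' + G.n g + G.n u + G.n u'))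
  have r := yb_all (v := t) hc hT h hu hu' hq hM p1 r1 r3 yb_kp p3
    fun _ _ _ _ c0 c1 c2 c3 => Rl.y4_uu c0 c1 c2.tt c3
  rwa [r2, show ∀ x y s : ZMod 2, x + (x + y + s) + y + s = 0 by decide] at r

/-- The part `N'` is not a four-cycle.
HINT: choose `u` such that `N` has a complete good pass and a complete permutation pass from `g` to
`u` (`yh_big`, or `yh_four` for the link that is not diagonal).  If the middle part `M` is a
four-cycle: `q_real`, `y4_gg`.  Else choose `u'` with `NC M u u'` (`cross_nc`) and use `ER M u u'`: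
two real passes close by `y4_gg`, the other alternative by `y4_mt` with the sign chosen at `N'`. -/
theorem yb_big (hc : G.Cub) (hT : G.T3 T) (hI : G.IHd T) (h : G.Ybd T t g e g' e' z X X' N N')
    (hB : ¬ G.Bal (G.ins ((T \ {t}) \ (N ∪ N')))) (h4' : N'.card ≠ 4) : G.Rall T 0 1 := by
  have hN := h.sn.1.trans sdiff_subset
  have hN' := h.sn'.1.trans sdiff_subset
  obtain ⟨u, w, hu, k⟩ := yb_link hc hT h
  obtain ⟨⟨O1, p1⟩, O1', σ1, p1'⟩ : (∃ O, G.Pas0 N O g u ∅ (G.Kus N) Rl.Gd) ∧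
      ∃ O σ, G.Pas0 N O g u ∅ (G.Kus N) (Rl.P σ) := by
    by_cases h4 : N.card = 4
    · obtain ⟨O, σ, r⟩ := yh_four hc hT.1 hN ⟨hu.card, h.un⟩ hu.mid h4 k
      exact ⟨⟨O, r.imp fun _ c => c.gd⟩, O, σ, r.imp fun _ c => c.p⟩
    · obtain ⟨r1, r2⟩ := yh_big hc hT.1 hN ⟨hu.card, h.un⟩ hu (h.sp hc hT) h4
      exact ⟨r1, (r2 0).imp fun _ c => ⟨0, c⟩⟩
  obtain ⟨M, hM⟩ : ∃ M, M = (T \ {t}) \ (N ∪ N') := ⟨_, rfl⟩
  have hMT : M ⊆ T := hM ▸ sdiff_subset.trans sdiff_subset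
  have z1 : ∀ x y s : ZMod 2, x + (x + y + s) + y + s = 0 := by decide
  have flex : ∀ u' w', G.Q4 N' g' e' u' w' → (∀ s, ∃ Y O, G.Rg M Y w w' ∧
      G.par (O ∩ G.ins Y) = s ∧ G.Pas0 Y O u u' ∅ (G.Kp M Y w w') (Rl.P s)) → G.Rall T 0 1 :=
    fun u' w' hu' r => by
      obtain ⟨hq, hu2⟩ := yb_mid hc hT h hu hu' hB
      obtain ⟨⟨O3, p3⟩, -⟩ := yh_big hc hT.1 hN' ⟨hu'.card, h.un'⟩ hu' (h.symm.sp hc hT) h4'
      obtain ⟨Y, O2, r1, r2, r3⟩ := r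
        (G.par (O1 ∩ G.ins N) + G.par (O3 ∩ G.ins N') + (G.n g' + G.n g + G.n u + G.n u'))
      subst hM
      have r := yb_all (v := t) hc hT h hu hu' hq hu2 p1 r1 r3 yb_kp (p3.symm fun _ c => c.swap)
        fun _ _ _ _ c0 c1 c2 c3 => Rl.y4_gg c0 c1 c2 c3
      rwa [r2, z1] at r
  have nc : ∀ u' w', G.Q4 N' g' e' u' w' → G.NC M u u' → G.Rall T 0 1 := fun u' w' hu' hn => by
    obtain ⟨hq, hu2⟩ := yb_mid hc hT h hu hu' hB
    rw [← hM] at hq hu2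
    have hE := (hI M hMT hu2 u u' w w' hq hn).1
    by_cases c : ∀ s, G.Rc M u u' s
    · refine flex u' w' hu' fun s => ?_
      obtain ⟨O, o1, o2⟩ := c s
      exact ⟨M, O, Or.inl rfl, o1, yh_sub o2 fun _ r => r.1⟩
    · obtain ⟨s, hs⟩ := not_forall.1 c
      obtain ⟨O3, p3⟩ := (yh_big hc hT.1 hN' ⟨hu'.card, h.un'⟩ hu' (h.symm.sp hc hT) h4').2
        (s + 1 + σ1 + (G.n g' + G.n g + G.n u + G.n u'))
      obtain ⟨O2, v, -, r2, r3⟩ := (hE s).resolve_left hs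
        (G.par (O1' ∩ G.ins N) + G.par (O3 ∩ G.ins N') + (G.n g' + G.n g + G.n u + G.n u'))
      subst hM
      have r := yb_all (v := v) hc hT h hu hu' hq hu2 p1' (Or.inl rfl) r3
        (fun S s1 s2 s3 => Or.inl ⟨S, s1, s2, s3, rfl⟩) (p3.symm fun _ c => c.swap)
        fun _ _ _ _ c0 c1 c2 c3 => Rl.y4_mt c0 c1 c2 c3 (by
          linear_combination (-σ1 - (G.n g' + G.n g + G.n u + G.n u')) * TY3_two)
      rwa [r2, z1] at r
  obtain ⟨u', w', hu', -⟩ := yb_link hc hT h.symm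
  obtain ⟨hq, hu2⟩ := yb_mid hc hT h hu hu' hB
  rw [← hM] at hq hu2
  by_cases h4 : M.card = 4
  · obtain ⟨Y, r, -⟩ := q_real hc hT.1 hMT hu2 hq h4
    exact flex u' w' hu' fun s => (r s).2.elim fun O o => ⟨Y s, O, (r s).1, o⟩
  by_cases hn : G.NC M u u'
  · exact nc u' w' hu' hn
  · obtain ⟨Z, hZ⟩ := not_forall.1 hn
    exact nc w' u' hu'.swap2 (cross_nc hc hT.1 hMT hq (not_not.1 hZ) h4).2.1

/-- HINT: replace `N, N'` by the heads (`exists_head`, `Hd.min`). -/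
theorem yb_even (hc : G.Cub) (hT : G.T3 T) (hI : G.IHd T)
    (h : G.Ybd T t g e g' e' z X X' N N') : G.Rall T 0 1 := by
  have hS : T \ {t} ⊆ T := sdiff_subset
  have hu : G.US (T \ {t}) := ⟨h.q4.card, fun k => h.un (k.mono (ins_mono h.sn.1))⟩
  obtain ⟨X0, H, h1⟩ := exists_head hc hT.1 hS hu h.q4
  obtain ⟨X0', H', h2⟩ := exists_head hc hT.1 hS hu h.q4.flip
  have s1 := h1.min N h.sn h.un
  have s2 := h2.min N' h.sn' h.un'
  have k : G.Ybd T t g e g' e' z X X' H H' := ⟨h.ht, h.q3, h.hz, h.he, h.he', h.q4, h.sx, h.sx',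
    h.bx, h.bx', h1.sp.resolve_left fun k => (Spl_ss h.sn).2 (k ▸ s1),
    h2.sp.resolve_left fun k => (Spl_ss h.sn').2 (k ▸ s2), h1.us.2, h2.us.2, h.dj.mono s1 s2⟩
  by_cases hB : G.Bal (G.ins ((T \ {t}) \ (H ∪ H')))
  · exact yb_bal hc hT hI k h1 h2 hB
  by_cases h4' : H'.card = 4
  · by_cases h4 : H.card = 4
    · exact yb_qq hc hT k hB h4 h4'
    · exact yb_big hc hT hI k.symm (union_comm H H' ▸ hB) h4
  · exact yb_big hc hT hI k hB h4'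

end SG

end Pool.Agent.Work.MP_8c679b_co
end
end

-- merged part: Pool.Agent.Work.MP_8c679b_co.A3.E5
section
-- merged part: Pool.Agent.Work.MP_8c679b_co.A3.DQ1
section
/-!
The quotient of a three-side by a system of boxes.
-/

set_option autoImplicit false

namespace Pool.Agent.Work.MP_8c679b_co

open Finset

namespace SG

variable {V E : Type} [Fintype V] [DecidableEq V] [DecidableEq E] {G : SG V E}
  {T : Finset V} {Bs : Finset (Finset V)} {v0 : V} {F : Kf V E} {M : MP_8c679b_co.Mb V E} {e1 e2 : E}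
  {xf : Finset V → E → E → ZMod 2 → Finset V}

theorem DQ1_card (hc : G.Cub) (hT : G.T3 T) : 1 < T.card := by
  by_contra k
  refine hT.2.2 ⟨fun _ => 0, fun e he => absurd ?_ k⟩
  exact one_lt_card.2 ⟨_, (mem_ins.1 he).2.1, _, (mem_ins.1 he).2.2,
    hT.1.noloop hc (ins_sub_tch he)⟩

/-- terminals lie in no box.  HINT: the edge `e` would be in the cut of the box (`cut_of_sub`), but
this cut lies inside `T`. -/
theorem Sy.nd_term (h : G.Sy T Bs v0) {e : E} (he : e ∈ G.cut T) :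
    (∀ B ∈ Bs, G.ie T e ∉ B) ∧ nd Bs (G.ie T e) = {G.ie T e} := by
  have h1 : ∀ B ∈ Bs, G.ie T e ∉ B := fun B hB hm =>
    not_ins_of_cut he ((h.bx B hB).2.2
      (cut_of_sub (h.bx B hB).1 he (Cut_tch (mem_cut.1 he).1 ie_at hm)).1)
  exact ⟨h1, nd_of_not h1⟩

/-- cuts of the quotient.  HINT: `quo_crs`, `crs_ins`; an edge of `cut T` leaves `un T Bs Z` iff its
terminal is in `Z`; the terminals are different (`HT.f2'`). -/
theorem Sy.cut_un (hc : G.Cub) (hT : G.T3 T) (h : G.Sy T Bs v0) (Z : Finset (Finset V)) :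
    (G.quo T Bs).cut Z = G.cut (un T Bs Z) \ G.cut T ∧
      (G.cut (un T Bs Z)).card = ((G.quo T Bs).cut Z).card + (Z ∩ G.tq T).card := by
  have hs : un T Bs Z ⊆ T := fun v hv => (mem_un.1 hv).1
  have h1 : (G.quo T Bs).cut Z = G.cut (un T Bs Z) \ G.cut T := (quo_crs Z).trans (crs_ins hs)
  refine ⟨h1, ?_⟩
  rw [h1, ← card_sdiff_add_card_inter (G.cut (un T Bs Z)) (G.cut T)]
  congr 1
  refine card_bij (fun e _ => {G.ie T e}) ?_ ?_ ?_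
  · intro e he
    obtain ⟨h2, h3⟩ := mem_inter.1 he
    have h4 := ie_mem (cut_sub_tch h2)
    rw [(cut_of_sub hs h3 (cut_sub_tch h2)).2] at h4
    have h5 := (mem_un.1 h4).2
    rw [(h.nd_term h3).2] at h5
    exact mem_inter.2 ⟨h5, mem_image_of_mem _ h3⟩
  · intro e he f hf k
    by_contra hef
    exact hT.1.f2' hc hT.2.1 (DQ1_card hc hT) (mem_inter.1 he).2 (mem_inter.1 hf).2 hef
      (singleton_injective k)
  · intro N hN
    obtain ⟨h2, h3⟩ := mem_inter.1 hN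
    obtain ⟨e, he, rfl⟩ := mem_image.1 h3
    have h4 : G.ie T e ∈ un T Bs Z :=
      mem_un.2 ⟨ie_mem (cut_sub_tch he), by rwa [(h.nd_term he).2]⟩
    exact ⟨e, mem_inter.2 ⟨(cut_of_sub hs he (Cut_tch (mem_cut.1 he).1 ie_at h4)).1, he⟩, rfl⟩

/-- terminals are not adjacent.  HINT: otherwise `T` minus the two has three leaving edges, so it
is one vertex and `T` is a triangle; one edge meets all its circuits. -/
theorem t3_nadj (hc : G.Cub) (hT : G.T3 T) (hF : G.F2 T) {e f : E} (he : e ∈ G.cut T)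
    (hf : f ∈ G.cut T) : ¬ G.Adj G.A (G.ie T e) (G.ie T f) := by
  intro hadj
  have hu := ie_mem (cut_sub_tch he)
  have hv := ie_mem (cut_sub_tch hf)
  have huv : G.ie T e ≠ G.ie T f := by
    obtain ⟨g, hg, hj⟩ := hadj
    have h1 := hT.1.noloop hc (ins_sub_tch (Cut_je_ins hg hj hu hv))
    intro k
    rcases hj with ⟨k1, k2⟩ | ⟨k1, k2⟩
    · exact h1 (k1.trans (k.trans k2.symm))
    · exact h1 (k1.trans (k.symm.trans k2.symm))
  have hef : e ≠ f := fun k => huv (k ▸ rfl)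
  obtain ⟨h4, -, m, hm, -⟩ := hT.1.rung' hc hu hv huv hadj
  have hX : ({G.ie T e, G.ie T f} : Finset V) ⊆ T := Cut_pair hu hv
  have h1 := cut_add (G := G) hX
  rw [crs_ins hX] at h1
  have h2 := card_sdiff_add_card_inter (G.cut {G.ie T e, G.ie T f}) (G.cut T)
  have h3 : 1 < (G.cut {G.ie T e, G.ie T f} ∩ G.cut T).card :=
    one_lt_card.2 ⟨e, mem_inter.2 ⟨(cut_of_sub hX he
        (Cut_tch (mem_cut.1 he).1 ie_at (mem_insert_self _ _))).1, he⟩,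
      f, mem_inter.2 ⟨(cut_of_sub hX hf
        (Cut_tch (mem_cut.1 hf).1 ie_at (mem_insert_of_mem (mem_singleton_self _)))).1, hf⟩, hef⟩
  have h5 := hT.2.1
  have hn : (T \ {G.ie T e, G.ie T f}).Nonempty := by
    refine sdiff_nonempty.2 fun k => ?_
    rw [Subset.antisymm hX k] at h4
    omega
  obtain ⟨h6, h7⟩ := hT.1 _ sdiff_subset hn
  rcases h7 (by omega) with h8 | h8
  · obtain ⟨w, hw⟩ := card_eq_one.1 h8
    have hwT : w ∈ T := sdiff_subset (hw ▸ mem_singleton_self w)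
    have key : ∀ x ∈ T, ∃ c : ZMod 2, ∀ g ∈ G.A, G.Je g x w → G.n g = c := by
      intro x hx
      by_cases k : ∃ g ∈ G.A, G.Je g x w
      · obtain ⟨g, hg, hj⟩ := k
        exact ⟨G.n g, fun g' hg' hj' => by rw [hT.1.simple hc hx hwT hg' hg hj' hj]⟩
      · exact ⟨0, fun g hg hj => absurd ⟨g, hg, hj⟩ k⟩
    choose! c hcc using key
    refine hF m ⟨fun x => if x = w then 0 else c x, fun g hg => ?_⟩
    obtain ⟨hgm, hg⟩ := mem_erase.1 hg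
    have hl := hT.1.noloop hc (ins_sub_tch hg)
    obtain ⟨gA, gs, gt⟩ := mem_ins.1 hg
    have hin : ∀ y ∈ T, y ≠ w → y ∈ ({G.ie T e, G.ie T f} : Finset V) := fun y hy k => by
      by_contra k'
      exact k (mem_singleton.1 (hw ▸ mem_sdiff.2 ⟨hy, k'⟩))
    obtain ⟨x, hx, hxw, hj⟩ : ∃ x ∈ T, x ≠ w ∧ G.Je g x w := by
      by_cases k1 : G.s g = w
      · exact ⟨G.t g, gt, fun k => hl (k1.trans k.symm), Or.inr ⟨k1, rfl⟩⟩
      · by_cases k2 : G.t g = w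
        · exact ⟨G.s g, gs, k1, Or.inl ⟨rfl, k2⟩⟩
        · exact absurd (mem_singleton.1 (hm ▸ mem_ins.2 ⟨gA, hin _ gs k1, hin _ gt k2⟩)) hgm
    rw [Cut_sw hj, if_neg hxw, if_pos rfl, hcc x hx g gA hj, add_zero, z2_add_self]
  · have k : G.ie T e ∈ T \ {G.ie T e, G.ie T f} := h8.symm ▸ hu
    exact (mem_sdiff.1 k).2 (mem_insert_self _ _)

end SG

end Pool.Agent.Work.MP_8c679b_co
end

-- merged part: Pool.Agent.Work.MP_8c679b_co.A3.E1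
section
/-!
Finishing a region whose components have at most one dead edge each.
-/

set_option autoImplicit false

namespace Pool.Agent.Work.MP_8c679b_co

open Finset

namespace SG

variable {V E : Type} [Fintype V] [DecidableEq V] [DecidableEq E] {G : SG V E}
  {T W W' X X' X1 X2 X3 Y N N2 N3 B : Finset V} {Bs H D M : Finset (Finset V)} {v0 v : V}
  {O O' O2 O3 F L L1 L2 : Finset E} {K K' : Set (Finset E)} {a b c d a2 b2 c2 d2 a3 b3 c3 d3 : E}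
  {ε ε1 ε2 g l s s2 π : ZMod 2} {C C' : Rl → Prop} {fr : Prop}
  {xf : Finset V → E → E → ZMod 2 → Finset V}

/-- HINT: `abs_gd`, `Abs0.monoL`. -/
theorem Abs0.gd2 (hc : G.Cub) (hT : G.T3 T) (hW : W ⊆ T) (h : G.Abs0 W O (G.cut W) K)
    (hg : G.Gd2 T W) : G.Abs0 W O (G.ins T) K := by
  exact (abs_gd hc hT hW hg h).monoL fun e _ k => (mem_crs.1 (crs_ins (G := G) hW ▸ k)).1

/-- HINT: as `fin0`, but apply `finc` in `T` (with `J = ∅`) to the set `X ∪ (T \ Y)` and to the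
boxes inside `Y` of the first two kinds; `T \ (X ∪ (T \ Y)) = Y \ X`.  `par_all` gives `CP`;
`Abs0.gd2`, `Abs0.seq` (first `Y \ X`, then `X`), `Abs0.cov`. -/
theorem Eh.fin (h : G.Eh T Bs v0) (hY : Rgn T Bs Y) (hX : X ⊆ Y) (hA : G.Abs0 X O ∅ K)
    (hb : ∀ B ∈ Bs, G.BK1 B X K v) (hg : G.Gd2 T (Y \ X))
    (hε : G.FH (Y \ X) ∨ g = G.par O + G.nu (Y \ X)) :
    ∃ O', G.par O' = g ∧ G.Abs0 Y O' (G.ins T) (G.Kb Bs Y v) := by
  classical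
  have hT := h.hT.1
  have hB := h.hy.bx
  have e1 : T \ (X ∪ T \ Y) = Y \ X := by
    ext x
    have := @hY.1 x
    simp only [mem_sdiff, mem_union]
    (clear * - hε this; tauto)
  have e2 : ∀ B ⊆ Y, B ∩ (X ∪ T \ Y) = B ∩ X := fun B k => by
    ext x
    have := @k x
    simp only [mem_sdiff, mem_union, mem_inter]
    tauto
  let P : Finset V → E → E → Prop := fun B c d => (∃ a b, G.Q4 B a b c d) ∧
    G.Rg B (B ∩ X) c d ∧ ∀ t ∈ G.Kpv B (B ∩ X) c d v, ∃ t' ∈ K, t' ⊆ t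
  let Bs' := Bs.filter fun B => B ⊆ Y ∧ (Disjoint B X ∨ ∃ c d, P B c d)
  have hs : ∀ B ∈ Bs', B ∈ Bs := fun B k => (mem_filter.1 k).1
  obtain ⟨Ds, hF⟩ := finc (Fm := {S | G.US S ∧ ∃ B ∈ Bs', S ⊆ B}) (J := ∅) (Bs := Bs') (Ds := ∅)
    (X := X ∪ T \ Y) (K := {t | ∃ B ∈ Bs, ∃ c d, P B c d ∧ t ∈ G.Kp B (B ∩ X) c d}) h.hc hT
    Subset.rfl (fun S k => k.1)
    ⟨fun B k => ⟨⟨(hB B (hs B k)).2.1, B, k, Subset.rfl⟩, (hB B (hs B k)).1,
      (hB B (hs B k)).2.2.trans subset_union_left⟩,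
      fun B k B' k' => h.hy.pd B (hs B k) B' (hs B' k'), fun S k _ _ => k.2⟩ vd_empty
    ⟨union_subset (hX.trans hY.1) sdiff_subset, fun B k => by
      rw [disjoint_iff_inter_eq_empty, e2 B (mem_filter.1 k).2.1, ← disjoint_iff_inter_eq_empty]
      exact (mem_filter.1 k).2.2.imp_right fun ⟨c, d, ⟨a, b, k1⟩, k2⟩ =>
        ⟨a, b, c, d, k1, k2.1, fun t ht => ⟨B, hs B k, c, d, ⟨⟨a, b, k1⟩, k2⟩, ht⟩⟩,
      fun ρ k => absurd k (notMem_empty ρ)⟩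
    fun B k e he => Or.inl ((hB B (hs B k)).2.2 he)
  have hD := hF.vd0 (empty_subset _)
  have hK := hF.cover (fun B k => (hB B (hs B k)).1) (union_subset (hX.trans hY.1) sdiff_subset)
    (empty_subset _)
  rw [e1] at hD hK
  have hW : Y \ X ⊆ T := sdiff_subset.trans hY.1
  obtain ⟨O', hO, h'⟩ := (par_all h.hc hT _ hW).1 Ds hD (g + G.par O)
    (hε.imp_right fun k => by rw [k]; linear_combination z2_add_self (G.par O))
  obtain ⟨h1, h2⟩ := (h'.gd2 h.hc h.hT hW hg).seq (L := G.ins T) hA sdiff_disjoint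
    (fun e k => absurd k (notMem_empty e)) (fun e k _ => Or.inr k)
    fun e k => absurd k (notMem_empty e)
  rw [sdiff_union_of_subset hX] at h1
  refine ⟨_, by rw [h2, hO]; linear_combination z2_add_self (G.par O), h1.cov ?_⟩
  rintro _ ⟨B, b1, b3, S, b2, a2, a3, rfl⟩
  have a1 : S ⊆ T := b2.trans (hB B b1).1
  by_cases k : B ∈ Bs'
  · rcases hK _ (Or.inl ⟨S, ⟨a2, B, k, b2⟩, a1, rfl⟩) with
      ⟨t, ⟨B', c1, c, d, c2, ⟨S', c3, c4, rfl⟩, c5⟩ | c1, c6⟩ | ⟨e, c1, -, c2, c3, -⟩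
    · have c7 : G.cut S' = G.cut S := eq_of_subset_of_card_le c6 (a2.1.trans c4.1.symm).le
      obtain rfl := cut_inj hT (c3.trans (hB B' c1).1) a1 c7
      obtain ⟨t', d1, d2⟩ := c2.2.2 _ ⟨⟨S', c3, c4, a3, rfl⟩, c5⟩
      exact Or.inl ⟨t', Or.inr d1, d2⟩
    · exact Or.inl ⟨t, Or.inl (c1.imp_left fun ⟨S', d1, d2⟩ => ⟨S', d1.1, d2⟩), c6⟩
    · exact Or.inr ⟨e, c1, tch_mono (b2.trans b3) (cut_sub_tch c1), fun k1 => (mem_union.1 k1).elim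
        (h'.not_mem c3) (hA.not_mem fun k2 => c2 (ins_mono subset_union_left k2))⟩
  rcases hb B b1 with k1 | ⟨a', b', c', d', k1, k2⟩ | k1
  · exact absurd (mem_filter.2 ⟨b1, b3, Or.inl k1⟩) k
  · exact absurd (mem_filter.2 ⟨b1, b3, Or.inr ⟨c', d', ⟨a', b', k1⟩, k2⟩⟩) k
  · rcases k1 S b2 a2 a3 with k2 | ⟨t', k2, k3⟩
    · exact Or.inl ⟨_, Or.inl (Or.inl ⟨S, a2, subset_sdiff.2 ⟨b2.trans b3, k2⟩, rfl⟩), Subset.rfl⟩
    · exact Or.inl ⟨t', Or.inr k2, k3⟩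

/-- a terminal lies in no box (`Sy.nd_term`), so it is no tolerance -/
theorem Eh.zero (h : G.Eh T Bs v0) : ∃ v, ∀ Y, G.Kb Bs Y v = G.Kz Bs Y := by
  obtain ⟨e, he⟩ := card_pos.1 (show 0 < (G.cut T).card by rw [h.hT.2.1]; norm_num)
  exact ⟨G.ie T e, fun Y => Set.ext fun t => ⟨fun ⟨B, b1, b2, b3⟩ => ⟨B, b1, b2, kv_sub b3⟩,
    fun ⟨B, b1, b2, S, a1, a2, a3⟩ =>
      ⟨B, b1, b2, S, a1, a2, fun k => (h.hy.nd_term he).1 B b1 (a1 k), a3⟩⟩⟩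

theorem Ea0.one (h : G.Ea0 Bs Y L ε) (v : V) : G.Ea1 Bs Y L ε := by
  obtain ⟨O, h1, h2⟩ := h
  exact ⟨O, v, h1, h2.cov fun t ⟨B, b1, b2, b3⟩ =>
    Or.inl ⟨t, ⟨B, b1, b2, kv_sub b3⟩, Subset.rfl⟩⟩

theorem Ea0.eb (h : G.Ea0 Bs Y L 1) (v : V) : G.Eb Bs Y L :=
  ⟨h.one v, 1, h⟩

theorem Eh.compl (h : G.Eh T Bs v0) (hY : Rgn T Bs Y) : Rgn T Bs (T \ Y) := by
  exact ⟨sdiff_subset, fun B hB => (hY.2 B hB).symm.imp
    (fun k => subset_sdiff.2 ⟨(h.hy.bx B hB).1, k⟩) fun k => disjoint_sdiff.mono_left k⟩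

theorem Eh.rgn_top (h : G.Eh T Bs v0) : Rgn T Bs T := by
  exact ⟨Subset.rfl, fun B hB => Or.inl (h.hy.bx B hB).1⟩

theorem Rgn.union (h1 : Rgn T Bs X1) (h2 : Rgn T Bs X2) : Rgn T Bs (X1 ∪ X2) := by
  refine ⟨union_subset h1.1 h2.1, fun B hB => ?_⟩
  rcases h1.2 B hB with k | k
  · exact Or.inl (k.trans subset_union_left)
  · exact (h2.2 B hB).imp (fun k' => k'.trans subset_union_right)
      fun k' => disjoint_union_right.2 ⟨k, k'⟩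

/-- a seed inside a region.  HINT: `Eh.fin`; a box inside `X` is of the third kind. -/
theorem Eh.ea_fin (h : G.Eh T Bs v0) (hY : Rgn T Bs Y) (hX : Rgn T Bs X) (hXY : X ⊆ Y)
    (hg : G.Gd2 T (Y \ X)) (hε : G.FH (Y \ X) ∨ g = ε + G.nu (Y \ X)) :
    (G.Ea1 Bs X ∅ ε → G.Ea1 Bs Y (G.ins T) g) ∧ (G.Ea0 Bs X ∅ ε → G.Ea0 Bs Y (G.ins T) g) := by
  have k : ∀ O v, G.par O = ε → G.Abs0 X O ∅ (G.Kb Bs X v) →
      ∃ O', G.par O' = g ∧ G.Abs0 Y O' (G.ins T) (G.Kb Bs Y v) := fun O v h1 h2 =>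
    h.fin hY hXY h2 (fun B b1 => (hX.2 B b1).elim (fun b2 => Or.inr (Or.inr fun S a1 a2 a3 =>
      Or.inr ⟨_, ⟨B, b1, b2, S, a1, a2, a3, rfl⟩, Subset.rfl⟩)) Or.inl) hg (h1 ▸ hε)
  refine ⟨fun ⟨O, v, h1, h2⟩ => (k O v h1 h2).imp fun _ r => ⟨v, r⟩, fun ⟨O, h1, h2⟩ => ?_⟩
  obtain ⟨v, hv⟩ := h.zero
  exact (k O v h1 (hv X ▸ h2)).imp fun _ r => ⟨r.1, hv Y ▸ r.2⟩

theorem E1b_sub (h1 : Rgn T Bs X1) (hB : B ∈ Bs) (h : B ⊆ X1 ∪ X2) : B ⊆ X1 ∨ B ⊆ X2 :=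
  (h1.2 B hB).imp_right fun k _ hx => (mem_union.1 (h hx)).resolve_left (disjoint_left.1 k hx)

theorem E1b_kus {t : Finset E} (h : t ∈ G.Kv B v) : t ∈ G.Kus B := by
  obtain ⟨S, k1, k2, -, k3⟩ := h
  exact ⟨S, k1, k2, k3⟩

/-- first `X1`, then `X2`.  HINT: `Abs0.seq`, `Abs0.cov`. -/
theorem ea_seq (h1 : Rgn T Bs X1) (hd : Disjoint X1 X2)
    (hF : ∀ e ∈ L2, e ∈ G.cut X2 → e ∉ G.tch X1)
    (hL1 : ∀ e ∈ L1, e ∈ G.cut X1 → e ∈ G.tch X2 ∨ e ∈ L)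
    (hL2 : ∀ e ∈ L2, e ∈ G.cut X2 → e ∈ L) :
    (G.Ea1 Bs X1 L1 ε1 → G.Ea0 Bs X2 L2 ε2 → G.Ea1 Bs (X1 ∪ X2) L (ε1 + ε2)) ∧
      (G.Ea0 Bs X1 L1 ε1 → G.Ea1 Bs X2 L2 ε2 → G.Ea1 Bs (X1 ∪ X2) L (ε1 + ε2)) ∧
      (G.Ea0 Bs X1 L1 ε1 → G.Ea0 Bs X2 L2 ε2 → G.Ea0 Bs (X1 ∪ X2) L (ε1 + ε2)) := by
  refine ⟨?_, ?_, ?_⟩
  · rintro ⟨O1, v, rfl, k1⟩ ⟨O2, rfl, k2⟩
    obtain ⟨k3, k4⟩ := k1.seq k2 hd hF hL1 hL2
    refine ⟨_, v, k4, k3.cov ?_⟩
    rintro t ⟨B, b1, b2, b3⟩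
    exact Or.inl ⟨t, (E1b_sub h1 b1 b2).imp (fun k => ⟨B, b1, k, b3⟩)
      fun k => ⟨B, b1, k, E1b_kus b3⟩, Subset.rfl⟩
  · rintro ⟨O1, rfl, k1⟩ ⟨O2, v, rfl, k2⟩
    obtain ⟨k3, k4⟩ := k1.seq k2 hd hF hL1 hL2
    refine ⟨_, v, k4, k3.cov ?_⟩
    rintro t ⟨B, b1, b2, b3⟩
    exact Or.inl ⟨t, (E1b_sub h1 b1 b2).imp (fun k => ⟨B, b1, k, E1b_kus b3⟩)
      fun k => ⟨B, b1, k, b3⟩, Subset.rfl⟩
  · rintro ⟨O1, rfl, k1⟩ ⟨O2, rfl, k2⟩
    obtain ⟨k3, k4⟩ := k1.seq k2 hd hF hL1 hL2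
    refine ⟨_, k4, k3.cov ?_⟩
    rintro t ⟨B, b1, b2, b3⟩
    exact Or.inl ⟨t, (E1b_sub h1 b1 b2).imp (fun k => ⟨B, b1, k, b3⟩)
      fun k => ⟨B, b1, k, b3⟩, Subset.rfl⟩

/-- two parts give the even parity with one tolerance vertex -/
theorem eb_seq (h1 : Rgn T Bs X1) (hd : Disjoint X1 X2)
    (hF : ∀ e ∈ L2, e ∈ G.cut X2 → e ∉ G.tch X1)
    (hL1 : ∀ e ∈ L1, e ∈ G.cut X1 → e ∈ G.tch X2 ∨ e ∈ L)
    (hL2 : ∀ e ∈ L2, e ∈ G.cut X2 → e ∈ L) (p1 : G.Eb Bs X1 L1) (p2 : G.Eb Bs X2 L2) :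
    G.Ea1 Bs (X1 ∪ X2) L 0 := by
  obtain ⟨a1, ε1, a2⟩ := p1
  obtain ⟨b1, ε2, b2⟩ := p2
  have k : ∀ x y : ZMod 2, 1 + y = 0 ∨ x + 1 = 0 ∨ x + y = 0 := by decide
  rcases k ε1 ε2 with k | k | k
  · exact k ▸ (ea_seq h1 hd hF hL1 hL2).1 a1 b2
  · exact k ▸ (ea_seq h1 hd hF hL1 hL2).2.1 a2 b1
  · obtain ⟨-, v, -⟩ := a1
    exact (k ▸ (ea_seq h1 hd hF hL1 hL2).2.2 a2 b2 :).one v

/-- HINT: as `rall_of_abs`.  A bad side has its cut inside `T`; `Sy.cov`; the tolerance set is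
`{v}` if `v` lies in a box and `{v0}` otherwise. -/
theorem Eh.rall (h : G.Eh T Bs v0) (hA : G.Ea1 Bs T (G.ins T) ε) : G.Rall T ε 1 := by
  obtain ⟨O, v, rfl, k⟩ := hA
  have k1 : G.Abs0 T O ∅ (G.Kb Bs T v) := k.monoL fun e e1 e2 => absurd e2 (not_ins_of_cut e1)
  by_cases hv : ∃ B ∈ Bs, v ∈ B
  · refine rall_kd (v := v) (k1.cov ?_)
    rintro t ⟨S, s1, s2, rfl⟩
    rcases h.hy.cov S s1 with ⟨B, b1, b2⟩ | ⟨-, b⟩
    · exact Or.inl ⟨_, ⟨B, b1, (h.hy.bx B b1).1, S, b2, s1.2.1, s2, rfl⟩, Subset.rfl⟩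
    · obtain ⟨B, b1, b2⟩ := hv
      exact absurd (b B b1 b2) s2
  · refine rall_kd (v := v0) (k1.cov ?_)
    rintro t ⟨S, s1, s2, rfl⟩
    obtain ⟨B, b1, b2⟩ := (h.hy.cov S s1).resolve_right fun b => s2 b.1
    exact Or.inl ⟨_, ⟨B, b1, (h.hy.bx B b1).1, S, b2, s1.2.1, fun k => hv ⟨B, b1, b2 k⟩, rfl⟩,
      Subset.rfl⟩

theorem Eh.ss (h : G.Eh T Bs v0) (hX : Rgn T Bs X) (p1 : G.Eb Bs (T \ X) (G.ins T))
    (p2 : G.Eb Bs X ∅) : G.Rall T 0 1 := by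
  have k := eb_seq (L := G.ins T) (h.compl hX) sdiff_disjoint
    (fun e he => absurd he (notMem_empty e)) (fun e he _ => Or.inr he)
    (fun e he => absurd he (notMem_empty e)) p1 p2
  rw [sdiff_union_of_subset hX.1] at k
  exact h.rall k

theorem Eh.seed (h : G.Eh T Bs v0) (hX : Rgn T Bs X) (p : G.Ea1 Bs X ∅ ε)
    (hg : G.Gd2 T (T \ X)) (hε : G.FH (T \ X) ∨ g = ε + G.nu (T \ X)) : G.Rall T g 1 :=
  h.rall ((h.ea_fin h.rgn_top hX hX.1 hg hε).1 p)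

/-- a box as a region -/
theorem Eh.ea_box (h : G.Eh T Bs v0) (hB : B ∈ Bs) :
    Rgn T Bs B ∧ G.Kz Bs B = G.Kus B ∧ ∀ v, G.Kb Bs B v = G.Kv B v := by
  refine ⟨⟨(h.hy.bx B hB).1, fun B' k => ?_⟩, Set.ext fun t => ⟨?_, fun k => ⟨B, hB, Subset.rfl, k⟩⟩,
    fun v => Set.ext fun t => ⟨?_, fun k => ⟨B, hB, Subset.rfl, k⟩⟩⟩
  · by_cases e : B' = B
    exacts [Or.inl e.subset, Or.inr (h.hy.pd B' k B hB e)]
  · rintro ⟨B', -, k1, S, k2, k3⟩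
    exact ⟨S, k2.trans k1, k3⟩
  · rintro ⟨B', -, k1, S, k2, k3⟩
    exact ⟨S, k2.trans k1, k3⟩

end SG

end Pool.Agent.Work.MP_8c679b_co
end

-- merged part: Pool.Agent.Work.MP_8c679b_co.A3.DQ3
section
/-!
The quotient of a three-side by a system of boxes.
-/

set_option autoImplicit false

namespace Pool.Agent.Work.MP_8c679b_co

open Finset

namespace SG

variable {V E : Type} [Fintype V] [DecidableEq V] [DecidableEq E] {G : SG V E}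
  {T : Finset V} {Bs : Finset (Finset V)} {v0 : V} {F : Kf V E} {M : MP_8c679b_co.Mb V E} {e1 e2 : E}
  {xf : Finset V → E → E → ZMod 2 → Finset V}

/-- an object of the quotient is unbalanced.  HINT: a ring off the boxes consists of single
vertices, so its edge set is even in `G` and odd. -/
theorem Sy.ob_unb (hc : G.Cub) (hT : G.T3 T) (h : G.Sy T Bs v0) {D : Finset (Finset V)}
    (hD : (G.quo T Bs).Ob Bs D) : ¬ G.Bal (G.ins (un T Bs D)) := by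
  intro hb
  rcases hD with ⟨B, hB, rfl⟩ | ⟨C, ⟨n, w, g, hp, rfl, rfl⟩, h1, hd⟩
  · exact (h.bx B hB).2.1.2 (hb.mono (ins_mono fun v hv => mem_un.2
      ⟨(h.bx B hB).1 hv, mem_singleton.2 (nd_of_mem h.pd hB hv)⟩))
  · obtain ⟨hC, hv, hs, -⟩ := hp.cc
    have k : ∀ v, nd Bs v ∈ pv n w → nd Bs v = {v} := fun v hv =>
      ((nd_cases h.pd v).resolve_left (disjoint_left.1 hd hv)).2
    have ms : ∀ e ∈ pe (n + 1) g, nd Bs (G.s e) ∈ pv n w ∧ nd Bs (G.t e) ∈ pv n w := fun e he =>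
      ⟨hv ▸ s_mem_vs (G := G.quo T Bs) he, hv ▸ t_mem_vs (G := G.quo T Bs) he⟩
    have ev : G.Ev (pe (n + 1) g) := fun v => by
      refine Eq.trans (sum_congr rfl fun e he => ?_) (hC.2.1 {v})
      change _ = iv (nd Bs (G.s e) = {v}) + iv (nd Bs (G.t e) = {v})
      simp only [k _ (ms e he).1, k _ (ms e he).2, singleton_inj]
    have h0 := hb.par_zero (fun e he => by
      obtain ⟨a, b, c⟩ := mem_ins.1 (mem_quo.1 (hs he)).1
      exact mem_ins.2 ⟨a, mem_un.2 ⟨b, (ms e he).1⟩, mem_un.2 ⟨c, (ms e he).2⟩⟩) ev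
    exact zero_ne_one (h0.symm.trans h1)

/-- an unbalanced set off the boxes contains an object.  HINT: an odd circuit `C` inside `W`
(`Circ.lean`), `Cc.cyc`, and the map `v ↦ {v}`. -/
theorem Sy.ob_of (hc : G.Cub) (hT : G.T3 T) (h : G.Sy T Bs v0) {W : Finset V} (hW : W ⊆ T)
    (hd : ∀ B ∈ Bs, Disjoint B W) (hu : ¬ G.Bal (G.ins W)) :
    ∃ D, (G.quo T Bs).Ob Bs D ∧ ∀ N ∈ D, ∃ v ∈ W, N = {v} := by
  obtain ⟨C, hC, cC, h1⟩ := exists_odd_cc hu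
  have hl : ∀ f ∈ C, G.s f ≠ G.t f := fun f hf => hT.1.noloop hc
    (mem_tch.2 ⟨(mem_ins.1 (hC hf)).1, Or.inl (hW (mem_ins.1 (hC hf)).2.1)⟩)
  obtain ⟨e, he⟩ := cC.1
  obtain ⟨n, v, g, hp, -, -, hg⟩ := cC.cyc hc (hC.trans ins_sub_A) hl he (Or.inl rfl)
  have k : ∀ x ∈ W, nd Bs x = {x} := fun x hx =>
    nd_of_not fun B hB m => disjoint_left.1 (hd B hB) m hx
  have vW : ∀ i ≤ n, v i ∈ W := fun i hi => (sub_ins_iff.1 hC).2 (by
    rw [← hg, hp.cc.2.1]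
    exact mem_pv.2 ⟨i, hi, rfl⟩)
  have mA : ∀ f ∈ C, f ∈ (G.quo T Bs).A := fun f hf => mem_quo.2 ⟨ins_mono hW (hC hf), by
    rw [k _ (mem_ins.1 (hC hf)).2.1, k _ (mem_ins.1 (hC hf)).2.2]
    exact fun m => hl f hf (singleton_inj.1 m)⟩
  have je : ∀ f ∈ C, ∀ i ≤ n, ∀ j ≤ n, G.Je f (v i) (v j) → (G.quo T Bs).Je f {v i} {v j} :=
    fun f hf i hi j hj m => by
      rw [← k _ (vW i hi), ← k _ (vW j hj)]
      exact quo_je (ins_mono hW (hC hf)) m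
  have sg : ∀ N ∈ pv n fun i => ({v i} : Finset V), ∃ x ∈ W, N = {x} := fun N hN => by
    obtain ⟨i, hi, rfl⟩ := mem_pv.1 hN
    exact ⟨v i, vW i hi, rfl⟩
  refine ⟨pv n fun i => {v i}, Or.inr ⟨C, ⟨n, _, g, ⟨⟨fun i hi j hj m =>
    hp.pth.inj i hi j hj (singleton_inj.1 m), fun i hi => mA _ (hp.pth.mem i hi), fun i hi =>
    je _ (hp.pth.mem i hi) i hi.le (i + 1) hi (hp.pth.jn i hi)⟩, hp.pos, mA _ hp.cm,
    je _ hp.cm n le_rfl 0 (Nat.zero_le n) hp.cj, hp.cn⟩, rfl, hg⟩, h1,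
    disjoint_left.2 fun N hN hB => ?_⟩, sg⟩
  obtain ⟨x, hx, rfl⟩ := sg N hN
  exact disjoint_left.1 (hd _ hB) (mem_singleton_self x) hx

/-- HINT: two boxes; a box and `Sy.ob_of` for `T \ B`; or `Sy.ob_of` for the vertex sets of two
disjoint odd circuits. -/
theorem Sy.two_ob (hc : G.Cub) (hT : G.T3 T) (h : G.Sy T Bs v0) (ht : G.To T Bs) :
    ∃ D D', (G.quo T Bs).Ob Bs D ∧ (G.quo T Bs).Ob Bs D' ∧ Disjoint D D' := by
  rcases ht with h2 | ⟨B, hB, hu⟩ | ⟨hB, hk⟩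
  · obtain ⟨B, hB, B', hB', ne⟩ := one_lt_card.1 h2
    exact ⟨{B}, {B'}, Or.inl ⟨B, hB, rfl⟩, Or.inl ⟨B', hB', rfl⟩, disjoint_singleton.2 ne⟩
  · obtain ⟨D, hD, k⟩ := h.ob_of hc hT sdiff_subset (fun B' hB' => by
      rw [hB, mem_singleton] at hB'
      rw [hB']
      exact disjoint_sdiff) hu
    refine ⟨{B}, D, Or.inl ⟨B, hB ▸ mem_singleton_self B, rfl⟩, hD,
      disjoint_singleton_left.2 fun m => ?_⟩
    obtain ⟨v, hv, e⟩ := k B m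
    exact (mem_sdiff.1 hv).2 (e ▸ mem_singleton_self v)
  · unfold K1 at hk
    push Not at hk
    obtain ⟨H, hH, Q, hQ, c1, p1, c2, p2, dj⟩ := hk
    have z : ∀ W : Finset V, ∀ B ∈ Bs, Disjoint B W := fun W B m =>
      absurd (hB ▸ m) (notMem_empty B)
    obtain ⟨D, hD, k⟩ := h.ob_of hc hT (sub_ins_iff.1 hH).2 (z _)
      (c1.not_bal p1 (sub_ins_vs (sub_ins_iff.1 hH).1))
    obtain ⟨D', hD', k'⟩ := h.ob_of hc hT (sub_ins_iff.1 hQ).2 (z _)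
      (c2.not_bal p2 (sub_ins_vs (sub_ins_iff.1 hQ).1))
    refine ⟨D, D', hD, hD', disjoint_left.2 fun N m m' => ?_⟩
    obtain ⟨v, hv, rfl⟩ := k N m
    obtain ⟨v', hv', e⟩ := k' _ m'
    exact disjoint_left.1 dj hv (singleton_inj.1 e ▸ hv')

end SG

end Pool.Agent.Work.MP_8c679b_co
end

-- merged part: Pool.Agent.Work.MP_8c679b_co.A3.E2
section
/-!
From the quotient to the graph.
-/

set_option autoImplicit false

namespace Pool.Agent.Work.MP_8c679b_co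

open Finset

namespace SG

variable {V E : Type} [Fintype V] [DecidableEq V] [DecidableEq E] {G : SG V E}
  {T W W' X X' X1 X2 X3 Y N N2 N3 B : Finset V} {Bs H D M : Finset (Finset V)} {v0 v : V}
  {O O' O2 O3 F L L1 L2 : Finset E} {K K' : Set (Finset E)} {a b c d a2 b2 c2 d2 a3 b3 c3 d3 : E}
  {ε ε1 ε2 g l s s2 π : ZMod 2} {C C' : Rl → Prop} {fr : Prop}
  {xf : Finset V → E → E → ZMod 2 → Finset V}

theorem Eh.un_box (h : G.Eh T Bs v0) (hB : B ∈ Bs) : un T Bs {B} = B := by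
  ext v
  rw [mem_un, mem_singleton]
  exact ⟨fun k => k.2 ▸ mem_nd_self, fun k => ⟨(h.hy.bx B hB).1 k, nd_of_mem h.hy.pd hB k⟩⟩

theorem Eh.rgn_un (h : G.Eh T Bs v0) (D : Finset (Finset V)) : Rgn T Bs (un T Bs D) := by
  refine ⟨filter_subset _ _, fun B hB => (em (B ∈ D)).imp (fun k v hv => mem_un.2
    ⟨(h.hy.bx B hB).1 hv, ?_⟩) fun k => disjoint_left.2 fun v hv m => k ?_⟩
  · rwa [nd_of_mem h.hy.pd hB hv]
  · exact nd_of_mem h.hy.pd hB hv ▸ (mem_un.1 m).2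

/-- HINT: `Sy.cut_un`; the cut of a box lies inside `T`. -/
theorem Eh.cut_box (h : G.Eh T Bs v0) (hB : B ∈ Bs) : (G.quo T Bs).cut {B} = G.cut B := by
  rw [(h.hy.cut_un h.hc h.hT _).1, h.un_box hB]
  exact sdiff_eq_self_of_disjoint
    (disjoint_left.2 fun e he k => not_ins_of_cut k ((h.hy.bx B hB).2.2 he))

theorem Eh.q4 (h : G.Eh T Bs v0) (hB : B ∈ Bs) (hq : (G.quo T Bs).Q4 {B} a b c d) :
    G.Q4 B a b c d :=
  ⟨(h.cut_box hB).symm.trans hq.1, hq.2⟩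

/-- a ring with an edge at a box passes the box.  HINT: `Cw.ends`. -/
theorem Eh.on_ring (h : G.Eh T Bs v0) (hB : B ∈ Bs) (hH : (G.quo T Bs).Cw H F) (ha : a ∈ F)
    (ha' : a ∈ G.cut B) : B ∈ H := by
  have : Nonempty E := ⟨a⟩
  rw [← h.cut_box hB] at ha'
  exact hH.ends ha ((mem_cut_single (hH.deg_nl ha)).1 ha').2

/-- HINT: `Cw.deg`, `exists_q4`. -/
theorem Eh.ring_q4 (h : G.Eh T Bs v0) (hB : B ∈ Bs) (hH : (G.quo T Bs).Cw H F) (hm : B ∈ H) :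
    ∃ a b c d, G.Q4 B a b c d ∧ a ∈ F ∧ b ∈ F := by
  have : Nonempty E := let ⟨_, _, g, _⟩ := hH; ⟨g 0⟩
  have k := hH.deg hm
  rw [h.cut_box hB] at k
  obtain ⟨a, ha, b, hb, ne⟩ := one_lt_card.1 (k ▸ one_lt_two : 1 < (F ∩ G.cut B).card)
  obtain ⟨c, d, q⟩ := exists_q4 (h.hy.bx B hB).2.1.1 (mem_inter.1 ha).2 (mem_inter.1 hb).2 ne
  exact ⟨a, b, c, d, q, (mem_inter.1 ha).1, (mem_inter.1 hb).1⟩

theorem Eh.tq3 (h : G.Eh T Bs v0) : (G.tq T).card = 3 ∧ Disjoint (G.tq T) Bs := by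
  refine ⟨(card_image_of_injOn fun e he f hf k => ?_).trans h.hT.2.1,
    disjoint_left.2 fun N hN hB => ?_⟩
  · by_contra hef
    exact h.hT.1.f2' h.hc h.hT.2.1 (DQ1_card h.hc h.hT) he hf hef (singleton_injective k)
  · obtain ⟨e, he, rfl⟩ := mem_image.1 hN
    exact (h.hy.nd_term he).1 _ hB (mem_singleton_self _)

theorem goo_two {Tm Z : Finset V} {t t' : V} (h3 : Tm.card = 3) (ht : t ∈ Tm) (ht' : t' ∈ Tm)
    (hne : t ≠ t') (m : t ∈ Z) (m' : t' ∈ Z) : G.Goo Tm Z := by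
  have k : (Tm \ {t, t'}).card = 1 := by
    rw [card_sdiff_of_subset (insert_subset ht (singleton_subset_iff.2 ht')), card_pair hne, h3]
  have z : {t, t'} ⊆ Z := insert_subset m (singleton_subset_iff.2 m')
  exact fun s hs s' hs' n n' _ => card_le_one.1 k.le s (mem_sdiff.2 ⟨hs, fun r => n (z r)⟩) s'
    (mem_sdiff.2 ⟨hs', fun r => n' (z r)⟩)

theorem Goo.sup {Tm Z Z' : Finset V} (h : G.Goo Tm Z) (hZ : Z ⊆ Z') : G.Goo Tm Z' :=
  fun t ht t' ht' n n' k => h t ht t' ht' (fun m => n (hZ m)) (fun m => n' (hZ m))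
    (Rch.mono k fun _ he => mem_avo.2 ⟨(mem_avo.1 he).1, fun m => (mem_avo.1 he).2.1 (hZ m),
      fun m => (mem_avo.1 he).2.2 (hZ m)⟩)

theorem E2a_term (h : G.Eh T Bs v0) (hv : G.Ex T v) :
    nd Bs v = {v} ∧ {v} ∈ G.tq T ∧ {v} ∉ Bs := by
  obtain ⟨m, e, he, ha⟩ := hv
  obtain rfl := eq_ie he m ha
  exact ⟨(h.hy.nd_term he).2, mem_image_of_mem _ he,
    fun k => (h.hy.nd_term he).1 _ k (mem_singleton_self _)⟩

/-- HINT: `Quo_desc`, `Sy.nd_term`; a terminal is `ie T e` (`eq_ie`). -/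
theorem Eh.gd2_gof (h : G.Eh T Bs v0) (hW : W ⊆ T) (hM : ∀ v ∈ W, nd Bs v ∉ M)
    (hF : Disjoint F (G.ins W)) (hH : ∀ v ∈ W, nd Bs v ∈ H → nd Bs v ∈ Bs)
    (hg : (G.quo T Bs).Gof (G.tq T) H M F) : G.Gd2 T W := by
  intro s s' e1 e2 m1 m2 k
  obtain ⟨a1, a2, a3⟩ := E2a_term h e1
  obtain ⟨b1, b2, b3⟩ := E2a_term h e2
  have r : (G.quo T Bs).Rch ((G.quo T Bs).avo ((G.quo T Bs).A \ F) M) (nd Bs s) (nd Bs s') :=
    Quo_desc k fun e he ne => mem_avo.2 ⟨mem_sdiff.2 ⟨mem_quo.2 ⟨ins_mono hW he, ne⟩,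
      disjoint_right.1 hF he⟩, hM _ (mem_ins.1 he).2.1, hM _ (mem_ins.1 he).2.2⟩
  have c1 := hH s m1
  have c2 := hH s' m2
  rw [a1] at r c1
  rw [b1] at r c2
  exact singleton_injective (hg _ a2 _ b2 (mt c1 a3) (mt c2 b3) r)

theorem Eh.gd2_goo (h : G.Eh T Bs v0) (hW : W ⊆ T) (hM : ∀ v ∈ W, nd Bs v ∉ M)
    (hg : (G.quo T Bs).Goo (G.tq T) M) : G.Gd2 T W :=
  h.gd2_gof (H := M) (F := ∅) hW hM (disjoint_empty_left _) (fun v hv m => absurd m (hM v hv))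
    fun t ht t' ht' n n' k => hg t ht t' ht' n n' (by rwa [sdiff_empty] at k)

/-- HINT: every box is an object, so it lies in `M`; `Sy.ob_of`. -/
theorem Eh.bal_ofr (h : G.Eh T Bs v0) (hW : W ⊆ T) (hM : ∀ v ∈ W, nd Bs v ∉ M)
    (ho : (G.quo T Bs).Ofr Bs M) : G.Bal (G.ins W) := by
  by_contra hu
  have hd : ∀ B ∈ Bs, Disjoint B W := fun B hB => disjoint_left.2 fun v hv m =>
    ho {B} (Or.inl ⟨B, hB, rfl⟩) (disjoint_singleton_left.2 (nd_of_mem h.hy.pd hB hv ▸ hM v m))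
  obtain ⟨D, o, k⟩ := h.hy.ob_of h.hc h.hT hW hd hu
  refine ho D o (disjoint_left.2 fun N hN => ?_)
  obtain ⟨v, hv, rfl⟩ := k N hN
  exact nd_of_not (fun B hB m => disjoint_left.1 (hd B hB) m hv) ▸ hM v hv

/-- If no ring passes the box, even sets avoid its cut.
HINT: an edge `e` of `Z` lies on a circuit (`Pth_cyc`), so its ends are joined in `Z.erase e`;
`Quo_desc` and `cyc_of_rch` in the quotient with the edge set `Z ∩ (G.quo T Bs).A`. -/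
theorem Eh.ev_cut {Z : Finset E} (h : G.Eh T Bs v0) (hB : B ∈ Bs) (hW : W ⊆ T)
    (hM : ∀ v ∈ W, nd Bs v ∉ M) (hF : Disjoint F (G.ins W))
    (hn : ∀ Y' F', (G.quo T Bs).Cw Y' F' → Disjoint F' F → Disjoint Y' M → B ∉ Y')
    (hZ : Z ⊆ G.ins W) (hE : G.Ev Z) : Disjoint Z (G.cut B) := by
  refine disjoint_left.2 fun e he hc => ?_
  have hT := hZ.trans (ins_mono hW)
  have k := nd_of_mem h.hy.pd hB (ie_mem (cut_sub_tch hc))
  obtain ⟨a1, a2⟩ := (quo_at (Y := T) h.hy.pd).2 ⟨hT he, k.symm ▸ hc⟩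
  obtain ⟨n, w, g, hp, -, h0⟩ := cyc_of_rch (G := G.quo T Bs) (mem_inter.2 ⟨he, a1⟩)
    (Or.inl ⟨rfl, rfl⟩) (quo_noloop a1) ((quo_rch (sdiff_subset.trans hT) (hE.sdiff
      (od_edge (Or.inr ⟨rfl, rfl⟩)) (singleton_subset_iff.2 he)).rch).mono fun f hf => by
        simp only [mem_inter, mem_sdiff, mem_singleton, mem_erase] at hf ⊢
        exact ⟨hf.1.2, hf.1.1, hf.2⟩)
  obtain ⟨-, hv, hs, -⟩ := hp.cc
  have hs' := fun f hf => hZ (mem_inter.1 (@hs f hf)).1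
  refine hn _ _ ⟨n, w, g, hp.mono fun i hi => (mem_inter.1 (hs (mem_pe.2
    ⟨i, Nat.lt_succ_of_le hi, rfl⟩))).2, rfl, rfl⟩
    (disjoint_left.2 fun f a b => disjoint_left.1 hF b (hs' f a)) (disjoint_left.2 fun N a => ?_)
    (hv ▸ mem_vs.2 ⟨e, mem_pe.2 ⟨0, n.succ_pos, h0⟩, k ▸ a2⟩)
  obtain ⟨f, b, rfl | rfl⟩ := mem_vs.1 (hv ▸ a)
  exacts [hM _ (mem_ins.1 (hs' f b)).2.1, hM _ (mem_ins.1 (hs' f b)).2.2]

/-- HINT: `ocs_empty`; a connected edge set without an edge in `cut B` lies on one side. -/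
theorem bal_add (h1 : G.Bal (G.ins (W \ B))) (h2 : G.Bal (G.ins (W ∩ B)))
    (h : ∀ Z ⊆ G.ins W, G.Ev Z → Disjoint Z (G.cut B)) : G.Bal (G.ins W) := by
  by_contra k
  obtain ⟨C, hC, cC, ho⟩ := exists_odd_cc k
  obtain ⟨a, ha⟩ := Sol_vs_nonempty cC
  obtain ⟨hA, hv⟩ := sub_ins_iff.1 hC
  have cl : ∀ e ∈ C, G.s e ∈ B ↔ G.t e ∈ B := fun e he => by
    by_contra r
    exact disjoint_left.1 (h C hC cC.2.1) he (mem_cut.2 ⟨hA he, r⟩)
  by_cases hx : a ∈ B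
  · exact cC.not_bal ho (sub_ins_iff.2 ⟨hA, fun v r => mem_inter.2
      ⟨hv r, (cC.2.2 a ha v r).closed (P := fun u => u ∈ B) cl hx⟩⟩) h2
  · exact cC.not_bal ho (sub_ins_iff.2 ⟨hA, fun v r => mem_sdiff.2
      ⟨hv r, fun k => hx ((cC.2.2 v r a ha).closed (P := fun u => u ∈ B) cl k)⟩⟩) h1

/-- a dropped box.  HINT: `us_iso`, `nu_remove`, `nu_bal`. -/
theorem nu_one (hc : G.Cub) (hT : G.HT T) (hW : W ⊆ T) (hB : B ⊆ W) (hu : G.US B)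
    (h : G.Bal (G.ins (W \ B))) : G.FH W ∨ G.nu W = 1 := by
  refine or_iff_not_imp_left.2 fun k => ?_
  obtain ⟨a1, a2, a3, -⟩ := us_iso hc hT hW k hB hu
  rw [nu_remove hc k (ins_mono hB) a1 a2, a3, (nu_bal h).1, zero_add]

/-- an odd ring off the boxes absorbs all values.  HINT: its edge set is an odd circuit of `G`
(see the proof of `Sy.ob_unb`); `Cyc.cc`, `pure_odd`; no box lies inside. -/
theorem Eh.seed_odd (h : G.Eh T Bs v0) (hH : (G.quo T Bs).Oc H) (hd : Disjoint H Bs) :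
    G.Ea0 Bs (un T Bs H) ∅ 1 := by
  obtain ⟨_, ⟨n, w, g, hp, rfl, rfl⟩, h1⟩ := hH
  obtain ⟨hC, hv, hs, -⟩ := hp.cc
  generalize pe (n + 1) g = C at h1 hC hv hs
  rw [← hv] at hd ⊢
  have k : ∀ v, nd Bs v ∈ (G.quo T Bs).vs C → nd Bs v = {v} := fun v hv =>
    ((nd_cases h.hy.pd v).resolve_left (disjoint_left.1 hd hv)).2
  have ms : ∀ e ∈ C, (G.quo T Bs).s e = {G.s e} ∧ (G.quo T Bs).t e = {G.t e} := fun e he =>
    ⟨k _ (s_mem_vs (G := G.quo T Bs) he), k _ (t_mem_vs (G := G.quo T Bs) he)⟩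
  have at' : ∀ e ∈ C, ∀ v, (G.quo T Bs).At e {v} ↔ G.At e v := fun e he v => by
    simp only [At, (ms e he).1, (ms e he).2, singleton_inj]
  have mv : ∀ v, {v} ∈ (G.quo T Bs).vs C ↔ v ∈ G.vs C := fun v => by
    rw [mem_vs, mem_vs]
    exact exists_congr fun e => and_congr_right fun he => at' e he v
  have hT : C ⊆ G.ins T := fun e he => (mem_quo.1 (hs he)).1
  have cc : G.Cc C := by
    refine ⟨hC.1, fun v => Eq.trans (sum_congr rfl fun e he => ?_) (hC.2.1 {v}),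
      fun a ha b hb => ?_⟩
    · simp only [(ms e he).1, (ms e he).2, singleton_inj]
    · refine (hC.2.2 _ ((mv a).2 ha) _ ((mv b).2 hb)).closed
        (P := fun N => ∀ v, N = {v} → G.Rch C a v) (fun e he => ?_)
        (fun v r => singleton_inj.1 r ▸ Rch.refl _ _) b rfl
      simp only [(ms e he).1, (ms e he).2, singleton_inj, forall_eq']
      exact ⟨fun r => r.trans (rch_edge he), fun r => r.trans (rch_edge he).symm⟩
  have e1 : un T Bs ((G.quo T Bs).vs C) = G.vs C := ext fun v => by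
    rw [mem_un]
    refine ⟨fun r => (mv v).1 (k v r.2 ▸ r.2), fun r => ⟨(sub_ins_iff.1 hT).2 r, ?_⟩⟩
    obtain ⟨e, he, rfl | rfl⟩ := mem_vs.1 r
    exacts [s_mem_vs (G := G.quo T Bs) he, t_mem_vs (G := G.quo T Bs) he]
  refine ⟨C, h1, e1.symm ▸ (pure_odd (hT.trans ins_sub_A) cc h1).2.2.cov ?_⟩
  rintro t ⟨B, b1, b2, -⟩
  obtain ⟨e, he⟩ := card_pos.1 ((h.hy.bx B b1).2.1.1 ▸ Nat.succ_pos 3 : 0 < (G.cut B).card)
  have b3 := ie_mem (cut_sub_tch he)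
  exact absurd b1 (disjoint_left.1 hd (nd_of_mem h.hy.pd b1 b3 ▸ (mem_un.1 (e1 ▸ b2 b3)).2))

end SG

end Pool.Agent.Work.MP_8c679b_co
end

-- merged part: Pool.Agent.Work.MP_8c679b_co.A3.E3
section
/-!
A ring of the quotient without one box is a context for this box.
-/

set_option autoImplicit false

namespace Pool.Agent.Work.MP_8c679b_co

open Finset

namespace SG

variable {V E : Type} [Fintype V] [DecidableEq V] [DecidableEq E] {G : SG V E}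
  {T W W' X X' X1 X2 X3 Y N N2 N3 B : Finset V} {Bs H D M : Finset (Finset V)} {v0 v : V}
  {O O' O2 O3 F L L1 L2 : Finset E} {K K' : Set (Finset E)} {a b c d a2 b2 c2 d2 a3 b3 c3 d3 : E}
  {ε ε1 ε2 g l s s2 π : ZMod 2} {C C' : Rl → Prop} {fr : Prop}
  {xf : Finset V → E → E → ZMod 2 → Finset V}

theorem E3_node (hH : (G.quo T Bs).Cw H F) (hN : N ∈ H) : ∃ v ∈ T, N = nd Bs v := by
  obtain ⟨n, w, g, hp, rfl, -⟩ := hH
  obtain ⟨i, hi, rfl⟩ := mem_pv.1 hN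
  exact quo_cyc_node hp i hi

theorem E3_two (h : G.Eh T Bs v0) (hH : (G.quo T Bs).Cw H F) (hB : B ∈ Bs) (hm : B ∈ H)
    (ha : a ∈ F) (hb : b ∈ F) (a1 : a ∈ G.cut B) (b1 : b ∈ G.cut B) (hab : a ≠ b) (hc : c ∈ F)
    (c1 : c ∈ G.tch B) : c = a ∨ c = b := by
  have : Nonempty E := ⟨a⟩
  have k := hH.deg hm
  rw [h.cut_box hB] at k
  have k1 : ({a, b} : Finset E) = F ∩ G.cut B := eq_of_subset_of_card_le
    (insert_subset (mem_inter.2 ⟨ha, a1⟩) (singleton_subset_iff.2 (mem_inter.2 ⟨hb, b1⟩)))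
    (by rw [k, card_pair hab])
  have k2 : c ∈ G.cut B := (mem_tch_iff.1 c1).resolve_left fun r => (mem_quo.1 (hH.sub hc)).2
    ((nd_of_mem h.hy.pd hB (mem_ins.1 r).2.1).trans (nd_of_mem h.hy.pd hB (mem_ins.1 r).2.2).symm)
  simpa using k1.ge (mem_inter.2 ⟨hc, k2⟩)

theorem E3_del (h : G.Eh T Bs v0) (hH : (G.quo T Bs).Cw H F) (hN : N ∈ Bs)
    (hq : G.Q4 N a b c d) (ha : a ∈ F) (hb : b ∈ F) :
    ∃ n w g, (G.quo T Bs).Pth (G.quo T Bs).A n w g ∧ pv n w = H.erase N ∧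
      F = insert a (insert b (pe n g)) ∧ G.par F = G.n a + G.n b + G.par (pe n g) ∧
      G.Trk T n w (es a b n g) := by
  have : Nonempty E := ⟨a⟩
  have hm := h.on_ring hN hH ha hq.mem.1
  obtain ⟨x, y, Y, F', j1, j2, hp, h1, h2, h3⟩ : ∃ x y Y F', (G.quo T Bs).Je a N x ∧
      (G.quo T Bs).Je b N y ∧ (G.quo T Bs).Pw x y Y F' ∧ N ∉ Y ∧ H = insert N Y ∧
      F = insert a (insert b F') := by
    obtain ⟨e, f, x, y, Y, F', h0, j1, j2, hp, h1, h2, h3, h4⟩ := hH.del hm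
    rw [h.cut_box hN] at h4
    have k1 := h4.le (mem_inter.2 ⟨ha, hq.mem.1⟩)
    have k2 := h4.le (mem_inter.2 ⟨hb, hq.mem.2.1⟩)
    rw [mem_insert, mem_singleton] at k1 k2
    rcases k1 with rfl | rfl <;> rcases k2 with rfl | rfl
    · exact absurd rfl hq.2.1
    · exact ⟨x, y, Y, F', j1, j2, hp, h1, h2, h3⟩
    · exact ⟨y, x, Y, F', j2, j1, hp.symm, h1, h2, h3.trans (insert_comm _ _ _)⟩
    · exact absurd rfl hq.2.1
  have k := (hp.close (hH.sub ha) (hH.sub hb) hq.2.1 j1 j2 h1).2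
  have n1 : ∀ {e z}, (G.quo T Bs).Je e N z → e ∉ F' := fun j r =>
    h1 (hp.ends r (j.at_iff.2 (Or.inl rfl)))
  obtain ⟨n, w, g, hw, rfl, rfl, rfl, rfl⟩ := hp
  refine ⟨n, w, g, hw, by rw [h2, erase_insert h1], h3, h3 ▸ k, (Quo_trk h.hy.pd
    (fun B k => (h.hy.bx B k).1) hw (fun i hi => E3_node hH (h2 ▸ mem_insert_of_mem
      (mem_pv.2 ⟨i, hi, rfl⟩))) (quo_je_inv h.hy.pd (hH.sub ha) j1).2.1
    (quo_je_inv h.hy.pd (hH.sub hb) j2).2.1 (fun _ => hq.2.1)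
    (fun k r => n1 j1 (mem_pe.2 ⟨0, k, r.symm⟩))
    fun i k r => n1 j2 (mem_pe.2 ⟨i, by omega, r⟩)).1⟩

theorem E3_sum {n : ℕ} {w : ℕ → Finset V} (hi : ∀ i ≤ n, ∀ j ≤ n, w i = w j → i = j)
    (hw : pv n w = H.erase N) (f : Finset V → ZMod 2) :
    ∑ i ∈ range (n + 1), (if w i ∈ Bs then f (w i) else 0) = ∑ B ∈ (H ∩ Bs).erase N, f B := by
  rw [← erase_inter, ← hw, ← filter_mem_eq_inter, sum_filter, pv,
    sum_image fun i k j l => hi i (Nat.lt_succ_iff.1 (mem_range.1 k)) j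
      (Nat.lt_succ_iff.1 (mem_range.1 l))]

/-- HINT: `Cw.del` at `N` (and `Pw.symm`) gives a path of the quotient of `T`; `Quo_trk` with the
ends `a, b`; `run_pas` inside the union of the passed sets; single vertices by `vtx_p`,
`HT.third`; a given pass from `x` to `y` is a pass from `e i` to `e (i + 1)` or back
(`Cw.deg`, `Pas0.symm`). -/
theorem Eh.ring_run {Xs : Finset V → Finset V} {Os : Finset V → Finset E}
    {Ks : Finset V → Set (Finset E)} {Cs : Finset V → Rl → Prop} (h : G.Eh T Bs v0)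
    (hH : (G.quo T Bs).Cw H F) (hN : N ∈ Bs) (hq : G.Q4 N a b c d) (ha : a ∈ F) (hb : b ∈ F)
    (hp : ∀ B ∈ Bs, B ∈ H → B ≠ N → Xs B ⊆ B ∧
      ∃ x ∈ F, ∃ y ∈ F, G.Pas0 (Xs B) (Os B) x y ∅ (Ks B) (Cs B))
    (hs : ∀ B R, Cs B R → Cs B fun x y => R y x) (hl : l = G.par F + G.n a + G.n b)
    (hC : ∀ (n : ℕ) (w : ℕ → Finset V) (τ : ℕ → ZMod 2) (Rs : ℕ → Rl),
      (∀ i ≤ n, ∀ j ≤ n, w i = w j → i = j) → pv n w = H.erase N →
      ∑ i ∈ range n, τ (i + 1) = l →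
      (∀ i ≤ n, (w i ∈ Bs → Cs (w i) (Rs i)) ∧ (w i ∉ Bs → (Rs i).P 0)) → C (Rl.chain τ Rs n)) :
    ∃ O, F ⊆ O ∧ G.Pas0 (un T Bs (H \ Bs) ∪ ((H ∩ Bs).erase N).biUnion Xs) O a b ∅
        {t | ∃ B ∈ (H ∩ Bs).erase N, t ∈ Ks B} C ∧
      G.par (O ∩ G.ins (un T Bs (H \ Bs) ∪ ((H ∩ Bs).erase N).biUnion Xs)) =
        l + ∑ B ∈ (H ∩ Bs).erase N, G.par (Os B ∩ G.ins (Xs B)) := by
  obtain ⟨n, w, e0, hw, h1, h2, h3, ht⟩ := E3_del h hH hN hq ha hb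
  have hpd := h.hy.pd
  have hT := h.hT.1
  have m : ∀ i ≤ n, w i ≠ N ∧ w i ∈ H := fun i hi => mem_erase.1 (h1 ▸ mem_pv.2 ⟨i, hi, rfl⟩)
  have hF : ∀ i ≤ n + 1, es a b n e0 i ∈ F := fun i hi => by
    rw [h2]
    unfold es
    split_ifs with k1 k2
    · exact mem_insert_self _ _
    · exact mem_insert_of_mem (mem_insert_of_mem (mem_pe.2 ⟨i - 1, by omega, rfl⟩))
    · exact mem_insert_of_mem (mem_insert_self _ _)
  have hτ : ∑ i ∈ range n, G.n (es a b n e0 (i + 1)) = l := by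
    rw [sum_congr rfl fun i hi => by rw [Quo_es_succ (mem_range.1 hi)], hl, h3]
    have z : ∀ x y z : ZMod 2, z = x + y + z + x + y := by decide
    exact hw.par.symm.trans (z _ _ _)
  have hF' : ∀ f ∈ F, ∃ i ≤ n, f = es a b n e0 i ∨ f = es a b n e0 (i + 1) := fun f hf => by
    rw [h2, mem_insert, mem_insert, mem_pe] at hf
    rcases hf with rfl | rfl | ⟨i, hi, rfl⟩
    exacts [⟨0, Nat.zero_le n, Or.inl rfl⟩, ⟨n, le_rfl, Or.inr Quo_es_last.symm⟩,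
      ⟨i, hi.le, Or.inr (Quo_es_succ hi).symm⟩]
  have ea : es a b n e0 0 = a := rfl
  have eb : es a b n e0 (n + 1) = b := Quo_es_last
  generalize es a b n e0 = e at ht hF hτ hF' ea eb
  have hP : ∀ i ≤ n, G.Pas0 (if w i ∈ Bs then Xs (w i) else w i)
      (if w i ∈ Bs then Os (w i) else {e i, e (i + 1)}) (e i) (e (i + 1)) ∅
      (if w i ∈ Bs then Ks (w i) else ∅)
      (fun R => (w i ∈ Bs → Cs (w i) R) ∧ (w i ∉ Bs → R.P 0)) ∧
      (w i ∉ Bs → G.ins (w i) = ∅) := fun i hi => by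
    obtain ⟨t1, t2, t3⟩ := ht.2.2 i hi
    split_ifs with k
    · obtain ⟨h1, x, hx, y, hy, h2⟩ := hp _ k (m i hi).2 (m i hi).1
      have h3 : ∀ x ∈ F, x ∈ G.cut (Xs (w i)) → x = e i ∨ x = e (i + 1) := fun x hx hc =>
        E3_two h hH k (m i hi).2 (hF i (by omega)) (hF _ (by omega)) t1 t2 t3 hx
          (tch_mono h1 (cut_sub_tch hc))
      refine ⟨?_, fun r => absurd k r⟩
      rcases h3 x hx h2.cut.1 with rfl | rfl <;> rcases h3 y hy h2.cut.2.1 with r | r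
      · exact absurd r.symm h2.1
      · exact r ▸ h2.imp fun R r => ⟨fun _ => r, fun r => absurd k r⟩
      · exact r ▸ h2.symm fun R r => ⟨fun _ => hs _ _ r, fun r => absurd k r⟩
      · exact absurd r.symm h2.1
    · obtain ⟨v, v1, v2⟩ := E3_node hH (m i hi).2
      have v3 : w i = {v} := v2.trans ((nd_cases hpd v).resolve_left (v2 ▸ k)).2
      rw [v3] at t1 t2
      obtain ⟨f, hf⟩ := hT.third h.hc v1 t1 t2 t3
      exact ⟨v3 ▸ (vtx_p (hT.vtx h.hc v1).2.1 hf).imp fun R r => ⟨fun r => absurd r (v3 ▸ k),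
        fun _ => r.1⟩, fun _ => v3 ▸ (hT.vtx h.hc v1).2.1⟩
  have hs : ∀ i ≤ n, (if w i ∈ Bs then Xs (w i) else w i) ⊆ w i := fun i hi => by
    split_ifs with k
    exacts [(hp _ k (m i hi).2 (m i hi).1).1, Subset.rfl]
  have hn : ∀ i ≤ n, ∀ v ∈ w i, nd Bs v = w i := fun i hi v hv => by
    obtain ⟨u, -, k⟩ := E3_node hH (m i hi).2
    exact k ▸ (nd_eq_iff hpd).2 (k ▸ hv)
  have hc : ∀ f ∈ F, f ∈ G.cut N → f ∈ G.cut (T \ N) := fun f k r => by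
    have : Nonempty E := ⟨a⟩
    exact (Spl_sd (h.hy.bx N hN).1 f).2 fun q => not_ins_of_cut (q.2 r) (mem_quo.1 (hH.sub k)).1
  obtain ⟨r1, r2⟩ := run_pas (Y := T \ N) (C0 := C) (fun i hi v hv => mem_sdiff.2
      ⟨ht.1 i hi (hs i hi hv), fun r => (m i hi).1
        ((hn i hi v (hs i hi hv)).symm.trans (nd_of_mem hpd hN r))⟩)
    (fun i hi j hj hij => (ht.2.1 i hi j hj hij).mono (hs i hi) (hs j hj)) (empty_subset _)
    (fun i hi => (hP i hi).1) (ea ▸ hc a ha hq.mem.1) (eb ▸ hc b hb hq.mem.2.1)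
    (ea ▸ eb ▸ hq.2.1) fun Rs k => hC n w _ Rs hw.inj h1 hτ k
  have e1 : (bu n fun i => if w i ∈ Bs then Xs (w i) else w i) =
      un T Bs (H \ Bs) ∪ ((H ∩ Bs).erase N).biUnion Xs := by
    ext v
    rw [mem_bu, mem_union, mem_un, mem_biUnion, ← erase_inter, ← h1]
    constructor
    · rintro ⟨i, hi, k⟩
      split_ifs at k with r
      · exact Or.inr ⟨_, mem_inter.2 ⟨mem_pv.2 ⟨i, hi, rfl⟩, r⟩, k⟩
      · exact Or.inl ⟨ht.1 i hi k, (hn i hi v k).symm ▸ mem_sdiff.2 ⟨(m i hi).2, r⟩⟩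
    · rintro (⟨-, k⟩ | ⟨B, k, r⟩)
      · rw [mem_sdiff] at k
        obtain ⟨i, hi, r⟩ := mem_pv.1 (h1.ge (mem_erase.2 ⟨fun r : nd Bs v = N => k.2 (r ▸ hN), k.1⟩))
        exact ⟨i, hi, by rw [r, if_neg k.2]; exact mem_nd_self⟩
      · obtain ⟨i, hi, rfl⟩ := mem_pv.1 (mem_inter.1 k).1
        exact ⟨i, hi, by rwa [if_pos (mem_inter.1 k).2]⟩
  rw [e1, ea, eb] at r1
  rw [e1] at r2
  refine ⟨_, fun f hf => ?_, r1.cov ?_, ?_⟩
  · obtain ⟨i, hi, k⟩ := hF' f hf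
    exact mem_bu.2 ⟨i, hi, k.elim (fun r => r ▸ (hP i hi).1.cut.2.2.1)
      fun r => r ▸ (hP i hi).1.cut.2.2.2.1⟩
  · rintro t ⟨B, k, r⟩
    rw [← erase_inter, ← h1, mem_inter] at k
    obtain ⟨i, hi, rfl⟩ := mem_pv.1 k.1
    exact Or.inl ⟨t, ⟨i, hi, by simp only [if_pos k.2]; exact r⟩, Subset.rfl⟩
  · rw [r2, hτ, add_comm, ← E3_sum hw.inj h1]
    refine congrArg _ (sum_congr rfl fun i hi => ?_)
    split_ifs with k
    · rfl
    · rw [(hP i (Nat.lt_succ_iff.1 (mem_range.1 hi))).2 k, inter_empty]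
      rfl

theorem bk_rg (hq : G.Q4 N a b c d) (hr : G.Rg N X c d) (hX : N ∩ X' = X)
    (hK : G.Kpv N X c d v ⊆ K) : G.BK1 N X' K v := by
  exact Or.inr (Or.inl ⟨a, b, c, d, hq, hX ▸ hr, fun t ht => ⟨t, hK (hX ▸ ht), Subset.rfl⟩⟩)

theorem E3_cx {Xs : Finset V → Finset V} {Os : Finset V → Finset E}
    {Ks : Finset V → Set (Finset E)} {Cs : Finset V → Rl → Prop} (h : G.Eh T Bs v0)
    (hH : (G.quo T Bs).Cw H F) (hD : Disjoint H D) (hN : N ∈ Bs) (hq : G.Q4 N a b c d)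
    (ha : a ∈ F) (hb : b ∈ F) (hp : ∀ B ∈ Bs, B ∈ H → B ≠ N → ∃ x ∈ F, ∃ y ∈ F, ∃ c d,
      G.Q4 B x y c d ∧ G.Rg B (Xs B) c d ∧ G.Kp B (Xs B) c d ⊆ Ks B ∧
      G.Pas0 (Xs B) (Os B) x y ∅ (Ks B) (Cs B))
    (hs : ∀ B R, Cs B R → Cs B fun x y => R y x) (hl : l = G.par F + G.n a + G.n b)
    (hC : ∀ (n : ℕ) (w : ℕ → Finset V) (τ : ℕ → ZMod 2) (Rs : ℕ → Rl),
      (∀ i ≤ n, ∀ j ≤ n, w i = w j → i = j) → pv n w = H.erase N →
      ∑ i ∈ range n, τ (i + 1) = l →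
      (∀ i ≤ n, (w i ∈ Bs → Cs (w i) (Rs i)) ∧ (w i ∉ Bs → (Rs i).P 0)) → C (Rl.chain τ Rs n)) :
    ∃ O, F ⊆ O ∧ G.par (O ∩ G.ins (un T Bs (H \ Bs) ∪ ((H ∩ Bs).erase N).biUnion Xs)) =
        l + ∑ B ∈ (H ∩ Bs).erase N, G.par (Os B ∩ G.ins (Xs B)) ∧
      G.Ecx T Bs (T \ un T Bs D) N a b c d (un T Bs (H \ Bs) ∪ ((H ∩ Bs).erase N).biUnion Xs) O
        {t | ∃ B ∈ (H ∩ Bs).erase N, t ∈ Ks B} C := by
  have hpd := h.hy.pd
  obtain ⟨O, o1, o2, o3⟩ := h.ring_run (Xs := Xs) (Os := Os) (Ks := Ks) hH hN hq ha hb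
    (fun B k1 k2 k3 => by
      obtain ⟨x, hx, y, hy, c, d, -, r, -, p⟩ := hp B k1 k2 k3
      exact ⟨r.sub, x, hx, y, hy, p⟩) hs hl hC
  have key : ∀ v ∈ un T Bs (H \ Bs) ∪ ((H ∩ Bs).erase N).biUnion Xs, v ∈ T ∧ nd Bs v ∈ H ∧
      ∀ B ∈ Bs, v ∈ B → B ≠ N ∧ v ∈ Xs B := fun v hv => by
    rcases mem_union.1 hv with k | k
    · rw [mem_un, mem_sdiff] at k
      exact ⟨k.1, k.2.1, fun B k1 k2 => absurd ((nd_of_mem hpd k1 k2).symm ▸ k1) k.2.2⟩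
    · obtain ⟨B, k1, k2⟩ := mem_biUnion.1 k
      rw [mem_erase, mem_inter] at k1
      obtain ⟨_, -, _, -, _, _, -, r, -⟩ := hp B k1.2.2 k1.2.1 k1.1
      have k3 := nd_of_mem hpd k1.2.2 (r.sub k2)
      refine ⟨(h.hy.bx B k1.2.2).1 (r.sub k2), k3.symm ▸ k1.2.1, fun B' k4 k5 => ?_⟩
      obtain rfl : B' = B := (nd_of_mem hpd k4 k5).symm.trans k3
      exact ⟨k1.1, k2⟩
  have hm := h.on_ring hN hH ha hq.mem.1
  have out : ∀ v ∈ T, nd Bs v ∈ H → v ∈ T \ un T Bs D := fun v k r =>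
    mem_sdiff.2 ⟨k, fun q => disjoint_left.1 hD r (mem_un.1 q).2⟩
  refine ⟨O, o1, o3, h.compl (h.rgn_un D), hN, fun v k => out v ((h.hy.bx N hN).1 k)
    ((nd_of_mem hpd hN k).symm ▸ hm), hq, fun v k => out v (key v k).1 (key v k).2.1,
    disjoint_left.2 fun v k r => ((key v k).2.2 N hN r).1 rfl, o2, fun B k1 k2 v => ?_⟩
  by_cases k3 : B ∈ H
  · obtain ⟨x, -, y, -, c, d, q, r, s, -⟩ := hp B k1 k3 k2
    have k4 := mem_erase.2 ⟨k2, mem_inter.2 ⟨k3, k1⟩⟩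
    refine bk_rg q r ?_ fun t ht => ⟨B, k4, s (kpv_sub ht)⟩
    ext u
    rw [mem_inter]
    exact ⟨fun k => ((key u k.2).2.2 B k1 k.1).2,
      fun k => ⟨r.sub k, mem_union_right _ (mem_biUnion.2 ⟨B, k4, k⟩)⟩⟩
  · exact Or.inl (disjoint_left.2 fun u k r => k3 (nd_of_mem hpd k1 k ▸ (key u r).2.1))

theorem E3_p {σ : Finset V → ZMod 2} {n : ℕ} {w : ℕ → Finset V} {τ : ℕ → ZMod 2} {Rs : ℕ → Rl}
    (hi : ∀ i ≤ n, ∀ j ≤ n, w i = w j → i = j) (hw : pv n w = H.erase N)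
    (hτ : ∑ i ∈ range n, τ (i + 1) = l)
    (h : ∀ i ≤ n, (w i ∈ Bs → (Rs i).P (σ (w i))) ∧ (w i ∉ Bs → (Rs i).P 0)) :
    (Rl.chain τ Rs n).P (l + ∑ B ∈ (H ∩ Bs).erase N, σ B) := by
  have k := Rl.ch_p (τ := τ) (s := fun i => if w i ∈ Bs then σ (w i) else 0) (n := n) (Rs := Rs)
    fun i r => by
      split_ifs with q
      exacts [(h i r).1 q, (h i r).2 q]
  rwa [Rl.sg, E3_sum hi hw, hτ, add_comm] at k

/-- no other box.  HINT: `Eh.ring_run`, `ch_p`. -/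
theorem Eh.cx0 (h : G.Eh T Bs v0) (hH : (G.quo T Bs).Cw H F) (hD : Disjoint H D) (hN : N ∈ Bs)
    (hq : G.Q4 N a b c d) (ha : a ∈ F) (hb : b ∈ F) (h1 : ∀ B ∈ Bs, B ∈ H → B = N)
    (hl : l = G.par F + G.n a + G.n b) :
    ∃ O, F ⊆ O ∧ G.par (O ∩ G.ins (un T Bs (H \ Bs))) = l ∧
      G.Ecx T Bs (T \ un T Bs D) N a b c d (un T Bs (H \ Bs)) O ∅ (Rl.P l) := by
  have e : (H ∩ Bs).erase N = ∅ := eq_empty_of_forall_notMem fun B k =>
    (mem_erase.1 k).1 (h1 B (mem_inter.1 (mem_erase.1 k).2).2 (mem_inter.1 (mem_erase.1 k).2).1)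
  have k := E3_cx (Xs := fun _ => ∅) (Os := fun _ => ∅) (Ks := fun _ => ∅)
    (Cs := fun _ => Rl.P 0) h hH hD hN hq ha hb (fun B k1 k2 k3 => absurd (h1 B k1 k2) k3)
    (fun _ _ k => k.swap) hl fun n w τ Rs k1 k2 k3 k4 => E3_p (σ := fun _ => 0) k1 k2 k3 k4
  simpa [e] using k

/-- one other box -/
theorem Eh.cx1 (h : G.Eh T Bs v0) (hH : (G.quo T Bs).Cw H F) (hD : Disjoint H D) (hN : N ∈ Bs)
    (hq : G.Q4 N a b c d) (ha : a ∈ F) (hb : b ∈ F) (hN2 : N2 ∈ Bs) (hne : N2 ≠ N)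
    (hq2 : G.Q4 N2 a2 b2 c2 d2) (ha2 : a2 ∈ F) (hb2 : b2 ∈ F)
    (h1 : ∀ B ∈ Bs, B ∈ H → B = N ∨ B = N2) (hr : G.Rg N2 X2 c2 d2)
    (hp : G.Qr N2 X2 a2 b2 c2 d2 s2 π) (hl : l = G.par F + G.n a + G.n b) :
    ∃ O, F ⊆ O ∧ G.par (O ∩ G.ins (un T Bs (H \ Bs) ∪ X2)) = l + π ∧
      G.Ecx T Bs (T \ un T Bs D) N a b c d (un T Bs (H \ Bs) ∪ X2) O (G.Kp N2 X2 c2 d2)
        (Rl.P (l + s2)) := by
  have e : (H ∩ Bs).erase N = {N2} := by
    ext B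
    rw [mem_erase, mem_inter, mem_singleton]
    exact ⟨fun k => (h1 B k.2.2 k.2.1).resolve_left k.1,
      fun k => k ▸ ⟨hne, h.on_ring hN2 hH ha2 hq2.mem.1, hN2⟩⟩
  obtain ⟨O2, p1, p2⟩ := hp
  have k := E3_cx (Xs := fun _ => X2) (Os := fun _ => O2) (Ks := fun _ => G.Kp N2 X2 c2 d2)
    (Cs := fun _ => Rl.P s2) h hH hD hN hq ha hb (fun B k1 k2 k3 => by
      obtain rfl := (h1 B k1 k2).resolve_left k3
      exact ⟨a2, ha2, b2, hb2, c2, d2, hq2, hr, Set.Subset.rfl, p2⟩)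
    (fun _ _ k => k.swap) hl fun n w τ Rs k1 k2 k3 k4 => E3_p (σ := fun _ => s2) k1 k2 k3 k4
  simpa [e, p1] using k

/-- Any number of other boxes, passed without tolerance.
HINT: `Eh.ring_q4`, `Pk.rg`, `Pk.qr`; all signs are zero except at one box; `ch_p`. -/
theorem Eh.cxz (h : G.Eh T Bs v0) (hx : G.PkA T xf) (hH : (G.quo T Bs).Cw H F) (hD : Disjoint H D)
    (hN : N ∈ Bs) (hq : G.Q4 N a b c d) (ha : a ∈ F) (hb : b ∈ F)
    (hl : l = G.par F + G.n a + G.n b ∨ ∃ B ∈ Bs, B ∈ H ∧ B ≠ N) :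
    ∃ X O K, un T Bs (H \ Bs) ⊆ X ∧ G.Ecx T Bs (T \ un T Bs D) N a b c d X O K (Rl.P l) := by
  obtain ⟨σ, hσ⟩ : ∃ σ : Finset V → ZMod 2,
      G.par F + G.n a + G.n b + ∑ B ∈ (H ∩ Bs).erase N, σ B = l := by
    rcases hl with rfl | ⟨B, k1, k2, k3⟩
    · exact ⟨fun _ => 0, by simp⟩
    · refine ⟨fun Z => if Z = B then G.par F + G.n a + G.n b + l else 0, ?_⟩
      rw [sum_ite_eq', if_pos (mem_erase.2 ⟨k3, mem_inter.2 ⟨k2, k1⟩⟩), ← add_assoc, z2_add_self,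
        zero_add]
  have hp : ∀ B ∈ Bs, B ∈ H → B ≠ N → ∃ X O K, ∃ x ∈ F, ∃ y ∈ F, ∃ c d, G.Q4 B x y c d ∧
      G.Rg B X c d ∧ G.Kp B X c d ⊆ K ∧ G.Pas0 X O x y ∅ K (Rl.P (σ B)) := fun B k1 k2 _ => by
    obtain ⟨x, y, c, d, q, hx', hy⟩ := h.ring_q4 k1 hH k2
    have k := hx B (h.hy.bx B k1).1 (h.hy.bx B k1).2.1 x y c d q
    obtain ⟨π, O, -, p⟩ := k.qr (σ B)
    exact ⟨_, O, _, x, hx', y, hy, c, d, q, k.rg (σ B), Set.Subset.rfl, p⟩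
  choose! Xs Os Ks hp using hp
  obtain ⟨O, -, -, k⟩ := E3_cx (Cs := fun B => Rl.P (σ B)) h hH hD hN hq ha hb hp
    (fun _ _ k => k.swap) rfl fun n w τ Rs k1 k2 k3 k4 => E3_p k1 k2 k3 k4
  exact ⟨_, O, _, subset_union_left, hσ ▸ k⟩

/-- two other boxes with good passes.  HINT: `ch_gg`. -/
theorem Eh.cx2 (h : G.Eh T Bs v0) (hH : (G.quo T Bs).Cw H F) (hD : Disjoint H D) (hN : N ∈ Bs)
    (hq : G.Q4 N a b c d) (ha : a ∈ F) (hb : b ∈ F) (hN2 : N2 ∈ Bs) (hne : N2 ≠ N)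
    (hq2 : G.Q4 N2 a2 b2 c2 d2) (ha2 : a2 ∈ F) (hb2 : b2 ∈ F) (hN3 : N3 ∈ Bs) (hne3 : N3 ≠ N)
    (h23 : N2 ≠ N3) (hq3 : G.Q4 N3 a3 b3 c3 d3) (ha3 : a3 ∈ F) (hb3 : b3 ∈ F)
    (h1 : ∀ B ∈ Bs, B ∈ H → B = N ∨ B = N2 ∨ B = N3) (r2 : G.Rg N2 X2 c2 d2)
    (p2 : G.Pas0 X2 O2 a2 b2 ∅ (G.Kp N2 X2 c2 d2) Rl.Gd) (r3 : G.Rg N3 X3 c3 d3)
    (p3 : G.Pas0 X3 O3 a3 b3 ∅ (G.Kp N3 X3 c3 d3) Rl.Gd) :
    ∃ O K, G.Ecx T Bs (T \ un T Bs D) N a b c d (un T Bs (H \ Bs) ∪ X2 ∪ X3) O K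
      fun R => ∀ l, R.Mt l := by
  have m2 := h.on_ring hN2 hH ha2 hq2.mem.1
  have m3 := h.on_ring hN3 hH ha3 hq3.mem.1
  have e : (H ∩ Bs).erase N = {N2, N3} := by
    ext B
    rw [mem_erase, mem_inter, mem_insert, mem_singleton]
    exact ⟨fun k => (h1 B k.2.2 k.2.1).resolve_left k.1,
      fun k => k.elim (fun k => k ▸ ⟨hne, m2, hN2⟩) fun k => k ▸ ⟨hne3, m3, hN3⟩⟩
  obtain ⟨O, -, -, k⟩ := E3_cx (Xs := fun B => if B = N2 then X2 else X3)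
    (Os := fun B => if B = N2 then O2 else O3)
    (Ks := fun B => if B = N2 then G.Kp N2 X2 c2 d2 else G.Kp N3 X3 c3 d3) (Cs := fun _ => Rl.Gd)
    (C := fun R => ∀ l, R.Mt l) h hH hD hN hq ha hb (fun B k1 k2 k3 => by
      rcases (h1 B k1 k2).resolve_left k3 with rfl | rfl
      · simp only [if_true]
        exact ⟨a2, ha2, b2, hb2, c2, d2, hq2, r2, Set.Subset.rfl, p2⟩
      · simp only [if_neg h23.symm]
        exact ⟨a3, ha3, b3, hb3, c3, d3, hq3, r3, Set.Subset.rfl, p3⟩)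
    (fun _ _ k => k.swap) rfl fun n w τ Rs k1 k2 _ k4 => by
      obtain ⟨i, hi, i1⟩ := mem_pv.1 (k2.ge (mem_erase.2 ⟨hne, m2⟩))
      obtain ⟨j, hj, j1⟩ := mem_pv.1 (k2.ge (mem_erase.2 ⟨hne3, m3⟩))
      refine Rl.ch_gg hi hj (fun r => h23 (i1.symm.trans (r ▸ j1))) (fun k hk r1 r2 => ?_)
        ((k4 i hi).1 (i1 ▸ hN2)) ((k4 j hj).1 (j1 ▸ hN3))
      have k5 := mem_erase.1 (k2.le (mem_pv.2 ⟨k, hk, rfl⟩))
      refine ⟨0, (k4 k hk).2 fun r => ?_⟩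
      rcases (h1 _ r k5.2).resolve_left k5.1 with q | q
      exacts [r1 (k1 k hk i hi (q.trans i1.symm)), r2 (k1 k hk j hj (q.trans j1.symm))]
  rw [e, biUnion_insert, singleton_biUnion, if_pos rfl, if_neg h23.symm, ← union_assoc] at k
  exact ⟨O, _, k⟩

end SG

end Pool.Agent.Work.MP_8c679b_co
end

-- merged part: Pool.Agent.Work.MP_8c679b_co.A3.E4
section
/-!
Closing a context by a pass of its box.
-/

set_option autoImplicit false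

namespace Pool.Agent.Work.MP_8c679b_co

open Finset

namespace SG

variable {V E : Type} [Fintype V] [DecidableEq V] [DecidableEq E] {G : SG V E}
  {T W W' X X' X1 X2 X3 Y N N2 N3 B : Finset V} {Bs H D M : Finset (Finset V)} {v0 v : V}
  {O O' O2 O3 F L L1 L2 : Finset E} {K K' : Set (Finset E)} {a b c d a2 b2 c2 d2 a3 b3 c3 d3 : E}
  {ε ε1 ε2 g l s s2 π : ZMod 2} {C C' : Rl → Prop} {fr : Prop}
  {xf : Finset V → E → E → ZMod 2 → Finset V}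

theorem cls_pm {R R' : Rl} {α β : ZMod 2} (h : R.P l) (h' : R'.Mt (l + α + β)) :
    ∃ x y, R x y ∧ R' (-(chi α) * x) (-(chi β) * y) := by
  obtain ⟨k, hk⟩ := h
  obtain ⟨x, y, h1, h2⟩ := h' (-(chi α) * k)
  have z : ∀ (l α β : ZMod 2) (k x y : ZMod 3), x + chi (l + α + β) * y = -(chi α) * k →
      -(chi α) * x + chi l * (-(chi β) * y) = k ∧ -(chi α) * (-(chi α) * x) = x ∧
        -(chi β) * (-(chi β) * y) = y := by decide
  obtain ⟨k1, k2, k3⟩ := z l α β k x y h2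
  exact ⟨_, _, hk _ _ k1, by rw [k2, k3]; exact h1⟩

theorem cls_mp {R R' : Rl} {α β : ZMod 2} (h : ∀ l, R.Mt l) (h' : R'.P s) :
    ∃ x y, R x y ∧ R' (-(chi α) * x) (-(chi β) * y) := by
  obtain ⟨k, hk⟩ := h'
  obtain ⟨x, y, h1, h2⟩ := h (s + α + β) (-(chi α) * k)
  have z : ∀ (l α β : ZMod 2) (k x y : ZMod 3), x + chi (l + α + β) * y = -(chi α) * k →
      -(chi α) * x + chi l * (-(chi β) * y) = k := by decide
  exact ⟨x, y, h1, hk _ _ (z s α β k x y h2)⟩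

/-- HINT: `close_two` with `hp.symm`, `BK1.congr`, `Eh.fin`. -/
theorem Ecx.fin (h : G.Eh T Bs v0) (hx : G.Ecx T Bs Y N a b c d X O K C)
    (hp : G.Pas0 X' O' a b ∅ K' C') (hX' : X' ⊆ Y) (hd : Disjoint X X')
    (ho : ∀ B ∈ Bs, B ≠ N → Disjoint B X') (hb : G.BK1 N X' K' v)
    (hC : ∀ R R', C R → C' R' → ∃ x y, R x y ∧ R' (-(chi (G.n a)) * x) (-(chi (G.n b)) * y))
    (hg : G.Gd2 T (Y \ (X ∪ X')))
    (hε : G.FH (Y \ (X ∪ X')) ∨ g = G.par (O ∩ G.ins X) + G.par (O' ∩ G.ins X') +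
      (G.n a + G.n b) + G.nu (Y \ (X ∪ X'))) :
    ∃ O'', G.par O'' = g ∧ G.Abs0 Y O'' (G.ins T) (G.Kb Bs Y v) := by
  have z : ∀ (α : ZMod 2) (x : ZMod 3), x = -(chi α) * (-(chi α) * x) := by decide
  obtain ⟨k1, k2⟩ := close_two (Y := Y) hx.pas
    (hp.symm (C' := fun R => C' fun x y => R y x) fun _ k => k) hd (empty_subset _) hx.hX hX'
    fun R1 R2 r1 r2 => by
      obtain ⟨x, y, k1, k2⟩ := hC R1 _ r1 r2
      exact ⟨x, y, _, k1, k2, z _ x⟩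
  refine h.fin hx.rg (union_subset hx.hX hX') k1 (fun B hB => ?_) hg (k2 ▸ hε)
  by_cases k : B = N
  · subst k
    refine hb.congr ?_ Set.subset_union_right
    rw [inter_union_distrib_left, disjoint_iff_inter_eq_empty.1 hx.dj.symm, empty_union]
  · refine (hx.bk B hB k v).congr ?_ Set.subset_union_left
    rw [inter_union_distrib_left, disjoint_iff_inter_eq_empty.1 (ho B hB k), union_empty]

/-- the same for a pass inside the box that closes as a pass of sign `s` does -/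
theorem Ecx.fin_mt (h : G.Eh T Bs v0) (hx : G.Ecx T Bs Y N a b c d X O K (Rl.P l))
    (hs : s + 1 = l + G.n a + G.n b) (hp : G.Pas0 X' O' a b ∅ K' (Rl.Mt (s + 1))) (hX' : X' ⊆ N)
    (hb : G.BK1 N X' K' v) (hg : G.Gd2 T (Y \ (X ∪ X')))
    (hε : G.FH (Y \ (X ∪ X')) ∨ g = G.par (O ∩ G.ins X) + G.par (O' ∩ G.ins X') +
      (G.n a + G.n b) + G.nu (Y \ (X ∪ X'))) :
    ∃ O'', G.par O'' = g ∧ G.Abs0 Y O'' (G.ins T) (G.Kb Bs Y v) := by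
  exact hx.fin h hp (hX'.trans hx.sub) (hx.dj.mono_right hX')
    (fun B hB k => (h.hy.pd B hB N hx.mem k).mono_right hX') hb
    (fun R R' r r' => cls_pm r (hs ▸ r')) hg hε

omit [Fintype V] in
theorem E4_gd (g1 : G.Gd2 T (Y \ (X ∪ N))) (g2 : fr → G.Gd2 T (Y \ X)) (h : fr ∨ X' = N) :
    G.Gd2 T (Y \ (X ∪ X')) :=
  h.elim (fun k => (g2 k).mono (sdiff_subset_sdiff Subset.rfl subset_union_left)) fun k => k ▸ g1

theorem E4_z1 : ∀ g p q r u : ZMod 2, g = p + (g + p + q + r) + q + r ∧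
    (g = p + u + q + r ∨ g = p + u + q + (r + 1)) := by decide

/-- HINT: `Eh.zero`, `P.mt`, second case of `BK1`, `Gd2.mono`. -/
theorem can_z (h : G.Eh T Bs v0) (hx : G.Ecx T Bs Y N a b c d X O K (Rl.P l))
    (hs : s + 1 = l + G.n a + G.n b) (hp : G.Lz N a b c d s fr)
    (g1 : G.Gd2 T (Y \ (X ∪ N))) (g2 : fr → G.Gd2 T (Y \ X)) :
    ∃ ε, G.Ea0 Bs Y (G.ins T) ε := by
  obtain ⟨X', π, hr, hf, O', -, hp⟩ := hp
  obtain ⟨v, hv⟩ := h.zero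
  obtain ⟨O'', -, k⟩ := hx.fin_mt h hs (hp.imp fun R k => k.mt) hr.sub
    (bk_rg (v := v) hx.q4 hr (inter_eq_right.2 hr.sub) kpv_sub) (E4_gd g1 g2 hf) (Or.inr rfl)
  exact ⟨_, O'', rfl, hv Y ▸ k⟩

/-- HINT: first case: choose the parity of the pass.  Second case, split `X2` with tail
`Z = N \ X2`: state A passes `X2`, tolerance `ie X2 x` for a link `x` (`cross_link`, third case of
`BK1`).  If the rest `W0 = Y \ (X ∪ X2)` is not `FH` then `Z` is a four-cycle (`ocs_box` or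
`us_iso`), state B passes `X'`, and `nu_drop` (with `ocs_disj`) shows that the rests of the two
states have different `nu`. -/
theorem can_w (h : G.Eh T Bs v0) (hx : G.Ecx T Bs Y N a b c d X O K (Rl.P l))
    (hs : s + 1 = l + G.n a + G.n b) (hp : G.Lwn N a b c d s fr)
    (g1 : G.Gd2 T (Y \ (X ∪ N))) (g2 : fr → G.Gd2 T (Y \ X)) (g : ZMod 2) :
    G.Ea1 Bs Y (G.ins T) g := by
  have hc := h.hc
  have hT := h.hT.1
  have hN := (h.hy.bx N hx.mem).1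
  have one : ∀ X' π, G.Rg N X' c d → G.Tp N X' a b c d s π → G.Gd2 T (Y \ (X ∪ X')) →
      g = G.par (O ∩ G.ins X) + π + (G.n a + G.n b) + G.nu (Y \ (X ∪ X')) →
      G.Ea1 Bs Y (G.ins T) g := by
    rintro X' π hr ⟨O', v, -, rfl, hp⟩ hg k
    obtain ⟨O'', k1, k2⟩ := hx.fin_mt h hs hp hr.sub
      (bk_rg hx.q4 hr (inter_eq_right.2 hr.sub) Set.Subset.rfl) hg (Or.inr k)
    exact ⟨O'', v, k1, k2⟩
  rcases hp with ⟨X', hr, hf, hp⟩ | ⟨hf, X2, hsp, hub, ⟨O2, o2, p2⟩, h4⟩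
  · exact one X' _ hr (hp _) (E4_gd g1 g2 hf) (E4_z1 g _ _ _ 0).1
  obtain ⟨-, -, -, -, -, -, -, -, -, -, -, -, x, y, q1, q2⟩ := hsp.str hc hT hN hx.q4
  have stA : G.FH (Y \ (X ∪ X2)) ∨
      g = G.par (O ∩ G.ins X) + s + (G.n a + G.n b) + G.nu (Y \ (X ∪ X2)) →
      G.Ea1 Bs Y (G.ins T) g := fun k => by
    obtain ⟨O'', k1, k2⟩ := hx.fin_mt h hs (p2.imp fun R k => k.mt) hsp.1 (v := G.ie X2 x)
      (Or.inr (Or.inr fun S s1 s2 s3 => by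
        by_cases k1 : S ⊆ X2
        · exact Or.inr ⟨_, ⟨S, k1, s2, rfl⟩, Subset.rfl⟩
        · exact Or.inl (by_contra fun k2 =>
            s3 (cross_link hc hT hN hx.q4 hsp q1 s1 s2 k1 k2).2.2)))
      (E4_gd g1 g2 (Or.inl hf)) (o2 ▸ k)
    exact ⟨O'', _, k1, k2⟩
  by_cases hF : G.FH (Y \ (X ∪ X2))
  · exact stA (Or.inl hF)
  have hZ : N \ X2 ⊆ Y \ (X ∪ X2) := fun u hu => mem_sdiff.2 ⟨hx.sub (mem_sdiff.1 hu).1,
    fun k => (mem_union.1 k).elim (fun k => disjoint_left.1 hx.dj k (mem_sdiff.1 hu).1)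
      (mem_sdiff.1 hu).2⟩
  obtain ⟨z1, z2, z3, z4, -⟩ := us_iso hc hT (sdiff_subset.trans hx.rg.1) hF hZ ⟨q2.card, hub⟩
  obtain ⟨X', hr, hss, hp⟩ := h4 z4
  have hD : G.ins (N \ X2) ∈ G.ocs (Y \ (X ∪ X2)) := mem_ocs.2 ⟨ins_mono hZ, z1, z2⟩
  have hn : G.nu (Y \ (X ∪ X')) = G.nu (Y \ (X ∪ X2)) + 1 := by
    refine nu_drop hc hF hD (sdiff_subset_sdiff Subset.rfl (union_subset_union_right hss.subset))
      (fun k => ?_) fun D' d1 d2 u hu => ?_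
    · obtain ⟨u, u1, u2⟩ := exists_of_ssubset hss
      exact (mem_sdiff.1 (k (z3.symm ▸ mem_sdiff.2 ⟨hr.sub u1, u2⟩))).2 (mem_union_right _ u1)
    · obtain ⟨u1, u2⟩ := mem_sdiff.1 ((ocs_vs d1).1 hu)
      refine mem_sdiff.2 ⟨u1, fun k => (mem_union.1 k).elim (fun k => u2 (mem_union_left _ k))
        fun k => disjoint_left.1 (ocs_disj hc hF hD d1 d2) hu ?_⟩
      exact z3.symm ▸ mem_sdiff.2 ⟨hr.sub k, fun k' => u2 (mem_union_right _ k')⟩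
  rcases (E4_z1 g (G.par (O ∩ G.ins X)) (G.n a + G.n b) (G.nu (Y \ (X ∪ X2))) s).2 with k | k
  · exact stA (Or.inr k)
  · exact one X' s hr hp (E4_gd g1 g2 (Or.inl hf)) (hn ▸ k)

/-- an even set off `X` that meets `N` runs through the rung.
HINT: `Rg.sp`, `Sp.str`, `Sp.link`, `PCtx_rung` with `W = T \ X`, `Rdy.on_even`. -/
theorem rg_on {Z : Finset E} (hc : G.Cub) (hT : G.HT T) (hN : N ⊆ T) (hu : G.US N)
    (hq : G.Q4 N a b c d) (hr : G.Rg N X c d) (hZ : Z ⊆ G.ins (T \ X)) (hE : G.Ev Z)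
    (hm : ¬ Disjoint N (G.vs Z)) :
    X ≠ N ∧ N \ X ⊆ G.vs Z ∧ G.ins (N \ X) ⊆ Z ∧ c ∈ Z ∧ d ∈ Z := by
  have h2 : 2 < N.card := by have := hT.us_card hc hN hu; omega
  obtain ⟨u, u1, u2⟩ := not_disjoint_iff.1 hm
  have u3 := (mem_sdiff.1 ((sub_ins_iff.1 hZ).2 u2)).2
  have hX : X ≠ N := fun k => u3 (k ▸ u1)
  obtain ⟨hsp, h3⟩ := hr.sp hc hT hN hq h2 hX
  obtain ⟨-, -, -, -, -, -, -, v1, -, -, -, -, x, y, q1, q2⟩ := hsp.str hc hT hN hq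
  obtain ⟨-, -, -, -, v2, -⟩ := hsp.link hc hT hN hq q1
  have k : ∀ e ∈ G.cut X, e ∉ G.ins (T \ X) := fun e he => PCtx_no (cut_sub_tch he)
  have hm' : ¬ Disjoint (N \ X) (G.vs Z) := not_disjoint_iff.2 ⟨u, mem_sdiff.2 ⟨u1, u3⟩, u2⟩
  obtain ⟨r1, r2⟩ := PCtx_rung hc hT sdiff_subset (sdiff_subset_sdiff hN Subset.rfl) q2 h3 v2 v1
    (k x q1.mem.2.2.1) (k y q1.mem.2.2.2) hZ hE hm'
  obtain ⟨k1, k2, k3⟩ := r1.on_even hc hT sdiff_subset hZ hE hm'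
  exact ⟨hX, k1, k2, k3 (r2 ▸ mem_insert_self _ _),
    k3 (r2 ▸ mem_insert_of_mem (mem_singleton_self _))⟩

/-- a circuit without one edge is a path -/
theorem E4_path {Z : Finset E} {m : E} {u w : V} (hc : G.Cub) (hT : G.HT T) (hZ : Z ⊆ G.ins T)
    (cZ : G.Cc Z) (hm : m ∈ Z) (hj : G.Je m u w) :
    ∃ P, G.Pp (G.vs Z) P u w ∧ G.Bal P ∧ G.par Z = G.par P + G.n m := by
  have hA := hZ.trans ins_sub_A
  obtain ⟨n, v, g, hp, v0, g0, e⟩ := cZ.cyc hc hA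
    (fun f k => hT.noloop hc (ins_sub_tch (hZ k))) hm (hj.at_iff.2 (Or.inr rfl))
  have hn := hp.pos
  have hq := hp.rot hn
  have j := hp.pth.jn 0 hn
  have v1 : v 1 = u := by
    rw [g0, v0] at j
    refine (hj.at_iff.1 (j.at_iff.2 (Or.inr rfl))).resolve_right fun k => ?_
    have := hp.pth.inj 1 hn 0 (Nat.zero_le _) (k.trans v0.symm)
    omega
  have e0 : (1 + n) % (n + 1) = 0 := by rw [add_comm, Nat.mod_self]
  have e1 : (1 + 0) % (n + 1) = 1 := Nat.mod_eq_of_lt (by omega)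
  have pp := hq.pth.pp hA
  have e2 : pv n (fun k => v ((1 + k) % (n + 1))) = G.vs Z := by
    rw [← e, hp.cc.2.1]
    exact Cw.arcs_img hn v
  simp only [e0, e1, e2, v0, v1] at pp
  obtain ⟨p, hp1, -⟩ := hq.pth.pot
  refine ⟨_, pp, ⟨p, hp1⟩, ?_⟩
  have e3 : pe (n + 1) (fun k => g ((1 + k) % (n + 1))) = Z := (Cw.arcs_img hn g).trans e
  rw [hq.pth.par, ← e3, hq.cc.2.2.2.1, sum_range_succ, e0, g0]

/-- An odd circuit through the rung: the second pair of the double pass is closed along the rung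
edge `m` or along `Z.erase m`; these two paths have different signs.
HINT: `Node_edge`; `Cc.cyc` from `m`, `Cyc.rot`, `Pth.pp`, `Pth.pot`; `pure_p`, `Pp.st`, `Pp.par`,
`wk_close`; third case of `BK1` with `K = G.Kv X v`. -/
theorem dpn_close {Z : Finset E} (hc : G.Cub) (hT : G.HT T) (hN : N ⊆ T) (hu : G.US N)
    (hq : G.Q4 N a b c d) (hr : G.Rg N X c d)
    (hD : ∀ x y, G.Q4 X a b x y → G.DPn N X a b x y) (hZ : Z ∈ G.ocs (T \ X))
    (hm : ¬ Disjoint N (G.vs Z)) (ha : a ∉ G.tch (G.vs Z)) (hb : b ∉ G.tch (G.vs Z))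
    (s : ZMod 2) :
    ∃ X' O K v, (X' = N ∨ X' = N ∪ G.vs Z) ∧ G.BK1 N X' K v ∧ G.par (O ∩ G.ins X') = s ∧
      G.Pas0 X' O a b ∅ K (Rl.Mt (s + 1)) := by
  have h2 : 2 < N.card := by have := hT.us_card hc hN hu; omega
  obtain ⟨zi, zc, zo⟩ := mem_ocs.1 hZ
  obtain ⟨hX, r1, r2, -, -⟩ := rg_on hc hT hN hu hq hr zi zc.2.1 hm
  obtain ⟨hsp, h3⟩ := hr.sp hc hT hN hq h2 hX
  obtain ⟨-, -, -, -, -, -, -, -, ta, tb, -, -, x, y, q1, q2⟩ := hsp.str hc hT hN hq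
  obtain ⟨-, -, -, -, v2, -⟩ := hsp.link hc hT hN hq q1
  obtain ⟨t, v, -, hcov, hw⟩ := hD x y q1 (s + 1)
  obtain ⟨e1, m, m1, m2⟩ := Spl_rung hc hT (sdiff_subset.trans hN) q2.card h3.le
    (Spl_ie q2.mem.1) (Spl_ie q2.mem.2.1) v2
  have bk : ∀ X', G.BK1 N X' (G.Kv X v ∪ ∅) v := fun X' => Or.inr (Or.inr fun S s1 s2 s3 =>
    Or.inr ⟨_, Or.inl ⟨S, hcov S s1 s2 s3, s2, s3, rfl⟩, Subset.rfl⟩)
  have fin : ∀ U P, G.Pp U P (G.ie (N \ X) x) (G.ie (N \ X) y) → G.Bal P → Disjoint X U →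
      a ∉ G.tch U → b ∉ G.tch U → G.par P = t + G.n x + G.n y →
      ∃ O, G.par (O ∩ G.ins (X ∪ U)) = s ∧
        G.Pas0 (X ∪ U) O a b ∅ (G.Kv X v ∪ ∅) (Rl.Mt (s + 1)) := by
    rintro U P pp ⟨p, hp⟩ hd k1 k2 k3
    have k : ∀ e ∈ G.cut X, G.ie (N \ X) e ∈ U → e ∈ G.cut U ∧ G.ie (N \ X) e = G.ie U e :=
      fun e k1 k2 =>
        have k3 := (Ab_link hd (cut_sub_tch k1) (Cut_tch (mem_cut.1 k1).1 ie_at k2)).2
        ⟨k3, eq_ie k3 k2 ie_at⟩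
    obtain ⟨x1, x2⟩ := k x q1.mem.2.2.1 pp.2.2.2.1
    obtain ⟨y1, y2⟩ := k y q1.mem.2.2.2 pp.2.2.2.2
    rw [x2, y2] at pp
    have k4 := pure_p (L := ∅) pp x1 y1 q2.2.1 hp
    rw [← pp.par hp, k3] at k4
    exact wk_close hw k4 (by rw [(pp.st x1 y1 q2.2.1).2, k3]) hd k1 k2
  by_cases k : G.n m = t + G.n x + G.n y
  · obtain ⟨O, k1, k2⟩ := fin (N \ X) {m}
      (by have := Node_edge (ins_sub_A m1) m2; rwa [← e1] at this)
      (Cut_bal1 (hT.noloop hc (tch_mono (sdiff_subset.trans hN) (ins_sub_tch m1))))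
      disjoint_sdiff ta tb (by rw [par, sum_singleton, k])
    rw [union_sdiff_of_subset hr.sub] at k1 k2
    exact ⟨N, O, _, v, Or.inl rfl, bk _, k1, k2⟩
  · obtain ⟨P, pp, pb, pr⟩ := E4_path hc hT (zi.trans (ins_mono sdiff_subset)) zc (r2 m1) m2
    have z : ∀ p q r : ZMod 2, 1 = p + q → q ≠ r → p = r := by decide
    obtain ⟨O, k1, k2⟩ := fin _ P pp pb
      (disjoint_sdiff.mono_right (sub_ins_iff.1 zi).2) ha hb (z _ _ _ (zo ▸ pr) k)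
    have e2 : X ∪ G.vs Z = N ∪ G.vs Z := by
      rw [← union_sdiff_of_subset hr.sub, union_assoc, union_eq_right.2 r1]
    rw [e2] at k1 k2
    exact ⟨_, O, _, v, Or.inr rfl, bk _, k1, k2⟩

/-- HINT: let `XN` be the passed part, `W0 = Y \ (X ∪ XN)`, `W = Y \ (X ∪ N)`.  If `FH W0` or the two
`nu` agree, `Ecx.fin_mt`.  Else `new_cc` gives an odd circuit `Z` of `W0` that meets `N`;
`dpn_close`, `Ecx.fin`; `nu_remove`; boxes off `X` by `ocs_box`, the others by `hno`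
(`rg_on`, `ocs_disj`). -/
theorem can_r (h : G.Eh T Bs v0) (hx : G.Ecx T Bs Y N a b c d X O K (Rl.P l))
    (hs : s + 1 = l + G.n a + G.n b) (hl : G.par (O ∩ G.ins X) = l) (hp : G.Lre N a b c d s fr)
    (g1 : G.Gd2 T (Y \ (X ∪ N))) (g2 : fr → G.Gd2 T (Y \ X))
    (hno : ∀ Z ∈ G.ocs (Y \ X), c ∈ Z →
      (∀ Z' ∈ G.ocs (Y \ (X ∪ N)), Disjoint (G.vs Z') (G.vs Z)) →
      ∀ B ∈ Bs, B ≠ N → ¬ Disjoint B X → Disjoint B (G.vs Z))
    (hg : G.FH (Y \ (X ∪ N)) ∨ g = 1 + G.nu (Y \ (X ∪ N))) : G.Ea1 Bs Y (G.ins T) g := by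
  have hc := h.hc
  have hT := h.hT.1
  obtain ⟨hN, hu, -⟩ := h.hy.bx N hx.mem
  obtain ⟨X', hr, hf, ⟨O', o', hp⟩, hD⟩ := hp
  have hW : Y \ (X ∪ N) ⊆ Y \ (X ∪ X') :=
    sdiff_subset_sdiff Subset.rfl (union_subset_union_right hr.sub)
  have hW' : Y \ (X ∪ X') ⊆ Y \ X := sdiff_subset_sdiff Subset.rfl subset_union_left
  have z : ∀ l s p q r : ZMod 2, s + 1 = l + p + q → 1 + r = l + s + (p + q) + r := by decide
  have z' := z l s (G.n a) (G.n b)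
  by_cases k : G.FH (Y \ (X ∪ X')) ∨ G.nu (Y \ (X ∪ N)) = G.nu (Y \ (X ∪ X'))
  · obtain ⟨O'', k1, k2⟩ := hx.fin_mt h hs (hp.imp fun R k => k.mt) hr.sub (g := g)
      (bk_rg (v := v0) hx.q4 hr (inter_eq_right.2 hr.sub) kpv_sub) (E4_gd g1 g2 hf) (by
        by_cases k' : G.FH (Y \ (X ∪ X'))
        · exact Or.inl k'
        · rw [hl, o', hg.resolve_left fun k => k' (k.mono hW), k.resolve_left k']
          exact Or.inr (z' _ hs))
    exact ⟨O'', v0, k1, k2⟩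
  obtain ⟨hF, hn⟩ := not_or.1 k
  have hg' := hg.resolve_left fun k => hF (k.mono hW)
  obtain ⟨Z, hZ, hZ'⟩ := new_cc hW hn
  have zs := (ocs_vs hZ).1
  have hm : ¬ Disjoint N (G.vs Z) := fun k => hZ' fun u hu => mem_sdiff.2
    ⟨(mem_sdiff.1 (zs hu)).1, fun k' => (mem_union.1 k').elim (mem_sdiff.1 (hW' (zs hu))).2
      fun k' => disjoint_left.1 k k' hu⟩
  have hZT : Z ∈ G.ocs (T \ X') := ocs_mono (sdiff_subset_sdiff hx.rg.1 subset_union_right) hZ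
  obtain ⟨hX, r1, -, r3, -⟩ := rg_on hc hT hN hu hx.q4 hr (mem_ocs.1 hZT).1 (mem_ocs.1 hZ).2.1.2.1 hm
  have h2 : 2 < N.card := by have := hT.us_card hc hN hu; omega
  obtain ⟨-, -, a1, b1⟩ := hr.ie_mem hc hT hN hx.q4 h2
  have dX : Disjoint X (G.vs Z) := disjoint_sdiff.mono_right (zs.trans hW')
  have dX' : Disjoint X' (G.vs Z) :=
    disjoint_sdiff.mono_right (sub_ins_iff.1 (mem_ocs.1 hZT).1).2
  have nt : ∀ e ∈ G.cut X, e ∈ G.cut X' → e ∉ G.tch (G.vs Z) := fun e k1 k2 =>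
    FIN_three dX (hx.dj.mono_right hr.sub) dX'.symm (cut_sub_tch k1) (cut_sub_tch k2)
  obtain ⟨X3, O3, K3, v, e, bk, o3, p3⟩ := dpn_close hc hT hN hu hx.q4 hr (hD hX) hZT hm
    (nt a hx.pas.cut.1 a1) (nt b hx.pas.cut.2.1 b1) s
  rcases e with rfl | rfl
  · obtain ⟨O'', k1, k2⟩ := hx.fin_mt h hs p3 Subset.rfl bk g1 (g := g)
      (Or.inr (by rw [hl, o3, hg']; exact z' _ hs))
    exact ⟨O'', v, k1, k2⟩
  have e : Y \ (X ∪ (N ∪ G.vs Z)) = (Y \ (X ∪ X')) \ G.vs Z := by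
    rw [← union_sdiff_of_subset hr.sub, union_assoc, union_eq_right.2 r1, sdiff_sdiff_left,
      sup_eq_union, union_assoc]
  refine (hx.fin h p3 (union_subset hx.sub (zs.trans sdiff_subset))
    (disjoint_union_right.2 ⟨hx.dj, dX⟩) (fun B hB k => ?_) bk
    (fun R R' r r' => cls_pm r (hs ▸ r'))
    ((g2 (hf.resolve_right hX)).mono (sdiff_subset_sdiff Subset.rfl subset_union_left))
    (Or.inr ?_)).imp fun O'' k => ⟨v, k⟩
  · have dN := h.hy.pd B hB N hx.mem k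
    refine disjoint_union_right.2 ⟨dN, ?_⟩
    by_cases dB : Disjoint B X
    · rcases hx.rg.2 B hB with k1 | k1
      · refine (ocs_box hc hT (sdiff_subset.trans hx.rg.1) hF hZ
          (subset_sdiff.2 ⟨k1, disjoint_union_right.2 ⟨dB, dN.mono_right hr.sub⟩⟩)
          (h.hy.bx B hB).2.1).2.2.resolve_left fun k2 => hm (k2 ▸ dN.symm)
      · exact k1.mono_right (zs.trans sdiff_subset)
    · exact hno Z (ocs_mono hW' hZ) r3 (fun Z' k1 => ocs_disj hc hF hZ (ocs_mono hW k1)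
        fun k2 => hZ' (k2 ▸ (ocs_vs k1).1)) B hB k dB
  · have k3 := nu_remove hc hF (mem_ocs.1 hZ).1 (mem_ocs.1 hZ).2.1 (mem_ocs.1 hZ).2.2
    have z2 : ∀ p q r : ZMod 2, p ≠ q → q = r + 1 → p = r := by decide
    rw [hl, o3, hg', e, z2 _ _ _ hn k3]
    exact z' _ hs

end SG

end Pool.Agent.Work.MP_8c679b_co
end

-- merged part: Pool.Agent.Work.MP_8c679b_co.A3.E5
section
/-!
Rings with one, two and three boxes.
-/

set_option autoImplicit false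

namespace Pool.Agent.Work.MP_8c679b_co

open Finset

namespace SG

variable {V E : Type} [Fintype V] [DecidableEq V] [DecidableEq E] {G : SG V E}
  {T W W' X X' X1 X2 X3 Y N N2 N3 B : Finset V} {Bs H D M : Finset (Finset V)} {v0 v : V}
  {O O' O2 O3 F L L1 L2 : Finset E} {K K' : Set (Finset E)} {a b c d a2 b2 c2 d2 a3 b3 c3 d3 : E}
  {ε ε1 ε2 g l s s2 π : ZMod 2} {C C' : Rl → Prop} {fr : Prop}
  {xf : Finset V → E → E → ZMod 2 → Finset V}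

theorem lp_free {Xs : ZMod 2 → Finset V} (h : G.Pk N a b c d Xs) (s : ZMod 2) :
    G.Lp N a b c d s True := by
  obtain ⟨π, k⟩ := h.qr s
  refine ⟨⟨_, π, h.rg s, Or.inl trivial, k⟩, ?_⟩
  rcases h.alt s with r | ⟨X, r1, r2⟩ | r
  · exact Or.inl ⟨_, h.rg s, Or.inl trivial, r.1, r.2.2⟩
  · exact Or.inr (Or.inl ⟨X, r1, Or.inl trivial, r2⟩)
  · exact Or.inr (Or.inr ⟨trivial, r⟩)

theorem E5a_qr (h : G.Pas0 N O a b ∅ (G.Kus N) (Rl.P s)) (c d : E) :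
    G.Qr N N a b c d s (G.par (O ∩ G.ins N)) :=
  ⟨O, rfl, h.cov fun t ht => Or.inl ⟨t, ht.1, Subset.rfl⟩⟩

theorem E5a_lp (h1 : ∃ O, G.Pas0 N O a b ∅ (G.Kus N) (Rl.P s)) (h2 : G.Rc N a b s ∨ ∀ ε, ∃ O,
    ∃ v ∈ N, G.par (O ∩ G.ins N) = ε ∧ G.Pas0 N O a b ∅ (G.Kv N v) (Rl.Mt (s + 1))) (c d : E) :
    G.Lp N a b c d s False := by
  obtain ⟨O, k⟩ := h1
  refine ⟨⟨N, _, Or.inl rfl, Or.inr rfl, E5a_qr k c d⟩, ?_⟩
  rcases h2 with ⟨O', k1, k2⟩ | r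
  · have k3 := E5a_qr k2 c d
    rw [k1] at k3
    exact Or.inl ⟨N, Or.inl rfl, Or.inr rfl, k3, fun r => absurd rfl r⟩
  · refine Or.inr (Or.inl ⟨N, Or.inl rfl, Or.inr rfl, fun ε => ?_⟩)
    obtain ⟨O', v, v1, k1, k2⟩ := r ε
    exact ⟨O', v, v1, k1, k2.cov fun t ht => Or.inl ⟨t, ht.1, Subset.rfl⟩⟩

theorem BNu.lp (h : G.BNu N a b) (c d : E) (s : ZMod 2) : G.Lp N a b c d s False := by
  exact E5a_lp (h.1 s) (h.2 s) c d

theorem BCt.lp (h : G.BCt N a b) (c d : E) : ∃ s, G.Lp N a b c d s False := by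
  rcases h.2 with ⟨s, r⟩ | r
  · exact ⟨s, E5a_lp (r.imp fun _ k => k.2) (Or.inl r) c d⟩
  · obtain ⟨s, k⟩ := h.1
    exact ⟨s, E5a_lp k (Or.inr (r s)) c d⟩

/-- a four-cycle as a seed.  HINT: its inner edges form an odd circuit (`cc_card`, `us_iso` or
`Node_q`), `pure_odd`, `HT.kus4`; the leaving edges are off the circuit. -/
theorem Eh.seed_four (h : G.Eh T Bs v0) (hB : B ∈ Bs) (h4 : B.card = 4) : G.Ea0 Bs B ∅ 1 := by
  obtain ⟨hT, hu, -⟩ := h.hy.bx B hB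
  obtain ⟨Z, h1, h2, h3⟩ := exists_odd_cc hu.2
  have hA := h1.trans ins_sub_A
  have hn : ∀ x ∈ G.cut (G.vs Z), x ∉ Z := fun x hx k => not_ins_of_cut hx (sub_ins_vs hA k)
  have h5 : (G.cut (G.vs Z)).card ≤ (G.vs Z).card :=
    card_le_card_of_injOn (G.ie (G.vs Z)) (fun e he => ie_mem (cut_sub_tch he)) fun e he f hf k =>
      third_unique h.hc hA (ie_mem (cut_sub_tch hf)) (h2.2.1 _) (mem_filter.1 hf).1
        (mem_filter.1 he).1 (hn f hf) (hn e he) ie_at (k ▸ ie_at)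
  have h6 : G.vs Z = B := eq_of_subset_of_card_le (sub_ins_iff.1 h1).2
    (h4 ▸ (cc_card h.hc h.hT.1 hT hu.1 h1 h2).trans h5)
  refine ⟨Z, h3, (h6 ▸ (pure_odd hA h2 h3).2.2 : G.Abs0 B Z ∅ ∅).cov fun t ht => Or.inr ?_⟩
  rw [(h.ea_box hB).2.1] at ht
  obtain ⟨e, he⟩ := card_pos.1 (show 0 < (G.cut B).card by rw [hu.1]; decide)
  exact ⟨e, h.hT.1.kus4 h.hc hT h4 t ht ▸ he, cut_sub_tch he, fun k => not_ins_of_cut he (h1 k)⟩

theorem Eh.seed_th (h : G.Eh T Bs v0) (hB : B ∈ Bs) (ht : G.BTh B a b) : G.Ea0 Bs B ∅ 1 := by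
  rw [Ea0, (h.ea_box hB).2.1]
  exact ht.1

/-- One box on the ring.  HINT: `Eh.cx0`, `can_z`, `can_w`, `can_r` (other boxes are disjoint from
the context), `Eh.gd2_goo`. -/
theorem Eh.can_one (h : G.Eh T Bs v0) (hH : (G.quo T Bs).Cw H F) (hD : Disjoint H D) (hN : N ∈ Bs)
    (hq : G.Q4 N a b c d) (ha : a ∈ F) (hb : b ∈ F) (h1 : ∀ B ∈ Bs, B ∈ H → B = N)
    (hp : G.Lp N a b c d (G.par F + 1) fr) (g1 : (G.quo T Bs).Goo (G.tq T) (H ∪ D))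
    (g2 : fr → (G.quo T Bs).Goo (G.tq T) ((H ∪ D).erase N)) :
    (∃ ε, G.Ea0 Bs (T \ un T Bs D) (G.ins T) ε) ∧
      ∀ g, (G.FH (T \ un T Bs (H ∪ D)) ∨ g = 1 + G.nu (T \ un T Bs (H ∪ D))) →
        G.Ea1 Bs (T \ un T Bs D) (G.ins T) g := by
  obtain ⟨O, -, k1, hx⟩ := h.cx0 hH hD hN hq ha hb h1 rfl
  have hm : N ∈ H := h.on_ring hN hH ha hq.mem.1
  have z : ∀ x y w : ZMod 2, x + 1 + 1 = x + y + w + y + w := by decide
  have k2 : ∀ v ∈ (T \ un T Bs D) \ un T Bs (H \ Bs), nd Bs v ∉ (H ∪ D).erase N := fun v hv k => by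
    simp only [mem_sdiff, mem_un, mem_erase, mem_union] at hv k
    obtain ⟨⟨r1, r2⟩, r3⟩ := hv
    have r4 := k.2.resolve_right fun r => r2 ⟨r1, r⟩
    exact r3 ⟨r1, r4, fun r => k.1 (h1 _ r r4)⟩
  have e : (T \ un T Bs D) \ (un T Bs (H \ Bs) ∪ N) = T \ un T Bs (H ∪ D) := by
    ext v
    constructor
    · intro hv
      obtain ⟨r1, r2⟩ := mem_sdiff.1 hv
      rw [notMem_union] at r2
      exact mem_sdiff.2 ⟨(mem_sdiff.1 r1).1, fun k => k2 v (mem_sdiff.2 ⟨r1, r2.1⟩)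
        (mem_erase.2 ⟨fun r => r2.2 (r ▸ mem_nd_self), (mem_un.1 k).2⟩)⟩
    · simp only [mem_sdiff, mem_un, mem_union]
      rintro ⟨r1, r2⟩
      refine ⟨⟨r1, fun k => r2 ⟨r1, Or.inr k.2⟩⟩, ?_⟩
      rintro (k | k)
      · exact r2 ⟨r1, Or.inl k.2.1⟩
      · exact r2 ⟨r1, Or.inl ((nd_of_mem h.hy.pd hN k).symm ▸ hm)⟩
  have g3 : G.Gd2 T ((T \ un T Bs D) \ (un T Bs (H \ Bs) ∪ N)) := e ▸ h.gd2_goo sdiff_subset
    (fun v hv k => (mem_sdiff.1 hv).2 (mem_un.2 ⟨(mem_sdiff.1 hv).1, k⟩)) g1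
  have g4 := fun r => h.gd2_goo (sdiff_subset.trans sdiff_subset) k2 (g2 r)
  refine ⟨can_z h hx (z _ _ _) hp.1 g3 g4, fun g hg => ?_⟩
  rcases hp.2 with r | r
  · refine can_r h hx (z _ _ _) k1 r g3 g4 (fun _ _ _ _ B hB _ k => absurd ?_ k) (e.symm ▸ hg)
    exact disjoint_left.2 fun v v1 v2 =>
      (mem_sdiff.1 (mem_un.1 v2).2).2 ((nd_of_mem h.hy.pd hB v1).symm ▸ hB)
  · exact can_w h hx (z _ _ _) r g3 g4 g

/-- one box and an object-free rest -/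
theorem Eh.eb_one (h : G.Eh T Bs v0) (hH : (G.quo T Bs).Cw H F) (hD : Disjoint H D) (hN : N ∈ Bs)
    (hq : G.Q4 N a b c d) (ha : a ∈ F) (hb : b ∈ F) (h1 : ∀ B ∈ Bs, B ∈ H → B = N)
    (hp : G.Lp N a b c d (G.par F + 1) fr) (g1 : (G.quo T Bs).Goo (G.tq T) (H ∪ D))
    (g2 : fr → (G.quo T Bs).Goo (G.tq T) ((H ∪ D).erase N))
    (ho : (G.quo T Bs).Ofr Bs (H ∪ D)) : G.Eb Bs (T \ un T Bs D) (G.ins T) := by
  obtain ⟨k1, k2⟩ := h.can_one hH hD hN hq ha hb h1 hp g1 g2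
  refine ⟨k2 1 (Or.inr ?_), k1⟩
  rw [(nu_bal (h.bal_ofr sdiff_subset
    (fun v hv k => (mem_sdiff.1 hv).2 (mem_un.2 ⟨(mem_sdiff.1 hv).1, k⟩)) ho)).1, add_zero]

/-- one free box.  HINT: `Eh.ring_q4`, `lp_free`, `Goo.sup`. -/
theorem Eh.eb_free (h : G.Eh T Bs v0) (hx : G.PkA T xf) (hH : (G.quo T Bs).Cw H F)
    (hD : Disjoint H D) (hN : N ∈ Bs) (hm : N ∈ H) (h1 : ∀ B ∈ Bs, B ∈ H → B = N)
    (hg : (G.quo T Bs).Goo (G.tq T) ((H ∪ D).erase N)) (ho : (G.quo T Bs).Ofr Bs (H ∪ D)) :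
    G.Eb Bs (T \ un T Bs D) (G.ins T) := by
  obtain ⟨a, b, c, d, hq, ha, hb⟩ := h.ring_q4 hN hH hm
  obtain ⟨k1, k2, -⟩ := h.hy.bx N hN
  exact h.eb_one hH hD hN hq ha hb h1 (lp_free (hx N k1 k2 a b c d hq) _)
    (hg.sup (erase_subset _ _)) (fun _ => hg) ho

omit [Fintype V] in
theorem E5b_nd (h1 : ∀ B ∈ Bs, B ∈ H → B = N ∨ B = N2) (hX : un T Bs (H \ Bs) ⊆ X)
    (hv : v ∈ (T \ un T Bs D) \ X) :
    (nd Bs v ∈ H → nd Bs v ∈ Bs) ∧ (nd Bs v ∈ H ∪ D → nd Bs v = N ∨ nd Bs v = N2) := by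
  obtain ⟨k1, k2⟩ := mem_sdiff.1 hv
  obtain ⟨k3, k4⟩ := mem_sdiff.1 k1
  have k5 : nd Bs v ∈ H → nd Bs v ∈ Bs := fun k => by
    by_contra k'
    exact k2 (hX (mem_un.2 ⟨k3, mem_sdiff.2 ⟨k, k'⟩⟩))
  exact ⟨k5, fun k => (mem_union.1 k).elim (fun k => h1 _ (k5 k) k)
    fun k => absurd (mem_un.2 ⟨k3, k⟩) k4⟩

theorem E5b_bal (h : G.Eh T Bs v0) (h1 : ∀ B ∈ Bs, B ∈ H → B = N ∨ B = N2)
    (ho : (G.quo T Bs).Ofr Bs (H ∪ D)) (hX : un T Bs (H \ Bs) ⊆ X) (hW : W ⊆ (T \ un T Bs D) \ X)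
    (d1 : ∀ v ∈ W, v ∉ N) (d2 : ∀ v ∈ W, v ∉ N2) : G.Bal (G.ins W) :=
  h.bal_ofr (hW.trans (sdiff_subset.trans sdiff_subset))
    (fun v hv k => ((E5b_nd h1 hX (hW hv)).2 k).elim (fun e => d1 v hv (e ▸ mem_nd_self))
      fun e => d2 v hv (e ▸ mem_nd_self)) ho

theorem E5b_main (h : G.Eh T Bs v0) (hH : (G.quo T Bs).Cw H F) (hD : Disjoint H D) (hN : N ∈ Bs)
    (hq : G.Q4 N a b c d) (ha : a ∈ F) (hb : b ∈ F) (hN2 : N2 ∈ Bs) (hne : N2 ≠ N)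
    (hq2 : G.Q4 N2 a2 b2 c2 d2) (ha2 : a2 ∈ F) (hb2 : b2 ∈ F)
    (h1 : ∀ B ∈ Bs, B ∈ H → B = N ∨ B = N2) (hp : G.Lp N a b c d (G.par F + 1 + s2) True)
    (hp2 : G.Lp N2 a2 b2 c2 d2 s2 fr)
    (gd : ∀ X, un T Bs (H \ Bs) ⊆ X → F ⊆ G.tch X → (fr ∨ N2 ⊆ X) →
      G.Gd2 T ((T \ un T Bs D) \ X))
    (hr : ∀ X2, G.Rg N2 X2 c2 d2 → (fr ∨ X2 = N2) → F ⊆ G.tch (un T Bs (H \ Bs) ∪ X2) →
      G.Bal (G.ins ((T \ un T Bs D) \ (un T Bs (H \ Bs) ∪ X2 ∪ N))) ∧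
      ∀ Z ∈ G.ocs ((T \ un T Bs D) \ (un T Bs (H \ Bs) ∪ X2)), c ∈ Z → ∀ B ∈ Bs,
        ¬ Disjoint B (un T Bs (H \ Bs) ∪ X2) → Disjoint B (G.vs Z)) :
    G.Eb Bs (T \ un T Bs D) (G.ins T) := by
  have two : (2 : ZMod 2) = 0 := rfl
  have hs : G.par F + 1 + s2 + 1 = G.par F + G.n a + G.n b + s2 + G.n a + G.n b := by
    linear_combination (1 - G.n a - G.n b) * two
  have gd' : ∀ X2, (fr ∨ X2 = N2) → F ⊆ G.tch (un T Bs (H \ Bs) ∪ X2) →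
      G.Gd2 T ((T \ un T Bs D) \ (un T Bs (H \ Bs) ∪ X2 ∪ N)) ∧
      (True → G.Gd2 T ((T \ un T Bs D) \ (un T Bs (H \ Bs) ∪ X2))) := fun X2 k1 k2 =>
    have k := gd _ subset_union_left k2 (k1.imp_right fun e => e.ge.trans subset_union_right)
    ⟨k.mono (sdiff_subset_sdiff Subset.rfl subset_union_left), fun _ => k⟩
  obtain ⟨⟨X2, π, r1, r2, r3⟩, hp3⟩ := hp2
  obtain ⟨O, k1, -, k3⟩ := h.cx1 hH hD hN hq ha hb hN2 hne hq2 ha2 hb2 h1 r1 r3 rfl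
  obtain ⟨g1, g2⟩ := gd' X2 r2 (k1.trans k3.pas.2.1.1)
  refine ⟨?_, can_z h k3 hs hp.1 g1 g2⟩
  rcases hp.2 with p | p
  swap
  · exact can_w h k3 hs p g1 g2 1
  rcases hp3 with ⟨X3, t1, t2, t3, -⟩ | p2
  · obtain ⟨O', m1, m2, m3⟩ := h.cx1 hH hD hN hq ha hb hN2 hne hq2 ha2 hb2 h1 t1 t3 rfl
    have m4 := m1.trans m3.pas.2.1.1
    obtain ⟨g3, g4⟩ := gd' X3 t2 m4
    obtain ⟨b1, b2⟩ := hr X3 t1 t2 m4
    exact can_r h m3 hs m2 p g3 g4 (fun Z hZ hc _ B hB _ => b2 Z hZ hc B hB)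
      (Or.inr (by rw [(nu_bal b1).1, add_zero]))
  · obtain ⟨X', π', t1, -, t3⟩ := hp.1
    obtain ⟨O', m1, -, m3⟩ := h.cx1 hH hD hN2 hq2 ha2 hb2 hN hne.symm hq ha hb
      (fun B k k' => (h1 B k k').symm) t1 t3 rfl
    have m4 := m1.trans m3.pas.2.1.1
    exact can_w h m3 (by linear_combination (-G.par F - G.n a2 - G.n b2) * two) p2
      (gd _ (subset_union_left.trans subset_union_left) (m4.trans (tch_mono subset_union_left))
        (Or.inr subset_union_right)) (fun k => gd _ subset_union_left m4 (Or.inl k)) 1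

/-- A free box `N` and a box `N2` that is passed completely.
HINT: the sign at `N` is `G.par F + 1 + s2`.  `Eh.cx1` at `N` with the complete pass of `N2`; if
`N2` has a local win use `Eh.cx1` at `N2` with the pass `Lz` of `N` and `can_w`. -/
theorem Eh.eb_two (h : G.Eh T Bs v0) (hx : G.PkA T xf) (hH : (G.quo T Bs).Cw H F)
    (hD : Disjoint H D) (hN : N ∈ Bs) (hm : N ∈ H) (hN2 : N2 ∈ Bs) (hne : N2 ≠ N)
    (hq2 : G.Q4 N2 a2 b2 c2 d2) (ha2 : a2 ∈ F) (hb2 : b2 ∈ F)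
    (h1 : ∀ B ∈ Bs, B ∈ H → B = N ∨ B = N2) (hp : G.Lp N2 a2 b2 c2 d2 s2 False)
    (hg : (G.quo T Bs).Goo (G.tq T) ((H ∪ D).erase N)) (ho : (G.quo T Bs).Ofr Bs (H ∪ D)) :
    G.Eb Bs (T \ un T Bs D) (G.ins T) := by
  obtain ⟨a, b, c, d, hq, ha, hb⟩ := h.ring_q4 hN hH hm
  refine E5b_main h hH hD hN hq ha hb hN2 hne hq2 ha2 hb2 h1
    (lp_free (hx N (h.hy.bx N hN).1 (h.hy.bx N hN).2.1 a b c d hq) _) hp (fun X k1 _ k2 => ?_) ?_
  · refine h.gd2_goo (sdiff_subset.trans sdiff_subset) (fun v hv k => ?_) hg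
    exact ((E5b_nd h1 k1 hv).2 (mem_erase.1 k).2).elim (mem_erase.1 k).1
      fun e => (mem_sdiff.1 hv).2 (k2.resolve_left id (e ▸ mem_nd_self))
  · rintro _ - (k | rfl) -
    · exact k.elim
    refine ⟨E5b_bal h h1 ho (subset_union_left.trans subset_union_left) Subset.rfl
      (fun v hv k => (mem_sdiff.1 hv).2 (mem_union_right _ k))
      fun v hv k => (mem_sdiff.1 hv).2 (mem_union_left _ (mem_union_right _ k)),
      fun Z hZ _ B hB k => disjoint_left.2 fun v hv k' => ?_⟩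
    refine (mem_sdiff.1 ((sub_ins_iff.1 (mem_ocs.1 hZ).1).2 k')).2 ?_
    exact (((h.rgn_un _).union (h.ea_box hN2).1).2 B hB).resolve_right k hv

/-- Two free boxes, no ring through their outer edges.
HINT: `Eh.gd2_gof` (`F ⊆ O ⊆ tch X`), `Eh.ev_cut` for `hno` and, with `bal_add`, for the balance of
the rest together with the rung left in `N2` (`HT.rung'`). -/
theorem Eh.eb_fr2 (h : G.Eh T Bs v0) (hx : G.PkA T xf) (hH : (G.quo T Bs).Cw H F)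
    (hD : Disjoint H D) (hN : N ∈ Bs) (hm : N ∈ H) (hN2 : N2 ∈ Bs) (hm2 : N2 ∈ H) (hne : N2 ≠ N)
    (h1 : ∀ B ∈ Bs, B ∈ H → B = N ∨ B = N2)
    (hg : (G.quo T Bs).Gof (G.tq T) H (((H ∪ D).erase N).erase N2) F)
    (hn : ∀ Y' F', (G.quo T Bs).Cw Y' F' → Disjoint F' F →
      Disjoint Y' (((H ∪ D).erase N).erase N2) → N ∉ Y' ∧ N2 ∉ Y')
    (ho : (G.quo T Bs).Ofr Bs (H ∪ D)) : G.Eb Bs (T \ un T Bs D) (G.ins T) := by
  obtain ⟨a, b, c, d, hq, ha, hb⟩ := h.ring_q4 hN hH hm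
  obtain ⟨a2, b2, c2, d2, hq2, ha2, hb2⟩ := h.ring_q4 hN2 hH hm2
  have hM : ∀ X, un T Bs (H \ Bs) ⊆ X → ∀ v ∈ (T \ un T Bs D) \ X,
      nd Bs v ∉ ((H ∪ D).erase N).erase N2 := fun X k1 v hv k =>
    ((E5b_nd h1 k1 hv).2 (mem_erase.1 (mem_erase.1 k).2).2).elim
      (mem_erase.1 (mem_erase.1 k).2).1 (mem_erase.1 k).1
  have hF : ∀ X, F ⊆ G.tch X → Disjoint F (G.ins ((T \ un T Bs D) \ X)) := fun X k1 =>
    disjoint_left.2 fun e he k => (mem_tch.1 (k1 he)).2.elim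
      (mem_sdiff.1 (mem_ins.1 k).2.1).2 (mem_sdiff.1 (mem_ins.1 k).2.2).2
  have hT : ∀ X, (T \ un T Bs D) \ X ⊆ T := fun X => sdiff_subset.trans sdiff_subset
  have hB := (h.hy.bx N2 hN2).1
  refine E5b_main (s2 := 0) h hH hD hN hq ha hb hN2 hne hq2 ha2 hb2 h1
    (lp_free (hx N (h.hy.bx N hN).1 (h.hy.bx N hN).2.1 a b c d hq) _)
    (lp_free (hx N2 hB (h.hy.bx N2 hN2).2.1 a2 b2 c2 d2 hq2) _)
    (fun X k1 k2 _ => h.gd2_gof (hT X) (hM X k1) (hF X k2) (fun v hv => (E5b_nd h1 k1 hv).1) hg)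
    fun X2 r _ k => ⟨bal_add (B := N2) ?_ ?_ fun Z k1 k2 => ?_, fun Z hZ hc => ?_⟩
  · exact E5b_bal h h1 ho (subset_union_left.trans subset_union_left) sdiff_subset
      (fun v hv k => (mem_sdiff.1 (mem_sdiff.1 hv).1).2 (mem_union_right _ k))
      fun v hv => (mem_sdiff.1 hv).2
  · have s1 : ((T \ un T Bs D) \ (un T Bs (H \ Bs) ∪ X2 ∪ N)) ∩ N2 ⊆ N2 \ X2 := fun v hv =>
      mem_sdiff.2 ⟨(mem_inter.1 hv).2, fun k =>
        (mem_sdiff.1 (mem_inter.1 hv).1).2 (mem_union_left _ (mem_union_right _ k))⟩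
    refine Bal.mono ?_ (ins_mono s1)
    rcases r with rfl | ⟨-, r1, r2, r3⟩
    · exact ⟨fun _ => 0, fun e he => absurd (mem_ins.1 he).2.1 (by simp)⟩
    · rw [r1]
      exact (h.hT.1.rung' h.hc (hB (ie_mem (cut_sub_tch hq2.mem.2.2.1)))
        (hB (ie_mem (cut_sub_tch hq2.mem.2.2.2))) r2 r3).2.1
  · exact h.ev_cut hN2 (hT _) (hM _ (subset_union_left.trans subset_union_left))
      (hF _ (k.trans (tch_mono subset_union_left))) (fun Y' F' m1 m2 m3 => (hn Y' F' m1 m2 m3).2)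
      k1 k2
  · exact absurd hq.mem.2.2.1 (disjoint_left.1 (h.ev_cut hN (hT _) (hM _ subset_union_left)
      (hF _ k) (fun Y' F' m1 m2 m3 => (hn Y' F' m1 m2 m3).1) (mem_ocs.1 hZ).1
      (mem_ocs.1 hZ).2.1.2.1) hc)

theorem E5c_top : T \ un T Bs ∅ = T := by
  rw [un, filter_false_of_mem fun v _ => notMem_empty _, sdiff_empty]

/-- the rest of a ring through two terminals -/
theorem E5c_gd (h : G.Eh T Bs v0) (hH : (G.quo T Bs).Mr (G.tq T) a b H F)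
    (hX : un T Bs (H \ Bs) ⊆ X) : G.Gd2 T (T \ X) := by
  obtain ⟨t, ht, t', ht', hne, m, m'⟩ := hH.2.1
  exact h.gd2_goo (M := H \ Bs) sdiff_subset
    (fun v hv k => (mem_sdiff.1 hv).2 (hX (mem_filter.2 ⟨(mem_sdiff.1 hv).1, k⟩)))
    (goo_two h.tq3.1 ht ht' hne (mem_sdiff.2 ⟨m, disjoint_left.1 h.tq3.2 ht⟩)
      (mem_sdiff.2 ⟨m', disjoint_left.1 h.tq3.2 ht'⟩))

/-- Two good passes and an adjuster on a ring through two terminals.
HINT: `rpa`, `Eh.cx2` with `D = ∅`, `Ecx.fin` with `cls_mp` (the rest does not depend on the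
parity), `goo_two` for `H \ Bs`, `Eh.rall`. -/
theorem Eh.adj3 (h : G.Eh T Bs v0) (hH : (G.quo T Bs).Mr (G.tq T) a b H F) (hN : N ∈ Bs)
    (hq : G.Q4 N a b c d) (hN2 : N2 ∈ Bs) (hne : N2 ≠ N) (hq2 : G.Q4 N2 a2 b2 c2 d2)
    (ha2 : a2 ∈ F) (hb2 : b2 ∈ F) (hN3 : N3 ∈ Bs) (hne3 : N3 ≠ N) (h23 : N2 ≠ N3)
    (hq3 : G.Q4 N3 a3 b3 c3 d3) (ha3 : a3 ∈ F) (hb3 : b3 ∈ F)
    (h1 : ∀ B ∈ Bs, B = N ∨ B = N2 ∨ B = N3) (hj : G.BAj N a b c d) (n2 : ¬ G.Qd N2 a2 b2)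
    (n3 : ¬ G.Qd N3 a3 b3) (g : ZMod 2) : G.Rall T g 1 := by
  have k2 := h.hy.bx N2 hN2
  have k3 := h.hy.bx N3 hN3
  obtain ⟨X2, O2, r2, p2⟩ := rpa h.hc h.hT.1 N2 k2.1 k2.2.1 a2 b2 c2 d2 hq2 n2
  obtain ⟨X3, O3, r3, p3⟩ := rpa h.hc h.hT.1 N3 k3.1 k3.2.1 a3 b3 c3 d3 hq3 n3
  obtain ⟨O, K, hx⟩ := h.cx2 hH.1 (disjoint_empty_right _) hN hq hH.2.2.1 hH.2.2.2 hN2 hne hq2 ha2
    hb2 hN3 hne3 h23 hq3 ha3 hb3 (fun B hB _ => h1 B hB) r2 p2 r3 p3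
  rw [E5c_top] at hx
  have hs : un T Bs (H \ Bs) ⊆ un T Bs (H \ Bs) ∪ X2 ∪ X3 :=
    subset_union_left.trans subset_union_left
  generalize un T Bs (H \ Bs) ∪ X2 ∪ X3 = X at hx hs
  obtain ⟨X', r, hj⟩ := hj
  obtain ⟨σ, O', e1, p⟩ := hj (g + (G.par (O ∩ G.ins X) + (G.n a + G.n b) + G.nu (T \ (X ∪ X'))))
  have z : ∀ g x y u : ZMod 2, g = x + (g + (x + y + u)) + y + u := by decide
  obtain ⟨O'', e2, A⟩ := Ecx.fin (v := v0) (g := g) h hx p (r.sub.trans hx.sub)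
    (hx.dj.mono_right r.sub) (fun B hB k => (h.hy.pd B hB N hN k).mono_right r.sub)
    (bk_rg hq r (inter_eq_right.2 r.sub) fun t ht => ⟨kv_sub ht.1, ht.2⟩)
    (fun R R' k k' => cls_mp k k') (E5c_gd h hH (hs.trans subset_union_left))
    (Or.inr (by rw [e1]; exact z _ _ _ _))
  exact h.rall ⟨O'', v0, e2, A⟩

/-- The box lemma.  HINT: `box_loc`; a local win of sign `s` for the pair `c, d` closes on the ring
given by `Mb` for `ε = s + 1`: `Eh.cxz` with `D = ∅`, `can_w` with `fr = True`, `goo_two` for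
`H \ Bs`, `Eh.rall`. -/
theorem Eh.box_h (h : G.Eh T Bs v0) (hx : G.PkA T xf) (hI : G.IHd T) (hn : ¬ G.Rall T 0 1) :
    G.BoxH T Bs := by
  intro B hB a b c d hq hM
  have k := h.hy.bx B hB
  rcases box_loc h.hc h.hT.1 k.1 k.2.1 hq fun S hS => hI S (hS.trans k.1) with r | r | ⟨s, r⟩
  · exact Or.inl r
  · exact Or.inr r
  obtain ⟨H, F, hH, hs⟩ := hM (s + 1)
  obtain ⟨X, O, K, h1, hc⟩ := h.cxz (l := s + 1 + G.n c + G.n d) hx hH.1 (disjoint_empty_right _)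
    hB hq.flip hH.2.2.1 hH.2.2.2 (hs.imp_left fun e => by rw [← e]; rfl)
  rw [E5c_top] at hc
  have z : ∀ s x y : ZMod 2, s = s + x + y + x + y := by decide
  exact absurd (h.rall (can_w (fr := True) h hc (z _ _ _)
    (r.imp (fun e => e.imp fun _ e => ⟨e.1, Or.inl trivial, e.2⟩) fun e => ⟨trivial, e⟩)
    (E5c_gd h hH (h1.trans subset_union_left)) (fun _ => E5c_gd h hH h1) 0)) hn

end SG

end Pool.Agent.Work.MP_8c679b_co
end
end
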