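import Pool.Agent.Work.MP_8c679b_co.A3.E5
import Pool.Agent.Work.MP_8c679b_co.Six.GNorm
import Pool.Agent.Work.MP_8c679b_co.K1.GT1
import Pool.Agent.Work.MP_8c679b_co.Key.PQ
import Pool.Agent.Work.MP_8c679b_co.A3.G3

-- merged part: Pool.Agent.Work.MP_8c679b_co.A3.YMain
section
-- merged part: Pool.Agent.Work.MP_8c679b_co.A3.YS
section
/-!
The descent: a system with two disjoint objects, or a chain with two unbalanced ends.
-/

set_option autoImplicit false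

namespace Pool.Agent.Work.MP_8c679b_co

open Finset

namespace SG

variable {V E : Type} [Fintype V] [DecidableEq V] [DecidableEq E] {G : SG V E}
  {T B S S' X I M1 M2 A A' : Finset V} {a b c d : E}

/-- HINT: nested sides are trivial; else `HT.f4` (the union is not `T`, since `cut T` is nonempty
and `cut_union_sub`; it has at least four vertices). -/
theorem KA.union (hc : G.Cub) (hT : G.T3 T) (h : G.KA T S) (h' : G.KA T S')
    (hd : ¬ Disjoint S S') : G.KA T (S ∪ S') := by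
  by_cases k1 : S ⊆ S'
  · rwa [union_eq_right.2 k1]
  by_cases k2 : S' ⊆ S
  · rwa [union_eq_left.2 k2]
  have c1 := hT.1.us_card hc h.1 h.2.1
  have c2 := hT.1.us_card hc h'.1 h'.2.1
  have k0 : G.cut (S ∪ S') ⊆ G.ins T := cut_union_sub.trans (union_subset h.2.2 h'.2.2)
  refine ⟨union_subset h.1 h'.1, ⟨(hT.1.f4 hc h.1 h'.1 h.2.1.1 h'.2.1.1 (by omega) (by omega)
    (fun k => ?_) (not_disjoint_iff_nonempty_inter.1 hd) (sdiff_nonempty.2 k1)
    (sdiff_nonempty.2 k2)).2.1, fun k => h.2.1.2 (k.mono (ins_mono subset_union_left))⟩, k0⟩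
  have c3 := card_le_card (subset_union_left (s₁ := S) (s₂ := S'))
  rcases (hT.1 _ (union_subset h.1 h'.1) (card_pos.1 (by omega))).2 k with k3 | k3
  · omega
  obtain ⟨e, he⟩ := card_pos.1 (show 0 < (G.cut (S ∪ S')).card by omega)
  exact not_ins_of_cut (k3 ▸ he) (k0 he)

/-- A side that crosses a split cuts off a smaller split.
HINT: `ch_link`-type count or `HT.f4` for `X` and `S'` (if `X` is a rung use `HT.f2` for `S'`):
`a, b` lie in `cut (X ∪ S')` (`Spl_mid`), hence not in `cut (X ∩ S')`; `Spl_sp_of`. -/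
theorem Sp.cross (hc : G.Cub) (hT : G.HT T) (hS : S ⊆ T) (hq : G.Q4 S a b c d)
    (h : G.Sp S a b X) (hS' : S' ⊆ S) (hu : G.US S') (h1 : ¬ Disjoint S' X) (h2 : ¬ S' ⊆ X) :
    X ⊆ S' ∨ G.Sp S a b (X \ S') := by
  by_cases k3 : X ⊆ S'
  · exact Or.inl k3
  refine Or.inr ?_
  obtain ⟨hX, -, -, -, -, -, d1, -⟩ := h.str hc hT hS hq
  obtain ⟨ha, hb⟩ := Spl_ab h
  have hs : X ∪ S' ⊆ S := union_subset h.1 hS'
  have h3 := hT.us_card hc (hS'.trans hS) hu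
  obtain ⟨v, v1, v3⟩ := not_disjoint_iff.1 h1
  by_cases k4 : 2 < X.card
  · have k5 := hT.four' hS hq.card hs
      ((by omega : 2 ≤ S'.card).trans (card_le_card subset_union_right))
    obtain ⟨-, -, f1, -, -, f2⟩ := hT.f4 hc (h.1.trans hS) (hS'.trans hS) h.2.1 hu.1 k4 (by omega)
      (by omega) ⟨v, mem_inter.2 ⟨v3, v1⟩⟩ (sdiff_nonempty.2 k3) (sdiff_nonempty.2 h2)
    have key : ∀ e, e ∈ G.cut X ∧ e ∈ G.cut S → e ∈ G.cut (X \ S') ∧ e ∈ G.cut S := by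
      intro e he
      refine ⟨(Spl_cut_of sdiff_subset he.1 (mem_sdiff.2 ⟨Spl_ie he.1, fun k => ?_⟩)).1, he.2⟩
      exact notMem_empty e (f2 ▸ mem_inter.2
        ⟨(Spl_cut_of inter_subset_left he.1 (mem_inter.2 ⟨Spl_ie he.1, k⟩)).1,
          Spl_mid subset_union_left hs he.1 he.2⟩)
    exact Spl_sp_of hT hS (Finset.ssubset_of_subset_of_ssubset sdiff_subset hX) hq.card f1 hq.2.1
      (key a ha) (key b hb)
  obtain ⟨h5, m, h6, h7⟩ := Spl_rung hc hT (h.1.trans hS) h.2.1 (by omega) (Spl_ie ha.1)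
    (Spl_ie hb.1) d1
  have key : ∀ e, e ∈ G.cut X ∧ e ∈ G.cut S → G.ie X e ∈ S' → G.At m (G.ie X e) →
      m ∉ G.cut S' := fun e he h8 h9 hm => by
    rw [(cut_of_sub h.1 he.2 (cut_sub_tch he.1)).2] at h8 h9
    obtain ⟨h10, h11⟩ := Spl_cut_of hS' he.2 h8
    exact hT.f2 hc (hS'.trans hS) hu.1 (by omega) h10 hm
      (fun k => not_ins_of_cut he.1 (k ▸ h6)) (h11.trans (eq_ie hm h8 h9))
  have k5 : ¬ (G.ie X a ∈ S' ∧ G.ie X b ∈ S') := fun k => k3 (by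
    rw [h5]
    exact insert_subset k.1 (singleton_subset_iff.2 k.2))
  have k6 : G.ie X a ∈ S' ∨ G.ie X b ∈ S' := by
    rw [h5, mem_insert, mem_singleton] at v3
    rcases v3 with k | k
    exacts [Or.inl (k ▸ v1), Or.inr (k ▸ v1)]
  have hm : m ∈ G.cut S' := by
    refine mem_cut.2 ⟨(mem_ins.1 h6).1, ?_⟩
    rcases h7 with ⟨j1, j2⟩ | ⟨j1, j2⟩ <;> rw [j1, j2] <;> (clear * - ha hb k5 k6; tauto)
  exfalso
  rcases k6 with k6 | k6
  · exact key a ha k6 (h7.imp And.left And.right) hm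
  · exact key b hb k6 (h7.symm.imp And.left And.right) hm

/-- a vertex that is no terminal -/
theorem sy_abs_v (hc : G.Cub) (hT : G.T3 T) (hK : ¬ G.K1 T) : ∃ v ∈ T, ¬ G.Ex T v := by
  unfold K1 at hK
  push Not at hK
  obtain ⟨H, hH, Q, hQ, c1, -, c2, -, hd⟩ := hK
  have k : ∀ C ⊆ G.ins T, G.Cc C → 2 ≤ (G.vs C).card := fun C hC c => by
    obtain ⟨e, he⟩ := c.1
    exact one_lt_card.2 ⟨_, s_mem_vs he, _, t_mem_vs he, hT.1.noloop hc (ins_sub_tch (hC he))⟩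
  have k1 := k H hH c1
  have k2 := k Q hQ c2
  have k3 := card_le_card (union_subset (sub_ins_iff.1 hH).2 (sub_ins_iff.1 hQ).2)
  rw [card_union_of_disjoint hd] at k3
  have k4 : ((G.cut T).image (G.ie T)).card < T.card :=
    card_image_le.trans_lt (by rw [hT.2.1]; omega)
  obtain ⟨v, v1, v2⟩ := exists_mem_notMem_of_card_lt_card k4
  exact ⟨v, v1, fun ⟨_, e, e1, e2⟩ => v2 (mem_image.2 ⟨e, e1, (eq_ie e1 v1 e2).symm⟩)⟩

/-- The system of all maximal dangerous sides.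
HINT: `FF.boxes` for `Fm = {S | KA T S}`; a vertex that is no terminal: two disjoint circuits have
four vertices, the terminals are the image of `cut T` under `ie T`. -/
theorem sy_abs (hc : G.Cub) (hT : G.T3 T) (hK : ¬ G.K1 T) :
    ∃ Bs v0, G.Sy T Bs v0 ∧ ∀ S, G.KA T S → ∃ B ∈ Bs, S ⊆ B := by
  have hF : G.FF {S | G.KA T S} T :=
    ⟨fun S h => h, fun S h S' h' hd => KA.union hc hT h h' hd⟩
  obtain ⟨Bs, h1, h2, h3⟩ := hF.boxes T
  obtain ⟨v, v1, v2⟩ := sy_abs_v hc hT hK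
  have k : ∀ S, G.KA T S → ∃ B ∈ Bs, S ⊆ B := fun S h =>
    h3 S h h.1 (h.2.2.trans subset_union_left)
  refine ⟨Bs, v, ⟨h2, fun B hB => (h1 B hB).1, v1, v2, fun S h => Or.inl (k S h),
    fun B hB B' hB' hne h4 => ?_⟩, k⟩
  have b1 : G.KA T B := (h1 B hB).1
  have b2 : G.KA T B' := (h1 B' hB').1
  obtain ⟨C, hC, hs⟩ := k (B ∪ B') ⟨union_subset b1.1 b2.1,
    ⟨h4, fun m => b1.2.1.2 (m.mono (ins_mono subset_union_left))⟩,
    cut_union_sub.trans (union_subset b1.2.2 b2.2.2)⟩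
  have k1 : ∀ D ∈ Bs, G.KA T D → D ⊆ C → D = C := fun D hD d s => by
    by_contra m
    obtain ⟨x, hx⟩ := Spl_nonempty d.2.1.1
    exact disjoint_left.1 (h2 D hD C hC m) hx (s hx)
  exact hne ((k1 B hB b1 (subset_union_left.trans hs)).trans
    (k1 B' hB' b2 (subset_union_right.trans hs)).symm)

variable (G) in
/-- a dangerous side that is comparable with all dangerous sides -/
def Cmb (T B : Finset V) : Prop := G.KA T B ∧ ∀ S, G.KA T S → S ⊆ B ∨ B ⊆ S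

variable (G) in
/-- a single box has a split with two unbalanced parts -/
def Ch2 (Bs : Finset (Finset V)) : Prop :=
  ∀ B, Bs = {B} → ∃ a b c d A, G.Q4 B a b c d ∧ G.Sp B a b A ∧ ¬ G.Bal (G.ins A) ∧
    ¬ G.Bal (G.ins (B \ A))

/-- the system with one box -/
theorem Cmb.sy (h : G.Cmb T B) : ∃ v0, G.Sy T {B} v0 := by
  obtain ⟨v, hv⟩ := Spl_nonempty h.1.2.1.1
  have e1 : ∀ N ∈ ({B} : Finset (Finset V)), ∀ N' ∈ ({B} : Finset (Finset V)), N = N' :=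
    fun N hN N' hN' => (mem_singleton.1 hN).trans (mem_singleton.1 hN').symm
  exact ⟨v, fun N hN N' hN' k => absurd (e1 N hN N' hN') k,
    fun N hN => mem_singleton.1 hN ▸ h.1, h.1.1 hv, h.1.nt hv,
    fun S hS => (h.2 S hS).imp (fun k => ⟨B, mem_singleton_self B, k⟩)
      fun k => ⟨k hv, fun N hN => mem_singleton.1 hN ▸ k⟩,
    fun N hN N' hN' k => absurd (e1 N hN N' hN') k⟩

/-- a set that is comparable with all dangerous sides -/
theorem sy_one (hI : I ⊆ T) (h4 : (G.cut I).card = 4)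
    (hin : G.cut I ⊆ G.ins T) (h : ∀ S, G.KA T S → S ⊆ I ∨ I ⊆ S) :
    (∃ Bs v0, G.Sy T Bs v0 ∧ Bs.card ≠ 1) ∨ G.Cmb T I := by
  obtain ⟨v, hv⟩ := Spl_nonempty h4
  have nx : ¬ G.Ex T v := fun ⟨_, e, e1, e2⟩ =>
    not_ins_of_cut e1 (hin (cut_of_sub hI e1 (Cut_tch (mem_cut.1 e1).1 e2 hv)).1)
  by_cases hb : G.Bal (G.ins I)
  · refine Or.inl ⟨∅, v, ⟨fun N hN => absurd hN (notMem_empty N),
      fun N hN => absurd hN (notMem_empty N), hI hv, nx, fun S hS => Or.inr ⟨?_,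
      fun N hN => absurd hN (notMem_empty N)⟩, fun N hN => absurd hN (notMem_empty N)⟩,
      zero_ne_one⟩
    exact (h S hS).resolve_left (fun k => hS.2.1.2 (hb.mono (ins_mono k))) hv
  exact Or.inr ⟨⟨hI, ⟨h4, hb⟩, hin⟩, h⟩

/-- two sides inside `B` with union `B` are splits for complementary pairs.
HINT: `Spl_card`, `exists_q4`; if they meet, `HT.f4`. -/
theorem sy_pair (hc : G.Cub) (hT : G.HT T) (hB : B ⊆ T) (h4 : (G.cut B).card = 4)
    (h1 : G.US M1) (h2 : G.US M2) (s1 : M1 ⊂ B) (s2 : M2 ⊂ B) (hu : M1 ∪ M2 = B) :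
    ∃ a b c d, G.Q4 B a b c d ∧ G.Sp B a b M1 ∧ G.Sp B c d M2 := by
  have e1 : B \ M1 = M2 \ M1 := by rw [← hu, union_sdiff_left]
  have k1 : (G.cut (B \ M1)).card = 4 := by
    rw [e1]
    by_cases hd : Disjoint M1 M2
    · rw [sdiff_eq_self_of_disjoint hd.symm, h2.1]
    have c1 := hT.us_card hc (s1.1.trans hB) h1
    have c2 := hT.us_card hc (s2.1.trans hB) h2
    exact (hT.f4 hc (s1.1.trans hB) (s2.1.trans hB) h1.1 h2.1 (by omega) (by omega)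
      (by rw [hu]; omega) (not_disjoint_iff_nonempty_inter.1 hd)
      (sdiff_nonempty.2 fun k => s2.2 (hu ▸ union_subset k Subset.rfl))
      (sdiff_nonempty.2 fun k => s1.2 (hu ▸ union_subset Subset.rfl k))).2.2.2.1
  have k2 := Spl_card (G := G) s1.1
  have k3 := h1.1
  obtain ⟨a, b, hab, k4⟩ := card_eq_two.1 (show (G.cut M1 ∩ G.cut B).card = 2 by omega)
  have sp : G.Sp B a b M1 := ⟨s1.1, h1.1, k4⟩
  obtain ⟨c, d, hq⟩ := exists_q4 h4 (Spl_ab sp).1.2 (Spl_ab sp).2.2 hab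
  obtain ⟨m1, m2⟩ := Spl_ab (sp.compl hq)
  have s3 : B \ M1 ⊆ M2 := e1 ▸ sdiff_subset
  exact ⟨a, b, c, d, hq, sp, Spl_sp_of hT hB s2 h4 h2.1 hq.2.2.2.2.2.2
    ⟨Spl_mid s3 s2.1 m1.1 m1.2, m1.2⟩ ⟨Spl_mid s3 s2.1 m2.1 m2.2, m2.2⟩⟩

theorem sy_meet_aux (hc : G.Cub) (hT : G.HT T) (hB : B ⊆ T) (hq : G.Q4 B a b c d)
    (h1 : G.Sp B a b A) (m2 : ∀ X, G.Sp B c d X → ¬ G.Bal (G.ins X) → A' ⊆ X)
    (hd : ¬ Disjoint A A') (hS : S ⊆ B) (hu : G.US S) : S ⊆ A ∨ A ∩ A' ⊆ S := by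
  have k : ∀ X, G.Sp B a b X → Disjoint S X → A' ⊆ B \ X := fun X k1 k2 =>
    m2 _ (k1.compl hq) fun k3 => hu.2 (k3.mono (ins_mono (subset_sdiff.2 ⟨hS, k2⟩)))
  by_cases c1 : S ⊆ A
  · exact Or.inl c1
  by_cases c2 : Disjoint S A
  · exact absurd (subset_sdiff.1 (k A h1 c2)).2.symm hd
  refine Or.inr ((h1.cross hc hT hB hq hS hu c2 c1).elim (inter_subset_left.trans ·) fun k1 => ?_)
  intro v hv
  have k2 := mem_sdiff.1 (k _ k1 disjoint_sdiff (mem_inter.1 hv).2)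
  by_contra k3
  exact k2.2 (mem_sdiff.2 ⟨(mem_inter.1 hv).1, k3⟩)

/-- The least unbalanced initial and final parts meet.
HINT: `B \ A'` is a split nested with `A`, so `B \ A' ⊂ A` and `A ∩ A' = A \ (B \ A')` has four
leaving edges (`Sp.sub`).  For a side `S ⊆ B` not inside `A`: `Sp.cross`; `B \ (A \ S)` is a split
for `c, d` that contains `S`, hence contains `A'` by minimality. -/
theorem sy_meet (hc : G.Cub) (hT : G.HT T) (hB : B ⊆ T) (hq : G.Q4 B a b c d)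
    (h1 : G.Sp B a b A) (h2 : G.Sp B c d A')
    (m1 : ∀ X, G.Sp B a b X → ¬ G.Bal (G.ins X) → A ⊆ X)
    (m2 : ∀ X, G.Sp B c d X → ¬ G.Bal (G.ins X) → A' ⊆ X) (hd : ¬ Disjoint A A') :
    (G.cut (A ∩ A')).card = 4 ∧ ∀ S ⊆ B, G.US S → S ⊆ A ∩ A' ∨ A ∩ A' ⊆ S := by
  refine ⟨?_, fun S hS hu => ?_⟩
  · have k1 := h2.compl hq.flip
    have k2 : ¬ A ⊆ B \ A' := fun k => hd (subset_sdiff.1 k).2
    obtain ⟨x, y, k3, -⟩ := (k1.str hc hT hB hq).2.2.2.2.2.2.2.2.2.2.2.2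
    have k4 := (k1.sub hc hT hB hq k3 h1
      ⟨(h1.nested hc hT hB hq k1).resolve_left k2, k2⟩).1.2.1
    rwa [show A \ (B \ A') = A ∩ A' by
      ext v
      have := @h1.1 v
      simp only [mem_sdiff, mem_inter]
      tauto] at k4
  · rcases sy_meet_aux hc hT hB hq h1 m2 hd hS hu with k1 | k1
    · rcases sy_meet_aux hc hT hB hq.flip h2 m1 (fun k => hd k.symm) hS hu with k2 | k2
      · exact Or.inl (subset_inter k1 k2)
      · exact Or.inr (inter_comm A' A ▸ k2)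
    · exact Or.inr k1

/-- the least unbalanced split -/
theorem sy_min (hc : G.Cub) (hT : G.HT T) (hB : B ⊆ T) (hq : G.Q4 B a b c d)
    (h : G.Sp B a b X) (hu : ¬ G.Bal (G.ins X)) : ∃ A, G.Sp B a b A ∧ ¬ G.Bal (G.ins A) ∧
      ∀ X, G.Sp B a b X → ¬ G.Bal (G.ins X) → A ⊆ X := by
  obtain ⟨A, -, k⟩ := Finite.exists_le_minimal
    (p := fun X => G.Sp B a b X ∧ ¬ G.Bal (G.ins X)) ⟨h, hu⟩
  exact ⟨A, k.1.1, k.1.2, fun X k1 k2 =>
    (k.1.1.nested hc hT hB hq k1).elim id fun k3 => k.2 ⟨k1, k2⟩ k3⟩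

/-- two unbalanced splits for complementary pairs -/
theorem sy_two (hc : G.Cub) (hT : G.T3 T) (h : G.Cmb T B) (hq : G.Q4 B a b c d)
    (h1 : G.Sp B a b M1) (h2 : G.Sp B c d M2) (u1 : ¬ G.Bal (G.ins M1))
    (u2 : ¬ G.Bal (G.ins M2)) :
    (∃ Bs v0, G.Sy T Bs v0 ∧ Bs.card ≠ 1) ∨ (∃ B' ⊂ B, G.Cmb T B') ∨
      ∃ A A', G.Sp B a b A ∧ G.Sp B c d A' ∧ Disjoint A A' ∧ ¬ G.Bal (G.ins A) ∧
        ¬ G.Bal (G.ins A') := by
  have hB := h.1.1
  obtain ⟨A, a1, a2, a3⟩ := sy_min hc hT.1 hB hq h1 u1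
  obtain ⟨A', b1, b2, b3⟩ := sy_min hc hT.1 hB hq.flip h2 u2
  by_cases hd : Disjoint A A'
  · exact Or.inr (Or.inr ⟨A, A', a1, b1, hd, a2, b2⟩)
  obtain ⟨k1, k2⟩ := sy_meet hc hT.1 hB hq a1 b1 a3 b3 hd
  have k3 : A ∩ A' ⊂ B := inter_subset_left.trans_ssubset (Spl_ss a1)
  refine (sy_one (k3.subset.trans hB) k1 (fun e he => ?_) fun S hS => ?_).imp id
    fun k => Or.inl ⟨_, k3, k⟩
  · by_cases k4 : e ∈ G.cut B
    · exact h.1.2.2 k4
    · have k5 := fun k : G.s e ∈ A ∩ A' => k3.subset k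
      have k6 := fun k : G.t e ∈ A ∩ A' => k3.subset k
      rw [mem_cut] at he k4
      exact ins_mono hB (mem_ins.2 (by (clear * - he k4 k5 k6; tauto)))
  · exact (h.2 S hS).elim (fun k => k2 S k hS.2.1) fun k => Or.inr (k3.subset.trans k)

omit [Fintype V] [DecidableEq E] in
theorem sy_step_to {Bs : Finset (Finset V)} {v0 : V} (h : G.Sy T Bs v0) :
    Bs.card ≠ 1 ∨ ∃ B, Bs = {B} ∧ G.Cmb T B := by
  by_cases c1 : Bs.card = 1
  swap
  · exact Or.inl c1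
  obtain ⟨B, rfl⟩ := card_eq_one.1 c1
  refine Or.inr ⟨B, rfl, h.bx B (mem_singleton_self B), fun S hS => ?_⟩
  refine (h.cov S hS).imp (fun ⟨B', k1, k2⟩ => mem_singleton.1 k1 ▸ k2) fun k => ?_
  exact k.2 B (mem_singleton_self B)

/-- One step of the descent.
HINT: let `Bs` be the maximal dangerous sides properly inside `B`.  If two of them meet or have a
union with four leaving edges, the union is dangerous, hence `B`: `sy_pair`, `sy_two`.  Otherwise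
`Bs` is a system with any `v0 ∈ B`. -/
theorem sy_step (hc : G.Cub) (hT : G.T3 T) (h : G.Cmb T B) :
    (∃ Bs v0, G.Sy T Bs v0 ∧ Bs.card ≠ 1) ∨ (∃ B' ⊂ B, G.Cmb T B') ∨
      ∃ a b c d A A', G.Q4 B a b c d ∧ G.Sp B a b A ∧ G.Sp B c d A' ∧ Disjoint A A' ∧
        ¬ G.Bal (G.ins A) ∧ ¬ G.Bal (G.ins A') := by
  classical
  obtain ⟨Bs, hBs⟩ : ∃ Bs : Finset (Finset V), ∀ S, S ∈ Bs ↔
      Maximal (fun S => G.KA T S ∧ S ⊂ B) S :=
    ⟨univ.filter _, fun S => mem_filter.trans (and_iff_right (mem_univ S))⟩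
  by_cases c1 : ∃ M1 ∈ Bs, ∃ M2 ∈ Bs, M1 ≠ M2 ∧ G.KA T (M1 ∪ M2)
  · obtain ⟨M1, k1, M2, k2, k3, k4⟩ := c1
    rw [hBs] at k1 k2
    have k5 : M1 ∪ M2 = B := by
      by_contra k5
      have k6 : M1 ∪ M2 ⊂ B := (union_subset k1.1.2.subset k2.1.2.subset).ssubset_of_ne k5
      exact k3 (Subset.antisymm (subset_union_left.trans (k2.2 ⟨k4, k6⟩ subset_union_right))
        (subset_union_right.trans (k1.2 ⟨k4, k6⟩ subset_union_left)))
    obtain ⟨a, b, c, d, hq, s1, s2⟩ := sy_pair hc hT.1 h.1.1 h.1.2.1.1 k1.1.1.2.1 k2.1.1.2.1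
      k1.1.2 k2.1.2 k5
    exact (sy_two hc hT h hq s1 s2 k1.1.1.2.1.2 k2.1.1.2.1.2).imp id
      (Or.imp id fun ⟨A, A', k⟩ => ⟨a, b, c, d, A, A', hq, k⟩)
  push Not at c1
  obtain ⟨v0, hv0⟩ := Spl_nonempty h.1.2.1.1
  have ka : ∀ M ∈ Bs, G.KA T M := fun M hM => ((hBs M).1 hM).1.1
  have hS : G.Sy T Bs v0 := by
    refine ⟨fun M1 k1 M2 k2 k3 => ?_, ka, h.1.1 hv0, h.1.nt hv0, fun S hS => ?_,
      fun M1 k1 M2 k2 k3 k4 => c1 M1 k1 M2 k2 k3 ?_⟩
    · by_contra k4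
      exact c1 M1 k1 M2 k2 k3 ((ka _ k1).union hc hT (ka _ k2) k4)
    · by_cases k1 : B ⊆ S
      · exact Or.inr ⟨k1 hv0, fun M hM => ((hBs M).1 hM).1.2.subset.trans k1⟩
      · obtain ⟨M, k2, k3⟩ := Finite.exists_le_maximal (p := fun S => G.KA T S ∧ S ⊂ B)
          ⟨hS, (h.2 S hS).resolve_right k1, k1⟩
        exact Or.inl ⟨M, (hBs M).2 k3, k2⟩
    · exact ⟨union_subset (ka _ k1).1 (ka _ k2).1,
        ⟨k4, fun k => (ka _ k1).2.1.2 (k.mono (ins_mono subset_union_left))⟩,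
        cut_union_sub.trans (union_subset (ka _ k1).2.2 (ka _ k2).2.2)⟩
  rcases sy_step_to hS with k | ⟨B', k1, k2⟩
  · exact Or.inl ⟨Bs, v0, hS, k⟩
  · exact Or.inr (Or.inl ⟨B', ((hBs B').1 (k1 ▸ mem_singleton_self B')).1.2, k2⟩)

theorem sy_ex (hc : G.Cub) (hT : G.T3 T) (hK : ¬ G.K1 T) :
    (∃ Bs v0, G.Sy T Bs v0 ∧ G.To T Bs ∧ G.Ch2 Bs) ∨
      ∃ B a b c d A A', G.Ycn T B a b c d A A' := by
  have key : ∀ Bs v0, G.Sy T Bs v0 → Bs.card ≠ 1 →
      ∃ Bs v0, G.Sy T Bs v0 ∧ G.To T Bs ∧ G.Ch2 Bs := fun Bs v0 h k => by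
    refine ⟨Bs, v0, h, ?_, fun B r => absurd (r ▸ card_singleton B) k⟩
    by_cases c : Bs = ∅
    · exact Or.inr (Or.inr ⟨c, hK⟩)
    · have := card_pos.2 (nonempty_iff_ne_empty.2 c)
      exact Or.inl (by omega)
  obtain ⟨Bs, v0, h, -⟩ := sy_abs hc hT hK
  rcases sy_step_to h with k | ⟨B, -, k⟩
  · exact Or.inl (key Bs v0 h k)
  clear h
  induction B using Finset.strongInduction with
  | H B ih =>
    rcases sy_step hc hT k with ⟨Bs, v0, k1⟩ | ⟨B', k1, k2⟩ | ⟨a, b, c, d, A, A', q, k1⟩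
    · exact Or.inl (key Bs v0 k1.1 k1.2)
    · exact ih B' k1 k2
    obtain ⟨s1, s2, dj, u1, u2⟩ := k1
    by_cases hb : G.Bal (G.ins (T \ B))
    · exact Or.inr ⟨B, a, b, c, d, A, A', ⟨k.1, hb, k.2⟩, q, s1, s2, dj, u1, u2⟩
    obtain ⟨v, hv⟩ := k.sy
    refine Or.inl ⟨{B}, v, hv, Or.inr (Or.inl ⟨B, rfl, hb⟩), fun B' r => ?_⟩
    obtain rfl := singleton_injective r
    exact ⟨a, b, c, d, A, q, s1, u1,
      fun r => u2 (r.mono (ins_mono (subset_sdiff.2 ⟨s2.1, dj.symm⟩)))⟩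

end SG

end Pool.Agent.Work.MP_8c679b_co
end

-- merged part: Pool.Agent.Work.MP_8c679b_co.A3.YZ
section
/-!
Paths outside a dangerous side whose rest does not connect two terminals.
-/

set_option autoImplicit false

namespace Pool.Agent.Work.MP_8c679b_co

open Finset

namespace SG

variable {V E : Type} [Fintype V] [DecidableEq V] [DecidableEq E] {G : SG V E}
  {T B K U : Finset V} {a b c d e f : E} {n : ℕ} {v : ℕ → V} {g : ℕ → E} {s : V}

variable (G) in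
/-- a part of the outside with four leaving edges, among them `a` and `b` -/
def Ybad (T B : Finset V) (a b : E) : Prop :=
  ∃ Y ⊆ T \ B, (G.cut Y).card = 4 ∧ a ∈ G.cut Y ∧ b ∈ G.cut Y

theorem KA.oe (h : G.KA T B) (he : e ∈ G.cut B) :
    G.oe B e ∈ T \ B ∧ e ∈ G.cut (T \ B) ∧ G.ie (T \ B) e = G.oe B e := by
  have k1 : e ∈ G.cut (T \ B) := by
    have k1 := @h.1 (G.s e)
    have k2 := @h.1 (G.t e)
    have k3 := h.2.2 he
    simp only [SG.mem_cut, mem_ins, mem_sdiff] at he k3 ⊢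
    (clear * - he k1 k2 k3; grind)
  have k2 := (ie_link disjoint_sdiff he k1).1
  exact ⟨k2 ▸ ie_mem (cut_sub_tch k1), k1, k2⟩

theorem KA.mem_cut (h : G.KA T B) : e ∈ G.cut (T \ B) ↔ e ∈ G.cut B ∨ e ∈ G.cut T := by
  have k1 := @h.1 (G.s e)
  have k2 := @h.1 (G.t e)
  have k3 := @h.2.2 e
  simp only [SG.mem_cut, mem_ins, mem_sdiff] at k3 ⊢
  (clear * - k1 k2 k3; grind)

theorem KA.dv_one (hc : G.Cub) (hT : G.T3 T) (h : G.KA T B) : 1 < T.card := by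
  have k1 := hT.1.us_card hc h.1 h.2.1
  have k2 := card_le_card h.1
  omega

theorem KA.dv_ie (h : G.KA T B) (he : e ∈ G.cut T) : G.ie T e ∈ T \ B :=
  mem_sdiff.2 ⟨ie_mem (cut_sub_tch he), fun k => h.nt k ⟨ie_mem (cut_sub_tch he), e, he, ie_at⟩⟩

/-- HINT: else `insert z B` has at most three leaving edges; it is not `T`, which has three
terminals outside `B` (`HT.f2'`). -/
theorem KA.dv (hc : G.Cub) (hT : G.T3 T) (h : G.KA T B) (he : e ∈ G.cut B) (hf : f ∈ G.cut B)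
    (hef : e ≠ f) : G.oe B e ≠ G.oe B f := by
  intro hz
  have m1 := mem_sdiff.1 (h.oe he).1
  have hS : insert (G.oe B e) B ⊆ T := insert_subset m1.1 h.1
  have k0 : ({G.oe B e} : Finset V) ⊆ insert (G.oe B e) B :=
    singleton_subset_iff.2 (mem_insert_self _ _)
  have k1 := cut_add (G := G) k0
  rw [sdiff_singleton_eq_erase, erase_insert m1.2, (hT.1.vtx hc m1.1).1, h.2.1.1] at k1
  have key : ∀ x ∈ G.cut B, G.oe B x = G.oe B e →
      x ∈ G.crs (G.ins (insert (G.oe B e) B)) {G.oe B e} := by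
    intro x hx k
    have hA := (SG.mem_cut.1 hx).1
    refine mem_crs.2 ⟨Cut_je_ins hA je_ie_oe (mem_insert_of_mem (ie_mem (cut_sub_tch hx)))
      (k ▸ mem_insert_self _ _), (SG.mem_cut.1 ?_).2⟩
    exact (mem_cut_single (hT.1.noloop hc (ins_sub_tch (h.2.2 hx)))).2 ⟨hA, k ▸ oe_at⟩
  have k2 := one_lt_card.2 ⟨e, key e he rfl, f, key f hf hz.symm, hef⟩
  obtain ⟨k3, k4⟩ := hT.1 _ hS (insert_nonempty _ _)
  rcases k4 (by omega) with k | k
  · have k5 := hT.1.us_card hc h.1 h.2.1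
    rw [card_insert_of_notMem m1.2] at k
    omega
  · obtain ⟨x, hx, y, hy, hxy⟩ := one_lt_card.1 (show 1 < (G.cut T).card by rw [hT.2.1]; omega)
    have k6 : ∀ x ∈ G.cut T, G.ie T x = G.oe B e := fun x hx => by
      have k7 := mem_sdiff.1 (h.dv_ie hx)
      exact (mem_insert.1 (k.symm ▸ k7.1 : G.ie T x ∈ insert (G.oe B e) B)).resolve_right k7.2
    exact hT.1.f2' hc hT.2.1 (h.dv_one hc hT) hx hy hxy ((k6 x hx).trans (k6 y hy).symm)

theorem KA.cn_seven (hT : G.T3 T) (h : G.KA T B) : (G.cut (T \ B)).card = 7 := by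
  have k1 := cut_add (G := G) h.1
  have k2 : G.crs (G.ins T) B = G.cut B := by
    rw [crs_ins h.1]
    exact sdiff_eq_self_of_disjoint
      (disjoint_left.2 fun e he k => not_ins_of_cut k (h.2.2 he))
  rw [k2, h.2.1.1, hT.2.1] at k1
  omega

theorem KA.cn_four (hc : G.Cub) (hT : G.T3 T) (h : G.KA T B) (hK : K ⊆ T \ B) (hn : K.Nonempty)
    (h0 : G.crs (G.ins (T \ B)) K = ∅) : 4 ≤ (G.cut K).card := by
  obtain ⟨k1, k2⟩ := hT.1 K (hK.trans sdiff_subset) hn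
  by_contra k3
  rcases k2 (by omega) with k | k
  · obtain ⟨y, rfl⟩ := card_eq_one.1 k
    have hy := mem_sdiff.1 (hK (mem_singleton_self y))
    have hat : ∀ e ∈ G.cut {y}, G.At e y := fun e he => by
      have := (SG.mem_cut.1 he).2
      simp only [mem_singleton] at this
      unfold At
      tauto
    have s1 : G.cut {y} ⊆ G.cut {y} ∩ G.cut B ∪ G.cut {y} ∩ G.cut T := fun e he => by
      rw [crs_ins hK, sdiff_eq_empty_iff_subset] at h0
      rcases h.mem_cut.1 (h0 he) with k | k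
      · exact mem_union_left _ (mem_inter.2 ⟨he, k⟩)
      · exact mem_union_right _ (mem_inter.2 ⟨he, k⟩)
    have s2 : (G.cut {y} ∩ G.cut B).card ≤ 1 := card_le_one.2 fun e he f hf => by
      rw [mem_inter] at he hf
      by_contra hef
      exact h.dv hc hT he.2 hf.2 hef
        ((eq_oe he.2 hy.2 (hat e he.1)).symm.trans (eq_oe hf.2 hy.2 (hat f hf.1)))
    have s3 : (G.cut {y} ∩ G.cut T).card ≤ 1 := card_le_one.2 fun e he f hf => by
      rw [mem_inter] at he hf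
      by_contra hef
      exact hT.1.f2' hc hT.2.1 (h.dv_one hc hT) he.2 hf.2 hef
        ((eq_ie he.2 hy.1 (hat e he.1)).symm.trans (eq_ie hf.2 hy.1 (hat f hf.1)))
    have s4 := (card_le_card s1).trans (card_union_le _ _)
    omega
  · have k5 := hT.1.us_card hc h.1 h.2.1
    obtain ⟨x, hx⟩ := card_pos.1 (show 0 < B.card by omega)
    exact (mem_sdiff.1 (hK (k.symm ▸ h.1 hx : x ∈ K))).2 hx

/-- HINT: a component `K ≠ T \ B` and `(T \ B) \ K` have cuts of total size seven, so one of them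
is a vertex with three leaving edges; two of them lie in `cut B` (`KA.dv`) or in `cut T`
(`HT.f2'`). -/
theorem KA.cn (hc : G.Cub) (hT : G.T3 T) (h : G.KA T B) : G.Cn (T \ B) (G.ins (T \ B)) := by
  intro x hx y hy
  obtain ⟨k1, k2, k3, -⟩ := cmp_spec (G := G) hx
  by_contra k
  have k4 : y ∈ (T \ B) \ G.cmp (T \ B) x := mem_sdiff.2 ⟨hy, fun k5 => k (mem_cmp.1 k5).2⟩
  have k5 := cut_add (G := G) k2
  have k6 := h.cn_four hc hT k2 ⟨x, k1⟩ k3
  have k7 := h.cn_four hc hT sdiff_subset ⟨y, k4⟩ (by rw [crs_sdiff k2, k3])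
  rw [k3, h.cn_seven hT, card_empty] at k5
  omega

/-- two different edges from a path to the rest end at different vertices.
HINT: `GUnit_two`, `GUnit_four`. -/
theorem yz_dist (hc : G.Cub) (hT : G.T3 T) (h : G.KA T B) (hq : G.Q4 B a b c d)
    (hp : G.Pth (G.ins (T \ B)) n v g) (h0 : v 0 = G.oe B a) (hn : v n = G.oe B b)
    (he : e ∈ G.ins (T \ B)) (hf : f ∈ G.ins (T \ B)) (he' : e ∈ G.cut (pv n v))
    (hf' : f ∈ G.cut (pv n v)) (hs : s ∈ pv n v) (h1 : G.At e s) (h2 : G.At f s) : e = f := by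
  by_contra hef
  obtain ⟨ma, mb, -, -⟩ := hq.mem
  have h0n : 0 < n := Nat.pos_of_ne_zero fun k => by
    subst k
    exact h.dv hc hT ma mb hq.2.1 (h0.symm.trans hn)
  obtain ⟨l, hl, rfl⟩ := mem_pv.1 hs
  obtain ⟨f1, a1, f2, a2, n12, t1, t2, c1, c2, -⟩ := GUnit_two hp h0n
    ⟨a, (h.oe ma).2.1, h0 ▸ oe_at⟩ ⟨b, (h.oe mb).2.1, hn ▸ oe_at⟩ hl
  have hx := (mem_sdiff.1 (hp.sub_of_ins (h0 ▸ (h.oe ma).1) hs)).1
  exact GUnit_four hc hT.1 hx (ins_sub_A he) (ins_sub_A hf) a1 a2 h1 h2 t1 t2 hef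
    (fun k => c1 (k ▸ he) (k ▸ he')) (fun k => c2 (k ▸ he) (k ▸ he'))
    (fun k => c1 (k ▸ hf) (k ▸ hf')) (fun k => c2 (k ▸ hf) (k ▸ hf')) n12

theorem yz_cnt_a (hB : B ⊆ T) (hK : K ⊆ T \ B) : G.cut ((T \ B) \ K) ⊆
    G.crs (G.ins (T \ B)) K ∪ (G.cut B \ G.cut K) ∪ (G.cut T \ G.tch K) := by
  intro x hx
  have k1 := @hB (G.s x)
  have k2 := @hB (G.t x)
  have k3 := @hK (G.s x)
  have k4 := @hK (G.t x)
  simp only [SG.mem_cut, mem_ins, mem_sdiff, mem_union, mem_crs, mem_tch] at hx k3 k4 ⊢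
  by_cases G.s x ∈ K <;> by_cases G.t x ∈ K <;> by_cases G.s x ∈ B <;> by_cases G.t x ∈ B <;>
    by_cases G.s x ∈ T <;> by_cases G.t x ∈ T <;> simp_all

theorem yz_cnt_b (hB : B ⊆ T) (hK : K ⊆ T \ B) : G.cut (T \ K) ⊆
    G.crs (G.ins (T \ B)) K ∪ (G.cut B ∩ G.cut K) ∪ (G.cut T \ G.tch K) := by
  intro x hx
  have k1 := @hB (G.s x)
  have k2 := @hB (G.t x)
  have k3 := @hK (G.s x)
  have k4 := @hK (G.t x)
  simp only [SG.mem_cut, mem_ins, mem_sdiff, mem_union, mem_inter, mem_crs, mem_tch]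
    at hx k3 k4 ⊢
  by_cases G.s x ∈ K <;> by_cases G.t x ∈ K <;> by_cases G.s x ∈ B <;> by_cases G.t x ∈ B <;>
    by_cases G.s x ∈ T <;> by_cases G.t x ∈ T <;> simp_all

/-- A closed set with two terminals has two edges to the path.
HINT: let `j ≤ 1` be the number of such edges.  If at most one of `c, d` leaves `K` then
`cut (T \ K)` has at most `1 + j + 1` edges; otherwise `(T \ B) \ K` has at most `2 + 1 + j`
leaving edges, among them `a, b`. -/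
theorem yz_cnt (hc : G.Cub) (hT : G.T3 T) (h : G.KA T B) (hq : G.Q4 B a b c d)
    (hb : ¬ G.Ybad T B a b) (hK : K ⊆ T \ B) (ha : G.oe B a ∉ K) (hb' : G.oe B b ∉ K)
    {s s' : V} (hs : G.Ex T s) (hs' : G.Ex T s') (hne : s ≠ s') (m : s ∈ K) (m' : s' ∈ K) :
    2 ≤ (G.crs (G.ins (T \ B)) K).card := by
  by_contra hj
  obtain ⟨ma, mb, -, -⟩ := hq.mem
  obtain ⟨sT, e1, c1, t1⟩ := hs
  obtain ⟨sT', e2, c2, t2⟩ := hs'
  have n12 : e1 ≠ e2 := fun k => hne ((eq_ie c1 sT t1).trans (k ▸ (eq_ie c2 sT' t2).symm))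
  have hR : (G.cut T \ G.tch K).card ≤ 1 := by
    have s1 : G.cut T \ G.tch K ⊆ G.cut T \ {e1, e2} :=
      sdiff_subset_sdiff Subset.rfl (insert_subset (Cut_tch (SG.mem_cut.1 c1).1 t1 m)
        (singleton_subset_iff.2 (Cut_tch (SG.mem_cut.1 c2).1 t2 m')))
    have s2 := card_le_card s1
    rw [card_sdiff_of_subset (insert_subset c1 (singleton_subset_iff.2 c2)), card_pair n12,
      hT.2.1] at s2
    exact s2
  have hB4 := hT.1.us_card hc h.1 h.2.1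
  have hout : ∀ x ∈ G.cut B, G.oe B x ∉ K → x ∉ G.cut K := fun x hx k k' => by
    have k1 := ie_mem (cut_sub_tch k')
    exact k (eq_oe hx (mem_sdiff.1 (hK k1)).2 ie_at ▸ k1)
  have hP : ∀ x ∈ G.cut B, x = a ∨ x = b ∨ x = c ∨ x = d := fun x hx => by
    rw [hq.1] at hx
    simpa using hx
  by_cases hcd : c ∈ G.cut K ∧ d ∈ G.cut K
  · have s1 := yz_cnt_a (G := G) h.1 hK
    have s2 : G.cut B \ G.cut K ⊆ {a, b} := fun x hx => by
      rw [mem_sdiff] at hx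
      rcases hP x hx.1 with rfl | rfl | rfl | rfl
      · simp
      · simp
      · exact (hx.2 hcd.1).elim
      · exact (hx.2 hcd.2).elim
    have s3 := (card_le_card s1).trans ((card_union_le _ _).trans
      (Nat.add_le_add_right (card_union_le _ _) _))
    have s4 := (card_le_card s2).trans card_le_two
    have ya : G.oe B a ∈ (T \ B) \ K := mem_sdiff.2 ⟨(h.oe ma).1, ha⟩
    have yb : G.oe B b ∈ (T \ B) \ K := mem_sdiff.2 ⟨(h.oe mb).1, hb'⟩
    have s5 := hT.1.four Subset.rfl (X := (T \ B) \ K)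
      ⟨sdiff_subset.trans sdiff_subset, fun k => (mem_sdiff.1 (k sT)).2 m⟩
      (one_lt_card.2 ⟨_, ya, _, yb, h.dv hc hT ma mb hq.2.1⟩)
    exact hb ⟨_, sdiff_subset, by omega,
      (cut_of_sub sdiff_subset (h.oe ma).2.1 (Cut_tch (SG.mem_cut.1 ma).1 oe_at ya)).1,
      (cut_of_sub sdiff_subset (h.oe mb).2.1 (Cut_tch (SG.mem_cut.1 mb).1 oe_at yb)).1⟩
  · have s1 := yz_cnt_b (G := G) h.1 hK
    have s2 : (G.cut B ∩ G.cut K).card ≤ 1 := card_le_one.2 fun x hx y hy => by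
      rw [mem_inter] at hx hy
      have k1 : ∀ x, x ∈ G.cut B ∧ x ∈ G.cut K → x = c ∨ x = d := fun x hx => by
        rcases hP x hx.1 with rfl | rfl | k
        · exact (hout _ hx.1 ha hx.2).elim
        · exact (hout _ hx.1 hb' hx.2).elim
        · exact k
      rcases k1 x hx with rfl | rfl <;> rcases k1 y hy with rfl | rfl
      · rfl
      · exact (hcd ⟨hx.2, hy.2⟩).elim
      · exact (hcd ⟨hy.2, hx.2⟩).elim
      · rfl
    have s3 := (card_le_card s1).trans ((card_union_le _ _).trans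
      (Nat.add_le_add_right (card_union_le _ _) _))
    have s4 : B ⊆ T \ K := fun x hx => mem_sdiff.2 ⟨h.1 hx, fun k => (mem_sdiff.1 (hK k)).2 hx⟩
    have s5 := hT.1.four Subset.rfl (X := T \ K)
      ⟨sdiff_subset, fun k => (mem_sdiff.1 (k sT)).2 m⟩ (by have := card_le_card s4; omega)
    omega

theorem yz_one_meet (h3 : (G.cut T).card = 3) {s' r r' : V} (hs : G.Ex T s) (hs' : G.Ex T s')
    (hr : G.Ex T r) (hr' : G.Ex T r') (h1 : s ≠ s') (h2 : r ≠ r') :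
    r = s ∨ r = s' ∨ r' = s ∨ r' = s' := by
  obtain ⟨a, b, c, q, -⟩ := exists_q3 h3
  have k : ∀ x, G.Ex T x → x = G.ie T a ∨ x = G.ie T b ∨ x = G.ie T c := by
    rintro x ⟨k1, e, k2, k3⟩
    have k4 := eq_ie k2 k1 k3
    simp only [q, mem_insert, mem_singleton] at k2
    rcases k2 with rfl | rfl | rfl
    exacts [Or.inl k4, Or.inr (Or.inl k4), Or.inr (Or.inr k4)]
  have k1 := k _ hs
  have k2 := k _ hs'
  have k3 := k _ hr
  have k4 := k _ hr'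
  grind

theorem yz_one_att {W : Finset V} (hK : G.Cls (W \ U) K) (he : e ∈ G.crs (G.ins W) K) :
    e ∈ G.ins W ∧ e ∈ G.cut U ∧ G.oe K e ∈ U ∧ G.ie K e ∈ K := by
  obtain ⟨h1, h2⟩ := mem_crs.1 he
  have h3 : e ∈ G.cut K := mem_cut.2 ⟨ins_sub_A h1, h2⟩
  have h4 := ie_mem (cut_sub_tch h3)
  have j : G.Je e (G.ie K e) (G.oe K e) := je_ie_oe
  have h5 : G.oe K e ∈ U := by_contra fun h6 => oe_not_mem h3 (hK.mem (ins_sub_A h1) ie_at oe_at h4
    (mem_sdiff.2 ⟨((Pth_ends j).1 (mem_ins.1 h1).2).2, h6⟩))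
  exact ⟨h1, (GXb_je j).2 ⟨ins_sub_A h1, fun h6 => (mem_sdiff.1 (hK.1 h4)).2 (h6.2 h5)⟩, h5, h4⟩

/-- HINT: as `xb3`: minimise the component with two terminals; `GXb_rr` with `yz_cnt`, `yz_dist`.
Among three terminals two pairs always share one. -/
theorem yz_one (hc : G.Cub) (hT : G.T3 T) (h : G.KA T B) (hq : G.Q4 B a b c d)
    (hb : ¬ G.Ybad T B a b) : ∃ n v g, G.Pth (G.ins (T \ B)) n v g ∧ v 0 = G.oe B a ∧
      v n = G.oe B b ∧ G.Gd2 T ((T \ B) \ pv n v) := by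
  have ta := (h.oe hq.mem.1).1
  have tb := (h.oe hq.mem.2.1).1
  by_contra hno
  have bad : ∀ n v g, G.Pth (G.ins (T \ B)) n v g → v 0 = G.oe B a → v n = G.oe B b →
      ∃ s s', G.Ex T s ∧ G.Ex T s' ∧ s ≠ s' ∧ s ∈ (T \ B) \ pv n v ∧
        s' ∈ G.cmp ((T \ B) \ pv n v) s := fun n v g hp h0 hn => by
    by_contra k
    exact hno ⟨n, v, g, hp, h0, hn, fun s s' k1 k2 k3 k4 k5 => by_contra fun k6 =>
      k ⟨s, s', k1, k2, k6, k3, mem_cmp.2 ⟨k4, k5⟩⟩⟩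
  have key : ∀ z n v g, G.Pth (G.ins (T \ B)) n v g → v 0 = G.oe B a → v n = G.oe B b →
      ∀ s s', G.Ex T s → G.Ex T s' → s ≠ s' → s ∈ (T \ B) \ pv n v →
        s' ∈ G.cmp ((T \ B) \ pv n v) s → (G.cmp ((T \ B) \ pv n v) s).card ≠ z := by
    intro z
    induction z using Nat.strong_induction_on with
    | _ z ih =>
    intro n v g hp h0 hn s s' hs hs' hne h1 h2 hcard
    obtain ⟨k1, k2, k3, k4⟩ := cmp_spec (G := G) h1
    obtain ⟨e, he, f, hf, hef⟩ := one_lt_card.1 (yz_cnt hc hT h hq hb (k2.trans sdiff_subset)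
      (fun k => (mem_sdiff.1 (k2 k)).2 (mem_pv.2 ⟨0, n.zero_le, h0⟩))
      (fun k => (mem_sdiff.1 (k2 k)).2 (mem_pv.2 ⟨n, le_rfl, hn⟩)) hs hs' hne k1 h2)
    obtain ⟨e1, e2, e3, e4⟩ := yz_one_att ⟨k2, k3⟩ he
    obtain ⟨f1, f2, f3, f4⟩ := yz_one_att ⟨k2, k3⟩ hf
    obtain ⟨n', v', g', p1, p2, p3, ⟨x, x1, x2⟩, p4⟩ := GXb_rr hp k2 k3 k4 fun i hi => by
      by_cases k5 : G.oe (G.cmp ((T \ B) \ pv n v) s) e = v i
      · exact ⟨_, f3, fun k6 => hef (yz_dist hc hT h hq hp h0 hn e1 f1 e2 f2 e3 oe_at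
          (k5.trans k6.symm ▸ oe_at)), f, f1, _, f4, je_ie_oe.symm⟩
      · exact ⟨_, e3, k5, e, e1, _, e4, je_ie_oe.symm⟩
    obtain ⟨r, r', hr, hr', q2, q1, q3⟩ := bad n' v' g' p1 (p2.trans h0) (p3.trans hn)
    have q4 : r ∈ G.cmp ((T \ B) \ pv n v) s \ pv n' v' := by
      have q5 := fun k => (mem_cmp.1 q3).2.symm.closed p4
        (mem_sdiff.2 ⟨k, (mem_sdiff.1 (mem_cmp.1 q3).1).2⟩)
      rcases yz_one_meet hT.2.1 hs hs' hr hr' hne q2 with k | k | k | k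
      exacts [mem_sdiff.2 ⟨k ▸ k1, (mem_sdiff.1 q1).2⟩, mem_sdiff.2 ⟨k ▸ h2, (mem_sdiff.1 q1).2⟩,
        q5 (k ▸ k1), q5 (k ▸ h2)]
    refine ih _ ?_ n' v' g' p1 (p2.trans h0) (p3.trans hn) r r' hr hr' q2 q1 q3 rfl
    rw [← hcard]
    refine card_lt_card (Finset.ssubset_of_subset_of_ssubset (cmp_min q4 (filter_eq_empty_iff.2
      fun f hf => not_not.2 (p4 f hf))) ?_)
    exact (ssubset_iff_of_subset sdiff_subset).2 ⟨x, x1, fun h => (mem_sdiff.1 h).2 x2⟩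
  obtain ⟨n, v, g, hp, h0, hn⟩ := (h.cn hc hT _ ta _ tb).pth a
  obtain ⟨s, s', hs, hs', hne, h1, h2⟩ := bad n v g hp h0 hn
  exact key _ n v g hp h0 hn s s' hs hs' hne h1 h2 rfl

/-- an edge off `P` does not leave a component off `P` -/
theorem yz_thru_step {W P : Finset V} {y z : V} (he : e ∈ G.ins W) (hj : G.Je e y z) (hz : z ∉ P)
    (h : y ∈ G.cmp (W \ P) s) : z ∈ G.cmp (W \ P) s := by
  have h1 := (Pth_ends hj).1 (mem_ins.1 he).2
  have h2 : z ∈ W \ P := mem_sdiff.2 ⟨h1.2, hz⟩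
  exact mem_cmp.2 ⟨h2, GO3_tail (mem_cmp.1 h).2
    (Cut_je_ins (mem_ins.1 he).1 hj (mem_cmp.1 h).1 h2) hj⟩

theorem yz_thru_init {W P : Finset V} (hp : G.Pth (G.ins W) n v g) (hP : ∀ i < n, v i ∉ P)
    (h0 : v 0 ∈ G.cmp (W \ P) s) : ∀ i < n, v i ∈ G.cmp (W \ P) s := by
  intro i
  induction i with
  | zero => exact fun _ => h0
  | succ i ih =>
    exact fun hi => yz_thru_step (hp.mem i (by omega)) (hp.jn i (by omega)) (hP _ hi) (ih (by omega))

/-- a path inside `K` to the first of two paths from `s`, back to `s`, and along the second -/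
theorem yz_thru_cat {S : Finset E} {r m1 m2 l : ℕ} {q v1 v2 : ℕ → V} {k h1 h2 : ℕ → E}
    (pq : G.Pth S r q k) (p1 : G.Pth S m1 v1 h1) (p2 : G.Pth S m2 v2 h2) (e1 : v1 0 = s)
    (e2 : v2 0 = s) (hl : l < m1) (he : q r = v1 l) (hq : ∀ i < r, q i ∉ pv m1 v1 ∪ pv m2 v2)
    (hx : ∀ l, 0 < l → l ≤ m1 → ∀ l', 0 < l' → l' ≤ m2 → v1 l ≠ v2 l') (kq : ∀ i ≤ r, q i ∈ K)
    (k1 : ∀ i < m1, v1 i ∈ K) (k2 : ∀ i < m2, v2 i ∈ K) :
    ∃ m w k, G.Pth S m w k ∧ w 0 = q 0 ∧ w m = v2 m2 ∧ s ∈ pv m w ∧ ∀ i < m, w i ∈ K := by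
  have f1 : (fun j => v1 (l - j)) l = v2 0 := by
    show v1 (l - l) = v2 0
    rw [Nat.sub_self, e1, e2]
  have c1 := (Pth_init p1 hl.le).rev.cat p2 f1 fun i hi j hj e => by
    by_contra j0
    rcases Nat.eq_zero_or_pos (l - i) with k0 | k0
    · rw [k0, e1, ← e2] at e
      exact j0 (p2.inj 0 (Nat.zero_le _) j hj e).symm
    · exact hx _ k0 (by omega) j (Nat.pos_of_ne_zero j0) hj e
  have f2 : q r = catV l (fun j => v1 (l - j)) v2 0 := by
    rw [Pth_catL (Nat.zero_le _)]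
    exact he
  have sub : ∀ j ≤ l + m2, catV l (fun j => v1 (l - j)) v2 j ∈ pv m1 v1 ∪ pv m2 v2 := fun j hj => by
    rcases (mem_pv_cat (v := fun j => v1 (l - j)) f1).1 (mem_pv.2 ⟨j, hj, rfl⟩) with k0 | k0
    · obtain ⟨i, -, e⟩ := mem_pv.1 k0
      exact mem_union_left _ (mem_pv.2 ⟨l - i, by omega, e⟩)
    · exact mem_union_right _ k0
  have c2 := pq.cat c1 f2 fun i hi j hj e => by
    rcases hi.lt_or_eq with hi | rfl
    · exact absurd (e ▸ sub j hj) (hq i hi)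
    · exact (c1.inj 0 (Nat.zero_le _) j hj (f2.symm.trans e)).symm
  refine ⟨_, _, _, c2, Pth_catL (Nat.zero_le _), ?_, (mem_pv_cat f2).2 (Or.inr
    ((mem_pv_cat (v := fun j => v1 (l - j)) f1).2 (Or.inr (mem_pv.2 ⟨0, Nat.zero_le _, e2⟩)))),
    fun i hi => ?_⟩
  · rw [Pth_catR f2 (Nat.le_add_right _ _), Pth_catR (v := fun j => v1 (l - j)) f1 (by omega)]
    congr 1
    omega
  · rcases le_or_gt i r with k0 | k0
    · rw [Pth_catL k0]
      exact kq i k0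
    · rw [Pth_catR f2 k0.le]
      rcases le_or_gt (i - r) l with k3 | k3
      · rw [Pth_catL k3]
        exact k1 _ (by omega)
      · rw [Pth_catR (v := fun j => v1 (l - j)) f1 k3.le]
        exact k2 _ (by omega)

/-- a part of the component of `s` has two edges to the rest of the outside -/
theorem yz_thru_cnt (hc : G.Cub) (hT : G.T3 T) (h : G.KA T B) (hq : G.Q4 B a b c d)
    (h0 : v 0 = G.oe B a) (hn : v n = G.oe B b) (hg : G.Gd2 T ((T \ B) \ pv n v))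
    (hs : G.Ex T s) (hs' : s ∈ (T \ B) \ pv n v)
    (h2 : G.oe B d ∉ G.cmp ((T \ B) \ pv n v) s) (hne : G.oe B c ≠ s)
    (hU : U ⊆ G.cmp ((T \ B) \ pv n v) s) (m : s ∈ U) : 2 ≤ (G.crs (G.ins (T \ B)) U).card := by
  obtain ⟨sT, t, ht, at1⟩ := hs
  have hK := (cmp_spec (G := G) hs').2.1
  have UW : U ⊆ T \ B := (hU.trans hK).trans sdiff_subset
  have v0 : v 0 ∈ pv n v := mem_pv.2 ⟨0, Nat.zero_le _, rfl⟩
  have vn : v n ∈ pv n v := mem_pv.2 ⟨n, le_rfl, rfl⟩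
  have vT : v 0 ∈ T := h0 ▸ (mem_sdiff.1 (h.oe hq.mem.1).1).1
  have nP : ∀ y ∈ U, y ∉ pv n v := fun y hy => (mem_sdiff.1 (hK (hU hy))).2
  have key : ∀ e ∈ G.cut U ∩ G.cut (T \ B), (e = c ∧ G.oe B c ∈ U) ∨ e = t := fun e he => by
    obtain ⟨e1, e2⟩ := mem_inter.1 he
    have i1 : G.ie (T \ B) e ∈ U :=
      (cut_of_sub UW e2 (cut_sub_tch e1)).2 ▸ ie_mem (cut_sub_tch e1)
    rcases h.mem_cut.1 e2 with e3 | e3
    · rw [(h.oe e3).2.2] at i1
      rw [hq.1] at e3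
      simp only [mem_insert, mem_singleton] at e3
      rcases e3 with rfl | rfl | rfl | rfl
      · exact absurd (h0 ▸ v0) (nP _ i1)
      · exact absurd (hn ▸ vn) (nP _ i1)
      · exact Or.inl ⟨rfl, i1⟩
      · exact absurd (hU i1) h2
    · right
      have yT : G.ie (T \ B) e ∈ T := (mem_sdiff.1 (UW i1)).1
      have e4 : s = G.ie (T \ B) e := hg s _ ⟨sT, t, ht, at1⟩ ⟨yT, e, e3, ie_at⟩ hs' (hK (hU i1))
        (mem_cmp.1 (hU i1)).2
      by_contra k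
      refine hT.1.f2' hc hT.2.1 (one_lt_card.2 ⟨s, sT, v 0, vT, fun e5 => nP s m (e5 ▸ v0)⟩) e3 ht k ?_
      exact (eq_ie e3 sT (e4 ▸ ie_at)).symm.trans (eq_ie ht sT at1)
  rw [crs_ins UW]
  have c1 := card_sdiff_add_card_inter (G.cut U) (G.cut (T \ B))
  by_cases k : 2 ≤ U.card
  · have c2 := hT.1.four Subset.rfl ⟨UW.trans sdiff_subset, fun k1 => nP _ (k1 vT) v0⟩ k
    have c3 : (G.cut U ∩ G.cut (T \ B)).card ≤ 2 :=
      (card_le_card (t := {c, t}) fun e he => by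
        rcases key e he with ⟨rfl, -⟩ | rfl
        · exact mem_insert_self _ _
        · exact mem_insert_of_mem (mem_singleton_self _)).trans card_le_two
    omega
  · have c2 := hT.1.mono3 (UW.trans sdiff_subset) ⟨s, m⟩
    have c3 : (G.cut U ∩ G.cut (T \ B)).card ≤ 1 :=
      (card_le_card (t := {t}) fun e he => by
        rcases key e he with ⟨-, k1⟩ | rfl
        · exact absurd (card_le_one.1 (by omega) _ k1 _ m) hne
        · exact mem_singleton_self _).trans (card_singleton _).le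
    omega

/-- A path from the end of `c` through the terminal `s` to the path.
HINT: if `oe B c = s` use `Rch.pth_first` (`KA.cn`).  Else `fan_cub` with `S = ins (T \ B)`,
`Z = {s}`, target `pv n v`, `k = 2` (`yz_dist`; for `X ∋ s` the set `X ∩ K` has three leaving edges
if it is `{s}` and at least four otherwise; only `c` and the edge of `cut T` at `s` are lost),
`GO3_ear`; then `Rch.pth_first` from `oe B c` inside `K` to the inner vertices of the ear, and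
continue in the direction of `s` (`Pth.sub`, `Pth.rev`, `Pth.cat`). -/
theorem yz_thru (hc : G.Cub) (hT : G.T3 T) (h : G.KA T B) (hq : G.Q4 B a b c d)
    (hp : G.Pth (G.ins (T \ B)) n v g) (h0 : v 0 = G.oe B a) (hn : v n = G.oe B b)
    (hg : G.Gd2 T ((T \ B) \ pv n v)) (hs : G.Ex T s) (hs' : s ∈ (T \ B) \ pv n v)
    (h1 : G.oe B c ∈ G.cmp ((T \ B) \ pv n v) s) (h2 : G.oe B d ∉ G.cmp ((T \ B) \ pv n v) s) :
    ∃ m w k, G.Pth (G.ins (T \ B)) m w k ∧ w 0 = G.oe B c ∧ w m ∈ pv n v ∧ s ∈ pv m w ∧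
      ∀ i < m, w i ∈ G.cmp ((T \ B) \ pv n v) s := by
  obtain ⟨sK, hK, -, cn⟩ := cmp_spec (G := G) hs'
  have v0 : v 0 ∈ pv n v := mem_pv.2 ⟨0, Nat.zero_le _, rfl⟩
  by_cases hx : G.oe B c = s
  · obtain ⟨m, w, k, p, w0, wm, wi⟩ := (h.cn hc hT s (mem_sdiff.1 hs').1 (v 0)
      (h0 ▸ (h.oe hq.mem.1).1)).pth_first v0 a
    exact ⟨m, w, k, p, w0.trans hx.symm, wm, mem_pv.2 ⟨0, Nat.zero_le _, w0⟩,
      yz_thru_init p wi (w0 ▸ sK)⟩
  obtain ⟨m, u, k, f1, f2⟩ := fan_cub (G := G) (G.ins (T \ B)) {s} (pv n v) 2 a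
    (hc.le3 ins_sub_A) (disjoint_singleton_left.2 (mem_sdiff.1 hs').2)
    (fun x hx => card_le_one.2 fun e he f hf => by
      have key : ∀ e ∈ G.crs (G.ins (T \ B)) (pv n v) ∩ G.crs (G.ins (T \ B)) {x},
          e ∈ G.ins (T \ B) ∧ e ∈ G.cut (pv n v) ∧ G.At e x := fun e he => by
        obtain ⟨e1, e2⟩ := mem_inter.1 he
        refine ⟨(mem_crs.1 e1).1, mem_cut.2 ⟨ins_sub_A (mem_crs.1 e1).1, (mem_crs.1 e1).2⟩, ?_⟩
        have e3 := (mem_crs.1 e2).2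
        simp only [mem_singleton] at e3
        by_contra k
        exact e3 (iff_of_false (fun k1 => k (Or.inl k1)) fun k1 => k (Or.inr k1))
      exact yz_dist hc hT h hq hp h0 hn (key e he).1 (key f hf).1 (key e he).2.1 (key f hf).2.1 hx
        (key e he).2.2 (key f hf).2.2)
    fun X x1 x2 _ => by
      refine (yz_thru_cnt (U := X ∩ G.cmp ((T \ B) \ pv n v) s) hc hT h hq h0 hn hg hs hs' h2 hx
        inter_subset_right (mem_inter.2 ⟨x1 (mem_singleton_self _), sK⟩)).trans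
        (card_le_card fun e he => ?_)
      obtain ⟨e1, e2⟩ := mem_crs.1 he
      refine mem_crs.2 ⟨e1, fun k => e2 ?_⟩
      have j : G.Je e (G.s e) (G.t e) := Or.inl ⟨rfl, rfl⟩
      simp only [mem_inter]
      exact ⟨fun k1 => ⟨k.1 k1.1, yz_thru_step e1 j (disjoint_left.1 x2 (k.1 k1.1)) k1.2⟩,
        fun k1 => ⟨k.2 k1.1, yz_thru_step e1 j.symm (disjoint_left.1 x2 (k.2 k1.1)) k1.2⟩⟩
  have u0 : ∀ i, u i 0 = s := fun i => mem_singleton.1 (f1 i).2.2.1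
  have uK : ∀ i, ∀ l < m i, u i l ∈ G.cmp ((T \ B) \ pv n v) s := fun i =>
    yz_thru_init (f1 i).1 (f1 i).2.2.2.2.2 ((u0 i).symm ▸ sK)
  obtain ⟨r, q, kq, pq, q0, qr, qi⟩ := (cn _ h1 s sK).pth_first
    (M := pv (m 0) (u 0) ∪ pv (m 1) (u 1))
    (mem_union_left _ (mem_pv.2 ⟨0, Nat.zero_le _, u0 0⟩)) a
  have qK : ∀ i ≤ r, q i ∈ G.cmp ((T \ B) \ pv n v) s := fun i hi =>
    pq.sub_of_ins (q0 ▸ h1) (mem_pv.2 ⟨i, hi, rfl⟩)
  have pq' : G.Pth (G.ins (T \ B)) r q kq :=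
    pq.mono fun i hi => ins_mono (hK.trans sdiff_subset) (pq.mem i hi)
  have key : ∀ i j : Fin 2, i ≠ j → q r ∈ pv (m i) (u i) →
      (∀ l < r, q l ∉ pv (m i) (u i) ∪ pv (m j) (u j)) →
      ∃ m w k, G.Pth (G.ins (T \ B)) m w k ∧ w 0 = G.oe B c ∧ w m ∈ pv n v ∧ s ∈ pv m w ∧
        ∀ i < m, w i ∈ G.cmp ((T \ B) \ pv n v) s := fun i j hij h3 h4 => by
    obtain ⟨l, hl, e⟩ := mem_pv.1 h3
    have hl' : l < m i := lt_of_le_of_ne hl fun e1 =>
      (mem_sdiff.1 (hK (qK r le_rfl))).2 (by rw [← e, e1]; exact (f1 i).2.2.2.1)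
    obtain ⟨m', w, k', p, w0, wm, ws, wi⟩ := yz_thru_cat pq' (f1 i).1 (f1 j).1 (u0 i) (u0 j) hl'
      e.symm h4 (f2 i j hij) qK (uK i) (uK j)
    exact ⟨m', w, k', p, w0.trans q0, wm ▸ (f1 j).2.2.2.1, ws, wi⟩
  rcases mem_union.1 qr with h3 | h3
  · exact key 0 1 (by decide) h3 qi
  · exact key 1 0 (by decide) h3 fun l hl => union_comm (pv (m 0) (u 0)) _ ▸ qi l hl

theorem yz_two_edge {S : Finset E} (hp : G.Pth S n v g) (hn : v n ∈ U) (hK : ∀ i < n, v i ∈ K)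
    (he : e ∈ pe n g) : (∃ x ∈ K, G.At e x) ∧ ∀ x, G.At e x → x ∈ K ∨ x ∈ U := by
  obtain ⟨i, hi, rfl⟩ := mem_pe.1 he
  refine ⟨⟨_, hK i hi, (hp.jn i hi).at_iff.2 (Or.inl rfl)⟩, fun x hx => ?_⟩
  rcases (hp.jn i hi).at_iff.1 hx with rfl | rfl
  · exact Or.inl (hK i hi)
  · rcases (show i + 1 ≤ n from hi).lt_or_eq with k | k
    exacts [Or.inl (hK _ k), Or.inr (k ▸ hn)]

theorem yz_two_out (hq : G.Q4 B a b c d) (ha : G.oe B a ∈ U) (hb : G.oe B b ∈ U)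
    (hK : G.Cls ((T \ B) \ U) K) {s' : V} (hs : s ∈ K) (hs' : s' ∉ K)
    (hr : G.Rch (G.ins (T \ U)) s s') : G.oe B c ∈ K ∨ G.oe B d ∈ K := by
  by_contra k
  refine hs' ((cls_of_mem (W := T \ U) (hK.1.trans (sdiff_subset_sdiff sdiff_subset Subset.rfl))
    fun e he x y hx hy m m' => ?_).rch hs hr).1
  by_cases k1 : y ∈ B
  · have k2 := mem_sdiff.1 (hK.1 m)
    have k3 := (mem_sdiff.1 k2.1).2
    have k4 : e ∈ G.cut B := mem_cut.2 ⟨he, fun k5 => by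
      rcases hx with rfl | rfl <;> rcases hy with rfl | rfl <;> tauto⟩
    have k5 := eq_oe k4 k3 hx
    rw [hq.1] at k4
    simp only [mem_insert, mem_singleton] at k4
    rcases k4 with rfl | rfl | rfl | rfl
    exacts [(k2.2 (k5 ▸ ha)).elim, (k2.2 (k5 ▸ hb)).elim, (k (Or.inl (k5 ▸ m))).elim,
      (k (Or.inr (k5 ▸ m))).elim]
  · exact hK.mem he hx hy m (mem_sdiff.2 ⟨mem_sdiff.2 ⟨(mem_sdiff.1 m').1, k1⟩, (mem_sdiff.1 m').2⟩)

theorem yz_two_join (hc : G.Cub) (hT : G.T3 T) (h : G.KA T B) (hq : G.Q4 B a b c d)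
    (hp : G.Pth (G.ins (T \ B)) n v g) (h0 : v 0 = G.oe B a) (hn : v n = G.oe B b)
    (hg : G.Gd2 T ((T \ B) \ pv n v)) {s' : V} (hs : G.Ex T s) (hs' : G.Ex T s') (hne : s ≠ s')
    (m : s ∈ (T \ B) \ pv n v) (m' : s' ∈ (T \ B) \ pv n v)
    (hd : Disjoint (G.cmp ((T \ B) \ pv n v) s) (G.cmp ((T \ B) \ pv n v) s'))
    (h1 : G.oe B c ∈ G.cmp ((T \ B) \ pv n v) s) (h2 : G.oe B d ∈ G.cmp ((T \ B) \ pv n v) s') :
    ∃ U P, U ⊆ T \ B ∧ G.Pp U P (G.oe B c) (G.oe B d) ∧ G.Gd2 T (T \ U) := by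
  obtain ⟨l, w, k, p1, p2, p3, p4, p5⟩ :=
    yz_thru hc hT h hq hp h0 hn hg hs m h1 (disjoint_right.1 hd h2)
  obtain ⟨l', w', k', q1, q2, q3, q4, q5⟩ :=
    yz_thru hc hT h hq.swap2 hp h0 hn hg hs' m' h2 (disjoint_left.1 hd h1)
  obtain ⟨i, hi, ei⟩ := mem_pv.1 p3
  obtain ⟨j, hj, ej⟩ := mem_pv.1 q3
  obtain ⟨Q, Q1, Q2⟩ := (hp.rch hi hj).od
  have Q3 : ∀ e ∈ Q, ∀ x, G.At e x → ∀ y, x ∉ G.cmp ((T \ B) \ pv n v) y := by
    intro e he x hx y hy
    obtain ⟨t, ht, rfl⟩ := mem_pe.1 (Q1 he)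
    refine (mem_sdiff.1 (mem_cmp.1 hy).1).2 ?_
    rcases (hp.jn t ht).at_iff.1 hx with rfl | rfl
    exacts [mem_pv.2 ⟨t, ht.le, rfl⟩, mem_pv.2 ⟨t + 1, ht, rfl⟩]
  have d1 : Disjoint (pe l k) Q := disjoint_left.2 fun e e1 e2 => by
    obtain ⟨x, x1, x2⟩ := (yz_two_edge p1 p3 p5 e1).1
    exact Q3 e e2 x x2 _ x1
  have d2 : Disjoint (pe l k ∪ Q) (pe l' k') := disjoint_right.2 fun e e1 e2 => by
    obtain ⟨x, x1, x2⟩ := (yz_two_edge q1 q3 q5 e1).1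
    rcases mem_union.1 e2 with e2 | e2
    · exact ((yz_two_edge p1 p3 p5 e2).2 x x2).elim (disjoint_right.1 hd x1)
        (mem_sdiff.1 (mem_cmp.1 x1).1).2
    · exact Q3 e e2 x x2 _ x1
  rw [ei, ej] at Q2
  obtain ⟨U, P, u1, u2, -, u3, -⟩ := GXb_cmp (X := T \ B)
    (union_subset (union_subset p1.pe_sub (Q1.trans hp.pe_sub)) q1.pe_sub)
    ((p1.od.union Q2 d1).union q1.od.symm d2) (p2 ▸ (h.oe hq.mem.2.2.1).1)
  obtain ⟨t, ht, et⟩ := mem_pv.1 p4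
  obtain ⟨t', ht', et'⟩ := mem_pv.1 q4
  have u4 : s ∈ U := et ▸ (p1.rch l.zero_le ht).closed (P := (· ∈ U))
    (fun e he => u3 e (mem_union_left _ (mem_union_left _ he))) u2.2.2.2.1
  have u5 : s' ∈ U := et' ▸ (q1.rch l'.zero_le ht').closed (P := (· ∈ U))
    (fun e he => u3 e (mem_union_right _ he)) u2.2.2.2.2
  refine ⟨U, P, u1, p2 ▸ q2 ▸ u2, fun r r' hr hr' r1 r2 _ => by_contra fun r3 => ?_⟩
  rcases yz_one_meet hT.2.1 hs hs' hr hr' hne r3 with z | z | z | z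
  exacts [(mem_sdiff.1 r1).2 (z ▸ u4), (mem_sdiff.1 r1).2 (z ▸ u5), (mem_sdiff.1 r2).2 (z ▸ u4),
    (mem_sdiff.1 r2).2 (z ▸ u5)]

/-- If the side `B` connects two terminals then the other pair works.
HINT: let `s ≠ s'` be connected in `T \ pv n v`, `K, K'` their components in `(T \ B) \ pv n v`
(disjoint by `hg`).  `K` is not closed in `T \ pv n v`, so `c` or `d` leaves it; the same for `K'`.
Join the two paths of `yz_thru` by the segment of the path; the rest has at most one terminal. -/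
theorem yz_two (hc : G.Cub) (hT : G.T3 T) (h : G.KA T B) (hq : G.Q4 B a b c d)
    (hp : G.Pth (G.ins (T \ B)) n v g) (h0 : v 0 = G.oe B a) (hn : v n = G.oe B b)
    (hg : G.Gd2 T ((T \ B) \ pv n v)) (hg' : ¬ G.Gd2 T (T \ pv n v)) :
    ∃ U P, U ⊆ T \ B ∧ G.Pp U P (G.oe B c) (G.oe B d) ∧ G.Gd2 T (T \ U) := by
  obtain ⟨s, s', hs, hs', m, m', hr, hne⟩ : ∃ s s', G.Ex T s ∧ G.Ex T s' ∧ s ∈ T \ pv n v ∧
      s' ∈ T \ pv n v ∧ G.Rch (G.ins (T \ pv n v)) s s' ∧ s ≠ s' := by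
    by_contra k
    exact hg' fun s s' k1 k2 k3 k4 k5 => by_contra fun k6 => k ⟨s, s', k1, k2, k3, k4, k5, k6⟩
  have k1 : ∀ x, G.Ex T x → x ∈ T \ pv n v → x ∈ (T \ B) \ pv n v := fun x x1 x2 =>
    mem_sdiff.2 ⟨mem_sdiff.2 ⟨x1.1, fun k => h.nt k x1⟩, (mem_sdiff.1 x2).2⟩
  have t := k1 s hs m
  have t' := k1 s' hs' m'
  have hd : Disjoint (G.cmp ((T \ B) \ pv n v) s) (G.cmp ((T \ B) \ pv n v) s') :=
    disjoint_left.2 fun x x1 x2 =>
      hne (hg s s' hs hs' t t' ((mem_cmp.1 x1).2.trans (mem_cmp.1 x2).2.symm))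
  have ta : G.oe B a ∈ pv n v := mem_pv.2 ⟨0, n.zero_le, h0⟩
  have tb : G.oe B b ∈ pv n v := mem_pv.2 ⟨n, le_rfl, hn⟩
  have k2 := yz_two_out hq ta tb (Cls.cmp t) (cmp_spec t).1
    (disjoint_right.1 hd (cmp_spec t').1) hr
  have k3 := yz_two_out hq ta tb (Cls.cmp t') (cmp_spec t').1
    (disjoint_left.1 hd (cmp_spec t).1) hr.symm
  rcases k2 with k2 | k2
  · exact yz_two_join hc hT h hq hp h0 hn hg hs hs' hne t t' hd k2
      (k3.resolve_left (disjoint_left.1 hd k2))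
  · exact yz_two_join hc hT h hq hp h0 hn hg hs' hs hne.symm t' t hd.symm
      (k3.resolve_right (disjoint_left.1 hd k2)) k2

theorem yz_main (hc : G.Cub) (hT : G.T3 T) (h : G.KA T B) (hq : G.Q4 B a b c d)
    (hb : ¬ G.Ybad T B a b) :
    (∃ U P, U ⊆ T \ B ∧ G.Pp U P (G.oe B a) (G.oe B b) ∧ G.Gd2 T (T \ U)) ∨
      ∃ U P, U ⊆ T \ B ∧ G.Pp U P (G.oe B c) (G.oe B d) ∧ G.Gd2 T (T \ U) := by
  obtain ⟨n, v, g, hp, h0, hn, hg⟩ := yz_one hc hT h hq hb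
  by_cases hg' : G.Gd2 T (T \ pv n v)
  · exact Or.inl ⟨pv n v, pe n g, hp.sub_of_ins (h0 ▸ (h.oe hq.mem.1).1),
      h0 ▸ hn ▸ hp.pp ins_sub_A, hg'⟩
  · exact Or.inr (yz_two hc hT h hq hp h0 hn hg hg')

end SG

end Pool.Agent.Work.MP_8c679b_co
end

-- merged part: Pool.Agent.Work.MP_8c679b_co.A3.YMain
section
/-!
The chain case and the descent together.
-/

set_option autoImplicit false

namespace Pool.Agent.Work.MP_8c679b_co

open Finset

namespace SG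

variable {V E : Type} [Fintype V] [DecidableEq V] [DecidableEq E] {G : SG V E}
  {T B A A' U : Finset V} {a b c d : E} {P : Finset E}

theorem Ycn.flip (h : G.Ycn T B a b c d A A') : G.Ycn T B c d a b A' A :=
  ⟨h.cen, h.q4.flip, h.sp', h.sp, h.dj.symm, h.ub', h.ub⟩

/-- The ring through a path outside `B` and the head of `B`; the tail of `B` is left.
HINT: `pure_p` on `U` from `b` to `a`, `yh_head` with the sign `p a' + p b' + n a + n b + 1`,
`close_two`, `y2_mt`: parity one.  The rest `W = T \ (U ∪ X)` contains the side `B \ X ⊇ A'`;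
`par_all` gives parity one: `FH W`, or `us_iso`, `nu_remove`, `nu_bal` (`W \ (B \ X) ⊆ T \ B`).
`tg_empty`, `fin_gd`. -/
theorem yc_ring (hc : G.Cub) (hT : G.T3 T) (hI : G.IHd T) (h : G.Ycn T B a b c d A A')
    (hU : U ⊆ T \ B) (hP : G.Pp U P (G.oe B a) (G.oe B b)) (hg : G.Gd2 T (T \ U)) :
    G.Rall T 0 1 := by
  have hB := h.cen.1.1
  obtain ⟨p, hp⟩ := id h.cen.2.1
  obtain ⟨-, a1, a2⟩ := h.cen.1.oe h.q4.mem.1
  obtain ⟨-, b1, b2⟩ := h.cen.1.oe h.q4.mem.2.1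
  obtain ⟨a3, a4⟩ := Spl_cut_of hU a1 (a2 ▸ hP.2.2.2.1)
  obtain ⟨b3, b4⟩ := Spl_cut_of hU b1 (b2 ▸ hP.2.2.2.2)
  rw [← a2, ← b2, ← a4, ← b4] at hP
  have hp' : ∀ e ∈ P, G.sw p e = 0 := fun e he => hp e (ins_mono hU (hP.1 he))
  have k1 := pure_p (L := ∅) hP a3 b3 h.q4.2.1 hp'
  obtain ⟨X, x1, x2, O, v, v1, o1, o2, tol⟩ := yh_head hc hT.1 hB h.q4
    (fun S hS => hI S (hS.trans hB)) h.sp h.ub
    (p (G.ie U a) + p (G.ie U b) + (G.n a + G.n b) + 1)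
  have hUT := hU.trans sdiff_subset
  have hXT := x2.1.trans hB
  have dU : Disjoint U B := (subset_sdiff.1 hU).2
  obtain ⟨r1, r2⟩ := close_two (Y := T) k1 (o2.symm fun _ r => r.swap) (dU.mono_right x2.1)
    (empty_subset _) hUT hXT fun R1 R2 r1 r2 => Rl.y2_mt r1 r2 (by
      rw [add_assoc, z2_add_self, add_zero])
  rw [(hP.st a3 b3 h.q4.2.1).2, hP.par hp', o1] at r2
  have hW : B \ X ⊆ T \ (U ∪ X) := subset_sdiff.2 ⟨sdiff_subset.trans hB,
    disjoint_union_right.2 ⟨dU.symm.mono_left sdiff_subset, sdiff_disjoint⟩⟩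
  have hu : G.US (B \ X) := ⟨(x2.compl h.q4).2.1, fun k => h.ub' (k.mono (ins_mono
    (subset_sdiff.2 ⟨h.sp'.1, h.dj.symm.mono_right x1⟩)))⟩
  obtain ⟨O', o3, o4⟩ := (par_all hc hT.1 (T \ (U ∪ X)) sdiff_subset).1 ∅ vd_empty 1 (by
    refine or_iff_not_imp_left.2 fun k => ?_
    obtain ⟨c1, c2, c3, -⟩ := us_iso hc hT.1 sdiff_subset k hW hu
    rw [nu_remove hc k (ins_mono hW) c1 c2, c3, (nu_bal (h.cen.2.1.mono (ins_mono ?_))).1,
      zero_add]
    intro x hx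
    simp only [mem_sdiff, mem_union] at hx ⊢
    tauto)
  rw [tg_empty] at o4
  have k := fin_gd (v := v) hc hT (union_subset hUT hXT) r1
    (hg.mono (sdiff_subset_sdiff Subset.rfl subset_union_left)) o4 fun S s1 s2 => by
      have s3 := (h.cen.2.2 S s1).resolve_right fun k => s2 (k (x2.1 v1))
      exact ⟨_, (tol S s3 s1.2.1 s2).imp (fun k => Or.inr ⟨S, k, s1.2.1, s2, rfl⟩)
        fun k => ⟨S, k.trans hW, s1.2.1, rfl⟩, Subset.rfl⟩
  rwa [o3, r2, show ∀ x y : ZMod 2, 1 + (x + (x + y + 1) + y) = 0 by decide] at k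

omit [Fintype V] [DecidableEq V] in
theorem yc_bad_dj {X Y : Finset V} (hd : Disjoint X Y) (v : V) : v ∈ X → v ∉ Y :=
  fun h => disjoint_left.1 hd h

omit [Fintype V] in
theorem yc_bad_mem {X Y : Finset V} (hd : Disjoint X Y) (f : E) :
    f ∈ G.cut (X ∪ Y) ↔ ¬ (f ∈ G.cut X ↔ f ∈ G.cut Y) := by
  have h1 := yc_bad_dj hd (G.s f)
  have h2 := yc_bad_dj hd (G.t f)
  simp only [mem_cut, mem_union]
  grind

theorem yc_bad_card {X Y : Finset V} (hd : Disjoint X Y) :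
    (G.cut (X ∪ Y)).card + 2 * (G.cut X ∩ G.cut Y).card = (G.cut X).card + (G.cut Y).card := by
  have h := cut_submod (G := G) (X := X) (Y := Y)
  have h0 : G.cut (∅ : Finset V) = ∅ := by
    ext f
    simp [mem_cut]
  rw [disjoint_iff_inter_eq_empty.1 hd, sdiff_eq_self_of_disjoint hd,
    sdiff_eq_self_of_disjoint hd.symm, h0, card_empty] at h
  omega

theorem yc_bad_un {Y : Finset V} {g e : E} (hd : Disjoint Y B) (hs : G.Sp B a b A)
    (hq : G.Q4 Y g e a b) (hg : g ∉ G.cut B) (he : e ∉ G.cut B) :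
    (G.cut (Y ∪ A)).card = 4 ∧ g ∈ G.cut (Y ∪ A) ∧ e ∈ G.cut (Y ∪ A) ∧
      ∀ f ∈ G.cut (Y ∪ A), f = g ∨ f = e ∨ f ∈ G.ins B := by
  have hA : Disjoint Y A := hd.mono_right hs.1
  have k : ∀ f, f ∈ G.cut Y → f ∈ G.cut A → f ∈ G.cut B := by
    intro f
    have h1 := yc_bad_dj hd (G.s f)
    have h2 := yc_bad_dj hd (G.t f)
    have h3 := @hs.1 (G.s f)
    have h4 := @hs.1 (G.t f)
    simp only [mem_cut]
    grind
  have e1 : G.cut Y ∩ G.cut A = {a, b} := by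
    ext f
    rw [mem_inter, mem_insert, mem_singleton]
    constructor
    · exact fun h => (Spl_iff hs f).1 ⟨h.2, k f h.1 h.2⟩
    · rintro (rfl | rfl)
      · exact ⟨hq.mem.2.2.1, (Spl_ab hs).1.1⟩
      · exact ⟨hq.mem.2.2.2, (Spl_ab hs).2.1⟩
  have e2 := yc_bad_card (G := G) hA
  rw [e1, card_pair hq.2.2.2.2.2.2, hq.card, hs.2.1] at e2
  refine ⟨by omega, (yc_bad_mem hA g).2 fun h => hg (k g hq.mem.1 (h.1 hq.mem.1)),
    (yc_bad_mem hA e).2 fun h => he (k e hq.mem.2.1 (h.1 hq.mem.2.1)), fun f hf => ?_⟩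
  rw [yc_bad_mem hA] at hf
  by_cases h1 : f ∈ G.cut Y
  · rcases (Spl_mem hq f).1 h1 with h2 | h2 | rfl | rfl
    · exact Or.inl h2
    · exact Or.inr (Or.inl h2)
    · exact absurd (iff_of_true h1 (Spl_ab hs).1.1) hf
    · exact absurd (iff_of_true h1 (Spl_ab hs).2.1) hf
  · have h2 : f ∈ G.cut A := by tauto
    have h3 : f ∉ G.cut B := fun h3 => by
      rcases (Spl_iff hs f).1 ⟨h2, h3⟩ with rfl | rfl
      · exact h1 hq.mem.2.2.1
      · exact h1 hq.mem.2.2.2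
    have h4 := @hs.1 (G.s f)
    have h5 := @hs.1 (G.t f)
    right
    right
    simp only [mem_cut, mem_ins] at h2 h3 ⊢
    grind

/-- The other two edges of a bad part: one terminal edge and one inner edge.
HINT: `c, d` do not leave `Y` (else `Y ∪ B` has two leaving edges); two edges of `cut T` would give
`cut (T \ Y)` three edges; no such edge would make `Y ∪ A` a dangerous side that is not comparable
with `B`. -/
theorem yc_bad (hc : G.Cub) (hT : G.T3 T) (h : G.Ycn T B a b c d A A') {Y : Finset V}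
    (hY : Y ⊆ T \ B) (h4 : (G.cut Y).card = 4) (ha : a ∈ G.cut Y) (hb : b ∈ G.cut Y) :
    ∃ g e, G.Q4 Y g e a b ∧ e ∈ G.cut T ∧ g ∈ G.ins (T \ B) := by
  have hd : Disjoint Y B := disjoint_sdiff_self_left.mono_left hY
  have hYT : Y ⊆ T := hY.trans sdiff_subset
  have hBT : B ⊆ T := h.cen.1.1
  obtain ⟨u, w, hq⟩ := exists_q4 h4 ha hb h.q4.2.1
  have n3 : ∀ f ∈ G.cut Y, f ≠ a → f ≠ b → f ∉ G.cut B := by
    intro f hf h1 h2 hB
    have e1 := yc_bad_card (G := G) hd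
    have e2 := hT.1.mono3 (union_subset hYT hBT) ((Spl_nonempty h4).mono subset_union_left)
    have e3 : ({f, a, b} : Finset E) ⊆ G.cut Y ∩ G.cut B := by
      intro x hx
      simp only [mem_insert, mem_singleton] at hx
      rcases hx with rfl | rfl | rfl
      · exact mem_inter.2 ⟨hf, hB⟩
      · exact mem_inter.2 ⟨ha, h.q4.mem.1⟩
      · exact mem_inter.2 ⟨hb, h.q4.mem.2.1⟩
    have e4 := card_le_card e3
    rw [card_eq_three.2 ⟨f, a, b, h1, h2, h.q4.2.1, rfl⟩] at e4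
    rw [h4, h.q4.card] at e1
    omega
  have nu := n3 u hq.mem.2.2.1 hq.2.2.1.symm hq.2.2.2.2.1.symm
  have nw := n3 w hq.mem.2.2.2 hq.2.2.2.1.symm hq.2.2.2.2.2.1.symm
  have alt : ∀ f ∈ G.cut Y, f ∉ G.cut B → f ∈ G.cut T ∨ f ∈ G.ins (T \ B) := by
    intro f h1 h2
    have h3 := @hY (G.s f)
    have h4 := @hY (G.t f)
    simp only [mem_cut, mem_ins, mem_sdiff] at h1 h2 h3 h4 ⊢
    grind
  rcases alt u hq.mem.2.2.1 nu with hu | hu <;> rcases alt w hq.mem.2.2.2 nw with hw | hw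
  · exfalso
    have e1 : G.cut Y ∩ G.cut T = {u, w} := by
      ext f
      rw [mem_inter, mem_insert, mem_singleton]
      constructor
      · rintro ⟨h1, h2⟩
        rcases (Spl_mem hq f).1 h1 with rfl | rfl | h3 | h3
        · exact absurd (h.cen.1.2.2 h.q4.mem.1) (not_ins_of_cut h2)
        · exact absurd (h.cen.1.2.2 h.q4.mem.2.1) (not_ins_of_cut h2)
        · exact Or.inl h3
        · exact Or.inr h3
      · rintro (rfl | rfl)
        · exact ⟨hq.mem.2.2.1, hu⟩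
        · exact ⟨hq.mem.2.2.2, hw⟩
    have e2 := Spl_card (G := G) hYT
    rw [e1, card_pair hq.2.2.2.2.2.2, hT.2.1, h4] at e2
    have e3 : B ⊆ T \ Y := subset_sdiff.2 ⟨hBT, hd.symm⟩
    have e4 := Spl_two hc hT.1 hBT h.q4.card
    have e5 := card_le_card e3
    rcases (hT.1 (T \ Y) sdiff_subset (card_pos.1 (by omega))).2 (by omega) with e6 | e6
    · omega
    · obtain ⟨y, hy⟩ := Spl_nonempty h4
      exact (mem_sdiff.1 (e6.symm ▸ hYT hy)).2 hy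
  · exact ⟨w, u, hq.flip.swap1, hu, hw⟩
  · exact ⟨u, w, hq.flip, hw, hu⟩
  · exfalso
    obtain ⟨k1, -, -, k2⟩ := yc_bad_un hd h.sp hq.flip nu nw
    have k3 : G.KA T (Y ∪ A) := by
      refine ⟨union_subset hYT (h.sp.1.trans hBT),
        ⟨k1, fun k => h.ub (k.mono (ins_mono subset_union_right))⟩, fun f hf => ?_⟩
      rcases k2 f hf with rfl | rfl | k4
      · exact ins_mono sdiff_subset hu
      · exact ins_mono sdiff_subset hw
      · exact ins_mono hBT k4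
    rcases h.cen.2.2 _ k3 with k4 | k4
    · obtain ⟨y, hy⟩ := Spl_nonempty h4
      exact disjoint_left.1 hd hy (k4 (mem_union_left _ hy))
    · refine Spl_ne h.sp (Subset.antisymm h.sp.1 fun x hx => ?_)
      exact (mem_union.1 (k4 hx)).resolve_left (disjoint_right.1 hd hx)

theorem yc_both_sp {M Y : Finset V} {g e : E} (hT : G.T3 T) (hM : M ⊆ T)
    (h4 : (G.cut M).card = 4) (hBM : B ⊆ M) (hYM : Y ⊆ M) (hd : Disjoint Y B) (hs : G.Sp B a b A)
    (hq : G.Q4 Y g e a b) (hg : g ∉ G.cut B) (he : e ∉ G.cut B) (hg' : g ∈ G.cut M)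
    (he' : e ∈ G.cut M) : G.Sp M g e Y ∧ G.Sp M g e (Y ∪ A) := by
  obtain ⟨k1, k2, k3, -⟩ := yc_bad_un hd hs hq hg he
  have ss : Y ∪ A ⊂ M := by
    refine ⟨union_subset hYM (hs.1.trans hBM), fun k4 => ?_⟩
    refine Spl_ne hs (Subset.antisymm hs.1 fun x hx => ?_)
    exact (mem_union.1 (k4 (hBM hx))).resolve_left (disjoint_right.1 hd hx)
  exact ⟨Spl_sp_of hT.1 hM (Finset.ssubset_of_subset_of_ssubset subset_union_left ss) h4 hq.card hq.2.1
      ⟨hq.mem.1, hg'⟩ ⟨hq.mem.2.1, he'⟩,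
    Spl_sp_of hT.1 hM ss h4 k1 hq.2.1 ⟨k2, hg'⟩ ⟨k3, he'⟩⟩

/-- Both pairs are bad.
HINT: `Y, Y'` are disjoint (`cut_submod`: `Y ∪ Y' ∪ B` has at least three leaving edges, so
`cut (Y ∪ Y')` has at least seven); `T \ (Y ∪ B ∪ Y')` has the leaving edges `g, g'` and the third
edge of `cut T`, so it is a vertex `t`; take `N = Y ∪ A`, `N' = Y' ∪ A'`. -/
theorem yc_both (hc : G.Cub) (hT : G.T3 T) (h : G.Ycn T B a b c d A A')
    (h1 : G.Ybad T B a b) (h2 : G.Ybad T B c d) :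
    ∃ t g e g' e' z X X' N N', G.Ybd T t g e g' e' z X X' N N' := by
  obtain ⟨Y, hY, h4, ha, hb⟩ := h1
  obtain ⟨Y', hY', h4', hc', hd'⟩ := h2
  obtain ⟨g, e, hq, he, hg⟩ := yc_bad hc hT h hY h4 ha hb
  obtain ⟨g', e', hq', he', hg'⟩ := yc_bad hc hT h.flip hY' h4' hc' hd'
  have hBT : B ⊆ T := h.cen.1.1
  have dB : Disjoint Y B := disjoint_sdiff_self_left.mono_left hY
  have dB' : Disjoint Y' B := disjoint_sdiff_self_left.mono_left hY'
  have hYT : Y ⊆ T := hY.trans sdiff_subset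
  have hYT' : Y' ⊆ T := hY'.trans sdiff_subset
  have dZ : Disjoint (Y ∪ Y') B := disjoint_union_left.2 ⟨dB, dB'⟩
  have hM : Y ∪ Y' ∪ B ⊆ T := union_subset (union_subset hYT hYT') hBT
  have up : ∀ f ∈ G.cut B, f ∈ G.cut Y ∨ f ∈ G.cut Y' → f ∈ G.cut (Y ∪ Y') := by
    intro f
    have h1 := yc_bad_dj dB (G.s f)
    have h2 := yc_bad_dj dB (G.t f)
    have h3 := yc_bad_dj dB' (G.s f)
    have h4 := yc_bad_dj dB' (G.t f)
    simp only [mem_cut, mem_union]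
    grind
  have c7 : 7 ≤ (G.cut (Y ∪ Y')).card := by
    have e1 := yc_bad_card (G := G) dZ
    have e2 := hT.1.mono3 hM ((Spl_nonempty h.q4.card).mono subset_union_right)
    have e3 : G.cut B ⊆ G.cut (Y ∪ Y') := fun f hf => up f hf (by
      rcases (Spl_mem h.q4 f).1 hf with rfl | rfl | rfl | rfl
      exacts [Or.inl ha, Or.inl hb, Or.inr hc', Or.inr hd'])
    rw [inter_eq_right.2 e3, h.q4.card] at e1
    omega
  have dY : Disjoint Y Y' := by
    by_contra hn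
    have e1 := cut_submod (G := G) (X := Y) (Y := Y')
    have e2 := hT.1.mono3 (inter_subset_left.trans hYT) (not_disjoint_iff_nonempty_inter.1 hn)
    omega
  have dC : ∀ f, f ∈ G.cut Y → f ∉ G.cut Y' := by
    intro f k1 k2
    have e1 := yc_bad_card (G := G) dY
    have e2 := card_pos.2 ⟨f, mem_inter.2 ⟨k1, k2⟩⟩
    omega
  have nT : ∀ f, f ∈ G.cut T → f ∉ G.cut B := fun f k1 k2 => not_ins_of_cut k1 (h.cen.1.2.2 k2)
  have nI : ∀ f, f ∈ G.ins (T \ B) → f ∉ G.cut B ∧ f ∉ G.cut T := by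
    intro f
    simp only [mem_cut, mem_ins, mem_sdiff]
    grind
  have mM : ∀ f, f ∈ G.cut (Y ∪ Y' ∪ B) ↔ f = g ∨ f = e ∨ f = g' ∨ f = e' := by
    intro f
    rw [yc_bad_mem dZ, yc_bad_mem dY]
    have k1 := Spl_mem hq f
    have k2 := Spl_mem hq' f
    have k3 := Spl_mem h.q4 f
    have k4 := dC f
    have k5 : f = g → f ∉ G.cut B := fun k => k ▸ (nI g hg).1
    have k6 : f = e → f ∉ G.cut B := fun k => k ▸ nT e he
    have k7 : f = g' → f ∉ G.cut B := fun k => k ▸ (nI g' hg').1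
    have k8 : f = e' → f ∉ G.cut B := fun k => k ▸ nT e' he'
    generalize (f ∈ G.cut Y) = p1 at *
    generalize (f ∈ G.cut Y') = p2 at *
    generalize (f ∈ G.cut B) = p3 at *
    clear * - k1 k2 k3 k4 k5 k6 k7 k8
    grind
  have ne : ∀ f f', f ∈ G.cut Y → f' ∈ G.cut Y' → f ≠ f' := fun f f' k1 k2 k => dC f k1 (k ▸ k2)
  have qM : G.Q4 (Y ∪ Y' ∪ B) g e g' e' := by
    refine ⟨?_, hq.2.1, ne _ _ hq.mem.1 hq'.mem.1, ne _ _ hq.mem.1 hq'.mem.2.1,
      ne _ _ hq.mem.2.1 hq'.mem.1, ne _ _ hq.mem.2.1 hq'.mem.2.1, hq'.2.1⟩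
    ext f
    simp only [mM, mem_insert, mem_singleton]
  obtain ⟨R, r1, r2, r3, r4⟩ := Cut_rest (k := 1) hT.2.1 he he' qM.2.2.2.2.2.1
  obtain ⟨z, rfl⟩ := card_eq_one.1 r1
  rw [mem_singleton] at r3 r4
  have mT : ∀ f, f ∈ G.cut T ↔ f = e ∨ f = e' ∨ f = z := by
    intro f
    simp only [r2, mem_insert, mem_singleton]
  have hz : z ∈ G.cut T := (mT z).2 (Or.inr (Or.inr rfl))
  have gz : g ≠ z := fun k => (nI g hg).2 (k ▸ hz)
  have gz' : g' ≠ z := fun k => (nI g' hg').2 (k ▸ hz)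
  have cR : G.cut (T \ (Y ∪ Y' ∪ B)) = {g, g', z} := by
    ext f
    rw [Spl_sd hM, mM, mem_insert, mem_insert, mem_singleton]
    have k1 := mT f
    have k5 : f = g → f ∉ G.cut T := fun k => k ▸ (nI g hg).2
    have k7 : f = g' → f ∉ G.cut T := fun k => k ▸ (nI g' hg').2
    have k8 : f = z → f ≠ e ∧ f ≠ e' := fun k => k ▸ ⟨Ne.symm r3, Ne.symm r4⟩
    generalize (f ∈ G.cut T) = p1 at *
    clear * - k1 k5 k7 k8
    grind
  have nR : (T \ (Y ∪ Y' ∪ B)).Nonempty := by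
    have : g ∈ G.cut (T \ (Y ∪ Y' ∪ B)) := cR ▸ mem_insert_self _ _
    exact ⟨_, Spl_ie this⟩
  have c1 : (T \ (Y ∪ Y' ∪ B)).card = 1 := by
    refine ((hT.1 _ sdiff_subset nR).2 ?_).resolve_right fun k => ?_
    · rw [cR]
      exact card_eq_three.2 ⟨g, g', z, qM.2.2.1, gz, gz', rfl⟩
    · obtain ⟨y, hy⟩ := Spl_nonempty h.q4.card
      exact (mem_sdiff.1 (k.symm ▸ hBT hy)).2 (mem_union_right _ hy)
  obtain ⟨t, ht⟩ := card_eq_one.1 c1
  have eM : T \ {t} = Y ∪ Y' ∪ B := by rw [← ht, Finset.sdiff_sdiff_eq_self hM]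
  have s1 := yc_both_sp hT hM qM.card subset_union_right
    (subset_union_left.trans subset_union_left) dB h.sp hq (nI g hg).1 (nT e he) qM.mem.1
    qM.mem.2.1
  have s2 := yc_both_sp hT hM qM.card subset_union_right
    (subset_union_right.trans subset_union_left) dB' h.sp' hq' (nI g' hg').1 (nT e' he')
    qM.mem.2.2.1 qM.mem.2.2.2
  refine ⟨t, g, e, g', e', z, Y, Y', Y ∪ A, Y' ∪ A',
    sdiff_subset (ht ▸ mem_singleton_self t), ⟨ht ▸ cR, qM.2.2.1, gz, gz'⟩, hz, he, he',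
    eM ▸ qM, eM ▸ s1.1, eM ▸ s2.1, h.cen.2.1.mono (ins_mono hY), h.cen.2.1.mono (ins_mono hY'),
    eM ▸ s1.2, eM ▸ s2.2, fun k => h.ub (k.mono (ins_mono subset_union_right)),
    fun k => h.ub' (k.mono (ins_mono subset_union_right)), ?_⟩
  exact disjoint_union_left.2 ⟨disjoint_union_right.2 ⟨dY, dB.mono_right h.sp'.1⟩,
    disjoint_union_right.2 ⟨(dB'.mono_right h.sp.1).symm, h.dj⟩⟩

theorem chn_even (hc : G.Cub) (hT : G.T3 T) (hI : G.IHd T) (h : G.Ycn T B a b c d A A') :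
    G.Rall T 0 1 := by
  by_cases h1 : G.Ybad T B a b
  · by_cases h2 : G.Ybad T B c d
    · obtain ⟨t, g, e, g', e', z, X, X', N, N', k⟩ := yc_both hc hT h h1 h2
      exact yb_even hc hT hI k
    · rcases yz_main hc hT h.cen.1 h.q4.flip h2 with ⟨U, P, k⟩ | ⟨U, P, k⟩
      exacts [yc_ring hc hT hI h.flip k.1 k.2.1 k.2.2, yc_ring hc hT hI h k.1 k.2.1 k.2.2]
  · rcases yz_main hc hT h.cen.1 h.q4 h1 with ⟨U, P, k⟩ | ⟨U, P, k⟩
    exacts [yc_ring hc hT hI h k.1 k.2.1 k.2.2, yc_ring hc hT hI h.flip k.1 k.2.1 k.2.2]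

/-- a system with two disjoint objects, or the even solution -/
theorem seven_c (hc : G.Cub) (hT : G.T3 T) (_ : G.F2 T) (hK : ¬ G.K1 T) (hI : G.IHd T) :
    (∃ Bs v0, G.Sy T Bs v0 ∧ G.To T Bs ∧ G.Ch2 Bs) ∨ G.Rall T 0 1 :=
  (sy_ex hc hT hK).imp_right fun ⟨_, _, _, _, _, _, _, h⟩ => chn_even hc hT hI h

end SG

end Pool.Agent.Work.MP_8c679b_co
end
end

-- merged part: Pool.Agent.Work.MP_8c679b_co.A3.DF4
section
-- merged part: Pool.Agent.Work.MP_8c679b_co.A3.DQ4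
section
/-!
The quotient of a three-side by a system of boxes.
-/

set_option autoImplicit false

namespace Pool.Agent.Work.MP_8c679b_co

open Finset

namespace SG

variable {V E : Type} [Fintype V] [DecidableEq V] [DecidableEq E] {G : SG V E}
  {T : Finset V} {Bs : Finset (Finset V)} {v0 : V} {F : Kf V E} {M : MP_8c679b_co.Mb V E} {e1 e2 : E}
  {xf : Finset V → E → E → ZMod 2 → Finset V}

theorem DQ4_lk {t : V} {e : E} (ht : t ∈ T) (h1 : e ∈ G.cut {t}) (h2 : e ∈ G.cut (T \ {t})) :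
    e ∈ G.ins T ∧ G.Je e t (G.ie (T \ {t}) e) := by
  obtain ⟨k1, k2⟩ := ie_link disjoint_sdiff h1 h2
  rw [union_sdiff_of_subset (singleton_subset_iff.2 ht)] at k2
  have k3 := je_ie_oe (G := G) (X := {t}) (e := e)
  rw [mem_singleton.1 (ie_mem (cut_sub_tch h1)), ← k1] at k3
  exact ⟨k2, k3⟩

theorem DQ4_ka {c : E} {X : Finset V} (mc : c ∈ G.cut T) (h : G.KA T X) :
    X ⊆ T \ {G.ie T c} := fun v hv => mem_sdiff.2 ⟨h.1 hv, fun k => by
  have k1 := h.2.2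
    (cut_of_sub h.1 mc (Cut_tch (mem_cut.1 mc).1 ie_at (mem_singleton.1 k ▸ hv))).1
  exact (mem_cut.1 mc).2 (iff_of_true (mem_ins.1 k1).2.1 (mem_ins.1 k1).2.2)⟩

omit [Fintype V] in
theorem DQ4_cut {S X : Finset V} {a b x y : E} (hX : X ⊆ S) (ma : a ∈ G.cut T) (mb : b ∈ G.cut T)
    (q4 : G.Q4 S a b x y) (h : G.cut X ⊆ G.ins T) : G.cut X ⊆ G.ins S ∪ {x, y} := by
  intro e he
  have k1 := mem_ins.1 (h he)
  by_cases k : e ∈ G.ins S
  · exact mem_union_left _ k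
  have k2 : e ∈ G.cut S := by
    have k3 := @hX (G.s e)
    have k4 := @hX (G.t e)
    rw [mem_cut] at he ⊢
    rw [mem_ins] at k
    (clear * - he k k1 k3 k4; grind)
  rw [q4.1, mem_insert, mem_insert] at k2
  rcases k2 with rfl | rfl | k2
  · exact absurd (iff_of_true k1.2.1 k1.2.2) (mem_cut.1 ma).2
  · exact absurd (iff_of_true k1.2.1 k1.2.2) (mem_cut.1 mb).2
  · exact mem_union_right _ k2

theorem DQ4_sing {S : Finset V} {n : ℕ} {v : ℕ → V} {g : ℕ → E} (hp : G.Pth (G.ins S) n v g) :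
    (G.quo S ∅).Pth (G.quo S ∅).A n (fun i => nd ∅ (v i)) g := by
  have e : ∀ u : V, nd ∅ u = {u} := fun u => nd_of_not fun N hN => absurd hN (notMem_empty N)
  refine ⟨fun i hi j hj h => hp.inj i hi j hj (singleton_injective (by rwa [e, e] at h)),
    fun i hi => mem_quo.2 ⟨hp.mem i hi, fun h => ?_⟩, fun i hi => quo_je (hp.mem i hi) (hp.jn i hi)⟩
  rw [e, e, singleton_inj] at h
  have k : v i = v (i + 1) := by
    rcases hp.jn i hi with ⟨k1, k2⟩ | ⟨k1, k2⟩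
    · rw [← k1, h, k2]
    · rw [← k2, ← h, k1]
  have := hp.inj i hi.le (i + 1) hi k
  omega

theorem DQ4_close {t : V} {x y : E} {n : ℕ} {w : ℕ → Finset V} {g : ℕ → E} (ht : t ∈ T)
    (hB : ∀ B ∈ Bs, B ⊆ T \ {t}) (hxy : x ≠ y) (x1 : x ∈ G.cut {t}) (x2 : x ∈ G.cut (T \ {t}))
    (y1 : y ∈ G.cut {t}) (y2 : y ∈ G.cut (T \ {t}))
    (hp : (G.quo (T \ {t}) Bs).Pth (G.quo (T \ {t}) Bs).A n w g)
    (h0 : w 0 = nd Bs (G.ie (T \ {t}) x)) (hn : w n = nd Bs (G.ie (T \ {t}) y)) :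
    ∃ F, (G.quo T Bs).Cw (insert {t} (pv n w)) F ∧
      (G.quo T Bs).par F = G.n x + G.n y + G.par (pe n g) := by
  have : Nonempty E := ⟨x⟩
  have et : nd Bs t = {t} :=
    nd_of_not fun B hB' k => (mem_sdiff.1 (hB B hB' k)).2 (mem_singleton_self t)
  have ne : ∀ v ∈ T \ {t}, nd Bs v ≠ {t} := fun v hv k => (mem_sdiff.1 hv).2 (k ▸ mem_nd_self)
  have lk : ∀ e ∈ G.cut {t}, e ∈ G.cut (T \ {t}) → e ∈ (G.quo T Bs).A ∧
      (G.quo T Bs).Je e {t} (nd Bs (G.ie (T \ {t}) e)) := fun e h1 h2 => by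
    obtain ⟨k1, k2⟩ := DQ4_lk ht h1 h2
    have k3 := ne _ (ie_mem (cut_sub_tch h2))
    have k6 := quo_je (Ns := Bs) k1 k2
    rw [et] at k6
    refine ⟨mem_quo.2 ⟨k1, ?_⟩, k6⟩
    rcases k2 with ⟨k4, k5⟩ | ⟨k4, k5⟩ <;> rw [k4, k5, et]
    exacts [k3.symm, k3]
  have hw : (G.quo T Bs).Pw _ _ _ _ := ⟨n, w, g, ⟨hp.inj, fun i hi => mem_quo.2
    ⟨ins_mono sdiff_subset (mem_quo.1 (hp.mem i hi)).1, (mem_quo.1 (hp.mem i hi)).2⟩, hp.jn⟩,
    h0, hn, rfl, rfl⟩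
  refine ⟨_, hw.close (lk x x1 x2).1 (lk y y1 y2).1 hxy (lk x x1 x2).2 (lk y y1 y2).2 fun k => ?_⟩
  obtain ⟨i, hi, k⟩ := mem_pv.1 k
  obtain ⟨v, hv, k'⟩ := quo_pth_node hp (ie_mem (cut_sub_tch x2)) h0 i hi
  exact ne v hv (k'.symm.trans k)

/-- A system with a valid ring through two terminals.
HINT: `t_side` gives `S = T \ {ie T c}` with `Q4 S a b x y`, `NC S x y`; `HT.boxes` with
`J = {x, y}`; these boxes form a system (two boxes whose union has four leaving edges would lie in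
one box; `v0` is an end of `x`, no terminal by `t3_nadj`).  `o3` if there is a box, else `cpm` with the sign that makes the ring odd (then
`nd ∅ v = {v}`).  Close the path through the node `{ie T c}` (`Pth.snoc`, `Pth.close`). -/
theorem sy_ring (hc : G.Cub) (hT : G.T3 T) (hF : G.F2 T) :
    ∃ Bs v0 X, G.Sy T Bs v0 ∧ (G.quo T Bs).Vr Bs X ∧
      ∃ t ∈ G.tq T, ∃ t' ∈ G.tq T, t ≠ t' ∧ t ∈ X ∧ t' ∈ X := by
  obtain ⟨a, b, c, hq⟩ := exists_q3 hT.2.1
  obtain ⟨x, y, q3, q4, hu, -, hN, -⟩ := t_side hc hT hF hq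
  obtain ⟨ma, mb, mc⟩ : a ∈ G.cut T ∧ b ∈ G.cut T ∧ c ∈ G.cut T := by simp [hq.1]
  obtain ⟨x1, y1⟩ : x ∈ G.cut {G.ie T c} ∧ y ∈ G.cut {G.ie T c} := by simp [q3.1]
  obtain ⟨a2, b2, x2, y2⟩ := q4.mem
  have ht : G.ie T c ∈ T := ie_mem (cut_sub_tch mc)
  have hS : T \ {G.ie T c} ⊆ T := sdiff_subset
  have h4 := hT.1.us_card hc hS hu
  obtain ⟨Bs, hB⟩ := hT.1.boxes hc hS (J := {x, y}) card_le_two
  have hxy : ({x, y} : Finset E) ⊆ G.ins T := insert_subset (DQ4_lk ht x1 x2).1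
    (singleton_subset_iff.2 (DQ4_lk ht y1 y2).1)
  have hv : G.ie (T \ {G.ie T c}) x ∈ T := hS (ie_mem (cut_sub_tch x2))
  have sy : G.Sy T Bs (G.ie (T \ {G.ie T c}) x) := by
    refine ⟨hB.2.1, fun B h => ⟨(hB.1 B h).2.1.trans hS, (hB.1 B h).1,
      (hB.1 B h).2.2.trans (union_subset (ins_mono hS) hxy)⟩, hv, ?_, fun X h => Or.inl
        (hB.2.2 X h.2.1 (DQ4_ka mc h) (DQ4_cut (DQ4_ka mc h) ma mb q4 h.2.2)), ?_⟩
    · rintro ⟨-, e, he, k⟩
      refine t3_nadj hc hT hF mc he ⟨x, (mem_cut.1 x1).1, ?_⟩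
      rw [← eq_ie he hv k]
      exact (DQ4_lk ht x1 x2).2
    · intro B h B' h' hne k
      obtain ⟨u1, s1, c1⟩ := hB.1 B h
      obtain ⟨u2, s2, c2⟩ := hB.1 B' h'
      have n1 := hT.1.us_card hc (s1.trans hS) u1
      have n2 := hT.1.us_card hc (s2.trans hS) u2
      obtain ⟨v, m1⟩ := card_pos.1 (show 0 < B.card by omega)
      obtain ⟨v', m2⟩ := card_pos.1 (show 0 < B'.card by omega)
      have := hB.max h (S := B ∪ B') ⟨k, fun k' => u1.2 (k'.mono (ins_mono subset_union_left))⟩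
        (union_subset s1 s2) (cut_union_sub.trans (union_subset c1 c2))
        (not_disjoint_iff.2 ⟨v, mem_union_left _ m1, m1⟩)
      exact disjoint_left.1 (hB.2.1 B h B' h' hne) (this (mem_union_right _ m2)) m2
  have tm : ∀ X : Finset (Finset V), ∀ e ∈ G.cut T, e ∈ G.cut (T \ {G.ie T c}) →
      {G.ie (T \ {G.ie T c}) e} ∈ X → ∃ t ∈ G.tq T, ∃ t' ∈ G.tq T, t ≠ t' ∧
        t ∈ insert {G.ie T c} X ∧ t' ∈ insert {G.ie T c} X := fun X e h1 h2 h3 =>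
    ⟨_, mem_image_of_mem _ mc, {G.ie (T \ {G.ie T c}) e},
      mem_image.2 ⟨e, h1, by rw [(cut_of_sub hS h1 (cut_sub_tch h2)).2]⟩,
      fun k => (mem_sdiff.1 (ie_mem (cut_sub_tch h2))).2 (k.ge (mem_singleton_self _)),
      mem_insert_self _ _, mem_insert_of_mem h3⟩
  refine ⟨Bs, G.ie (T \ {G.ie T c}) x, ?_⟩
  rcases Bs.eq_empty_or_nonempty with rfl | hne
  · obtain ⟨n, v, g, hp, h0, hn, hm, hs⟩ := cpm hc hT.1 hS hu q4.flip hN (1 + (G.n x + G.n y))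
    obtain ⟨F, h1, h2⟩ := DQ4_close ht (fun B h => (hB.1 B h).2.1) q3.2.1 x1 x2 y1 y2
      (DQ4_sing hp) (congrArg _ h0) (congrArg _ hn)
    have e : ∀ u ∈ pv n v, {u} ∈ pv n fun i => nd ∅ (v i) := fun u hu => by
      obtain ⟨i, hi, rfl⟩ := mem_pv.1 hu
      exact mem_pv.2 ⟨i, hi, nd_of_not fun N hN => absurd hN (notMem_empty N)⟩
    refine ⟨_, sy, ⟨F, h1, Or.inl ?_⟩,
      hm.elim (fun k => tm _ a ma a2 (e _ k)) fun k => tm _ b mb b2 (e _ k)⟩
    rw [h2, hs]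
    linear_combination z2_add_self (G.n x + G.n y)
  · obtain ⟨n, w, g, hp, h0, hn, hm, j, hj, hw⟩ := o3 hc hT.1 hS q4.flip (by omega) hN hB hne
    obtain ⟨F, h1, -⟩ := DQ4_close ht (fun B h => (hB.1 B h).2.1) q3.2.1 x1 x2 y1 y2 hp h0 hn
    exact ⟨_, sy, ⟨F, h1, Or.inr (not_disjoint_iff.2
      ⟨w j, mem_insert_of_mem (mem_pv.2 ⟨j, hj, rfl⟩), hw⟩)⟩, tm _ a ma a2 hm⟩

end SG

end Pool.Agent.Work.MP_8c679b_co
end

-- merged part: Pool.Agent.Work.MP_8c679b_co.A3.DF2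
section
/-!
Frames and members from rings of the quotient.
-/

set_option autoImplicit false

namespace Pool.Agent.Work.MP_8c679b_co

open Finset

namespace SG

variable {V E : Type} [Fintype V] [DecidableEq V] [DecidableEq E] {G : SG V E}
  {T : Finset V} {Bs : Finset (Finset V)} {v0 : V} {F : Kf V E} {M : MP_8c679b_co.Mb V E} {e1 e2 : E}
  {xf : Finset V → E → E → ZMod 2 → Finset V}

/-- the facts at one deleted terminal -/
theorem DF2_term (hc : G.Cub) (hT : G.HT T) {Y : Finset V} (hY : Y ⊆ T) {e a b : E}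
    (he : e ∈ G.cut T) (ht : G.ie T e ∉ Y) (hq : G.Q3 {G.ie T e} a b e) {O : Finset E}
    (hO : O ⊆ G.tch Y) (ha : a ∈ O ∩ G.cut Y) (hb : b ∈ O ∩ G.cut Y) :
    a ∈ G.ins T ∧ b ∈ G.ins T ∧ G.dg O (G.ie T e) = 0 ∧
      (∀ φ η : E → ZMod 3, φ e = η e → G.out Y φ a + chi (G.n a + G.n b) * G.out Y φ b =
        chi (G.n a) * G.out {G.ie T e} η e → G.bd φ (G.ie T e) = 0) ∧
      ∀ S ⊆ T, (∀ f ∈ G.cut S, f ∈ O) → G.ie T e ∉ S := by
  have hm := ie_mem (cut_sub_tch he)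
  obtain ⟨-, h2, h3⟩ := hT.vtx hc hm
  obtain ⟨h4, ab, ae, be⟩ := hq
  have hd : Disjoint Y {G.ie T e} := disjoint_singleton_right.2 ht
  have hu : Y ∪ {G.ie T e} ⊆ T := union_subset hY (singleton_subset_iff.2 hm)
  have ha' : a ∈ G.cut {G.ie T e} := by simp [h4]
  have hb' : b ∈ G.cut {G.ie T e} := by simp [h4]
  have heO : e ∉ O := fun h => ht ((cut_of_sub hY he (hO h)).2 ▸ ie_mem (hO h))
  rw [mem_inter] at ha hb
  refine ⟨ins_mono hu (ie_link hd ha.2 ha').2, ins_mono hu (ie_link hd hb.2 hb').2, ?_,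
    fun φ η h1 h => ?_, fun S hS h h' =>
      heO (h e (cut_of_sub hS he (Cut_tch (mem_cut.1 he).1 ie_at h')).1)⟩
  · have h5 : ∀ f ∈ G.cut {G.ie T e},
        (iv (G.s f = G.ie T e) + iv (G.t f = G.ie T e) : ZMod 2) = 1 := fun f hf => by
      have := (mem_cut.1 hf).2
      simp only [mem_singleton] at this
      by_cases k : G.s f = G.ie T e <;> by_cases k' : G.t f = G.ie T e <;> simp_all [iv]
    rw [Ab_dg (T := {a, b}) fun f hf => ⟨fun h => ?_, fun h => ?_⟩, dg, sum_pair ab, h5 a ha',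
      h5 b hb']
    · rfl
    · have := Cut_tch (Ab_tch_sub (hO h)) hf (mem_singleton_self _)
      rw [h3, h4] at this
      simp only [mem_insert, mem_singleton] at this ⊢
      exact (or_assoc.2 this).resolve_right fun k => heO (k ▸ h)
    · simp only [mem_insert, mem_singleton] at h
      rcases h with rfl | rfl
      exacts [ha.1, hb.1]
  · have h5 : G.out {G.ie T e} φ e = G.out {G.ie T e} η e := by rw [out, out, h1]
    rw [bd_single φ h2, h4, sum_insert (by simp [ab, ae]), sum_pair be, out_link φ hd ha.2 ha',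
      out_link φ hd hb.2 hb', h5]
    rw [chi_add] at h
    linear_combination -chi (G.n a) * h + (chi (G.n b) * G.out Y φ b - G.out {G.ie T e} η e) *
      chi_mul_self (R := ZMod 3) (G.n a)

theorem DF2_main (hc : G.Cub) (hT : G.HT T) {a b c d : E} (h1 : e1 ∈ G.cut T) (h2 : e2 ∈ G.cut T)
    (q1 : G.Q3 {G.ie T e1} a b e1) (q2 : G.Q3 {G.ie T e2} c d e2) {Y : Finset V}
    (hY : Y = (T.erase (G.ie T e1)).erase (G.ie T e2)) {v : V} {g : ZMod 2}
    (h : G.Wk Y a b c d (G.n a + G.n b) (G.n c + G.n d) (g + (G.n a + G.n b) + (G.n c + G.n d))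
      (G.Kv Y v)) : G.Rall T g 1 := by
  obtain ⟨O, hp, ⟨ab, ac, ad, bc, bd, cd⟩, ⟨s1, s2, s3⟩, hF, hq⟩ := h
  have hm : ∀ x, x ∈ Y ↔ x ≠ G.ie T e2 ∧ x ≠ G.ie T e1 ∧ x ∈ T := fun x => by simp [hY]
  have hYT : Y ⊆ T := fun x hx => ((hm x).1 hx).2.2
  obtain ⟨a1, b1, d1, f1, g1⟩ := DF2_term hc hT hYT h1 (by simp [hm]) q1 s1 (by simp [s3])
    (by simp [s3])
  obtain ⟨a2, b2, d2, f2, g2⟩ := DF2_term hc hT hYT h2 (by simp [hm]) q2 s1 (by simp [s3])
    (by simp [s3])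
  have hJ : ∀ e ∈ ({a, b, c, d} : Finset E), e ∈ G.ins T := by simp [a1, b1, a2, b2]
  have hO : O ⊆ G.ins T := fun e he => (mem_tch_iff.1 (s1 he)).elim (fun k => ins_mono hYT k)
    fun k => hJ e (s3 ▸ mem_inter.2 ⟨he, k⟩)
  have hv : ∀ P : V → Prop, (∀ x ∈ Y, P x) → P (G.ie T e1) → P (G.ie T e2) → ∀ x ∈ T, P x :=
    fun P k k1 k2 x hx => by
      by_cases e : x = G.ie T e1
      · exact e ▸ k1
      by_cases e' : x = G.ie T e2
      · exact e' ▸ k2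
      exact k x ((hm x).2 ⟨e', e, hx⟩)
  have hpar : G.par O = g := by
    have e : O = O ∩ G.ins Y ∪ O ∩ G.cut Y := by
      rw [← inter_union_distrib_left, eq_comm, inter_eq_left]
      exact fun e he => mem_union.2 (mem_tch_iff.1 (s1 he))
    rw [e, par_union (disjoint_left.2 fun e k k' =>
      not_ins_of_cut (mem_inter.1 k').2 (mem_inter.1 k).2), hp, s3, par,
      sum_insert (by simp [ab, ac, ad]), sum_insert (by simp [bc, bd]), sum_pair cd]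
    linear_combination z2_add_self (G.n a + G.n b + G.n c + G.n d)
  intro η hη
  have hψ : ∀ e, (if e ∈ G.cut T then η e else 1) ≠ 0 := fun e => by
    split_ifs with k
    exacts [hη e k, one_ne_zero]
  obtain ⟨R, hR, hs⟩ := hq _ fun e _ _ _ => hψ e
  obtain ⟨x, y, u, w, r, k1, k2⟩ := hR (chi (G.n a) * G.out {G.ie T e1} η e1)
    (chi (G.n c) * G.out {G.ie T e2} η e2)
  obtain ⟨φ, ⟨r1, r2, r3, r4⟩, rfl, rfl, rfl, rfl⟩ := hs x y u w r
  have hφ : ∀ e ∈ G.cut T, φ e = η e := fun e he => by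
    refine (r1 e fun k => not_ins_of_cut he ?_).trans (if_pos he)
    rcases mem_union.1 k with k | k
    · exact ins_mono hYT k
    · exact hJ e (by simpa using (mem_inter.1 k).2)
  refine ⟨O, φ, {v}, ⟨⟨hO.trans ins_sub_tch, hv _ s2 d1 d2, eq_empty_of_forall_notMem fun e k =>
    not_ins_of_cut (mem_inter.1 k).2 (hO (mem_inter.1 k).1)⟩, hpar,
    ⟨hv _ r2 (f1 φ η (hφ _ h1) k1) (f2 φ η (hφ _ h2) k2), fun e _ k => ?_, fun _ k => k.elim⟩, hφ⟩,
    by simp, fun S hS hB hd => ?_⟩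
  · by_cases k' : e ∈ G.tch Y
    · exact r3 e k' k
    · rw [r1 e fun j => k' (hF j)]
      exact hψ e
  · have k1 := g1 S hS fun f hf => (hB.2 f hf).1
    have k2 := g2 S hS fun f hf => (hB.2 f hf).1
    obtain ⟨e, he, -, k⟩ := r4 (G.cut S) ⟨S, fun x hx => (hm x).2
      ⟨fun j => k2 (j ▸ hx), fun j => k1 (j ▸ hx), hS hx⟩, hB.1, disjoint_singleton_right.1 hd, rfl⟩
    exact k.elim (fun j => j (hB.2 e he).1) (hB.2 e he).2



/-- Closing the two lines at the deleted terminals.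
HINT: given `η`, use `ψ = η` on `cut T` and one elsewhere.  The even set `O` of the double pass
contains the four ends, it is even at both terminals and lies inside `T`.  At a terminal `t` with
the ends `a, b` and the edge `e` the condition is `out {t} φ a + out {t} φ b + out {t} φ e = 0`
(`bd_single`, `HT.vtx`), and `out {t} φ a = -(chi (n a)) * out F.Y φ a` (`out_link`); choose `k`
accordingly.  A bad side contains no terminal (the edge `e` is off `O`), so it lies in `F.Y`. -/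
theorem top_rall (hc : G.Cub) (hT : G.T3 T) (hF : G.F2 T) (ht : F.Top G T e1 e2) {g : ZMod 2}
    (hw : F.WinN G g) : G.Rall T g 1 := by
  obtain ⟨t, h0, v, -, h⟩ := hw
  obtain rfl : t = F.lam true := h0.resolve_left (by simp [ht.hf])
  have h1 : e1 ∈ G.cut T := by simp [ht.q3.1]
  have h2 : e2 ∈ G.cut T := by simp [ht.q3.1]
  rw [Kf.WkF] at h
  split_ifs at h with k
  · obtain ⟨q1, q2, l1, l2⟩ := ht.one k
    rw [l1, l2] at h
    exact DF2_main hc hT.1 h1 h2 q1 q2 ht.hY h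
  · obtain ⟨q1, q2, l⟩ := ht.two (by simpa using k)
    rw [l, l] at h
    exact DF2_main hc hT.1 h1 h2 q1 q2 ht.hY h

end SG

end Pool.Agent.Work.MP_8c679b_co
end

-- merged part: Pool.Agent.Work.MP_8c679b_co.A3.DF1
section
/-!
Frames and members from rings of the quotient.
-/

set_option autoImplicit false

namespace Pool.Agent.Work.MP_8c679b_co

open Finset

namespace SG

variable {V E : Type} [Fintype V] [DecidableEq V] [DecidableEq E] {G : SG V E}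
  {T : Finset V} {Bs : Finset (Finset V)} {v0 : V} {F : Kf V E} {M : MP_8c679b_co.Mb V E} {e1 e2 : E}
  {xf : Finset V → E → E → ZMod 2 → Finset V}

theorem DF1_dv (hc : G.Cub) (hT : G.T3 T) {e f : E} (he : e ∈ G.cut T) (hf : f ∈ G.cut T)
    (hef : e ≠ f) : G.ie T e ≠ G.ie T f := by
  refine hT.1.f2' hc hT.2.1 ?_ he hf hef
  by_contra h
  have h1 := ie_mem (cut_sub_tch he)
  have h2 : T = {G.ie T e} := (eq_of_subset_of_card_le (singleton_subset_iff.2 h1)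
    (by rw [card_singleton]; omega)).symm
  refine hT.2.2 ⟨fun _ => 0, fun g hg => ?_⟩
  rw [h2, (hT.1.vtx hc h1).2.1] at hg
  exact absurd hg (notMem_empty _)

theorem DF1_end (hc : G.Cub) (hT : G.T3 T) (hF : G.F2 T) {e f x : E} (he : e ∈ G.cut T)
    (hf : f ∈ G.cut T) (hef : e ≠ f) (hx : x ∈ G.cut {G.ie T e}) (hxe : x ≠ e) :
    x ∈ G.ins T ∧ x ∈ G.cut ((T.erase (G.ie T e)).erase (G.ie T f)) ∧
      x ∉ G.cut {G.ie T f} := by
  have h1 := ie_mem (cut_sub_tch he)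
  have h2 := DF1_dv hc hT he hf hef
  have h3 : x ∉ G.cut T := fun k => DF1_dv hc hT k he hxe (by
    rw [← (cut_of_sub (singleton_subset_iff.2 h1) k (cut_sub_tch hx)).2]
    exact mem_singleton.1 (ie_mem (cut_sub_tch hx)))
  have h4 : x ∈ G.ins T :=
    (mem_tch_iff.1 (tch_mono (singleton_subset_iff.2 h1) (cut_sub_tch hx))).resolve_right h3
  have h5 := t3_nadj hc hT hF he hf
  have h6 : ¬ (G.s x = G.ie T e ∧ G.t x = G.ie T f) := fun k => h5 ⟨x, (mem_ins.1 h4).1, Or.inl k⟩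
  have h7 : ¬ (G.s x = G.ie T f ∧ G.t x = G.ie T e) := fun k => h5 ⟨x, (mem_ins.1 h4).1, Or.inr k⟩
  have h8 : ¬ (G.s x = G.ie T e ∧ G.s x = G.ie T f) := fun k => h2 (k.1.symm.trans k.2)
  have h9 : ¬ (G.t x = G.ie T e ∧ G.t x = G.ie T f) := fun k => h2 (k.1.symm.trans k.2)
  refine ⟨h4, ?_⟩
  rw [mem_ins] at h4
  simp only [mem_cut, mem_singleton, mem_erase] at hx ⊢
  (clear * - h4 h6 h7 h8 h9 hx; grind)

theorem DF1_at (hc : G.Cub) (hT : G.T3 T) {e a b x : E} (he : e ∈ G.cut T)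
    (hq : G.Q3 {G.ie T e} a b e) (hx : x ∈ G.ins T) (h : G.At x (G.ie T e)) : x = a ∨ x = b := by
  have h1 : x ∈ G.cut {G.ie T e} :=
    (mem_cut_single (hT.1.noloop hc (ins_sub_tch hx))).2 ⟨(mem_ins.1 hx).1, h⟩
  rw [hq.1, mem_insert, mem_insert, mem_singleton] at h1
  rcases h1 with h1 | h1 | h1
  · exact Or.inl h1
  · exact Or.inr h1
  · exact absurd (h1 ▸ hx) (not_ins_of_cut he)

theorem DF1_four (hc : G.Cub) (hT : G.T3 T) (hF : G.F2 T) {a b c d z : E} {Y : Finset V}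
    {J : Finset E} (h3 : G.Q3 T e1 e2 z) (hY : Y = (T.erase (G.ie T e1)).erase (G.ie T e2))
    (h1 : G.Q3 {G.ie T e1} a b e1) (h2 : G.Q3 {G.ie T e2} c d e2)
    (hJ : ∀ e, e ∈ J ↔ e = a ∨ e = b ∨ e = c ∨ e = d) :
    (a ≠ b ∧ a ≠ c ∧ a ≠ d ∧ b ≠ c ∧ b ≠ d ∧ c ≠ d) ∧ (∀ e ∈ J, e ∈ G.cut Y ∧ e ∈ G.ins T) ∧
      ∀ e ∈ G.ins T, e ∈ G.ins Y ∪ J := by
  have m1 : e1 ∈ G.cut T := by rw [h3.1]; simp
  have m2 : e2 ∈ G.cut T := by rw [h3.1]; simp
  have ma : a ∈ G.cut {G.ie T e1} := by rw [h1.1]; simp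
  have mb : b ∈ G.cut {G.ie T e1} := by rw [h1.1]; simp
  have mc : c ∈ G.cut {G.ie T e2} := by rw [h2.1]; simp
  have md : d ∈ G.cut {G.ie T e2} := by rw [h2.1]; simp
  have ka := DF1_end hc hT hF m1 m2 h3.2.1 ma h1.2.2.1
  have kb := DF1_end hc hT hF m1 m2 h3.2.1 mb h1.2.2.2
  have kc := DF1_end hc hT hF m2 m1 h3.2.1.symm mc h2.2.2.1
  have kd := DF1_end hc hT hF m2 m1 h3.2.1.symm md h2.2.2.2
  rw [erase_right_comm] at kc kd
  rw [← hY] at ka kb kc kd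
  refine ⟨⟨h1.2.1, fun k => ka.2.2 (k ▸ mc), fun k => ka.2.2 (k ▸ md), fun k => kb.2.2 (k ▸ mc),
    fun k => kb.2.2 (k ▸ md), h2.2.1⟩, fun e he => ?_, fun e he => ?_⟩
  · rcases (hJ e).1 he with rfl | rfl | rfl | rfl
    exacts [⟨ka.2.1, ka.1⟩, ⟨kb.2.1, kb.1⟩, ⟨kc.2.1, kc.1⟩, ⟨kd.2.1, kd.1⟩]
  · rw [mem_union, hJ]
    by_cases k1 : G.At e (G.ie T e1)
    · rcases DF1_at hc hT m1 h1 he k1 with k | k
      exacts [Or.inr (Or.inl k), Or.inr (Or.inr (Or.inl k))]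
    by_cases k2 : G.At e (G.ie T e2)
    · rcases DF1_at hc hT m2 h2 he k2 with k | k
      exacts [Or.inr (Or.inr (Or.inr (Or.inl k))), Or.inr (Or.inr (Or.inr (Or.inr k)))]
    left
    rw [At, not_or] at k1 k2
    rw [mem_ins] at he
    rw [hY, mem_ins]
    simp only [mem_erase]
    exact ⟨he.1, ⟨k2.1, k1.1, he.2.1⟩, k2.2, k1.2, he.2.2⟩

/-- HINT: `t3_nadj` shows that the four ends leave `F.Y`; `cut F.Y` consists of them and `F.z`.
A side that contains the third terminal has `F.z` in its cut; the other sides have their cut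
inside `T`, use `h.cov`. -/
theorem top_ok (hc : G.Cub) (hT : G.T3 T) (hF : G.F2 T) (h : G.Sy T F.Bs F.v0)
    (ht : F.Top G T e1 e2) (hx : G.PkA T F.xf) : F.Ok G T := by
  have h3 := ht.q3
  have m1 : e1 ∈ G.cut T := by rw [h3.1]; simp
  have m2 : e2 ∈ G.cut T := by rw [h3.1]; simp
  have hYT : F.Y ⊆ T := by
    rw [ht.hY]
    exact (erase_subset _ _).trans (erase_subset _ _)
  have hmY : ∀ v ∈ T, v ≠ G.ie T e1 → v ≠ G.ie T e2 → v ∈ F.Y := fun v hv k1 k2 => by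
    rw [ht.hY]
    exact mem_erase.2 ⟨k2, mem_erase.2 ⟨k1, hv⟩⟩
  have key : ((∀ i j, F.p i ≠ F.q j) ∧ F.p false ≠ F.p true ∧ F.q false ≠ F.q true) ∧
      (∀ e ∈ F.J, e ∈ G.cut F.Y ∧ e ∈ G.ins T) ∧ ∀ e ∈ G.ins T, e ∈ G.ins F.Y ∪ F.J := by
    cases hty : F.ty
    · obtain ⟨q1, q2, -⟩ := ht.two hty
      obtain ⟨⟨n1, n2, n3, n4, n5, n6⟩, k⟩ := DF1_four (J := F.J) hc hT hF h3 ht.hY q1 q2
        (fun e => by simp only [Kf.J, mem_insert, mem_singleton])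
      refine ⟨⟨fun i j => ?_, n2, n5⟩, k⟩
      cases i <;> cases j
      exacts [n1, n3, n4.symm, n6]
    · obtain ⟨q1, q2, -⟩ := ht.one hty
      obtain ⟨⟨n1, n2, n3, n4, n5, n6⟩, k⟩ := DF1_four (J := F.J) hc hT hF h3 ht.hY q1 q2
        (fun e => by
          simp only [Kf.J, mem_insert, mem_singleton]
          tauto)
      refine ⟨⟨fun i j => ?_, n1, n6⟩, k⟩
      cases i <;> cases j
      exacts [n2, n3, n4, n5]
  obtain ⟨⟨n1, n2, n3⟩, k1, k2⟩ := key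
  refine ⟨hc, hT.1, hYT, ⟨h.pd, fun B hB => ⟨fun v hv => hmY v ((h.bx B hB).1 hv)
      (fun k => (h.nd_term m1).1 B hB (k ▸ hv)) (fun k => (h.nd_term m2).1 B hB (k ▸ hv)), ?_⟩,
      fun i => (k1 _ ?_).1, fun i => (k1 _ ?_).1, n1, n2, n3⟩, fun e he => ?_,
    fun B hB => ⟨(h.bx B hB).2.1, fun e he => k2 e ((h.bx B hB).2.2 he)⟩,
    hmY _ h.v0T (fun k => h.v0x ⟨h.v0T, e1, m1, k ▸ ie_at⟩)
      (fun k => h.v0x ⟨h.v0T, e2, m2, k ▸ ie_at⟩), fun S hS hu => ?_, h.m3,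
    fun N hN => hx N (h.bx N hN).1 (h.bx N hN).2.1, fun k => absurd (ht.hf.symm.trans k) (by simp)⟩
  · exact card_pos.1 (lt_of_lt_of_le (by norm_num)
      (hT.1.us_card hc (h.bx B hB).1 (h.bx B hB).2.1))
  · cases i <;> simp [Kf.J]
  · cases i <;> simp [Kf.J]
  · rcases mem_tch_iff.1 (tch_mono hYT (cut_sub_tch he)) with k | k
    · exact Or.inl ((mem_union.1 (k2 e k)).resolve_left (not_ins_of_cut he))
    · have k3 := (cut_of_sub hYT k (cut_sub_tch he)).2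
      have k4 : G.ie T e ∈ F.Y := k3 ▸ ie_mem (cut_sub_tch he)
      rw [ht.hY, mem_erase, mem_erase] at k4
      rw [h3.1, mem_insert, mem_insert, mem_singleton] at k
      rcases k with rfl | rfl | k
      · exact absurd rfl k4.2.1
      · exact absurd rfl k4.1
      · exact Or.inr k
  · by_cases k : G.cut S ⊆ G.ins T
    · rcases h.cov S ⟨hS.trans hYT, hu, k⟩ with k3 | k3
      exacts [Or.inl k3, Or.inr (Or.inl k3)]
    · obtain ⟨e, he, he'⟩ := not_subset.1 k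
      have k3 : e ∈ G.tch F.Y := tch_mono hS (cut_sub_tch he)
      have k4 : e ∈ G.cut T := (mem_tch_iff.1 (tch_mono hYT k3)).resolve_left he'
      exact Or.inr (Or.inr ⟨e, he, (cut_of_sub hYT k4 k3).1, fun k5 => he' (k1 e k5).2⟩)

end SG

end Pool.Agent.Work.MP_8c679b_co
end

-- merged part: Pool.Agent.Work.MP_8c679b_co.A3.DF3
section
/-!
Frames and members from rings of the quotient.
-/

set_option autoImplicit false

namespace Pool.Agent.Work.MP_8c679b_co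

open Finset

namespace SG

variable {V E : Type} [Fintype V] [DecidableEq V] [DecidableEq E] {G : SG V E}
  {T : Finset V} {Bs : Finset (Finset V)} {v0 : V} {F : Kf V E} {M : MP_8c679b_co.Mb V E} {e1 e2 : E}
  {xf : Finset V → E → E → ZMod 2 → Finset V}

/-- a path of the quotient of `T` that avoids two terminals is a path of the quotient of the
frame -/
theorem top_pth (hc : G.Cub) (hT : G.T3 T) (h : G.Sy T Bs v0) (h1 : e1 ∈ G.cut T)
    (h2 : e2 ∈ G.cut T) {n : ℕ} {w : ℕ → Finset V} {g : ℕ → E}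
    (hp : (G.quo T Bs).Pth (G.quo T Bs).A n w g)
    (hw : ∀ i ≤ n, w i ≠ {G.ie T e1} ∧ w i ≠ {G.ie T e2}) :
    (G.quo ((T.erase (G.ie T e1)).erase (G.ie T e2)) Bs).Pth
      (G.quo ((T.erase (G.ie T e1)).erase (G.ie T e2)) Bs).A n w g := by
  refine ⟨hp.inj, fun i hi => ?_, hp.jn⟩
  obtain ⟨k1, k2⟩ := mem_quo.1 (hp.mem i hi)
  obtain ⟨kA, ks, kt⟩ := mem_ins.1 k1
  have key : ∀ x ∈ T, (nd Bs x = w i ∨ nd Bs x = w (i + 1)) →
      x ∈ (T.erase (G.ie T e1)).erase (G.ie T e2) := by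
    intro x hx hn
    have a1 := hw i hi.le
    have a2 := hw (i + 1) hi
    refine mem_erase.2 ⟨?_, mem_erase.2 ⟨?_, hx⟩⟩
    · rintro rfl
      rw [(h.nd_term h2).2] at hn
      exact hn.elim (fun k => a1.2 k.symm) fun k => a2.2 k.symm
    · rintro rfl
      rw [(h.nd_term h1).2] at hn
      exact hn.elim (fun k => a1.1 k.symm) fun k => a2.1 k.symm
  refine mem_quo.2 ⟨mem_ins.2 ⟨kA, key _ ks ?_, key _ kt ?_⟩, k2⟩
  · exact (hp.jn i hi).imp And.left And.left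
  · exact ((hp.jn i hi).imp And.right And.right).symm

omit [Fintype V] [DecidableEq E] in
theorem DF3_ie {p : E} {u x : V} {Y : Finset V} (hj : G.Je p u x) (hu : u ∉ Y) (hx : x ∈ Y) :
    G.ie Y p = x := by
  unfold ie
  rcases hj with ⟨rfl, rfl⟩ | ⟨rfl, rfl⟩
  · rw [if_neg hu]
  · rw [if_pos hx]

omit [Fintype V] in
theorem DF3_es {p q : E} {n : ℕ} {g : ℕ → E} :
    pv (n + 1) (es p q n g) = insert p (insert q (pe n g)) := by
  ext x
  simp only [mem_insert, mem_pv, mem_pe]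
  constructor
  · rintro ⟨i, hi, rfl⟩
    rcases i with _ | i
    · exact Or.inl rfl
    · rcases (Nat.le_of_succ_le_succ hi).lt_or_eq with k | rfl
      · exact Or.inr (Or.inr ⟨i, k, (Quo_es_succ k).symm⟩)
      · exact Or.inr (Or.inl Quo_es_last)
  · rintro (rfl | rfl | ⟨i, hi, rfl⟩)
    · exact ⟨0, Nat.zero_le _, rfl⟩
    · exact ⟨n + 1, le_rfl, Quo_es_last⟩
    · exact ⟨i + 1, by omega, Quo_es_succ hi⟩

/-- opening a ring of the quotient at a terminal -/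
theorem DF3_ring (hc : G.Cub) (hT : G.T3 T) (h : G.Sy T Bs v0) (h1 : e1 ∈ G.cut T)
    {X : Finset (Finset V)} {R : Finset E} (hX : (G.quo T Bs).Cw X R) (m1 : {G.ie T e1} ∈ X) :
    ∃ p q n w g x y, G.Q3 {G.ie T e1} p q e1 ∧ (G.quo T Bs).Pth (G.quo T Bs).A n w g ∧
      X = insert {G.ie T e1} (pv n w) ∧ {G.ie T e1} ∉ pv n w ∧ pv (n + 1) (es p q n g) = R ∧
      x ∈ T ∧ y ∈ T ∧ G.Je p (G.ie T e1) x ∧ G.Je q (G.ie T e1) y ∧ w 0 = nd Bs x ∧
      w n = nd Bs y := by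
  have : Nonempty E := ⟨e1⟩
  obtain ⟨p, q, a, b, Y, F', hpq, jp, jq, ⟨n, w, g, hp, w0, wn, rfl, rfl⟩, hv, hXe, hR, -⟩ :=
    hX.del m1
  have ap : p ∈ (G.quo T Bs).A := hX.sub (hR ▸ mem_insert_self _ _)
  have aq : q ∈ (G.quo T Bs).A := hX.sub (hR ▸ mem_insert_of_mem (mem_insert_self _ _))
  obtain ⟨p1, -, -, p2, -, p3, p4⟩ := quo_je_inv h.pd ap jp
  obtain ⟨q1, -, -, q2, -, q3, q4⟩ := quo_je_inv h.pd aq jq
  rw [mem_singleton.1 (ie_mem (cut_sub_tch p1))] at p4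
  rw [mem_singleton.1 (ie_mem (cut_sub_tch q1))] at q4
  obtain ⟨z, hz⟩ := hT.1.third hc (ie_mem (cut_sub_tch h1)) p1 q1 hpq
  have k := (mem_inter.1 (Cut_ie h1 rfl)).1
  rw [hz.1, mem_insert, mem_insert, mem_singleton] at k
  obtain rfl : e1 = z := by
    rcases k with k | k | k
    exacts [absurd (k ▸ (mem_quo.1 ap).1) (not_ins_of_cut h1),
      absurd (k ▸ (mem_quo.1 aq).1) (not_ins_of_cut h1), k]
  exact ⟨p, q, n, w, g, _, _, hz, hp, hXe, hv, DF3_es.trans hR.symm, p2, q2, p4, q4,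
    w0.trans p3.symm, wn.trans q3.symm⟩

/-- Two disjoint rings, each through a terminal.  HINT: `Cw.del` for both rings, `top_pth`. -/
theorem top_two (hc : G.Cub) (hT : G.T3 T) (hF : G.F2 T) (h : G.Sy T Bs v0) (hx : G.PkA T xf)
    (h1 : e1 ∈ G.cut T) (h2 : e2 ∈ G.cut T) {X X' : Finset (Finset V)} {R R' : Finset E}
    (hX : (G.quo T Bs).Cw X R) (hX' : (G.quo T Bs).Cw X' R') (hd : Disjoint X X')
    (m1 : {G.ie T e1} ∈ X) (m2 : {G.ie T e2} ∈ X') :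
    ∃ (F : Kf V E) (M : MP_8c679b_co.Mb V E) (Xs : Bool → Finset (Finset V)),
      F.Top G T e1 e2 ∧ F.ty = false ∧ F.Bs = Bs ∧ F.v0 = v0 ∧ F.xf = xf ∧ F.Ok G T ∧ F.IsM G M ∧
      (F.On M Xs fun i => if i then R' else R) ∧ X = insert {G.ie T e1} (Xs false) ∧
      X' = insert {G.ie T e2} (Xs true) := by
  obtain ⟨p, q, n, w, g, x, y, q3, hp, e1X, n1, r1, xT, yT, jp, jq, w0, wn⟩ :=
    DF3_ring hc hT h h1 hX m1
  obtain ⟨p', q', n', w', g', x', y', q3', hp', e2X, n2, r2, xT', yT', jp', jq', w0', wn'⟩ :=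
    DF3_ring hc hT h h2 hX' m2
  have s1 : ∀ i ≤ n, w i ∈ X := fun i hi => e1X ▸ mem_insert_of_mem (mem_pv.2 ⟨i, hi, rfl⟩)
  have s2 : ∀ i ≤ n', w' i ∈ X' := fun i hi => e2X ▸ mem_insert_of_mem (mem_pv.2 ⟨i, hi, rfl⟩)
  have t1 : ∀ i ≤ n, w i ≠ {G.ie T e1} ∧ w i ≠ {G.ie T e2} := fun i hi =>
    ⟨fun k => n1 (mem_pv.2 ⟨i, hi, k⟩), fun k => disjoint_left.1 hd (s1 i hi) (k ▸ m2)⟩
  have t2 : ∀ i ≤ n', w' i ≠ {G.ie T e1} ∧ w' i ≠ {G.ie T e2} := fun i hi =>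
    ⟨fun k => disjoint_right.1 hd (s2 i hi) (k ▸ m1), fun k => n2 (mem_pv.2 ⟨i, hi, k⟩)⟩
  have inY : ∀ u ∈ T, (nd Bs u ≠ {G.ie T e1} ∧ nd Bs u ≠ {G.ie T e2}) →
      u ∈ (T.erase (G.ie T e1)).erase (G.ie T e2) := fun u hu k =>
    mem_erase.2 ⟨fun k' => k.2 (k' ▸ (h.nd_term h2).2),
      mem_erase.2 ⟨fun k' => k.1 (k' ▸ (h.nd_term h1).2), hu⟩⟩
  have o1 : G.ie T e1 ∉ (T.erase (G.ie T e1)).erase (G.ie T e2) := by simp
  have o2 : G.ie T e2 ∉ (T.erase (G.ie T e1)).erase (G.ie T e2) := by simp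
  have ne : e1 ≠ e2 := by
    rintro rfl
    exact disjoint_left.1 hd m1 m2
  obtain ⟨Z, z1, z2, z3, z4⟩ := Cut_rest (k := 1) hT.2.1 h1 h2 ne
  obtain ⟨z, rfl⟩ := card_eq_one.1 z1
  let F : Kf V E := ⟨(T.erase (G.ie T e1)).erase (G.ie T e2), Bs, fun i => if i then p' else p,
    fun i => if i then q' else q, z, v0, false, false,
    fun i => G.n (if i then p' else p) + G.n (if i then q' else q), xf⟩
  let M : MP_8c679b_co.Mb V E := ⟨fun i => if i then n' else n, fun i => if i then w' else w,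
    fun i => if i then g' else g⟩
  have ht : F.Top G T e1 e2 := ⟨⟨z2, ne, notMem_singleton.1 z3, notMem_singleton.1 z4⟩, rfl, rfl,
    fun k => absurd k Bool.false_ne_true, fun _ => ⟨q3, q3', fun _ => rfl⟩⟩
  refine ⟨F, M, fun i => if i then pv n' w' else pv n w, ht, rfl, rfl, rfl, rfl,
    top_ok hc hT hF h ht hx, ⟨?_, ?_, ?_, ?_⟩, ?_, e1X, e2X⟩
  · rintro (_ | _)
    exacts [top_pth hc hT h h1 h2 hp t1, top_pth hc hT h h1 h2 hp' t2]
  · rintro (_ | _)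
    · exact w0.trans (congrArg (nd Bs) (DF3_ie jp o1 (inY x xT (w0 ▸ t1 0 (Nat.zero_le _)))).symm)
    · exact w0'.trans
        (congrArg (nd Bs) (DF3_ie jp' o2 (inY x' xT' (w0' ▸ t2 0 (Nat.zero_le _)))).symm)
  · rintro (_ | _)
    · exact wn.trans (congrArg (nd Bs) (DF3_ie jq o1 (inY y yT (wn ▸ t1 n le_rfl))).symm)
    · exact wn'.trans (congrArg (nd Bs) (DF3_ie jq' o2 (inY y' yT' (wn' ▸ t2 n' le_rfl))).symm)
  · intro k hk l hl e
    have e' : w k = w' l := e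
    exact disjoint_left.1 hd (s1 k hk) (e' ▸ s2 l hl)
  · rintro (_ | _)
    exacts [⟨rfl, r1⟩, ⟨rfl, r2⟩]

end SG

end Pool.Agent.Work.MP_8c679b_co
end

-- merged part: Pool.Agent.Work.MP_8c679b_co.A3.DF4
section
/-!
Frames and members from rings of the quotient.
-/

set_option autoImplicit false

namespace Pool.Agent.Work.MP_8c679b_co

open Finset

namespace SG

variable {V E : Type} [Fintype V] [DecidableEq V] [DecidableEq E] {G : SG V E}
  {T : Finset V} {Bs : Finset (Finset V)} {v0 : V} {F : Kf V E} {M : MP_8c679b_co.Mb V E} {e1 e2 : E}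
  {xf : Finset V → E → E → ZMod 2 → Finset V}

omit [Fintype V] in
/-- a path between two vertices that are not adjacent, without its two ends -/
theorem DF4_arc {a b : V} {X : Finset V} {R : Finset E} (h : G.Pw a b X R) (hab : a ≠ b)
    (hn : ∀ e ∈ G.A, ¬ G.Je e a b) :
    ∃ p q n w g, G.Pth G.A n w g ∧ p ∈ G.A ∧ q ∈ G.A ∧ G.Je p a (w 0) ∧ G.Je q b (w n) ∧
      (∀ i ≤ n, w i ≠ a ∧ w i ≠ b) ∧ X = insert a (insert b (pv n w)) ∧
      R = pv (n + 1) (es p q n g) ∧ p ∈ R ∧ q ∈ R := by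
  obtain ⟨m, v, k, hp, rfl, rfl, rfl, rfl⟩ := h
  obtain _ | _ | n := m
  · exact absurd rfl hab
  · exact absurd (hp.jn 0 (by omega)) (hn _ (hp.mem 0 (by omega)))
  refine ⟨k 0, k (n + 1), n, fun i => v (i + 1), fun i => k (i + 1),
    ⟨fun i hi j hj e => ?_, fun i hi => hp.mem _ (by omega), fun i hi => hp.jn _ (by omega)⟩,
    hp.mem _ (by omega), hp.mem _ (by omega), hp.jn 0 (by omega), ?_,
    fun i hi => ⟨fun e => ?_, fun e => ?_⟩, ?_, ?_,
    mem_pe.2 ⟨0, by omega, rfl⟩, mem_pe.2 ⟨n + 1, by omega, rfl⟩⟩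
  · have := hp.inj _ (by omega) _ (by omega) e
    omega
  · exact (hp.jn (n + 1) (by omega)).elim Or.inr Or.inl
  · have := hp.inj _ (by omega) _ (by omega) e
    omega
  · have := hp.inj _ (by omega) _ (by omega) e
    omega
  · ext x
    simp only [mem_insert, mem_pv]
    constructor
    · rintro ⟨i, hi, rfl⟩
      obtain _ | i := i
      · exact Or.inl rfl
      by_cases e : i = n + 1
      · exact Or.inr (Or.inl (by rw [e]))
      · exact Or.inr (Or.inr ⟨i, by omega, rfl⟩)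
    · rintro (rfl | rfl | ⟨i, hi, rfl⟩)
      exacts [⟨0, by omega, rfl⟩, ⟨_, le_rfl, rfl⟩, ⟨i + 1, by omega, rfl⟩]
  · refine image_congr fun i hi => ?_
    have hi' : i < n + 1 + 1 := mem_range.1 hi
    unfold es
    split_ifs with c1 c2
    · rw [c1]
    · exact congrArg k (by omega)
    · rw [show i = n + 1 by omega]

theorem DF4_ie {t : V} {e : E} (he : e ∈ G.cut {t}) : G.ie {t} e = t :=
  mem_singleton.1 (ie_mem (cut_sub_tch he))

/-- an edge of the quotient from the node of a terminal `t` into the frame -/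
theorem DF4_end {t t1 t2 : V} {N : Finset V} {p : E} (hpd : PD Bs) (ht : t = t1 ∨ t = t2)
    (n1 : nd Bs t1 = {t1}) (n2 : nd Bs t2 = {t2}) (hp : p ∈ (G.quo T Bs).A)
    (hj : (G.quo T Bs).Je p {t} N) (hN : N ≠ {t1} ∧ N ≠ {t2}) :
    p ∈ G.cut {t} ∧ p ∉ G.cut T ∧ N = nd Bs (G.ie ((T.erase t1).erase t2) p) := by
  obtain ⟨c1, -, -, c4, -, c6, c7⟩ := quo_je_inv hpd hp hj
  rw [DF4_ie c1] at c7
  refine ⟨c1, fun k => not_ins_of_cut k (mem_quo.1 hp).1, ?_⟩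
  have hu : G.ie N p ∈ (T.erase t1).erase t2 :=
    mem_erase.2 ⟨fun k => hN.2 (by rw [← c6, k, n2]),
      mem_erase.2 ⟨fun k => hN.1 (by rw [← c6, k, n1]), c4⟩⟩
  have hY : t ∉ (T.erase t1).erase t2 := by
    rcases ht with rfl | rfl <;> simp
  have hc : p ∈ G.cut ((T.erase t1).erase t2) := by
    refine mem_cut.2 ⟨(mem_cut.1 c1).1, ?_⟩
    rcases c7 with ⟨k1, k2⟩ | ⟨k1, k2⟩ <;> rw [k1, k2] <;> tauto
  rw [← eq_ie hc hu ie_at, c6]

/-- the three edges at a terminal -/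
theorem DF4_q3 (hc : G.Cub) (hT : G.HT T) {e a b : E} (he : e ∈ G.cut T)
    (ha : a ∈ G.cut {G.ie T e}) (hb : b ∈ G.cut {G.ie T e}) (hab : a ≠ b) (ha' : a ∉ G.cut T)
    (hb' : b ∉ G.cut T) : G.Q3 {G.ie T e} a b e := by
  obtain ⟨g, hg⟩ := hT.third hc (ie_mem (cut_sub_tch he)) ha hb hab
  have k : e ∈ G.cut {G.ie T e} := (mem_inter.1 (Cut_ie he rfl)).1
  rw [hg.1] at k
  simp only [mem_insert, mem_singleton] at k
  rcases k with rfl | rfl | rfl
  · exact absurd he ha'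
  · exact absurd he hb'
  · exact hg

/-- One ring through two terminals.
HINT: `Cw.arcs` for the two terminals, `Pw.head` at both ends of each arc (the terminals are not
adjacent), unfold `Pw`, `top_pth`.  An edge of the quotient at the node `{t}` is an edge of `G` at
`t` (`quo_je_inv`); the third edge at `t` is `e1`.  `top_ok`. -/
theorem top_one (hc : G.Cub) (hT : G.T3 T) (hF : G.F2 T) (h : G.Sy T Bs v0) (hx : G.PkA T xf)
    (h1 : e1 ∈ G.cut T) (h2 : e2 ∈ G.cut T) (hne : e1 ≠ e2) {X : Finset (Finset V)} {R : Finset E}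
    (hX : (G.quo T Bs).Cw X R) (m1 : {G.ie T e1} ∈ X) (m2 : {G.ie T e2} ∈ X) :
    ∃ (F : Kf V E) (M : MP_8c679b_co.Mb V E) (Xs : Bool → Finset (Finset V)) (Rs : Bool → Finset E),
      F.Top G T e1 e2 ∧ F.ty = true ∧ F.Bs = Bs ∧ F.v0 = v0 ∧ F.xf = xf ∧ F.Ok G T ∧ F.IsM G M ∧
      F.On M Xs Rs ∧ X = insert {G.ie T e1} (insert {G.ie T e2} (Xs false ∪ Xs true)) ∧
      R = Rs false ∪ Rs true ∧ Disjoint (Rs false) (Rs true) := by
  have : Nonempty E := ⟨e1⟩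
  have hcard : 1 < T.card := by
    by_contra k
    have hv := ie_mem (cut_sub_tch h1)
    have hT1 : T = {G.ie T e1} :=
      (eq_of_subset_of_card_le (singleton_subset_iff.2 hv) (by rw [card_singleton]; omega)).symm
    refine hT.2.2 ?_
    rw [hT1, (hT.1.vtx hc hv).2.1]
    exact ⟨fun _ => 0, fun _ k => absurd k (notMem_empty _)⟩
  have t12 : G.ie T e1 ≠ G.ie T e2 := hT.1.f2' hc hT.2.1 hcard h1 h2 hne
  have hab : ({G.ie T e1} : Finset V) ≠ {G.ie T e2} := fun k => t12 (singleton_injective k)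
  have hn : ∀ e ∈ (G.quo T Bs).A, ¬ (G.quo T Bs).Je e {G.ie T e1} {G.ie T e2} := fun e he hj => by
    obtain ⟨c1, c2, -, -, -, -, c7⟩ := quo_je_inv h.pd he hj
    rw [DF4_ie c1, DF4_ie c2] at c7
    exact t3_nadj hc hT hF h1 h2 ⟨e, (mem_cut.1 c1).1, c7⟩
  obtain ⟨X1, F1, X2, F2, p1, p2, rfl, rfl, hi, hd⟩ := hX.arcs_0 m1 m2 hab
  have key : ∀ i : Bool, (G.quo T Bs).Pw {G.ie T e1} {G.ie T e2} (cond i X2 X1) (cond i F2 F1) := by
    intro i
    cases i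
    exacts [p1, p2]
  choose p q n w g hp pA qA pJ qJ hw hXs hRs pR qR using fun i => DF4_arc (key i) hab hn
  obtain ⟨Z, hZ, hcut, z1, z2⟩ := Cut_rest (k := 1) hT.2.1 h1 h2 hne
  obtain ⟨z, rfl⟩ := card_eq_one.1 hZ
  have n1 := (h.nd_term h1).2
  have n2 := (h.nd_term h2).2
  have ep := fun i => DF4_end h.pd (Or.inl rfl) n1 n2 (pA i) (pJ i) (hw i 0 (Nat.zero_le _))
  have eq := fun i => DF4_end h.pd (Or.inr rfl) n1 n2 (qA i) (qJ i) (hw i _ le_rfl)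
  have hd' : ∀ x, x ∈ cond false F2 F1 → x ∈ cond true F2 F1 → False := fun _ k =>
    disjoint_left.1 hd k
  have pp : p false ≠ p true := fun k => hd' _ (pR false) (k ▸ pR true)
  have qq : q false ≠ q true := fun k => hd' _ (qR false) (k ▸ qR true)
  let F : Kf V E := ⟨(T.erase (G.ie T e1)).erase (G.ie T e2), Bs, p, q, z, v0, true, false,
    fun i => cond i (G.n (q false) + G.n (q true)) (G.n (p false) + G.n (p true)), xf⟩
  let M : MP_8c679b_co.Mb V E := ⟨n, w, g⟩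
  have ht : F.Top G T e1 e2 :=
    ⟨⟨hcut, hne, fun k => z1 (mem_singleton.2 k), fun k => z2 (mem_singleton.2 k)⟩, rfl, rfl,
      fun _ => ⟨DF4_q3 hc hT.1 h1 (ep _).1 (ep _).1 pp (ep _).2.1 (ep _).2.1,
        DF4_q3 hc hT.1 h2 (eq _).1 (eq _).1 qq (eq _).2.1 (eq _).2.1, rfl, rfl⟩,
      fun k => absurd k (by simp [F])⟩
  have hmem : ∀ i k, k ≤ n i → w i k ∈ cond i X2 X1 := fun i k hk => by
    rw [hXs i]
    exact mem_insert_of_mem (mem_insert_of_mem (mem_pv.2 ⟨k, hk, rfl⟩))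
  refine ⟨F, M, fun i => pv (n i) (w i), fun i => pv (n i + 1) (es (p i) (q i) (n i) (g i)), ht,
    rfl, rfl, rfl, rfl, top_ok hc hT hF h ht hx,
    ⟨fun i => top_pth hc hT h h1 h2 (hp i) (hw i), fun i => (ep i).2.2, fun i => (eq i).2.2,
      fun k hk l hl e => ?_⟩, fun i => ⟨rfl, rfl⟩, ?_, ?_, ?_⟩
  · have e' : w false k = w true l := e
    rcases hi _ (hmem false k hk) (e' ▸ hmem true l hl) with c | c
    exacts [(hw false k hk).1 c, (hw false k hk).2 c]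
  · have a1 : X1 = _ := hXs false
    have a2 : X2 = _ := hXs true
    rw [a1, a2]
    ext x
    simp only [mem_insert, mem_union]
    (clear * -; tauto)
  · have a1 : F1 = _ := hRs false
    have a2 : F2 = _ := hRs true
    rw [a1, a2]
  · have a1 : F1 = _ := hRs false
    have a2 : F2 = _ := hRs true
    rwa [a1, a2] at hd

end SG

end Pool.Agent.Work.MP_8c679b_co
end
end
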