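import Pool.Agent.Work.MP_8c679b_co.A3.G3

-- merged part: Pool.Agent.Work.MP_8c679b_co.A3.GB
section
-- merged part: Pool.Agent.Work.MP_8c679b_co.A3.GL
section
/-!
Rings through two separating terminals, paths from a box to a ring.
-/

set_option autoImplicit false
set_option linter.unusedSectionVars false

namespace Pool.Agent.Work.MP_8c679b_co

open Finset

namespace SG

variable {V E : Type} [Fintype V] [DecidableEq V] [DecidableEq E] [Nonempty E] {G : SG V E}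
  {U Nb Tm X Y Z M L D D' H P Q W X1 X2 A1 A2 A3 A4 S : Finset V}
  {F F' F1 F2 E1 E2 E3 E4 R : Finset E} {a b c v w x y z s t u B B1 B2 : V} {e f g : E}
  {P' Q' : Finset V} {f' g' : E}

variable (G) in
/-- a triple whose ring has only free boxes -/
def Gz (Nb Tm : Finset V) (s : V) (H : Finset V) (R : Finset E) (D : Finset V) : Prop :=
  G.Tz Nb Tm s H R D ∧ G.Goo Tm ((H ∪ D) \ (H ∩ Nb))

variable (G) in
/-- `z` has a neighbour in `W` -/
def Nx (W : Finset V) (z : V) : Prop := ∃ e ∈ G.A, ∃ v ∈ W, G.Je e v z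

theorem Mo.symm (h : G.Mo Tm e f) : G.Mo Tm f e := by
  obtain ⟨X, F, h1, h2, h3, h4⟩ := h
  exact ⟨X, F, h1, h2, h4, h3⟩

theorem Mb.symm (h : G.Mb Nb Tm B e f) : G.Mb Nb Tm B f e := fun ε => by
  obtain ⟨X, F, ⟨h1, h2, h3, h4⟩, h5⟩ := h ε
  exact ⟨X, F, ⟨h1, h2, h4, h3⟩, h5⟩

theorem tz_of (hd : G.Hdd Nb Tm) (hz : G.Tz Nb Tm s H R D) : G.Ofr Nb (H ∪ D) := by
  intro D' h1 h2
  rw [disjoint_union_right] at h2
  exact hd H ⟨R, hz.cw, hz.va⟩ s hz.tm hz.sh D D' hz.ob h1 h2.2.symm hz.dj h2.1.symm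

theorem tz_nb (hd : G.Hdd Nb Tm) (hz : G.Tz Nb Tm s H R D) (hB : B ∈ Nb) : B ∈ H ∨ D = {B} := by
  have h := tz_of hd hz _ (ob_box hB)
  rw [disjoint_singleton_left, not_not, mem_union] at h
  refine h.imp_right fun k => ?_
  rcases hz.ob with ⟨b, -, rfl⟩ | ⟨F, -, -, k1⟩
  · rw [mem_singleton.1 k]
  · exact absurd hB (disjoint_left.1 k1 k)

/-- as `Sx.conn`, and a nonempty part contains the end of `g` -/
theorem Sx.conn' (h : G.Sx U v M L P Q f g) (hv : v ∉ M) :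
    ∃ Q' ⊆ Q, G.Sx U v M L P Q' f g ∧ (∀ a ∈ Q', ∀ b ∈ Q', ∃ X F, G.Pw a b X F ∧ X ⊆ Q') ∧
      ∀ a ∈ Q', ∃ w ∈ Q', G.Je g v w := by
  obtain ⟨w, h1, h2 | h2⟩ := h.eQ
  · obtain ⟨r1, r2, r3⟩ := h.pw_rc h2
    exact ⟨_, r2, ⟨h.cu, h.ne, h.pu, r2.trans h.qu, h.dP, h.dQ.mono_left r2, h.dPQ.mono_right r2,
      h.cP, r3, h.eP, w, h1, Or.inl r1⟩, fun a ha b hb => rc_pw ha hb, fun _ _ => ⟨w, r1, h1⟩⟩
  · exact ⟨∅, empty_subset _, ⟨h.cu, h.ne, h.pu, empty_subset _, h.dP, disjoint_empty_left _,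
      disjoint_empty_right _, h.cP, fun _ _ x _ _ k => absurd k (notMem_empty x), h.eP, w, h1,
      Or.inr h2⟩, fun a k => absurd k (notMem_empty a), fun a k => absurd k (notMem_empty a)⟩

theorem Sx.nil (h : G.Sx U v M L P Q f g) (hz : z ∈ M) (hj : G.Je g v z) :
    G.Sx U v M L P ∅ f g := by
  exact ⟨h.cu, h.ne, h.pu, empty_subset _, h.dP, disjoint_empty_left _, disjoint_empty_right _,
    h.cP, fun _ _ x _ _ k => absurd k (notMem_empty x), h.eP, z, hj, Or.inr hz⟩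

/-- HINT: as `Sx.pw`; if all exits of the reached set go to `B` use `QG.nov`. -/
theorem Sx.pw_ne (hq : G.QG U Nb Tm) (h : G.Sx U v M L P Q f g) (hM : v ∉ M) (hB : B ∈ Nb)
    (hBM : B ∈ M) (hT : Disjoint Q Tm) : G.Je g v B ∨
      ∃ z ∈ M, z ≠ B ∧ ∃ X F, G.Pw v z X F ∧ g ∈ F ∧ ∀ w ∈ X, w = v ∨ w ∈ Q ∨ w = z := by
  obtain ⟨w, h1, h2⟩ := h.eQ
  have gA : g ∈ G.A :=
    (hq.cut1.1 (h.cu ▸ mem_insert_of_mem (mem_singleton_self g) : g ∈ G.cut {v})).1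
  rcases h2 with h2 | h2
  · obtain ⟨r1, r2, r3⟩ := h.pw_rc h2
    have vQ : v ∉ Q := fun k => disjoint_left.1 h.dQ k (mem_insert_self _ _)
    have dM : ∀ y ∈ M, y ∉ Q := fun y k q =>
      disjoint_left.1 h.dQ q (mem_insert_of_mem (mem_union_left _ k))
    have nc : ¬ G.Clo (G.rc (insert v M) {w}) {B} {g} := fun k => notMem_empty w
      (hq.nov (r2.trans h.qu) (hT.mono_left r2) hB (fun q => dM B hBM (r2 q)) k ▸ r1)
    simp only [Clo, not_forall, not_or] at nc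
    obtain ⟨e, he, x, y, hj, hx, hy, yB, k⟩ := nc
    have yM := (r3 e he x y hj hx hy).resolve_right k
    obtain ⟨X, F, p1, p2⟩ := rc_pw r1 hx
    have p3 := (p1.cons gA h1 fun m => vQ (r2 (p2 m))).1
    have p4 := (p3.symm.cons he hj.symm fun m => (mem_insert.1 m).elim (fun q => hM (q ▸ yM))
      fun q => dM y yM (r2 (p2 q))).1
    refine Or.inr ⟨y, yM, fun q => yB (mem_singleton.2 q), _, _, p4.symm,
      mem_insert_of_mem (mem_insert_self _ _), fun a ha => ?_⟩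
    simp only [mem_insert] at ha
    rcases ha with k | k | k
    exacts [Or.inr (Or.inr k), Or.inl k, Or.inr (Or.inl (r2 (p2 k)))]
  · by_cases k : w = B
    · exact Or.inl (k ▸ h1)
    · exact Or.inr ⟨w, h2, k, _, _, pw_edge gA h1 (hq.je gA h1).2.2, mem_singleton_self g,
        fun a ha => (mem_insert.1 ha).imp_right fun k => Or.inr (mem_singleton.1 k)⟩

/-- the part towards a single box is empty -/
theorem Sx.box (hq : G.QG U Nb Tm) (h : G.Sx U v M {B} P Q f g) (hB : B ∈ Nb)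
    (hT : Disjoint P Tm) : P = ∅ ∧ G.Je f v B := by
  have h0 := hq.nov h.pu hT hB (fun k => disjoint_left.1 h.dP k
    (mem_insert_of_mem (mem_union_right _ (mem_singleton_self B)))) h.cP
  obtain ⟨w, h1, h2⟩ := h.eP
  exact ⟨h0, mem_singleton.1 (h2.resolve_left (h0 ▸ notMem_empty w)) ▸ h1⟩

/-- a path through a part that hangs on `W` -/
theorem link_rv (h : G.Pw a b X F) (ho : ∀ w ∈ X, w = a ∨ w ∈ P ∨ w = b) (ha : a ∉ W)
    (hP : Disjoint P W) : (∀ w ∈ X, w ∈ W → w = b) ∧ ∀ w ∈ X, w ∉ W → G.Rv W a w := by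
  have k : ∀ w ∈ X, w ∈ W → w = b := fun w hw hW => by
    rcases ho w hw with rfl | k | k
    exacts [absurd hW ha, absurd hW (disjoint_left.1 hP k), k]
  exact ⟨k, fun w hw hW => by simpa using QG.edo_rv h k (disjoint_empty_right _) hw hW⟩

/-- the last edge of such a path -/
theorem link_last (h : G.Pw a b X F) (ho : ∀ w ∈ X, w ∈ W → w = b) (hab : a ≠ b) :
    ∃ e ∈ G.A, ∃ w ∈ X, G.Je e b w ∧ w ∉ W := by
  obtain ⟨e, w, Y, F', h1, h2, h3, h4, rfl, -⟩ := h.symm.head hab.symm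
  exact ⟨e, h1, w, mem_insert_of_mem h3.left, h2,
    fun k => h4 (ho w (mem_insert_of_mem h3.left) k ▸ h3.left)⟩

/-- the ear `z, t, L, u, z'`.  HINT: `Sx.pw` for the two symmetric forms gives paths to `L`; vertices
off `M ∪ L` of the paths from `t` (from `u`) are reached from `t` (from `u`), `Sx.dis`; `Ob.two_out`,
`Ob.arc`. -/
theorem link {z' : V} (hq : G.QG U Nb Tm) (ht : t ∈ Tm) (hu : u ∈ Tm) (htu : t ≠ u)
    (hML : Disjoint M L) (hM : (M ∩ U).Nonempty) (hL : G.Ob Nb L) (h : G.Sx U t M L P Q f g)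
    (h' : G.Sx U u M L P' Q' f' g') (h1 : t ∉ M ∪ L) (h2 : u ∉ M ∪ L)
    (p1 : G.Pw t z X1 F1) (g1 : g ∈ F1) (z1 : z ∈ M) (o1 : ∀ w ∈ X1, w = t ∨ w ∈ Q ∨ w = z)
    (p2 : G.Pw u z' X2 F2) (g2 : g' ∈ F2) (z2 : z' ∈ M) (o2 : ∀ w ∈ X2, w = u ∨ w ∈ Q' ∨ w = z')
    (ε : ZMod 2) : ∃ X3 F3, G.Ea t M ∅ z z' X1 X3 F1 F3 ∧ u ∈ X3 ∧ f ∈ F3 ∧ f' ∈ F3 ∧ F2 ⊆ F3 ∧
      X3 ⊆ insert t P ∪ L ∪ P' ∪ X2 ∧
      (∀ w ∈ X1 ∪ X3, w ∈ M ∪ L ∨ G.Rv (M ∪ L) t w ∨ G.Rv (M ∪ L) u w) ∧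
      ((G.par F3 = ε ∧ Disjoint L Nb) ∨ ∃ B ∈ Nb, L = {B} ∧ B ∈ X3) := by
  have tM : t ∉ M := fun k => h1 (mem_union_left _ k)
  have tL : t ∉ L := fun k => h1 (mem_union_right _ k)
  have uM : u ∉ M := fun k => h2 (mem_union_left _ k)
  have uL : u ∉ L := fun k => h2 (mem_union_right _ k)
  have hLU : (L ∩ U).Nonempty := by
    rw [inter_eq_left.2 (hq.ob hL).1]
    exact (hq.ob hL).2
  have dis := h.dis hq ht hu htu hML hM hLU h' h1 h2
  obtain ⟨y, hy, Y1, E1, q1, f1, n1⟩ := h.symm.pw hq (hq.tm ht) tL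
  obtain ⟨y', hy', Y2, E2, q2, f2, n2⟩ := h'.symm.pw hq (hq.tm hu) uL
  have dP := h.dP.mono_right (subset_insert _ _)
  have dQ := h.dQ.mono_right (subset_insert _ _)
  have dP' := h'.dP.mono_right (subset_insert _ _)
  have dQ' := h'.dQ.mono_right (subset_insert _ _)
  obtain ⟨a1, r1⟩ := link_rv p1 o1 h1 dQ
  obtain ⟨a2, r2⟩ := link_rv p2 o2 h2 dQ'
  obtain ⟨b1, s1⟩ := link_rv q1 n1 h1 dP
  obtain ⟨b2, s2⟩ := link_rv q2 n2 h2 dP'
  have no : ∀ w, G.Rv (M ∪ L) t w → ¬ G.Rv (M ∪ L) u w := fun w k k' => dis (k.trans k'.symm)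
  have m1 : ∀ w ∈ Y1, w ∉ M := fun w hw k =>
    disjoint_left.1 hML k (b1 w hw (mem_union_left _ k) ▸ hy)
  have m2 : ∀ w ∈ Y2, w ∉ M := fun w hw k =>
    disjoint_left.1 hML k (b2 w hw (mem_union_left _ k) ▸ hy')
  have hyy : y = y' → y ∈ Nb := by
    rintro rfl
    obtain ⟨e, he, a, ha, j, na⟩ := link_last q1 b1 fun k => tL (k ▸ hy)
    obtain ⟨e', he', a', ha', j', na'⟩ := link_last q2 b2 fun k => uL (k ▸ hy)
    refine hL.two_out hq hy he he' (fun k => ?_) j j' (fun k => na (mem_union_right _ k))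
      fun k => na' (mem_union_right _ k)
    rcases sx_ends j (k ▸ j') with ⟨-, k⟩ | ⟨-, k⟩
    · exact no a (s1 a ha na) (k ▸ s2 a' ha' na')
    · exact na (k ▸ mem_union_right _ hy)
  obtain ⟨Y, R, q, hY, hp⟩ := hL.arc hy hy' hyy (ε - (G.par E1 + G.par E2 + G.par F2))
  obtain ⟨c1, e1⟩ := q1.cat q fun v k k' => b1 v k (mem_union_right _ (hY k'))
  obtain ⟨c2, e2⟩ := c1.cat q2.symm fun v k k' => by
    by_cases hv : v ∈ M ∪ L
    · exact b2 v k' hv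
    · exact absurd (s2 v k' hv) (no v (s1 v ((mem_union.1 k).resolve_right fun k =>
        hv (mem_union_right _ (hY k))) hv))
  have m3 : ∀ w ∈ Y1 ∪ Y ∪ Y2, w ∉ M := fun w hw => by
    simp only [mem_union] at hw
    rcases hw with (k | k) | k
    exacts [m1 w k, disjoint_right.1 hML (hY k), m2 w k]
  obtain ⟨c3, e3⟩ := c2.cat p2 fun v k k' => by
    rcases o2 v k' with l | l | l
    · exact l
    · have hv := disjoint_left.1 dQ' l
      simp only [mem_union] at k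
      rcases k with (k | k) | k
      · exact absurd (r2 v k' hv) (no v (s1 v k hv))
      · exact absurd (mem_union_right _ (hY k)) hv
      · rcases n2 v k with l' | l' | l'
        exacts [l', absurd l (disjoint_left.1 h'.dPQ l'), absurd (l' ▸ mem_union_right _ hy') hv]
    · exact absurd (l ▸ z2) (m3 v k)
  have o3 : ∀ w ∈ Y1 ∪ Y ∪ Y2 ∪ X2, w ∈ M → w = z' := fun w hw k =>
    a2 w ((mem_union.1 hw).resolve_left fun k' => m3 w k' k) (mem_union_left _ k)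
  have i13 : ∀ w ∈ X1, w ∈ Y1 ∪ Y ∪ Y2 ∪ X2 → w = t ∨ (w = z ∧ w = z') := fun w k k' => by
    rcases o1 w k with l | l | l
    · exact Or.inl l
    · have hv := disjoint_left.1 dQ l
      simp only [mem_union] at k'
      rcases k' with ((k' | k') | k') | k'
      · rcases n1 w k' with l' | l' | l'
        exacts [Or.inl l', absurd l (disjoint_left.1 h.dPQ l'),
          absurd (l' ▸ mem_union_right _ hy) hv]
      · exact absurd (mem_union_right _ (hY k')) hv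
      · exact absurd (s2 w k' hv) (no w (r1 w k hv))
      · exact absurd (r2 w k' hv) (no w (r1 w k hv))
    · exact Or.inr ⟨l, o3 w k' (l ▸ z1)⟩
  have hu3 : u ∈ Y1 ∪ Y ∪ Y2 ∪ X2 := mem_union_right _ p2.left
  refine ⟨_, _, ⟨p1, c3, z1, z2, fun w k k' => a1 w k (mem_union_left _ k'), o3, i13,
    (c3.dj2 p1 (fun v k k' => (i13 v k' k).imp_right And.right) hu3 htu.symm
      fun k => uM (k ▸ z2)).symm, disjoint_empty_right _, disjoint_empty_right _⟩, hu3,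
    by simp [f1], by simp [f2], subset_union_right, fun w hw => ?_, fun w hw => ?_,
    hp.imp (fun k => ⟨?_, k.2⟩) fun k => ⟨y, k.1, k.2, by simp [q1.right]⟩⟩
  · simp only [mem_union, mem_insert] at hw ⊢
    rcases hw with ((k | k) | k) | k
    · rcases n1 w k with l | l | l
      exacts [by simp [l], by simp [l], by simp [l, hy]]
    · simp [hY k]
    · rcases n2 w k with l | l | l
      exacts [by simp [l, p2.left], by simp [l], by simp [l, hy']]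
    · simp [k]
  · by_cases hv : w ∈ M ∪ L
    · exact Or.inl hv
    simp only [mem_union (a := w) (s := X1), mem_union (a := w) (t := X2),
      mem_union (a := w) (t := Y2), mem_union (a := w) (t := Y)] at hw
    rcases hw with k | ((k | k) | k) | k
    exacts [Or.inr (Or.inl (r1 w k hv)), Or.inr (Or.inl (s1 w k hv)),
      absurd (mem_union_right _ (hY k)) hv, Or.inr (Or.inr (s2 w k hv)),
      Or.inr (Or.inr (r2 w k hv))]
  · rw [e3, e2, e1, k.1]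
    ring

/-- an ear of a ring closes with both arcs.  HINT: `Ea.pw`, `Cw.ear`; an edge of the ear has an end
off `H` (`Pw.dj2` with the arcs). -/
theorem Ea.ring (h : G.Ea v H L x y X1 X2 F1 F2) (hH : G.Cw H R) (hv : v ∉ H) (hxy : x ≠ y)
    (hs : s ∈ H) : ∃ Y1 R1 Y2 R2, G.Pw x y Y1 R1 ∧ G.Pw x y Y2 R2 ∧ H = Y1 ∪ Y2 ∧ R = R1 ∪ R2 ∧
      (∀ w ∈ Y1, w ∈ Y2 → w = x ∨ w = y) ∧ s ∈ Y1 ∧ G.par R = G.par R1 + G.par R2 ∧
      G.Cw (X1 ∪ X2 ∪ Y1) (F1 ∪ F2 ∪ R1) ∧ G.Cw (X1 ∪ X2 ∪ Y2) (F1 ∪ F2 ∪ R2) ∧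
      G.par (F1 ∪ F2 ∪ R1) = G.par F1 + G.par F2 + G.par R1 ∧
      G.par (F1 ∪ F2 ∪ R2) = G.par F1 + G.par F2 + G.par R2 := by
  obtain ⟨k1, k2, k3⟩ := h.pw hxy
  have hd : ∀ {X : Finset V} {F : Finset E} {z : V}, G.Pw v z X F → (∀ w ∈ X, w ∈ H → w = z) →
      Disjoint F R := fun p o => disjoint_left.2 fun e he he' => by
    obtain ⟨a1, a2, a3⟩ := p.je he (Or.inl ⟨rfl, rfl⟩)
    exact a3 ((o _ a1 (hH.ends he' (Or.inl rfl))).trans (o _ a2 (hH.ends he' (Or.inr rfl))).symm)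
  obtain ⟨Y1, R1, Y2, R2, a1, a2, a3, a4, a5, -, a6, a7, a8, a9, b1, b2⟩ := hH.ear k1 h.m1 h.m2 hxy k3
    (disjoint_union_left.2 ⟨hd h.p1 h.o1, hd h.p2 h.o2⟩) hs
  exact ⟨Y1, R1, Y2, R2, a1, a2, a3, a4, a5, a7, a6, a8, a9, k2 ▸ b1, k2 ▸ b2⟩

/-- a path from the box `B` along `e` to `H` that does not end in `Z`.  HINT: if the end `w` is off
`H`, the set `K = G.rc (insert B H) {w}` has an exit to `H \ Z`, else `G.Clo K {B} {g}` and
`QG.nov`. -/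
theorem box_path (hq : G.QG U Nb Tm) (hB : B ∈ Nb) (hH : B ∉ H) (he : e ∈ G.A) (hj : G.Je e B w)
    (hT : w ∉ H → ∀ t ∈ Tm, ¬ G.Rv (insert B H) w t)
    (hZ : ∀ f ∈ G.A, ∀ v, ∀ z ∈ Z, w ∉ H → G.Rv (insert B H) w v → G.Je f v z → f = g) :
    w ∈ Z ∨ ∃ z ∈ H, z ∉ Z ∧ ∃ X F, G.Pw B z X F ∧ e ∈ F ∧ (∀ v ∈ X, v ∈ H → v = z) ∧
      ∀ v ∈ X, v = B ∨ v = z ∨ (w ∉ H ∧ G.Rv (insert B H) w v) := by
  obtain ⟨-, wU, wB⟩ := hq.je he hj
  by_cases hw : w ∈ H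
  · refine (em (w ∈ Z)).imp_right fun k => ⟨w, hw, k, _, _, pw_edge he hj wB, mem_singleton_self e,
      fun v hv hv' => ?_, fun v hv => ?_⟩
    · exact mem_singleton.1 ((mem_insert.1 hv).resolve_left fun c => hH (c ▸ hv'))
    · exact (mem_insert.1 hv).imp_right fun c => Or.inl (mem_singleton.1 c)
  have r0 : ∀ v ∈ G.rc (insert B H) {w}, G.Rv (insert B H) w v := fun v hv => by
    obtain ⟨z, h1, -, h2⟩ := mem_rc.1 hv
    exact mem_singleton.1 h1 ▸ h2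
  have r1 : w ∈ G.rc (insert B H) {w} := mem_rc.2 ⟨w, mem_singleton_self w,
    fun k => (mem_insert.1 k).elim wB.symm hw, Rv.refl _ _⟩
  have r2 : ∀ v ∈ insert B H, v ∉ G.rc (insert B H) {w} := fun v k => disjoint_right.1 rc_dj k
  have nc : ¬ G.Clo (G.rc (insert B H) {w}) {B} {g} := fun k => notMem_empty w
    (hq.nov (hq.rc (singleton_subset_iff.2 wU)) (disjoint_left.2 fun t h1 h2 => hT hw t h2 (r0 t h1))
      hB (r2 B (mem_insert_self _ _)) k ▸ r1)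
  simp only [Clo, not_forall, not_or, mem_singleton] at nc
  obtain ⟨f, hf, x, y, hj', hx, hy, yB, fg⟩ := nc
  have yH := (mem_insert.1 ((rc_clo f hf x y hj' hx hy).resolve_right (notMem_empty f))).resolve_left yB
  obtain ⟨X, F, p1, p2⟩ := rc_pw r1 hx
  have p3 := (p1.cons he hj fun m => r2 B (mem_insert_self _ _) (p2 m)).1
  have p4 := (p3.symm.cons hf hj'.symm fun m => (mem_insert.1 m).elim yB fun q => hy (p2 q)).1
  refine Or.inr ⟨y, yH, fun k => fg (hZ f hf x y k hw (r0 x hx) hj'), _, _, p4.symm,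
    mem_insert_of_mem (mem_insert_self _ _), fun v hv hv' => ?_, fun v hv => ?_⟩
  · refine (mem_insert.1 hv).resolve_right fun k => (mem_insert.1 k).elim (fun c => hH (c ▸ hv'))
      fun c => r2 v (mem_insert_of_mem hv') (p2 c)
  · simp only [mem_insert] at hv
    rcases hv with k | k | k
    exacts [Or.inr (Or.inl k), Or.inl k, Or.inr (Or.inr ⟨hw, r0 v (p2 k)⟩)]

/-- two paths from `B` to `H` whose inner vertices are in different components form an ear -/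
theorem ea_of {z' : V} (hB : B ∉ H) (p1 : G.Pw B z X1 F1) (p2 : G.Pw B z' X2 F2) (z1 : z ∈ H)
    (z2 : z' ∈ H) (o1 : ∀ v ∈ X1, v ∈ H → v = z) (o2 : ∀ v ∈ X2, v ∈ H → v = z')
    (hi : ∀ v ∈ X1, v ∈ X2 → v = B ∨ v ∈ H) (e1 : e ∈ F1) (e2 : f ∈ F2) (hef : e ≠ f)
    (a1 : G.At e B) (a2 : G.At f B) : G.Ea B H ∅ z z' X1 X2 F1 F2 := by
  have hi' : ∀ w ∈ X1, w ∈ X2 → w = B ∨ (w = z ∧ w = z') := fun w h1 h2 =>
    (hi w h1 h2).imp_right fun k => ⟨o1 w h1 k, o2 w h2 k⟩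
  refine ⟨p1, p2, z1, z2, o1, o2, hi', disjoint_left.2 fun k k1 k2 => hef ?_,
    disjoint_empty_right _, disjoint_empty_right _⟩
  obtain ⟨s1, t1, ne⟩ := p1.je k1 (Or.inl ⟨rfl, rfl⟩)
  obtain ⟨s2, t2, -⟩ := p2.je k2 (Or.inl ⟨rfl, rfl⟩)
  have a3 : G.At k B := (hi' _ s1 s2).elim Or.inl fun m => (hi' _ t1 t2).elim Or.inr fun m' =>
    absurd (m.1.trans m'.1.symm) ne
  obtain ⟨_, _, _, _, -, -, -, -, -, -, -, u1⟩ := p1.head fun m => hB (m ▸ z1)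
  obtain ⟨_, _, _, _, -, -, -, -, -, -, -, u2⟩ := p2.head fun m => hB (m ▸ z2)
  rw [u1 e e1 a1, u2 f e2 a2, ← u1 k k1 a3, ← u2 k k2 a3]

/-- an ear of a ring with a plain first end has two different ends -/
theorem Ea.ne (hq : G.QG U Nb Tm) (h : G.Ea v H L x y X1 X2 F1 F2) (hH : G.Cw H R) (hv : v ∉ H)
    (hx : x ∉ Nb) : x ≠ y := by
  rintro rfl
  obtain ⟨e, e1, f, e2, a, -, b, -, hef, j1, j2, ha, hb⟩ := h.last hv
  exact hx (hq.two_out hH h.m1 (h.p1.sub e1) (h.p2.sub e2) hef j1 j2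
    (fun k => ha (hH.ends k (j1.at_iff.2 (Or.inr rfl))))
    fun k => hb (hH.ends k (j2.at_iff.2 (Or.inr rfl))))

/-- the object is an odd ring and the ring `H` has at most one box -/
theorem fin_real (hd : G.Hdd Nb Tm) (h : G.Gz Nb Tm s H R D) (hD : Disjoint D Nb)
    (h1 : ∀ B ∈ Nb, ∀ B' ∈ Nb, B = B') : G.Z0 Nb Tm ∨ G.Z1 Nb Tm := by
  obtain ⟨hz, hg⟩ := h
  have h2 : ∀ B ∈ Nb, D ≠ {B} := fun B hB e => disjoint_left.1 hD (e ▸ mem_singleton_self B) hB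
  have h3 : G.Oc D := hz.ob.elim (fun ⟨B, hB, e⟩ => absurd e (h2 B hB)) fun ⟨F, k1, k2, _⟩ =>
    ⟨F, k1, k2⟩
  rcases Nb.eq_empty_or_nonempty with rfl | ⟨B, hB⟩
  · rw [inter_empty, sdiff_empty] at hg
    exact Or.inl ⟨rfl, H, D, ⟨R, hz.cw, hz.va.resolve_right fun k => k (disjoint_empty_right _)⟩,
      h3, hz.dj, hg, tz_of hd hz⟩
  · have h4 := (tz_nb hd hz hB).resolve_right (h2 B hB)
    obtain rfl : Nb = {B} := eq_singleton_iff_unique_mem.2 ⟨hB, fun x hx => h1 x hx B hB⟩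
    rw [inter_singleton_of_mem h4, sdiff_singleton_eq_erase] at hg
    exact Or.inr ⟨B, H, R, D, rfl, hz.cw, h4, h3, hz.dj, hg, tz_of hd hz⟩

end SG

end Pool.Agent.Work.MP_8c679b_co
end

-- merged part: Pool.Agent.Work.MP_8c679b_co.A3.GX
section
/-!
An odd ring `H` through the terminal `s`, and the only box `B` off `H`.
-/

set_option autoImplicit false
set_option linter.unusedSectionVars false

namespace Pool.Agent.Work.MP_8c679b_co

open Finset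

namespace SG

variable {V E : Type} [Fintype V] [DecidableEq V] [DecidableEq E] [Nonempty E] {G : SG V E}
  {U Nb Tm X Y Z M L D D' H P Q W X1 X2 A1 A2 A3 A4 S : Finset V}
  {F F' F1 F2 E1 E2 E3 E4 R : Finset E} {a b c v w x y z s t u B B1 B2 : V} {e f g : E}
  {P' Q' : Finset V} {f' g' : E}

/-- no edge of `B` leads to `t` -/
theorem bx_drop (h3 : T3n Tm s t u) (hs : s ∈ H) (hg : G.Goo Tm (insert B H)) (ht : t ≠ B)
    (hu : u ≠ B) (h : ∀ e ∈ G.A, ∀ w, G.Je e B w → ¬ G.Rv (insert B H) t w) : G.Goo Tm H := by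
  by_cases tH : t ∈ H
  · exact goo_of h3.sw2 hs (mem_singleton_self t) (fun k => h3.2.2.2 (mem_singleton.1 k).symm)
      fun e _ x y _ hx _ => Or.inl (mem_singleton.1 hx ▸ tH)
  have h0 : t ∉ insert B H := fun k => (mem_insert.1 k).elim ht tH
  refine goo_of (Z := G.rc (insert B H) {t}) h3.sw2 hs
    (mem_rc.2 ⟨t, mem_singleton_self t, h0, Rv.refl _ _⟩) (fun k => ?_) fun e he x y hj hx hy => ?_
  · obtain ⟨z, h1, -, h2⟩ := mem_rc.1 k
    rw [mem_singleton.1 h1] at h2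
    exact h3.2.2.2 (hg t h3.mem.2.1 u h3.mem.2.2.1 h0 (h2.not_mem h0) h2)
  · obtain ⟨z, h1, -, h2⟩ := mem_rc.1 hx
    rw [mem_singleton.1 h1] at h2
    rcases mem_insert.1 ((rc_clo e he x y hj hx hy).resolve_right (notMem_empty e)) with k | k
    · exact absurd h2 (h e he x (k ▸ Or.symm hj))
    · exact Or.inr k

theorem bx_mb_at (h : G.Je e B w) : G.At e B := h.elim (fun k => Or.inl k.1) fun k => Or.inr k.2

/-- the ear from the box through a terminal off the ring -/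
theorem bx_mb_ear (hq : G.QG U Nb Tm) (hb : G.Hb Nb Tm) (hz : G.Tz Nb Tm s H R {B}) (hB : B ∈ Nb)
    (ht : t ∈ Tm) (tH : t ∉ H) (he : e ∈ G.A) (j1 : G.Je e B w) (r1 : G.Rv (insert B H) t w) :
    ∃ z ∈ H, ∃ X F, G.Pw B z X F ∧ e ∈ F ∧ t ∈ X ∧ (∀ v ∈ X, v ∈ H → v = z) ∧
      ∀ v ∈ X, v = B ∨ v = z ∨ G.Rv (insert B H) t v :=
  hq.earv hB (disjoint_singleton_right.1 hz.dj) ⟨s, mem_inter.2 ⟨hz.sh, hq.tm hz.tm⟩⟩ ht tH
    (fun X hX k => hb X H hX ⟨R, hz.cw, hz.va⟩ t ht s hz.tm k hz.sh) he j1 r1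

/-- HINT: `QG.earv` twice, `ea_of`, `Ea.ne`, `Ea.ring`; the two rings have different signs. -/
theorem bx_mb {w' : V} (hq : G.QG U Nb Tm) (hb : G.Hb Nb Tm) (h3 : T3n Tm s t u)
    (hz : G.Tz Nb Tm s H R {B}) (hB : B ∈ Nb) (hN : Disjoint H Nb) (tH : t ∉ H) (uH : u ∉ H)
    (hg : G.Goo Tm (insert B H)) (he : e ∈ G.A) (hf : f ∈ G.A) (j1 : G.Je e B w) (j2 : G.Je f B w')
    (r1 : G.Rv (insert B H) t w) (r2 : G.Rv (insert B H) u w') : e ≠ f ∧ G.Mb Nb Tm B e f := by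
  obtain ⟨-, ht, hu, -⟩ := h3.mem
  have hBH : B ∉ H := disjoint_singleton_right.1 hz.dj
  have k0 : ∀ v ∈ Tm, v ∉ H → v ∉ insert B H := fun v hv hH k =>
    (mem_insert.1 k).elim (fun k => disjoint_left.1 hq.dj hB (k ▸ hv)) hH
  have k1 : ∀ v, G.Rv (insert B H) t v → ¬ G.Rv (insert B H) u v := fun v a1 a2 =>
    h3.2.2.2 (hg t ht u hu (k0 t ht tH) (k0 u hu uH) (a1.trans a2.symm))
  have hef : e ≠ f := fun k => k1 w r1 (s2_diff_je (k ▸ j2) j1 ▸ r2)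
  obtain ⟨z, z1, X1, F1, p1, e1, t1, o1, a1⟩ := bx_mb_ear hq hb hz hB ht tH he j1 r1
  obtain ⟨z', z2, X2, F2, p2, e2, t2, o2, a2⟩ := bx_mb_ear hq hb hz hB hu uH hf j2 r2
  have ea := ea_of hBH p1 p2 z1 z2 o1 o2 (fun v h1 h2 => by
    rcases a1 v h1 with k | k | k
    · exact Or.inl k
    · exact Or.inr (k ▸ z1)
    rcases a2 v h2 with k' | k' | k'
    · exact Or.inl k'
    · exact Or.inr (k' ▸ z2)
    · exact absurd k' (k1 v k)) e1 e2 hef (bx_mb_at j1) (bx_mb_at j2)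
  obtain ⟨Y1, R1, Y2, R2, -, -, -, -, -, -, q0, c1, c2, q1, q2⟩ :=
    ea.ring hz.cw hBH (ea.ne hq hz.cw hBH (disjoint_left.1 hN z1)) hz.sh
  have mr : ∀ Y R', G.Cw (X1 ∪ X2 ∪ Y) (F1 ∪ F2 ∪ R') →
      G.Mr Tm e f (X1 ∪ X2 ∪ Y) (F1 ∪ F2 ∪ R') := fun Y R' c =>
    ⟨c, ⟨t, ht, u, hu, h3.2.2.2, mem_union_left _ (mem_union_left _ t1),
      mem_union_left _ (mem_union_right _ t2)⟩, mem_union_left _ (mem_union_left _ e1),
      mem_union_left _ (mem_union_right _ e2)⟩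
  have hR : G.par R = 1 := hz.va.resolve_right (not_not.2 hN)
  refine ⟨hef, fun ε => ?_⟩
  by_cases k : G.par (F1 ∪ F2 ∪ R1) = ε
  · exact ⟨_, _, mr Y1 R1 c1, Or.inl k⟩
  · refine ⟨_, _, mr Y2 R2 c2, Or.inl ?_⟩
    have k' : ε + G.par (F1 ∪ F2 ∪ R1) = 1 := (z2_ne _).1 fun k' => k (z2_eq_of_add k').symm
    refine z2_eq_of_add ?_
    rw [q1] at k'
    rw [q2]
    linear_combination k' + hR - q0 - z2_add_self (G.par R1) + z2_add_self 1

/-- HINT: `QG.earv`, `box_path` with `Z = ∅`, the ring with the arc through `s`. -/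
theorem bx_mo {w' : V} (hq : G.QG U Nb Tm) (hb : G.Hb Nb Tm) (h3 : T3n Tm s t u)
    (hz : G.Tz Nb Tm s H R {B}) (hB : B ∈ Nb) (hN : Disjoint H Nb) (tH : t ∉ H)
    (he : e ∈ G.A) (hf : f ∈ G.A) (j1 : G.Je e B w) (j2 : G.Je f B w')
    (r1 : G.Rv (insert B H) t w) (r2 : ¬ G.Rv (insert B H) t w') (r3 : ¬ G.Rv (insert B H) u w') :
    G.Mo Tm e f := by
  obtain ⟨hs, ht, -, hT⟩ := h3.mem
  have hBH : B ∉ H := disjoint_singleton_right.1 hz.dj
  have hef : e ≠ f := fun k => r2 (s2_diff_je j1 (k ▸ j2) ▸ r1)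
  obtain ⟨z, z1, X1, F1, p1, e1, t1, o1, a1⟩ := bx_mb_ear hq hb hz hB ht tH he j1 r1
  obtain ⟨z', z2, -, X2, F2, p2, e2, o2, a2⟩ := (box_path (Z := ∅) (g := e) hq hB hBH hf j2
    (fun hw v hv k => by
      rcases hT v hv with rfl | rfl | rfl
      · exact k.not_mem (fun k' => (mem_insert.1 k').elim (hq.je hf j2).2.2.symm hw)
          (mem_insert_of_mem hz.sh)
      · exact r2 k.symm
      · exact r3 k.symm)
    fun _ _ _ z hz => absurd hz (notMem_empty z)).resolve_left (notMem_empty _)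
  have ea := ea_of hBH p1 p2 z1 z2 o1 o2 (fun v h1 h2 => by
    rcases a1 v h1 with k | k | k
    · exact Or.inl k
    · exact Or.inr (k ▸ z1)
    rcases a2 v h2 with k' | k' | k'
    · exact Or.inl k'
    · exact Or.inr (k' ▸ z2)
    · exact absurd (k.trans k'.2.symm) r2) e1 e2 hef (bx_mb_at j1) (bx_mb_at j2)
  obtain ⟨Y1, R1, Y2, R2, -, -, -, -, -, s1, -, c1, -⟩ :=
    ea.ring hz.cw hBH (ea.ne hq hz.cw hBH (disjoint_left.1 hN z1)) hz.sh
  exact ⟨_, _, c1, ⟨s, hs, t, ht, h3.2.1, mem_union_right _ s1,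
    mem_union_left _ (mem_union_left _ t1)⟩, mem_union_left _ (mem_union_left _ e1),
    mem_union_left _ (mem_union_right _ e2)⟩

/-- two edges `e, g` of `B` lead to `t`, and `f` leads to `u`.  HINT: the ring `Q` through `B` by
`e, g` (`Rv.pw`, `Pw.close`) misses `t` by `hb`.  If the fourth edge leads to `t` off `Q ∪ H` we have
`Z2` by `bx_mb`, else `Z1`. -/
theorem bx_ring {w' w'' : V} (hq : G.QG U Nb Tm) (hb : G.Hb Nb Tm) (hd : G.Hdd Nb Tm)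
    (h3 : T3n Tm s t u) (hz : G.Tz Nb Tm s H R {B}) (hB : Nb = {B}) (tH : t ∉ H) (uH : u ∉ H)
    (hg : G.Goo Tm (insert B H)) (he : e ∈ G.A) (hf : f ∈ G.A) (hg' : g ∈ G.A) (heg : e ≠ g)
    (j1 : G.Je e B w) (j2 : G.Je f B w') (j3 : G.Je g B w'') (r1 : G.Rv (insert B H) t w)
    (r2 : G.Rv (insert B H) u w') (r3 : G.Rv (insert B H) t w'') : G.Z1 Nb Tm ∨ G.Z2 Nb Tm := by
  have bN : B ∈ Nb := hB ▸ mem_singleton_self B
  have hN : Disjoint H Nb := hB ▸ hz.dj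
  have bH : B ∉ H := disjoint_right.1 hN bN
  obtain ⟨-, tT, uT, -⟩ := h3.mem
  have off : ∀ v ∈ Tm, v ∉ H → v ∉ insert B H := fun v h1 h2 k =>
    (mem_insert.1 k).elim (fun q => disjoint_left.1 hq.dj bN (q ▸ h1)) h2
  have tu : ¬ G.Rv (insert B H) t u := fun k =>
    h3.2.2.2 (hg t tT u uT (off t tT tH) (off u uT uH) k)
  have oc : G.Oc H := ⟨R, hz.cw, hz.va.resolve_right (not_not.2 hN)⟩
  have ef := (bx_mb hq hb h3 hz bN hN tH uH hg he hf j1 j2 r1 r2).1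
  have gf := (bx_mb hq hb h3 hz bN hN tH uH hg hg' hf j3 j2 r3 r2).1
  obtain ⟨d, q4⟩ : ∃ d, G.Q4 {B} e g f d := by
    obtain ⟨c, d, k⟩ := hq.q4 bN (hq.cut1.2 ⟨he, w, j1⟩) (hq.cut1.2 ⟨hg', w'', j3⟩) heg
    have m : f ∈ ({e, g, c, d} : Finset E) := k.1 ▸ hq.cut1.2 ⟨hf, w', j2⟩
    simp only [mem_insert, mem_singleton] at m
    rcases m with m | m | rfl | rfl
    exacts [absurd m.symm ef, absurd m.symm gf, ⟨_, k⟩, ⟨_, k.swap2⟩]
  obtain ⟨Y, F, p1, p2, -⟩ := (r1.symm.trans r3).pw (r1.not_mem (off t tT tH))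
  obtain ⟨p3, p4⟩ := disjoint_insert_right.1 p2
  have cw := (p1.close he hg' heg j1 j3 p3).1
  have dj : Disjoint (insert B Y) H := disjoint_insert_left.2 ⟨bH, p4⟩
  have sb : insert B H ⊆ insert B Y ∪ H :=
    insert_subset (mem_union_left _ (mem_insert_self _ _)) subset_union_right
  have ofr : G.Ofr Nb (insert B H) := (tz_of hd hz).mono (union_subset (subset_insert _ _)
    (singleton_subset_iff.2 (mem_insert_self _ _)))
  obtain ⟨dA, z, jd⟩ := hq.cut1.1 q4.mem.2.2.2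
  by_cases rd : G.Rv (insert B H) t z
  · exact Or.inr ⟨B, e, g, f, d, _, _, H, hB, q4, cw, mem_insert_self _ _,
      mem_insert_of_mem (mem_insert_self _ _), oc, dj, hg.mono sb, ofr.mono sb,
      (bx_mb hq hb h3 hz bN hN tH uH hg dA hf jd j2 rd r2).2.symm, hg, ofr⟩
  have sH : H ⊆ (insert B Y ∪ H).erase B := fun v hv =>
    mem_erase.2 ⟨fun k => bH (k ▸ hv), mem_union_right _ hv⟩
  have sY : Y ⊆ (insert B Y ∪ H).erase B := fun v hv =>
    mem_erase.2 ⟨fun k => p3 (k ▸ hv), mem_union_left _ (mem_insert_of_mem hv)⟩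
  have rc : ∀ v, v ∈ G.rc (insert B H) {t} ↔ G.Rv (insert B H) t v := fun v =>
    mem_rc.trans ⟨fun ⟨a, h1, _, h2⟩ => mem_singleton.1 h1 ▸ h2,
      fun k => ⟨t, mem_singleton_self t, off t tT tH, k⟩⟩
  refine Or.inl ⟨B, _, _, H, hB, cw, mem_insert_self _ _, oc, dj,
    goo_of (Z := G.rc (insert B H) {t}) h3.sw2 (sH hz.sh) ((rc t).2 (Rv.refl _ _))
      (fun k => tu ((rc u).1 k)) fun k kA x y hj hx hy => ?_, ofr.mono sb⟩
  rcases mem_insert.1 ((rc_clo k kA x y hj hx hy).resolve_right (notMem_empty k)) with rfl | m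
  · have xB : x ≠ y := (hq.je kA hj).2.2
    have en : ∀ {a : V}, G.Je k y a → x = a := fun j =>
      (sx_ends hj j).elim (fun q => absurd q.1 xB) fun q => q.1
    have m : k ∈ ({e, g, f, d} : Finset E) := q4.1 ▸ hq.cut1.2 ⟨kA, x, hj.symm⟩
    simp only [mem_insert, mem_singleton] at m
    rcases m with rfl | rfl | rfl | rfl
    · exact Or.inl (sY (en j1 ▸ p1.left))
    · exact Or.inl (sY (en j3 ▸ p1.right))
    · exact absurd (((rc x).1 hx).trans (en j2 ▸ r2.symm)) tu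
    · exact absurd (en jd ▸ (rc x).1 hx) rd
  · exact Or.inr (sH m)

/-- HINT: `Nb = {B}` by `tz_nb`; `t, u` are off `H` by `ha`.  `bx_drop` gives `Z3c`.  Else edges
`a, b` lead to `t, u`.  If `c` or `d` leads to `t` or `u`: `bx_ring`.  If the ends of `c, d` are off
`H` and connected: the ring through `B` by `c, d` gives `Z2`.  Else `Z7`. -/
theorem end_box0 (hq : G.QG U Nb Tm) (ha : G.Ha Nb Tm) (hb : G.Hb Nb Tm) (hd : G.Hdd Nb Tm)
    (hz : G.Tz Nb Tm s H R {B}) (hB : B ∈ Nb) (hN : Disjoint H Nb) (hg : G.Goo Tm (H ∪ {B})) :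
    G.Zall U Nb Tm := by
  have hNb : Nb = {B} := by
    ext b
    simp only [mem_singleton]
    constructor
    · intro hb'
      rcases tz_nb hd hz hb' with k | k
      · exact absurd hb' (disjoint_left.1 hN k)
      · exact (singleton_injective k).symm
    · rintro rfl
      exact hB
  obtain ⟨t, u, h3⟩ := hq.two hz.tm
  obtain ⟨sT, tT, uT, allT⟩ := h3.mem
  have hBH : B ∉ H := fun k => disjoint_left.1 hz.dj k (mem_singleton_self B)
  have hodd : G.par R = 1 := hz.va.resolve_right (not_not.2 hN)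
  have off : ∀ v ∈ Tm, s ≠ v → v ∉ H := fun v hv hne k =>
    ha H ⟨R, hz.cw, hz.va⟩ s sT v hv hne hz.sh k {B} hz.ob hz.dj
  have tH := off t tT h3.2.1
  have uH := off u uT h3.2.2.1
  have hM : H ∪ {B} = insert B H := by
    ext x
    simp only [mem_union, mem_singleton, mem_insert, or_comm]
  rw [hM] at hg
  have hof : G.Ofr Nb (insert B H) := hM ▸ tz_of hd hz
  have tB : ∀ v ∈ Tm, v ≠ B := fun v hv k => disjoint_left.1 hq.dj hB (k ▸ hv)
  have z3 : G.Goo Tm H → G.Zall U Nb Tm := fun k =>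
    Or.inr (Or.inr (Or.inr (Or.inl ⟨B, H, R, hz.cw, hBH, hof, Or.inl ⟨hNb, hodd, k⟩⟩)))
  by_cases c1 : ∀ e ∈ G.A, ∀ w, G.Je e B w → ¬ G.Rv (insert B H) t w
  · exact z3 (bx_drop h3 hz.sh hg (tB t tT) (tB u uT) c1)
  by_cases c2 : ∀ e ∈ G.A, ∀ w, G.Je e B w → ¬ G.Rv (insert B H) u w
  · exact z3 (bx_drop h3.sw2 hz.sh hg (tB u uT) (tB t tT) c2)
  push Not at c1 c2
  obtain ⟨a, aA, wa, ja, ra⟩ := c1
  obtain ⟨b, bA, wb, jb, rb⟩ := c2
  obtain ⟨hab, mb⟩ := bx_mb hq hb h3 hz hB hN tH uH hg aA bA ja jb ra rb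
  obtain ⟨c, d, q4⟩ := hq.q4 hB (hq.cut1.2 ⟨aA, wa, ja⟩) (hq.cut1.2 ⟨bA, wb, jb⟩) hab
  have ring : ∀ g ∈ G.A, a ≠ g → b ≠ g → ∀ w, G.Je g B w →
      G.Rv (insert B H) t w ∨ G.Rv (insert B H) u w → G.Zall U Nb Tm := by
    intro g gA ag bg w jg r
    have k : G.Z1 Nb Tm ∨ G.Z2 Nb Tm := r.elim
      (fun r => bx_ring hq hb hd h3 hz hNb tH uH hg aA bA gA ag ja jb jg ra rb r)
      fun r => bx_ring hq hb hd h3.sw2 hz hNb uH tH hg bA aA gA bg jb ja jg rb ra r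
    exact Or.inr (k.imp_right Or.inl)
  obtain ⟨q0, -, ac, ad, bc, bd, cd⟩ := id q4
  obtain ⟨cA, wc, jc⟩ := hq.cut1.1 (show c ∈ G.cut {B} by rw [q0]; simp)
  obtain ⟨dA, wd, jd⟩ := hq.cut1.1 (show d ∈ G.cut {B} by rw [q0]; simp)
  by_cases rc : G.Rv (insert B H) t wc ∨ G.Rv (insert B H) u wc
  · exact ring c cA ac bc wc jc rc
  by_cases rd : G.Rv (insert B H) t wd ∨ G.Rv (insert B H) u wd
  · exact ring d dA ad bd wd jd rd
  rw [not_or] at rc rd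
  have uq : ∀ e ∈ G.A, ∀ w w', G.Je e B w → G.Je e B w' → w' = w := by
    intro e he w w' j j'
    rcases sx_ends j j' with k | k
    · exact k.2.symm
    · exact absurd k.2.symm (hq.je he j).2.2
  have oc : G.Oc H := ⟨R, hz.cw, hodd⟩
  by_cases hcd : wc ∉ H ∧ G.Rv (insert B H) wc wd
  · have wM : wc ∉ insert B H := fun k =>
      (mem_insert.1 k).elim (fun k => (hq.je cA jc).2.2 k.symm) hcd.1
    obtain ⟨X, F, p, dX, -⟩ := hcd.2.pw wM
    have BX : B ∉ X := fun k => disjoint_left.1 dX k (mem_insert_self B H)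
    have sub : insert B H ⊆ insert B X ∪ H := fun v hv => (mem_insert.1 hv).elim
      (fun k => mem_union_left _ (k ▸ mem_insert_self _ _)) (mem_union_right _)
    refine Or.inr (Or.inr (Or.inl ⟨B, c, d, a, b, insert B X, insert c (insert d F), H, hNb,
      ⟨?_, cd, ac.symm, bc.symm, ad.symm, bd.symm, hab⟩, (p.close cA dA cd jc jd BX).1,
      mem_insert_self _ _, mem_insert_of_mem (mem_insert_self _ _), oc, ?_, hg.mono sub,
      hof.mono sub, mb, hg, hof⟩))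
    · rw [q0]
      ext x
      simp only [mem_insert, mem_singleton]
      (clear * - hcd rc rd z3; grind)
    · exact disjoint_insert_left.2 ⟨hBH, dX.mono_right (subset_insert B H)⟩
  · refine Or.inr (Or.inr (Or.inr (Or.inr (Or.inr (Or.inr (Or.inr (Or.inl
      ⟨B, a, b, c, d, H, hNb, q4, oc, hBH, hg, hof, mb,
        bx_mo hq hb h3 hz hB hN tH aA cA ja jc ra rc.1 rc.2,
        bx_mo hq hb h3.sw2 hz hB hN uH bA cA jb jc rb rc.2 rc.1, ?_⟩)))))))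
    intro w j wH
    obtain rfl := uq d dA wd w jd j
    have wM : w ∉ insert B H := fun k =>
      (mem_insert.1 k).elim (fun k => (hq.je dA jd).2.2 k.symm) wH
    refine ⟨fun v hv r => ?_, fun e w' he j' r => ?_⟩
    · rcases allT v hv with rfl | rfl | rfl
      · exact r.not_mem wM (mem_insert_of_mem hz.sh)
      · exact rd.1 r.symm
      · exact rd.2 r.symm
    · rcases he with rfl | rfl | rfl
      · obtain rfl := uq e aA wa w' ja j'
        exact rd.1 (ra.trans r.symm)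
      · obtain rfl := uq e bA wb w' jb j'
        exact rd.2 (rb.trans r.symm)
      · obtain rfl := uq e cA wc w' jc j'
        exact hcd ⟨fun k => r.not_mem wM (mem_insert_of_mem k), r.symm⟩

end SG

end Pool.Agent.Work.MP_8c679b_co
end

-- merged part: Pool.Agent.Work.MP_8c679b_co.A3.GA1
section
/-!
Both other terminals separate the ring `H` from the object.
-/

set_option autoImplicit false
set_option linter.unusedSectionVars false

namespace Pool.Agent.Work.MP_8c679b_co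

open Finset

namespace SG

variable {V E : Type} [Fintype V] [DecidableEq V] [DecidableEq E] [Nonempty E] {G : SG V E}
  {U Nb Tm X Y Z M L D D' H P Q W X1 X2 A1 A2 A3 A4 S : Finset V}
  {F F' F1 F2 E1 E2 E3 E4 R : Finset E} {a b c v w x y z s t u B B1 B2 : V} {e f g : E}
  {P' Q' : Finset V} {f' g' : E}

/-- HINT: `Sx.dis`, `Sx.off`. -/
theorem a1_goo (hq : G.QG U Nb Tm) (ha : G.Ha Nb Tm) (hd : G.Hdd Nb Tm) (h3 : T3n Tm s t u)
    (hz : G.Tz Nb Tm s H R D) (h1 : t ∉ H ∪ D) (h2 : u ∉ H ∪ D)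
    (h : G.Sx U t H D P Q f g) (h' : G.Sx U u H D P' Q' f' g') :
    G.Goo Tm (H ∪ D) ∧ Disjoint (P ∪ Q) Tm ∧ Disjoint (P' ∪ Q') Tm := by
  obtain ⟨ms, mt, mu, mc⟩ := h3.mem
  have tu : t ≠ u := h3.2.2.2
  have hM : (H ∩ U).Nonempty := ⟨s, mem_inter.2 ⟨hz.sh, hq.tm ms⟩⟩
  have hL : (D ∩ U).Nonempty := by
    obtain ⟨k1, v, k2⟩ := hq.ob hz.ob
    exact ⟨v, mem_inter.2 ⟨k2, k1 k2⟩⟩
  have k := Sx.dis hq mt mu tu hz.dj hM hL h h' h1 h2
  have o1 := Sx.off hq mt mu tu hz.dj hM hL h h'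
  have o2 := Sx.off hq mu mt tu.symm hz.dj hM hL h' h
  have sH : ∀ v, s ∈ insert v (H ∪ D) := fun v => mem_insert_of_mem (mem_union_left _ hz.sh)
  refine ⟨fun a ma b mb na nb r => ?_, disjoint_right.2 fun v hv => ?_,
    disjoint_right.2 fun v hv => ?_⟩
  · rcases mc a ma with rfl | rfl | rfl
    · exact absurd (mem_union_left _ hz.sh) na
    · rcases mc b mb with rfl | rfl | rfl
      exacts [absurd (mem_union_left _ hz.sh) nb, rfl, absurd r k]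
    · rcases mc b mb with rfl | rfl | rfl
      exacts [absurd (mem_union_left _ hz.sh) nb, absurd r.symm k, rfl]
  · rw [notMem_union]
    rcases mc v hv with rfl | rfl | rfl
    · exact ⟨disjoint_right.1 h.dP (sH _), disjoint_right.1 h.dQ (sH _)⟩
    · exact ⟨disjoint_right.1 h.dP (mem_insert_self _ _), disjoint_right.1 h.dQ (mem_insert_self _ _)⟩
    · exact o1
  · rw [notMem_union]
    rcases mc v hv with rfl | rfl | rfl
    · exact ⟨disjoint_right.1 h'.dP (sH _), disjoint_right.1 h'.dQ (sH _)⟩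
    · exact o2
    · exact ⟨disjoint_right.1 h'.dP (mem_insert_self _ _),
        disjoint_right.1 h'.dQ (mem_insert_self _ _)⟩

/-- HINT: else `Sx.pw_ne` gives ends `z, z' ≠ B`.  For `z = z'` the ring `Ea.cw` of `link`, else the
ear of `link` with the arc that misses `B` (take `Cw.arcs` first, then the sign, `cw_of_two`), is
valid and misses `B`. -/
theorem a1_end (hq : G.QG U Nb Tm) (ha : G.Ha Nb Tm) (hd : G.Hdd Nb Tm) (h3 : T3n Tm s t u)
    (hz : G.Tz Nb Tm s H R D) (h1 : t ∉ H ∪ D) (h2 : u ∉ H ∪ D)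
    (h : G.Sx U t H D P Q f g) (h' : G.Sx U u H D P' Q' f' g')
    (hB : B ∈ Nb) (hH : B ∈ H) : G.Je g t B ∨ G.Je g' u B := by
  obtain ⟨ms, mt, mu, -⟩ := h3.mem
  have tu : t ≠ u := h3.2.2.2
  have hM : (H ∩ U).Nonempty := ⟨s, mem_inter.2 ⟨hz.sh, hq.tm ms⟩⟩
  have tH : t ∉ H := fun k => h1 (mem_union_left _ k)
  have uH : u ∉ H := fun k => h2 (mem_union_left _ k)
  obtain ⟨-, d1, d2⟩ := a1_goo hq ha hd h3 hz h1 h2 h h'
  rcases h.pw_ne hq tH hB hH (d1.mono_left subset_union_right) with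
    k | ⟨z, z1, zB, X1, F1, p1, g1, o1⟩
  · exact Or.inl k
  rcases h'.pw_ne hq uH hB hH (d2.mono_left subset_union_right) with
    k | ⟨z', z2, zB', X2, F2, p2, g2, o2⟩
  · exact Or.inr k
  exfalso
  have lk := link hq mt mu tu hz.dj hM hz.ob h h' h1 h2 p1 g1 z1 o1 p2 g2 z2 o2
  by_cases hzz : z = z'
  · subst hzz
    obtain ⟨X3, F3, ea, u3, -, -, -, -, -, sg⟩ := lk (1 + G.par F1)
    obtain ⟨c, oc⟩ := ea.cw tH
    refine ha _ ⟨_, c, sg.imp (fun k => ?_) ?_⟩ t mt u mu tu (mem_union_left _ p1.left)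
      (mem_union_right _ u3) _ (ob_box hB) (disjoint_singleton_right.2 fun k => zB (oc _ k hH).symm)
    · rw [par, sum_union ea.dF, ← par, ← par, k.1]
      linear_combination z2_add_self (G.par F1)
    · rintro ⟨B', b1, -, b2⟩
      exact not_disjoint_iff.2 ⟨B', mem_union_right _ b2, b1⟩
  · obtain ⟨Y1, R1, Y2, R2, -, q2, eH, -, hi, -, -, bY⟩ := hz.cw.arcs z1 z2 hzz hH
    obtain ⟨X3, F3, ea, u3, -, -, -, -, -, sg⟩ := lk (1 + G.par F1 + G.par R2)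
    obtain ⟨pw, pp, oc⟩ := ea.pw hzz
    have hi' : ∀ v ∈ X1 ∪ X3, v ∈ Y2 → v = z ∨ v = z' :=
      fun v hv k => oc v hv (eH ▸ mem_union_right _ k)
    obtain ⟨c, pc⟩ := cw_of_two pw q2 hzz hi' (pw.dj2 q2 hi' (mem_union_left _ p1.left)
      (fun k => tH (k ▸ z1)) fun k => tH (k ▸ z2))
    refine ha _ ⟨_, c, sg.imp (fun k => ?_) ?_⟩ t mt u mu tu
      (mem_union_left _ (mem_union_left _ p1.left)) (mem_union_left _ (mem_union_right _ u3)) _
      (ob_box hB) (disjoint_singleton_right.2 fun k => ?_)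
    · rw [pc, pp, k.1]
      linear_combination z2_add_self (G.par F1) + z2_add_self (G.par R2)
    · rintro ⟨B', b1, -, b2⟩
      exact not_disjoint_iff.2 ⟨B', mem_union_left _ (mem_union_right _ b2), b1⟩
    · rcases mem_union.1 k with k | k
      · exact (oc _ k hH).elim (fun k => zB k.symm) fun k => zB' k.symm
      · exact (hi _ bY k).elim (fun k => zB k.symm) fun k => zB' k.symm

/-- an edge that leaves the component of `u` -/
theorem a1_rer_out (h' : G.Sx U u H D P' Q' f' g') (he : e ∈ G.A) (hj : G.Je e x y)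
    (hx : x ∈ insert u (P' ∪ Q')) (hy : y ∉ insert u (P' ∪ Q')) :
    y ∈ D ∨ (y ∈ H ∧ (x ∈ Q' ∨ (x = u ∧ e = g'))) := by
  simp only [mem_insert, mem_union, not_or] at hx hy
  rcases hx with rfl | k | k
  · rcases mem_insert.1 (h'.cu ▸ sx_cut he hj hy.1) with k | k
    · exact Or.inl (h'.clo_a he hj (Or.inr ⟨rfl, k⟩) hy.1 hy.2.1)
    · exact Or.inr ⟨h'.symm.clo_a he hj (Or.inr ⟨rfl, mem_singleton.1 k⟩) hy.1 hy.2.2,
        Or.inr ⟨rfl, mem_singleton.1 k⟩⟩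
  · exact Or.inl (h'.clo_a he hj (Or.inl k) hy.1 hy.2.1)
  · exact Or.inr ⟨h'.symm.clo_a he hj (Or.inl k) hy.1 hy.2.2, Or.inl k⟩

/-- a box on a ring has only two outer edges -/
theorem a1_rer_only (hq : G.QG U Nb Tm) (hc : G.Cw H R) (hB : B1 ∈ Nb) (hH : B1 ∈ H)
    (gA : g ∈ G.A) (j1 : G.Je g B1 t) (he : e ∈ G.A) (j2 : G.Je e B1 w) (hf : f ∈ G.A)
    (j3 : G.Je f B1 x) (ht : t ∉ H) (hw : w ∉ H) (hx : x ∉ H) (wt : w ≠ t) (xt : x ≠ t) :
    x = w := by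
  obtain ⟨p, q, k, l, h4, hp, hq', -, -⟩ := hq.q4_cw hB hc hH
  have key : ∀ e' ∈ G.A, ∀ z, G.Je e' B1 z → z ∉ H → e' = k ∨ e' = l := by
    intro e' he' z hj hz
    have m := h4.1 ▸ sx_cut he' hj (fun k => hz (k ▸ hH))
    have nR : e' ∉ R := fun k => hz (hc.ends k (hj.at_iff.2 (Or.inr rfl)))
    simp only [mem_insert, mem_singleton] at m
    rcases m with rfl | rfl | m
    exacts [absurd hp nR, absurd hq' nR, m]
  have same : ∀ e' z z', G.Je e' B1 z → G.Je e' B1 z' → z ∉ H → z = z' := by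
    intro e' z z' a1 a2 hz
    rcases sx_ends a1 a2 with k | k
    exacts [k.2, absurd (k.2 ▸ hH) hz]
  rcases key g gA t j1 ht with rfl | rfl <;> rcases key e he w j2 hw with rfl | rfl <;>
    rcases key f hf x j3 hx with rfl | rfl <;>
    first
      | exact same _ _ _ j3 j2 hx
      | exact absurd (same _ _ _ j2 j1 hw) wt
      | exact absurd (same _ _ _ j3 j1 hx) xt

/-- the rerouting when `Q'` has a neighbour on the side `X1` -/
theorem a1_rer_side (h3 : T3n Tm s t u) (hz : G.Tz Nb Tm s H R D)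
    (h' : G.Sx U u H D P' Q' f' g') (tZ : t ∉ insert u (P' ∪ Q')) (hB : B1 ∈ Nb)
    (he : e ∈ G.A) (j2 : G.Je e B1 w) (hw : w ∈ Q')
    (hc : ∀ a ∈ Q', ∀ b ∈ Q', ∃ X F, G.Pw a b X F ∧ X ⊆ Q') (hg : ∃ w ∈ Q', G.Je g' u w)
    (p1 : G.Pw a s X1 F1) (p2 : G.Pw s b X2 F2) (hi : ∀ v ∈ X1, v ∈ X2 → v = s)
    (hH : H = insert B1 (X1 ∪ X2)) (hn : B1 ∉ X1 ∪ X2) (hf : f ∈ G.A) (j3 : G.Je f B1 b)
    (only : ∀ e' ∈ G.A, ∀ x ∈ Q', G.Je e' B1 x → x = w) (hN : ∃ y ∈ X1, G.Nx Q' y) :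
    ∃ H' R', G.Tz Nb Tm s H' R' D ∧ B1 ∈ H' ∧ G.Goo Tm ((H' ∪ D).erase B1) := by
  classical
  have qH : ∀ v ∈ Q', v ∉ H := fun v k m =>
    disjoint_left.1 h'.dQ k (mem_insert_of_mem (mem_union_left _ m))
  have qD : ∀ v ∈ Q', v ∉ D := fun v k m =>
    disjoint_left.1 h'.dQ k (mem_insert_of_mem (mem_union_right _ m))
  have bH : B1 ∈ H := hH ▸ mem_insert_self _ _
  have s1 : ∀ v ∈ X1, v ∈ H := fun v k => hH ▸ mem_insert_of_mem (mem_union_left _ k)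
  have s2 : ∀ v ∈ X2, v ∈ H := fun v k => hH ▸ mem_insert_of_mem (mem_union_right _ k)
  obtain ⟨y0, y1, y2⟩ := hN
  obtain ⟨y, Y1, E1, Y2, E2, hy, -, r2, hX, -, -, -, fst⟩ :=
    p1.first (M := X1.filter fun z => G.Nx Q' z)
      (not_disjoint_iff.2 ⟨y0, y1, mem_filter.2 ⟨y1, y2⟩⟩)
  obtain ⟨k, kA, v, hv, jk⟩ := (mem_filter.1 hy).2
  have s3 : ∀ z ∈ Y2, z ∈ X1 := fun z m => hX ▸ mem_union_right _ m
  have c1 := (r2.cat p2 fun z m m' => hi z (s3 z m) m').1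
  have s4 : ∀ z ∈ Y2 ∪ X2, z ∈ X1 ∪ X2 := fun z m =>
    mem_union.2 ((mem_union.1 m).imp_left (s3 z))
  have s5 : ∀ z ∈ Y2 ∪ X2, z ∈ H := fun z m => hH ▸ mem_insert_of_mem (s4 z m)
  have c2 := (c1.cons kA jk fun m => qH v hv (s5 v m)).1
  obtain ⟨K, FK, pK, sK⟩ := hc w hw v hv
  have c3 := (pK.cat c2 fun z m m' => (mem_insert.1 m').resolve_right fun m'' =>
    qH z (sK m) (s5 z m'')).1
  have mem : ∀ z ∈ K ∪ insert v (Y2 ∪ X2), z ∈ Q' ∨ z ∈ Y2 ∪ X2 := by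
    intro z m
    rcases mem_union.1 m with m | m
    · exact Or.inl (sK m)
    · exact (mem_insert.1 m).imp_left fun k : z = v => k ▸ hv
  have nB : B1 ∉ K ∪ insert v (Y2 ∪ X2) := fun m =>
    (mem _ m).elim (fun k => qH _ k bH) fun k => hn (s4 _ k)
  have ef : e ≠ f := by
    rintro rfl
    rcases sx_ends j2 j3 with k | k
    · exact qH w hw (k.2 ▸ s2 b p2.right)
    · exact qH w hw (k.2 ▸ bH)
  have c4 := (c3.close he hf ef j2 j3 nB).1
  have up : ∀ z ∈ K ∪ insert v (Y2 ∪ X2),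
      z ∈ (insert B1 (K ∪ insert v (Y2 ∪ X2)) ∪ D).erase B1 := fun z m =>
    mem_erase.2 ⟨fun k => nB (k ▸ m), mem_union_left _ (mem_insert_of_mem m)⟩
  have up' : ∀ z ∈ Y2 ∪ X2, z ∈ K ∪ insert v (Y2 ∪ X2) := fun z m =>
    mem_union_right _ (mem_insert_of_mem m)
  refine ⟨_, _, ⟨hz.tm, c4, mem_insert_of_mem (up' s (mem_union_right _ p2.left)),
    Or.inr (not_disjoint_iff.2 ⟨B1, mem_insert_self _ _, hB⟩), hz.ob, disjoint_left.2 ?_⟩,
    mem_insert_self _ _, goo_of h3 (up s (up' s (mem_union_right _ p2.left)))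
      (mem_insert_self u (P' ∪ Q')) tZ ?_⟩
  · intro z m
    rcases mem_insert.1 m with rfl | m
    · exact disjoint_left.1 hz.dj bH
    · exact (mem z m).elim (qD z) fun k => disjoint_left.1 hz.dj (s5 z k)
  · intro e' he' x z hj hx hz'
    rcases a1_rer_out h' he' hj hx hz' with k | ⟨k, k' | ⟨rfl, rfl⟩⟩
    · exact Or.inr (mem_erase.2 ⟨fun m => disjoint_left.1 hz.dj bH (m ▸ k), mem_union_right _ k⟩)
    · rw [hH] at k
      rcases mem_insert.1 k with rfl | k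
      · exact Or.inl (only e' he' x k' hj.symm ▸ up w (mem_union_left _ pK.left))
      · refine Or.inr (up z (up' z ?_))
        rcases mem_union.1 k with k | k
        · rcases mem_union.1 (hX ▸ k : z ∈ Y1 ∪ Y2) with m | m
          · exact fst z m (mem_filter.2 ⟨k, e', he', x, k', hj⟩) ▸ mem_union_left _ r2.left
          · exact mem_union_left _ m
        · exact mem_union_right _ k
    · obtain ⟨w', m1, m2⟩ := hg
      rcases sx_ends hj m2 with m | m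
      · exact absurd k (m.2 ▸ qH w' m1)
      · exact absurd (m.2 ▸ mem_insert_self _ _) hz'

/-- the other outer edge `e` of `B1` goes to the connected part `Q'`.  HINT: `Cw.del` at `B1`, split
the path at `s`.  `Q'` has a neighbour on it (`QG.nov`), not `s`; on a side that has one take the
neighbour `y` nearest to `B1`.  New ring: `B1, e`, a path in `Q'`, `y`, back through `s` to `B1`.
`goo_of` with `Z = insert u (P' ∪ Q')`. -/
theorem a1_rer (hq : G.QG U Nb Tm) (ha : G.Ha Nb Tm) (hd : G.Hdd Nb Tm) (h3 : T3n Tm s t u)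
    (hz : G.Tz Nb Tm s H R D) (h1 : t ∉ H ∪ D) (h2 : u ∉ H ∪ D)
    (h : G.Sx U t H D P Q f g) (h' : G.Sx U u H D P' Q' f' g')
    (hB : B1 ∈ Nb) (hH : B1 ∈ H) (j1 : G.Je g t B1) (he : e ∈ G.A) (j2 : G.Je e B1 w) (hw : w ∈ Q')
    (hc : ∀ a ∈ Q', ∀ b ∈ Q', ∃ X F, G.Pw a b X F ∧ X ⊆ Q') (hg : ∃ w ∈ Q', G.Je g' u w) :
    ∃ H' R', G.Tz Nb Tm s H' R' D ∧ B1 ∈ H' ∧ G.Goo Tm ((H' ∪ D).erase B1) := by
  obtain ⟨-, -, dT⟩ := a1_goo hq ha hd h3 hz h1 h2 h h'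
  have qH : ∀ v ∈ Q', v ∉ H := fun v k m =>
    disjoint_left.1 h'.dQ k (mem_insert_of_mem (mem_union_left _ m))
  have tZ : t ∉ insert u (P' ∪ Q') := fun k =>
    (mem_insert.1 k).elim h3.2.2.2 fun m => disjoint_left.1 dT m h3.mem.2.1
  have gA : g ∈ G.A :=
    (hq.cut1.1 (h.cu ▸ mem_insert_of_mem (mem_singleton_self g) : g ∈ G.cut {t})).1
  have nt : ∀ v ∈ Q', v ≠ t := fun v k m => tZ (mem_insert_of_mem (mem_union_right _ (m ▸ k)))
  have only : ∀ e' ∈ G.A, ∀ x ∈ Q', G.Je e' B1 x → x = w := fun e' he' x hx hj =>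
    a1_rer_only hq hz.cw hB hH gA j1.symm he j2 he' hj (fun k => h1 (mem_union_left _ k))
      (qH w hw) (qH x hx) (nt w hw) (nt x hx)
  obtain ⟨e1, e2, a, b, Y, F', -, k1, k2, pY, nB, eH, eR, -⟩ := hz.cw.del hH
  have sY : s ∈ Y := (mem_insert.1 (eH ▸ hz.sh : s ∈ insert B1 Y)).resolve_left fun k =>
    disjoint_left.1 hq.dj hB (k ▸ hz.tm)
  have a1 : e1 ∈ G.A := hz.cw.sub (eR ▸ mem_insert_self _ _)
  have a2 : e2 ∈ G.A := hz.cw.sub (eR ▸ mem_insert_of_mem (mem_insert_self _ _))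
  obtain ⟨X1, F1, X2, F2, p1, p2, rfl, -, hi, -⟩ := pY.split sY
  have hN : ∃ y ∈ X1 ∪ X2, G.Nx Q' y := by
    by_contra hN
    have : Q' = ∅ := hq.nov (f := g') h'.qu (dT.mono_left subset_union_right) hB
      (fun k => qH _ k hH) fun e' he' x y hj hx hy => (h'.cQ e' he' x y hj hx hy).imp_left fun k =>
        mem_singleton.2 ((mem_insert.1 (eH ▸ k : y ∈ insert B1 (X1 ∪ X2))).resolve_right fun m =>
          hN ⟨y, m, e', he', x, hx, hj⟩)
    exact notMem_empty w (this ▸ hw)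
  obtain ⟨y, y1, y2⟩ := hN
  rcases mem_union.1 y1 with y1 | y1
  · exact a1_rer_side h3 hz h' tZ hB he j2 hw hc hg p1 p2 hi eH nB a2 k2 only ⟨y, y1, y2⟩
  · exact a1_rer_side h3 hz h' tZ hB he j2 hw hc hg p2.symm p1.symm (fun v m m' => hi v m' m)
      (union_comm X1 X2 ▸ eH) (union_comm X1 X2 ▸ nB) a1 k1 only ⟨y, y1, y2⟩

/-- the other outer edge of `B1`: to `u`, or a ring on which `B1` is free.  HINT: `Sx.conn'`,
`QG.q4_cw`, `a1_rer`, or `goo_of` for `H` itself. -/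
theorem a1_free (hq : G.QG U Nb Tm) (ha : G.Ha Nb Tm) (hd : G.Hdd Nb Tm) (h3 : T3n Tm s t u)
    (hz : G.Tz Nb Tm s H R D) (h1 : t ∉ H ∪ D) (h2 : u ∉ H ∪ D)
    (h : G.Sx U t H D P Q f g) (h' : G.Sx U u H D P' Q' f' g')
    (hB : B1 ∈ Nb) (hH : B1 ∈ H) (j1 : G.Je g t B1) : G.Je g' u B1 ∨
      ∃ H' R', G.Tz Nb Tm s H' R' D ∧ B1 ∈ H' ∧ G.Goo Tm ((H' ∪ D).erase B1) := by
  obtain ⟨Q2, -, h2', hc, hg⟩ := h'.conn' fun k => h2 (mem_union_left _ k)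
  by_cases j2 : G.Je g' u B1
  · exact Or.inl j2
  refine Or.inr ?_
  by_cases j3 : ∃ e ∈ G.A, ∃ w ∈ Q2, G.Je e B1 w
  · obtain ⟨e, he, w, hw, j3⟩ := j3
    exact a1_rer hq ha hd h3 hz h1 h2 h h2' hB hH j1 he j3 hw hc (hg w hw)
  obtain ⟨-, -, dT⟩ := a1_goo hq ha hd h3 hz h1 h2 h h2'
  have tZ : t ∉ insert u (P' ∪ Q2) := fun k =>
    (mem_insert.1 k).elim h3.2.2.2 fun m => disjoint_left.1 dT m h3.mem.2.1
  refine ⟨H, R, hz, hH, goo_of h3 (mem_erase.2 ⟨fun k => disjoint_left.1 hq.dj hB (k ▸ hz.tm),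
    mem_union_left _ hz.sh⟩) (mem_insert_self u (P' ∪ Q2)) tZ fun e he x y hj hx hy => Or.inr ?_⟩
  rcases a1_rer_out h2' he hj hx hy with k | ⟨k, k'⟩
  · exact mem_erase.2 ⟨fun m => disjoint_left.1 hz.dj hH (m ▸ k), mem_union_right _ k⟩
  · refine mem_erase.2 ⟨?_, mem_union_left _ k⟩
    rintro rfl
    rcases k' with k' | ⟨rfl, rfl⟩
    exacts [j3 ⟨e, he, x, k', hj.symm⟩, j2 hj]

theorem a1_z2_stay (h : G.Sx U t H D P Q f g) (j1 : G.Je g t B1) (hB : B1 ∈ M) (hD : D ⊆ M)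
    (hv : v ∈ insert t P) (hr : G.Rv M v w) : w ∈ insert t P :=
  hr.stay hv fun e he x y hj hx hy => Or.inr <| by
    rw [mem_insert, not_or] at hy
    rcases mem_insert.1 hx with rfl | hx
    · have := sx_cut he hj hy.1
      rw [h.cu, mem_insert, mem_singleton] at this
      rcases this with rfl | rfl
      · exact hD (h.clo_a he hj (Or.inr ⟨rfl, rfl⟩) hy.1 hy.2)
      · exact s2_diff_je j1 hj ▸ hB
    · exact hD (h.clo_a he hj (Or.inl hx) hy.1 hy.2)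

theorem a1_z2_q4 (hq : G.QG U Nb Tm) (hB : B1 ∈ Nb) (hc : G.Cw H R) (hH : B1 ∈ H) (m1 : g ∈ G.A)
    (m2 : g' ∈ G.A) (j1 : G.Je g t B1) (j2 : G.Je g' u B1) (h1 : t ∉ H) (h2 : u ∉ H)
    (tu : t ≠ u) : ∃ p q, G.Q4 {B1} p q g g' ∧ p ∈ R ∧ q ∈ R := by
  obtain ⟨p, q, a, b, k, hp, hq', -, -⟩ := hq.q4_cw hB hc hH
  have c1 : g ∈ G.cut {B1} := hq.cut1.2 ⟨m1, _, j1.symm⟩
  have c2 : g' ∈ G.cut {B1} := hq.cut1.2 ⟨m2, _, j2.symm⟩
  have n1 : g ∉ R := fun c => h1 (hc.ends c (j1.at_iff.2 (Or.inl rfl)))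
  have n2 : g' ∉ R := fun c => h2 (hc.ends c (j2.at_iff.2 (Or.inl rfl)))
  have n3 : g ≠ g' := fun c => tu (s2_diff_je j1.symm (c ▸ j2.symm))
  simp only [k.1, mem_insert, mem_singleton] at c1 c2
  refine ⟨p, q, ?_, hp, hq'⟩
  rcases c1 with rfl | rfl | rfl | rfl
  · exact absurd hp n1
  · exact absurd hq' n1
  all_goals rcases c2 with rfl | rfl | rfl | rfl
  exacts [absurd hp n2, absurd hq' n2, absurd rfl n3, k, absurd hp n2, absurd hq' n2, k.swap2,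
    absurd rfl n3]

theorem a1_z2_core (hq : G.QG U Nb Tm) (ha : G.Ha Nb Tm) (hd : G.Hdd Nb Tm) (h3 : T3n Tm s t u)
    (hz : G.Tz Nb Tm s H R D) (h1 : t ∉ H ∪ D) (h2 : u ∉ H ∪ D)
    (h : G.Sx U t H D P Q f g) (h' : G.Sx U u H D P' Q' f' g')
    (hB : B1 ∈ Nb) (hH : B1 ∈ H) (j1 : G.Je g t B1) (j2 : G.Je g' u B1) :
    G.Goo Tm (insert B1 D) ∧ G.Ofr Nb (insert B1 D) ∧
      (∃ p q, G.Q4 {B1} p q g g' ∧ p ∈ R ∧ q ∈ R) ∧
      ∀ ε, ∃ X F, G.Mr Tm g g' X F ∧ (G.par F = ε ∨ ∃ B ∈ Nb, D = {B}) := by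
  obtain ⟨-, d1, d2⟩ := a1_goo hq ha hd h3 hz h1 h2 h h'
  obtain ⟨ms, mt, mu, all⟩ := h3.mem
  have tu := h3.2.2.2
  have tH : t ∉ H := fun c => h1 (mem_union_left _ c)
  have uH : u ∉ H := fun c => h2 (mem_union_left _ c)
  have m1 := s2_false_mem hq h.symm
  have m2 := s2_false_mem hq h'.symm
  have s1 := fun v w => a1_z2_stay (v := v) (w := w) h j1 (mem_insert_self B1 D) (subset_insert _ _)
  have s2 := fun v w => a1_z2_stay (v := v) (w := w) h' j2 (mem_insert_self B1 D)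
    (subset_insert _ _)
  have t1 : ∀ v ∈ Tm, G.Rv (insert B1 D) t v → t = v := fun v hv r =>
    ((mem_insert.1 (s1 t v (mem_insert_self _ _) r)).resolve_right fun c =>
      disjoint_left.1 d1 (mem_union_left _ c) hv).symm
  have t2 : ∀ v ∈ Tm, G.Rv (insert B1 D) u v → u = v := fun v hv r =>
    ((mem_insert.1 (s2 u v (mem_insert_self _ _) r)).resolve_right fun c =>
      disjoint_left.1 d2 (mem_union_left _ c) hv).symm
  have lk : ∀ ε, ∃ X F, G.Mr Tm g g' X F ∧ (G.par F = ε ∨ ∃ B ∈ Nb, D = {B}) ∧ t ∈ X ∧ u ∈ X ∧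
      B1 ∈ X ∧ ∀ v ∈ X, v ∈ insert B1 D ∨ v ∈ insert t P ∨ v ∈ insert u P' := by
    intro ε
    obtain ⟨X3, F3, ea, k1, -, -, k2, k3, -, k4⟩ := link hq mt mu tu hz.dj
      ⟨B1, mem_inter.2 ⟨hH, hq.nb hB⟩⟩ hz.ob h h' h1 h2
      (pw_edge m1 j1 fun c => tH (c ▸ hH)) (mem_singleton_self _) hH (by simp)
      (pw_edge m2 j2 fun c => uH (c ▸ hH)) (mem_singleton_self _) hH (by simp) (ε - G.par {g})
    refine ⟨_, _, ⟨(ea.cw tH).1, ⟨t, mt, u, mu, tu, by simp, by simp [k1]⟩, by simp,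
      mem_union_right _ (k2 (mem_singleton_self _))⟩, k4.imp (fun c => ?_)
        fun ⟨B, c1, c2, _⟩ => ⟨B, c1, c2⟩, by simp, by simp [k1], by simp, fun v hv => ?_⟩
    · have : G.par ({g} ∪ F3) = G.par {g} + G.par F3 := sum_union ea.dF
      rw [this, c.1, add_sub_cancel]
    · have := @k3 v
      simp only [mem_union, mem_insert, mem_singleton] at hv this ⊢
      (clear * - hv k4 this; grind)
  refine ⟨fun a ma b mb _ _ r => ?_, fun D' o dd => ?_,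
    a1_z2_q4 hq hB hz.cw hH m1 m2 j1 j2 tH uH tu, fun ε => ?_⟩
  · rcases all a ma with rfl | rfl | rfl
    · rcases all b mb with rfl | rfl | rfl
      exacts [rfl, (t1 _ ma r.symm).symm, (t2 _ ma r.symm).symm]
    exacts [t1 _ mb r, t2 _ mb r]
  · obtain ⟨X, F, ⟨cw, -⟩, -, k1, k2, k3, k4⟩ := lk 0
    obtain ⟨v, v1, v2⟩ := not_disjoint_iff.1 (ha X ⟨F, cw, Or.inr (not_disjoint_iff.2 ⟨_, k3, hB⟩)⟩
      t mt u mu tu k1 k2 D' o)
    obtain ⟨w, w1, w2⟩ := not_disjoint_iff.1 (tz_of hd hz D' o)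
    have r := o.rv dd v2 w1
    rcases k4 v v1 with c | c | c
    · exact disjoint_left.1 dd v2 c
    · rcases mem_insert.1 (s1 _ _ c r) with rfl | c
      exacts [h1 w2, disjoint_left.1 h.dP c (mem_insert_of_mem w2)]
    · rcases mem_insert.1 (s2 _ _ c r) with rfl | c
      exacts [h2 w2, disjoint_left.1 h'.dP c (mem_insert_of_mem w2)]
  · obtain ⟨X, F, k1, k2, -⟩ := lk ε
    exact ⟨X, F, k1, k2⟩

/-- HINT: `Sx.nil`, `link` with `z = z' = B1`, `Ea.cw`.  An object off `insert B1 D` that meets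
`P` or `P'` lies in it, against `tz_of`; so it misses that ring. -/
theorem a1_z2 (hq : G.QG U Nb Tm) (ha : G.Ha Nb Tm) (hd : G.Hdd Nb Tm) (h3 : T3n Tm s t u)
    (hz : G.Tz Nb Tm s H R D) (h1 : t ∉ H ∪ D) (h2 : u ∉ H ∪ D)
    (h : G.Sx U t H D P Q f g) (h' : G.Sx U u H D P' Q' f' g')
    (hB : Nb = {B1}) (hH : B1 ∈ H) (j1 : G.Je g t B1) (j2 : G.Je g' u B1) : G.Z2 Nb Tm := by
  have m : B1 ∈ Nb := hB ▸ mem_singleton_self _
  obtain ⟨k1, k2, ⟨p, q, k3, k4, k5⟩, k6⟩ := a1_z2_core hq ha hd h3 hz h1 h2 h h' m hH j1 j2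
  have nb : ¬ ∃ B ∈ Nb, D = {B} := fun ⟨B, c1, c2⟩ => disjoint_left.1 hz.dj hH
    (by rw [c2, mem_singleton]; exact (mem_singleton.1 (hB ▸ c1)).symm)
  obtain ⟨F, o1, o2, -⟩ := hz.ob.resolve_left nb
  refine ⟨B1, p, q, g, g', H, R, D, hB, k3, hz.cw, k4, k5, ⟨F, o1, o2⟩, hz.dj,
    (a1_goo hq ha hd h3 hz h1 h2 h h').1, tz_of hd hz, fun ε => ?_, k1, k2⟩
  obtain ⟨X, F, c1, c2⟩ := k6 ε
  exact ⟨X, F, c1, Or.inl (c2.resolve_right nb)⟩

theorem a1_z6_path {p q : E} (hq : G.QG U Nb Tm) (h3 : T3n Tm s t u) (hz : G.Tz Nb Tm s H R {B})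
    (h1 : t ∉ H ∪ {B}) (h2 : u ∉ H ∪ {B}) (h : G.Sx U t H {B} ∅ Q f g)
    (h' : G.Sx U u H {B} ∅ Q' f' g') (hB : B ∈ Nb) (hH : B1 ∈ H) (j1 : G.Je g t B1)
    (j2 : G.Je g' u B1) (i1 : G.Je f t B) (i2 : G.Je f' u B) (k : G.Q4 {B1} p q g g') (hp : p ∈ R)
    (hq' : q ∈ R) (he : e ∈ G.A) (hj : G.Je e B w) (n1 : f ≠ e) (n2 : f' ≠ e) :
    G.Mo Tm f e ∧ G.Mo Tm f' e ∧ w ∉ ({B1, B} : Finset V) ∧
      ∃ z ∈ H, z ≠ B1 ∧ G.Rv {B1, B} w z := by
  obtain ⟨ms, mt, mu, all⟩ := h3.mem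
  simp only [mem_union, mem_singleton, not_or] at h1 h2
  have BH : B ∉ H := fun c => disjoint_left.1 hz.dj c (mem_singleton_self _)
  have BB : B ≠ B1 := fun c => BH (c ▸ hH)
  have wB : w ≠ B := (hq.je he hj).2.2.symm
  have ex : ∀ e ∈ G.A, ∀ v, G.Je e v B1 → v ∈ H ∨ v = t ∨ v = u := by
    intro e he v hj
    have c := hq.cut1.2 ⟨he, _, hj.symm⟩
    simp only [k.1, mem_insert, mem_singleton] at c
    rcases c with rfl | rfl | rfl | rfl
    exacts [Or.inl (hz.cw.ends hp (hj.at_iff.2 (Or.inl rfl))),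
      Or.inl (hz.cw.ends hq' (hj.at_iff.2 (Or.inl rfl))),
      Or.inr (Or.inl (s2_diff_je hj.symm j1.symm)), Or.inr (Or.inr (s2_diff_je hj.symm j2.symm))]
  have nt : ∀ {t Q f g}, G.Sx U t H {B} ∅ Q f g → G.Je g t B1 → f ≠ e →
      ¬ G.Rv (insert B H) w t := by
    intro t Q f g h j1 n1 r
    have c := a1_z2_stay h j1 (mem_insert_of_mem hH) (by simp) (mem_insert_self _ _) r.symm
    obtain rfl : w = t := by simpa using c
    have c := sx_cut he hj.symm wB.symm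
    rw [h.cu, mem_insert, mem_singleton] at c
    rcases c with rfl | rfl
    exacts [n1 rfl, BB (s2_diff_je hj.symm j1)]
  have hT : w ∉ H → ∀ v ∈ Tm, ¬ G.Rv (insert B H) w v := fun wH v hv r => by
    rcases all v hv with rfl | rfl | rfl
    exacts [r.not_mem (by simp [wB, wH]) (mem_insert_of_mem hz.sh), nt h j1 n1 r, nt h' j2 n2 r]
  have w1 : w ≠ B1 := by
    rintro rfl
    rcases ex e he B hj with c | c | c
    exacts [BH c, h1.2 c.symm, h2.2 c.symm]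
  obtain c | ⟨z, zH, zB, X, F, pw, eF, o1, o2⟩ := box_path (Z := {B1}) (g := e) hq hB BH he hj hT
    fun e' he' v z hz wH r hj' => by
      rcases ex e' he' v (mem_singleton.1 hz ▸ hj') with c | rfl | rfl
      exacts [absurd (mem_insert_of_mem c) (r.not_mem (by simp [wB, wH])),
        absurd r (hT wH _ mt), absurd r (hT wH _ mu)]
  · exact absurd (mem_singleton.1 c) w1
  rw [mem_singleton] at zB
  obtain ⟨Y1, R1, Y2, R2, a1, -, eH, -, -, -, -, sY⟩ := hz.cw.arcs zH hH zB hz.sh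
  have sub : Y1 ⊆ H := eH ▸ subset_union_left
  obtain ⟨pp, -⟩ := pw.cat a1 fun v c1 c2 => o1 v c1 (sub c2)
  have mo : ∀ {t Q f g}, G.Sx U t H {B} ∅ Q f g → G.Je g t B1 → G.Je f t B → t ∈ Tm → t ∉ H →
      t ≠ B → G.Mo Tm f e := by
    intro t Q f g h j1 i1 mt tH tB
    refine ⟨_, _, (pp.close (s2_false_mem hq h) (s2_false_mem hq h.symm) h.ne i1 j1 fun c => ?_).1,
      ⟨t, mt, s, ms, fun c => tH (c ▸ hz.sh), by simp, by simp [sY]⟩, by simp, by simp [eF]⟩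
    rcases mem_union.1 c with c | c
    · rcases o2 t c with c | c | c
      exacts [tB c, tH (c ▸ zH), hT c.1 t mt c.2]
    · exact tH (sub c)
  refine ⟨mo h j1 i1 mt h1.1 h1.2, mo h' j2 i2 mu h2.1 h2.2, by simp [w1, wB], z, zH, zB, ?_⟩
  obtain ⟨e', w', Y, F', -, j', p', bY, eX, -, -, un⟩ := pw.head fun c => BH (c ▸ zH)
  obtain rfl := un e eF (hj.at_iff.2 (Or.inl rfl))
  obtain rfl := s2_diff_je hj j'
  refine p'.rv (disjoint_left.2 fun v hv c => ?_) p'.left p'.right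
  rcases mem_insert.1 c with rfl | c
  · exact zB (o1 _ (eX ▸ mem_insert_of_mem hv) hH).symm
  · exact bY (mem_singleton.1 c ▸ hv)

/-- HINT: `Sx.box` gives the edges `f, f'` to `B`.  `box_path` with `Z = {B1}` for the other two
edges of `B`; `H \ {B1}` is connected (`Cw.del`); `ring4`; `ea_of`, `Ea.ring`. -/
theorem a1_z6 (hq : G.QG U Nb Tm) (ha : G.Ha Nb Tm) (hd : G.Hdd Nb Tm) (h3 : T3n Tm s t u)
    (hz : G.Tz Nb Tm s H R {B}) (h1 : t ∉ H ∪ {B}) (h2 : u ∉ H ∪ {B})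
    (h : G.Sx U t H {B} P Q f g) (h' : G.Sx U u H {B} P' Q' f' g')
    (hB : Nb = {B1, B}) (hH : B1 ∈ H) (j1 : G.Je g t B1) (j2 : G.Je g' u B1) : G.Z6 Nb Tm := by
  have m1 : B1 ∈ Nb := hB ▸ mem_insert_self _ _
  have m2 : B ∈ Nb := hB ▸ mem_insert_of_mem (mem_singleton_self _)
  obtain ⟨k1, k2, ⟨p, q, k3, k4, k5⟩, -⟩ := a1_z2_core hq ha hd h3 hz h1 h2 h h' m1 hH j1 j2
  obtain ⟨go, d1, d2⟩ := a1_goo hq ha hd h3 hz h1 h2 h h'
  obtain ⟨rfl, i1⟩ := h.box hq m2 (d1.mono_left subset_union_left)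
  obtain ⟨rfl, i2⟩ := h'.box hq m2 (d2.mono_left subset_union_left)
  have BH : B ∉ H := fun c => disjoint_left.1 hz.dj c (mem_singleton_self _)
  have BB : B1 ≠ B := fun c => BH (c ▸ hH)
  obtain ⟨c, d, k6⟩ := hq.q4 m2 (hq.cut1.2 ⟨s2_false_mem hq h, _, i1.symm⟩)
    (hq.cut1.2 ⟨s2_false_mem hq h', _, i2.symm⟩)
    fun c => h3.2.2.2 (s2_diff_je i1.symm (c ▸ i2.symm))
  obtain ⟨mc, wc, jc⟩ := hq.cut1.1 k6.mem.2.2.1
  obtain ⟨md, wd, jd⟩ := hq.cut1.1 k6.mem.2.2.2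
  obtain ⟨c1, c2, c3, zc, c4, c5, c6⟩ := a1_z6_path hq h3 hz h1 h2 h h' m2 hH j1 j2 i1 i2 k3 k4 k5
    mc jc k6.2.2.1 k6.2.2.2.2.1
  obtain ⟨e1, e2, -, zd, e4, e5, e6⟩ := a1_z6_path hq h3 hz h1 h2 h h' m2 hH j1 j2 i1 i2 k3 k4 k5
    md jd k6.2.2.2.1 k6.2.2.2.2.2.1
  obtain ⟨_, _, _, _, Y, F, -, -, -, pY, bY, eH, -⟩ := hz.cw.del hH
  have r : G.Rv {B1, B} zc zd := by
    refine pY.rv (disjoint_left.2 fun v hv c => ?_) ((mem_insert.1 (eH ▸ c4)).resolve_left c5)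
      ((mem_insert.1 (eH ▸ e4)).resolve_left e5)
    rcases mem_insert.1 c with rfl | c
    · exact bY hv
    · exact BH (eH ▸ mem_insert_of_mem (mem_singleton.1 c ▸ hv))
  obtain ⟨X, F2, pX, dX, -⟩ := ((c6.trans r).trans e6.symm).pw c3
  have cw := (pX.close mc md k6.2.2.2.2.2.2 jc jd fun c => disjoint_left.1 dX c (by simp)).1
  refine ⟨B, B1, t, u, f, f', c, d, p, q, g, g', H, R, _, _, hB, BB, h3.mem.2.1, h3.mem.2.2.1,
    h3.2.2.2, k6, k3, i1, j1, i2, j2, hz.cw, k4, k5, BH, go.mono (by simp [union_comm]), cw,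
    by simp, by simp, fun c => ?_, k1.mono (by simp [insert_subset_iff]), hB ▸ k1, hB ▸ k2, c1, e1,
    c2, e2⟩
  rcases mem_insert.1 c with c | c
  exacts [BB c, disjoint_left.1 dX c (by simp)]

/-- an ear closes with a path inside `H` -/
theorem a1_fin_arc (h : G.Ea v H L x y X1 X2 F1 F2) (hv : v ∉ H) (hxy : x ≠ y)
    (hp : G.Pw x y Y R) (hY : Y ⊆ H) : G.Cw (X1 ∪ X2 ∪ Y) (F1 ∪ F2 ∪ R) := by
  obtain ⟨p, -, hi⟩ := h.pw hxy
  have hi' : ∀ w ∈ X1 ∪ X2, w ∈ Y → w = x ∨ w = y := fun w hw h1 => hi w hw (hY h1)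
  exact (cw_of_two p hp hxy hi' (p.dj2 hp hi' (mem_union_left _ h.p1.left)
    (fun e => hv (e ▸ h.m1)) fun e => hv (e ▸ h.m2))).1

/-- an ear through a terminal closes with the arc through `s` -/
theorem a1_fin_mo (hH : G.Cw H R) (hs : s ∈ Tm) (sH : s ∈ H) (ht : t ∈ Tm) (tH : t ∉ H)
    (h : G.Ea v H L x y X1 X2 F1 F2) (hv : v ∉ H) (hxy : x ≠ y) (h1 : t ∈ X1) (he : e ∈ F1)
    (hf : f ∈ F2) : G.Mo Tm e f := by
  obtain ⟨Y1, R1, Y2, R2, p1, -, hY, -, -, -, -, s1⟩ := hH.arcs h.m1 h.m2 hxy sH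
  exact ⟨_, _, a1_fin_arc h hv hxy p1 (hY ▸ subset_union_left),
    ⟨s, hs, t, ht, fun e => tH (e ▸ sH), mem_union_right _ s1,
      mem_union_left _ (mem_union_left _ h1)⟩,
    mem_union_left _ (mem_union_left _ he), mem_union_left _ (mem_union_right _ hf)⟩

/-- only the edge `f` of the box leads to the component of `t` -/
theorem a1_fin_nt {k : E} (hq : G.QG U Nb Tm) (h : G.Sx U t H {B} ∅ Q f g) (hB : B ∉ H)
    (h1 : t ∉ H ∪ {B}) (he : k ∈ G.A) (hj : G.Je k B w) (hk : k ≠ f) :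
    ¬ G.Rv (insert B H) t w := by
  intro hr
  have tB : t ≠ B := fun e => h1 (mem_union_right _ (mem_singleton.2 e))
  have BQ : B ∉ Q := fun h2 => disjoint_left.1 h.dQ h2
    (mem_insert_of_mem (mem_union_right _ (mem_singleton_self _)))
  have hw : w ∈ insert t (∅ ∪ Q) := hr.stay (mem_insert_self _ _) fun e he x y hj hx hy => by
    rcases h.clo e he x y hj hx hy with h2 | h2
    · right
      rcases mem_union.1 h2 with h2 | h2
      · exact mem_insert_of_mem h2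
      · exact mem_insert.2 (Or.inl (mem_singleton.1 h2))
    · exact absurd h2 (notMem_empty _)
  rw [empty_union] at hw
  obtain ⟨w', j, hw'⟩ := h.eQ
  rcases mem_insert.1 hw with rfl | hw
  · have h2 : k ∈ ({f, g} : Finset E) := h.cu ▸ hq.cut1.2 ⟨he, B, hj.symm⟩
    rcases mem_insert.1 h2 with h2 | h2
    · exact hk h2
    · rw [mem_singleton.1 h2] at hj
      rw [s2_diff_je j hj.symm] at hw'
      exact hw'.elim BQ hB
  · rcases h.cQ k he w B hj.symm hw BQ with h2 | h2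
    · exact hB h2
    · rw [mem_singleton.1 h2] at hj
      rcases s2_diff_end j hj with e | e
      · exact tB e
      · exact disjoint_left.1 h.dQ hw (e ▸ mem_insert_self _ _)

/-- HINT: `a = f`, `b = f'`.  The path from `u` along `g'` ends in `z ≠ B1` (by `hg`).  `box_path`
with `Z = {B1}` for `c` and `d` (their components have no terminal; only the other outer edge of
`B1` can reach them).  Both end off `B1`: `Z4`.  Else say `c` joins `B` and `B1`: `Z5` with `X3` the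
ring of the ear `c`, path of `d` with the arc through `s` (replace `c` by `a, t, g` for `Ofr`), and
`X4` the ring of the paths of `b` and `d` with the arc that misses `B1`. -/
theorem a1_fin (hq : G.QG U Nb Tm) (ha : G.Ha Nb Tm) (hd : G.Hdd Nb Tm) (h3 : T3n Tm s t u)
    (hz : G.Tz Nb Tm s H R {B}) (h1 : t ∉ H ∪ {B}) (h2 : u ∉ H ∪ {B})
    (h : G.Sx U t H {B} P Q f g) (h' : G.Sx U u H {B} P' Q' f' g')
    (hB : Nb = {B1, B}) (hH : B1 ∈ H) (j1 : G.Je g t B1)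
    (hg : G.Goo Tm ((H ∪ {B}).erase B1)) : G.Z4 Nb Tm ∨ G.Z5 Nb Tm := by
  obtain ⟨hgo, hT, hT'⟩ := a1_goo hq ha hd h3 hz h1 h2 h h'
  obtain ⟨hs, ht, hu, hTm⟩ := h3.mem
  have b0 : B ∈ Nb := hB ▸ mem_insert_of_mem (mem_singleton_self _)
  have b1 : B1 ∈ Nb := hB ▸ mem_insert_self _ _
  have BH : B ∉ H := fun h4 => disjoint_left.1 hz.dj h4 (mem_singleton_self _)
  have bb : B1 ≠ B := fun e => BH (e ▸ hH)
  have tH : t ∉ H := fun h4 => h1 (mem_union_left _ h4)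
  have uH : u ∉ H := fun h4 => h2 (mem_union_left _ h4)
  have tB : t ≠ B := fun e => h1 (mem_union_right _ (mem_singleton.2 e))
  have uB : u ≠ B := fun e => h2 (mem_union_right _ (mem_singleton.2 e))
  have tu : t ≠ u := h3.2.2.2
  have eH : H ∪ {B} = insert B H := by rw [union_comm, insert_eq]
  have pl : ∀ z ∈ H, z ≠ B1 → z ∉ Nb := fun z hz' hne h4 => by
    rw [hB] at h4
    rcases mem_insert.1 h4 with h4 | h4
    · exact hne h4
    · exact BH (mem_singleton.1 h4 ▸ hz')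
  obtain ⟨rfl, jf⟩ := h.box hq b0 (hT.mono_left subset_union_left)
  obtain ⟨rfl, jf'⟩ := h'.box hq b0 (hT'.mono_left subset_union_left)
  have fA := s2_false_mem hq h
  have gA := s2_false_mem hq h.symm
  have fA' := s2_false_mem hq h'
  have gA' := s2_false_mem hq h'.symm
  have ff : f ≠ f' := fun e => tu (s2_diff_je jf.symm (e ▸ jf'.symm))
  obtain ⟨c, d, q4⟩ := hq.q4 b0 (hq.cut1.2 ⟨fA, t, jf.symm⟩) (hq.cut1.2 ⟨fA', u, jf'.symm⟩) ff
  have offR : ∀ e v, G.Je e v B1 → v ∉ H → e ∉ R := fun e v j hv he =>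
    hv (hz.cw.ends he (j.at_iff.2 (Or.inl rfl)))
  obtain ⟨p, q, k, q1, pR, qR, kR⟩ : ∃ p q k, G.Q4 {B1} p q g k ∧ p ∈ R ∧ q ∈ R ∧ k ∉ R := by
    obtain ⟨p, q, g0, k0, q1, pR, qR, gR, kR⟩ := hq.q4_cw b1 hz.cw hH
    have h4 : g ∈ ({p, q, g0, k0} : Finset E) := q1.1 ▸ hq.cut1.2 ⟨gA, t, j1.symm⟩
    have h5 := offR g t j1 tH
    simp only [mem_insert, mem_singleton] at h4
    rcases h4 with rfl | rfl | rfl | rfl
    · exact absurd pR h5
    · exact absurd qR h5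
    · exact ⟨p, q, k0, q1, pR, qR, kR⟩
    · exact ⟨p, q, g0, q1.swap2, pR, qR, gR⟩
  have out1 : ∀ e ∈ G.A, ∀ v, G.Je e v B1 → v ∉ H → v ≠ t → e = k := fun e he v j hv hne => by
    have h4 : e ∈ ({p, q, g, k} : Finset E) := q1.1 ▸ hq.cut1.2 ⟨he, v, j.symm⟩
    have h5 := offR e v j hv
    simp only [mem_insert, mem_singleton] at h4
    rcases h4 with rfl | rfl | rfl | rfl
    · exact absurd pR h5
    · exact absurd qR h5
    · exact absurd (s2_diff_je j.symm j1.symm) hne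
    · rfl
  have tM : t ∉ insert B H := eH ▸ h1
  have uM : u ∉ insert B H := eH ▸ h2
  -- the path along `f`
  obtain ⟨pa, -⟩ := (pw_edge gA j1 fun e => tH (e ▸ hH)).cons fA jf.symm (by
    simp only [mem_insert, mem_singleton, not_or]
    exact ⟨tB.symm, bb.symm⟩)
  have oa : ∀ v ∈ (insert B {t, B1} : Finset V), v ∈ H → v = B1 := fun v hv h4 => by
    simp only [mem_insert, mem_singleton] at hv
    rcases hv with rfl | rfl | rfl
    · exact absurd h4 BH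
    · exact absurd h4 tH
    · rfl
  have ra : ∀ v ∈ (insert B {t, B1} : Finset V), v = B ∨ v ∈ H ∨ G.Rv (insert B H) t v :=
    fun v hv => by
      simp only [mem_insert, mem_singleton] at hv
      rcases hv with rfl | rfl | rfl
      · exact Or.inl rfl
      · exact Or.inr (Or.inr (Rv.refl _ _))
      · exact Or.inr (Or.inl hH)
  have ta : t ∈ (insert B {t, B1} : Finset V) := mem_insert_of_mem (mem_insert_self _ _)
  have fa : f ∈ (insert f {g} : Finset E) := mem_insert_self _ _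
  -- the path along `f'`
  obtain ⟨z, zH, zB, Xb, Fb, pb, fb, ub, ob, rb⟩ : ∃ z ∈ H, z ≠ B1 ∧ ∃ X F, G.Pw B z X F ∧
      f' ∈ F ∧ u ∈ X ∧ (∀ v ∈ X, v ∈ H → v = z) ∧
      ∀ v ∈ X, v = B ∨ v ∈ H ∨ G.Rv (insert B H) u v := by
    rcases h'.pw_ne hq uH b1 hH (hT'.mono_left subset_union_right) with
      j2 | ⟨z, zH, zB, X, F, p0, -, o0⟩
    · have n1 : t ∉ (H ∪ {B}).erase B1 := fun h4 => h1 (mem_of_mem_erase h4)
      have n2 : u ∉ (H ∪ {B}).erase B1 := fun h4 => h2 (mem_of_mem_erase h4)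
      exact absurd (hg t ht u hu n1 n2 ((rv_edge gA j1 n1 (notMem_erase _ _)).trans
        (rv_edge gA' j2 n2 (notMem_erase _ _)).symm)) tu
    · have o1 : ∀ v ∈ X, v ∈ insert B H → v = z := fun v hv h4 => by
        rcases o0 v hv with e | h5 | e
        · exact absurd (e ▸ h4) uM
        · exact absurd (mem_insert_of_mem (eH ▸ h4)) (disjoint_left.1 h'.dQ h5)
        · exact e
      refine ⟨z, zH, zB, _, _, (p0.cons fA' jf'.symm fun h4 =>
        BH (o1 B h4 (mem_insert_self _ _) ▸ zH)).1, mem_insert_self _ _,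
        mem_insert_of_mem p0.left, fun v hv h4 => ?_, fun v hv => ?_⟩
      · rcases mem_insert.1 hv with e | hv
        · exact absurd (e ▸ h4) BH
        · exact o1 v hv (mem_insert_of_mem h4)
      · rcases mem_insert.1 hv with e | hv
        · exact Or.inl e
        by_cases e : v = z
        · exact Or.inr (Or.inl (e ▸ zH))
        obtain ⟨u', hu', -, r⟩ := mem_rc.1 (d3_end_rc (S := {u}) p0 o1
          (mem_rc.2 ⟨u, mem_singleton_self _, uM, Rv.refl _ _⟩) hv e)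
        exact Or.inr (Or.inr (mem_singleton.1 hu' ▸ r))
  -- the other two edges of `B`
  have key : ∀ e ∈ G.cut {B}, e ≠ f → e ≠ f' → (G.Je e B B1 ∧ e = k) ∨
      ∃ z ∈ H, z ≠ B1 ∧ ∃ X F, G.Pw B z X F ∧ e ∈ F ∧ (∀ v ∈ X, v ∈ H → v = z) ∧
        ∀ v ∈ X, v = B ∨ v ∈ H ∨ (¬ G.Rv (insert B H) t v ∧ ¬ G.Rv (insert B H) u v) := by
    intro e he e1 e2
    obtain ⟨eA, w, j⟩ := hq.cut1.1 he
    have n1 := a1_fin_nt hq h BH h1 eA j e1
    have n2 := a1_fin_nt hq h' BH h2 eA j e2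
    have wM : w ∉ H → w ∉ insert B H := fun hw h4 =>
      (mem_insert.1 h4).elim (fun e => (hq.je eA j).2.2 e.symm) hw
    rcases box_path (Z := {B1}) (g := k) hq b0 BH eA j (fun hw v hv r => by
        rcases hTm v hv with rfl | rfl | rfl
        · exact r.not_mem (wM hw) (mem_insert_of_mem hz.sh)
        · exact n1 r.symm
        · exact n2 r.symm)
      (fun e' he' v z hz' hw r j' => by
        rw [mem_singleton.1 hz'] at j'
        exact out1 e' he' v j' (fun h4 => r.not_mem (wM hw) (mem_insert_of_mem h4))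
          fun e => n1 (e ▸ r.symm)) with h4 | ⟨z, zH, zB, X, F, p0, eF, o0, r0⟩
    · rw [mem_singleton.1 h4] at j
      exact Or.inl ⟨j, out1 e eA B j BH tB.symm⟩
    · refine Or.inr ⟨z, zH, fun e => zB (mem_singleton.2 e), X, F, p0, eF, o0, fun v hv => ?_⟩
      rcases r0 v hv with e | e | ⟨-, r⟩
      · exact Or.inl e
      · exact Or.inr (Or.inl (e ▸ zH))
      · exact Or.inr (Or.inr ⟨fun r' => n1 (r'.trans r.symm), fun r' => n2 (r'.trans r.symm)⟩)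
  have atB : ∀ e ∈ G.cut {B}, G.At e B := fun e he => by
    obtain ⟨-, w, j⟩ := hq.cut1.1 he
    exact j.at_iff.2 (Or.inl rfl)
  have af : G.At f B := atB f q4.mem.1
  have af' : G.At f' B := atB f' q4.mem.2.1
  have mab : G.Mo Tm f f' := a1_fin_mo hz.cw hs hz.sh ht tH
    (ea_of BH pa pb hH zH oa ob (fun v h4 h5 => by
      rcases ra v h4 with e | e | r
      · exact Or.inl e
      · exact Or.inr e
      rcases rb v h5 with e | e | r'
      · exact Or.inl e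
      · exact Or.inr e
      · exact absurd (hgo t ht u hu h1 h2 (eH ▸ r.trans r'.symm)) tu) fa fb ff af af')
    BH zB.symm ta fa fb
  have ears : ∀ e ∈ G.cut {B}, e ≠ f → e ≠ f' → ∀ z' ∈ H, ∀ X F, G.Pw B z' X F → e ∈ F →
      (∀ v ∈ X, v ∈ H → v = z') →
      (∀ v ∈ X, v = B ∨ v ∈ H ∨ (¬ G.Rv (insert B H) t v ∧ ¬ G.Rv (insert B H) u v)) →
      G.Ea B H ∅ B1 z' (insert B {t, B1}) X (insert f {g}) F ∧ G.Ea B H ∅ z z' Xb X Fb F := by
    intro e he e1 e2 z' zH' X F p0 eF o0 r0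
    refine ⟨ea_of BH pa p0 hH zH' oa o0 (fun v h4 h5 => ?_) fa eF e1.symm af (atB e he),
      ea_of BH pb p0 zH zH' ob o0 (fun v h4 h5 => ?_) fb eF e2.symm af' (atB e he)⟩
    · rcases ra v h4 with e | e | r
      · exact Or.inl e
      · exact Or.inr e
      · exact (r0 v h5).imp_right fun h6 => h6.resolve_right fun h7 => h7.1 r
    · rcases rb v h4 with e | e | r
      · exact Or.inl e
      · exact Or.inr e
      · exact (r0 v h5).imp_right fun h6 => h6.resolve_right fun h7 => h7.2 r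
  have ofr : G.Ofr Nb (insert B H) := eH ▸ tz_of hd hz
  have goo : G.Goo Tm ((insert B H).erase B1) := eH ▸ hg
  have nt : ∀ e ∈ G.A, ∀ y, G.Je e t y → y = B ∨ y = B1 := fun e he y j => by
    have h4 : e ∈ ({f, g} : Finset E) := h.cu ▸ hq.cut1.2 ⟨he, y, j⟩
    rcases mem_insert.1 h4 with h4 | h4
    · exact Or.inl (s2_diff_je (h4 ▸ j) jf)
    · exact Or.inr (s2_diff_je (mem_singleton.1 h4 ▸ j) j1)
  have z5 : ∀ d, G.Q4 {B} f f' k d → G.Je k B B1 → ∀ z' ∈ H, z' ≠ B1 → ∀ X F, G.Pw B z' X F →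
      d ∈ F → (∀ v ∈ X, v ∈ H → v = z') →
      (∀ v ∈ X, v = B ∨ v ∈ H ∨ (¬ G.Rv (insert B H) t v ∧ ¬ G.Rv (insert B H) u v)) →
      G.Z5 Nb Tm := by
    intro d q4 jk z' zH' zB' X F p0 dF o0 r0
    obtain ⟨ead, ebd⟩ := ears d q4.mem.2.2.2 q4.2.2.2.1.symm q4.2.2.2.2.2.1.symm z' zH' X F p0 dF
      o0 r0
    have kA : k ∈ G.A := (hq.cut1.1 q4.mem.2.2.1).1
    have pc := pw_edge kA jk bb.symm
    have oc : ∀ v ∈ ({B, B1} : Finset V), v ∈ H → v = B1 := fun v hv h4 =>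
      (mem_insert.1 hv).elim (fun e => absurd (e ▸ h4) BH) mem_singleton.1
    have rc : ∀ v ∈ ({B, B1} : Finset V), v = B ∨ v ∈ H := fun v hv =>
      (mem_insert.1 hv).imp_right fun e => by rwa [mem_singleton.1 e]
    have kc : k ∈ ({k} : Finset E) := mem_singleton_self _
    have ak : G.At k B := atB k q4.mem.2.2.1
    have ecd := ea_of BH pc p0 hH zH' oc o0 (fun v h4 _ => rc v h4) kc dF q4.2.2.2.2.2.2 ak
      (atB d q4.mem.2.2.2)
    have ebc := ea_of BH pb pc zH hH ob oc (fun v _ h4 => rc v h4) fb kc q4.2.2.2.2.1 af' ak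
    have zz : z ≠ z' := ebd.ne hq hz.cw BH (pl z zH zB)
    obtain ⟨Y1, R1, Y2, R2, y1, -, hY, hR, -, -, -, s1⟩ := hz.cw.arcs hH zH' zB'.symm hz.sh
    have Y1H : Y1 ⊆ H := hY ▸ subset_union_left
    have c3 := a1_fin_arc ecd BH zB'.symm y1 Y1H
    have c3' := a1_fin_arc ead BH zB'.symm y1 Y1H
    obtain ⟨W1, S1, W2, S2, -, w2, hW, -, iW, -, -, bW⟩ := hz.cw.arcs zH zH' zz hH
    have c4 := a1_fin_arc ebd BH zz w2 (hW ▸ subset_union_right)
    have n4 : B1 ∉ Xb ∪ X ∪ W2 := fun h4 => by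
      rcases mem_union.1 h4 with h4 | h4
      · rcases mem_union.1 h4 with h4 | h4
        · exact zB (ob B1 h4 hH).symm
        · exact zB' (o0 B1 h4 hH).symm
      · exact (iW B1 bW h4).elim (fun e => zB e.symm) fun e => zB' e.symm
    have B3 : B ∈ {B, B1} ∪ X ∪ Y1 := mem_union_left _ (mem_union_left _ pc.left)
    have B13 : B1 ∈ {B, B1} ∪ X ∪ Y1 := mem_union_left _ (mem_union_left _ pc.right)
    have B4 : B ∈ Xb ∪ X ∪ W2 := mem_union_left _ (mem_union_left _ pb.left)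
    have u4 : u ∈ Xb ∪ X ∪ W2 := mem_union_left _ (mem_union_left _ ub)
    have g3 : G.Goo Tm ({B, B1} ∪ X ∪ Y1) :=
      goo_of (Z := {t}) h3.sw2 (mem_union_right _ s1) (mem_singleton_self _)
        (fun h4 => tu (mem_singleton.1 h4).symm) fun e he x y j hx _ => by
          rw [mem_singleton.1 hx] at j
          exact Or.inr ((nt e he y j).elim (fun e => e ▸ B3) fun e => e ▸ B13)
    have o3 : G.Ofr Nb ({B, B1} ∪ X ∪ Y1) := fun D0 hD0 dj => by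
      refine ha _ ⟨_, c3', Or.inr fun h4 => disjoint_left.1 h4
        (mem_union_left _ (mem_union_left _ pa.left)) b0⟩ s hs t ht h3.2.1
        (mem_union_right _ s1) (mem_union_left _ (mem_union_left _ ta)) D0 hD0
        (disjoint_left.2 fun v hv hv' => ?_)
      have h5 := disjoint_left.1 dj hv'
      have e : v = t := by
        simp only [mem_union, mem_insert, mem_singleton] at hv h5
        clear * - hv h5
        grind
      rw [e] at hv'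
      rcases hD0 with ⟨b, hb, e'⟩ | ⟨F0, c0, -, -⟩
      · rw [e'] at hv'
        exact disjoint_left.1 hq.dj hb (mem_singleton.1 hv' ▸ ht)
      · exact disjoint_left.1 dj (hq.tm_cw c0 ht hv' fA jf).2 B3
    have o4 : G.Ofr Nb (insert B1 (Xb ∪ X ∪ W2)) := by
      rw [insert_eq, union_comm]
      exact tz_of hd ⟨hu, c4, u4, Or.inr fun h4 => disjoint_left.1 h4 B4 b0, ob_box b1,
        disjoint_singleton_right.2 n4⟩
    have B14 : B1 ∈ (insert B1 (Xb ∪ X ∪ W2)).erase B := mem_erase.2 ⟨bb, mem_insert_self _ _⟩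
    have g4 : G.Goo Tm ((insert B1 (Xb ∪ X ∪ W2)).erase B) := by
      refine goo_of (Z := {t, B}) h3.sw2.sw1 (mem_erase.2 ⟨uB, mem_insert_of_mem u4⟩)
        (mem_insert_self _ _) (fun h4 => ?_) fun e he x y j hx hy => Or.inr ?_
      · rcases mem_insert.1 h4 with e | e
        · exact h3.2.1 e
        · exact BH (mem_singleton.1 e ▸ hz.sh)
      have yB : y ≠ B := fun e => hy (mem_insert_of_mem (mem_singleton.2 e))
      rcases mem_insert.1 hx with e1 | e1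
      · rw [e1] at j
        exact (nt e he y j).elim (fun e => absurd e yB) fun e => e ▸ B14
      · rw [mem_singleton.1 e1] at j
        have h4 : e ∈ ({f, f', k, d} : Finset E) := q4.1 ▸ hq.cut1.2 ⟨he, y, j⟩
        simp only [mem_insert, mem_singleton] at h4
        rcases h4 with rfl | rfl | rfl | rfl
        · exact absurd (mem_insert.2 (Or.inl (s2_diff_je j jf.symm))) hy
        · exact s2_diff_je j jf'.symm ▸ mem_erase.2 ⟨uB, mem_insert_of_mem u4⟩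
        · exact s2_diff_je j jk ▸ B14
        · exact mem_erase.2 ⟨yB, mem_insert_of_mem
            (mem_union_left _ (mem_union_right _ (p0.je dF j).2.1))⟩
    obtain ⟨p', q', q1', pR', qR', p1⟩ : ∃ p' q', G.Q4 {B1} p' q' g k ∧ p' ∈ R ∧ q' ∈ R ∧
        p' ∈ R1 := by
      obtain ⟨e, w, Y, F', eA, j, -, -, -, hF', -, -⟩ := y1.head zB'.symm
      have e1 : e ∈ R1 := hF' ▸ mem_insert_self _ _
      have eR : e ∈ R := hR ▸ mem_union_left _ e1
      have h4 : e ∈ ({p, q, g, k} : Finset E) := q1.1 ▸ hq.cut1.2 ⟨eA, w, j⟩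
      simp only [mem_insert, mem_singleton] at h4
      rcases h4 with rfl | rfl | rfl | rfl
      · exact ⟨_, _, q1, pR, qR, e1⟩
      · exact ⟨_, _, q1.swap1, qR, pR, e1⟩
      · exact absurd eR (offR _ t j1 tH)
      · exact absurd eR kR
    exact ⟨B, B1, t, f, f', k, d, p', q', g, H, R, _, _, _, _, hB, bb, ht, q4, q1', jf, j1, hz.cw,
      pR', qR', BH, ofr, goo, c3, mem_union_left _ (mem_union_left _ kc),
      mem_union_left _ (mem_union_right _ dF), mem_union_right _ p1, g3, o3, c4,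
      mem_union_left _ (mem_union_left _ fb), mem_union_left _ (mem_union_right _ dF), n4, o4, g4,
      mab, a1_fin_mo hz.cw hs hz.sh ht tH ead BH zB'.symm ta fa dF,
      a1_fin_mo hz.cw hs hz.sh hu uH ebc BH zB ub fb kc,
      a1_fin_mo hz.cw hs hz.sh hu uH ebd BH zz ub fb dF⟩
  rcases key c q4.mem.2.2.1 q4.2.2.1.symm q4.2.2.2.2.1.symm with
    ⟨jc, ec⟩ | ⟨zc, zc1, zc2, Xc, Fc, pc, cF, oc, rc⟩ <;>
  rcases key d q4.mem.2.2.2 q4.2.2.2.1.symm q4.2.2.2.2.2.1.symm with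
    ⟨jd, ed⟩ | ⟨zd, zd1, zd2, Xd, Fd, pd, dF, od, rd⟩
  · exact absurd (ec.trans ed.symm) q4.2.2.2.2.2.2
  · exact Or.inr (z5 d (ec ▸ q4) (ec ▸ jc) zd zd1 zd2 Xd Fd pd dF od rd)
  · exact Or.inr (z5 c (ed ▸ q4.swap2) (ed ▸ jd) zc zc1 zc2 Xc Fc pc cF oc rc)
  · obtain ⟨eac, ebc⟩ := ears c q4.mem.2.2.1 q4.2.2.1.symm q4.2.2.2.2.1.symm zc zc1 Xc Fc pc cF
      oc rc
    obtain ⟨ead, ebd⟩ := ears d q4.mem.2.2.2 q4.2.2.2.1.symm q4.2.2.2.2.2.1.symm zd zd1 Xd Fd pd dF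
      od rd
    exact Or.inl ⟨B, B1, f, f', c, d, H, R, hB, q4, hz.cw, BH, hH, ofr, goo, mab,
      a1_fin_mo hz.cw hs hz.sh ht tH eac BH zc2.symm ta fa cF,
      a1_fin_mo hz.cw hs hz.sh ht tH ead BH zd2.symm ta fa dF,
      a1_fin_mo hz.cw hs hz.sh hu uH ebc BH (ebc.ne hq hz.cw BH (pl z zH zB)) ub fb cF,
      a1_fin_mo hz.cw hs hz.sh hu uH ebd BH (ebd.ne hq hz.cw BH (pl z zH zB)) ub fb dF⟩

theorem a1_two_out (hq : G.QG U Nb Tm) (h : G.Sx U t H D P Q f g) (j1 : G.Je g t B) (he : e ∈ G.A)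
    (hj : G.Je e x y) (hx : x ∈ insert t P) (hy : y ∉ insert t P) : y ∈ D ∨ (e = g ∧ y = B) := by
  obtain ⟨w, h1, h2⟩ := h.eP
  rw [mem_insert, not_or] at hy
  rcases mem_insert.1 hx with rfl | hx
  · rcases mem_insert.1 (h.cu ▸ hq.cut1.2 ⟨he, y, hj⟩) with rfl | h3
    · obtain rfl := s2_diff_je hj h1
      exact Or.inl (h2.resolve_left hy.2)
    · obtain rfl := mem_singleton.1 h3
      exact Or.inr ⟨rfl, s2_diff_je hj j1⟩
  · refine Or.inl ((s2_diff_cl h.cP he hj hx hy.2).resolve_right ?_)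
    rintro rfl
    exact (s2_diff_end h1 hj).elim (s2_diff_P h hx).1.symm fun k => hy.1 k.symm

theorem a1_two_goo (hq : G.QG U Nb Tm) (h3 : T3n Tm s t u) (h : G.Sx U u H D P Q f g)
    (j : G.Je g u B) (ht : t ∉ insert u P) (hs : s ∈ M) (hD : D ⊆ M) (hB : B ∈ M) : G.Goo Tm M :=
  goo_of h3 hs (mem_insert_self u P) ht fun _ he _ _ h1 h2 h4 =>
    Or.inr ((a1_two_out hq h j he h1 h2 h4).elim (fun k => hD k) fun k => k.2 ▸ hB)

theorem a1_two_box (hq : G.QG U Nb Tm) (hc : G.Cw H R) (hB : B ∈ Nb) (hH : B ∈ H)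
    (r1 : G.Pw B c X1 F1) (r2 : G.Pw B c X2 F2) (hne : B ≠ c) (z1 : F1 ⊆ R) (z2 : F2 ⊆ R)
    (hd : Disjoint F1 F2) (hg : g ∈ G.A) (j : G.Je g t B) (ht : t ∉ H) :
    ∃ p ∈ F1, ∃ q ∈ F2, ∃ k w, G.Q4 {B} p q g k ∧ k ∈ G.A ∧ k ∉ R ∧ G.Je k B w ∧
      ∀ e ∈ G.A, ∀ y, G.Je e B y → e ∉ R → (e = g ∧ y = t) ∨ (e = k ∧ y = w) := by
  obtain ⟨p, a, -, F1', pA, pj, -, -, -, e1, -⟩ := r1.head hne
  obtain ⟨q, b, -, F2', qA, qj, -, -, -, e2, -⟩ := r2.head hne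
  have hp : p ∈ F1 := e1 ▸ mem_insert_self _ _
  have hq' : q ∈ F2 := e2 ▸ mem_insert_self _ _
  have gR : g ∉ R := fun k => ht (hc.ends k (j.at_iff.2 (Or.inl rfl)))
  obtain ⟨k, hk⟩ : ∃ k, G.Q4 {B} p q g k := by
    obtain ⟨c, d, h4⟩ := hq.q4 hB (hq.cut1.2 ⟨pA, a, pj⟩) (hq.cut1.2 ⟨qA, b, qj⟩)
      fun k => disjoint_left.1 hd hp (k ▸ hq')
    have := h4.1 ▸ hq.cut1.2 ⟨hg, t, j.symm⟩
    simp only [mem_insert, mem_singleton] at this
    rcases this with rfl | rfl | rfl | rfl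
    exacts [(gR (z1 hp)).elim, (gR (z2 hq')).elim, ⟨d, h4⟩, ⟨c, h4.swap2⟩]
  obtain ⟨kA, w, kj⟩ := hq.cut1.1 hk.mem.2.2.2
  refine ⟨p, hp, q, hq', k, w, hk, kA, fun kR => ?_, kj, fun e he y ej eR => ?_⟩
  · have h1 : ({p, q, k} : Finset E) ⊆ R ∩ G.cut {B} := by
      simp only [insert_subset_iff, singleton_subset_iff, mem_inter]
      exact ⟨⟨z1 hp, hk.mem.1⟩, ⟨z2 hq', hk.mem.2.1⟩, kR, hk.mem.2.2.2⟩
    have h2 := card_le_card h1
    rw [hc.deg hH, card_eq_three.2 ⟨p, q, k, hk.2.1, hk.2.2.2.1, hk.2.2.2.2.2.1, rfl⟩] at h2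
    omega
  · have := hk.1 ▸ hq.cut1.2 ⟨he, y, ej⟩
    simp only [mem_insert, mem_singleton] at this
    rcases this with rfl | rfl | rfl | rfl
    exacts [(eR (z1 hp)).elim, (eR (z2 hq')).elim, Or.inl ⟨rfl, s2_diff_je ej j.symm⟩,
      Or.inr ⟨rfl, s2_diff_je ej kj⟩]

theorem a1_two_ring {k : E} (hq : G.QG U Nb Tm) (h : G.Sx U t H D P Q f g) (j : G.Je g t B)
    (hH : B ∈ H) (ht : t ∉ H)
    (ho : ∀ e ∈ G.A, ∀ y, G.Je e B y → e ∉ R → (e = g ∧ y = t) ∨ (e = k ∧ y = w))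
    (hc : G.Cw Y F) (hd : Disjoint F R) (hD : Disjoint Y D) : B ∉ Y := fun hB => by
  have hg : g ∈ F := by_contra fun hg => by
    have h1 : F ∩ G.cut {B} ⊆ {k} := fun e he => by
      obtain ⟨h1, h2⟩ := mem_inter.1 he
      obtain ⟨h3, y, h4⟩ := hq.cut1.1 h2
      exact mem_singleton.2 ((ho e h3 y h4 (disjoint_left.1 hd h1)).resolve_left
        fun k => hg (k.1 ▸ h1)).1
    have h2 := card_le_card h1
    rw [hc.deg hB, card_singleton] at h2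
    omega
  have h1 := hc.inside (hc.ends hg (j.at_iff.2 (Or.inl rfl))) (mem_insert_self t P) (f := g)
    fun e he x y h1 h2 h3 => ((a1_two_out hq h j (hc.sub he) h1 h2 h3).resolve_left
      (disjoint_left.1 hD (hc.ends he (h1.at_iff.2 (Or.inr rfl))))).1
  exact (mem_insert.1 (h1 hB)).elim (fun k => ht (k ▸ hH)) fun k => (s2_diff_P h k).2.1 hH

/-- HINT: `Cw.arcs` between the boxes, `Pw.head` for the four ring edges, `Sx.nil`.  If the fourth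
edges are equal or their ends are connected off `H ∪ D` there is the second ring.  Else what is
reached from `t` stays in `insert t P ∪ {B1} ∪ G.rc (H ∪ D) {w1}`, and `g` is the only edge by which a
ring could leave `insert t P` (`Cw.inside`).  The last two rings: `link`, `Ea.pw`, `cw_of_two`. -/
theorem a1_two (hq : G.QG U Nb Tm) (ha : G.Ha Nb Tm) (hd : G.Hdd Nb Tm) (h3 : T3n Tm s t u)
    (hz : G.Tz Nb Tm s H R D) (h1 : t ∉ H ∪ D) (h2 : u ∉ H ∪ D)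
    (h : G.Sx U t H D P Q f g) (h' : G.Sx U u H D P' Q' f' g')
    (b1 : B1 ∈ Nb) (b2 : B2 ∈ Nb) (hne : B1 ≠ B2) (m1 : B1 ∈ H) (m2 : B2 ∈ H) (j1 : G.Je g t B1)
    (j2 : G.Je g' u B2) : ∃ p1 q1 k1 p2 q2 k2, G.Hx Nb Tm D B1 B2 p1 q1 g k1 p2 q2 g' k2 ∧
      (∃ X F, G.Mr Tm f f' X F ∧ g ∈ F ∧ p1 ∈ F ∧ g' ∈ F ∧ p2 ∈ F) ∧
      ∃ X F, G.Mr Tm f f' X F ∧ g ∈ F ∧ q1 ∈ F ∧ g' ∈ F ∧ q2 ∈ F := by
  obtain ⟨hs, ht, hu, hT⟩ := h3.mem
  obtain ⟨-, d1, d2⟩ := a1_goo hq ha hd h3 hz h1 h2 h h'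
  have tH : t ∉ H := fun k => h1 (mem_union_left _ k)
  have uH : u ∉ H := fun k => h2 (mem_union_left _ k)
  have uP : u ∉ insert t P := fun k => (mem_insert.1 k).elim (fun k => h3.2.2.2 k.symm)
    fun k => disjoint_left.1 d1 (mem_union_left _ k) hu
  have tP : t ∉ insert u P' := fun k => (mem_insert.1 k).elim h3.2.2.2
    fun k => disjoint_left.1 d2 (mem_union_left _ k) ht
  have s1 : s ≠ B1 := fun k => disjoint_left.1 hq.dj b1 (k ▸ hs)
  have s2 : s ≠ B2 := fun k => disjoint_left.1 hq.dj b2 (k ▸ hs)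
  have n1 : B1 ∉ D := disjoint_left.1 hz.dj m1
  have n2 : B2 ∉ D := disjoint_left.1 hz.dj m2
  have gA : g ∈ G.A := s2_false_mem hq h.symm
  have gA' : g' ∈ G.A := s2_false_mem hq h'.symm
  obtain ⟨Y1, R1, Y2, R2, r1, r2, eH, eR, -, dR, -, sY⟩ := hz.cw.arcs m1 m2 hne hz.sh
  have y1 : Y1 ⊆ H := eH ▸ subset_union_left
  have y2 : Y2 ⊆ H := eH ▸ subset_union_right
  have z1 : R1 ⊆ R := eR ▸ subset_union_left
  have z2 : R2 ⊆ R := eR ▸ subset_union_right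
  obtain ⟨p1, pp1, q1, qq1, k1, w1, c1, kA1, kR1, kj1, o1⟩ :=
    a1_two_box hq hz.cw b1 m1 r1 r2 hne z1 z2 dR gA j1 tH
  obtain ⟨p2, pp2, q2, qq2, k2, w2, c2, kA2, kR2, kj2, o2⟩ :=
    a1_two_box hq hz.cw b2 m2 r1.symm r2.symm hne.symm z1 z2 dR gA' j2 uH
  have hr : ∀ {X F e1 f1 e2 f2}, G.Cw X F → s ∈ X → B1 ∈ X → B2 ∈ X → Disjoint X D → e1 ∈ F →
      f1 ∈ F → e2 ∈ F → f2 ∈ F → G.Hr Nb Tm D B1 B2 e1 f1 e2 f2 X F :=
    fun c a1 a2 a3 a4 a5 a6 a7 a8 => ⟨c, a5, a6, a7, a8, a4,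
      tz_of hd ⟨hs, c, a1, Or.inr fun k => disjoint_left.1 k a2 b1, hz.ob, a4⟩,
      a1_two_goo hq h3 h' j2 tP (mem_erase.2 ⟨s1, mem_union_left _ a1⟩)
        (fun v hv => mem_erase.2 ⟨fun k => n1 (k ▸ hv), mem_union_right _ hv⟩)
        (mem_erase.2 ⟨hne.symm, mem_union_left _ a3⟩),
      a1_two_goo hq h3.sw2 h j1 uP (mem_erase.2 ⟨s2, mem_union_left _ a1⟩)
        (fun v hv => mem_erase.2 ⟨fun k => n2 (k ▸ hv), mem_union_right _ hv⟩)
        (mem_erase.2 ⟨hne, mem_union_left _ a2⟩)⟩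
  obtain ⟨X3, F3, ea, uX, fF, fF', gF, -⟩ := link hq ht hu h3.2.2.2 hz.dj
    ⟨s, mem_inter.2 ⟨hz.sh, hq.tm hs⟩⟩ hz.ob h h' h1 h2
    (pw_edge gA j1 fun k => tH (k ▸ m1)) (mem_singleton_self g) m1
    (fun w hw => (mem_insert.1 hw).imp_right fun k => Or.inr (mem_singleton.1 k))
    (pw_edge gA' j2 fun k => uH (k ▸ m2)) (mem_singleton_self g') m2
    (fun w hw => (mem_insert.1 hw).imp_right fun k => Or.inr (mem_singleton.1 k)) 0
  obtain ⟨ep, -, ei⟩ := ea.pw hne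
  have mr : ∀ {Y F}, G.Pw B1 B2 Y F → Y ⊆ H → F ⊆ R → ∀ p ∈ F, ∀ q ∈ F,
      ∃ X F', G.Mr Tm f f' X F' ∧ g ∈ F' ∧ p ∈ F' ∧ g' ∈ F' ∧ q ∈ F' :=
    fun r a1 a2 p hp q hq' => ⟨_, _, ⟨(cw_of_two ep r hne (fun v b1 b2 => ei v b1 (a1 b2))
      (disjoint_of_subset_right a2 (th_of_ea_dj ea hz.cw))).1,
      ⟨t, ht, u, hu, h3.2.2.2, mem_union_left _ (mem_union_left _ (mem_insert_self _ _)),
        mem_union_left _ (mem_union_right _ uX)⟩, mem_union_left _ (mem_union_right _ fF),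
      mem_union_left _ (mem_union_right _ fF')⟩,
      mem_union_left _ (mem_union_left _ (mem_singleton_self g)), mem_union_right _ hp,
      mem_union_left _ (mem_union_right _ (gF (mem_singleton_self g'))), mem_union_right _ hq'⟩
  refine ⟨p1, q1, k1, p2, q2, k2, ⟨hne, c1, c2, H, R,
    hr hz.cw hz.sh m1 m2 hz.dj (z1 pp1) (z2 qq1) (z1 pp2) (z2 qq2), ?_⟩,
    mr r1 y1 z1 p1 pp1 p2 pp2, mr r2 y2 z2 q1 qq1 q2 qq2⟩
  have two : ∀ {X F}, G.Pw B1 B2 X F → (∀ v ∈ X, v ∈ H ∪ D → v = B1 ∨ v = B2) → k1 ∈ F → k2 ∈ F →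
      ∃ X' F', G.Hr Nb Tm D B1 B2 p1 k1 p2 k2 X' F' := fun {X F} r a1 a2 a3 => by
    have a4 : ∀ v ∈ Y1, v ∈ X → v = B1 ∨ v = B2 := fun v b1 b2 =>
      a1 v b2 (mem_union_left _ (y1 b1))
    exact ⟨_, _, hr (cw_of_two r1 r hne a4 (r1.dj2 r a4 sY s1 s2)).1 (mem_union_left _ sY)
      (mem_union_left _ r1.left) (mem_union_left _ r1.right)
      (disjoint_union_left.2 ⟨disjoint_of_subset_left y1 hz.dj, disjoint_left.2 fun v b1 b2 =>
        (a1 v b1 (mem_union_right _ b2)).elim (fun k => n1 (k ▸ b2)) fun k => n2 (k ▸ b2)⟩)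
      (mem_union_left _ pp1) (mem_union_right _ a2) (mem_union_left _ pp2) (mem_union_right _ a3)⟩
  by_cases e1 : w1 = B2
  · subst e1
    obtain ⟨e2, -⟩ := (o2 k1 kA1 B1 kj1.symm kR1).resolve_left fun k => uH (k.2 ▸ m1)
    exact Or.inr (two (pw_edge kA1 kj1 hne)
      (fun v hv _ => (mem_insert.1 hv).imp_right mem_singleton.1) (mem_singleton_self _)
      (e2 ▸ mem_singleton_self _))
  by_cases e2 : w2 ∈ G.rc (H ∪ D) {w1}
  · obtain ⟨z, a1, a2, a3⟩ := mem_rc.1 e2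
    obtain rfl := mem_singleton.1 a1
    obtain ⟨X, F, r, a4, -⟩ := a3.pw a2
    obtain ⟨r', -⟩ := r.cons kA1 kj1 (disjoint_right.1 a4 (mem_union_left _ m1))
    obtain ⟨r'', -⟩ := r'.symm.cons kA2 kj2 fun k => (mem_insert.1 k).elim hne.symm
      (disjoint_right.1 a4 (mem_union_left _ m2))
    refine Or.inr (two r''.symm (fun v b1 b2 => ?_)
      (mem_insert_of_mem (mem_insert_self _ _)) (mem_insert_self _ _))
    rcases mem_insert.1 b1 with b1 | b1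
    · exact Or.inr b1
    · exact Or.inl ((mem_insert.1 b1).resolve_right (disjoint_right.1 a4 b2))
  have dM : D ⊆ ((H ∪ D).erase B1).erase B2 := fun v hv => mem_erase.2
    ⟨fun k => n2 (k ▸ hv), mem_erase.2 ⟨fun k => n1 (k ▸ hv), mem_union_right _ hv⟩⟩
  refine Or.inl ⟨?_, fun Y F' a1 a2 a3 =>
    ⟨a1_two_ring hq h j1 m1 tH o1 a1 a2 (disjoint_of_subset_right dM a3),
      a1_two_ring hq h' j2 m2 uH o2 a1 a2 (disjoint_of_subset_right dM a3)⟩⟩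
  have ur : u ∉ G.rc (H ∪ D) {w1} := fun k => by
    obtain ⟨z, a1, a2, a3⟩ := mem_rc.1 k
    obtain rfl := mem_singleton.1 a1
    have a4 := a3.symm.stay (mem_insert_self u P') fun e he x y b1 b2 b3 => Or.inr
      ((a1_two_out hq h' j2 he b1 b2 b3).elim (mem_union_right _) fun k =>
        mem_union_left _ (k.2 ▸ m2))
    exact (a1_two_out hq h' j2 kA1 kj1.symm a4 fun k => (mem_insert.1 k).elim
      (fun k => uH (k ▸ m1)) fun k => (s2_diff_P h' k).2.1 m1).elim n1 fun k => hne k.2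
  have key : ∀ v, G.Rch (G.avo (G.A \ R) (((H ∪ D).erase B1).erase B2)) t v →
      v ∈ insert t P ∨ v = B1 ∨ v ∈ G.rc (H ∪ D) {w1} := by
    intro v hv
    induction hv with
    | refl => exact Or.inl (mem_insert_self _ _)
    | @tail x y _ a2 ih =>
      obtain ⟨e, a3, a4⟩ := a2
      obtain ⟨a5, a6⟩ := mem_filter.1 a3
      obtain ⟨he, eR'⟩ := mem_sdiff.1 a5
      have a7 : y ∉ ((H ∪ D).erase B1).erase B2 := by
        rcases a4 with ⟨-, rfl⟩ | ⟨rfl, -⟩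
        exacts [a6.2, a6.1]
      have a8 : y ∈ H ∪ D → y = B1 ∨ y = B2 := fun k => by_contra fun k' =>
        a7 (mem_erase.2 ⟨fun b => k' (Or.inr b), mem_erase.2 ⟨fun b => k' (Or.inl b), k⟩⟩)
      rcases ih with ih | rfl | ih
      · exact or_iff_not_imp_left.2 fun k => Or.inl
          ((a1_two_out hq h j1 he a4 ih k).resolve_left fun b => a7 (dM b)).2
      · rcases o1 e he y a4 eR' with ⟨-, rfl⟩ | ⟨-, rfl⟩
        · exact Or.inl (mem_insert_self _ _)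
        · refine Or.inr (or_iff_not_imp_left.2 fun k => mem_rc.2
            ⟨y, mem_singleton_self _, fun b => ?_, Rv.refl _ _⟩)
          exact (a8 b).elim k e1
      · refine Or.inr (or_iff_not_imp_right.2 fun k => ?_)
        refine (a8 ((rc_clo e he x y a4 ih k).resolve_right (notMem_empty _))).resolve_right ?_
        rintro rfl
        rcases o2 e he x (Je.symm a4) eR' with ⟨-, rfl⟩ | ⟨-, rfl⟩
        exacts [ur ih, e2 ih]
  have nu : ¬ G.Rch (G.avo (G.A \ R) (((H ∪ D).erase B1).erase B2)) t u := fun k =>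
    (key u k).elim uP fun k => k.elim (fun k => uH (k ▸ m1)) ur
  intro a ha' b hb' aH bH k
  rcases hT a ha' with rfl | rfl | rfl
  · exact (aH hz.sh).elim
  all_goals
    rcases hT b hb' with rfl | rfl | rfl
    · exact (bH hz.sh).elim
    · first | rfl | exact (nu k.symm).elim
    · first | rfl | exact (nu k).elim

/-- a terminal of the configuration has no neighbour off the even ring -/
theorem Th.nadj (hq : G.QG U Nb Tm) (h : G.Th Nb Tm s t x y A1 A2 A3 A4 S E1 E2 E3 E4 F)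
    (he : e ∈ G.A) (hj : G.Je e t w) : w ∈ A1 ∪ A2 ∪ A3 ∪ A4 := by
  exact (hq.tm_cw h.rr h.ht (by simp [h.p2.left]) he hj).2

theorem caseA1_je (h1 : G.Je e a x) (h2 : G.Je e a y) : x = y := by
  rcases h1 with ⟨h1, h1'⟩ | ⟨h1, h1'⟩ <;> rcases h2 with ⟨h2, h2'⟩ | ⟨h2, h2'⟩ <;> simp_all

theorem caseA1_mem (h : G.Sx U v M L P Q f g) : f ∈ G.A ∧ g ∈ G.A :=
  ⟨(mem_cut.1 (h.cu ▸ mem_insert_self f {g})).1,
    (mem_cut.1 (h.cu ▸ mem_insert_of_mem (mem_singleton_self g))).1⟩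

/-- a terminal next to the box `B` separates every ring from `B` -/
theorem caseA1_sx (hb : G.Hb Nb Tm) (hq : G.QG U Nb Tm) (ha : G.Ha Nb Tm)
    (hz : G.Tz Nb Tm s H R {B}) (ht : t ∈ Tm) (hst : s ≠ t) (he : e ∈ G.A) (hj : G.Je e t B) :
    t ∉ H ∪ {B} ∧ ∃ P Q f g, G.Sx U t H {B} P Q f g := by
  obtain ⟨k1, k2, k3⟩ := tz_ed hq ha hb hz hz.ob hz.dj (Or.inl rfl) ht hst
  refine ⟨fun k => (mem_union.1 k).elim k1 k2, k3.resolve_left ?_⟩
  rintro ⟨x, y, A1, A2, A3, A4, S, E1, E2, E3, E4, F, k4, k5⟩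
  exact disjoint_left.1 k5 (mem_union_left _ (k4.nadj hq he hj))
    (mem_union_left _ (mem_singleton_self B))

/-- exactly one box on the ring, it is the end of `g` -/
theorem caseA1_one (hb : G.Hb Nb Tm) (hq : G.QG U Nb Tm) (ha : G.Ha Nb Tm) (hd : G.Hdd Nb Tm)
    (h3 : T3n Tm s t u) (hz : G.Tz Nb Tm s H R D) (h1 : t ∉ H ∪ D) (h2 : u ∉ H ∪ D)
    (h : G.Sx U t H D P Q f g) (h' : G.Sx U u H D P' Q' f' g') (hB : B1 ∈ Nb) (hH : B1 ∈ H)
    (j1 : G.Je g t B1) (hu : ∀ B ∈ Nb, B ∈ H → B = B1) : G.Zall U Nb Tm := by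
  obtain ⟨-, g1, g2⟩ := a1_goo hq ha hd h3 hz h1 h2 h h'
  have hf := a1_free hq ha hd h3 hz h1 h2 h h' hB hH j1
  rcases hz.ob with ⟨B, b1, rfl⟩ | ⟨F, -, -, b1⟩
  · have hN : Nb = {B1, B} := by
      ext b
      rw [mem_insert, mem_singleton]
      refine ⟨fun k => (tz_nb hd hz k).imp (hu b k) fun k1 => (singleton_injective k1).symm, ?_⟩
      rintro (rfl | rfl) <;> assumption
    rcases hf with j2 | ⟨H', R', z1, z2, z3⟩
    · exact Or.inr (Or.inr (Or.inr (Or.inr (Or.inr (Or.inr (Or.inl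
        (a1_z6 hq ha hd h3 hz h1 h2 h h' hN hH j1 j2)))))))
    · have k1 := (h.box hq b1 (disjoint_union_left.1 g1).1).2
      have k2 := (h'.box hq b1 (disjoint_union_left.1 g2).1).2
      obtain ⟨t1, P1, Q1, f1, e1, s1⟩ :=
        caseA1_sx hb hq ha z1 h3.mem.2.1 h3.2.1 (caseA1_mem h).1 k1
      obtain ⟨t2, P2, Q2, f2, e2, s2⟩ :=
        caseA1_sx hb hq ha z1 h3.mem.2.2.1 h3.2.2.1 (caseA1_mem h').1 k2
      have k3 := (s1.box hq b1
        (disjoint_union_left.1 (a1_goo hq ha hd h3 z1 t1 t2 s1 s2).2.1).1).2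
      have k4 : f1 ≠ g := fun k => disjoint_left.1 hz.dj hH
        (mem_singleton.2 (caseA1_je j1 (k ▸ k3)))
      have k5 : g ∈ ({f1, e1} : Finset E) := by
        rw [← s1.cu, h.cu]
        exact mem_insert_of_mem (mem_singleton_self g)
      have k6 : g = e1 := mem_singleton.1 ((mem_insert.1 k5).resolve_left k4.symm)
      rcases a1_fin hq ha hd h3 z1 t1 t2 s1 s2 hN z2 (k6 ▸ j1) z3 with k | k
      · exact Or.inr (Or.inr (Or.inr (Or.inr (Or.inl k))))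
      · exact Or.inr (Or.inr (Or.inr (Or.inr (Or.inr (Or.inl k)))))
  · have hN : Nb = {B1} := eq_singleton_iff_unique_mem.2 ⟨hB, fun b k =>
      hu b k ((tz_nb hd hz k).resolve_right fun k1 =>
        disjoint_left.1 b1 (k1 ▸ mem_singleton_self b) k)⟩
    rcases hf with j2 | ⟨H', R', z1, z2, z3⟩
    · exact Or.inr (Or.inr (Or.inl (a1_z2 hq ha hd h3 hz h1 h2 h h' hN hH j1 j2)))
    · have k1 : G.Gz Nb Tm s H' R' D := ⟨z1, by
        rwa [hN, inter_singleton_of_mem z2, sdiff_singleton_eq_erase]⟩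
      refine (fin_real hd k1 b1 fun b k b' k' => ?_).imp id Or.inl
      rw [hN, mem_singleton] at k k'
      rw [k, k']

/-- two boxes on the ring -/
theorem caseA1_two (hq : G.QG U Nb Tm) (ha : G.Ha Nb Tm) (hd : G.Hdd Nb Tm)
    (h3 : T3n Tm s t u) (hz : G.Tz Nb Tm s H R D) (h1 : t ∉ H ∪ D) (h2 : u ∉ H ∪ D)
    (h : G.Sx U t H D P Q f g) (h' : G.Sx U u H D P' Q' f' g') (b1 : B1 ∈ Nb) (b2 : B2 ∈ Nb)
    (hne : B1 ≠ B2) (m1 : B1 ∈ H) (m2 : B2 ∈ H) (j1 : G.Je g t B1) (j2 : G.Je g' u B2) :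
    G.Z9 Nb Tm ∨ G.Z10 Nb Tm := by
  obtain ⟨-, g1, g2⟩ := a1_goo hq ha hd h3 hz h1 h2 h h'
  obtain ⟨p1, q1, k1, p2, q2, k2, x1, x2, x3⟩ :=
    a1_two hq ha hd h3 hz h1 h2 h h' b1 b2 hne m1 m2 j1 j2
  have hu : ∀ b ∈ Nb, b ∈ H → b = B1 ∨ b = B2 := fun b k k' =>
    (a1_end hq ha hd h3 hz h1 h2 h h' k k').imp (fun j => caseA1_je j j1) fun j => caseA1_je j j2
  rcases hz.ob with ⟨B, b3, rfl⟩ | ⟨F, c1, c2, c3⟩
  · have hN : Nb = {B, B1, B2} := by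
      ext b
      simp only [mem_insert, mem_singleton]
      refine ⟨fun k => (tz_nb hd hz k).elim (fun k1 => Or.inr (hu b k k1))
        fun k1 => Or.inl (singleton_injective k1).symm, ?_⟩
      rintro (rfl | rfl | rfl) <;> assumption
    have j3 := Or.symm (h.box hq b3 (disjoint_union_left.1 g1).1).2
    have j4 := Or.symm (h'.box hq b3 (disjoint_union_left.1 g2).1).2
    obtain ⟨c, d, q4⟩ := hq.q4 b3 (hq.cut1.2 ⟨(caseA1_mem h).1, t, j3⟩)
      (hq.cut1.2 ⟨(caseA1_mem h').1, u, j4⟩) fun k => h3.2.2.2 (caseA1_je (a := B) j3 (k ▸ j4))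
    exact Or.inr ⟨B, B1, B2, f, f', c, d, p1, q1, g, k1, p2, q2, g', k2, hN,
      fun k => disjoint_left.1 hz.dj m1 (mem_singleton.2 k.symm),
      fun k => disjoint_left.1 hz.dj m2 (mem_singleton.2 k.symm), q4, x1, x2, x3⟩
  · refine Or.inl ⟨D, B1, B2, p1, q1, g, k1, p2, q2, g', k2, ?_, ⟨F, c1, c2⟩, x1⟩
    ext b
    rw [mem_insert, mem_singleton]
    refine ⟨fun k => hu b k ((tz_nb hd hz k).resolve_right fun k1 =>
      disjoint_left.1 c3 (k1 ▸ mem_singleton_self b) k), ?_⟩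
    rintro (rfl | rfl) <;> assumption

/-- HINT: by `a1_end` every box on `H` is the end of `g` or of `g'`.  No box: `fin_real` or
`end_box0`.  One box, say the end of `g`: `a1_free`, then `a1_z2`, `Z1`, `a1_z6`, or `a1_fin` for the
new ring (`tz_ed` again; `Th.nadj` excludes the configuration as `t, u` are adjacent to `B`; the new
edge of `t` towards the ring is `g`).  Two boxes: `a1_two`. -/
theorem caseA1 (hb : G.Hb Nb Tm) (hq : G.QG U Nb Tm) (ha : G.Ha Nb Tm) (hd : G.Hdd Nb Tm) (h3 : T3n Tm s t u)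
    (hz : G.Tz Nb Tm s H R D) (h1 : t ∉ H ∪ D) (h2 : u ∉ H ∪ D)
    (h : G.Sx U t H D P Q f g) (h' : G.Sx U u H D P' Q' f' g') : G.Zall U Nb Tm := by
  by_cases h0 : Disjoint H Nb
  · have g0 := (a1_goo hq ha hd h3 hz h1 h2 h h').1
    rcases hz.ob with ⟨B, b1, rfl⟩ | ⟨F, -, -, b1⟩
    · exact end_box0 hq ha hb hd hz b1 h0 g0
    · have k1 : G.Gz Nb Tm s H R D := ⟨hz, by
        rwa [disjoint_iff_inter_eq_empty.1 h0, sdiff_empty]⟩
      refine (fin_real hd k1 b1 fun b k => ?_).imp id Or.inl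
      exact ((tz_nb hd hz k).elim (fun k2 => disjoint_left.1 h0 k2 k)
        fun k2 => disjoint_left.1 b1 (k2 ▸ mem_singleton_self b) k).elim
  obtain ⟨B1, m1, b1⟩ := not_disjoint_iff.1 h0
  have e1 := a1_end hq ha hd h3 hz h1 h2 h h' b1 m1
  by_cases hu : ∀ B ∈ Nb, B ∈ H → B = B1
  · exact e1.elim (fun j => caseA1_one hb hq ha hd h3 hz h1 h2 h h' b1 m1 j hu)
      fun j => caseA1_one hb hq ha hd h3.sw2 hz h2 h1 h' h b1 m1 j hu
  push Not at hu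
  obtain ⟨B2, b2, m2, hne⟩ := hu
  have e2 := a1_end hq ha hd h3 hz h1 h2 h h' b2 m2
  refine Or.inr (Or.inr (Or.inr (Or.inr (Or.inr (Or.inr (Or.inr (Or.inr (Or.inr ?_))))))))
  rcases e1 with j1 | j1
  · exact caseA1_two hq ha hd h3 hz h1 h2 h h' b1 b2 hne.symm m1 m2 j1
      (e2.resolve_left fun j => hne (caseA1_je j j1))
  · exact caseA1_two hq ha hd h3 hz h1 h2 h h' b2 b1 hne m2 m1
      (e2.resolve_right fun j => hne (caseA1_je j j1)) j1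

end SG

end Pool.Agent.Work.MP_8c679b_co
end

-- merged part: Pool.Agent.Work.MP_8c679b_co.A3.GB
section
/-!
Every valid ring through a terminal meets every object.
-/

set_option autoImplicit false
set_option linter.unusedSectionVars false

namespace Pool.Agent.Work.MP_8c679b_co

open Finset

namespace SG

variable {V E : Type} [Fintype V] [DecidableEq V] [DecidableEq E] [Nonempty E] {G : SG V E}
  {U Nb Tm X Y Z M L D D' H P Q W X1 X2 A1 A2 A3 A4 S : Finset V}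
  {F F' F1 F2 E1 E2 E3 E4 R : Finset E} {a b c v w x y z s t u B B1 B2 : V} {e f g : E}
  {P' Q' : Finset V} {f' g' : E}

theorem b_sx_ne (hq : G.QG U Nb Tm) (hD : G.Ob Nb D) : (D ∩ U).Nonempty := by
  rw [inter_eq_left.2 (hq.ob hD).1]
  exact (hq.ob hD).2

/-- two halves that end in an object close to a valid ring -/
theorem b_sx_vr (hq : G.QG U Nb Tm) (hD : G.Ob Nb D) (h : G.Ea v D L x y X1 X2 F1 F2)
    (hv : v ∉ D) : ∃ X, G.Vr Nb X ∧ v ∈ X ∧ X ⊆ X1 ∪ X2 ∪ D := by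
  obtain ⟨X, F, h1, h2, h3, -, h4⟩ := h.ob hq hD hv 1
  exact ⟨X, ⟨F, h1, h4.imp And.left fun k c =>
    disjoint_left.1 c (h2 (mem_union_left _ h.p1.right)) k.1⟩, h2 (mem_union_left _ h.p1.left), h3⟩

theorem b_sx_cut (hq : G.QG U Nb Tm) (he : G.He Nb Tm) (hD : G.Ob Nb D) (hD' : G.Ob Nb D')
    (hd : Disjoint D D') (ht : t ∈ Tm) :
    t ∉ D ∧ ∃ X ⊆ U, t ∈ X ∧ Disjoint X D ∧ Disjoint X D' ∧ ∃ f, G.Clo X D' {f} := by
  have t1 : t ∉ D := fun k => he D (hD.vr hq ht k) t ht k D' hD' hd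
  have t2 : t ∉ D' := fun k => he D' (hD'.vr hq ht k) t ht k D hD hd.symm
  refine ⟨t1, ?_⟩
  rcases hq.ed (hq.tm ht) t1 t2 with h | ⟨X, F, h1, h2, h3, h4, -⟩ | ⟨x, y, X1, X2, F1, F2, h⟩
  · exact h
  · exact (he X ⟨F, h1, Or.inr h3⟩ t ht h2 D hD h4).elim
  · obtain ⟨X, h1, h2, h3⟩ := b_sx_vr hq hD h t1
    exact (he X h1 t ht h2 D' hD' ((disjoint_union_left.2
      ⟨disjoint_union_left.2 ⟨h.l1, h.l2⟩, hd⟩).mono_left h3)).elim

/-- HINT: `QG.ed` in both orders, `Ea.ob`, `QG.sx`. -/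
theorem b_sx (hq : G.QG U Nb Tm) (he : G.He Nb Tm) (hD : G.Ob Nb D) (hD' : G.Ob Nb D')
    (hd : Disjoint D D') (ht : t ∈ Tm) : t ∉ D ∪ D' ∧ ∃ P Q f g, G.Sx U t D D' P Q f g := by
  obtain ⟨t1, X, hX, x1, x2, x3, f, x4⟩ := b_sx_cut hq he hD hD' hd ht
  obtain ⟨t2, Y, hY, y1, y2, y3, g, y4⟩ := b_sx_cut hq he hD' hD hd.symm ht
  exact ⟨fun k => (mem_union.1 k).elim t1 t2, hq.sx ht hd (b_sx_ne hq hD) (b_sx_ne hq hD') hX hY x1 y1
    x2 x3 y3 y2 x4 y4⟩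

theorem b_goo_ring (hq : G.QG U Nb Tm) (he : G.He Nb Tm) (hD : G.Ob Nb D) (hD' : G.Ob Nb D')
    (hd : Disjoint D D') (hZ : G.Ob Nb Z) (hdZ : Disjoint Z (D ∪ D')) (ht : t ∈ Tm) (hu : u ∈ Tm)
    (htu : t ≠ u) (c1 : ¬ ∃ w ∈ Z, G.Rv (D ∪ D') t w) (c2 : ¬ ∃ w ∈ Z, G.Rv (D ∪ D') u w) :
    False := by
  obtain ⟨h1, P, Q, f, g, h⟩ := b_sx hq he hD hD' hd ht
  obtain ⟨h2, P', Q', f', g', h'⟩ := b_sx hq he hD hD' hd hu
  have t1 : t ∉ D := fun k => h1 (mem_union_left _ k)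
  obtain ⟨z, z1, X1, F1, p1, g1, o1⟩ := h.pw hq (hq.tm ht) t1
  obtain ⟨z', z2, X2, F2, p2, g2, o2⟩ := h'.pw hq (hq.tm hu) fun k => h2 (mem_union_left _ k)
  obtain ⟨X3, F3, e, -, -, -, -, -, r, -⟩ := link hq ht hu htu hd (b_sx_ne hq hD) hD' h h' h1 h2
    p1 g1 z1 o1 p2 g2 z2 o2 0
  obtain ⟨X, k1, k2, k3⟩ := b_sx_vr hq hD e t1
  refine he X k1 t ht k2 Z hZ (disjoint_left.2 fun w hw hz => ?_)
  rcases mem_union.1 (k3 hw) with k | k
  · rcases r w k with k | k | k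
    exacts [disjoint_left.1 hdZ hz k, c1 ⟨w, hz, k⟩, c2 ⟨w, hz, k⟩]
  · exact disjoint_left.1 hdZ hz (mem_union_left _ k)

/-- HINT: `Sx.dis`.  A third object is reached from at most one terminal; the ring through the other
two (`Sx.pw`, `link`, `Ea.ob`) misses it. -/
theorem b_goo (hq : G.QG U Nb Tm) (he : G.He Nb Tm) (hD : G.Ob Nb D) (hD' : G.Ob Nb D')
    (hd : Disjoint D D') : G.Goo Tm (D ∪ D') ∧ G.Ofr Nb (D ∪ D') := by
  have goo : G.Goo Tm (D ∪ D') := fun t ht u hu h1 h2 hr => by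
    by_contra htu
    obtain ⟨-, P, Q, f, g, h⟩ := b_sx hq he hD hD' hd ht
    obtain ⟨-, P', Q', f', g', h'⟩ := b_sx hq he hD hD' hd hu
    exact Sx.dis hq ht hu htu hd (b_sx_ne hq hD) (b_sx_ne hq hD') h h' h1 h2 hr
  refine ⟨goo, fun Z hZ hdZ => ?_⟩
  have one : ∀ t ∈ Tm, ∀ u ∈ Tm, t ≠ u → (∃ w ∈ Z, G.Rv (D ∪ D') t w) →
      ¬ ∃ w ∈ Z, G.Rv (D ∪ D') u w := fun t ht u hu htu ⟨w, hw, k⟩ ⟨w', hw', k'⟩ =>
    htu (goo t ht u hu (b_sx hq he hD hD' hd ht).1 (b_sx hq he hD hD' hd hu).1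
      ((k.trans (hZ.rv hdZ hw hw')).trans k'.symm))
  obtain ⟨s, hs⟩ := card_pos.1 (hq.c3 ▸ by decide : 0 < Tm.card)
  obtain ⟨t, u, h3⟩ := hq.two hs
  obtain ⟨-, ht, hu, -⟩ := h3.mem
  by_cases c1 : ∃ w ∈ Z, G.Rv (D ∪ D') s w
  · exact b_goo_ring hq he hD hD' hd hZ hdZ ht hu h3.2.2.2 (one s hs t ht h3.2.1 c1)
      (one s hs u hu h3.2.2.1 c1)
  by_cases c2 : ∃ w ∈ Z, G.Rv (D ∪ D') t w
  · exact b_goo_ring hq he hD hD' hd hZ hdZ hs hu h3.2.2.1 c1 (one t ht u hu h3.2.2.2 c2)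
  · exact b_goo_ring hq he hD hD' hd hZ hdZ hs ht h3.2.1 c1 c2

/-- every terminal is adjacent to a box that is off another object -/
theorem b_z7_t (hq : G.QG U Nb Tm) (he : G.He Nb Tm) (hB : B ∈ Nb) (hD : G.Ob Nb D)
    (hd : Disjoint D {B}) (ht : t ∈ Tm) (h : G.Sx U t D {B} P Q f g) :
    P = ∅ ∧ G.Je f t B ∧ f ∈ G.A := by
  obtain ⟨h1, x, h2⟩ := hq.ob hD
  refine (fun k => ⟨k.1, k.2, s2_false_mem hq h⟩) (h.box hq hB (disjoint_left.2 fun u hP hu => ?_))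
  by_cases k : t = u
  · exact disjoint_left.1 h.dP hP (k ▸ mem_insert_self _ _)
  · obtain ⟨-, P', Q', f', g', h'⟩ := b_sx hq he hD (ob_box hB) hd hu
    exact (Sx.off hq ht hu k hd ⟨x, mem_inter.2 ⟨h2, h1 h2⟩⟩
      ⟨B, mem_inter.2 ⟨mem_singleton_self B, hq.nb hB⟩⟩ h h').1 hP

/-- the fourth edge of a box that is adjacent to all terminals -/
theorem b_z7_q4 (hq : G.QG U Nb Tm) (hB : B ∈ Nb) (h3 : T3n Tm s t u) {k : E} (he : e ∈ G.A)
    (hf : f ∈ G.A) (hk : k ∈ G.A) (j1 : G.Je e s B) (j2 : G.Je f t B) (j3 : G.Je k u B) :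
    ∃ d, G.Q4 {B} e f k d ∧ ∀ l ∈ G.A, ∀ x, G.Je l x B → x ∈ Tm ∨ l = d := by
  obtain ⟨m1, m2, m3, -⟩ := h3.mem
  have c : ∀ l ∈ G.A, ∀ x, G.Je l x B → l ∈ G.cut {B} := fun l hl x j =>
    hq.cut1.2 ⟨hl, x, j.symm⟩
  have n1 : e ≠ f := fun m => h3.2.1 (s2_diff_je j1.symm (m ▸ j2.symm))
  have n2 : e ≠ k := fun m => h3.2.2.1 (s2_diff_je j1.symm (m ▸ j3.symm))
  have n3 : f ≠ k := fun m => h3.2.2.2 (s2_diff_je j2.symm (m ▸ j3.symm))
  obtain ⟨d, q⟩ : ∃ d, G.Q4 {B} e f k d := by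
    obtain ⟨c1, d1, q⟩ := hq.q4 hB (c e he s j1) (c f hf t j2) n1
    have m := c k hk u j3
    rw [q.1] at m
    simp only [mem_insert, mem_singleton] at m
    rcases m with m | m | rfl | rfl
    exacts [absurd m.symm n2, absurd m.symm n3, ⟨d1, q⟩, ⟨c1, q.swap2⟩]
  refine ⟨d, q, fun l hl x j => ?_⟩
  have m := c l hl x j
  rw [q.1] at m
  simp only [mem_insert, mem_singleton] at m
  rcases m with rfl | rfl | rfl | m
  exacts [Or.inl (s2_diff_je j1.symm j.symm ▸ m1), Or.inl (s2_diff_je j2.symm j.symm ▸ m2),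
    Or.inl (s2_diff_je j3.symm j.symm ▸ m3), Or.inr m]

/-- rings of both signs through two terminals and the box -/
theorem b_z7_mb (hq : G.QG U Nb Tm) (hB : B ∈ Nb) (hD : G.Ob Nb D) (hN : Disjoint D Nb)
    (ht : t ∈ Tm) (hu : u ∈ Tm) (htu : t ≠ u) (h : G.Sx U t D {B} P Q f g)
    (h' : G.Sx U u D {B} P' Q' f' g') (h1 : t ∉ D ∪ {B}) (h2 : u ∉ D ∪ {B}) (j : G.Je f t B)
    (j' : G.Je f' u B) : G.Mb Nb Tm B f f' := fun ε => by
  have a := s2_false_mem hq h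
  have a' := s2_false_mem hq h'
  rw [union_comm] at h1 h2
  obtain ⟨X3, F3, k, k1, -, -, k2, -, -, k3⟩ := link hq ht hu htu
    (disjoint_singleton_left.2 fun m => disjoint_left.1 hN m hB)
    ⟨B, mem_inter.2 ⟨mem_singleton_self B, hq.nb hB⟩⟩ hD h.symm h'.symm h1 h2
    (pw_edge a j (hq.je a j).2.2) (mem_singleton_self f) (mem_singleton_self B)
    (fun w hw => (mem_insert.1 hw).imp_right fun m => Or.inr (mem_singleton.1 m))
    (pw_edge a' j' (hq.je a' j').2.2) (mem_singleton_self f') (mem_singleton_self B)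
    (fun w hw => (mem_insert.1 hw).imp_right fun m => Or.inr (mem_singleton.1 m))
    (G.par {f} + ε)
  refine ⟨_, _, ⟨(k.cw fun m => h1 (mem_union_left _ m)).1, ⟨t, ht, u, hu, htu,
    mem_union_left _ (mem_insert_self _ _), mem_union_right _ k1⟩,
    mem_union_left _ (mem_singleton_self f), mem_union_right _ (k2 (mem_singleton_self f'))⟩,
    Or.inl ?_⟩
  rcases k3 with ⟨k3, -⟩ | ⟨B', hB', rfl, -⟩
  · rw [par_union k.dF, k3, ← add_assoc, z2_add_self, zero_add]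
  · exact absurd hB' (disjoint_singleton_left.1 hN)

/-- another edge of the box does not lead to the component of the terminal -/
theorem b_z7_off (h : G.Sx U t D {B} ∅ Q f g) (htB : t ≠ B) (hBD : B ∉ D) (he : e ∈ G.A)
    (hef : e ≠ f) (j : G.Je e B w) : ¬ G.Rv (insert B D) w t := fun k => by
  obtain ⟨w', j', hw'⟩ := h.eQ
  have bq : B ∉ Q := fun m => disjoint_left.1 h.dQ m
    (mem_insert_of_mem (mem_union_right _ (mem_singleton_self B)))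
  have hw := k.symm.stay (Z := insert t (∅ ∪ Q)) (mem_insert_self _ _) fun l hl x y jl hx hy =>
    Or.inr (by
      rcases h.clo l hl x y jl hx hy with m | m
      · rwa [union_comm, ← insert_eq] at m
      · exact absurd m (notMem_empty l))
  have ng : e ≠ g := by
    rintro rfl
    rcases sx_ends j j' with m | m
    · exact htB m.1.symm
    · exact hw'.elim (fun q => bq (m.1 ▸ q)) fun q => hBD (m.1 ▸ q)
  rw [empty_union] at hw
  rcases mem_insert.1 hw with rfl | hw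
  · have m := sx_cut he j.symm htB.symm
    rw [h.cu] at m
    exact (mem_insert.1 m).elim hef fun q => ng (mem_singleton.1 q)
  · exact (h.cQ e he w B j.symm hw bq).elim hBD fun q => ng (mem_singleton.1 q)

/-- HINT: `Sx.off`, `Sx.box` (symmetric form): all terminals are adjacent to `B`.  The rings come
from `link` with `z = z' = B` and `Ea.cw`. -/
theorem b_z7 (hq : G.QG U Nb Tm) (he : G.He Nb Tm) (hB : B ∈ Nb) (hD : G.Ob Nb D)
    (hN : Disjoint D Nb) : G.Z7 Nb Tm := by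
  have hBD : B ∉ D := fun m => disjoint_left.1 hN m hB
  have hd : Disjoint D {B} := disjoint_singleton_right.2 hBD
  obtain ⟨hg, ho⟩ := b_goo hq he (ob_box hB) hD hd.symm
  rw [← insert_eq] at hg ho
  have key : ∀ t ∈ Tm, t ≠ B ∧ t ∉ D ∪ {B} ∧ ∃ Q f g, G.Sx U t D {B} ∅ Q f g ∧ G.Je f t B ∧
      f ∈ G.A := fun t ht => by
    obtain ⟨k, P, Q, f, g, h⟩ := b_sx hq he hD (ob_box hB) hd ht
    obtain ⟨rfl, j, a⟩ := b_z7_t hq he hB hD hd ht h
    exact ⟨fun m => disjoint_left.1 hq.dj hB (m ▸ ht), k, Q, f, g, h, j, a⟩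
  obtain ⟨s, hs⟩ := card_pos.1 (show 0 < Tm.card by rw [hq.c3]; norm_num)
  obtain ⟨t, u, h3⟩ := hq.two hs
  obtain ⟨-, ht, hu, m4⟩ := h3.mem
  obtain ⟨n1, k1, Q1, f1, g1, x1, j1, a1⟩ := key s hs
  obtain ⟨n2, k2, Q2, f2, g2, x2, j2, a2⟩ := key t ht
  obtain ⟨n3, k3, Q3, f3, g3, x3, j3, a3⟩ := key u hu
  obtain ⟨d, q, -⟩ := b_z7_q4 hq hB h3 a1 a2 a3 j1 j2 j3
  have mo : ∀ e f, G.Mb Nb Tm B e f → G.Mo Tm e f := fun e f h =>
    (h 0).imp fun _ k => k.imp fun _ k => k.1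
  refine ⟨B, f1, f2, f3, d, D, eq_singleton_iff_unique_mem.2 ⟨hB, fun B' hB' => ?_⟩, q, ?_, hBD,
    hg, ho, b_z7_mb hq hB hD hN hs ht h3.2.1 x1 x2 k1 k2 j1 j2,
    mo _ _ (b_z7_mb hq hB hD hN hs hu h3.2.2.1 x1 x3 k1 k3 j1 j3),
    mo _ _ (b_z7_mb hq hB hD hN ht hu h3.2.2.2 x2 x3 k2 k3 j2 j3), fun w j _ => ?_⟩
  · exact (mem_insert.1 (not_not.1 fun m =>
      ho _ (ob_box hB') (disjoint_singleton_left.2 m))).resolve_right
        fun m => disjoint_left.1 hN m hB'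
  · rcases hD with ⟨B', hB', rfl⟩ | ⟨F, h1, h2, -⟩
    · exact absurd hB' (disjoint_singleton_left.1 hN)
    · exact ⟨F, h1, h2⟩
  · have a := (mem_cut.1 q.mem.2.2.2).1
    have o1 := b_z7_off x1 n1 hBD a q.2.2.2.1.symm j
    have o2 := b_z7_off x2 n2 hBD a q.2.2.2.2.2.1.symm j
    have o3 := b_z7_off x3 n3 hBD a q.2.2.2.2.2.2.symm j
    refine ⟨fun v hv => ?_, fun e w' h j' => ?_⟩
    · rcases m4 v hv with rfl | rfl | rfl
      exacts [o1, o2, o3]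
    · rcases h with rfl | rfl | rfl
      exacts [s2_diff_je j1.symm j' ▸ o1, s2_diff_je j2.symm j' ▸ o2, s2_diff_je j3.symm j' ▸ o3]

/-- HINT: all terminals are adjacent to both boxes; `U \ (Nb ∪ Tm)` is left by two edges. -/
theorem b_z8 (hq : G.QG U Nb Tm) (he : G.He Nb Tm) (h1 : B1 ∈ Nb) (h2 : B2 ∈ Nb) (hne : B1 ≠ B2) :
    G.Z8 U Nb Tm := by
  have hd : Disjoint ({B1} : Finset V) {B2} := disjoint_singleton.2 hne
  have hN : Nb = {B1, B2} := Subset.antisymm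
    (fun B hB => not_not.1 fun m => (b_goo hq he (ob_box h1) (ob_box h2) hd).2 _ (ob_box hB)
      (disjoint_singleton_left.2 (by rwa [← insert_eq])))
    (insert_subset h1 (singleton_subset_iff.2 h2))
  have key : ∀ t ∈ Tm, ∃ f g, G.cut {t} = {f, g} ∧ G.Je f t B2 ∧ f ∈ G.A ∧ G.Je g t B1 ∧
      g ∈ G.A := fun t ht => by
    obtain ⟨-, P, Q, f, g, h⟩ := b_sx hq he (ob_box h1) (ob_box h2) hd ht
    exact ⟨f, g, h.cu, (b_z7_t hq he h2 (ob_box h1) hd ht h).2.1,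
      (b_z7_t hq he h2 (ob_box h1) hd ht h).2.2, (b_z7_t hq he h1 (ob_box h2) hd.symm ht h.symm).2⟩
  have nbr : ∀ t ∈ Tm, ∀ e ∈ G.A, ∀ x, G.Je e t x → x ∈ Nb := fun t ht e ha x j => by
    obtain ⟨f, g, c, j2, -, j1, -⟩ := key t ht
    have m := hq.cut1.2 ⟨ha, x, j⟩
    rw [c] at m
    rcases mem_insert.1 m with rfl | m
    · exact s2_diff_je j2 j ▸ h2
    · exact s2_diff_je j1 (mem_singleton.1 m ▸ j) ▸ h1
  obtain ⟨s, hs⟩ := card_pos.1 (show 0 < Tm.card by rw [hq.c3]; norm_num)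
  obtain ⟨t, u, h3⟩ := hq.two hs
  obtain ⟨-, ht, hu, m4⟩ := h3.mem
  obtain ⟨f1, g1, c1, j1, a1, i1, b1⟩ := key s hs
  obtain ⟨f2, g2, c2, j2, a2, i2, b2⟩ := key t ht
  obtain ⟨f3, g3, c3, j3, a3, i3, b3⟩ := key u hu
  obtain ⟨d, q, r⟩ := b_z7_q4 hq h1 h3 b1 b2 b3 i1 i2 i3
  obtain ⟨d', q', r'⟩ := b_z7_q4 hq h2 h3 a1 a2 a3 j1 j2 j3
  have nt : ∀ B ∈ Nb, B ∉ Tm := fun B m => disjoint_left.1 hq.dj m
  have hU : U = Nb ∪ Tm := by
    refine Subset.antisymm (sdiff_eq_empty_iff_subset.1 ?_) (union_subset hq.nb hq.tm)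
    have cl : G.Clo (U \ (Nb ∪ Tm)) ∅ {d, d'} := fun e ha x y j hx hy => by
      obtain ⟨x1, x2⟩ := not_or.1 (mt mem_union.2 (mem_sdiff.1 hx).2)
      rcases mem_union.1 (not_not.1 fun m => hy (mem_sdiff.2 ⟨(hq.je ha j).2.1, m⟩)) with m | m
      · rw [hN] at m
        rcases mem_insert.1 m with rfl | m
        · exact Or.inr (((r e ha x j).resolve_left x2).symm ▸ mem_insert_self _ _)
        · exact Or.inr (mem_insert_of_mem (mem_singleton.2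
            ((r' e ha x (mem_singleton.1 m ▸ j)).resolve_left x2)))
      · exact absurd (nbr y m e ha x j.symm) x1
    have b0 : B1 ∉ U \ (Nb ∪ Tm) := fun m => (mem_sdiff.1 m).2 (mem_union_left _ h1)
    rcases hq.c2 sdiff_subset cl with k | k | ⟨v, hv, k⟩ | ⟨v, hv, k⟩
    · exact k
    · exact absurd (k.symm ▸ hq.nb h1) b0
    · exact absurd (mem_union_right _ hv) (mem_sdiff.1 (k.symm ▸ mem_singleton_self v)).2
    · exact absurd (mem_singleton.1 (k ▸ mem_sdiff.2 ⟨hq.nb h1, b0⟩) ▸ hv) (nt B1 h1)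
  have dd : d = d' := by
    obtain ⟨a, w, j⟩ := hq.cut1.1 q.mem.2.2.2
    have no : ∀ v f g, G.cut {v} = {f, g} → G.Je f v B2 → g ≠ d → w ≠ v := by
      rintro v f g c i n rfl
      have m := hq.cut1.2 ⟨a, B1, j.symm⟩
      rw [c] at m
      rcases mem_insert.1 m with rfl | m
      · exact hne (s2_diff_je j.symm i)
      · exact n (mem_singleton.1 m).symm
    rcases mem_union.1 (hU ▸ (hq.je a j).2.1) with m | m
    · rw [hN] at m
      rcases mem_insert.1 m with m | m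
      · exact absurd m.symm (hq.je a j).2.2
      · exact (r' d a B1 (mem_singleton.1 m ▸ j)).resolve_left (nt B1 h1)
    · rcases m4 w m with m | m | m
      exacts [absurd m (no _ _ _ c1 j1 q.2.2.2.1), absurd m (no _ _ _ c2 j2 q.2.2.2.2.2.1),
        absurd m (no _ _ _ c3 j3 q.2.2.2.2.2.2)]
  exact ⟨B1, B2, s, t, u, g1, g2, g3, f1, f2, f3, d, hN, hne, h3, hU, q, dd ▸ q', i1, i2, i3,
    j1, j2, j3⟩

theorem caseB (hq : G.QG U Nb Tm) (he : G.He Nb Tm) (hD : G.Ob Nb D) (hD' : G.Ob Nb D')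
    (hd : Disjoint D D') : G.Zall U Nb Tm := by
  by_cases two : ∃ B1 ∈ Nb, ∃ B2 ∈ Nb, B1 ≠ B2
  · obtain ⟨B1, h1, B2, h2, hne⟩ := two
    exact Or.inr (Or.inr (Or.inr (Or.inr (Or.inr (Or.inr (Or.inr (Or.inr (Or.inl
      (b_z8 hq he h1 h2 hne)))))))))
  rcases Nb.eq_empty_or_nonempty with h0 | ⟨B, hB⟩
  · have k : ∀ X, G.Ob Nb X → G.Oc X := fun X hX =>
      hX.elim (fun ⟨b, hb, _⟩ => absurd (h0 ▸ hb) (notMem_empty b)) fun ⟨F, h1, h2, _⟩ => ⟨F, h1, h2⟩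
    exact Or.inl ⟨h0, D, D', k D hD, k D' hD', hd, b_goo hq he hD hD' hd⟩
  refine Or.inr (Or.inr (Or.inr (Or.inr (Or.inr (Or.inr (Or.inr (Or.inl ?_)))))))
  rcases id hD with ⟨b, hb, rfl⟩ | ⟨F, -, -, k⟩
  · rcases id hD' with ⟨b', hb', rfl⟩ | ⟨F, -, -, k⟩
    · exact absurd ⟨b, hb, b', hb', disjoint_singleton.1 hd⟩ two
    · exact b_z7 hq he hB hD' k
  · exact b_z7 hq he hB hD k

end SG

end Pool.Agent.Work.MP_8c679b_co
end
end

-- merged part: Pool.Agent.Work.MP_8c679b_co.A3.GA2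
section
/-!
The configuration `Th` off one object `D`; the third terminal `u` has an ear to the even ring.
The hypotheses `hα, hβ, hc` are the result of `th_sig`.
-/

set_option autoImplicit false
set_option linter.unusedSectionVars false

namespace Pool.Agent.Work.MP_8c679b_co

open Finset

namespace SG

variable {V E : Type} [Fintype V] [DecidableEq V] [DecidableEq E] [Nonempty E] {G : SG V E}
  {U Nb Tm X Y Z M L D D' H P Q W X1 X2 A1 A2 A3 A4 S : Finset V}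
  {F F' F1 F2 E1 E2 E3 E4 R : Finset E} {a b c v w x y z s t u B B1 B2 : V} {e f g : E}
  {P' Q' Y1 Y2 Y3 Y4 : Finset V} {f' g' α β : E} {R1 R2 R3 R4 R' : Finset E} {w' z' : V}

theorem a2_tz (h : G.Th Nb Tm s t x y A1 A2 A3 A4 S E1 E2 E3 E4 F) (hD : G.Ob Nb D)
    (hj : Disjoint (A1 ∪ A2 ∪ A3 ∪ A4 ∪ S) D) : G.Tz Nb Tm s (A1 ∪ A4 ∪ S) (E1 ∪ E4 ∪ F) D := by
  refine ⟨h.hs, h.ring.1, mem_union_left _ (mem_union_left _ h.p1.left), ?_, hD, hj.mono_left ?_⟩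
  · exact h.va.imp (fun k => h.ring.2.1.trans k) fun k k' => k (k'.mono_left subset_union_right)
  · intro v
    simp only [mem_union]
    tauto

/-- every box off `D` is an inner vertex of `S` -/
theorem a2_nb (hd : G.Hdd Nb Tm) (h : G.Th Nb Tm s t x y A1 A2 A3 A4 S E1 E2 E3 E4 F)
    (hD : G.Ob Nb D) (hj : Disjoint (A1 ∪ A2 ∪ A3 ∪ A4 ∪ S) D) (hB : B ∈ Nb) (hBD : B ∉ D) :
    B ∈ S ∧ B ∉ A1 ∪ A2 ∪ A3 ∪ A4 ∧ B ∈ G.rc (A1 ∪ A2 ∪ A3 ∪ A4 ∪ D) S := by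
  have h1 : B ∉ A1 ∪ A2 ∪ A3 ∪ A4 := fun k => disjoint_left.1 h.nb k hB
  have h2 : B ∈ S := by
    rcases tz_nb hd (a2_tz h hD hj) hB with k | k
    · simp only [mem_union] at k h1
      tauto
    · exact (hBD (k ▸ mem_singleton_self B)).elim
  exact ⟨h2, h1, mem_rc.2 ⟨B, h2, fun k => (mem_union.1 k).elim h1 hBD, Rv.refl _ _⟩⟩

/-- a neighbour on the even ring of a vertex off the configuration -/
theorem Th.out (hq : G.QG U Nb Tm) (h : G.Th Nb Tm s t x y A1 A2 A3 A4 S E1 E2 E3 E4 F)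
    (he : e ∈ G.A) (hj : G.Je e v z) (hv : v ∉ A1 ∪ A2 ∪ A3 ∪ A4 ∪ S) :
    z ≠ s ∧ z ≠ t ∧ z ≠ x ∧ z ≠ y := by
  have h1 := d3_kind_end hq h Subset.rfl he hj.symm hv
  have h2 := d3_kind_end (M := A1 ∪ A2 ∪ A3 ∪ A4 ∪ S) hq h.sw
    (by intro v; simp only [mem_union]; (clear * - h1; tauto)) he hj.symm hv
  have h3 := d3_kind_end (M := A1 ∪ A2 ∪ A3 ∪ A4 ∪ S) hq h.fl
    (by intro v; simp only [mem_union]; (clear * - h1 h2; tauto)) he hj.symm hv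
  exact ⟨h1.1, h2.1, h1.2, h3.2⟩

/-- HINT: `goo_of` with the reached set. -/
theorem a2_in (hq : G.QG U Nb Tm) (ha : G.Ha Nb Tm)
    (h : G.Th Nb Tm s t x y A1 A2 A3 A4 S E1 E2 E3 E4 F) (h3 : T3n Tm s t u)
    (hD : G.Ob Nb D) (hj : Disjoint (A1 ∪ A2 ∪ A3 ∪ A4 ∪ S) D)
    (hα : G.At α x ∧ α ∈ F) (hβ : G.At β y ∧ β ∈ F)
    (hc : G.Clo (G.rc (A1 ∪ A2 ∪ A3 ∪ A4 ∪ D) S) D {α, β})
    (hu : u ∈ G.rc (A1 ∪ A2 ∪ A3 ∪ A4 ∪ D) S) : G.Gz Nb Tm s (A1 ∪ A4 ∪ S) (E1 ∪ E4 ∪ F) D := by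
  have m : ∀ v, v ∈ A1 ∨ v ∈ A4 → v ∈ (A1 ∪ A4 ∪ S ∪ D) \ ((A1 ∪ A4 ∪ S) ∩ Nb) := by
    intro v hv
    have k : v ∉ Nb := disjoint_left.1 h.nb (by simp only [mem_union]; tauto)
    simp only [mem_sdiff, mem_union, mem_inter]
    tauto
  refine ⟨a2_tz h hD hj, goo_of h3 (m s (Or.inl h.p1.left)) hu (fun k => ?_)
    fun e he p q hpq hp hq' => ?_⟩
  · exact disjoint_left.1 rc_dj k (by simp only [mem_union, h.p2.left, true_or, or_true])
  · rcases hc e he p q hpq hp hq' with k | k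
    · have k1 := disjoint_right.1 hj k
      refine Or.inr ?_
      simp only [mem_sdiff, mem_union, mem_inter] at k1 ⊢
      (clear * - hα hβ k k1; tauto)
    · rcases mem_insert.1 k with rfl | k
      · have k1 := m x (Or.inl h.p1.right)
        rcases hpq.at_iff.1 hα.1 with k2 | k2
        exacts [Or.inl (k2 ▸ k1), Or.inr (k2 ▸ k1)]
      · rw [mem_singleton.1 k] at hpq
        have k1 := m y (Or.inr h.p4.right)
        rcases hpq.at_iff.1 hβ.1 with k2 | k2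
        exacts [Or.inl (k2 ▸ k1), Or.inr (k2 ▸ k1)]

/-- a path from `s` to `y` through `u` with the sign of `A1, S` -/
theorem lad_same_core (ha : G.Ha Nb Tm) (h : G.Th Nb Tm s t x y A1 A2 A3 A4 S E1 E2 E3 E4 F)
    (h3 : T3n Tm s t u) (hD : G.Ob Nb D) (hj : Disjoint (A1 ∪ A2 ∪ A3 ∪ A4 ∪ S) D)
    (pz : G.Pw s y Z R') (uZ : u ∈ Z) (iz : ∀ v ∈ Z, v ∈ A4 → v = s ∨ v = y) (dz : Disjoint Z D)
    (sz : S ⊆ Z) (pp : G.par R' = G.par E1 + G.par F) : False := by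
  have k := (h.third ha h3 hD hj).1
  obtain ⟨c, pc⟩ := cw_of_two pz h.p4 h.sy iz (pz.dj2 h.p4 iz uZ h3.2.2.1.symm
    fun k1 => k (mem_union_right _ (k1 ▸ h.ps.right)))
  refine ha _ ⟨_, c, h.va.imp (fun k1 => ?_) fun k1 k2 => k1 (k2.mono_left
    (sz.trans subset_union_left))⟩ s h.hs u h3.mem.2.2.1 h3.2.2.1 (mem_union_left _ pz.left)
    (mem_union_left _ uZ) D hD (disjoint_union_left.2 ⟨dz, hj.mono_left
      (subset_union_right.trans subset_union_left)⟩)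
  rw [pc, pp, ← k1]
  ring

/-- both ends on `A1` -/
theorem lad_same_one (ha : G.Ha Nb Tm) (h : G.Th Nb Tm s t x y A1 A2 A3 A4 S E1 E2 E3 E4 F)
    (h3 : T3n Tm s t u) (hD : G.Ob Nb D) (hj : Disjoint (A1 ∪ A2 ∪ A3 ∪ A4 ∪ S) D)
    (hp : G.Pw w w' X R) (hu : u ∈ X) (hi : ∀ v ∈ X, v ∈ A1 ∪ A2 ∪ A3 ∪ A4 ∪ S → v = w ∨ v = w')
    (hX : Disjoint X D) (h1 : w ∈ A1) (h2 : w' ∈ A1) : False := by
  obtain ⟨a, b, X1, F1, X2, F2, X3, F3, o, q1, -, q3, eA, -, -, -, i13, -⟩ := h.p1.split2 h1 h2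
  have hp' : G.Pw a b X R ∧ ∀ v ∈ X, v ∈ A1 ∪ A2 ∪ A3 ∪ A4 ∪ S → v = a ∨ v = b := by
    rcases o with ⟨rfl, rfl⟩ | ⟨rfl, rfl⟩
    exacts [⟨hp, hi⟩, ⟨hp.symm, fun v k k1 => (hi v k k1).symm⟩]
  obtain ⟨hp', hi'⟩ := hp'
  have s1 : X1 ⊆ A1 := eA ▸ subset_union_left.trans subset_union_left
  have s3 : X3 ⊆ A1 := eA ▸ subset_union_right
  have m1 : ∀ v ∈ A1, v ∈ A1 ∪ A2 ∪ A3 ∪ A4 ∪ S := fun v k => by simp [k]
  obtain ⟨c1, -⟩ := q1.cat hp' fun v k k1 => (hi' v k1 (m1 v (s1 k))).elim id fun k2 =>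
    (i13 v k (k2 ▸ q3.left)).1
  obtain ⟨c2, -⟩ := c1.cat q3 fun v k k1 => (mem_union.1 k).elim (fun k2 => (i13 v k2 k1).2)
    fun k2 => (hi' v k2 (m1 v (s3 k1))).elim (fun k3 => (i13 v (k3 ▸ q1.right) k1).2) id
  have hA : ∀ v ∈ X1 ∪ X ∪ X3, v ∈ A1 ∪ A2 ∪ A3 ∪ A4 ∪ S → v ∈ A1 := by
    intro v k k1
    rcases mem_union.1 k with k | k
    · rcases mem_union.1 k with k | k
      · exact s1 k
      · rcases hi' v k k1 with rfl | rfl
        exacts [s1 q1.right, s3 q3.left]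
    · exact s3 k
  have hd : Disjoint (X1 ∪ X ∪ X3) D := by
    have k : Disjoint A1 D := hj.mono_left fun v k => m1 v k
    exact disjoint_union_left.2 ⟨disjoint_union_left.2 ⟨k.mono_left s1, hX⟩, k.mono_left s3⟩
  have i14 : ∀ v ∈ X1 ∪ X ∪ X3, v ∈ A4 → v = s := fun v k k1 =>
    h.i14 v (hA v k (by simp [k1])) k1
  have ev := (th_F1_ev ha h.hs h.ht h.st h.sy h.ty c2 h.p2 h.p3 h.p4
    (fun v k k1 => h.i12 v (hA v k (by simp [k1])) k1)
    (disjoint_left.2 fun v k k1 => disjoint_left.1 h.i13 (hA v k (by simp [k1])) k1) i14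
    h.i23 h.i24 h.i34 hD (by
      simp only [disjoint_union_left] at hj hd ⊢
      tauto)).2
  obtain ⟨c3, p3⟩ := c2.cat h.ps fun v k k1 => h.j1 v (hA v k (by simp [k1])) k1
  refine lad_same_core ha h h3 hD hj c3 (by simp [hu]) (fun v k k1 => ?_)
    (disjoint_union_left.2 ⟨hd, hj.mono_left subset_union_right⟩) subset_union_right ?_
  · exact (mem_union.1 k).imp (fun k2 => i14 v k2 k1) fun k2 => h.j4 v k1 k2
  · rw [p3]
    linear_combination ev - h.ev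

/-- one end on `A1`, the other end on `A2` -/
theorem lad_same_two (ha : G.Ha Nb Tm) (h : G.Th Nb Tm s t x y A1 A2 A3 A4 S E1 E2 E3 E4 F)
    (h3 : T3n Tm s t u) (hD : G.Ob Nb D) (hj : Disjoint (A1 ∪ A2 ∪ A3 ∪ A4 ∪ S) D)
    (hp : G.Pw w w' X R) (hu : u ∈ X) (hi : ∀ v ∈ X, v ∈ A1 ∪ A2 ∪ A3 ∪ A4 ∪ S → v = w ∨ v = w')
    (hX : Disjoint X D) (h1 : w ∈ A1) (h2 : w' ∈ A2) (x1 : w ≠ x) (x2 : w' ≠ x) : False := by
  obtain ⟨Y1, R1, Y2, R2, q1, q2, e1, -, i1, -⟩ := h.p1.split h1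
  obtain ⟨Y3, R3, Y4, R4, q3, q4, e2, -, i2, pp2⟩ := h.p2.split h2
  have s1 : Y1 ⊆ A1 := e1 ▸ subset_union_left
  have s3 : Y3 ⊆ A2 := e2 ▸ subset_union_left
  have s4 : Y4 ⊆ A2 := e2 ▸ subset_union_right
  have xY1 : x ∉ Y1 := fun k => x1 (i1 x k q2.right).symm
  have xY3 : x ∉ Y3 := fun k => x2 (i2 x k q4.right).symm
  have d12 : ∀ v ∈ Y1, v ∉ A2 := fun v k k1 => xY1 (h.i12 v (s1 k) k1 ▸ k)
  obtain ⟨c1, pc1⟩ := q1.cat hp fun v k k1 => (hi v k1 (by simp [s1 k])).elim id fun k2 =>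
    absurd (k2 ▸ h2) (d12 v k)
  have hA : ∀ v ∈ Y1 ∪ X, v ∈ A1 ∪ A2 ∪ A3 ∪ A4 ∪ S → v ∈ Y1 ∨ v = w' := by
    intro v k k1
    rcases mem_union.1 k with k | k
    · exact Or.inl k
    · exact (hi v k k1).imp_left fun k2 => by rw [k2]; exact q1.right
  have hA2 : ∀ v ∈ Y1 ∪ X, v ∈ A2 → v = w' := fun v k k1 =>
    (hA v k (by simp [k1])).resolve_left fun k2 => d12 v k2 k1
  have i14 : ∀ v ∈ Y1 ∪ X, v ∈ A4 → v = s := fun v k k1 =>
    (hA v k (by simp [k1])).elim (fun k2 => h.i14 v (s1 k2) k1) fun k2 =>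
      absurd k1 (disjoint_left.1 h.i24 (k2 ▸ h2))
  have hj' := hj
  simp only [disjoint_union_left] at hj'
  obtain ⟨⟨⟨⟨j1, j2⟩, j3⟩, j4⟩, j5⟩ := hj'
  have hd : Disjoint (Y1 ∪ X) D := disjoint_union_left.2 ⟨j1.mono_left s1, hX⟩
  -- the ring through `s` and `t`
  obtain ⟨c2, pc2⟩ := c1.cat q3.symm fun v k k1 => hA2 v k (s3 k1)
  obtain ⟨c3, pc3⟩ := h.p4.cat h.p3.symm fun v k k1 => h.i34 v k1 k
  have iz : ∀ v ∈ Y1 ∪ X ∪ Y3, v ∈ A4 ∪ A3 → v = s ∨ v = t := by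
    intro v k k1
    rcases mem_union.1 k with k | k <;> rcases mem_union.1 k1 with k1 | k1
    · exact Or.inl (i14 v k k1)
    · rcases hA v k (by simp [k1]) with k2 | k2
      · exact absurd k1 (disjoint_left.1 h.i13 (s1 k2))
      · exact Or.inr (h.i23 v (k2 ▸ h2) k1)
    · exact absurd k1 (disjoint_left.1 h.i24 (s3 k))
    · exact Or.inr (h.i23 v (s3 k) k1)
  obtain ⟨c4, pc4⟩ := cw_of_two c2 c3 h.st iz (c2.dj2 c3 iz (v := u) (by simp [hu])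
    h3.2.2.1.symm h3.2.2.2.symm)
  have ev : G.par (R1 ∪ R ∪ R3 ∪ (E4 ∪ E3)) = 0 := by
    refine (z2 _).resolve_right fun k => ?_
    refine ha _ ⟨_, c4, Or.inl k⟩ s h.hs t h.ht h.st (mem_union_left _ c2.left)
      (mem_union_left _ c2.right) D hD ?_
    exact disjoint_union_left.2 ⟨disjoint_union_left.2 ⟨hd, j2.mono_left s3⟩,
      disjoint_union_left.2 ⟨j4, j3⟩⟩
  rw [pc4, pc2, pc1, pc3] at ev
  -- the ring through `s` and `u`
  obtain ⟨c5, pc5⟩ := q4.cat h.ps fun v k k1 => h.j2 v (s4 k) k1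
  obtain ⟨c6, pc6⟩ := c1.cat c5 fun v k k1 => (mem_union.1 k1).elim (fun k2 => hA2 v k (s4 k2))
    fun k2 => (hA v k (by simp [k2])).resolve_left fun k3 => xY1 (h.j1 v (s1 k3) k2 ▸ k3)
  refine lad_same_core ha h h3 hD hj c6 (by simp [hu]) (fun v k k1 => ?_)
    (disjoint_union_left.2 ⟨hd, disjoint_union_left.2 ⟨j2.mono_left s4, j5⟩⟩)
    (subset_union_right.trans subset_union_right) ?_
  · rcases mem_union.1 k with k | k
    · exact Or.inl (i14 v k k1)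
    · rcases mem_union.1 k with k | k
      · exact absurd k1 (disjoint_left.1 h.i24 (s4 k))
      · exact Or.inr (h.j4 v k1 k)
  · rw [pc6, pc1, pc5]
    linear_combination ev - h.ev + pp2 + z2_add_self (G.par R4)

/-- both ends on the arc through `x`.  HINT: the ring of `Th.arc` is not valid, so the ear has the
sign of the piece it replaces.  Both ends in `A1`: replace the piece in the ring of `Th.ring`
(`Pw.split2`).  Both in `A2`: `Th.sw`.  One in each: the ring `s, w, ear, w', x, S, y`. -/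
theorem lad_same (hq : G.QG U Nb Tm) (ha : G.Ha Nb Tm)
    (h : G.Th Nb Tm s t x y A1 A2 A3 A4 S E1 E2 E3 E4 F) (h3 : T3n Tm s t u)
    (hD : G.Ob Nb D) (hj : Disjoint (A1 ∪ A2 ∪ A3 ∪ A4 ∪ S) D)
    (hp : G.Pw w w' X R) (hu : u ∈ X) (hi : ∀ v ∈ X, v ∈ A1 ∪ A2 ∪ A3 ∪ A4 ∪ S → v = w ∨ v = w')
    (hX : Disjoint X D) (hne : w ≠ w') (h1 : w ∈ A1 ∪ A2) (h2 : w' ∈ A1 ∪ A2) (x1 : w ≠ x)
    (x2 : w' ≠ x) : False := by
  have hi' : ∀ v ∈ X, v ∈ A2 ∪ A1 ∪ A4 ∪ A3 ∪ S → v = w ∨ v = w' := fun v k k1 =>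
    hi v k (by simp only [mem_union] at k1 ⊢; (clear * - k1; tauto))
  have hj' : Disjoint (A2 ∪ A1 ∪ A4 ∪ A3 ∪ S) D := by
    simp only [disjoint_union_left] at hj ⊢
    tauto
  rcases mem_union.1 h1 with h1 | h1 <;> rcases mem_union.1 h2 with h2 | h2
  · exact lad_same_one ha h h3 hD hj hp hu hi hX h1 h2
  · exact lad_same_two ha h h3 hD hj hp hu hi hX h1 h2 x1 x2
  · exact lad_same_two ha h.sw h3.sw1 hD hj' hp hu hi' hX h1 h2 x1 x2
  · exact lad_same_one ha h.sw h3.sw1 hD hj' hp hu hi' hX h1 h2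

/-- HINT: both rings of `Th.crs13` contain `s, u` and are not valid; their signs differ by the sign
of the ring through `t` and `S`. -/
theorem lad_cross (hq : G.QG U Nb Tm) (ha : G.Ha Nb Tm)
    (h : G.Th Nb Tm s t x y A1 A2 A3 A4 S E1 E2 E3 E4 F) (h3 : T3n Tm s t u)
    (hD : G.Ob Nb D) (hj : Disjoint (A1 ∪ A2 ∪ A3 ∪ A4 ∪ S) D)
    (hp : G.Pw w w' X R) (hu : u ∈ X) (hi : ∀ v ∈ X, v ∈ A1 ∪ A2 ∪ A3 ∪ A4 ∪ S → v = w ∨ v = w')
    (hX : Disjoint X D) (h1 : w ∈ A1) (h2 : w' ∈ A3) (x1 : w ≠ x) (x2 : w' ≠ y) : False := by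
  obtain ⟨Y1, F1, Y2, F2, Y3, F3, Y4, F4, p1, -, -, -, e1, e3, -, -, -, q3, k⟩ :=
    h.crs13 h1 h2 x1 x2
  obtain ⟨⟨F', c1, -, -, c2⟩, F'', c3, c4⟩ := k X R hp hi
  have key : ∀ Y F0, G.Cw Y F0 → Y1 ⊆ Y → X ⊆ Y → Y ⊆ A1 ∪ A2 ∪ A3 ∪ A4 ∪ S ∪ X →
      G.par F0 = 0 ∧ Disjoint Y Nb := by
    intro Y F0 c s1 s2 s3
    have k1 : ¬ (G.par F0 = 1 ∨ ¬ Disjoint Y Nb) := fun k1 =>
      ha Y ⟨F0, c, k1⟩ s h.hs u h3.mem.2.2.1 h3.2.2.1 (s1 p1.left) (s2 hu) D hD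
        ((disjoint_union_left.2 ⟨hj, hX⟩).mono_left s3)
    rw [not_or, not_not] at k1
    exact ⟨(z2 _).resolve_right k1.1, k1.2⟩
  have a1 : ∀ v, v ∈ Y1 → v ∈ A1 := fun v k => e1 ▸ mem_union_left _ k
  have a3 : ∀ v, v ∈ Y3 → v ∈ A3 := fun v k => e3 ▸ mem_union_left _ k
  have a4 : ∀ v, v ∈ Y4 → v ∈ A3 := fun v k => e3 ▸ mem_union_right _ k
  obtain ⟨r1, r2⟩ := key _ _ c1 (by intro v; simp only [mem_union]; tauto)
    (by intro v; simp only [mem_union]; tauto) (by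
      intro v
      have := a1 v
      have := a3 v
      simp only [mem_union]
      grind)
  obtain ⟨r3, -⟩ := key _ _ c3 (by intro v; simp only [mem_union]; tauto)
    (by intro v; simp only [mem_union]; tauto) (by
      intro v
      have := a1 v
      have := a4 v
      simp only [mem_union]
      grind)
  rcases h.va with k1 | k1
  · have hev := h.ev
    rw [c2] at r1
    rw [c4] at r3
    have h2 : (2 : ZMod 2) = 0 := rfl
    have h4 : (1 : ZMod 2) = 0 := by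
      linear_combination r1 + r3 + hev - k1 - q3 -
        (G.par F1 + G.par R + G.par E4 + G.par E2 + G.par F3 + G.par F4) * h2
    exact one_ne_zero h4
  · exact k1 (r2.mono_left (by intro v; simp only [mem_union]; tauto))

/-- two paths between two terminals that form a ring off an object -/
theorem lad_pi1_ev (ha : G.Ha Nb Tm) (hs : s ∈ Tm) (ht : t ∈ Tm) (st : s ≠ t) (hD : G.Ob Nb D)
    (p : G.Pw s t P F1) (q : G.Pw s t Q F2) (hi : ∀ v ∈ Q, v ∈ P → v = s ∨ v = t) (hv : v ∈ Q)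
    (h1 : v ≠ s) (h2 : v ≠ t) (dP : Disjoint P D) (dQ : Disjoint Q D) :
    G.par F2 = G.par F1 ∧ Disjoint Q Nb := by
  obtain ⟨c1, c2⟩ := cw_of_two q p st hi (q.dj2 p hi hv h1 h2)
  have k : ¬ G.Vr Nb (Q ∪ P) := fun k => ha _ k s hs t ht st (mem_union_left _ q.left)
    (mem_union_left _ q.right) D hD (disjoint_union_left.2 ⟨dQ, dP⟩)
  constructor
  · by_contra k'
    refine k ⟨_, c1, Or.inl ?_⟩
    rw [c2]
    revert k'
    generalize G.par F2 = p2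
    generalize G.par F1 = p1
    revert p1 p2
    decide
  · by_contra k'
    exact k ⟨_, c1, Or.inr fun d => k' (d.mono_left subset_union_left)⟩

/-- `W` replaces the segment `A1`, and `P` is a path from `s` to `t` -/
theorem lad_pi1_fin (ha : G.Ha Nb Tm) (h : G.Th Nb Tm s t x y A1 A2 A3 A4 S E1 E2 E3 E4 F)
    (hD : G.Ob Nb D) (hj : Disjoint (A1 ∪ A2 ∪ A3 ∪ A4 ∪ S) D) (pW : G.Pw s x W R)
    (qW : G.par R = G.par E1) (dW : Disjoint W D) (w2 : ∀ v ∈ W, v ∈ A2 → v = x)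
    (w3 : Disjoint W A3) (wS : ∀ v ∈ W, v ∈ S → v = x) (pP : G.Pw s t P R') (dP : Disjoint P D)
    (i1 : ∀ v ∈ W ∪ S ∪ A4, v ∈ P → v = s)
    (i2 : (∀ v ∈ A2, v ∈ P → v = t) ∨ ∀ v ∈ A3, v ∈ P → v = t) : False := by
  simp only [disjoint_union_left] at hj
  obtain ⟨⟨⟨⟨-, d2⟩, d3⟩, d4⟩, dS⟩ := hj
  have two : (2 : ZMod 2) = 0 := rfl
  have fin : G.par E1 + G.par E4 + G.par F = 0 → Disjoint S Nb → False := fun k1 k2 =>
    h.va.elim (fun k => zero_ne_one (k1.symm.trans k)) fun k => k k2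
  rcases i2 with i2 | i2
  · obtain ⟨a1, b1⟩ := pW.cat h.p2.symm w2
    obtain ⟨a2, b2⟩ := h.p4.cat h.ps.symm h.j4
    obtain ⟨a3, b3⟩ := a2.cat h.p2.symm fun v k k' => (mem_union.1 k).elim
      (fun k => (disjoint_left.1 h.i24 k' k).elim) (h.j2 v k')
    obtain ⟨c1, -⟩ := lad_pi1_ev ha h.hs h.ht h.st hD pP a1
      (fun v k k' => (mem_union.1 k).imp (fun k => i1 v (by simp [k]) k') fun k => i2 v k k')
      (mem_union_left _ pW.right) h.sx.symm h.tx.symm dP (disjoint_union_left.2 ⟨dW, d2⟩)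
    obtain ⟨c2, c3⟩ := lad_pi1_ev ha h.hs h.ht h.st hD pP a3
      (fun v k k' => (mem_union.1 k).imp
        (fun k => i1 v (by simp only [mem_union] at k ⊢; tauto) k') fun k => i2 v k k')
      (mem_union_right _ h.p2.right) h.sx.symm h.tx.symm dP
      (disjoint_union_left.2 ⟨disjoint_union_left.2 ⟨d4, dS⟩, d2⟩)
    refine fin ?_ (c3.mono_left (subset_union_right.trans subset_union_left))
    rw [b1, qW] at c1
    rw [b3, b2] at c2
    linear_combination c1 - c2 + (G.par E4 + G.par F) * two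
  · obtain ⟨a1, b1⟩ := h.p4.cat h.p3.symm fun v k k' => h.i34 v k' k
    obtain ⟨a2, b2⟩ := pW.cat h.ps wS
    obtain ⟨a3, b3⟩ := a2.cat h.p3.symm fun v k k' => (mem_union.1 k).elim
      (fun k => (disjoint_left.1 w3 k k').elim) (h.j3 v k')
    obtain ⟨c1, -⟩ := lad_pi1_ev ha h.hs h.ht h.st hD pP a1
      (fun v k k' => (mem_union.1 k).imp (fun k => i1 v (by simp [k]) k') fun k => i2 v k k')
      (mem_union_left _ h.p4.right) h.sy.symm h.ty.symm dP (disjoint_union_left.2 ⟨d4, d3⟩)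
    obtain ⟨c2, c3⟩ := lad_pi1_ev ha h.hs h.ht h.st hD pP a3
      (fun v k k' => (mem_union.1 k).imp (fun k => i1 v (mem_union_left _ k) k') fun k => i2 v k k')
      (mem_union_right _ h.p3.right) h.sy.symm h.ty.symm dP
      (disjoint_union_left.2 ⟨disjoint_union_left.2 ⟨dW, dS⟩, d3⟩)
    refine fin ?_ (c3.mono_left (subset_union_right.trans subset_union_left))
    rw [b1] at c1
    rw [b3, b2, qW] at c2
    linear_combination c2 - c1 + G.par E4 * two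

/-- no path joins the piece at `s` to the half through `t`.  HINT: `z' ∈ A2`: the ring of `Th.arc`
is even; then the ring `s, z, Z, z', t, y, S, x, w, X, w'` is valid.  `z' ∈ A3`: the ring
`s, z, Z, z', t, x, w, X, w'` is even; then the first ring of `Th.crs13` is valid.  Both times use
`hev`. -/
theorem lad_pi1 (hq : G.QG U Nb Tm) (ha : G.Ha Nb Tm)
    (h : G.Th Nb Tm s t x y A1 A2 A3 A4 S E1 E2 E3 E4 F) (h3 : T3n Tm s t u)
    (hD : G.Ob Nb D) (hj : Disjoint (A1 ∪ A2 ∪ A3 ∪ A4 ∪ S) D)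
    (p1 : G.Pw s w Y1 R1) (p2 : G.Pw w x Y2 R2) (p3 : G.Pw s w' Y3 R3) (p4 : G.Pw w' y Y4 R4)
    (e1 : A1 = Y1 ∪ Y2) (e4 : A4 = Y3 ∪ Y4) (i1 : ∀ v ∈ Y1, v ∈ Y2 → v = w)
    (i4 : ∀ v ∈ Y3, v ∈ Y4 → v = w') (q1 : G.par E1 = G.par R1 + G.par R2)
    (q4 : G.par E4 = G.par R3 + G.par R4) (x1 : w ≠ x) (x2 : w' ≠ y)
    (hp : G.Pw w w' X R) (hu : u ∈ X) (hi : ∀ v ∈ X, v ∈ A1 ∪ A2 ∪ A3 ∪ A4 ∪ S → v = w ∨ v = w')
    (hX : Disjoint X D) (hev : G.par R1 + G.par R3 + G.par R = 0)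
    (hz : G.Pw z z' Z R') (z1 : z ∈ Y1) (zw : z ≠ w) (z2 : z' ∈ A2 ∪ A3) (zx : z' ≠ x) (zy : z' ≠ y)
    (hZ : ∀ v ∈ Z, v ∈ A1 ∪ A2 ∪ A3 ∪ A4 ∪ S ∪ X → v = z ∨ v = z') (hZD : Disjoint Z D) : False := by
  obtain ⟨Ya, Ra, Yb, Rb, pa, pb, ey, -, iy, -⟩ := p1.split z1
  have ws : w ≠ s := by
    rintro rfl
    rw [p1.eq_of.1] at z1
    exact zw (mem_singleton.1 z1)
  have sa : Ya ⊆ Y1 := ey ▸ subset_union_left
  have s1 : Y1 ⊆ A1 := e1 ▸ subset_union_left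
  have s2 : Y2 ⊆ A1 := e1 ▸ subset_union_right
  have s3 : Y3 ⊆ A4 := e4 ▸ subset_union_left
  have wa : w ∉ Ya := fun k => zw (iy w k pb.right).symm
  have xa : x ∉ Ya := fun k => x1 (i1 x (sa k) p2.right).symm
  have y3 : y ∉ Y3 := fun k => x2 (i4 y k p4.right).symm
  have n2 : s ∉ Y2 := fun k => ws (i1 s p1.left k).symm
  have m1 : w ∈ A1 := s2 p2.left
  have m4 : w' ∈ A4 := s3 p3.right
  have j13 := disjoint_left.1 h.i13
  have j24 := disjoint_left.1 h.i24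
  have jD := disjoint_left.1 hj
  have k1 : ∀ v ∈ X, v ∈ A1 → v = w ∨ v = w' := fun v k k' => hi v k (by simp [k'])
  have k2 : ∀ v ∈ X, v ∉ A2 := fun v k k' => (hi v k (by simp [k'])).elim
    (fun e => x1 (h.i12 w m1 (e ▸ k'))) fun e => j24 (e ▸ k') m4
  have k3 : ∀ v ∈ X, v ∉ A3 := fun v k k' => (hi v k (by simp [k'])).elim
    (fun e => j13 m1 (e ▸ k')) fun e => x2 (h.i34 w' (e ▸ k') m4)
  have k4 : ∀ v ∈ X, v ∈ A4 → v = w' := fun v k k' => (hi v k (by simp [k'])).elim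
    (fun e => (ws (h.i14 w m1 (e ▸ k'))).elim) id
  have kS : ∀ v ∈ X, v ∉ S := fun v k k' => (hi v k (by simp [k'])).elim
    (fun e => x1 (h.j1 w m1 (e ▸ k'))) fun e => x2 (h.j4 w' m4 (e ▸ k'))
  obtain ⟨a1, b1⟩ := p3.cat hp.symm fun v k k' => k4 v k' (s3 k)
  obtain ⟨a2, b2⟩ := a1.cat p2 fun v k k' => (mem_union.1 k).elim
    (fun k => (n2 (h.i14 v (s2 k') (s3 k) ▸ k')).elim) fun k => (k1 v k (s2 k')).elim id
      fun e => (n2 (h.i14 v (s2 k') (e ▸ m4) ▸ k')).elim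
  have qW : G.par (R3 ∪ R ∪ R2) = G.par E1 := by
    have two : (2 : ZMod 2) = 0 := rfl
    rw [b2, b1, q1]
    linear_combination hev - G.par R1 * two
  have dW : Disjoint (Y3 ∪ X ∪ Y2) D := disjoint_union_left.2 ⟨disjoint_union_left.2
    ⟨disjoint_left.2 fun v k => jD (by simp [s3 k]), hX⟩,
    disjoint_left.2 fun v k => jD (by simp [s2 k])⟩
  have w2 : ∀ v ∈ Y3 ∪ X ∪ Y2, v ∈ A2 → v = x := fun v k k' => (mem_union.1 k).elim
    (fun k => (mem_union.1 k).elim (fun k => (j24 k' (s3 k)).elim) fun k => (k2 v k k').elim)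
    fun k => h.i12 v (s2 k) k'
  have w3 : Disjoint (Y3 ∪ X ∪ Y2) A3 := disjoint_left.2 fun v k k' => (mem_union.1 k).elim
    (fun k => (mem_union.1 k).elim (fun k => y3 (h.i34 v k' (s3 k) ▸ k)) fun k => k3 v k k')
    fun k => j13 (s2 k) k'
  have wS : ∀ v ∈ Y3 ∪ X ∪ Y2, v ∈ S → v = x := fun v k k' => (mem_union.1 k).elim
    (fun k => (mem_union.1 k).elim (fun k => (y3 (h.j4 v (s3 k) k' ▸ k)).elim)
      fun k => (kS v k k').elim) fun k => h.j1 v (s2 k) k'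
  have wa1 : ∀ v ∈ Y3 ∪ X ∪ Y2 ∪ S ∪ A4, v ∈ Ya → v = s := by
    intro v k k'
    have m := s1 (sa k')
    simp only [mem_union] at k
    rcases k with (((k | k) | k) | k) | k
    · exact h.i14 v m (s3 k)
    · exact (k1 v k m).elim (fun e => (wa (e ▸ k')).elim) fun e => h.i14 v m (e ▸ m4)
    · exact (wa (i1 v (sa k') k ▸ k')).elim
    · exact (xa (h.j1 v m k ▸ k')).elim
    · exact h.i14 v m k
  have key : ∀ T Ta Ga, G.Pw t z' Ta Ga → T = A2 ∨ T = A3 → Ta ⊆ A2 ∪ A3 → Disjoint Ya (A2 ∪ A3) →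
      (∀ v ∈ Y3 ∪ X ∪ Y2 ∪ S ∪ A4, v ∉ Ta) → (∀ v ∈ T, v ∈ Ta → v = t) → False := by
    intro T Ta Ga pt hT sT dT n1 n2
    have dT' := disjoint_left.1 dT
    have hZ' : ∀ v ∈ Z, v ∈ A1 ∪ A2 ∪ A3 ∪ A4 ∪ S ∪ X → v ∈ Ya ∨ v ∈ Ta := fun v k k' =>
      (hZ v k k').elim (fun e => Or.inl (e ▸ pa.right)) fun e => Or.inr (e ▸ pt.right)
    obtain ⟨a3, -⟩ := pa.cat hz fun v k k' => (hZ v k' (by simp [s1 (sa k)])).elim id
      fun e => (dT' k (e ▸ z2)).elim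
    obtain ⟨a4, -⟩ := a3.cat pt.symm fun v k k' => (mem_union.1 k).elim
      (fun k => (dT' k (sT k')).elim) fun k => (hZ v k (by
        have := sT k'
        simp only [mem_union] at this ⊢
        (clear * - hT this; grind))).elim (fun e => (dT' (e ▸ pa.right) (sT k')).elim) id
    have l1 : ∀ v ∈ Ya ∪ Z ∪ Ta, v ∈ A1 ∪ A2 ∪ A3 ∪ A4 ∪ S ∪ X → v ∈ Ya ∨ v ∈ Ta :=
      fun v k k' => (mem_union.1 k).elim
        (fun k => (mem_union.1 k).elim Or.inl fun k => hZ' v k k') Or.inr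
    have l2 : ∀ v ∈ T, v ∈ Ya ∪ Z ∪ Ta → v = t := fun v k k' =>
      (l1 v k' (by rcases hT with rfl | rfl <;> simp [k])).elim
        (fun k'' => (dT' k'' (by rcases hT with rfl | rfl <;> simp [k])).elim) (n2 v k)
    refine lad_pi1_fin ha h hD hj a2 qW dW w2 w3 wS a4 ?_ (fun v k k' => ?_) ?_
    · refine disjoint_union_left.2 ⟨disjoint_union_left.2
        ⟨disjoint_left.2 fun v k => jD (by simp [s1 (sa k)]), hZD⟩,
        disjoint_left.2 fun v k => jD ?_⟩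
      have := sT k
      simp only [mem_union] at this ⊢
      (clear * - hT this; tauto)
    · refine (l1 v k' ?_).elim (wa1 v k) fun k'' => (n1 v k k'').elim
      have u2 := @s2 v
      have u3 := @s3 v
      simp only [mem_union] at k ⊢
      (clear * - hT k u2 u3; grind)
    · rcases hT with rfl | rfl
      · exact Or.inl l2
      · exact Or.inr l2
  have dT : Disjoint Ya (A2 ∪ A3) := disjoint_left.2 fun v k k' => (mem_union.1 k').elim
    (fun k' => xa (h.i12 v (s1 (sa k)) k' ▸ k)) (j13 (s1 (sa k)))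
  rcases mem_union.1 z2 with z2 | z2
  · obtain ⟨Ta, Ga, Tb, Gb, pt, pt', et, -, it, -⟩ := h.p2.split z2
    have sT : Ta ⊆ A2 := et ▸ subset_union_left
    have nx : x ∉ Ta := fun k => zx (it x k pt'.right).symm
    refine key A3 Ta Ga pt (Or.inr rfl) (sT.trans subset_union_left) dT (fun v k k' => ?_)
      fun v k k' => h.i23 v (sT k') k
    rcases mem_union.1 k with k | k
    · rcases mem_union.1 k with k | k
      · exact nx (w2 v k (sT k') ▸ k')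
      · exact nx (h.j2 v (sT k') k ▸ k')
    · exact j24 (sT k') k
  · obtain ⟨Ta, Ga, Tb, Gb, pt, pt', et, -, it, -⟩ := h.p3.split z2
    have sT : Ta ⊆ A3 := et ▸ subset_union_left
    have ny : y ∉ Ta := fun k => zy (it y k pt'.right).symm
    refine key A2 Ta Ga pt (Or.inl rfl) (sT.trans subset_union_right) dT (fun v k k' => ?_)
      fun v k k' => h.i23 v k (sT k')
    rcases mem_union.1 k with k | k
    · rcases mem_union.1 k with k | k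
      · exact disjoint_left.1 w3 k (sT k')
      · exact ny (h.j3 v (sT k') k ▸ k')
    · exact ny (h.i34 v (sT k') k ▸ k')

/-- a path from `s` to `t` that misses everything but `Y1, Y3, A2, A3` -/
theorem lad_par_path (hq : G.QG U Nb Tm) (ha : G.Ha Nb Tm)
    (h : G.Th Nb Tm s t x y A1 A2 A3 A4 S E1 E2 E3 E4 F) (h3 : T3n Tm s t u)
    (hD : G.Ob Nb D) (hj : Disjoint (A1 ∪ A2 ∪ A3 ∪ A4 ∪ S) D)
    (p1 : G.Pw s w Y1 R1) (p2 : G.Pw w x Y2 R2) (p3 : G.Pw s w' Y3 R3) (p4 : G.Pw w' y Y4 R4)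
    (e1 : A1 = Y1 ∪ Y2) (e4 : A4 = Y3 ∪ Y4) (i1 : ∀ v ∈ Y1, v ∈ Y2 → v = w)
    (i4 : ∀ v ∈ Y3, v ∈ Y4 → v = w') (q1 : G.par E1 = G.par R1 + G.par R2)
    (q4 : G.par E4 = G.par R3 + G.par R4) (x1 : w ≠ x) (x2 : w' ≠ y)
    (hp : G.Pw w w' X R) (hu : u ∈ X) (hi : ∀ v ∈ X, v ∈ A1 ∪ A2 ∪ A3 ∪ A4 ∪ S → v = w ∨ v = w')
    (hX : Disjoint X D) (hev : G.par R1 + G.par R3 + G.par R = 0) (hP : G.Pw s t P R')
    (o : ∀ v ∈ P, v ∉ X ∧ v ∉ Y2 ∧ v ∉ S ∧ v ∉ Y4 ∧ v ∉ D) : False := by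
  obtain ⟨z', P1, G1, P2, G2, hz', c1, -, eP, -, -, -, o1⟩ := hP.first (M := A2 ∪ A3)
    (fun k => disjoint_left.1 k hP.right (mem_union_left _ h.p2.left))
  obtain ⟨z, Z, G3, P4, G4, hz, c3, -, eZ, -, -, -, o3⟩ := c1.symm.first (M := Y1 ∪ Y3)
    (fun k => disjoint_left.1 k c1.left (mem_union_left _ p1.left))
  have s1 : Z ⊆ P1 := eZ ▸ subset_union_left
  have s2 : Z ⊆ P := s1.trans (eP ▸ subset_union_left)
  have hZ : ∀ v ∈ Z, v ∈ A1 ∪ A2 ∪ A3 ∪ A4 ∪ S ∪ X → v = z ∨ v = z' := by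
    intro v hv k
    obtain ⟨k1, k2, k3, k4, -⟩ := o v (s2 hv)
    rw [e1, e4] at k
    simp only [mem_union] at k
    rcases k with (((((k | k) | k) | k) | k | k) | k) | k
    exacts [Or.inl (o3 v hv (mem_union_left _ k)), (k2 k).elim,
      Or.inr (o1 v (s1 hv) (mem_union_left _ k)), Or.inr (o1 v (s1 hv) (mem_union_right _ k)),
      Or.inl (o3 v hv (mem_union_right _ k)), (k4 k).elim, (k3 k).elim, (k1 k).elim]
  have hZD : Disjoint Z D := disjoint_left.2 fun v hv => (o v (s2 hv)).2.2.2.2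
  obtain ⟨zX, -⟩ := o z (s2 c3.right)
  obtain ⟨-, -, zS, -⟩ := o z' (s2 c3.left)
  have zx : z' ≠ x := fun k => zS (k ▸ h.ps.left)
  have zy : z' ≠ y := fun k => zS (k ▸ h.ps.right)
  rcases mem_union.1 hz with k | k
  · exact lad_pi1 hq ha h h3 hD hj p1 p2 p3 p4 e1 e4 i1 i4 q1 q4 x1 x2 hp hu hi hX hev c3.symm k
      (fun e => zX (e ▸ hp.left)) hz' zx zy hZ hZD
  · have e : A4 ∪ A3 ∪ A2 ∪ A1 = A1 ∪ A2 ∪ A3 ∪ A4 := by
      ext v; simp only [mem_union]; (clear * -; tauto)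
    exact lad_pi1 hq ha h.fl h3 hD (e ▸ hj) p3 p4 p1 p2 e4 e1 i4 i1 q4 q1 x2 x1 hp.symm hu
      (fun v hv m => (hi v hv (e ▸ m)).symm) hX (by linear_combination hev) c3.symm k
      (fun e => zX (e ▸ hp.right)) (union_comm A2 A3 ▸ hz') zy zx (e ▸ hZ) hZD

/-- HINT: `Th.par14`; the ring through `s` and the ear is even, so the ring `H' = X, Y2, S, Y4` is
valid.  A path from `s` to `t` off `(H' ∪ D) \ (H' ∩ Nb)` does not enter the reached set (`hc`), so it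
misses `S`; its last vertex on `Y1 ∪ Y3` and the next vertex on `A2 ∪ A3` give `lad_pi1` (or its
mirror image by `Th.fl`). -/
theorem lad_par (hq : G.QG U Nb Tm) (ha : G.Ha Nb Tm) (hd : G.Hdd Nb Tm)
    (h : G.Th Nb Tm s t x y A1 A2 A3 A4 S E1 E2 E3 E4 F) (h3 : T3n Tm s t u)
    (hD : G.Ob Nb D) (hj : Disjoint (A1 ∪ A2 ∪ A3 ∪ A4 ∪ S) D)
    (hα : G.At α x ∧ α ∈ F) (hβ : G.At β y ∧ β ∈ F)
    (hc : G.Clo (G.rc (A1 ∪ A2 ∪ A3 ∪ A4 ∪ D) S) D {α, β})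
    (hp : G.Pw w w' X R) (hu : u ∈ X) (hi : ∀ v ∈ X, v ∈ A1 ∪ A2 ∪ A3 ∪ A4 ∪ S → v = w ∨ v = w')
    (hX : Disjoint X D) (h1 : w ∈ A1) (h2 : w' ∈ A4) (s1 : w ≠ s) (s2 : w' ≠ s) (x1 : w ≠ x)
    (x2 : w' ≠ y) : ∃ H R, G.Gz Nb Tm u H R D := by
  obtain ⟨Y1, R1, Y2, R2, Y3, R3, Y4, R4, p1, p2, p3, p4, e1, e4, i1, i4, q1, q4, hr⟩ :=
    h.par14 h1 h2 s1 s2
  obtain ⟨ms, mt, mu, mall⟩ := h3.mem
  have su : s ≠ u := h3.2.2.1
  have y1 : Y1 ⊆ A1 := e1 ▸ subset_union_left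
  have y2 : Y2 ⊆ A1 := e1 ▸ subset_union_right
  have y3 : Y3 ⊆ A4 := e4 ▸ subset_union_left
  have y4 : Y4 ⊆ A4 := e4 ▸ subset_union_right
  have a1 : A1 ⊆ A1 ∪ A2 ∪ A3 ∪ A4 :=
    subset_union_left.trans (subset_union_left.trans subset_union_left)
  have a4 : A4 ⊆ A1 ∪ A2 ∪ A3 ∪ A4 := subset_union_right
  have dA : Disjoint (A1 ∪ A2 ∪ A3 ∪ A4) D := hj.mono_left subset_union_left
  have dS : Disjoint S D := hj.mono_left subset_union_right
  obtain ⟨c1, d1⟩ := hr X R hp fun v hv k => hi v hv (mem_union_left _ (by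
    rcases mem_union.1 k with k | k
    exacts [a1 k, a4 k]))
  have hnv : ¬ G.Vr Nb (Y1 ∪ Y3 ∪ X) := fun k =>
    ha _ k s ms u mu su (mem_union_left _ (mem_union_left _ p1.left)) (mem_union_right _ hu) D hD
      (disjoint_union_left.2 ⟨disjoint_union_left.2 ⟨dA.mono_left (y1.trans a1),
        dA.mono_left (y3.trans a4)⟩, hX⟩)
  have hev : G.par R1 + G.par R3 + G.par R = 0 := by
    rw [← d1]
    exact (z2 _).resolve_right fun k => hnv ⟨_, c1, Or.inl k⟩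
  have hXN : Disjoint X Nb := by
    by_contra k
    exact hnv ⟨_, c1, Or.inr fun m => k (m.mono_left subset_union_right)⟩
  have hne : w ≠ w' := fun k => s1 (h.i14 w h1 (k ▸ h2))
  obtain ⟨c2, d2⟩ := p2.cat h.ps fun v k k' => h.j1 v (y2 k) k'
  obtain ⟨c3, d3⟩ := c2.cat p4.symm fun v k k' => by
    rcases mem_union.1 k with k | k
    · have e := h.i14 v (y2 k) (y4 k')
      exact absurd (i1 v (e ▸ p1.left) k) (e ▸ s1.symm)
    · exact h.j4 v (y4 k') k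
  have hsub : Y2 ∪ S ∪ Y4 ⊆ A1 ∪ A2 ∪ A3 ∪ A4 ∪ S :=
    union_subset (union_subset (y2.trans (a1.trans subset_union_left)) subset_union_right)
      (y4.trans (a4.trans subset_union_left))
  have uA := (h.third ha h3 hD hj).1
  have hi' : ∀ v ∈ X, v ∈ Y2 ∪ S ∪ Y4 → v = w ∨ v = w' := fun v hv k => hi v hv (hsub k)
  obtain ⟨c4, d4⟩ := cw_of_two hp c3 hne hi' (hp.dj2 c3 hi' hu
    (fun k => uA (mem_union_left _ (a1 (k ▸ h1)))) fun k => uA (mem_union_left _ (a4 (k ▸ h2))))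
  have dH : Disjoint (X ∪ (Y2 ∪ S ∪ Y4)) D := disjoint_union_left.2 ⟨hX, hj.mono_left hsub⟩
  refine ⟨_, _, ⟨mu, c4, mem_union_left _ hu, ?_, hD, dH⟩, ?_⟩
  · refine h.va.imp (fun k => ?_) fun k m => k (m.mono_left ?_)
    · rw [d4, d3, d2]
      rw [q1, q4] at k
      have h2 : (2 : ZMod 2) = 0 := rfl
      linear_combination k + hev - (G.par R1 + G.par R3) * h2
    · exact subset_union_right.trans (subset_union_left.trans subset_union_right)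
  have hM : ∀ v, v ∈ X ∪ (Y2 ∪ S ∪ Y4) → v ∉ Nb →
      v ∈ (X ∪ (Y2 ∪ S ∪ Y4) ∪ D) \ ((X ∪ (Y2 ∪ S ∪ Y4)) ∩ Nb) := fun v k k' =>
    mem_sdiff.2 ⟨mem_union_left _ k, fun m => k' (mem_inter.1 m).2⟩
  have key : s ∉ (X ∪ (Y2 ∪ S ∪ Y4) ∪ D) \ ((X ∪ (Y2 ∪ S ∪ Y4)) ∩ Nb) →
      ¬ G.Rv ((X ∪ (Y2 ∪ S ∪ Y4) ∪ D) \ ((X ∪ (Y2 ∪ S ∪ Y4)) ∩ Nb)) s t := by
    intro hs hst
    obtain ⟨P, R', hP, dP, -⟩ := hst.pw hs
    have o1 : ∀ v ∈ P, v ∉ X := fun v hv k =>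
      disjoint_left.1 dP hv (hM v (mem_union_left _ k) (disjoint_left.1 hXN k))
    have o2 : ∀ v ∈ P, v ∉ Y2 := fun v hv k =>
      disjoint_left.1 dP hv (hM v (mem_union_right _ (mem_union_left _ (mem_union_left _ k)))
        (disjoint_left.1 h.nb (a1 (y2 k))))
    have o4 : ∀ v ∈ P, v ∉ Y4 := fun v hv k =>
      disjoint_left.1 dP hv (hM v (mem_union_right _ (mem_union_right _ k))
        (disjoint_left.1 h.nb (a4 (y4 k))))
    have o5 : ∀ v ∈ P, v ∉ D := fun v hv k =>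
      disjoint_left.1 dP hv (mem_sdiff.2 ⟨mem_union_right _ k,
        fun m => disjoint_left.1 dH (mem_inter.1 m).1 k⟩)
    have o3 : ∀ v ∈ P, v ∉ S := by
      intro v hv k
      have vA : v ∉ A1 ∪ A2 ∪ A3 ∪ A4 ∪ D := by
        have k1 : v ≠ x := fun e => o2 v hv (e ▸ p2.right)
        have k2 : v ≠ y := fun e => o4 v hv (e ▸ p4.right)
        intro m
        simp only [mem_union] at m
        rcases m with (((m | m) | m) | m) | m
        exacts [k1 (h.j1 v m k), k1 (h.j2 v m k), k2 (h.j3 v m k), k2 (h.j4 v m k), o5 v hv m]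
      have := hc.pw hP (disjoint_left.2 o5) (disjoint_left.2 fun e he m => by
        rcases mem_insert.1 m with rfl | m
        · exact o2 x (hP.ends he hα.1) p2.right
        · rw [mem_singleton.1 m] at he
          exact o4 y (hP.ends he hβ.1) p4.right) hv (mem_rc.2 ⟨v, k, vA, Rv.refl _ _⟩)
      exact disjoint_left.1 rc_dj (this hP.left) (mem_union_left _ (a1 h.p1.left))
    exact lad_par_path hq ha h h3 hD hj p1 p2 p3 p4 e1 e4 i1 i4 q1 q4 x1 x2 hp hu hi hX hev hP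
      fun v hv => ⟨o1 v hv, o2 v hv, o3 v hv, o4 v hv, o5 v hv⟩
  have uM := hM u (mem_union_left _ hu) (disjoint_right.1 hq.dj mu)
  intro t1 m1 t2 m2 n1 n2 hr
  rcases mall t1 m1 with rfl | rfl | rfl <;> rcases mall t2 m2 with rfl | rfl | rfl
  · rfl
  · exact (key n1 hr).elim
  · exact (n2 uM).elim
  · exact (key n2 hr.symm).elim
  · rfl
  · exact (n2 uM).elim
  · exact (n1 uM).elim
  · exact (n1 uM).elim
  · rfl

/-- one end on the arc through `x`, the other on the arc through `y` -/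
theorem a2_lad_mix (hq : G.QG U Nb Tm) (ha : G.Ha Nb Tm) (hd : G.Hdd Nb Tm)
    (h : G.Th Nb Tm s t x y A1 A2 A3 A4 S E1 E2 E3 E4 F) (h3 : T3n Tm s t u)
    (hD : G.Ob Nb D) (hj : Disjoint (A1 ∪ A2 ∪ A3 ∪ A4 ∪ S) D)
    (hα : G.At α x ∧ α ∈ F) (hβ : G.At β y ∧ β ∈ F)
    (hc : G.Clo (G.rc (A1 ∪ A2 ∪ A3 ∪ A4 ∪ D) S) D {α, β})
    (hp : G.Pw w w' X R) (hu : u ∈ X) (hi : ∀ v ∈ X, v ∈ A1 ∪ A2 ∪ A3 ∪ A4 ∪ S → v = w ∨ v = w')
    (hX : Disjoint X D) (h1 : w ∈ A1 ∪ A2) (h2 : w' ∈ A3 ∪ A4)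
    (n1 : w ≠ s ∧ w ≠ t ∧ w ≠ x ∧ w ≠ y) (n2 : w' ≠ s ∧ w' ≠ t ∧ w' ≠ x ∧ w' ≠ y) :
    ∃ H R, G.Gz Nb Tm u H R D := by
  have e : A2 ∪ A1 ∪ A4 ∪ A3 = A1 ∪ A2 ∪ A3 ∪ A4 := by
    ext v; simp only [mem_union]; (clear * - hα hβ n1 n2; grind)
  rcases mem_union.1 h1 with h1 | h1 <;> rcases mem_union.1 h2 with h2 | h2
  · exact (lad_cross hq ha h h3 hD hj hp hu hi hX h1 h2 n1.2.2.1 n2.2.2.2).elim
  · exact lad_par hq ha hd h h3 hD hj hα hβ hc hp hu hi hX h1 h2 n1.1 n2.1 n1.2.2.1 n2.2.2.2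
  · exact lad_par hq ha hd h.sw h3.sw1 hD (e ▸ hj) hα hβ (e ▸ hc) hp hu (e ▸ hi) hX h1 h2 n1.2.1
      n2.2.1 n1.2.2.1 n2.2.2.2
  · exact (lad_cross hq ha h.sw h3.sw1 hD (e ▸ hj) hp hu (e ▸ hi) hX h1 h2 n1.2.2.1 n2.2.2.2).elim

/-- HINT: the ends differ (`Ea.ne` with `Th.rr`) and are not `s, t, x, y` (`Ea.last`, `Th.out`);
sixteen positions, by `Th.sw`, `Th.fl`, `Pw.symm` one of `lad_same`, `lad_cross`, `lad_par`. -/
theorem a2_lad (hq : G.QG U Nb Tm) (ha : G.Ha Nb Tm) (hd : G.Hdd Nb Tm)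
    (h : G.Th Nb Tm s t x y A1 A2 A3 A4 S E1 E2 E3 E4 F) (h3 : T3n Tm s t u)
    (hD : G.Ob Nb D) (hj : Disjoint (A1 ∪ A2 ∪ A3 ∪ A4 ∪ S) D)
    (hα : G.At α x ∧ α ∈ F) (hβ : G.At β y ∧ β ∈ F)
    (hc : G.Clo (G.rc (A1 ∪ A2 ∪ A3 ∪ A4 ∪ D) S) D {α, β})
    (he : G.Ea u (A1 ∪ A2 ∪ A3 ∪ A4) D w w' X1 X2 F1 F2) (hu : u ∉ G.rc (A1 ∪ A2 ∪ A3 ∪ A4 ∪ D) S) :
    ∃ H R, G.Gz Nb Tm u H R D := by
  have uA : u ∉ A1 ∪ A2 ∪ A3 ∪ A4 := fun k => (h.third ha h3 hD hj).1 (mem_union_left _ k)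
  have hne : w ≠ w' := he.ne hq h.rr uA (disjoint_left.1 h.nb he.m1)
  obtain ⟨hp, -, ho⟩ := he.pw hne
  have hS : ∀ v ∈ X1 ∪ X2, v ∉ A1 ∪ A2 ∪ A3 ∪ A4 → v ∉ A1 ∪ A2 ∪ A3 ∪ A4 ∪ S := by
    intro v hv k m
    have m' := (mem_union.1 m).resolve_left k
    rcases mem_union.1 hv with hv | hv
    · exact hu (mem_rc.2 ⟨v, m', fun j => (mem_union.1 j).elim k (disjoint_left.1 he.l1 hv),
        (QG.edo_rv he.p1 he.o1 he.l1 hv k).symm⟩)
    · exact hu (mem_rc.2 ⟨v, m', fun j => (mem_union.1 j).elim k (disjoint_left.1 he.l2 hv),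
        (QG.edo_rv he.p2 he.o2 he.l2 hv k).symm⟩)
  have hi : ∀ v ∈ X1 ∪ X2, v ∈ A1 ∪ A2 ∪ A3 ∪ A4 ∪ S → v = w ∨ v = w' := fun v hv k =>
    ho v hv (by_contra fun m => hS v hv m k)
  have hi' : ∀ v ∈ X1 ∪ X2, v ∈ A1 ∪ A2 ∪ A3 ∪ A4 ∪ S → v = w' ∨ v = w := fun v hv k =>
    (hi v hv k).symm
  have hX : Disjoint (X1 ∪ X2) D := disjoint_union_left.2 ⟨he.l1, he.l2⟩
  have hu' : u ∈ X1 ∪ X2 := mem_union_left _ he.p1.left
  obtain ⟨e, me, f, mf, a, ma, b, mb, -, je, jf, na, nb⟩ := he.last uA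
  have n1 := h.out hq (he.p1.sub me) je.symm (hS a (mem_union_left _ ma) na)
  have n2 := h.out hq (he.p2.sub mf) jf.symm (hS b (mem_union_right _ mb) nb)
  have e' : A4 ∪ A3 ∪ A2 ∪ A1 = A1 ∪ A2 ∪ A3 ∪ A4 := by
    ext v; simp only [mem_union]; (clear * - hα hβ n1 n2; grind)
  have hs : ∀ v ∈ A1 ∪ A2 ∪ A3 ∪ A4, v ∈ A1 ∪ A2 ∨ v ∈ A3 ∪ A4 := by
    intro v; simp only [mem_union]; (clear * - hα hβ n1 n2; tauto)
  rcases hs w he.m1 with h1 | h1 <;> rcases hs w' he.m2 with h2 | h2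
  · exact (lad_same hq ha h h3 hD hj hp hu' hi hX hne h1 h2 n1.2.2.1 n2.2.2.1).elim
  · exact a2_lad_mix hq ha hd h h3 hD hj hα hβ hc hp hu' hi hX h1 h2 n1 n2
  · exact a2_lad_mix hq ha hd h h3 hD hj hα hβ hc hp.symm hu' hi' hX h2 h1 n2 n1
  · exact (lad_same hq ha h.fl h3 hD (e' ▸ hj) hp hu' (e' ▸ hi) hX hne (union_comm A3 A4 ▸ h1)
      (union_comm A3 A4 ▸ h2) n1.2.2.2 n2.2.2.2).elim

end SG

end Pool.Agent.Work.MP_8c679b_co
end
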