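import Pool.Agent.Work.MP_8c679b_co.A3.GA2

-- merged part: Pool.Agent.Work.MP_8c679b_co.A3.GA3
section
/-!
A connected set `W` without boxes attached to the even ring.
-/

set_option autoImplicit false
set_option linter.unusedSectionVars false

namespace Pool.Agent.Work.MP_8c679b_co

open Finset

namespace SG

variable {V E : Type} [Fintype V] [DecidableEq V] [DecidableEq E] [Nonempty E] {G : SG V E}
  {U Nb Tm X Y Z M L D D' H P Q W X1 X2 A1 A2 A3 A4 S : Finset V}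
  {F F' F1 F2 E1 E2 E3 E4 R : Finset E} {a b c v w x y z s t u B B1 B2 : V} {e f g : E}
  {P' Q' Y1 Y2 Y3 Y4 : Finset V} {f' g' α β : E} {R1 R2 R3 R4 R' : Finset E} {w' z' : V}

/-- a path through `W` between two neighbours -/
theorem nx_pw (hc : ∀ a ∈ W, ∀ b ∈ W, ∃ X F, G.Pw a b X F ∧ X ⊆ W) (he : e ∈ G.A) (hf : f ∈ G.A)
    (h1 : G.Je e v z) (h2 : G.Je f w z') (hv : v ∈ W) (hw : w ∈ W) (z1 : z ∉ W) (z2 : z' ∉ W)
    (hne : z ≠ z') : ∃ X F Y F', G.Pw z z' X F ∧ G.Pw v w Y F' ∧ Y ⊆ W ∧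
      X = insert z (insert z' Y) ∧ G.par F = G.n e + G.n f + G.par F' := by
  obtain ⟨Y, F', p, hY⟩ := hc v hv w hw
  obtain ⟨p1, n1⟩ := p.symm.cons hf h2.symm fun k => z2 (hY k)
  obtain ⟨p2, n2⟩ := p1.symm.cons he h1.symm fun k =>
    (mem_insert.1 k).elim hne fun k => z1 (hY k)
  refine ⟨_, _, Y, F', p2, p, hY, rfl, ?_⟩
  unfold par
  rw [sum_insert n2, sum_insert n1, add_assoc]

theorem cls3_pw {p : V → ZMod 2} (hc : ∀ a ∈ W, ∀ b ∈ W, ∃ X F, G.Pw a b X F ∧ X ⊆ W)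
    (hp : ∀ a b X F, G.Pw a b X F → X ⊆ W → G.par F = p a + p b) (he : e ∈ G.A) (hf : f ∈ G.A)
    (h1 : G.Je e v z) (h2 : G.Je f w z') (hv : v ∈ W) (hw : w ∈ W) (z1 : z ∉ W) (z2 : z' ∉ W)
    (hne : z ≠ z') : ∃ X F, G.Pw z z' X F ∧ (∀ u ∈ X, u = z ∨ u = z' ∨ u ∈ W) ∧
      G.par F = (G.n e + p v) + (G.n f + p w) := by
  obtain ⟨X, F, Y, F', p1, p2, hY, rfl, q⟩ := nx_pw hc he hf h1 h2 hv hw z1 z2 hne
  refine ⟨_, F, p1, fun u hu => (mem_insert.1 hu).imp_right fun k =>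
    (mem_insert.1 k).imp_right fun k => hY k, ?_⟩
  rw [q, hp _ _ _ _ p2 hY]
  ring

theorem cls3_z (u1 u2 v1 v2 w1 w2 e4 φ α β γ : ZMod 2) (h0 : u1 + u2 + (v1 + v2) + (w1 + w2) + e4 = 0)
    (h1 : u1 + (α + β) + v1 + (w1 + w2) + e4 = 0) (h2 : v1 + (β + γ) + w1 ≠ 1)
    (h3 : u1 + u2 + e4 + φ = 1) : u1 + (α + γ) + w1 + (v1 + v2) + φ + e4 = 1 := by
  have h4 := (z2 _).resolve_right h2
  linear_combination h0 + h1 + h3 + h4 - z2_add_self (u1 + u2 + v1 + w1 + w2 + e4 + β)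

/-- HINT: with the potential `p` the three paths of `nx_pw` have the total sign zero.  The path from
`a` to `b` has the sign of its piece (`Th.arc`, or directly; `ha`); the path from `b` to `c` has the
sign of the piece through `t` (`Th.par14` for `Th.sw`, `hb` against `Th.ring`); so the first ring
of `Th.crs13` for the path from `a` to `c` is valid. -/
theorem cls3 (hq : G.QG U Nb Tm) (ha : G.Ha Nb Tm) (hb : G.Hb Nb Tm)
    (h : G.Th Nb Tm s t x y A1 A2 A3 A4 S E1 E2 E3 E4 F)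
    (hD : G.Ob Nb D) (hj : Disjoint (A1 ∪ A2 ∪ A3 ∪ A4 ∪ S) D)
    (w1 : Disjoint W (A1 ∪ A2 ∪ A3 ∪ A4 ∪ S)) (w2 : Disjoint W D) (w3 : Disjoint W Nb)
    (w4 : ∀ a ∈ W, ∀ b ∈ W, ∃ X F, G.Pw a b X F ∧ X ⊆ W)
    (hp : ∃ p : V → ZMod 2, ∀ a b X F, G.Pw a b X F → X ⊆ W → G.par F = p a + p b)
    (n1 : G.Nx W a) (n2 : G.Nx W b) (n3 : G.Nx W c) (h1 : a ∈ A1) (h2 : b ∈ A2) (h4 : c ∈ A3) :
    False := by
  obtain ⟨p, hp⟩ := hp
  obtain ⟨ea, ha1, va, ha2, ha3⟩ := n1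
  obtain ⟨eb, hb1, vb, hb2, hb3⟩ := n2
  obtain ⟨ec, hc1, vc, hc2, hc3⟩ := n3
  obtain ⟨as, -, ax, -⟩ := h.out hq ha1 ha3 (disjoint_left.1 w1 ha2)
  obtain ⟨-, bt, bx, -⟩ := h.out hq hb1 hb3 (disjoint_left.1 w1 hb2)
  obtain ⟨-, ct, -, cy⟩ := h.out hq hc1 hc3 (disjoint_left.1 w1 hc2)
  obtain ⟨Y1, F1, Y2, F2, Y3, F3, Y4, F4, p1, p2, p3, p4, e1, e3, i1, i3, q1, q3, hr⟩ :=
    h.crs13 h1 h4 ax cy
  obtain ⟨Z1, G1, Z2, G2, p5, p6, e2, -, i2, q2⟩ := h.p2.split h2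
  have k1 : ∀ v ∈ Y1, v ∈ A1 ∧ v ≠ x := fun v hv =>
    ⟨e1 ▸ mem_union_left _ hv, fun k => ax ((i1 v hv (k ▸ p2.right)).symm.trans k)⟩
  have k2 : ∀ v ∈ Z1, v ∈ A2 ∧ v ≠ x := fun v hv =>
    ⟨e2 ▸ mem_union_left _ hv, fun k => bx ((i2 v hv (k ▸ p6.right)).symm.trans k)⟩
  have k3 : ∀ v ∈ Y3, v ∈ A3 ∧ v ≠ y := fun v hv =>
    ⟨e3 ▸ mem_union_left _ hv, fun k => cy ((i3 v hv (k ▸ p4.right)).symm.trans k)⟩
  have kW : ∀ v ∈ W, v ∉ A1 ∧ v ∉ A2 ∧ v ∉ A3 ∧ v ∉ A4 ∧ v ∉ S ∧ v ∉ D ∧ v ∉ Nb := fun v hv => by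
    have := disjoint_left.1 w1 hv
    simp only [mem_union, not_or] at this
    exact ⟨this.1.1.1.1, this.1.1.1.2, this.1.1.2, this.1.2, this.2, disjoint_left.1 w2 hv,
      disjoint_left.1 w3 hv⟩
  have kD : ∀ v ∈ D, v ∉ A1 ∧ v ∉ A2 ∧ v ∉ A3 ∧ v ∉ A4 ∧ v ∉ S := fun v hv => by
    have := disjoint_right.1 hj hv
    simp only [mem_union, not_or] at this
    exact ⟨this.1.1.1.1, this.1.1.1.2, this.1.1.2, this.1.2, this.2⟩
  have kN : ∀ v ∈ Nb, v ∉ A2 ∧ v ∉ A3 := fun v hv => by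
    have := disjoint_right.1 h.nb hv
    simp only [mem_union, not_or] at this
    exact ⟨this.1.1.2, this.1.2⟩
  have i12 := h.i12
  have i13 : ∀ v ∈ A1, v ∉ A3 := fun v hv => disjoint_left.1 h.i13 hv
  have i14 := h.i14
  have i23 := h.i23
  have i24 : ∀ v ∈ A2, v ∉ A4 := fun v hv => disjoint_left.1 h.i24 hv
  have i34 := h.i34
  have j1 := h.j1
  have j2 := h.j2
  have j3 := h.j3
  have aW : a ∉ W := fun k => (kW a k).1 h1
  have bW : b ∉ W := fun k => (kW b k).2.1 h2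
  have cW : c ∉ W := fun k => (kW c k).2.2.1 h4
  have bc : b ≠ c := fun k => bt (i23 b h2 (k ▸ h4))
  obtain ⟨X1, R1, r1, m1, s1⟩ := cls3_pw w4 hp ha1 hb1 ha3 hb3 ha2 hb2 aW bW
    fun k => ax (i12 a h1 (k ▸ h2))
  obtain ⟨X2, R2, r2, m2, s2⟩ := cls3_pw w4 hp hb1 hc1 hb3 hc3 hb2 hc2 bW cW bc
  obtain ⟨X3, R3, r3, m3, s3⟩ := cls3_pw w4 hp ha1 hc1 ha3 hc3 ha2 hc2 aW cW
    fun k => i13 a h1 (k ▸ h4)
  clear e1 e2 e3 i1 i2 i3 w1 w2 w3 w4 hp hj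
  obtain ⟨c1, t1⟩ := p1.cat r1 (by clear * - V Nb D W A1 A2 A3 A4 S a b x h2 bx Y1 k1 kW i12 X1 m1; grind)
  obtain ⟨-, v1⟩ := th_F1_ev ha h.hs h.ht h.st h.sy h.ty c1 p5 h.p3 h.p4
    (by clear * - V Y1 X1 Z1 b Nb D W A1 A2 A3 A4 S a x h1 ax k1 k2 kW i12 m1; simp only [mem_union]; grind) (by clear * - V Y1 X1 A3 Nb D W A1 A2 A4 S a b x t h1 h2 bt k1 kW i13 i23 m1; simp only [disjoint_left, mem_union]; grind)
    (by clear * - V Y1 X1 A4 s Nb D W A1 A2 A3 S a b x h1 h2 as k1 kW i14 i24 m1 hD i34; simp only [mem_union]; grind) (by grind) (by clear * - V Z1 A4 A2 x k2 i24 hD i34; simp only [disjoint_left]; grind) i34 hD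
    (by clear * - V Y1 X1 Z1 A3 A4 D Nb W A1 A2 S a b x h1 h2 k1 k2 kW kD m1; simp only [disjoint_left, mem_union]; grind)
  obtain ⟨c2, t2⟩ := p5.cat r2 (by clear * - V Nb D W A1 A2 A3 A4 S b c x t h4 ct Z1 k2 kW i23 X2 m2; grind)
  have i5 : ∀ v ∈ Z1 ∪ X2, v ∈ Y3 → v = t ∨ v = c := by
    clear * - V Z1 X2 Y3 t c Nb D W A1 A2 A3 A4 S b x y h2 bt k2 k3 kW i23 m2
    simp only [mem_union]
    grind
  obtain ⟨c3, t3⟩ := cw_of_two c2 p3 ct.symm i5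
    (c2.dj2 p3 i5 (mem_union_left _ p5.right) bt bc)
  have v2 : G.par (G1 ∪ R2 ∪ F3) ≠ 1 := fun k => hb _ _ ⟨_, c3, Or.inl k⟩ h.ring.2.2 t h.ht s h.hs
    (mem_union_right _ p3.left) (mem_union_left _ (mem_union_left _ h.p1.left))
    (by simp only [disjoint_left, mem_union]; (clear * - bx cy h2 h4 i12 i13 i24 i34 j2 j3 k2 k3 kW m2; grind))
  obtain ⟨⟨F', c4, -, -, t4⟩, -⟩ := hr X3 R3 r3 (by clear * - V X3 A1 A2 A3 A4 S a c Nb D W kW m3; simp only [mem_union]; grind)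
  refine ha _ ⟨F', c4, h.va.imp (fun k => ?_) fun k k' => k (k'.mono_left fun v hv => ?_)⟩ s h.hs
    t h.ht h.st (mem_union_right _ h.p4.left) (by simp [h.p2.left]) D hD
    (by simp only [disjoint_left, mem_union]; (clear * - h1 h4 k1 k3 kD kW m3; grind))
  · have v0 := h.ev
    rw [t1, s1, q3] at v1
    rw [t3, t2, s2] at v2
    rw [q1, q2, q3] at v0
    rw [q1] at k
    rw [t4, s3, q2]
    exact cls3_z _ _ _ _ _ _ _ _ _ _ _ v0 v1 v2 k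
  · exact mem_union_left _ (mem_union_right _ hv)

theorem al_ring_nx (hq : G.QG U Nb Tm) (h : G.Th Nb Tm s t x y A1 A2 A3 A4 S E1 E2 E3 E4 F)
    (w1 : Disjoint W (A1 ∪ A2 ∪ A3 ∪ A4 ∪ S)) (n : G.Nx W z) : z ≠ s ∧ z ≠ t ∧ z ≠ x ∧ z ≠ y := by
  obtain ⟨e, he, v, hv, hj⟩ := n
  exact h.out hq he hj (disjoint_left.1 w1 hv)

theorem al_ring_first (hp : G.Pw b c X F) (n : G.Nx W a) (h1 : a ∈ X) :
    ∃ a' Y1 F1 Y2 F2, G.Nx W a' ∧ G.Pw b a' Y1 F1 ∧ G.Pw a' c Y2 F2 ∧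
      (∀ v, v ∈ X ↔ v ∈ Y1 ∨ v ∈ Y2) ∧ (∀ v ∈ Y1, v ∈ Y2 → v = a') ∧
      G.par F = G.par F1 + G.par F2 ∧ ∀ z ∈ X, G.Nx W z → z ∈ Y2 := by
  classical
  obtain ⟨a', Y1, F1, Y2, F2, k1, k2, k3, rfl, -, k4, k5, k6⟩ :=
    hp.first (M := univ.filter (G.Nx W)) (not_disjoint_iff.2 ⟨a, h1, mem_filter.2 ⟨mem_univ _, n⟩⟩)
  exact ⟨a', Y1, F1, Y2, F2, (mem_filter.1 k1).2, k2, k3, fun _ => mem_union, k4, k5,
    fun z hz k => (mem_union.1 hz).elim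
      (fun m => k6 z m (mem_filter.2 ⟨mem_univ _, k⟩) ▸ k3.left) id⟩

theorem al_ring_pw (w4 : ∀ a ∈ W, ∀ b ∈ W, ∃ X F, G.Pw a b X F ∧ X ⊆ W) (n1 : G.Nx W a)
    (n2 : G.Nx W b) (h1 : a ∉ W) (h2 : b ∉ W) (hab : a ≠ b) :
    ∃ X R, G.Pw a b X R ∧ ∀ v ∈ X, v = a ∨ v = b ∨ v ∈ W := by
  obtain ⟨e, he, v, hv, j1⟩ := n1
  obtain ⟨f, hf, w, hw, j2⟩ := n2
  obtain ⟨X, R, Y, -, p, -, k, rfl, -⟩ := nx_pw w4 he hf j1 j2 hv hw h1 h2 hab
  exact ⟨_, R, p, fun u hu => (mem_insert.1 hu).imp_right fun m =>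
    (mem_insert.1 m).imp_right fun m => k m⟩

/-- all neighbours on the arc through `x`, on both sides of `x`.  HINT: `a'` the neighbour in `A1`
nearest to `x`, `b'` the neighbour in `A2` nearest to `t` (`Pw.first`).  The ring `s, a', W, b', t, y` is
even by `ha`, so the ring `s, a', W, b', x, S, y` is valid. -/
theorem al_ring (hq : G.QG U Nb Tm) (ha : G.Ha Nb Tm)
    (h : G.Th Nb Tm s t x y A1 A2 A3 A4 S E1 E2 E3 E4 F)
    (hD : G.Ob Nb D) (hj : Disjoint (A1 ∪ A2 ∪ A3 ∪ A4 ∪ S) D)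
    (w1 : Disjoint W (A1 ∪ A2 ∪ A3 ∪ A4 ∪ S)) (w2 : Disjoint W D) (w3 : Disjoint W Nb)
    (w4 : ∀ a ∈ W, ∀ b ∈ W, ∃ X F, G.Pw a b X F ∧ X ⊆ W)
    (hn : ∀ z ∈ A1 ∪ A2 ∪ A3 ∪ A4, G.Nx W z → z ∈ A1 ∪ A2)
    (n1 : G.Nx W a) (n2 : G.Nx W b) (h1 : a ∈ A1) (h2 : b ∈ A2) :
    ∃ H R, G.Tz Nb Tm s H R D ∧ t ∉ H ∧ S ⊆ H ∧ H ⊆ A1 ∪ A2 ∪ A3 ∪ A4 ∪ S ∪ W ∧
      ∀ z ∈ A1 ∪ A2 ∪ A3 ∪ A4, G.Nx W z → z ∈ H := by
  have d13 : ∀ v ∈ A1, v ∉ A3 := fun v hv => disjoint_left.1 h.i13 hv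
  have d24 : ∀ v ∈ A2, v ∉ A4 := fun v hv => disjoint_left.1 h.i24 hv
  have dW : ∀ v ∈ W, v ∉ A1 ∧ v ∉ A2 ∧ v ∉ A3 ∧ v ∉ A4 ∧ v ∉ S ∧ v ∉ D := fun v hv => by
    have k := disjoint_left.1 w1 hv
    simp only [mem_union, not_or] at k
    exact ⟨k.1.1.1.1, k.1.1.1.2, k.1.1.2, k.1.2, k.2, disjoint_left.1 w2 hv⟩
  have dD : ∀ v ∈ D, v ∉ A1 ∧ v ∉ A2 ∧ v ∉ A3 ∧ v ∉ A4 ∧ v ∉ S := fun v hv => by
    have k := disjoint_right.1 hj hv
    simp only [mem_union, not_or] at k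
    exact ⟨k.1.1.1.1, k.1.1.1.2, k.1.1.2, k.1.2, k.2⟩
  have i12 := h.i12
  have i14 := h.i14
  have i23 := h.i23
  have i34 := h.i34
  have j1 := h.j1
  have j2 := h.j2
  have j3 := h.j3
  have j4 := h.j4
  obtain ⟨a', Y2, F2, Y1, F1, na, p2, p1, m1, k1, r1, o1⟩ := al_ring_first h.p1.symm n1 h1
  obtain ⟨b', Y3, F3, Y4, F4, nb, p3, p4, m2, k2, r2, o2⟩ := al_ring_first h.p2 n2 h2
  obtain ⟨a1, a2, a3, a4⟩ := al_ring_nx hq h w1 na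
  obtain ⟨b1, b2, b3, b4⟩ := al_ring_nx hq h w1 nb
  have aA := (m1 a').2 (Or.inr p1.left)
  have bA := (m2 b').2 (Or.inr p4.left)
  have xY : x ∉ Y1 := fun k => a3 (k1 x p2.left k).symm
  have xZ : x ∉ Y3 := fun k => b3 (k2 x k p4.right).symm
  have tZ : t ∉ Y4 := fun k => b2 (k2 t p3.left k).symm
  have tA := h.p3.left
  have tB := h.p2.left
  have tx := h.tx
  obtain ⟨X, R, pX, hX⟩ := al_ring_pw w4 na nb (fun k => (dW _ k).1 aA) (fun k => (dW _ k).2.1 bA)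
    fun k => a3 (i12 _ aA (k ▸ bA))
  obtain ⟨q1, s1⟩ := p1.symm.cat pX (by clear * - V D W A1 A2 A3 A4 S x dW i12 a' Y2 Y1 m1 b' b3 bA X hX; grind)
  obtain ⟨-, ev⟩ := th_F1_ev ha h.hs h.ht h.st h.sy h.ty q1 p3 h.p3 h.p4 (by (clear * - a3 aA dW hX i12 m1 m2 xZ; grind))
    (disjoint_left.2 (by (clear * - a2 aA b2 bA d13 dW h2 hX i12 i23 m1 m2 n2 o1 tA xY xZ; grind))) (by clear * - V E G D W A1 A2 A3 A4 S b x s n2 h2 d24 dW i12 i14 a' Y2 Y1 m1 o1 b' Y3 Y4 m2 a1 aA bA xY xZ X hX hD i34; grind) (by grind) (disjoint_left.2 (by grind)) i34 hD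
    (disjoint_left.2 (by clear * - V E G D W A1 A2 A3 A4 S b x n2 h2 dW dD i12 a' Y2 Y1 m1 o1 b' Y3 Y4 m2 aA bA xY X hX xZ; (clear * - aA bA dD dW h2 hX i12 m1 m2 n2 o1 xY xZ; grind)))
  obtain ⟨q2, s2⟩ := p4.cat h.ps (by grind)
  obtain ⟨q3, s3⟩ := q1.cat q2 (by (clear * - a3 aA dW hX i12 j1 m1 m2 xY xZ; grind))
  have hi : ∀ v ∈ Y1 ∪ X ∪ (Y4 ∪ S), v ∈ A4 → v = s ∨ v = y := by clear * - V E G D W A1 A2 A3 A4 S b x y s n2 h2 d24 dW i12 i14 j4 a' Y2 Y1 m1 o1 b' Y3 Y4 m2 a1 aA bA xY X hX xZ; (clear * - a1 aA bA d24 dW h2 hX i12 i14 j4 m1 m2 n2 o1 xY xZ; grind)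
  obtain ⟨c1, c2⟩ := cw_of_two q3 h.p4 h.sy hi (q3.dj2 h.p4 hi
    (mem_union_right _ (mem_union_left _ p4.right)) h.sx.symm h.xy)
  refine ⟨_, _, ⟨h.hs, c1, mem_union_right _ h.p4.left, h.va.imp (fun k => ?_) fun k l =>
    k (l.mono_left (by (clear * -; grind))), hD, disjoint_left.2 (by clear * - V E G D W A1 A2 A3 A4 S b x n2 h2 dW dD i12 a' Y2 Y1 m1 o1 b' Y3 Y4 m2 aA bA xY X hX a1 a2 a3 b2 b3 d13 d24 h1 i14 j2 n1 nb o2 tA tB tZ tx xZ; (clear * - aA bA dD dW h2 hX i12 m1 m2 n2 o1 xY xZ; grind))⟩, by (clear * - a2 b2 d13 d24 dW hX j2 m1 tA tB tZ tx; grind), by (clear * -; grind), by (clear * - a1 a3 aA b3 bA d13 h1 h2 hX i12 i14 j2 m1 m2 n1 n2 nb o1 o2 xY xZ; grind),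
    by (clear * - hn o1 o2; grind)⟩
  have ev0 := h.ev
  have h2 : (2 : ZMod 2) = 0 := rfl
  rw [s1] at ev
  rw [c2, s3, s2, s1]
  linear_combination ev + k - ev0 - r2 + (G.par E2 - G.par F3) * h2

/-- neighbours only in `A1` and `A3`.  HINT: `a'` nearest to `x`, `c'` nearest to `t`; the first ring
of `Th.crs13` is not valid, so the second one is odd. -/
theorem be_ring (hq : G.QG U Nb Tm) (ha : G.Ha Nb Tm)
    (h : G.Th Nb Tm s t x y A1 A2 A3 A4 S E1 E2 E3 E4 F)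
    (hD : G.Ob Nb D) (hj : Disjoint (A1 ∪ A2 ∪ A3 ∪ A4 ∪ S) D)
    (w1 : Disjoint W (A1 ∪ A2 ∪ A3 ∪ A4 ∪ S)) (w2 : Disjoint W D) (w3 : Disjoint W Nb)
    (w4 : ∀ a ∈ W, ∀ b ∈ W, ∃ X F, G.Pw a b X F ∧ X ⊆ W)
    (hn : ∀ z ∈ A1 ∪ A2 ∪ A3 ∪ A4, G.Nx W z → z ∈ A1 ∪ A3)
    (n1 : G.Nx W a) (n2 : G.Nx W c) (h1 : a ∈ A1) (h2 : c ∈ A3) :
    ∃ H R, G.Tz Nb Tm s H R D ∧ t ∉ H ∧ H ⊆ A1 ∪ A2 ∪ A3 ∪ A4 ∪ W ∧
      ∀ z ∈ A1 ∪ A2 ∪ A3 ∪ A4, G.Nx W z → z ∈ H := by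
  have d13 : ∀ v ∈ A1, v ∉ A3 := fun v hv => disjoint_left.1 h.i13 hv
  have d24 : ∀ v ∈ A2, v ∉ A4 := fun v hv => disjoint_left.1 h.i24 hv
  have dW : ∀ v ∈ W, v ∉ A1 ∧ v ∉ A2 ∧ v ∉ A3 ∧ v ∉ A4 ∧ v ∉ S ∧ v ∉ D := fun v hv => by
    have k := disjoint_left.1 w1 hv
    simp only [mem_union, not_or] at k
    exact ⟨k.1.1.1.1, k.1.1.1.2, k.1.1.2, k.1.2, k.2, disjoint_left.1 w2 hv⟩
  have dD : ∀ v ∈ D, v ∉ A1 ∧ v ∉ A2 ∧ v ∉ A3 ∧ v ∉ A4 ∧ v ∉ S := fun v hv => by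
    have k := disjoint_right.1 hj hv
    simp only [mem_union, not_or] at k
    exact ⟨k.1.1.1.1, k.1.1.1.2, k.1.1.2, k.1.2, k.2⟩
  have i12 := h.i12
  have i14 := h.i14
  have i23 := h.i23
  have i34 := h.i34
  have j1 := h.j1
  have j2 := h.j2
  have j3 := h.j3
  have j4 := h.j4
  obtain ⟨a', Y2, F2, Y1, F1, na, p2, p1, m1, k1, r1, o1⟩ := al_ring_first h.p1.symm n1 h1
  obtain ⟨b', Y3, F3, Y4, F4, nb, p3, p4, m2, k2, r2, o2⟩ := al_ring_first h.p3 n2 h2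
  obtain ⟨a1, a2, a3, a4⟩ := al_ring_nx hq h w1 na
  obtain ⟨b1, b2, b3, b4⟩ := al_ring_nx hq h w1 nb
  have aA := (m1 a').2 (Or.inr p1.left)
  have bA := (m2 b').2 (Or.inr p4.left)
  have xY : x ∉ Y1 := fun k => a3 (k1 x p2.left k).symm
  have yZ : y ∉ Y3 := fun k => b4 (k2 y k p4.right).symm
  have tZ : t ∉ Y4 := fun k => b2 (k2 t p3.left k).symm
  have tA := h.p3.left
  have tB := h.p2.left
  obtain ⟨X, R, pX, hX⟩ := al_ring_pw w4 na nb (fun k => (dW _ k).1 aA)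
    (fun k => (dW _ k).2.2.1 bA) fun k => d13 _ aA (k ▸ bA)
  obtain ⟨q1, s1⟩ := p1.symm.cat pX (by clear * - V D W A1 A2 A3 A4 S d13 dW a' Y2 Y1 m1 b' bA X hX; grind)
  obtain ⟨q2, s2⟩ := h.p2.cat h.ps j2
  obtain ⟨nN, ev⟩ := th_F1_ev ha h.hs h.ht h.st h.sy h.ty q1 p3 q2 h.p4 (by clear * - V D W A1 A2 A3 A4 S d13 dW a' Y2 Y1 m1 b' Y3 Y4 m2 aA X hX a1 a3 b2 b3 b4 bA dD hD i12 i14 i23 i34 j1 j3 xY; grind)
    (disjoint_left.2 (by (clear * - a3 aA b2 b3 b4 bA dW hX i12 i23 j1 j3 m1 m2 xY; grind))) (by (clear * - a1 aA b4 bA dW hX i14 i34 m1 m2; grind)) (by clear * - V A2 A3 S y t i23 j3 Y3 Y4 m2 yZ hD; grind) (disjoint_left.2 (by grind)) (by grind) hD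
    (disjoint_left.2 (by (clear * - aA bA dD dW hX m1 m2; grind)))
  obtain ⟨q3, s3⟩ := q1.cat p4 (by clear * - V D W A1 A2 A3 A4 S d13 dW a' Y2 Y1 m1 b' Y3 Y4 m2 aA X hX; grind)
  have hi : ∀ v ∈ Y1 ∪ X ∪ Y4, v ∈ A4 → v = s ∨ v = y := by (clear * - a1 aA b4 bA dW hX i14 i34 m1 m2; grind)
  obtain ⟨c1, c2⟩ := cw_of_two q3 h.p4 h.sy hi (q3.dj2 h.p4 hi
    (mem_union_right _ p4.left) b1 b4)
  refine ⟨_, _, ⟨h.hs, c1, mem_union_right _ h.p4.left, Or.inl ?_, hD, disjoint_left.2 (by (clear * - aA bA dD dW hX m1 m2; grind))⟩,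
    by (clear * - a2 b2 d13 d24 dW hX m1 tA tB tZ; grind), by (clear * - a1 a3 aA b4 bA d13 hX i12 i14 i34 m1 m2; grind), by (clear * - hn o1 o2; grind)⟩
  have k := h.va.resolve_right (not_not.2 (nN.mono_left (by (clear * -; grind))))
  have ev0 := h.ev
  have h2 : (2 : ZMod 2) = 0 := rfl
  rw [s1, s2] at ev
  rw [c2, s3, s1]
  linear_combination ev + k - ev0 - r2 + (G.par E3 - G.par F3 - G.par F) * h2

theorem nx_ring_t (h : G.Th Nb Tm s t x y A1 A2 A3 A4 S E1 E2 E3 E4 F) : t ∉ A1 ∪ A4 ∪ S := by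
  have k := h.p2.left
  simp only [mem_union, not_or]
  exact ⟨⟨fun n => h.tx (h.i12 t n k), disjoint_left.1 h.i24 k⟩, fun n => h.tx (h.j2 t k n)⟩

theorem nx_ring_sw (A1 A2 A3 A4 : Finset V) : A2 ∪ A1 ∪ A4 ∪ A3 = A1 ∪ A2 ∪ A3 ∪ A4 := by
  ac_rfl

theorem nx_ring_fl (A1 A2 A3 A4 : Finset V) : A4 ∪ A3 ∪ A2 ∪ A1 = A1 ∪ A2 ∪ A3 ∪ A4 := by
  ac_rfl

theorem nx_ring_sf (A1 A2 A3 A4 : Finset V) : A3 ∪ A4 ∪ A1 ∪ A2 = A1 ∪ A2 ∪ A3 ∪ A4 := by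
  ac_rfl

/-- a ring through `s` or `t` that contains all neighbours.  HINT: no neighbour in `A2 ∪ A3`: the
ring of `a2_tz`; none in `A1 ∪ A4`: the same for `Th.sw`.  Else by the four forms of `cls3` the
neighbours lie in exactly two segments: `al_ring`, `be_ring` or their mirror images. -/
theorem nx_ring (hq : G.QG U Nb Tm) (ha : G.Ha Nb Tm) (hb : G.Hb Nb Tm)
    (h : G.Th Nb Tm s t x y A1 A2 A3 A4 S E1 E2 E3 E4 F)
    (hD : G.Ob Nb D) (hj : Disjoint (A1 ∪ A2 ∪ A3 ∪ A4 ∪ S) D)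
    (w1 : Disjoint W (A1 ∪ A2 ∪ A3 ∪ A4 ∪ S)) (w2 : Disjoint W D) (w3 : Disjoint W Nb)
    (w4 : ∀ a ∈ W, ∀ b ∈ W, ∃ X F, G.Pw a b X F ∧ X ⊆ W)
    (hp : ∃ p : V → ZMod 2, ∀ a b X F, G.Pw a b X F → X ⊆ W → G.par F = p a + p b) :
    ∃ s' t' H R, ((s' = s ∧ t' = t) ∨ (s' = t ∧ t' = s)) ∧ G.Tz Nb Tm s' H R D ∧ t' ∉ H ∧
      H ⊆ A1 ∪ A2 ∪ A3 ∪ A4 ∪ S ∪ W ∧ ∀ z ∈ A1 ∪ A2 ∪ A3 ∪ A4, G.Nx W z → z ∈ H := by
  have e1 := nx_ring_sw A1 A2 A3 A4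
  have e2 := nx_ring_fl A1 A2 A3 A4
  have e3 := nx_ring_sf A1 A2 A3 A4
  have c1 : ∀ {a b c}, G.Nx W a → G.Nx W b → G.Nx W c → a ∈ A1 → b ∈ A2 → c ∈ A3 → False :=
    cls3 hq ha hb h hD hj w1 w2 w3 w4 hp
  have c2 : ∀ {a b c}, G.Nx W a → G.Nx W b → G.Nx W c → a ∈ A2 → b ∈ A1 → c ∈ A4 → False :=
    cls3 hq ha hb h.sw hD (e1 ▸ hj) (e1 ▸ w1) w2 w3 w4 hp
  have c3 : ∀ {a b c}, G.Nx W a → G.Nx W b → G.Nx W c → a ∈ A4 → b ∈ A3 → c ∈ A2 → False :=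
    cls3 hq ha hb h.fl hD (e2 ▸ hj) (e2 ▸ w1) w2 w3 w4 hp
  have c4 : ∀ {a b c}, G.Nx W a → G.Nx W b → G.Nx W c → a ∈ A3 → b ∈ A4 → c ∈ A1 → False :=
    cls3 hq ha hb h.sw.fl hD (e3 ▸ hj) (e3 ▸ w1) w2 w3 w4 hp
  by_cases k : ∃ b ∈ A2 ∪ A3, G.Nx W b
  swap
  · refine ⟨s, t, _, _, Or.inl ⟨rfl, rfl⟩, a2_tz h hD hj, nx_ring_t h, fun v hv => ?_,
      fun z hz n => ?_⟩
    · simp only [mem_union] at hv ⊢; tauto
    · have : z ∉ A2 ∪ A3 := fun m => k ⟨z, m, n⟩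
      simp only [mem_union] at hz this ⊢; tauto
  by_cases k' : ∃ a ∈ A1 ∪ A4, G.Nx W a
  swap
  · refine ⟨t, s, _, _, Or.inr ⟨rfl, rfl⟩, a2_tz h.sw hD (e1 ▸ hj), nx_ring_t h.sw, fun v hv => ?_,
      fun z hz n => ?_⟩
    · simp only [mem_union] at hv ⊢; (clear * - hp hv k; tauto)
    · have : z ∉ A1 ∪ A4 := fun m => k' ⟨z, m, n⟩
      simp only [mem_union] at hz this ⊢; tauto
  obtain ⟨b, hb', n2⟩ := k
  obtain ⟨a, ha', n1⟩ := k'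
  rcases mem_union.1 ha' with a1 | a1 <;> rcases mem_union.1 hb' with b1 | b1
  · obtain ⟨H, R, k1, k2, -, k4, k5⟩ := al_ring hq ha h hD hj w1 w2 w3 w4 (fun z hz n => by
      have := c1 n1 n2 n a1 b1
      have := c2 n2 n1 n b1 a1
      simp only [mem_union] at hz ⊢; tauto) n1 n2 a1 b1
    exact ⟨s, t, H, R, Or.inl ⟨rfl, rfl⟩, k1, k2, k4, k5⟩
  · obtain ⟨H, R, k1, k2, k4, k5⟩ := be_ring hq ha h hD hj w1 w2 w3 w4 (fun z hz n => by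
      have := fun m => c1 n1 n n2 a1 m b1
      have := fun m => c4 n2 n n1 b1 m a1
      simp only [mem_union] at hz ⊢; tauto) n1 n2 a1 b1
    exact ⟨s, t, H, R, Or.inl ⟨rfl, rfl⟩, k1, k2,
      k4.trans (union_subset_union_left subset_union_left), k5⟩
  · obtain ⟨H, R, k1, k2, k4, k5⟩ := be_ring hq ha h.fl hD (e2 ▸ hj) (e2 ▸ w1) w2 w3 w4
      (fun z hz n => by
        have := fun m => c3 n1 n n2 a1 m b1
        have := fun m => c2 n2 n n1 b1 m a1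
        simp only [mem_union] at hz ⊢; tauto) n1 n2 a1 b1
    rw [e2] at k4 k5
    exact ⟨s, t, H, R, Or.inl ⟨rfl, rfl⟩, k1, k2,
      k4.trans (union_subset_union_left subset_union_left), k5⟩
  · obtain ⟨H, R, k1, k2, -, k4, k5⟩ := al_ring hq ha h.fl hD (e2 ▸ hj) (e2 ▸ w1) w2 w3 w4
      (fun z hz n => by
        have := c3 n1 n2 n a1 b1
        have := c4 n2 n1 n b1 a1
        simp only [mem_union] at hz ⊢; tauto) n1 n2 a1 b1
    rw [e2] at k4 k5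
    exact ⟨s, t, H, R, Or.inl ⟨rfl, rfl⟩, k1, k2, k4, k5⟩

theorem a2_sep_fin (hq : G.QG U Nb Tm) (hz : G.Tz Nb Tm s H R D) (h3 : T3n Tm s t u) (ht : t ∈ M)
    (hs : G.Sx U u M D P Q f g) (hMD : Disjoint M D) (hN : Disjoint M Nb)
    (h1 : ∀ z ∈ M, G.Nx Q z → z ∈ H) (h2 : ∀ z ∈ M, G.Je g u z → z ∈ H) : G.Gz Nb Tm s H R D := by
  refine ⟨hz, goo_of (Z := insert u (P ∪ Q)) h3 ?_ (mem_insert_self _ _) ?_
    fun e he a b hj ha hb => Or.inr ?_⟩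
  · exact mem_sdiff.2 ⟨mem_union_left _ hz.sh,
      fun n => disjoint_left.1 hq.dj (mem_inter.1 n).2 hz.tm⟩
  · simp only [mem_insert, mem_union, not_or]
    exact ⟨h3.2.2.2, fun n => (s2_diff_P hs n).2.1 ht, fun n => (s2_diff_Q hs n).2.1 ht⟩
  rcases mem_union.1 ((hs.clo e he a b hj ha hb).resolve_right (notMem_empty _)) with m | m
  swap
  · exact mem_sdiff.2 ⟨mem_union_right _ m, fun n => disjoint_left.1 hz.dj (mem_inter.1 n).1 m⟩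
  refine mem_sdiff.2 ⟨mem_union_left _ ?_, fun n => disjoint_left.1 hN m (mem_inter.1 n).2⟩
  obtain ⟨w, jw, hw⟩ := hs.eP
  simp only [mem_insert, mem_union, not_or] at ha hb
  rcases ha with rfl | p | p
  · have : e ∈ ({f, g} : Finset E) := hs.cu ▸ hq.cut1.2 ⟨he, b, hj⟩
    simp only [mem_insert, mem_singleton] at this
    rcases this with rfl | rfl
    · obtain rfl := s2_diff_je hj jw
      exact (hw.elim hb.2.1 (disjoint_left.1 hMD m)).elim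
    · exact h2 b m hj
  · rcases s2_diff_cl hs.cP he hj p hb.2.1 with n | rfl
    · exact (disjoint_left.1 hMD m n).elim
    · rcases s2_diff_end jw hj with rfl | rfl
      · exact ((s2_diff_P hs p).1 rfl).elim
      · exact (hb.1 rfl).elim
  · exact h1 b m ⟨e, he, a, p, hj⟩

/-- HINT: `Sx.conn'`.  The connected part is off `S` (else `u` is reached), has no box (`a2_nb`) and
no object (`tz_of` for `a2_tz` if the object is off the ring; it is off `S`, `A1`, `A4`, `D`), so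
`QG.bal`.  If it is empty take the half that contains the end of `g`.  Else `nx_ring`; `goo_of` with
`Z = insert u (P ∪ Q')`, whose exits go to `D` and to the even ring, which has no box. -/
theorem a2_sep (hq : G.QG U Nb Tm) (ha : G.Ha Nb Tm) (hb : G.Hb Nb Tm) (hd : G.Hdd Nb Tm)
    (h : G.Th Nb Tm s t x y A1 A2 A3 A4 S E1 E2 E3 E4 F) (h3 : T3n Tm s t u)
    (hD : G.Ob Nb D) (hj : Disjoint (A1 ∪ A2 ∪ A3 ∪ A4 ∪ S) D)
    (hs : G.Sx U u (A1 ∪ A2 ∪ A3 ∪ A4) D P Q f g) (hu : u ∉ G.rc (A1 ∪ A2 ∪ A3 ∪ A4 ∪ D) S) :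
    ∃ s' H R, G.Gz Nb Tm s' H R D := by
  have e1 := nx_ring_sw A1 A2 A3 A4
  have z1 := a2_tz h hD hj
  have z2 := a2_tz h.sw hD (e1 ▸ hj)
  have uM : u ∉ A1 ∪ A2 ∪ A3 ∪ A4 := fun n => (h.third ha h3 hD hj).1 (mem_union_left _ n)
  have uD : u ∉ D := fun n =>
    hb _ _ h.ring.2.2 (hD.vr hq h3.mem.2.2.1 n) s h.hs u h3.mem.2.2.1 z1.sh n z1.dj
  have hMD : Disjoint (A1 ∪ A2 ∪ A3 ∪ A4) D := disjoint_of_subset_left subset_union_left hj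
  have sM : s ∈ A1 ∪ A2 ∪ A3 ∪ A4 := by simp [h.p1.left]
  have tM : t ∈ A1 ∪ A2 ∪ A3 ∪ A4 := by simp [h.p2.left]
  obtain ⟨W, -, hW, w4, w5⟩ := hs.conn' uM
  obtain ⟨r, jr, -⟩ := hW.eQ
  rcases W.eq_empty_or_nonempty with rfl | ⟨a, aW⟩
  · have n : ∀ z, ¬ G.Nx ∅ z := fun z ⟨_, _, _, k, _⟩ => notMem_empty _ k
    by_cases k : r ∈ A1 ∪ A4
    · exact ⟨s, _, _, a2_sep_fin hq z1 h3 tM hW hMD h.nb (fun z _ m => (n z m).elim)
        fun z _ m => s2_diff_je jr m ▸ mem_union_left _ k⟩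
    · refine ⟨t, _, _, a2_sep_fin hq z2 h3.sw1 sM hW hMD h.nb (fun z _ m => (n z m).elim)
        fun z hz m => ?_⟩
      obtain rfl := s2_diff_je jr m
      simp only [mem_union] at hz k ⊢; (clear * - hz k; tauto)
  obtain ⟨w, wW, jw⟩ := w5 a aW
  have d : Disjoint W (A1 ∪ A2 ∪ A3 ∪ A4 ∪ D) := disjoint_left.2 fun v hv n =>
    (mem_union.1 n).elim (s2_diff_Q hW hv).2.1 (s2_diff_Q hW hv).2.2
  have w1 : Disjoint W (A1 ∪ A2 ∪ A3 ∪ A4 ∪ S) := disjoint_left.2 fun v hv n => by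
    refine (mem_union.1 n).elim (s2_diff_Q hW hv).2.1 fun m => hu ?_
    obtain ⟨X, F', k1, k2⟩ := w4 v hv w wW
    exact mem_rc.2 ⟨v, m, disjoint_left.1 d hv,
      (k1.rv (disjoint_of_subset_left k2 d) k1.left k1.right).trans
        (rv_edge (s2_false_mem hq hW.symm) jw.symm (disjoint_left.1 d wW)
          fun n => (mem_union.1 n).elim uM uD)⟩
  have w2 : Disjoint W D := disjoint_of_subset_right subset_union_right d
  have w3 : Disjoint W Nb := disjoint_left.2 fun v hv n =>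
    disjoint_left.1 w1 hv (mem_union_right _ (a2_nb hd h hD hj n (disjoint_left.1 w2 hv)).1)
  have hp := hq.bal w3 fun D' k k' => tz_of hd z1 D' k (disjoint_left.2 fun v hv n => by
    have a1 := disjoint_left.1 w1 (k' hv)
    have a2 := disjoint_left.1 w2 (k' hv)
    simp only [mem_union] at a1 n; (clear * - a1 a2 n; tauto))
  have h2 : ∀ z ∈ A1 ∪ A2 ∪ A3 ∪ A4, G.Je g u z → False := fun z hz m =>
    (s2_diff_Q hW wW).2.1 (s2_diff_je m jw ▸ hz)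
  obtain ⟨s', t', H, R, k | k, k1, -, -, k4⟩ := nx_ring hq ha hb h hD hj w1 w2 w3 w4 hp
  · obtain ⟨rfl, rfl⟩ := k
    exact ⟨_, H, R, a2_sep_fin hq k1 h3 tM hW hMD h.nb k4 fun z hz m => (h2 z hz m).elim⟩
  · obtain ⟨rfl, rfl⟩ := k
    exact ⟨_, H, R, a2_sep_fin hq k1 h3.sw1 sM hW hMD h.nb k4 fun z hz m => (h2 z hz m).elim⟩

/-- HINT: `a2_in` if `u` is reached.  Else `QG.ed` in both orders for the even ring and `D`.  A ring
or half that meets `S` makes `u` reached; a ring with a box meets `S` (`a2_nb`); an ear to `D` is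
against `hb`; then `a2_lad` or `QG.sx` and `a2_sep`. -/
theorem a2_gz (hq : G.QG U Nb Tm) (ha : G.Ha Nb Tm) (hb : G.Hb Nb Tm) (hd : G.Hdd Nb Tm)
    (h : G.Th Nb Tm s t x y A1 A2 A3 A4 S E1 E2 E3 E4 F) (h3 : T3n Tm s t u)
    (hD : G.Ob Nb D) (hj : Disjoint (A1 ∪ A2 ∪ A3 ∪ A4 ∪ S) D)
    (hα : G.At α x ∧ α ∈ F) (hβ : G.At β y ∧ β ∈ F)
    (hc : G.Clo (G.rc (A1 ∪ A2 ∪ A3 ∪ A4 ∪ D) S) D {α, β}) :
    ∃ s' H R, G.Gz Nb Tm s' H R D := by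
  by_cases hu : u ∈ G.rc (A1 ∪ A2 ∪ A3 ∪ A4 ∪ D) S
  · exact ⟨_, _, _, a2_in hq ha h h3 hD hj hα hβ hc hu⟩
  obtain ⟨ms, -, mu, -⟩ := h3.mem
  have u0 := (h.third ha h3 hD hj).1
  have uR : u ∉ A1 ∪ A2 ∪ A3 ∪ A4 := fun k => u0 (mem_union_left _ k)
  have hCs : A1 ∪ A4 ∪ S ⊆ A1 ∪ A2 ∪ A3 ∪ A4 ∪ S := fun v => by
    simp only [mem_union]
    (clear * - hα hβ; tauto)
  have hC := h.ring.2.2
  have sC : s ∈ A1 ∪ A4 ∪ S := mem_union_left _ (mem_union_left _ h.p1.left)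
  have dC : Disjoint (A1 ∪ A4 ∪ S) D := hj.mono_left hCs
  have uD : u ∉ D := (cut_b hq hb hC ms sC hD dC mu fun k => u0 (hCs k)).1
  have dR : Disjoint (A1 ∪ A2 ∪ A3 ∪ A4) D := hj.mono_left subset_union_left
  have key : ∀ v ∈ S, ¬ G.Rv (A1 ∪ A2 ∪ A3 ∪ A4 ∪ D) u v := fun v hv k =>
    hu (mem_rc.2 ⟨v, hv, k.not_mem fun m => (mem_union.1 m).elim uR uD, k.symm⟩)
  have ring : ∀ X R, G.Cw X R → u ∈ X → ¬ Disjoint X Nb → Disjoint X (A1 ∪ A2 ∪ A3 ∪ A4) →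
      Disjoint X D → False := fun X R cX uX nX d1 d2 => by
    obtain ⟨B, b1, b2⟩ := not_disjoint_iff.1 nX
    have d3 : Disjoint X (A1 ∪ A2 ∪ A3 ∪ A4 ∪ D) := disjoint_union_right.2 ⟨d1, d2⟩
    exact key B (a2_nb hd h hD hj b2 (disjoint_left.1 d2 b1)).1
      ((cX.rch uX b1).mono fun _ he => mem_avo.2 ⟨cX.sub he,
        disjoint_left.1 d3 (cX.ends he (Or.inl rfl)), disjoint_left.1 d3 (cX.ends he (Or.inr rfl))⟩)
  rcases hq.ed (hq.tm mu) uR uD with ⟨X, xU, uX, d1, d2, f, c1⟩ | ⟨X, R, cX, uX, nX, d1, d2⟩ |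
    ⟨w, w', X1, X2, F1, F2, he⟩
  · rcases hq.ed (hq.tm mu) uD uR with ⟨Y, yU, uY, d4, d3, g, c2⟩ | ⟨Y, R, cY, uY, nY, d4, d3⟩ |
      ⟨w, w', X1, X2, F1, F2, he⟩
    · obtain ⟨v, hv⟩ := (hq.ob hD).2
      obtain ⟨P, Q, f', g', hs⟩ := hq.sx mu dR
        ⟨s, mem_inter.2 ⟨mem_union_right _ h.p4.left, hq.tm ms⟩⟩
        ⟨v, mem_inter.2 ⟨hv, (hq.ob hD).1 hv⟩⟩ xU yU uX uY d1 d2 d3 d4 c1 c2
      exact a2_sep hq ha hb hd h h3 hD hj hs hu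
    · exact (ring Y R cY uY nY d3 d4).elim
    · obtain ⟨Y, R, cY, s1, s2, -, va⟩ := he.ob hq hD uD 1
      have vY : G.Vr Nb Y := ⟨R, cY, va.imp And.left fun k =>
        not_disjoint_iff.2 ⟨w, s1 (mem_union_left _ he.p1.right), k.1⟩⟩
      obtain ⟨v, v1, v2⟩ := not_disjoint_iff.1
        (hb _ _ vY hC u mu s ms (s1 (mem_union_left _ he.p1.left)) sC)
      have vD : v ∉ D := disjoint_left.1 dC v2
      have vS : v ∉ A1 ∪ A2 ∪ A3 ∪ A4 → v ∈ S := fun k =>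
        (mem_union.1 (hCs v2)).resolve_left k
      rcases mem_union.1 ((mem_union.1 (s2 v1)).resolve_right vD) with k | k
      · exact (key v (vS (disjoint_left.1 he.l1 k))
          (union_comm D _ ▸ QG.edo_rv he.p1 he.o1 he.l1 k vD)).elim
      · exact (key v (vS (disjoint_left.1 he.l2 k))
          (union_comm D _ ▸ QG.edo_rv he.p2 he.o2 he.l2 k vD)).elim
  · exact (ring X R cX uX nX d1 d2).elim
  · obtain ⟨H, R, k⟩ := a2_lad hq ha hd h h3 hD hj hα hβ hc he hu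
    exact ⟨u, H, R, k⟩

end SG

end Pool.Agent.Work.MP_8c679b_co
end

-- merged part: Pool.Agent.Work.MP_8c679b_co.A3.GA4
section
/-!
Boxes on the third path.
-/

set_option autoImplicit false
set_option linter.unusedSectionVars false

namespace Pool.Agent.Work.MP_8c679b_co

open Finset

namespace SG

variable {V E : Type} [Fintype V] [DecidableEq V] [DecidableEq E] [Nonempty E] {G : SG V E}
  {U Nb Tm X Y Z M L D D' H P Q W X1 X2 A1 A2 A3 A4 S : Finset V}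
  {F F' F1 F2 E1 E2 E3 E4 R : Finset E} {a b c v w x y z s t u B B1 B2 : V} {e f g : E}
  {P' Q' Y1 Y2 Y3 Y4 : Finset V} {f' g' α β : E} {R1 R2 R3 R4 R' : Finset E} {w' z' : V}

/-- HINT: `X0 = G.rc R S` (`R` the even ring) has an exit other than `α, β` (`QG.c2`); it starts
outside the set reached off `D`, so the path to it meets `D`; take the tail after the last vertex
on `D`. -/
theorem a2_att (hq : G.QG U Nb Tm) (ha : G.Ha Nb Tm)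
    (h : G.Th Nb Tm s t x y A1 A2 A3 A4 S E1 E2 E3 E4 F)
    (hD : G.Ob Nb D) (hj : Disjoint (A1 ∪ A2 ∪ A3 ∪ A4 ∪ S) D)
    (hα : G.At α x ∧ α ∈ F) (hβ : G.At β y ∧ β ∈ F)
    (hc : G.Clo (G.rc (A1 ∪ A2 ∪ A3 ∪ A4 ∪ D) S) D {α, β})
    (hB : B1 ∈ Nb) (hS : B1 ∈ S) : ∃ d ∈ D, ∃ z ∈ A1 ∪ A2 ∪ A3 ∪ A4, ∃ X R, G.Pw d z X R ∧
      (∀ v ∈ X, v ∈ D → v = d) ∧ (∀ v ∈ X, v ∈ A1 ∪ A2 ∪ A3 ∪ A4 → v = z) ∧
      Disjoint X (G.rc (A1 ∪ A2 ∪ A3 ∪ A4 ∪ D) S) := by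
  have sU : s ∈ U := hq.tm h.hs
  have tU : t ∈ U := hq.tm h.ht
  have SU : S ⊆ U := hq.pw h.ps (hq.pw h.p1 sU h.p1.right)
  have sR : s ∈ A1 ∪ A2 ∪ A3 ∪ A4 := mem_union_right _ h.p4.left
  have tR : t ∈ A1 ∪ A2 ∪ A3 ∪ A4 := mem_union_left _ (mem_union_right _ h.p3.left)
  have RD : ∀ v ∈ A1 ∪ A2 ∪ A3 ∪ A4, v ∉ D := fun v hv => disjoint_left.1 hj (mem_union_left _ hv)
  have b0 : B1 ∈ G.rc (A1 ∪ A2 ∪ A3 ∪ A4) S :=
    mem_rc.2 ⟨B1, hS, disjoint_right.1 h.nb hB, Rv.refl _ _⟩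
  have hn : ¬ G.Clo (G.rc (A1 ∪ A2 ∪ A3 ∪ A4) S) ∅ {α, β} := by
    intro k
    have s0 : s ∉ G.rc (A1 ∪ A2 ∪ A3 ∪ A4) S := disjoint_right.1 rc_dj sR
    have t0 : t ∉ G.rc (A1 ∪ A2 ∪ A3 ∪ A4) S := disjoint_right.1 rc_dj tR
    rcases hq.c2 (hq.rc SU) k with k | k | ⟨u, hu, k⟩ | ⟨u, -, k⟩
    · rw [k] at b0
      exact notMem_empty _ b0
    · exact s0 (k ▸ sU)
    · rw [k, mem_singleton] at b0
      exact disjoint_left.1 hq.dj hB (b0 ▸ hu)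
    · have k1 : s ∈ ({u} : Finset V) := k ▸ mem_sdiff.2 ⟨sU, s0⟩
      have k2 : t ∈ ({u} : Finset V) := k ▸ mem_sdiff.2 ⟨tU, t0⟩
      exact h.st ((mem_singleton.1 k1).trans (mem_singleton.1 k2).symm)
  unfold Clo at hn
  push Not at hn
  obtain ⟨e, he, v, z, je, hv, hz, -, hne⟩ := hn
  have zR : z ∈ A1 ∪ A2 ∪ A3 ∪ A4 := (rc_clo e he v z je hv hz).resolve_right (notMem_empty _)
  have zS : z ∉ G.rc (A1 ∪ A2 ∪ A3 ∪ A4 ∪ D) S := disjoint_right.1 rc_dj (mem_union_left _ zR)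
  have vS : v ∉ G.rc (A1 ∪ A2 ∪ A3 ∪ A4 ∪ D) S := fun k =>
    (hc e he v z je k zS).elim (RD z zR) hne
  obtain ⟨z0, z0S, z0R, hr⟩ := mem_rc.1 hv
  obtain ⟨X, F', hp, hXR, -⟩ := hr.pw z0R
  have hXD : ¬ Disjoint X D := fun k =>
    vS (mem_rc.2 ⟨z0, z0S, disjoint_left.1 (disjoint_union_right.2 ⟨hXR, k⟩) hp.left,
      hp.rv (disjoint_union_right.2 ⟨hXR, k⟩) hp.left hp.right⟩)
  obtain ⟨d, X1, F1, X2, F2, dD, p1, -, hX, -, -, -, o1⟩ := hp.symm.first hXD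
  have h1R : ∀ w ∈ X1, w ∉ A1 ∪ A2 ∪ A3 ∪ A4 := fun w hw =>
    disjoint_left.1 hXR (hX ▸ mem_union_left _ hw)
  refine ⟨d, dD, z, zR, insert z X1, insert e F1,
    (p1.cons he je.symm fun k => h1R z k zR).1.symm, fun w hw wD => ?_, fun w hw wR => ?_,
    disjoint_left.2 fun w hw wS => ?_⟩
  · rcases mem_insert.1 hw with k | k
    · exact absurd (k ▸ wD) (RD z zR)
    · exact o1 w k wD
  · exact (mem_insert.1 hw).resolve_right fun k => h1R w k wR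
  · rcases mem_insert.1 hw with k | k
    · exact zS (k ▸ wS)
    · obtain ⟨Y1, G1, Y2, G2, q1, q2, hY, -, hi, -⟩ := p1.split k
      have wD : w ∉ D := fun k' => disjoint_left.1 rc_dj wS (mem_union_right _ k')
      have dY : Disjoint Y1 (A1 ∪ A2 ∪ A3 ∪ A4 ∪ D) := by
        refine disjoint_left.2 fun a ha1 ha2 => ?_
        have aX : a ∈ X1 := hY ▸ mem_union_left _ ha1
        rcases mem_union.1 ha2 with k' | k'
        · exact h1R a aX k'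
        · have ad := o1 a aX k'
          exact wD (hi a ha1 (ad ▸ q2.right) ▸ k')
      obtain ⟨z1, z1S, z1R, hr1⟩ := mem_rc.1 wS
      exact vS (mem_rc.2 ⟨z1, z1S, z1R, hr1.trans (q1.rv dY q1.right q1.left)⟩)

/-- every path from `x` through the reached set to `D` contains all other boxes.  HINT: join it by
`Ob.arc` (`Ob.two_out`) with the given path, `Th.arc`, `ha` for the object `{B1}`; `z ≠ x` by
`Th.out`, as the last inner vertex or `c` is off the configuration. -/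
theorem a2_thru (hq : G.QG U Nb Tm) (ha : G.Ha Nb Tm) (hd : G.Hdd Nb Tm)
    (h : G.Th Nb Tm s t x y A1 A2 A3 A4 S E1 E2 E3 E4 F)
    (hD : G.Ob Nb D) (hj : Disjoint (A1 ∪ A2 ∪ A3 ∪ A4 ∪ S) D)
    (hα : G.At α x ∧ α ∈ F) (hβ : G.At β y ∧ β ∈ F)
    (hc : G.Clo (G.rc (A1 ∪ A2 ∪ A3 ∪ A4 ∪ D) S) D {α, β})
    (hp : G.Pw c z X R) (c1 : c ∈ D) (z1 : z ∈ A1 ∪ A2) (o1 : ∀ v ∈ X, v ∈ D → v = c)
    (o2 : ∀ v ∈ X, v ∈ A1 ∪ A2 ∪ A3 ∪ A4 → v = z) (o3 : Disjoint X (G.rc (A1 ∪ A2 ∪ A3 ∪ A4 ∪ D) S))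
    (hp' : G.Pw x b Y R') (b1 : b ∈ D) (o4 : ∀ v ∈ Y, v = x ∨ v = b ∨ v ∈ G.rc (A1 ∪ A2 ∪ A3 ∪ A4 ∪ D) S)
    (hB : B1 ∈ Nb) (hBD : B1 ∉ D) : B1 ∈ Y := by
  by_contra hY
  obtain ⟨-, BR, BS⟩ := a2_nb hd h hD hj hB hBD
  have BX : B1 ∉ X := disjoint_right.1 o3 BS
  have RD : ∀ v ∈ A1 ∪ A2 ∪ A3 ∪ A4, v ∉ D := fun v hv => disjoint_left.1 hj (mem_union_left _ hv)
  have SD : ∀ v ∈ S, v ∉ D := fun v hv => disjoint_left.1 hj (mem_union_right _ hv)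
  have sg : ∀ v ∈ G.rc (A1 ∪ A2 ∪ A3 ∪ A4 ∪ D) S, v ∉ A1 ∪ A2 ∪ A3 ∪ A4 ∪ D :=
    fun v hv => disjoint_left.1 rc_dj hv
  have x1 : x ∈ A1 ∪ A2 := mem_union_left _ h.p1.right
  have xR : x ∈ A1 ∪ A2 ∪ A3 ∪ A4 := mem_union_left _ (mem_union_left _ x1)
  have zR : z ∈ A1 ∪ A2 ∪ A3 ∪ A4 := mem_union_left _ (mem_union_left _ z1)
  have cz : c ≠ z := fun k => RD z zR (k ▸ c1)
  have bx : b ≠ x := fun k => RD x xR (k ▸ b1)
  have bz : b ≠ z := fun k => RD z zR (k ▸ b1)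
  have off : ∀ v ∈ X, v ≠ z → v ∉ A1 ∪ A2 ∪ A3 ∪ A4 ∪ S := by
    intro v hv vz k
    have vR : v ∉ A1 ∪ A2 ∪ A3 ∪ A4 := fun k' => vz (o2 v hv k')
    have vS := (mem_union.1 k).resolve_left vR
    exact disjoint_left.1 o3 hv (mem_rc.2 ⟨v, vS, fun k' => (mem_union.1 k').elim vR (SD v vS),
      Rv.refl _ _⟩)
  have zx : z ≠ x := by
    obtain ⟨e, w, Y', F', he, je, pw, hz, hX, -⟩ := hp.symm.head cz.symm
    exact (h.out hq he je.symm (off w (hX ▸ mem_insert_of_mem pw.left)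
      fun k => hz (k ▸ pw.left))).2.2.1
  have yD : ∀ v ∈ Y, v ∈ D → v = b := by
    intro v hv k
    rcases o4 v hv with k' | k' | k'
    · exact absurd (k' ▸ k) (RD x xR)
    · exact k'
    · exact absurd (mem_union_right _ k) (sg v k')
  have yR : ∀ v ∈ Y, v ∈ A1 ∪ A2 ∪ A3 ∪ A4 → v = x := by
    intro v hv k
    rcases o4 v hv with k' | k' | k'
    · exact k'
    · exact absurd b1 (RD b (k' ▸ k))
    · exact absurd (mem_union_left _ k) (sg v k')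
  have yX : ∀ v ∈ Y, v ∈ X → v = b ∧ v = c := by
    intro v hv k
    rcases o4 v hv with k' | k' | k'
    · exact absurd (k'.symm.trans (o2 v k (k' ▸ xR))) zx.symm
    · exact ⟨k', o1 v k (k' ▸ b1)⟩
    · exact absurd k' (disjoint_left.1 o3 k)
  have bc : b = c → b ∈ Nb := by
    intro k
    subst k
    obtain ⟨e1, w1, Y1, G1, he1, j1, q1, n1, hY1, -⟩ := hp'.symm.head bx
    obtain ⟨e2, w2, Y2, G2, he2, j2, q2, n2, hY2, -⟩ := hp.head bz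
    have m1 : w1 ∈ Y := hY1 ▸ mem_insert_of_mem q1.left
    have m2 : w2 ∈ X := hY2 ▸ mem_insert_of_mem q2.left
    have d1 : w1 ≠ b := fun k => n1 (k ▸ q1.left)
    have d2 : w2 ≠ b := fun k => n2 (k ▸ q2.left)
    refine hD.two_out hq b1 he1 he2 (fun k => ?_) j1 j2 (fun k => d1 (yD w1 m1 k))
      fun k => d2 (o1 w2 m2 k)
    subst k
    have k := (j1.at_iff.1 (j2.at_iff.2 (Or.inr rfl))).resolve_left d2
    exact d1 (yX w1 m1 (k ▸ m2)).1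
  obtain ⟨Z, F2, -, -, K⟩ := h.arc zx.symm x1 z1
  obtain ⟨Yd, Fd, pd, sd, hv⟩ := hD.arc b1 c1 bc (1 - G.par R' - G.par R - G.par F2)
  obtain ⟨q1, r1⟩ := hp'.cat pd fun v k k' => yD v k (sd k')
  obtain ⟨q2, r2⟩ := q1.cat hp fun v k k' =>
    (mem_union.1 k).elim (fun k => (yX v k k').2) fun k => o1 v k' (sd k)
  have bm : b ∈ Y ∪ Yd ∪ X := mem_union_left _ (mem_union_left _ hp'.right)
  obtain ⟨W, F', cw, sW, tW, w1, w2, r3⟩ := K _ _ q2 (fun v k k' => by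
    rcases mem_union.1 k with k | k
    · rcases mem_union.1 k with k | k
      · exact Or.inl (yR v k k')
      · exact absurd (sd k) (RD v k')
    · exact Or.inr (o2 v k k')) ⟨b, bm, bx, bz⟩
  have vr : G.Vr Nb W := by
    refine ⟨F', cw, hv.imp (fun k => ?_) fun k k' => disjoint_left.1 k' (w1 bm) k.1⟩
    rw [r3, r2, r1, k.1]
    ring
  refine ha W vr s h.hs t h.ht h.st sW tW {B1} (ob_box hB) (disjoint_singleton_right.2 fun k => ?_)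
  rcases mem_union.1 (w2 k) with k | k
  · exact BR k
  · rcases mem_union.1 k with k | k
    · exact (mem_union.1 k).elim hY fun k => hBD (sd k)
    · exact BX k

/-- the first edge of a path from `x` into the third path is `α` -/
theorem a2_y_head (hq : G.QG U Nb Tm) (h : G.Th Nb Tm s t x y A1 A2 A3 A4 S E1 E2 E3 E4 F)
    (hα : G.At α x ∧ α ∈ F) (p : G.Pw x B Y R) (hx : x ∈ M) (hB : B ∉ M) (hA : A1 ∪ A2 ⊆ M)
    (ho : ∀ v ∈ Y, v ∈ M → v = x) :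
    ∃ w Z R', G.Je α x w ∧ G.Pw w B Z R' ∧ Y = insert x Z ∧ Disjoint Z M := by
  obtain ⟨e, w, Z, R', he, j, q, n, rfl, -⟩ := p.head fun k => hB (k ▸ hx)
  have d : Disjoint Z M := disjoint_left.2 fun v k k' => n (ho v (mem_insert_of_mem k) k' ▸ k)
  obtain ⟨α', k1, k2, k3⟩ := h.atx hq
  have wM := disjoint_left.1 d q.left
  rw [k3 e he w j (fun k => wM (hA (mem_union_left _ k))) (fun k => wM (hA (mem_union_right _ k))),
    d3_th_at hq h k1 hα.2 k2 hα.1] at j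
  exact ⟨w, Z, R', j, q, rfl, d⟩

/-- a new first and a new last edge -/
theorem a2_y_ext (p : G.Pw w a Z R) (he : e ∈ G.A) (hf : f ∈ G.A) (j1 : G.Je e x w)
    (j2 : G.Je f a b) (hx : x ∉ Z) (hb : b ∉ Z) (hne : b ≠ x) :
    ∃ R', G.Pw x b (insert b (insert x Z)) R' :=
  ⟨_, ((p.cons he j1 hx).1.symm.cons hf j2.symm fun k => (mem_insert.1 k).elim hne hb).1.symm⟩

/-- HINT: `B1` before `B2` on `S`.  `Y = G.rc (insert B2 (R ∪ D)) {B1}` has no edge to `D`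
(`a2_thru`).  Some path from `x` through the reached set ends in `D` (`QG.c2`); its tail from `B2`
misses `Y`.  If the inner end of `β` is in `Y` take a path in `Y` between the ends of `α, β`: with `B1`
it closes to a valid ring through `s` off `B2` and `D`, against `hd`; without `B1` go back along `S`
to `B2`, against `a2_thru`. -/
theorem a2_y (hq : G.QG U Nb Tm) (ha : G.Ha Nb Tm) (hd : G.Hdd Nb Tm)
    (h : G.Th Nb Tm s t x y A1 A2 A3 A4 S E1 E2 E3 E4 F)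
    (hD : G.Ob Nb D) (hj : Disjoint (A1 ∪ A2 ∪ A3 ∪ A4 ∪ S) D)
    (hα : G.At α x ∧ α ∈ F) (hβ : G.At β y ∧ β ∈ F)
    (hc : G.Clo (G.rc (A1 ∪ A2 ∪ A3 ∪ A4 ∪ D) S) D {α, β})
    (hp : G.Pw c z X R) (c1 : c ∈ D) (z1 : z ∈ A1 ∪ A2) (o1 : ∀ v ∈ X, v ∈ D → v = c)
    (o2 : ∀ v ∈ X, v ∈ A1 ∪ A2 ∪ A3 ∪ A4 → v = z) (o3 : Disjoint X (G.rc (A1 ∪ A2 ∪ A3 ∪ A4 ∪ D) S))
    (b1 : B1 ∈ Nb) (b2 : B2 ∈ Nb) (p1 : G.Pw x B2 Y1 R1) (p2 : G.Pw B2 y Y2 R2) (hS : S = Y1 ∪ Y2)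
    (hi : ∀ v ∈ Y1, v ∈ Y2 → v = B2) (m1 : B1 ∈ Y1) (hne : B1 ≠ B2) :
    G.Clo (G.rc (insert B2 (A1 ∪ A2 ∪ A3 ∪ A4 ∪ D)) {B1}) {B2} {α} := by
  generalize hM : A1 ∪ A2 ∪ A3 ∪ A4 ∪ D = M at hc o3 ⊢
  have mM : ∀ v, v ∈ M ↔ v ∈ A1 ∪ A2 ∪ A3 ∪ A4 ∨ v ∈ D := fun v => by rw [← hM, mem_union]
  have xR : x ∈ A1 ∪ A2 ∪ A3 ∪ A4 := by simp [h.p1.right]
  have yR : y ∈ A1 ∪ A2 ∪ A3 ∪ A4 := by simp [h.p4.right]
  have dS : ∀ v ∈ S, v ∉ D := fun v k => disjoint_left.1 hj (mem_union_right _ k)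
  have dR : ∀ v ∈ A1 ∪ A2 ∪ A3 ∪ A4, v ∉ D := fun v k => disjoint_left.1 hj (mem_union_left _ k)
  have fS : ∀ v ∈ S, v ∈ M → v = x ∨ v = y := fun v k k' => by
    have := (mM v).1 k'
    simp only [mem_union] at this
    rcases this with (((m | m) | m) | m) | m
    exacts [.inl (h.j1 v m k), .inl (h.j2 v m k), .inr (h.j3 v m k), .inr (h.j4 v m k),
      absurd m (dS v k)]
  have S1 : Y1 ⊆ S := hS ▸ subset_union_left
  have S2 : Y2 ⊆ S := hS ▸ subset_union_right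
  have nR : ∀ B ∈ Nb, B ∉ A1 ∪ A2 ∪ A3 ∪ A4 := fun B k => disjoint_right.1 h.nb k
  have B1M : B1 ∉ M := fun k => ((mM _).1 k).elim (nR _ b1) (dS _ (S1 m1))
  have B2M : B2 ∉ M := fun k => ((mM _).1 k).elim (nR _ b2) (dS _ (S1 p1.right))
  have xM := (mM x).2 (.inl xR)
  have yM := (mM y).2 (.inl yR)
  obtain ⟨w1, Z1, G1, j1, q1, s1, d1⟩ := a2_y_head hq h hα p1 xM B2M
    (fun v k => (mM v).2 (.inl (by simp only [mem_union] at k ⊢; (clear * - hα hβ k; tauto)))) fun v k k' =>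
      (fS v (S1 k) k').resolve_right fun e => B2M (hi v k (e ▸ p2.right) ▸ k')
  obtain ⟨w2, Z2, G2, j2, q2, s2, d2⟩ := a2_y_head hq h.fl hβ p2.symm yM B2M
    (fun v k => (mM v).2 (.inl (by simp only [mem_union] at k ⊢; tauto))) fun v k k' =>
      (fS v (S2 k) k').resolve_left fun e => B2M (hi v (e ▸ p1.left) k ▸ k')
  have aA := h.ps.sub hα.2
  have bA := h.ps.sub hβ.2
  have w1M : w1 ∉ M := disjoint_left.1 d1 q1.left
  have w1S : w1 ∈ S := S1 (s1 ▸ mem_insert_of_mem q1.left)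
  have thru : ∀ B ∈ Nb, B ∉ D → w1 ≠ B → ∀ a, G.Rv (insert B M) w1 a → ∀ e ∈ G.A, ∀ b ∈ D,
      ¬ G.Je e a b := fun B k1 k2 k3 a r e he b hb j => by
    obtain ⟨Z, R0, q, d, r'⟩ := r.pw fun k => (mem_insert.1 k).elim k3 w1M
    obtain ⟨R1, q'⟩ := a2_y_ext q aA he j1 j (fun k => disjoint_left.1 d k (mem_insert_of_mem xM))
      (fun k => disjoint_left.1 d k (mem_insert_of_mem ((mM b).2 (.inr hb))))
      fun k => dR x xR (k ▸ hb)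
    have := a2_thru hq ha hd h hD hj hα hβ (hM ▸ hc) hp c1 z1 o1 o2 (hM ▸ o3) q' hb
      (fun v k => by
        rcases mem_insert.1 k with k | k
        · exact .inr (.inl k)
        · exact (mem_insert.1 k).imp_right fun k => .inr
            (hM ▸ mem_rc.2 ⟨w1, w1S, w1M, (r' v k).mono (subset_insert _ _)⟩)) k1 k2
    rcases mem_insert.1 this with k | k
    · exact k2 (k ▸ hb)
    · rcases mem_insert.1 k with k | k
      exacts [nR B k1 (k ▸ xR), disjoint_left.1 d k (mem_insert_self _ _)]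
  have B1M2 : B1 ∉ insert B2 M := fun k => (mem_insert.1 k).elim hne B1M
  have r1 : G.Rv (insert B2 M) w1 B1 ∧ w1 ≠ B2 := by
    obtain ⟨X1, F1, X2, F2, a1, a2, rfl, -, a3, -⟩ := q1.split
      ((mem_insert.1 (s1 ▸ m1)).resolve_left fun k : B1 = x => B1M (k ▸ xM))
    have n : B2 ∉ X1 := fun k => hne (a3 _ k a2.right).symm
    exact ⟨a1.rv (disjoint_insert_right.2 ⟨n, d1.mono_left subset_union_left⟩) a1.left a1.right,
      fun k => n (k ▸ a1.left)⟩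
  have noD : ∀ a, G.Rv (insert B2 M) B1 a → ∀ e ∈ G.A, ∀ b ∈ D, ¬ G.Je e a b := fun a r =>
    thru B2 b2 (dS _ (S1 p1.right)) r1.2 a (r1.1.trans r)
  intro e he a b j ia ib
  obtain ⟨_, k, -, ra⟩ := mem_rc.1 ia
  rw [mem_singleton.1 k] at ra
  have aS : a ∈ G.rc M S := mem_rc.2 ⟨B1, S1 m1, B1M, ra.mono (subset_insert _ _)⟩
  rcases mem_insert.1 ((rc_clo e he a b j ia ib).resolve_right (notMem_empty e)) with k | k
  · exact .inl (mem_singleton.2 k)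
  rcases hc e he a b j aS (disjoint_right.1 rc_dj k) with m | m
  · exact (noD a ra e he b m j).elim
  rcases mem_insert.1 m with m | m
  · exact .inr (mem_singleton.2 m)
  exfalso
  rw [mem_singleton.1 m] at j
  obtain rfl : a = w2 := ((sx_ends j j2).resolve_left fun k =>
    disjoint_left.1 rc_dj aS (k.1 ▸ yM)).1
  obtain ⟨Z, R0, q, d, -⟩ := (r1.1.trans ra).pw fun k => (mem_insert.1 k).elim r1.2 w1M
  have dM : Disjoint Z M := d.mono_right (subset_insert _ _)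
  by_cases c : B1 ∈ Z
  · obtain ⟨R1, q'⟩ := a2_y_ext q aA bA j1 j2.symm (disjoint_right.1 dM xM) (disjoint_right.1 dM yM)
      h.xy.symm
    obtain ⟨q3, -⟩ := h.p1.symm.cat h.p4 h.i14
    have sub : A1 ∪ A4 ⊆ A1 ∪ A2 ∪ A3 ∪ A4 := fun v k => by simp only [mem_union] at k ⊢; (clear * - hα hβ k r1; tauto)
    have i : ∀ v ∈ insert y (insert x Z), v ∈ A1 ∪ A4 → v = x ∨ v = y := fun v k k' => by
      rcases mem_insert.1 k with k | k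
      · exact .inr k
      · exact .inl ((mem_insert.1 k).resolve_right fun k =>
          disjoint_left.1 dM k ((mM v).2 (.inl (sub k'))))
    have m : B1 ∈ insert y (insert x Z) := mem_insert_of_mem (mem_insert_of_mem c)
    have n : ∀ v ∈ insert y (insert x Z) ∪ (A1 ∪ A4), v ∈ Z ∨ v ∈ A1 ∪ A2 ∪ A3 ∪ A4 := fun v k => by
      rcases mem_union.1 k with k | k
      · rcases mem_insert.1 k with k | k
        · exact .inr (k ▸ yR)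
        · exact (mem_insert.1 k).elim (fun k => .inr (k ▸ xR)) .inl
      · exact .inr (sub k)
    refine hd _ ⟨_, (cw_of_two q' q3 h.xy i (q'.dj2 q3 i m (fun k => B1M (k ▸ xM))
      fun k => B1M (k ▸ yM))).1, .inr fun k => disjoint_left.1 k (mem_union_left _ m) b1⟩ s h.hs
      (mem_union_right _ (mem_union_left _ h.p1.left)) D {B2} hD (ob_box b2)
      (disjoint_singleton_right.2 (dS _ (S1 p1.right))) (disjoint_left.2 fun v k k' => ?_)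
      (disjoint_singleton_right.2 fun k => ?_)
    · exact (n v k).elim (fun k => disjoint_left.1 dM k ((mM v).2 (.inr k'))) fun k => dR v k k'
    · exact (n _ k).elim (fun k => disjoint_left.1 d k (mem_insert_self _ _)) (nR _ b2)
  · obtain ⟨e', he', a', b', j', ia', ib'⟩ : ∃ e ∈ G.A, ∃ a b, G.Je e a b ∧ a ∈ G.rc M S ∧ b ∈ D := by
      by_contra k
      have sM : ∀ v ∈ A1 ∪ A2 ∪ A3 ∪ A4, v ∈ U \ G.rc M S := fun v k => mem_sdiff.2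
        ⟨hq.cw h.rr k, disjoint_right.1 rc_dj ((mM v).2 (.inl k))⟩
      have iB : B1 ∈ G.rc M S := mem_rc.2 ⟨B1, S1 m1, B1M, .refl _ _⟩
      rcases hq.c2 (hq.rc (M := M) (hq.pw h.ps (mem_sdiff.1 (sM x xR)).1)) (e := α) (f := β)
        (fun e he a b j ia ib => .inr ((hc e he a b j ia ib).resolve_left fun m =>
          k ⟨e, he, a, b, j, ia, m⟩)) with m | m | ⟨t', m', m⟩ | ⟨t', -, m⟩
      · exact notMem_empty _ (m ▸ iB)
      · exact (mem_sdiff.1 (sM x xR)).2 (m.symm ▸ (mem_sdiff.1 (sM x xR)).1)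
      · exact disjoint_left.1 hq.dj b1 (mem_singleton.1 (m ▸ iB) ▸ m')
      · exact h.xy ((mem_singleton.1 (m ▸ sM x xR)).trans (mem_singleton.1 (m ▸ sM y yR)).symm)
    obtain ⟨v, vS, vM, rv⟩ := mem_rc.1 ia'
    have rB : G.Rv M B2 v := by
      rcases mem_union.1 (hS ▸ vS) with k | k
      · exact q1.rv d1 q1.right ((mem_insert.1 (s1 ▸ k)).resolve_left fun k => vM (k ▸ xM))
      · exact q2.rv d2 q2.right ((mem_insert.1 (s2 ▸ k)).resolve_left fun k => vM (k ▸ yM))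
    obtain ⟨Q, R1, q4, d4, -⟩ := (rB.trans rv).pw B2M
    have n : B1 ∉ Q := fun k => by
      obtain ⟨X1, F1, X2, F2, a1, a2, rfl, -, a3, -⟩ := q4.split k
      exact noD a' (a2.rv (disjoint_insert_right.2 ⟨fun k => hne (a3 _ a1.left k).symm,
        d4.mono_left subset_union_right⟩) a2.left a2.right) e' he' b' ib' j'
    have n2 : B1 ∉ Z2 := fun k => hne (hi _ m1 (s2 ▸ mem_insert_of_mem k))
    exact thru B1 b1 (dS _ (S1 m1)) (fun k => c (k ▸ q.left)) a'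
      (((q.rv (disjoint_insert_right.2 ⟨c, dM⟩) q.left q.right).trans
        (q2.rv (disjoint_insert_right.2 ⟨n2, d2⟩) q2.left q2.right)).trans
        (q4.rv (disjoint_insert_right.2 ⟨n, d4⟩) q4.left q4.right)) e' he' b' ib' j'

/-- a set with one terminal that hangs on a box and one more edge -/
theorem a2_two_cut (hq : G.QG U Nb Tm) (hY : Y ⊆ U) (h3 : T3n Tm s t u) (hs : s ∉ Y) (ht : t ∉ Y)
    (hu : u ∈ Y) (hB : B ∈ Nb) (hBY : B ∉ Y) (h : G.Clo Y {B} {f}) : (G.cut Y).card ≤ 3 := by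
  obtain ⟨ms, -, -, mm⟩ := h3.mem
  have s0 : ({B} : Finset V) ⊆ insert B Y := singleton_subset_iff.2 (mem_insert_self _ _)
  obtain ⟨h1, h2⟩ := hq.ht _ (insert_subset (hq.nb hB) hY) (insert_nonempty _ _)
  have h0 : (insert B Y ∩ Tm).card ≤ 1 := (card_le_card fun v hv => by
    obtain ⟨a1, a2⟩ := mem_inter.1 hv
    have a3 := (mem_insert.1 a1).resolve_left fun e => disjoint_left.1 hq.dj hB (e ▸ a2)
    exact mem_singleton.2 (((mm v a2).resolve_left fun e => hs (e ▸ a3)).resolve_left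
      fun e => ht (e ▸ a3))).trans (card_singleton u).le
  have h6 : (G.cut (insert B Y)).card + (insert B Y ∩ Tm).card ≠ 3 := fun e => by
    rcases h2 e with k | k
    · rw [card_insert_of_notMem hBY] at k
      have := card_pos.2 ⟨u, hu⟩
      omega
    · exact (mem_insert.1 (k.ge (hq.tm ms))).elim
        (fun e => disjoint_left.1 hq.dj hB (e ▸ ms)) hs
  have h3 := cut_add (G := G) s0
  have h4 : G.cut Y ⊆ insert f (G.cut {B} \ G.cut (insert B Y)) := fun e he => by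
    obtain ⟨a1, a2⟩ := mem_cut.1 he
    have a3 := h e a1 _ _ (Or.inl ⟨rfl, rfl⟩)
    have a4 := h e a1 _ _ (Or.inr ⟨rfl, rfl⟩)
    simp only [mem_insert, mem_sdiff, mem_cut, mem_singleton] at a3 a4 ⊢
    grind
  have h5 := (card_le_card h4).trans (card_insert_le _ _)
  rw [crs_ins s0, sdiff_singleton_eq_erase, erase_insert hBY, hq.d4 B hB] at h3
  omega

theorem a2_two_end (hq : G.QG U Nb Tm) (hd : G.Hdd Nb Tm) (h3 : T3n Tm s t u) (hD : G.Ob Nb D)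
    (b1 : B1 ∈ Nb) (b2 : B2 ∈ Nb) (hs : s ∈ M) (ht : t ∈ M) (m1 : B1 ∉ M) (m2 : B2 ∈ M)
    (hDM : D ⊆ M) (hBD : B2 ∉ D) (hc : G.Clo (G.rc M {B1}) {B2} {α}) : False := by
  have hU : G.rc M {B1} ⊆ U := hq.rc (singleton_subset_iff.2 (hq.nb b1))
  have k : ∀ v ∈ M, v ∉ G.rc M {B1} := fun v hv => disjoint_right.1 rc_dj hv
  have k1 : B1 ∈ G.rc M {B1} := mem_rc.2 ⟨B1, mem_singleton_self _, m1, Rv.refl _ _⟩
  by_cases hu : u ∈ G.rc M {B1}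
  · obtain ⟨Y, y1, y2, y3⟩ := ring_in hq hU h3 (k s hs) (k t ht) hu (ob_box b1)
      (singleton_subset_iff.2 k1) (a2_two_cut hq hU h3 (k s hs) (k t ht) hu b2 (k _ m2) hc)
    exact hd Y y2 u h3.mem.2.2.1 y3 D {B2} hD (ob_box b2) (disjoint_singleton_right.2 hBD)
      (rc_dj.mono y1 hDM) (disjoint_singleton_right.2 fun c => k _ m2 (y1 c))
  · exact notMem_empty B1 (hq.nov hU (th0_tm h3 (k s hs) (k t ht) hu) b2 (k _ m2) hc ▸ k1)

theorem a2_two_arc (hq : G.QG U Nb Tm) (ha : G.Ha Nb Tm) (hd : G.Hdd Nb Tm)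
    (h : G.Th Nb Tm s t x y A1 A2 A3 A4 S E1 E2 E3 E4 F) (h3 : T3n Tm s t u)
    (hD : G.Ob Nb D) (hj : Disjoint (A1 ∪ A2 ∪ A3 ∪ A4 ∪ S) D)
    (hα : G.At α x ∧ α ∈ F) (hβ : G.At β y ∧ β ∈ F)
    (hc : G.Clo (G.rc (A1 ∪ A2 ∪ A3 ∪ A4 ∪ D) S) D {α, β})
    (hp : G.Pw c z X R) (c1 : c ∈ D) (z1 : z ∈ A1 ∪ A2) (o1 : ∀ v ∈ X, v ∈ D → v = c)
    (o2 : ∀ v ∈ X, v ∈ A1 ∪ A2 ∪ A3 ∪ A4 → v = z)
    (o3 : Disjoint X (G.rc (A1 ∪ A2 ∪ A3 ∪ A4 ∪ D) S))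
    (b1 : B1 ∈ Nb) (b2 : B2 ∈ Nb) (m1 : B1 ∈ S) (m2 : B2 ∈ S) : B1 = B2 := by
  by_contra hne
  have hS : ∀ v ∈ S, v ∉ D := fun v hv => disjoint_left.1 hj (mem_union_right _ hv)
  have key : ∀ {C1 C2 : V} {Y1 Y2 : Finset V} {R1 R2 : Finset E}, C1 ∈ Nb → C2 ∈ Nb →
      G.Pw x C2 Y1 R1 → G.Pw C2 y Y2 R2 → S = Y1 ∪ Y2 → (∀ v ∈ Y1, v ∈ Y2 → v = C2) → C1 ∈ Y1 →
      C1 ≠ C2 → False := fun d1 d2 p1 p2 e1 i1 n1 n2 =>
    a2_two_end hq hd h3 hD d1 d2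
      (mem_insert_of_mem (by simp [h.p1.left])) (mem_insert_of_mem (by simp [h.p2.left]))
      (fun k => (mem_insert.1 k).elim n2 fun k => (mem_union.1 k).elim
        (disjoint_right.1 h.nb d1) (hS _ (e1.ge (mem_union_left _ n1))))
      (mem_insert_self _ _) (subset_union_right.trans (subset_insert _ _))
      (hS _ (e1.ge (mem_union_left _ p1.right)))
      (a2_y hq ha hd h hD hj hα hβ hc hp c1 z1 o1 o2 o3 d1 d2 p1 p2 e1 i1 n1 n2)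
  obtain ⟨x', y', X1, F1, X2, F2, X3, F3, k, p1, p2, p3, e1, -, i12, i23, i13, -⟩ :=
    h.ps.split2 m1 m2
  have i : ∀ v ∈ X1 ∪ X2, v ∈ X3 → v = y' := fun v hv hv' =>
    (mem_union.1 hv).elim (fun a => (i13 v a hv').2) fun a => i23 v a hv'
  rcases k with ⟨rfl, rfl⟩ | ⟨rfl, rfl⟩
  · exact key b1 b2 (p1.cat p2 i12).1 p3 e1 i (mem_union_left _ p1.right) hne
  · exact key b2 b1 (p1.cat p2 i12).1 p3 e1 i (mem_union_left _ p1.right) (Ne.symm hne)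

/-- HINT: `a2_att`, by `Th.fl` its end is on the arc through `x`; `a2_y`.  Without `u` the set `Y` is
against `QG.nov`.  With `u`: `insert B2 Y` has at least three leaving edges (`QG.c2`), so `Y` has at
most three; `ring_in` with the object `{B1}`, `hd`. -/
theorem a2_two (hq : G.QG U Nb Tm) (ha : G.Ha Nb Tm) (hd : G.Hdd Nb Tm)
    (h : G.Th Nb Tm s t x y A1 A2 A3 A4 S E1 E2 E3 E4 F) (h3 : T3n Tm s t u)
    (hD : G.Ob Nb D) (hj : Disjoint (A1 ∪ A2 ∪ A3 ∪ A4 ∪ S) D)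
    (hα : G.At α x ∧ α ∈ F) (hβ : G.At β y ∧ β ∈ F)
    (hc : G.Clo (G.rc (A1 ∪ A2 ∪ A3 ∪ A4 ∪ D) S) D {α, β})
    (b1 : B1 ∈ Nb) (b2 : B2 ∈ Nb) (m1 : B1 ∈ S) (m2 : B2 ∈ S) : B1 = B2 := by
  obtain ⟨c, c1, z, z1, X, R, hp, o1, o2, o3⟩ := a2_att hq ha h hD hj hα hβ hc b1 m1
  by_cases k : z ∈ A1 ∪ A2
  · exact a2_two_arc hq ha hd h h3 hD hj hα hβ hc hp c1 k o1 o2 o3 b1 b2 m1 m2
  · have e : A4 ∪ A3 ∪ A2 ∪ A1 = A1 ∪ A2 ∪ A3 ∪ A4 := by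
      ext v
      simp only [mem_union]
      (clear * - hα hβ; tauto)
    refine a2_two_arc hq ha hd h.fl h3 hD (e ▸ hj) hβ hα (e ▸ pair_comm α β ▸ hc) hp c1 ?_ o1
      (e ▸ o2) (e ▸ o3) b1 b2 m1 m2
    simp only [mem_union] at z1 k ⊢
    tauto

end SG

end Pool.Agent.Work.MP_8c679b_co
end

-- merged part: Pool.Agent.Work.MP_8c679b_co.A3.GA5
section
/-!
One box `B1` on the third path, and the object is the other box `B`.
-/

set_option autoImplicit false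
set_option linter.unusedSectionVars false

namespace Pool.Agent.Work.MP_8c679b_co

open Finset

namespace SG

variable {V E : Type} [Fintype V] [DecidableEq V] [DecidableEq E] [Nonempty E] {G : SG V E}
  {U Nb Tm X Y Z M L D D' H P Q W X1 X2 A1 A2 A3 A4 S : Finset V}
  {F F' F1 F2 E1 E2 E3 E4 R : Finset E} {a b c v w x y z s t u B B1 B2 : V} {e f g : E}
  {P' Q' Y1 Y2 Y3 Y4 : Finset V} {f' g' α β : E} {R1 R2 R3 R4 R' : Finset E} {w' z' : V}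

theorem bb_in_aux (hq : G.QG U Nb Tm) (hX : X ⊆ U) (hT : Disjoint X Tm) (hB : B ∈ Nb) (hBX : B ∉ X)
    (h1 : B1 ∈ Nb) (h2 : B1 ∈ X) (h : G.Clo X {B} {e, f}) : False := by
  have s : ({B} : Finset V) ⊆ insert B X := singleton_subset_iff.2 (mem_insert_self _ _)
  have a1 := hq.c4 hX hT (ob_box h1) (singleton_subset_iff.2 h2)
  have a2 := hq.c4 (insert_subset (hq.nb hB) hX)
    (disjoint_insert_left.2 ⟨disjoint_left.1 hq.dj hB, hT⟩) (ob_box hB) s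
  have h3 := cut_add (G := G) s
  have h4 : G.cut X ⊆ insert e (insert f (G.cut {B} \ G.cut (insert B X))) := fun k hk => by
    obtain ⟨a1, a2⟩ := mem_cut.1 hk
    have a3 := h k a1 _ _ (Or.inl ⟨rfl, rfl⟩)
    have a4 := h k a1 _ _ (Or.inr ⟨rfl, rfl⟩)
    simp only [mem_insert, mem_sdiff, mem_cut, mem_singleton] at a3 a4 ⊢
    grind
  have h5 := (card_le_card h4).trans
    ((card_insert_le _ _).trans (Nat.add_le_add_right (card_insert_le _ _) 1))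
  rw [crs_ins s, sdiff_singleton_eq_erase, erase_insert hBX, hq.d4 B hB] at h3
  have h6 : (G.cut X).card = 4 := by omega
  have h7 : (G.cut (insert B X)).card = 4 := by omega
  rcases hq.s2 X hX hT h6 (not_disjoint_iff.2 ⟨B1, h2, h1⟩) with k | k
  · obtain ⟨v, rfl⟩ := card_eq_one.1 k
    obtain rfl := mem_singleton.1 h2
    exact hq.m3 B hB B1 h1 (fun q => hBX (q ▸ h2)) h7
  · exact hBX (k hB)

/-- HINT: else the reached set and its union with `B` both have four leaving edges (`QG.c4`);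
`s2`, `m3`. -/
theorem bb_in (hq : G.QG U Nb Tm) (ha : G.Ha Nb Tm) (hb : G.Hb Nb Tm) (hd : G.Hdd Nb Tm)
    (h : G.Th Nb Tm s t x y A1 A2 A3 A4 S E1 E2 E3 E4 F) (h3 : T3n Tm s t u)
    (hD : G.Ob Nb {B}) (hj : Disjoint (A1 ∪ A2 ∪ A3 ∪ A4 ∪ S) {B})
    (hα : G.At α x ∧ α ∈ F) (hβ : G.At β y ∧ β ∈ F)
    (hc : G.Clo (G.rc (A1 ∪ A2 ∪ A3 ∪ A4 ∪ {B}) S) {B} {α, β})
    (hN : Nb = {B1, B}) (hS : B1 ∈ S) :
    u ∈ G.rc (A1 ∪ A2 ∪ A3 ∪ A4 ∪ {B}) S := by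
  by_contra hu
  have b1 : B1 ∈ Nb := hN ▸ mem_insert_self _ _
  have b0 : B ∈ Nb := hN ▸ mem_insert_of_mem (mem_singleton_self B)
  have k : ∀ v ∈ A1 ∪ A2 ∪ A3 ∪ A4 ∪ {B}, v ∉ G.rc (A1 ∪ A2 ∪ A3 ∪ A4 ∪ {B}) S :=
    fun v hv => disjoint_right.1 rc_dj hv
  exact bb_in_aux hq (hq.rc (hq.cw h.ring.1 |> subset_union_right.trans))
    (th0_tm h3 (k s (by simp [h.p1.left])) (k t (by simp [h.p2.left])) hu) b0 (k B (by simp)) b1
    (a2_nb hd h hD hj b1 (disjoint_left.1 hj (mem_union_right _ hS))).2.2 hc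

/-- a path off `B` that meets `S` at most once stays in the closed set -/
theorem bb_sx_pw (hp : G.Pw x y S F) (hα : α ∈ F) (hβ : β ∈ F) (hc : G.Clo Z {B} {α, β})
    (h : G.Pw a b X R) (ha : a ∈ Z) (hB : Disjoint X {B}) (ho : ∀ v ∈ X, v ∈ S → v = c) :
    X ⊆ Z := by
  refine hc.pw h hB (disjoint_left.2 fun k h1 h2 => ?_) h.left ha
  have h3 : k ∈ F := by
    rcases mem_insert.1 h2 with rfl | h2
    exacts [hα, mem_singleton.1 h2 ▸ hβ]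
  obtain ⟨a1, a2, a3⟩ := h.je h1 (Or.inl ⟨rfl, rfl⟩)
  obtain ⟨b1, b2, -⟩ := hp.je h3 (Or.inl ⟨rfl, rfl⟩)
  exact a3 ((ho _ a1 b1).trans (ho _ a2 b2).symm)

/-- the connected form of a part lies in the closed set -/
theorem bb_sx_part (hq : G.QG U Nb Tm) (hp : G.Pw x y S F) (hα : α ∈ F) (hβ : β ∈ F)
    (hc : G.Clo Z {B} {α, β}) (h : G.Sx U u M L P Q f g) (hu : u ∈ Z) (hM : u ∉ M)
    (uS : u ∉ S) (uB : u ≠ B) (hS : S ⊆ M ∪ L) (hB : B ∈ M ∪ L) :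
    ∃ Q' ⊆ Z, G.Sx U u M L P Q' f g := by
  obtain ⟨Q', -, h1, h2, h3⟩ := h.conn' hM
  refine ⟨Q', fun a ha => ?_, h1⟩
  obtain ⟨w, k1, k2⟩ := h3 a ha
  obtain ⟨X, R, k3, k4⟩ := h2 w k1 a ha
  have gA : g ∈ G.A :=
    (hq.cut1.1 (h.cu ▸ mem_insert_of_mem (mem_singleton_self g) : g ∈ G.cut {u})).1
  have d : ∀ v ∈ X, v ∉ insert u (M ∪ L) := fun v hv => disjoint_left.1 h1.dQ (k4 hv)
  have k5 := (k3.cons gA k2 fun q => d u q (mem_insert_self _ _)).1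
  refine bb_sx_pw (c := u) hp hα hβ hc k5 hu (disjoint_singleton_right.2 fun q => ?_)
    (fun v hv q => ?_) k5.right
  · exact (mem_insert.1 q).elim uB.symm fun q => d B q (mem_insert_of_mem hB)
  · exact (mem_insert.1 hv).resolve_right fun r => d v r (mem_insert_of_mem (hS q))

/-- HINT: `QG.ed` from `u` to `H = A1 ∪ A4 ∪ S` off `B`.  What is reached from `u` off `H ∪ {B}` stays
in the reached set, so an ear ends inside `S`: `th0`, `th_ss`.  So `cut_b`, `QG.sx`, `Sx.conn'` for both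
parts, `Sx.box`, `Sx.pw_ne`. -/
theorem bb_sx (hq : G.QG U Nb Tm) (ha : G.Ha Nb Tm) (hb : G.Hb Nb Tm) (hd : G.Hdd Nb Tm)
    (h : G.Th Nb Tm s t x y A1 A2 A3 A4 S E1 E2 E3 E4 F) (h3 : T3n Tm s t u)
    (hD : G.Ob Nb {B}) (hj : Disjoint (A1 ∪ A2 ∪ A3 ∪ A4 ∪ S) {B})
    (hα : G.At α x ∧ α ∈ F) (hβ : G.At β y ∧ β ∈ F)
    (hc : G.Clo (G.rc (A1 ∪ A2 ∪ A3 ∪ A4 ∪ {B}) S) {B} {α, β})
    (hN : Nb = {B1, B}) (hS : B1 ∈ S)
    (hm : G.Tmin Nb Tm {B} F.card) : (∃ e ∈ G.A, G.Je e u B) ∧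
      ((∃ e ∈ G.A, G.Je e u B1) ∨ ∃ z ∈ S, z ≠ B1 ∧ ∃ X R, G.Pw u z X R ∧
        (∀ v ∈ X, v ∈ S → v = z) ∧ X ⊆ G.rc (A1 ∪ A2 ∪ A3 ∪ A4 ∪ {B}) S) := by
  have hu := bb_in hq ha hb hd h h3 hD hj hα hβ hc hN hS
  have b1 : B1 ∈ Nb := hN ▸ mem_insert_self _ _
  have b0 : B ∈ Nb := hN ▸ mem_insert_of_mem (mem_singleton_self B)
  have k : ∀ v ∈ A1 ∪ A2 ∪ A3 ∪ A4 ∪ {B}, v ∉ G.rc (A1 ∪ A2 ∪ A3 ∪ A4 ∪ {B}) S :=
    fun v hv => disjoint_right.1 rc_dj hv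
  have hz := a2_tz h hD hj
  have mu := h3.mem.2.2.1
  have u0 := (h.third ha h3 hD hj).1
  have uH : u ∉ A1 ∪ A4 ∪ S := fun q => u0 (by
    simp only [mem_union] at q ⊢
    (clear * - hα hβ q; tauto))
  have uS : u ∉ S := fun q => uH (mem_union_right _ q)
  have uB : u ≠ B := fun q => disjoint_left.1 hq.dj b0 (q ▸ mu)
  have kS : ∀ v ∈ A1 ∪ A4 ∪ S, v ∈ G.rc (A1 ∪ A2 ∪ A3 ∪ A4 ∪ {B}) S → v ∈ S := fun v h1 h2 =>
    (mem_union.1 h1).resolve_left fun q => k v (by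
      simp only [mem_union] at q ⊢
      (clear * - hα hβ q; tauto)) h2
  have kT : ∀ Z ⊆ G.rc (A1 ∪ A2 ∪ A3 ∪ A4 ∪ {B}) S, u ∉ Z → Disjoint Z Tm := fun Z h1 h2 =>
    th0_tm h3 (fun q => k s (by simp [h.p1.left]) (h1 q))
      (fun q => k t (by simp [h.p2.left]) (h1 q)) h2
  obtain ⟨uD, Y, y1, y2, y3, y4, g, y5⟩ := cut_b hq hb h.ring.2.2 hz.tm hz.sh hD hz.dj mu uH
  rcases hq.ed (hq.tm mu) uH uD with ⟨X, x1, x2, x3, x4, f, x5⟩ | ⟨X, F', -, -, x3, x4, x5⟩ |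
    ⟨p, q, X1, X2, F1, F2, ea⟩
  · obtain ⟨P, Q, f', g', sx⟩ := hq.sx mu hz.dj ⟨s, mem_inter.2 ⟨hz.sh, hq.tm hz.tm⟩⟩
      ⟨B, mem_inter.2 ⟨mem_singleton_self B, hq.nb b0⟩⟩ x1 y1 x2 y2 x3 x4 y4 y3 x5 y5
    obtain ⟨P', p1, sx1⟩ := bb_sx_part hq h.ps hα.2 hβ.2 hc sx.symm hu uD uS uB
      (subset_union_right.trans subset_union_right) (mem_union_left _ (mem_singleton_self B))
    obtain ⟨Q', q1, sx2⟩ := bb_sx_part hq h.ps hα.2 hβ.2 hc sx1.symm hu uH uS uB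
      (subset_union_right.trans subset_union_left) (mem_union_right _ (mem_singleton_self B))
    have fA : f' ∈ G.A := (hq.cut1.1 (sx.cu ▸ mem_insert_self f' {g'} : f' ∈ G.cut {u})).1
    have gA : g' ∈ G.A :=
      (hq.cut1.1 (sx.cu ▸ mem_insert_of_mem (mem_singleton_self g') : g' ∈ G.cut {u})).1
    refine ⟨⟨f', fA, (sx2.box hq b0 (kT P' p1 fun r =>
      disjoint_left.1 sx2.dP r (mem_insert_self _ _))).2⟩, ?_⟩
    rcases sx2.pw_ne hq uH b1 (mem_union_right _ hS) (kT Q' q1 fun r =>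
      disjoint_left.1 sx2.dQ r (mem_insert_self _ _)) with r | ⟨z, z1, z2, X', R', r1, -, r2⟩
    · exact Or.inl ⟨g', gA, r⟩
    have d : ∀ v ∈ Q', v ∉ insert u (A1 ∪ A4 ∪ S ∪ {B}) := fun v hv => disjoint_left.1 sx2.dQ hv
    have o : ∀ v ∈ X', v ∈ S → v = z := fun v h1 h2 => by
      rcases r2 v h1 with r | r | r
      · exact absurd (r ▸ h2) uS
      · exact absurd (mem_insert_of_mem (mem_union_left _ (mem_union_right _ h2))) (d v r)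
      · exact r
    have r3 := bb_sx_pw h.ps hα.2 hβ.2 hc r1 hu (disjoint_singleton_right.2 fun h1 => by
      rcases r2 B h1 with r | r | r
      · exact uB r.symm
      · exact d B r (mem_insert_of_mem (mem_union_right _ (mem_singleton_self B)))
      · exact disjoint_left.1 hz.dj z1 (r ▸ mem_singleton_self B)) o
    exact Or.inr ⟨z, kS z z1 (r3 r1.right), z2, X', R', r1, o, r3⟩
  · obtain ⟨b, c1, c2⟩ := not_disjoint_iff.1 x3
    rcases mem_insert.1 (hN ▸ c2 : b ∈ ({B1, B} : Finset V)) with rfl | c3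
    · exact absurd (mem_union_right _ hS) (disjoint_left.1 x4 c1)
    · exact absurd c3 (disjoint_left.1 x5 c1)
  exfalso
  have o1 : ∀ v ∈ X1, v ∈ S → v = p := fun v h1 h2 => ea.o1 v h1 (mem_union_right _ h2)
  have o2 : ∀ v ∈ X2, v ∈ S → v = q := fun v h1 h2 => ea.o2 v h1 (mem_union_right _ h2)
  have s1 := bb_sx_pw h.ps hα.2 hβ.2 hc ea.p1 hu ea.l1 o1
  have s2 := bb_sx_pw h.ps hα.2 hβ.2 hc ea.p2 hu ea.l2 o2
  by_cases hpq : p = q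
  · have hp : p ∈ Nb := by_contra fun r => ea.ne hq hz.cw uH r hpq
    subst hpq
    obtain ⟨c1, c2⟩ := ea.cw uH
    exact th0 hq ha hb hp hz.cw c1 ea.m1 (mem_union_left _ ea.p1.right) (fun v h1 h2 => c2 v h2 h1)
      hz.tm mu hz.sh (mem_union_left _ ea.p1.left) hD hz.dj (disjoint_union_left.2 ⟨ea.l1, ea.l2⟩)
  · exact th_ss hq ha h h3 hD Subset.rfl hj hm ⟨ea.p1, ea.p2, kS p ea.m1 (s1 ea.p1.right),
      kS q ea.m2 (s2 ea.p2.right), o1, o2, ea.i12, ea.dF, rc_dj.mono_left s1,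
      rc_dj.mono_left s2⟩ hpq

/-- a path whose first and last edges meet -/
theorem bb_tri_s3 (hp : G.Pw x y S F) (hxy : x ≠ y) (ha : α ∈ F) (hb : β ∈ F) (j1 : G.Je α x v)
    (j2 : G.Je β y v) (hv : v ≠ y) : S = {x, v, y} := by
  obtain ⟨e, w, Y, F', -, je, p, -, hS, hF, -, hu⟩ := hp.head hxy
  have e1 := hu α ha (j1.at_iff.2 (Or.inl rfl))
  subst e1
  have hxv := (hp.je ha j1).2.2
  have e2 : v = w := by
    rcases sx_ends j1 je with k | k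
    · exact k.2
    · exact absurd k.2.symm hxv
  subst e2
  have hne : β ≠ α := by
    rintro rfl
    rcases sx_ends j1 j2 with k | k
    · exact hxy k.1
    · exact hxv k.1
  have hb' : β ∈ F' := (mem_insert.1 (hF ▸ hb)).resolve_left hne
  obtain ⟨e', w', Y', F'', -, je', p', -, hY, -, -, hu'⟩ := p.head hv
  have e3 := hu' β hb' (j2.at_iff.2 (Or.inr rfl))
  subst e3
  have e4 : y = w' := by
    rcases sx_ends j2 je' with k | k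
    · exact absurd k.1.symm hv
    · exact k.1
  subst e4
  rw [hS, hY, p'.eq_of.1]

/-- a set without terminals that is left by two edges and towards one of two boxes -/
theorem bb_tri_two (hq : G.QG U Nb Tm) (hW : W ⊆ U) (hT : Disjoint W Tm) (b1 : B1 ∈ Nb)
    (b2 : B ∈ Nb) (n1 : B1 ∉ W) (n2 : B ∉ insert B1 W) (hv : v ∈ W) (h : G.Clo W {B1} {α, β}) :
    W = {v} := by
  have hT' : Disjoint (insert B1 W) Tm := disjoint_insert_left.2 ⟨disjoint_left.1 hq.dj b1, hT⟩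
  have hU : insert B1 W ⊆ U := insert_subset (hq.nb b1) hW
  have h2 := hq.c4 hU hT' (ob_box b1) (singleton_subset_iff.2 (mem_insert_self _ _))
  have h3 : G.cut W ⊆ {α, β} ∪ (G.cut {B1} ∩ G.cut W) := fun e he => by
    obtain ⟨a1, a2⟩ := mem_cut.1 he
    have a3 := h e a1 _ _ (Or.inl ⟨rfl, rfl⟩)
    have a4 := h e a1 _ _ (Or.inr ⟨rfl, rfl⟩)
    simp only [mem_insert, mem_union, mem_inter, mem_cut, mem_singleton] at a3 a4 ⊢
    grind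
  have h4 : G.cut (insert B1 W) ⊆ {α, β} ∪ (G.cut {B1} \ G.cut W) := fun e he => by
    obtain ⟨a1, a2⟩ := mem_cut.1 he
    have a3 := h e a1 _ _ (Or.inl ⟨rfl, rfl⟩)
    have a4 := h e a1 _ _ (Or.inr ⟨rfl, rfl⟩)
    simp only [mem_insert, mem_union, mem_sdiff, mem_cut, mem_singleton] at a2 a3 a4 ⊢
    grind
  have h5 := (card_le_card h3).trans (card_union_le _ _)
  have h6 := (card_le_card h4).trans (card_union_le _ _)
  have h7 := card_sdiff_add_card_inter (G.cut {B1}) (G.cut W)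
  have h8 : ({α, β} : Finset E).card ≤ 2 := card_le_two
  rw [hq.d4 B1 b1] at h7
  by_cases k : (G.cut W).card ≤ 3
  · obtain ⟨-, w, -, hw⟩ := hq.c3' hW hT ⟨v, hv⟩ k
    rw [hw] at hv ⊢
    rw [mem_singleton.1 hv]
  · exfalso
    rcases hq.s2 _ hU hT' (by omega)
      (not_disjoint_iff.2 ⟨B1, mem_insert_self _ _, b1⟩) with k1 | k1
    · rw [card_insert_of_notMem n1] at k1
      have := card_pos.2 ⟨v, hv⟩
      omega
    · exact n2 (k1 b2)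

/-- no path from `x` through the reached set off `B1` ends at a neighbour of `B` -/
theorem bb_tri_no (hq : G.QG U Nb Tm) (ha : G.Ha Nb Tm) (hd : G.Hdd Nb Tm)
    (h : G.Th Nb Tm s t x y A1 A2 A3 A4 S E1 E2 E3 E4 F)
    (hD : G.Ob Nb {B}) (hj : Disjoint (A1 ∪ A2 ∪ A3 ∪ A4 ∪ S) {B})
    (hα : G.At α x ∧ α ∈ F) (hβ : G.At β y ∧ β ∈ F)
    (hc : G.Clo (G.rc (A1 ∪ A2 ∪ A3 ∪ A4 ∪ {B}) S) {B} {α, β})
    (hN : Nb = {B1, B}) (hS : B1 ∈ S) (z1 : z ∈ A1 ∪ A2)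
    (r1 : G.Pw B z X1 F1 ∧ (∀ v ∈ X1, v ∈ A1 ∪ A2 ∪ A3 ∪ A4 → v = z) ∧
      Disjoint X1 (G.rc (A1 ∪ A2 ∪ A3 ∪ A4 ∪ {B}) S)) :
    ∀ w Y R e, G.Pw x w Y R → (∀ v ∈ Y, v = x ∨ v ∈ G.rc (A1 ∪ A2 ∪ A3 ∪ A4 ∪ {B}) S) →
      B1 ∉ Y → e ∈ G.A → ¬ G.Je e w B := by
  intro w Y R e hp o hB he j
  have hB' : B ∉ S := fun k => disjoint_left.1 hj (mem_union_right _ k) (mem_singleton_self _)
  have hBY : B ∉ Y := fun k => by
    rcases o B k with k | k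
    · exact hB' (k ▸ h.ps.left)
    · exact disjoint_left.1 rc_dj k (mem_union_right _ (mem_singleton_self _))
  have hne : B1 ≠ B := fun k => hB' (k ▸ hS)
  have p := (hp.symm.cons he j.symm hBY).1.symm
  have := a2_thru hq ha hd h hD hj hα hβ hc r1.1 (mem_singleton_self _) z1
    (fun v _ k => mem_singleton.1 k) r1.2.1 r1.2.2 p (mem_singleton_self _)
    (fun v k => by
      rcases mem_insert.1 k with k | k
      · exact Or.inr (Or.inl k)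
      · exact (o v k).imp_right Or.inr)
    (B1 := B1) (by simp [hN]) (by simpa using hne)
  exact (mem_insert.1 this).elim hne hB

/-- the first edge of the third path goes to `B1` -/
theorem bb_tri_x (hq : G.QG U Nb Tm) (hp : G.Pw x y S F) (hxy : x ≠ y) (xM : x ∈ M) (yM : y ∈ M)
    (BM : B ∈ M) (hSM : ∀ v ∈ S, v ∈ M → v = x ∨ v = y) (hT : ∀ v ∈ Tm, v ∈ M ∨ v = u)
    (he : e ∈ G.A) (ju : G.Je e u B) (hα : G.At α x ∧ α ∈ F) (hβ : G.At β y ∧ β ∈ F)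
    (hc : G.Clo (G.rc M S) {B} {α, β}) (b1 : B1 ∈ Nb) (b2 : B ∈ Nb) (hS : B1 ∈ S) (hM : B1 ∉ M)
    (no : ∀ w Y R e, G.Pw x w Y R → (∀ v ∈ Y, v = x ∨ v ∈ G.rc M S) → B1 ∉ Y → e ∈ G.A →
      ¬ G.Je e w B) : G.Je α x B1 := by
  obtain ⟨e', v, Y, F', hA, j1, p, -, hSY, -, -, hu⟩ := hp.head hxy
  have e1 := hu α hα.2 hα.1
  subst e1
  by_contra hn
  have vB : v ≠ B1 := fun k => hn (k ▸ j1)
  have vS : v ∈ S := (hp.je hα.2 j1).2.1
  have xv := (hp.je hα.2 j1).2.2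
  have vy : v ≠ y := by
    rintro rfl
    rw [hSY, p.eq_of.1] at hS
    rcases mem_insert.1 hS with k | k
    · exact hM (k ▸ xM)
    · exact vB (mem_singleton.1 k).symm
  have vM : v ∉ M := fun k => (hSM v vS k).elim xv.symm vy
  have vM' : v ∉ insert B1 M := fun k => (mem_insert.1 k).elim vB vM
  have hv : v ∈ G.rc (insert B1 M) {v} := mem_rc.2 ⟨v, mem_singleton_self _, vM', Rv.refl _ _⟩
  have sub : G.rc (insert B1 M) {v} ⊆ G.rc M S := fun w k => by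
    obtain ⟨z, hz, -, r⟩ := mem_rc.1 k
    rw [mem_singleton.1 hz] at r
    exact mem_rc.2 ⟨v, vS, vM, r.mono (subset_insert _ _)⟩
  have dj : ∀ w ∈ G.rc (insert B1 M) {v}, w ≠ B1 ∧ w ∉ M := fun w k => by
    simpa using disjoint_left.1 rc_dj k
  have noB : ∀ w ∈ G.rc (insert B1 M) {v}, ∀ f ∈ G.A, ¬ G.Je f w B := fun w k f hf => by
    obtain ⟨X, R, q, hX⟩ := rc_pw hv k
    have xX : x ∉ X := fun k => (dj x (hX k)).2 xM
    refine no w _ _ f (q.cons hA j1 xX).1 (fun a ha => ?_) (fun k => ?_) hf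
    · exact (mem_insert.1 ha).imp_right fun k => sub (hX k)
    · rcases mem_insert.1 k with k | k
      · exact hM (k ▸ xM)
      · exact (dj B1 (hX k)).1 rfl
  have cl : G.Clo (G.rc (insert B1 M) {v}) {B1} {α, β} := fun f hf a b j a1 a2 => by
    rcases rc_clo f hf a b j a1 a2 with k | k
    · rcases mem_insert.1 k with k | k
      · exact Or.inl (mem_singleton.2 k)
      · rcases hc f hf a b j (sub a1) (fun k' => disjoint_left.1 rc_dj k' k) with k' | k'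
        · exact absurd (mem_singleton.1 k' ▸ j) (noB a a1 f hf)
        · exact Or.inr k'
    · exact absurd k (notMem_empty _)
  have wU : G.rc (insert B1 M) {v} ⊆ U := hq.rc (singleton_subset_iff.2 (hq.je hA j1).2.1)
  have wT : Disjoint (G.rc (insert B1 M) {v}) Tm := disjoint_left.2 fun w k k' => by
    rcases hT w k' with k1 | k1
    · exact (dj w k).2 k1
    · exact noB w k e he (k1 ▸ ju)
  have n1 : B1 ∉ G.rc (insert B1 M) {v} := fun k => (dj B1 k).1 rfl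
  have n2 : B ∉ insert B1 (G.rc (insert B1 M) {v}) := fun k => by
    rcases mem_insert.1 k with k | k
    · exact hM (k ▸ BM)
    · exact (dj B k).2 BM
  have e2 := bb_tri_two hq wU wT b1 b2 n1 n2 hv cl
  by_cases j2 : G.Je β y v
  · rw [bb_tri_s3 hp hxy hα.2 hβ.2 j1 j2 vy] at hS
    simp only [mem_insert, mem_singleton] at hS
    rcases hS with k | k | k
    · exact hM (k ▸ xM)
    · exact vB k.symm
    · exact hM (k ▸ yM)
  · refine notMem_empty v (hq.nov wU wT b1 n1 (f := α) (fun f hf a b j a1 a2 => ?_) ▸ hv)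
    refine (cl f hf a b j a1 a2).imp_right fun k => ?_
    rcases mem_insert.1 k with k | k
    · exact mem_singleton.2 k
    · rw [e2, mem_singleton] at a1
      rw [mem_singleton.1 k, a1] at j
      rcases j.at_iff.1 hβ.1 with k1 | k1
      · exact absurd k1.symm vy
      · exact absurd (k1 ▸ j.symm) j2

/-- the third terminal does not reach the piece of the third path before `B1` -/
theorem bb_tri_u (p1 : G.Pw x z Y1 R1) (hy : y ∉ Y1) (hY : Y1 ⊆ S)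
    (hSM : ∀ v ∈ S, v ∈ M → v = x ∨ v = y) (he : e ∈ G.A) (ju : G.Je e u B) (hS : B1 ∈ S)
    (hz : z ≠ B1) (p : G.Pw u z X R) (o : ∀ v ∈ X, v ∈ S → v = z) (hX : X ⊆ G.rc M S)
    (no : ∀ w Y R e, G.Pw x w Y R → (∀ v ∈ Y, v = x ∨ v ∈ G.rc M S) → B1 ∉ Y → e ∈ G.A →
      ¬ G.Je e w B) : B1 ∈ Y1 := by
  by_contra hn
  refine no u _ _ e (p1.cat p.symm fun v k k' => o v k' (hY k)).1 (fun v k => ?_) (fun k => ?_) he ju
  · rcases mem_union.1 k with k | k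
    · by_cases k1 : v ∈ M
      · exact Or.inl ((hSM v (hY k) k1).resolve_right fun k2 => hy (k2 ▸ k))
      · exact Or.inr (mem_rc.2 ⟨v, hY k, k1, Rv.refl _ _⟩)
    · exact Or.inr (hX k)
  · rcases mem_union.1 k with k | k
    · exact hn k
    · exact hz (o B1 k hS).symm

/-- the fourth edge of `B1` goes to `B` -/
theorem bb_tri_c (hq : G.QG U Nb Tm) (hxy : x ≠ y) (xM : x ∈ M) (yM : y ∈ M) (BM : B ∈ M)
    (hZ : Disjoint Z M) (zU : Z ⊆ U) (hT : ∀ v ∈ Tm, v ∈ M ∨ v = u) (hu : u ∈ Tm) (uM : u ∉ M)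
    (he : e ∈ G.A) (hg : g ∈ G.A) (hα : α ∈ G.A) (hβ : β ∈ G.A) (j1 : G.Je α x B1)
    (j2 : G.Je β y B1) (j3 : G.Je e u B) (j4 : G.Je g u B1) (hc : G.Clo Z {B} {α, β})
    (b1 : B1 ∈ Nb) (b2 : B ∈ Nb) (hB : B1 ∈ Z) : ∃ c ∈ G.A, G.Je c B B1 := by
  have hM : B1 ∉ M := disjoint_left.1 hZ hB
  have hne : B1 ≠ B := fun k => hM (k ▸ BM)
  have uB : u ≠ B1 := (hq.je hg j4).2.2
  have ne : ∀ {e f : E} {a b c : V}, G.Je e a c → G.Je f b c → a ≠ b → a ≠ c → e ≠ f := by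
    rintro e f a b c k1 k2 k3 k4 rfl
    rcases sx_ends k1 k2 with k | k
    · exact k3 k.1
    · exact k4 k.1
  have xB : x ≠ B1 := fun k => hM (k ▸ xM)
  have yB : y ≠ B1 := fun k => hM (k ▸ yM)
  have n1 : α ≠ β := ne j1 j2 hxy xB
  have n2 : α ≠ g := ne j1 j4 (fun k => uM (k ▸ xM)) xB
  have n3 : β ≠ g := ne j2 j4 (fun k => uM (k ▸ yM)) yB
  have n4 : e ≠ g := ne j3.symm j4.symm hne.symm fun k => uM (k ▸ BM)
  have s1 : ({α, β, g} : Finset E) ⊆ G.cut {B1} := by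
    intro f k
    simp only [mem_insert, mem_singleton] at k
    rcases k with rfl | rfl | rfl
    · exact hq.cut1.2 ⟨hα, _, j1.symm⟩
    · exact hq.cut1.2 ⟨hβ, _, j2.symm⟩
    · exact hq.cut1.2 ⟨hg, _, j4.symm⟩
  have c3 : ({α, β, g} : Finset E).card = 3 := card_eq_three.2 ⟨α, β, g, n1, n2, n3, rfl⟩
  have c1 : (G.cut {B1} \ {α, β, g}).card = 1 := by
    rw [card_sdiff_of_subset s1, hq.d4 B1 b1, c3]
  obtain ⟨c, hc1⟩ := card_eq_one.1 c1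
  have m1 := mem_sdiff.1 (hc1 ▸ mem_singleton_self c : c ∈ G.cut {B1} \ {α, β, g})
  obtain ⟨cA, w, jc⟩ := hq.cut1.1 m1.1
  have m2 := m1.2
  simp only [mem_insert, mem_singleton, not_or] at m2
  have cu : G.cut {u} = {e, g} := by
    refine (eq_of_subset_of_card_le (fun f k => ?_) ?_).symm
    · rcases mem_insert.1 k with rfl | k
      · exact hq.cut1.2 ⟨he, _, j3⟩
      · exact mem_singleton.1 k ▸ hq.cut1.2 ⟨hg, _, j4⟩
    · rw [hq.d2 u hu, card_pair n4]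
  have atu : ∀ f ∈ G.A, ∀ a, G.Je f a u → a = B ∨ a = B1 := fun f hf a j => by
    have k : f ∈ ({e, g} : Finset E) := cu ▸ hq.cut1.2 ⟨hf, a, j.symm⟩
    have au := (hq.je hf j).2.2
    rcases mem_insert.1 k with k | k
    · exact Or.inl (((j3.at_iff.1 (k ▸ j.at_iff.2 (Or.inl rfl))).resolve_left au))
    · exact Or.inr (((j4.at_iff.1
        (mem_singleton.1 k ▸ j.at_iff.2 (Or.inl rfl))).resolve_left au))
  by_contra hn
  have wB : w ≠ B := fun k => hn ⟨c, cA, k ▸ jc.symm⟩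
  have wZ : w ∈ Z := by
    by_contra k
    rcases hc c cA _ _ jc hB k with k | k
    · exact wB (mem_singleton.1 k)
    · rcases mem_insert.1 k with k | k
      · exact m2.1 k
      · exact m2.2.1 (mem_singleton.1 k)
  have wu : w ≠ u := by
    rintro rfl
    have k : c ∈ ({e, g} : Finset E) := cu ▸ hq.cut1.2 ⟨cA, _, jc.symm⟩
    rcases mem_insert.1 k with k | k
    · exact ne jc j3.symm hne uB.symm k
    · exact m2.2.2 (mem_singleton.1 k)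
  have w1 : w ∈ (Z.erase B1).erase u :=
    mem_erase.2 ⟨wu, mem_erase.2 ⟨(hq.je cA jc).2.2.symm, wZ⟩⟩
  refine notMem_empty w (hq.nov (X := (Z.erase B1).erase u)
    (((erase_subset _ _).trans (erase_subset _ _)).trans zU) (disjoint_left.2 fun a k k' => ?_) b2
    (fun k => disjoint_left.1 hZ (mem_of_mem_erase (mem_of_mem_erase k)) BM) (f := c)
    (fun f hf a b j a1 a2 => ?_) ▸ w1)
  · obtain ⟨k1, k2⟩ := mem_erase.1 k
    exact (hT a k').elim (disjoint_left.1 hZ (mem_of_mem_erase k2)) k1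
  · obtain ⟨k1, k2⟩ := mem_erase.1 a1
    obtain ⟨k2, k3⟩ := mem_erase.1 k2
    have aM := disjoint_left.1 hZ k3
    have q1 : f ≠ α := by
      rintro rfl
      rcases j1.at_iff.1 (j.at_iff.2 (Or.inl rfl)) with k | k
      · exact aM (k ▸ xM)
      · exact k2 k
    have q2 : f ≠ β := by
      rintro rfl
      rcases j2.at_iff.1 (j.at_iff.2 (Or.inl rfl)) with k | k
      · exact aM (k ▸ yM)
      · exact k2 k
    have q3 : f ≠ g := by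
      rintro rfl
      rcases j4.at_iff.1 (j.at_iff.2 (Or.inl rfl)) with k | k
      · exact k1 k
      · exact k2 k
    by_cases c1 : b = u
    · rcases atu f hf a (c1 ▸ j) with k | k
      · exact absurd (k ▸ BM) aM
      · exact absurd k k2
    by_cases c2 : b = B1
    · refine Or.inr (hc1 ▸ mem_sdiff.2 ⟨hq.cut1.2 ⟨hf, a, c2 ▸ j.symm⟩, ?_⟩)
      simp [q1, q2, q3]
    refine (hc f hf a b j k3 fun k => a2 (mem_erase.2 ⟨c1, mem_erase.2 ⟨c2, k⟩⟩)).imp_right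
      fun k => ?_
    simp [q1, q2] at k

/-- `B` reaches both arcs: the triangle.  HINT: `a2_thru` for `x` and (by `Th.fl`) for `y` shows that
`u` is adjacent to `B1`.  If the end `v` of `α` is not `B1` consider `G.rc (insert B1 (R ∪ {B})) {v}`:
no edge to `B`, no terminal; `QG.nov`, or two edges to `B1` and `s2`.  The reached set without
`B1, u` is empty by `QG.nov`. -/
theorem bb_tri (hq : G.QG U Nb Tm) (ha : G.Ha Nb Tm) (hb : G.Hb Nb Tm) (hd : G.Hdd Nb Tm)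
    (h : G.Th Nb Tm s t x y A1 A2 A3 A4 S E1 E2 E3 E4 F) (h3 : T3n Tm s t u)
    (hD : G.Ob Nb {B}) (hj : Disjoint (A1 ∪ A2 ∪ A3 ∪ A4 ∪ S) {B})
    (hα : G.At α x ∧ α ∈ F) (hβ : G.At β y ∧ β ∈ F)
    (hc : G.Clo (G.rc (A1 ∪ A2 ∪ A3 ∪ A4 ∪ {B}) S) {B} {α, β})
    (hN : Nb = {B1, B}) (hS : B1 ∈ S)
    (hm : G.Tmin Nb Tm {B} F.card) (z1 : z ∈ A1 ∪ A2) (z2 : z' ∈ A3 ∪ A4)
    (r1 : G.Pw B z X1 F1 ∧ (∀ v ∈ X1, v ∈ A1 ∪ A2 ∪ A3 ∪ A4 → v = z) ∧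
      Disjoint X1 (G.rc (A1 ∪ A2 ∪ A3 ∪ A4 ∪ {B}) S))
    (r2 : G.Pw B z' X2 F2 ∧ (∀ v ∈ X2, v ∈ A1 ∪ A2 ∪ A3 ∪ A4 → v = z') ∧
      Disjoint X2 (G.rc (A1 ∪ A2 ∪ A3 ∪ A4 ∪ {B}) S)) :
    G.Je α x B1 ∧ G.Je β y B1 ∧ S = {x, B1, y} ∧ ∃ b ∈ G.A, ∃ g ∈ G.A, ∃ c ∈ G.A,
      G.Je b u B ∧ G.Je g u B1 ∧ G.Je c B B1 := by
  have hu := bb_in hq ha hb hd h h3 hD hj hα hβ hc hN hS
  obtain ⟨⟨b, bA, jb⟩, alt⟩ := bb_sx hq ha hb hd h h3 hD hj hα hβ hc hN hS hm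
  have e4 : A4 ∪ A3 ∪ A2 ∪ A1 = A1 ∪ A2 ∪ A3 ∪ A4 := by ac_rfl
  have no1 := bb_tri_no hq ha hd h hD hj hα hβ hc hN hS z1 r1
  have no2 := bb_tri_no hq ha hd h.fl hD (e4 ▸ hj) hβ hα (by rw [e4, pair_comm β α]; exact hc) hN hS
    (union_comm A3 A4 ▸ z2) (e4 ▸ r2)
  rw [e4] at no2
  have b1 : B1 ∈ Nb := by simp [hN]
  have b2 : B ∈ Nb := by simp [hN]
  have hB : B ∉ S := fun k => disjoint_left.1 hj (mem_union_right _ k) (mem_singleton_self _)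
  have xM : x ∈ A1 ∪ A2 ∪ A3 ∪ A4 ∪ {B} := by simp [h.p1.right]
  have yM : y ∈ A1 ∪ A2 ∪ A3 ∪ A4 ∪ {B} := by simp [h.p4.right]
  have BM : B ∈ A1 ∪ A2 ∪ A3 ∪ A4 ∪ {B} := mem_union_right _ (mem_singleton_self _)
  have hSM : ∀ v ∈ S, v ∈ A1 ∪ A2 ∪ A3 ∪ A4 ∪ {B} → v = x ∨ v = y := fun v k k' => by
    simp only [mem_union, mem_singleton] at k'
    rcases k' with (((k' | k') | k') | k') | k'
    · exact Or.inl (h.j1 v k' k)
    · exact Or.inl (h.j2 v k' k)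
    · exact Or.inr (h.j3 v k' k)
    · exact Or.inr (h.j4 v k' k)
    · exact absurd (k' ▸ k) hB
  have hSM' : ∀ v ∈ S, v ∈ A1 ∪ A2 ∪ A3 ∪ A4 ∪ {B} → v = y ∨ v = x := fun v k k' =>
    (hSM v k k').symm
  have hT : ∀ v ∈ Tm, v ∈ A1 ∪ A2 ∪ A3 ∪ A4 ∪ {B} ∨ v = u := fun v k => by
    rcases h3.mem.2.2.2 v k with k | k | k
    · exact Or.inl (by simp [k, h.p1.left])
    · exact Or.inl (by simp [k, h.p2.left])
    · exact Or.inr k
  have hM : B1 ∉ A1 ∪ A2 ∪ A3 ∪ A4 ∪ {B} := fun k => by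
    rcases mem_union.1 k with k | k
    · exact disjoint_left.1 h.nb k b1
    · exact hB (mem_singleton.1 k ▸ hS)
  have j1 := bb_tri_x hq h.ps h.xy xM yM BM hSM hT bA jb hα hβ hc b1 b2 hS hM no1
  have j2 := bb_tri_x hq h.ps.symm h.xy.symm yM xM BM hSM' hT bA jb hβ hα
    (pair_comm α β ▸ hc) b1 b2 hS hM no2
  obtain ⟨g, gA, jg⟩ : ∃ g ∈ G.A, G.Je g u B1 := by
    refine alt.resolve_right ?_
    rintro ⟨z0, zS, zB, X, R, p, o, hX⟩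
    obtain ⟨Y1, R1, Y2, R2, p1, p2, eS, -, i12, -⟩ := h.ps.split zS
    have zM := disjoint_left.1 rc_dj (hX p.right)
    have m1 := bb_tri_u p1 (fun k => zM (i12 y k p2.right ▸ yM)) (eS ▸ subset_union_left) hSM bA jb
      hS zB p o hX no1
    have m2 := bb_tri_u p2.symm (fun k => zM (i12 x p1.left k ▸ xM)) (eS ▸ subset_union_right) hSM'
      bA jb hS zB p o hX no2
    exact zB (i12 B1 m1 m2).symm
  obtain ⟨c, cA, jc⟩ := bb_tri_c hq h.xy xM yM BM rc_dj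
    (hq.rc (hq.pw h.ps (hq.je (h.ps.sub hα.2) j1).1)) hT h3.mem.2.2.1 (disjoint_left.1 rc_dj hu)
    bA gA (h.ps.sub hα.2) (h.ps.sub hβ.2) j1 j2 jb jg hc b1 b2 (mem_rc.2 ⟨B1, hS, hM, Rv.refl _ _⟩)
  exact ⟨j1, j2, bb_tri_s3 h.ps h.xy hα.2 hβ.2 j1 j2 (fun k => hM (k ▸ yM)), b, bA, g, gA, c, cA,
    jb, jg, jc⟩

theorem bb_z4_cut4 {k l : E} (hq : G.QG U Nb Tm) (hB : B ∈ Nb) (h1 : e ∈ G.cut {B})
    (h2 : f ∈ G.cut {B}) (h3 : k ∈ G.cut {B}) (h4 : l ∈ G.cut {B}) (n1 : e ≠ f) (n2 : e ≠ k)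
    (n3 : e ≠ l) (n4 : f ≠ k) (n5 : f ≠ l) (n6 : k ≠ l) : G.Q4 {B} e f k l := by
  refine ⟨(eq_of_subset_of_card_le ?_ ?_).symm, n1, n2, n3, n4, n5, n6⟩
  · intro m hm
    simp only [mem_insert, mem_singleton] at hm
    rcases hm with rfl | rfl | rfl | rfl <;> assumption
  · rw [hq.d4 B hB, card_insert_of_notMem (by simp [n1, n2, n3]),
      card_insert_of_notMem (by simp [n4, n5]), card_pair n6]

theorem bb_z4_mo (p1 : G.Pw B w X1 F1) (p2 : G.Pw B w X2 F2) (hne : B ≠ w)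
    (hi : ∀ v ∈ X2, v ∈ X1 → v = B ∨ v = w) (hv : v ∈ X2) (v1 : v ≠ B) (v2 : v ≠ w)
    (he : e ∈ F1) (hf : f ∈ F2) (hs : s ∈ Tm) (ht : t ∈ Tm) (hst : s ≠ t) (s2 : s ∈ X2)
    (t2 : t ∈ X2) : G.Mo Tm e f := by
  have hd := p2.dj2 p1 hi hv v1 v2
  exact ⟨_, _, (cw_of_two p2 p1 hne hi hd).1,
    ⟨s, hs, t, ht, hst, mem_union_left _ s2, mem_union_left _ t2⟩, mem_union_right _ he,
    mem_union_left _ hf⟩

/-- the two rings through the edge `e` of `B` that leads to `A1` -/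
theorem bb_z4_half {b0 c0 : E} (h : G.Th Nb Tm s t x y A1 A2 A3 A4 S E1 E2 E3 E4 F)
    (h3 : T3n Tm s t u) (nB : B ∉ A1 ∪ A2 ∪ A3 ∪ A4) (n1 : B1 ∉ A1 ∪ A2 ∪ A3 ∪ A4)
    (nu : u ∉ A1 ∪ A2 ∪ A3 ∪ A4) (d1 : B ≠ B1) (d2 : B ≠ u) (d3 : u ≠ B1)
    (hα : α ∈ G.A) (hβ : β ∈ G.A) (j1 : G.Je α x B1) (j2 : G.Je β y B1) (hb0 : b0 ∈ G.A)
    (hg : g ∈ G.A) (hc0 : c0 ∈ G.A) (j3 : G.Je b0 u B) (j4 : G.Je g u B1) (j5 : G.Je c0 B B1)
    (hp : G.Pw B w X R) (h1 : w ∈ A1) (x1 : w ≠ x)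
    (hi : ∀ v ∈ X, v ∈ A1 ∪ A2 ∪ A3 ∪ A4 → v = w) (hu : u ∉ X) (hB1 : B1 ∉ X) (he : e ∈ R) :
    G.Mo Tm e b0 ∧ G.Mo Tm e c0 := by
  obtain ⟨Y1, R1, Y2, R2, q1, q2, eA, -, i1, -⟩ := h.p1.split h1
  have s1 : ∀ v ∈ Y1, v ∈ A1 := fun v hv => eA ▸ mem_union_left _ hv
  have xY : x ∉ Y1 := fun hx => x1 (i1 x hx q2.right).symm
  have wR : w ∈ A1 ∪ A2 ∪ A3 ∪ A4 := by simp [h1]
  have hBw : B ≠ w := fun hh => nB (hh ▸ wR)
  have r1 := (h.p4.symm.cat q1 fun v hv hv' => h.i14 v (s1 v hv') hv).1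
  have sub1 : ∀ v ∈ A4 ∪ Y1, v ∈ A1 ∪ A2 ∪ A3 ∪ A4 := by
    intro v hv
    rcases mem_union.1 hv with hv | hv
    · simp [hv]
    · simp [s1 v hv]
  constructor
  · have r2 := (r1.cons hβ j2.symm fun hh => n1 (sub1 _ hh)).1
    have r3 := (r2.cons hg j4 (by
      rw [mem_insert, not_or]
      exact ⟨d3, fun hh => nu (sub1 _ hh)⟩)).1
    have r4 := (r3.cons hb0 j3.symm (by
      rw [mem_insert, mem_insert, not_or, not_or]
      exact ⟨d2, d1, fun hh => nB (sub1 _ hh)⟩)).1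
    refine bb_z4_mo (v := u) hp r4 hBw ?_ (by simp) d2.symm (fun hh => nu (hh ▸ wR)) he (by simp)
      h.hs h3.mem.2.2.1 h3.2.2.1 (by simp [h.p4.left]) (by simp)
    intro v hv hv'
    rw [mem_insert, mem_insert, mem_insert] at hv
    rcases hv with hv | rfl | rfl | hv
    · exact Or.inl hv
    · exact absurd hv' hu
    · exact absurd hv' hB1
    · exact Or.inr (hi v hv' (sub1 v hv))
  · have r2 := (h.p2.symm.cat h.p3 h.i23).1
    have r3 := (r2.cat r1 (by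
      intro v hv hv'
      rcases mem_union.1 hv with hv | hv <;> rcases mem_union.1 hv' with hv' | hv'
      · exact absurd hv' (disjoint_left.1 h.i24 hv)
      · exact absurd (h.i12 v (s1 v hv') hv ▸ hv') xY
      · exact h.i34 v hv hv'
      · exact absurd hv (disjoint_left.1 h.i13 (s1 v hv')))).1
    have sub2 : ∀ v ∈ A2 ∪ A3 ∪ (A4 ∪ Y1), v ∈ A1 ∪ A2 ∪ A3 ∪ A4 := by
      intro v hv
      rcases mem_union.1 hv with hv | hv
      · rcases mem_union.1 hv with hv | hv <;> simp [hv]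
      · exact sub1 v hv
    have r4 := (r3.cons hα j1.symm fun hh => n1 (sub2 _ hh)).1
    have r5 := (r4.cons hc0 j5 (by
      rw [mem_insert, not_or]
      exact ⟨d1, fun hh => nB (sub2 _ hh)⟩)).1
    refine bb_z4_mo (v := B1) hp r5 hBw ?_ (by simp) d1.symm (fun hh => n1 (hh ▸ wR)) he (by simp)
      h.hs h.ht h.st (by simp [h.p4.left]) (by simp [h.p2.left])
    intro v hv hv'
    rw [mem_insert, mem_insert] at hv
    rcases hv with hv | rfl | hv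
    · exact Or.inl hv
    · exact absurd hv' hB1
    · exact Or.inr (hi v hv' (sub2 v hv))

/-- HINT: split the ear at `B`; `a, d` are its edges at `B`.  Five rings: the first ring of
`Th.crs13`; `B, u, B1, y, s, w`; `B, B1, x, t, y, s, w`; `B, u, B1, x, t, w'`; `B, B1, y, s, x, t, w'`. -/
theorem bb_z4 {b0 c0 : E} (hq : G.QG U Nb Tm) (ha : G.Ha Nb Tm) (hb : G.Hb Nb Tm) (hd : G.Hdd Nb Tm)
    (h : G.Th Nb Tm s t x y A1 A2 A3 A4 S E1 E2 E3 E4 F) (h3 : T3n Tm s t u)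
    (hD : G.Ob Nb {B}) (hj : Disjoint (A1 ∪ A2 ∪ A3 ∪ A4 ∪ S) {B})
    (hα : G.At α x ∧ α ∈ F) (hβ : G.At β y ∧ β ∈ F)
    (hc : G.Clo (G.rc (A1 ∪ A2 ∪ A3 ∪ A4 ∪ {B}) S) {B} {α, β})
    (hN : Nb = {B1, B}) (hS : B1 ∈ S)
    (j1 : G.Je α x B1) (j2 : G.Je β y B1) (hS' : S = {x, B1, y}) (hb0 : b0 ∈ G.A) (hg : g ∈ G.A)
    (hc0 : c0 ∈ G.A) (j3 : G.Je b0 u B) (j4 : G.Je g u B1) (j5 : G.Je c0 B B1)
    (hp : G.Pw w w' X R) (h1 : w ∈ A1) (h2 : w' ∈ A3) (x1 : w ≠ x) (x2 : w' ≠ y) (hB : B ∈ X)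
    (hi : ∀ v ∈ X, v ∈ A1 ∪ A2 ∪ A3 ∪ A4 → v = w ∨ v = w') (hu : u ∉ X) (hB1 : B1 ∉ X) :
    G.Z4 Nb Tm := by
  have hB' : B ∈ Nb := by simp [hN]
  have hB1' : B1 ∈ Nb := by simp [hN]
  have nB0 : B ∉ A1 ∪ A2 ∪ A3 ∪ A4 ∪ S := fun hh => disjoint_left.1 hj hh (mem_singleton_self _)
  have nB : B ∉ A1 ∪ A2 ∪ A3 ∪ A4 := fun hh => nB0 (mem_union_left _ hh)
  have n1 : B1 ∉ A1 ∪ A2 ∪ A3 ∪ A4 := fun hh => disjoint_left.1 h.nb hh hB1'
  have nu0 := (h.third ha h3 hD hj).1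
  have nu : u ∉ A1 ∪ A2 ∪ A3 ∪ A4 := fun hh => nu0 (mem_union_left _ hh)
  have uT : u ∈ Tm := h3.mem.2.2.1
  have d1 : B ≠ B1 := fun hh => nB0 (mem_union_right _ (hh ▸ hS))
  have d2 : B ≠ u := fun hh => disjoint_left.1 hq.dj hB' (hh ▸ uT)
  have d3 : u ≠ B1 := fun hh => disjoint_left.1 hq.dj hB1' (hh ▸ uT)
  have aA : α ∈ G.A := h.ps.sub hα.2
  have bA : β ∈ G.A := h.ps.sub hβ.2
  have ww : w ≠ w' := fun hh => disjoint_left.1 h.i13 h1 (hh ▸ h2)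
  have wR : w ∈ A1 ∪ A2 ∪ A3 ∪ A4 := by simp [h1]
  have wR' : w' ∈ A1 ∪ A2 ∪ A3 ∪ A4 := by simp [h2]
  have bw : B ≠ w := fun hh => nB (hh ▸ wR)
  have bw' : B ≠ w' := fun hh => nB (hh ▸ wR')
  obtain ⟨X1, F1, X2, F2, q1, q2, eX, eR, i1, -⟩ := hp.split hB
  have s1 : ∀ v ∈ X1, v ∈ X := fun v hv => eX ▸ mem_union_left _ hv
  have s2 : ∀ v ∈ X2, v ∈ X := fun v hv => eX ▸ mem_union_right _ hv
  have o1 : ∀ v ∈ X1, v ∈ A1 ∪ A2 ∪ A3 ∪ A4 → v = w := by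
    intro v hv hv'
    rcases hi v (s1 v hv) hv' with hh | rfl
    · exact hh
    · exact absurd (i1 v hv q2.right).symm bw'
  have o2 : ∀ v ∈ X2, v ∈ A3 ∪ A4 ∪ A1 ∪ A2 → v = w' := by
    intro v hv hv'
    rcases hi v (s2 v hv) (by simp only [mem_union] at hv' ⊢; (clear * - hv' hα hβ; tauto)) with rfl | hh
    · exact absurd (i1 v q1.left hv).symm bw
    · exact hh
  obtain ⟨a, a1, Y1, R1, aA', ja, -, -, -, eF1, -⟩ := q1.symm.head bw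
  obtain ⟨d, d0, Y2, R2, dA', jd, -, -, -, eF2, -⟩ := q2.head bw'
  have aF : a ∈ F1 := eF1 ▸ mem_insert_self _ _
  have dF : d ∈ F2 := eF2 ▸ mem_insert_self _ _
  have perm : ∀ v, v ∉ A1 ∪ A2 ∪ A3 ∪ A4 → v ∉ A3 ∪ A4 ∪ A1 ∪ A2 := by
    intro v hv
    simp only [mem_union] at hv ⊢
    (clear * - hv hα hβ; tauto)
  obtain ⟨m1, m2⟩ := bb_z4_half h h3 nB n1 nu d1 d2 d3 aA bA j1 j2 hb0 hg hc0 j3 j4 j5 q1.symm h1 x1
    o1 (fun hh => hu (s1 _ hh)) (fun hh => hB1 (s1 _ hh)) aF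
  obtain ⟨m3, m4⟩ := bb_z4_half h.sw.fl h3.sw1 (perm _ nB) (perm _ n1) (perm _ nu) d1 d2 d3 bA aA
    j2 j1 hb0 hg hc0 j3 j4 j5 q2 h2 x2 o2 (fun hh => hu (s2 _ hh)) (fun hh => hB1 (s2 _ hh)) dF
  have m0 : G.Mo Tm a d := by
    obtain ⟨Z1, G1, Z2, G2, Z3, G3, Z4, G4, c1, -, c3, -, -, -, -, -, -, -, hh⟩ :=
      h.crs13 h1 h2 x1 x2
    obtain ⟨⟨F', cw, sR, -⟩, -⟩ := hh X R hp (by
      intro v hv hv'
      rcases mem_union.1 hv' with hv' | hv'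
      · exact hi v hv hv'
      · rw [hS', mem_insert, mem_insert, mem_singleton] at hv'
        rcases hv' with rfl | rfl | rfl
        · exact hi v hv (by simp [h.p1.right])
        · exact absurd hv hB1
        · exact hi v hv (by simp [h.p3.right]))
    exact ⟨_, _, cw, ⟨s, h.hs, t, h.ht, h.st, by simp [c1.left], by simp [c3.left]⟩,
      sR (eR ▸ mem_union_left _ aF), sR (eR ▸ mem_union_right _ dF)⟩
  have bc : b0 ≠ c0 := by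
    rintro rfl
    rcases sx_ends j3 j5 with hh | hh
    · exact d2 hh.1.symm
    · exact d3 hh.1
  have Q := bb_z4_cut4 hq hB' (hq.cut1.2 ⟨aA', _, ja⟩) (hq.cut1.2 ⟨dA', _, jd⟩)
    (hq.cut1.2 ⟨hb0, _, j3.symm⟩) (hq.cut1.2 ⟨hc0, _, j5⟩)
    (fun hh => disjoint_left.1 (q1.dj1 q2 i1) aF (hh ▸ dF))
    (fun hh => hu (s1 _ (q1.je (hh ▸ aF) j3).1)) (fun hh => hB1 (s1 _ (q1.je (hh ▸ aF) j5).2.1))
    (fun hh => hu (s2 _ (q2.je (hh ▸ dF) j3).1)) (fun hh => hB1 (s2 _ (q2.je (hh ▸ dF) j5).2.1)) bc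
  have tz := a2_tz h hD hj
  have nBH : B ∉ A1 ∪ A4 ∪ S := fun hh => disjoint_left.1 tz.dj hh (mem_singleton_self _)
  have xR : x ∈ A1 ∪ A2 ∪ A3 ∪ A4 := by simp [h.p1.right]
  have yR : y ∈ A1 ∪ A2 ∪ A3 ∪ A4 := by simp [h.p4.right]
  have e1 : α ≠ β := by
    rintro rfl
    rcases sx_ends j1 j2 with hh | hh
    · exact h.xy hh.1
    · exact n1 (hh.1 ▸ xR)
  have e2 : ∀ {k : E} {z : V}, G.Je k z B1 → z ∈ A1 ∪ A2 ∪ A3 ∪ A4 → k ≠ g ∧ k ≠ c0 := by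
    intro k z jk hz
    constructor
    · rintro rfl
      rcases sx_ends jk j4 with hh | hh
      · exact nu (hh.1 ▸ hz)
      · exact n1 (hh.1 ▸ hz)
    · rintro rfl
      rcases sx_ends jk j5 with hh | hh
      · exact nB (hh.1 ▸ hz)
      · exact n1 (hh.1 ▸ hz)
  have gc : g ≠ c0 := by
    rintro rfl
    rcases sx_ends j4 j5 with hh | hh
    · exact d2 hh.1.symm
    · exact d3 hh.1
  have Q1 := bb_z4_cut4 hq hB1' (hq.cut1.2 ⟨aA, _, j1.symm⟩) (hq.cut1.2 ⟨bA, _, j2.symm⟩)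
    (hq.cut1.2 ⟨hg, _, j4.symm⟩) (hq.cut1.2 ⟨hc0, _, j5.symm⟩) e1 (e2 j1 xR).1 (e2 j1 xR).2
    (e2 j2 yR).1 (e2 j2 yR).2 gc
  have bg : b0 ≠ g := by
    rintro rfl
    rcases sx_ends j3 j4 with hh | hh
    · exact d1 hh.2
    · exact d3 hh.1
  have cu : G.cut {u} = {b0, g} := by
    refine (eq_of_subset_of_card_le ?_ ?_).symm
    · intro m hm
      simp only [mem_insert, mem_singleton] at hm
      rcases hm with rfl | rfl
      · exact hq.cut1.2 ⟨hb0, _, j3⟩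
      · exact hq.cut1.2 ⟨hg, _, j4⟩
    · rw [hq.d2 u uT, card_pair bg]
  have mB : B ∈ (insert B (A1 ∪ A4 ∪ S)).erase B1 := mem_erase.2 ⟨d1, mem_insert_self _ _⟩
  have mR : ∀ z ∈ A1 ∪ A4, z ∈ (insert B (A1 ∪ A4 ∪ S)).erase B1 := by
    intro z hz
    refine mem_erase.2 ⟨?_, mem_insert_of_mem (mem_union_left _ hz)⟩
    rintro rfl
    exact n1 (by simp only [mem_union] at hz ⊢; (clear * - hz hα hβ; tauto))
  refine ⟨B, B1, a, d, b0, c0, _, _, hN, Q, tz.cw, nBH, mem_union_right _ hS,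
    (tz_of hd tz).mono (by rw [union_comm, ← insert_eq]), ?_, m0, m1, m2, m3, m4⟩
  refine goo_of (Z := {u, B1}) h3 (mR s (mem_union_left _ h.p1.left)) (by simp) ?_ ?_
  · rw [mem_insert, mem_singleton, not_or]
    exact ⟨h3.2.2.2, fun hh => disjoint_left.1 hq.dj hB1' (hh ▸ h.ht)⟩
  · intro k hk p q jk hp' hq'
    rw [mem_insert, mem_singleton, not_or] at hq'
    rw [mem_insert, mem_singleton] at hp'
    right
    rcases hp' with rfl | rfl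
    · have := hq.cut1.2 ⟨hk, _, jk⟩
      rw [cu, mem_insert, mem_singleton] at this
      rcases this with rfl | rfl
      · rcases sx_ends jk j3 with hh | hh
        · exact hh.2 ▸ mB
        · exact absurd hh.2 hq'.1
      · rcases sx_ends jk j4 with hh | hh
        · exact absurd hh.2 hq'.2
        · exact absurd hh.2 hq'.1
    · have := hq.cut1.2 ⟨hk, _, jk⟩
      rw [Q1.1, mem_insert, mem_insert, mem_insert, mem_singleton] at this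
      rcases this with rfl | rfl | rfl | rfl
      · rcases sx_ends jk j1 with hh | hh
        · exact absurd hh.2 hq'.2
        · exact hh.2 ▸ mR x (mem_union_left _ h.p1.right)
      · rcases sx_ends jk j2 with hh | hh
        · exact absurd hh.2 hq'.2
        · exact hh.2 ▸ mR y (mem_union_right _ h.p4.right)
      · rcases sx_ends jk j4 with hh | hh
        · exact absurd hh.2 hq'.2
        · exact absurd hh.2 hq'.1
      · rcases sx_ends jk j5 with hh | hh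
        · exact absurd hh.2 hq'.2
        · exact hh.2 ▸ mB

theorem bb_both_arc (ha : G.Ha Nb Tm) (h : G.Th Nb Tm s t x y A1 A2 A3 A4 S E1 E2 E3 E4 F)
    (hab : a ≠ b) (h1 : a ∈ A1 ∪ A2) (h2 : b ∈ A1 ∪ A2) (hp : G.Pw a b X R)
    (hi : ∀ w ∈ X, w ∈ A1 ∪ A2 ∪ A3 ∪ A4 → w = a ∨ w = b) (b1 : B1 ∈ Nb) (b2 : B ∈ Nb) (hB : B ∈ X)
    (hB1 : B1 ∉ X) : False := by
  obtain ⟨Z, F2, -, -, k⟩ := h.arc hab h1 h2
  have n : ∀ v ∈ A1 ∪ A2, v ∉ Nb := fun v hv =>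
    disjoint_left.1 h.nb (mem_union_left _ (mem_union_left _ hv))
  obtain ⟨Y, F', c1, c2, c3, c4, c5, -⟩ := k X R hp hi
    ⟨B, hB, fun e => n a h1 (e ▸ b2), fun e => n b h2 (e ▸ b2)⟩
  exact ha Y ⟨F', c1, Or.inr fun e => disjoint_left.1 e (c4 hB) b2⟩ s h.hs t h.ht h.st c2 c3 {B1}
    (ob_box b1) (disjoint_singleton_right.2 fun e =>
      (mem_union.1 (c5 e)).elim (disjoint_right.1 h.nb b1) hB1)

theorem bb_both_cut {b0 c0 : E} (hq : G.QG U Nb Tm) (b1 : B1 ∈ Nb) (hu : u ∈ Tm) (hD : G.Ob Nb {B})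
    (hX : X ⊆ U) (hB : {B} ⊆ X) (hT : Disjoint X Tm) (hc : G.Clo X {B1, u} {f}) (hα : α ∈ G.A)
    (hβ : β ∈ G.A) (hb0 : b0 ∈ G.A) (hg : g ∈ G.A) (hc0 : c0 ∈ G.A) (j1 : G.Je α x B1)
    (j2 : G.Je β y B1) (j3 : G.Je b0 u B) (j4 : G.Je g u B1) (j5 : G.Je c0 B B1) (xy : x ≠ y)
    (xu : x ≠ u) (yu : y ≠ u) (hne : B ≠ B1) (xX : x ∉ X) (yX : y ∉ X) (uX : u ∉ X)
    (bX : B1 ∉ X) : False := by
  have hB' : B ∈ X := hB (mem_singleton_self B)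
  have ne : ∀ {e f : E} {a b c : V}, G.Je e a c → G.Je f b c → a ≠ b → e ≠ f :=
    fun h1 h2 h3 k => h3 (s2_diff_je h1.symm (k ▸ h2.symm))
  have e1 : ({b0, g} : Finset E) = G.cut {u} := eq_of_subset_of_card_le
    (insert_subset (hq.cut1.2 ⟨hb0, _, j3⟩) (singleton_subset_iff.2 (hq.cut1.2 ⟨hg, _, j4⟩)))
    (by rw [hq.d2 u hu, card_pair (ne j3.symm j4.symm hne)])
  have e2 : ({α, β, g, c0} : Finset E) = G.cut {B1} := eq_of_subset_of_card_le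
    (insert_subset (hq.cut1.2 ⟨hα, _, j1.symm⟩) (insert_subset (hq.cut1.2 ⟨hβ, _, j2.symm⟩)
      (insert_subset (hq.cut1.2 ⟨hg, _, j4.symm⟩)
        (singleton_subset_iff.2 (hq.cut1.2 ⟨hc0, _, j5.symm⟩)))))
    (by
      have a1 := ne j1 j2 xy
      have a2 := ne j1 j4 xu
      have a3 := ne j1 j5 fun k => xX (k ▸ hB')
      have a4 := ne j2 j4 yu
      have a5 := ne j2 j5 fun k => yX (k ▸ hB')
      have a6 := ne j4 j5 fun k => uX (k ▸ hB')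
      rw [hq.d4 B1 b1, card_insert_of_notMem (by simp [a1, a2, a3]),
        card_insert_of_notMem (by simp [a4, a5]), card_pair a6])
  have h1 : G.Clo X ∅ {f, b0, c0} := fun e he v w hj hv hw => Or.inr <| by
    simp only [mem_insert, mem_singleton]
    rcases hc e he v w hj hv hw with k | k
    · rcases mem_insert.1 k with rfl | k
      · have := e2 ▸ hq.cut1.2 ⟨he, _, hj.symm⟩
        simp only [mem_insert, mem_singleton] at this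
        rcases this with rfl | rfl | rfl | rfl
        exacts [(xX (s2_diff_je hj.symm j1.symm ▸ hv)).elim,
          (yX (s2_diff_je hj.symm j2.symm ▸ hv)).elim,
          (uX (s2_diff_je hj.symm j4.symm ▸ hv)).elim, Or.inr (Or.inr rfl)]
      · obtain rfl := mem_singleton.1 k
        have := e1 ▸ hq.cut1.2 ⟨he, _, hj.symm⟩
        simp only [mem_insert, mem_singleton] at this
        rcases this with rfl | rfl
        exacts [Or.inr (Or.inl rfl), (bX (s2_diff_je hj.symm j4 ▸ hv)).elim]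
    · exact Or.inl (mem_singleton.1 k)
  have h2 := (hq.c4 hX hT hD hB).trans ((card_le_card h1.cut).trans card_le_three)
  omega

/-- HINT: `bb_tri`, then `QG.edo` from `{B}` to the even ring off `{B1, u}` (a cut has three leaving
edges).  Positions of the ends as in `d3_kind`; the crossing ones give `bb_z4` (or by `Th.fl`). -/
theorem bb_both (hq : G.QG U Nb Tm) (ha : G.Ha Nb Tm) (hb : G.Hb Nb Tm) (hd : G.Hdd Nb Tm)
    (h : G.Th Nb Tm s t x y A1 A2 A3 A4 S E1 E2 E3 E4 F) (h3 : T3n Tm s t u)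
    (hD : G.Ob Nb {B}) (hj : Disjoint (A1 ∪ A2 ∪ A3 ∪ A4 ∪ S) {B})
    (hα : G.At α x ∧ α ∈ F) (hβ : G.At β y ∧ β ∈ F)
    (hc : G.Clo (G.rc (A1 ∪ A2 ∪ A3 ∪ A4 ∪ {B}) S) {B} {α, β})
    (hN : Nb = {B1, B}) (hS : B1 ∈ S)
    (hm : G.Tmin Nb Tm {B} F.card) (z1 : z ∈ A1 ∪ A2) (z2 : z' ∈ A3 ∪ A4)
    (r1 : G.Pw B z X1 F1 ∧ (∀ v ∈ X1, v ∈ A1 ∪ A2 ∪ A3 ∪ A4 → v = z) ∧
      Disjoint X1 (G.rc (A1 ∪ A2 ∪ A3 ∪ A4 ∪ {B}) S))
    (r2 : G.Pw B z' X2 F2 ∧ (∀ v ∈ X2, v ∈ A1 ∪ A2 ∪ A3 ∪ A4 → v = z') ∧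
      Disjoint X2 (G.rc (A1 ∪ A2 ∪ A3 ∪ A4 ∪ {B}) S)) : G.Z4 Nb Tm := by
  obtain ⟨j1, j2, hS', b0, hb0, g, hg, c0, hc0, j3, j4, j5⟩ :=
    bb_tri hq ha hb hd h h3 hD hj hα hβ hc hN hS hm z1 z2 r1 r2
  obtain ⟨-, -, hu, hT⟩ := h3.mem
  have b1 : B1 ∈ Nb := hN ▸ mem_insert_self _ _
  have b2 : B ∈ Nb := hN ▸ mem_insert_of_mem (mem_singleton_self _)
  have n1 : B1 ∉ A1 ∪ A2 ∪ A3 ∪ A4 := disjoint_right.1 h.nb b1
  have n2 : B ∉ A1 ∪ A2 ∪ A3 ∪ A4 ∪ S := disjoint_singleton_right.1 hj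
  have n3 := (h.third ha h3 hD hj).1
  have xR : x ∈ A1 ∪ A2 ∪ A3 ∪ A4 := by simp only [mem_union, h.p1.right, true_or]
  have yR : y ∈ A1 ∪ A2 ∪ A3 ∪ A4 := by simp only [mem_union, h.p4.right, or_true]
  have hne : B ≠ B1 := fun k => n2 (mem_union_right _ (k ▸ hS))
  have uB : B ≠ u := fun k => disjoint_left.1 hq.dj b2 (k ▸ hu)
  have d1 : Disjoint {B} (A1 ∪ A2 ∪ A3 ∪ A4 ∪ {B1, u}) := by
    rw [disjoint_singleton_left, mem_union, mem_insert, mem_singleton, not_or, not_or]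
    exact ⟨fun k => n2 (mem_union_left _ k), hne, uB⟩
  rcases hq.edo hD (disjoint_union_right.1 d1).1 (disjoint_union_right.1 d1).2 with
    ⟨X, k1, k2, k3, k4, f, k5⟩ | ⟨p, pR, q, qR, e, f, a, b, he, hf, hef, i1, i2, -, -, s1, s2, k⟩
  · rw [disjoint_insert_right, disjoint_singleton_right] at k4
    refine (bb_both_cut hq b1 hu hD k1 k2 (disjoint_left.2 fun v v1 v2 => ?_) k5
      (h.ps.sub hα.2) (h.ps.sub hβ.2) hb0 hg hc0 j1 j2 j3 j4 j5 h.xy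
      (fun k => n3 (mem_union_left _ (k ▸ xR))) (fun k => n3 (mem_union_left _ (k ▸ yR))) hne
      (disjoint_right.1 k3 xR) (disjoint_right.1 k3 yR) k4.2 k4.1).elim
    rcases hT v v2 with rfl | rfl | rfl
    · exact disjoint_left.1 k3 v1 (by simp only [mem_union, h.p1.left, true_or])
    · exact disjoint_left.1 k3 v1 (by simp only [mem_union, h.p2.left, true_or, or_true])
    · exact k4.2 v1
  have sb : ∀ v ∈ A1 ∪ A2 ∪ A3 ∪ A4 ∪ S, v ∈ A1 ∪ A2 ∪ A3 ∪ A4 ∨ v = B1 := fun v hv => by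
    rcases mem_union.1 hv with hv | hv
    · exact Or.inl hv
    · rw [hS', mem_insert, mem_insert, mem_singleton] at hv
      rcases hv with rfl | rfl | rfl
      exacts [Or.inl xR, Or.inr rfl, Or.inl yR]
  have out : ∀ c, (∃ p ∈ ({B} : Finset V), G.Rv (A1 ∪ A2 ∪ A3 ∪ A4 ∪ {B1, u}) p c) →
      c ∉ A1 ∪ A2 ∪ A3 ∪ A4 ∪ S := fun c ⟨p, p1, p2⟩ k =>
    p2.not_mem (disjoint_left.1 d1 p1) ((sb c k).elim (mem_union_left _)
      fun k => mem_union_right _ (k ▸ mem_insert_self _ _))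
  have aM := out a s1
  have bM := out b s2
  have hpq : p ≠ q := by
    rintro rfl
    exact disjoint_left.1 h.nb pR (hq.two_out h.rr pR he hf hef i1 i2
      (fun k => aM (mem_union_left _ (h.rr.ends k (i1.at_iff.2 (Or.inr rfl)))))
      fun k => bM (mem_union_left _ (h.rr.ends k (i2.at_iff.2 (Or.inr rfl)))))
  obtain ⟨X, R, k1, k2, k3, -, k4⟩ := k hpq 0
  rw [disjoint_insert_right, disjoint_singleton_right] at k3
  have hB : B ∈ X := by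
    rcases k4 with k4 | ⟨B', k4, k5, -⟩
    · exact (disjoint_singleton_left.1 k4.2 b2).elim
    · rw [hN, mem_insert, mem_singleton] at k4
      rcases k4 with rfl | rfl
      exacts [(k3.1 k5).elim, k5]
  have e1 : A2 ∪ A1 ∪ A4 ∪ A3 = A1 ∪ A2 ∪ A3 ∪ A4 := by ac_rfl
  have e2 : A4 ∪ A3 ∪ A2 ∪ A1 = A1 ∪ A2 ∪ A3 ∪ A4 := by ac_rfl
  have main : ∀ p q, p ≠ s ∧ p ≠ t ∧ p ≠ x ∧ p ≠ y → q ≠ s ∧ q ≠ t ∧ q ≠ x ∧ q ≠ y →
      p ∈ A1 ∪ A2 → q ∈ A4 ∪ A3 → G.Pw p q X R →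
      (∀ w ∈ X, w ∈ A1 ∪ A2 ∪ A3 ∪ A4 → w = p ∨ w = q) → G.Z4 Nb Tm := by
    rintro p q ⟨ps, pt, px, -⟩ ⟨qs, qt, -, qy⟩ h1 h2 k1 k2
    have ear : G.d3_kind_ear Nb (A1 ∪ A2 ∪ A3 ∪ A4 ∪ S) ∅ p q := fun _ =>
      ⟨X, R, k1, fun w w1 w2 => k2 w w1 ((sb w w2).resolve_right fun k => k3.1 (k ▸ w1)),
        disjoint_empty_right _, ⟨B, hB, n2⟩, Or.inr fun k => disjoint_left.1 k hB b2⟩
    rcases mem_union.1 h1 with h1 | h1 <;> rcases mem_union.1 h2 with h2 | h2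
    · exact (d3_kind_par hb h Subset.rfl h1 h2 ps qs px qy ear).elim
    · exact bb_z4 hq ha hb hd h h3 hD hj hα hβ hc hN hS j1 j2 hS' hb0 hg hc0 j3 j4 j5 k1 h1 h2
        px qy hB k2 k3.2 k3.1
    · exact bb_z4 hq ha hb hd h.sw h3.sw1 hD (by rwa [e1]) hα hβ (by rwa [e1]) hN hS j1 j2 hS'
        hb0 hg hc0 j3 j4 j5 k1 h1 h2 px qy hB (by rwa [e1]) k3.2 k3.1
    · exact (d3_kind_par hb h.sw (by rw [e1]) h1 h2 pt qt px qy ear).elim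
  have hp := h.out hq he i1.symm aM
  have hq' := h.out hq hf i2.symm bM
  have sp : ∀ v ∈ A1 ∪ A2 ∪ A3 ∪ A4, v ∈ A1 ∪ A2 ∨ v ∈ A4 ∪ A3 := fun v hv => by
    rwa [union_assoc, mem_union, union_comm A3] at hv
  rcases sp p pR with h1 | h1 <;> rcases sp q qR with h2 | h2
  · exact (bb_both_arc ha h hpq h1 h2 k1 k2 b1 b2 hB k3.1).elim
  · exact main p q hp hq' h1 h2 k1 k2
  · exact main q p hq' hp h2 h1 k1.symm fun w w1 w2 => (k2 w w1 w2).symm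
  · exact (bb_both_arc ha h.fl hpq h1 h2 k1 (by rwa [e2]) b1 b2 hB k3.1).elim

theorem bb_edge_off (hj : Disjoint (M ∪ S) {B}) (h1 : v ∉ M) (h2 : v ∉ G.rc (M ∪ {B}) S) :
    v ∉ M ∪ S := fun c => by
  rcases mem_union.1 c with k | k
  · exact h1 k
  · exact h2 (mem_rc.2 ⟨v, k, fun o => (mem_union.1 o).elim h1 (disjoint_left.1 hj c), Rv.refl _ _⟩)

theorem bb_edge_nx (hr : ∀ z ∈ M, ∀ X R, G.Pw B z X R ∧ (∀ v ∈ X, v ∈ M → v = z) ∧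
      Disjoint X Z → z ∈ L) (hZ : Disjoint Z M) (hB : B ∉ M ∪ Z) (r : G.Rv (M ∪ Z) B v)
    (he : e ∈ G.A) (hj : G.Je e v z) (hz : z ∈ M) : z ∈ L := by
  obtain ⟨X, F, p, d, -⟩ := r.pw hB
  have zX : z ∉ X := fun c => disjoint_left.1 d c (mem_union_left _ hz)
  refine hr z hz _ _ ⟨(p.symm.cons he hj.symm zX).1.symm, fun w c k => ?_,
    disjoint_insert_left.2 ⟨disjoint_right.1 hZ hz, d.mono_right subset_union_right⟩⟩
  exact (mem_insert.1 c).resolve_right fun c => disjoint_left.1 d c (mem_union_left _ k)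

/-- `B` reaches one arc only: one edge of `B` leaves the reached set.  HINT: `QG.edo` from `{B}` to
`A1 ∪ A2` off the reached set and `A3 ∪ A4`; an ear is against `ha` (`Th.arc`).  For a cut `X`
intersect with what is reached from `B`; `QG.c4`. -/
theorem bb_edge (hq : G.QG U Nb Tm) (ha : G.Ha Nb Tm) (hb : G.Hb Nb Tm) (hd : G.Hdd Nb Tm)
    (h : G.Th Nb Tm s t x y A1 A2 A3 A4 S E1 E2 E3 E4 F) (h3 : T3n Tm s t u)
    (hD : G.Ob Nb {B}) (hj : Disjoint (A1 ∪ A2 ∪ A3 ∪ A4 ∪ S) {B})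
    (hα : G.At α x ∧ α ∈ F) (hβ : G.At β y ∧ β ∈ F)
    (hc : G.Clo (G.rc (A1 ∪ A2 ∪ A3 ∪ A4 ∪ {B}) S) {B} {α, β})
    (hN : Nb = {B1, B}) (hS : B1 ∈ S)
    (hr : ∀ z ∈ A1 ∪ A2 ∪ A3 ∪ A4, ∀ X R, G.Pw B z X R ∧ (∀ v ∈ X, v ∈ A1 ∪ A2 ∪ A3 ∪ A4 → v = z) ∧
      Disjoint X (G.rc (A1 ∪ A2 ∪ A3 ∪ A4 ∪ {B}) S) → z ∈ A1 ∪ A2)
    (he : e ∈ G.A) (hf : f ∈ G.A) (j1 : G.Je e B w) (j2 : G.Je f B w') (n1 : w ∉ G.rc (A1 ∪ A2 ∪ A3 ∪ A4 ∪ {B}) S)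
    (n2 : w' ∉ G.rc (A1 ∪ A2 ∪ A3 ∪ A4 ∪ {B}) S) : e = f := by
  have mB : B ∈ Nb := hN ▸ mem_insert_of_mem (mem_singleton_self _)
  have m1 : B1 ∈ Nb := hN ▸ mem_insert_self _ _
  have BB : B1 ∉ ({B} : Finset V) := disjoint_left.1 hj (mem_union_right _ hS)
  obtain ⟨-, b1, b2⟩ := a2_nb hd h hD hj m1 BB
  have uZ := bb_in hq ha hb hd h h3 hD hj hα hβ hc hN hS
  have of := fun v => bb_edge_off (G := G) (v := v) hj
  have dZ : Disjoint (G.rc (A1 ∪ A2 ∪ A3 ∪ A4 ∪ {B}) S) (A1 ∪ A2 ∪ A3 ∪ A4 ∪ {B}) := rc_dj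
  generalize G.rc (A1 ∪ A2 ∪ A3 ∪ A4 ∪ {B}) S = Z at *
  have BY : B ∉ A1 ∪ A2 ∪ A3 ∪ A4 := fun c => disjoint_left.1 h.nb c mB
  have BZ : B ∉ Z := fun c => disjoint_left.1 dZ c (by simp)
  have eq : A1 ∪ A2 ∪ (A3 ∪ A4 ∪ Z) = A1 ∪ A2 ∪ A3 ∪ A4 ∪ Z := by simp only [union_assoc]
  have BYZ : B ∉ A1 ∪ A2 ∪ A3 ∪ A4 ∪ Z := fun c => (mem_union.1 c).elim BY BZ
  have sM : A1 ∪ A2 ⊆ A1 ∪ A2 ∪ A3 ∪ A4 ∪ Z := eq ▸ subset_union_left
  have sL : A3 ∪ A4 ∪ Z ⊆ A1 ∪ A2 ∪ A3 ∪ A4 ∪ Z := eq ▸ subset_union_right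
  by_contra ne
  obtain ⟨X, XU, BX, d1, d2, k, cl⟩ | ⟨p, p1, q, q1, e1, e2, a, b, m1', m2', n12, i1, i2, -, -,
      ⟨_, c1, r1⟩, ⟨_, c2, r2⟩, ear⟩ := hq.edo (M := A1 ∪ A2) (L := A3 ∪ A4 ∪ Z) hD
    (disjoint_singleton_left.2 fun c => BYZ (sM c)) (disjoint_singleton_left.2 fun c => BYZ (sL c))
  · obtain ⟨c, d, q4⟩ := hq.q4 mB (hq.cut1.2 ⟨he, _, j1⟩) (hq.cut1.2 ⟨hf, _, j2⟩) ne
    have dK : Disjoint (G.rc (A1 ∪ A2 ∪ A3 ∪ A4 ∪ Z) {B}) (A1 ∪ A2 ∪ A3 ∪ A4 ∪ Z) := rc_dj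
    refine th0_three (Z := X ∩ G.rc (A1 ∪ A2 ∪ A3 ∪ A4 ∪ Z) {B}) (e := c) (f := d) (k := k) hq
      (inter_subset_left.trans XU) (th0_tm h3 (fun o => ?_) (fun o => ?_) fun o => ?_) hD
      (subset_inter BX (singleton_subset_iff.2
        (mem_rc.2 ⟨B, mem_singleton_self _, BYZ, Rv.refl _ _⟩))) (th0_clo fun g hg v w jg hv hw => ?_)
    · exact disjoint_left.1 dK (mem_inter.1 o).2 (by simp [h.p1.left])
    · exact disjoint_left.1 dK (mem_inter.1 o).2 (by simp [h.p2.left])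
    · exact disjoint_left.1 dK (mem_inter.1 o).2 (mem_union_right _ uZ)
    obtain ⟨v1, v2⟩ := mem_inter.1 hv
    have v3 := disjoint_left.1 dK v2
    obtain ⟨_, o1, -, rv⟩ := mem_rc.1 v2
    obtain rfl := mem_singleton.1 o1
    rw [mem_union, not_or] at v3
    by_cases wZ : w ∈ Z
    · rcases hc g hg w v jg.symm wZ v3.2 with o | o
      · obtain rfl := mem_singleton.1 o
        have := hq.cut1.2 ⟨hg, _, jg⟩
        simp only [q4.1, mem_insert, mem_singleton] at this ⊢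
        rcases this with rfl | rfl | rfl | rfl
        exacts [absurd (s2_diff_je j1 jg ▸ wZ) n1, absurd (s2_diff_je j2 jg ▸ wZ) n2, Or.inl rfl,
          Or.inr (Or.inl rfl)]
      · have w3 := disjoint_left.1 dZ wZ
        rcases mem_insert.1 o with rfl | o
        · rcases jg.at_iff.1 hα.1 with rfl | rfl
          exacts [absurd (by simp [h.p1.right]) v3.1, absurd (by simp [h.p1.right]) w3]
        · obtain rfl := mem_singleton.1 o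
          rcases jg.at_iff.1 hβ.1 with rfl | rfl
          exacts [absurd (by simp [h.p3.right]) v3.1, absurd (by simp [h.p3.right]) w3]
    have wX : w ∉ X := fun o => hw (mem_inter.2 ⟨o, mem_rc.2 ⟨_, o1, BYZ, rv.trans
      (rv_edge hg jg (rv.not_mem BYZ) fun o' => (mem_union.1 (eq ▸ o')).elim
        (disjoint_left.1 d1 o) (disjoint_left.1 d2 o))⟩⟩)
    rcases cl g hg v w jg v1 wX with o | o
    · have o1 := (mem_union.1 o).resolve_right wZ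
      have o2 := bb_edge_nx hr (dZ.mono_right subset_union_left) BYZ rv hg jg
        (by rw [union_assoc]; exact mem_union_right _ o1)
      obtain ⟨n3, n4, -, -⟩ := h.out hq hg jg (of v v3.1 v3.2)
      rcases mem_union.1 o1 with o1 | o1 <;> rcases mem_union.1 o2 with o2 | o2
      exacts [absurd o1 (disjoint_left.1 h.i13 o2), absurd (h.i23 _ o2 o1) n4,
        absurd (h.i14 _ o2 o1) n3, absurd o1 (disjoint_left.1 h.i24 o2)]
    · simp [mem_singleton.1 o]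
  · rw [mem_singleton.1 c1, eq] at r1
    rw [mem_singleton.1 c2, eq] at r2
    have pY : p ∈ A1 ∪ A2 ∪ A3 ∪ A4 := mem_union_left _ (mem_union_left _ p1)
    by_cases pq : p = q
    · subst pq
      exact disjoint_left.1 h.nb pY (hq.two_out h.rr pY m1' m2' n12 i1 i2
        (fun o => r1.not_mem BYZ (mem_union_left _ (h.rr.ends o (i1.at_iff.2 (Or.inr rfl)))))
        fun o => r2.not_mem BYZ (mem_union_left _ (h.rr.ends o (i2.at_iff.2 (Or.inr rfl)))))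
    obtain ⟨X, R, pw, o1, o2, -, o3⟩ := ear pq 0
    obtain ⟨B', n1, n2, n3⟩ := o3.resolve_left fun o => disjoint_singleton_left.1 o.2 mB
    obtain ⟨_, _, -, -, arc⟩ := h.arc pq p1 q1
    obtain ⟨Y, F', cw, y1, y2, y3, y4, -⟩ := arc X R pw
      (fun v hv o => o1 v hv ((mem_union.1 (by rwa [union_assoc] at o)).resolve_right
        fun o => disjoint_left.1 o2 hv (mem_union_left _ o)))
      ⟨B', n2, fun o => n3 (o ▸ p1), fun o => n3 (o ▸ q1)⟩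
    refine ha Y ⟨F', cw, Or.inr (not_disjoint_iff.2 ⟨B', y3 n2, n1⟩)⟩ s h.hs t h.ht h.st y1 y2 _
      (ob_box m1) (disjoint_singleton_right.2 fun o => ?_)
    exact (mem_union.1 (y4 o)).elim b1 fun o => disjoint_left.1 o2 o (mem_union_right _ b2)

theorem bb_one_fin (hd : G.Hdd Nb Tm) (h3 : T3n Tm s t u) (hz : G.Tz Nb Tm s H R {B})
    (hN : Nb = {B1, B}) (hH : B1 ∈ H) (hY : B1 ∉ Y) (s1 : s ≠ B1) (hu : u ∈ Z) (t1 : t ∈ Y)
    (dZ : Disjoint (insert B Z) Y) (x1 : x ∈ H) (x2 : x ∈ Y) (y1 : y ∈ H) (y2 : y ∈ Y)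
    (hα : G.At α x) (hβ : G.At β y) (hc : G.Clo Z {B} {α, β}) (dW : Disjoint W Y)
    (cW : G.Clo W (insert B Y) ∅) (hn : ∀ z ∈ Y, G.Nx W z → z ∈ H)
    (hB : ∀ e ∈ G.A, ∀ w, G.Je e B w → w ∈ Z ∨ w ∈ W ∨ (w ∈ H ∧ w ∈ Y)) : G.Z3c Nb Tm := by
  have m : ∀ v ∈ H, v ∈ Y → v ∈ H.erase B1 := fun v c c' =>
    mem_erase.2 ⟨fun o => hY (o ▸ c'), c⟩
  refine ⟨B, H, R, hz.cw, disjoint_singleton_right.1 hz.dj,
    (tz_of hd hz).mono (by simp [union_comm]), Or.inr ⟨B1, hN, hH,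
      goo_of (Z := insert B Z ∪ W) h3 (mem_erase.2 ⟨s1, hz.sh⟩) (by simp [hu])
        (fun c => (mem_union.1 c).elim (disjoint_right.1 dZ t1) (disjoint_right.1 dW t1))
        fun e he v w j hv hw => ?_⟩⟩
  simp only [mem_union, mem_insert, not_or] at hv hw
  rcases hv with (rfl | hv) | hv
  · rcases hB e he w j with o | o | o
    exacts [absurd o hw.1.2, absurd o hw.2, Or.inr (m _ o.1 o.2)]
  · rcases hc e he v w j hv hw.1.2 with o | o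
    · exact absurd (mem_singleton.1 o) hw.1.1
    · rcases mem_insert.1 o with rfl | o
      · rcases j.at_iff.1 hα with rfl | rfl
        exacts [Or.inl (m _ x1 x2), Or.inr (m _ x1 x2)]
      · obtain rfl := mem_singleton.1 o
        rcases j.at_iff.1 hβ with rfl | rfl
        exacts [Or.inl (m _ y1 y2), Or.inr (m _ y1 y2)]
  · rcases cW e he v w j hv hw.2 with o | o
    · have o := (mem_insert.1 o).resolve_left hw.1.1
      exact Or.inr (m _ (hn w o ⟨e, he, v, hv, j⟩) o)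
    · simp at o

/-- HINT: let `W` be what is reached off `insert B R` from the neighbours of `B` outside the reached
set (empty, or connected by `bb_edge`).  Take the ring of `a2_tz` (for `h` or `Th.sw`) or of `al_ring`
that contains all neighbours of `W` and of `B` on the even ring; `goo_of` with the union of the
reached set, `B` and `W`. -/
theorem bb_one (hq : G.QG U Nb Tm) (ha : G.Ha Nb Tm) (hb : G.Hb Nb Tm) (hd : G.Hdd Nb Tm)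
    (h : G.Th Nb Tm s t x y A1 A2 A3 A4 S E1 E2 E3 E4 F) (h3 : T3n Tm s t u)
    (hD : G.Ob Nb {B}) (hj : Disjoint (A1 ∪ A2 ∪ A3 ∪ A4 ∪ S) {B})
    (hα : G.At α x ∧ α ∈ F) (hβ : G.At β y ∧ β ∈ F)
    (hc : G.Clo (G.rc (A1 ∪ A2 ∪ A3 ∪ A4 ∪ {B}) S) {B} {α, β})
    (hN : Nb = {B1, B}) (hS : B1 ∈ S)
    (hr : ∀ z ∈ A1 ∪ A2 ∪ A3 ∪ A4, ∀ X R, G.Pw B z X R ∧ (∀ v ∈ X, v ∈ A1 ∪ A2 ∪ A3 ∪ A4 → v = z) ∧
      Disjoint X (G.rc (A1 ∪ A2 ∪ A3 ∪ A4 ∪ {B}) S) → z ∈ A1 ∪ A2) :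
    G.Z3c Nb Tm := by
  have mB : B ∈ Nb := hN ▸ mem_insert_of_mem (mem_singleton_self _)
  have m1 : B1 ∈ Nb := hN ▸ mem_insert_self _ _
  have BB : B1 ∉ ({B} : Finset V) := disjoint_left.1 hj (mem_union_right _ hS)
  obtain ⟨-, b1, b2⟩ := a2_nb hd h hD hj m1 BB
  have uZ := bb_in hq ha hb hd h h3 hD hj hα hβ hc hN hS
  have of := fun v => bb_edge_off (G := G) (v := v) hj
  have ed := fun e f w w' => bb_edge (e := e) (f := f) (w := w) (w' := w') hq ha hb hd h h3 hD hj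
    hα hβ hc hN hS hr
  have al := fun W a b => al_ring (W := W) (a := a) (b := b) hq ha h hD hj
  have z1 := a2_tz h hD hj
  have z2 := a2_tz h.sw hD (hj.mono_left fun v => by simp only [mem_union]; (clear * - hα hβ; tauto))
  have dZ : Disjoint (G.rc (A1 ∪ A2 ∪ A3 ∪ A4 ∪ {B}) S) (A1 ∪ A2 ∪ A3 ∪ A4 ∪ {B}) := rc_dj
  have cZ : ∀ v w, G.Rv (A1 ∪ A2 ∪ A3 ∪ A4 ∪ {B}) v w → v ∈ G.rc (A1 ∪ A2 ∪ A3 ∪ A4 ∪ {B}) S →
      w ∈ G.rc (A1 ∪ A2 ∪ A3 ∪ A4 ∪ {B}) S := fun v w r c => by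
    obtain ⟨z, c1, c2, c3⟩ := mem_rc.1 c
    exact mem_rc.2 ⟨z, c1, c2, c3.trans r⟩
  generalize G.rc (A1 ∪ A2 ∪ A3 ∪ A4 ∪ {B}) S = Z at *
  have BY : B ∉ A1 ∪ A2 ∪ A3 ∪ A4 := fun c => disjoint_left.1 h.nb c mB
  have BZ : B ∉ Z := fun c => disjoint_left.1 dZ c (by simp)
  have sY : s ∈ A1 ∪ A2 ∪ A3 ∪ A4 := by simp [h.p1.left]
  have tY : t ∈ A1 ∪ A2 ∪ A3 ∪ A4 := by simp [h.p2.left]
  have fin := fun s t H R W (h3 : T3n Tm s t u) (hz : G.Tz Nb Tm s H R {B}) (k : S ⊆ H)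
      (s1 : s ∈ A1 ∪ A2 ∪ A3 ∪ A4) t1 =>
    bb_one_fin (W := W) hd h3 hz hN (k hS) b1 (fun o => b1 (o ▸ s1)) uZ t1
      (disjoint_insert_left.2 ⟨BY, dZ.mono_right subset_union_left⟩) (k h.ps.left)
      (by simp [h.p1.right]) (k h.ps.right) (by simp [h.p3.right]) hα.1 hβ.1 hc
  have f1 := fun W => fin s t _ _ W h3 z1 subset_union_right sY tY
  have f2 := fun W => fin t s _ _ W h3.sw1 z2 subset_union_right tY sY
  have c0 : G.Clo ∅ (insert B (A1 ∪ A2 ∪ A3 ∪ A4)) ∅ := fun _ _ _ _ _ o => by simp at o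
  have n0 : ∀ H : Finset V, ∀ z ∈ A1 ∪ A2 ∪ A3 ∪ A4, G.Nx ∅ z → z ∈ H :=
    fun _ _ _ ⟨_, _, _, o, _⟩ => by simp at o
  by_cases ex : ∃ e ∈ G.A, ∃ w, G.Je e B w ∧ w ∉ Z
  swap
  · exact f1 ∅ (disjoint_empty_left _) c0 (n0 _) fun e he w j =>
      Or.inl (by_contra fun o => ex ⟨e, he, w, j, o⟩)
  obtain ⟨e, he, w, j, wZ⟩ := ex
  have un : ∀ (W H : Finset V), w ∈ W ∨ (w ∈ H ∧ w ∈ A1 ∪ A2 ∪ A3 ∪ A4) → ∀ e' ∈ G.A, ∀ w',
      G.Je e' B w' → w' ∈ Z ∨ w' ∈ W ∨ (w' ∈ H ∧ w' ∈ A1 ∪ A2 ∪ A3 ∪ A4) :=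
    fun W H o e' he' w' j' => or_iff_not_imp_left.2 fun n =>
      s2_diff_je j (ed e e' w w' he he' j j' wZ n ▸ j') ▸ o
  by_cases wY : w ∈ A1 ∪ A2 ∪ A3 ∪ A4
  · by_cases o : w ∈ A1 ∪ A4 ∪ S
    · exact f1 ∅ (disjoint_empty_left _) c0 (n0 _) (un _ _ (Or.inr ⟨o, wY⟩))
    · refine f2 ∅ (disjoint_empty_left _) c0 (n0 _) (un _ _ (Or.inr ⟨?_, wY⟩))
      simp only [mem_union] at wY o ⊢
      (clear * - hα hβ o wY; tauto)
  have eq : A1 ∪ A2 ∪ A3 ∪ A4 ∪ {B} = insert B (A1 ∪ A2 ∪ A3 ∪ A4) := by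
    rw [union_comm, insert_eq]
  have wB : w ∉ A1 ∪ A2 ∪ A3 ∪ A4 ∪ {B} := fun o =>
    (mem_union.1 o).elim wY fun o => (hq.je he j).2.2 (mem_singleton.1 o).symm
  have wW : w ∈ G.rc (A1 ∪ A2 ∪ A3 ∪ A4 ∪ {B}) {w} :=
    mem_rc.2 ⟨w, mem_singleton_self _, wB, Rv.refl _ _⟩
  have dW : Disjoint (G.rc (A1 ∪ A2 ∪ A3 ∪ A4 ∪ {B}) {w}) (A1 ∪ A2 ∪ A3 ∪ A4 ∪ {B}) := rc_dj
  have cW : G.Clo (G.rc (A1 ∪ A2 ∪ A3 ∪ A4 ∪ {B}) {w}) (insert B (A1 ∪ A2 ∪ A3 ∪ A4)) ∅ :=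
    rc_clo.mono eq.subset Subset.rfl
  have WZ : ∀ v ∈ G.rc (A1 ∪ A2 ∪ A3 ∪ A4 ∪ {B}) {w}, v ∉ Z := fun v c o => by
    obtain ⟨_, c1, -, c3⟩ := mem_rc.1 c
    exact wZ (cZ _ _ (mem_singleton.1 c1 ▸ c3.symm) o)
  have pW := fun a ha b hb => rc_pw (G := G) (M := A1 ∪ A2 ∪ A3 ∪ A4 ∪ {B}) (z := w) (v := a)
    (w := b) ha hb
  generalize G.rc (A1 ∪ A2 ∪ A3 ∪ A4 ∪ {B}) {w} = W at *
  have dY := dW.mono_right subset_union_left
  have BYZ : B ∉ A1 ∪ A2 ∪ A3 ∪ A4 ∪ Z := fun c => (mem_union.1 c).elim BY BZ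
  have hn : ∀ z ∈ A1 ∪ A2 ∪ A3 ∪ A4, G.Nx W z → z ∈ A1 ∪ A2 := by
    rintro z hz ⟨g, hg, v, hv, jg⟩
    obtain ⟨X, R, p, sX⟩ := pW w wW v hv
    refine bb_edge_nx hr (dZ.mono_right subset_union_left) BYZ ((rv_edge he j BYZ
      fun o => (mem_union.1 o).elim wY wZ).trans (p.rv (disjoint_left.2 fun a c o => ?_)
        p.left p.right)) hg jg hz
    exact (mem_union.1 o).elim (disjoint_left.1 dY (sX c)) (WZ a (sX c))
  by_cases x1 : ∃ a ∈ A1, G.Nx W a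
  swap
  · exact f2 W dY cW (fun z c o => mem_union_left _ (mem_union_left _
      ((mem_union.1 (hn z c o)).resolve_left fun k => x1 ⟨z, k, o⟩))) (un _ _ (Or.inl wW))
  by_cases x2 : ∃ a ∈ A2, G.Nx W a
  swap
  · exact f1 W dY cW (fun z c o => mem_union_left _ (mem_union_left _
      ((mem_union.1 (hn z c o)).resolve_right fun k => x2 ⟨z, k, o⟩))) (un _ _ (Or.inl wW))
  obtain ⟨a, a1, a2⟩ := x1
  obtain ⟨b, b3, b4⟩ := x2
  obtain ⟨H, R, k1, -, k2, -, k3⟩ := al W a b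
    (disjoint_left.2 fun v c => of v (disjoint_left.1 dY c) (WZ v c))
    (dW.mono_right subset_union_right) (disjoint_left.2 fun v c o => by
      rcases mem_insert.1 (hN ▸ o) with rfl | o
      exacts [WZ _ c b2, disjoint_left.1 dW c (mem_union_right _ o)]) pW hn a2 b4 a1 b3
  exact fin s t H R W h3 k1 k2 sY tY dY cW k3 (un _ _ (Or.inl wW))

end SG

end Pool.Agent.Work.MP_8c679b_co
end
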