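import Pool.Agent.Work.MP_8c679b_co.Key.IH
import Pool.Agent.Work.MP_8c679b_co.Top.RA3
import Pool.Agent.Work.MP_8c679b_co.A3.G3
import Pool.Agent.Work.MP_8c679b_co.A3.E5
import Pool.Agent.Work.MP_8c679b_co.A3.DF4
import Pool.Agent.Work.MP_8c679b_co.A3.GA2
import Pool.Agent.Work.MP_8c679b_co.A3.GA5
import Pool.Agent.Work.MP_8c679b_co.Key.U3

-- merged part: Pool.Agent.Work.MP_8c679b_co.A3.DFin
section
-- merged part: Pool.Agent.Work.MP_8c679b_co.A3.KF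
section
/-!
The two frames of a side without one terminal: passes of the other parity.
-/

set_option autoImplicit false

namespace Pool.Agent.Work.MP_8c679b_co

open Finset

namespace SG

variable {V E : Type} [Fintype V] [DecidableEq V] [DecidableEq E] {G : SG V E}
  {T S : Finset V} {a b c d x y : E} {Bs X H : Finset (Finset V)} {R R' : Finset E}
  {xf : Finset V → E → E → ZMod 2 → Finset V} {F : Kf V E}

theorem KF_ne (ha : a ∈ G.cut S) (hx : x ∈ G.ins S) : a ≠ x := fun k => GO3_ni ha (k ▸ hx)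

theorem KF_ok (hc : G.Cub) (hT : G.HT T) (hS : S ⊆ T) (hu : G.US S) (hq : G.Q4 S a b c d)
    (hB : G.Bx G.AU S {a, b} Bs) (hx : G.PkA T xf) (hz : G.Q3 {G.ie S c} x y c)
    (ix : x ∈ G.ins S) (iy : y ∈ G.ins S) (hY : F.Y = S \ {G.ie S c}) (hBs : F.Bs = Bs)
    (hd : F.z = d) (hv : F.v0 = G.ie S a) (hf : F.f = false) (hxf : F.xf = xf)
    (hJ : ∀ e, e ∈ F.J ↔ e = a ∨ e = x ∨ e = b ∨ e = y) (pq : ∀ i j, F.p i ≠ F.q j)
    (pp : F.p false ≠ F.p true) (qq : F.q false ≠ F.q true) : F.Ok G T := by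
  have c4 := hT.us_card hc hS hu
  have c2 : 2 < S.card := by omega
  obtain ⟨ma, mb, mc, md⟩ := hq.mem
  obtain ⟨nab, nac, nad, nbc, nbd, ncd⟩ := hq.2
  have tc := Spl_ie mc
  have sub : {G.ie S c} ⊆ S := singleton_subset_iff.2 tc
  have nt : ∀ e ∈ G.cut S, e ≠ c → G.ie S e ∈ S \ {G.ie S c} := fun e he ne =>
    mem_sdiff.2 ⟨Spl_ie he, fun k => hT.f2 hc hS hq.card c2 he mc ne (mem_singleton.1 k)⟩
  have ct := fun e he ne => Spl_cut_of (G := G) (e := e) sdiff_subset he (nt e he ne)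
  have cz : ∀ e, e ∈ G.cut {G.ie S c} ↔ e = x ∨ e = y ∨ e = c := fun e => by
    rw [hz.1, mem_insert, mem_insert, mem_singleton]
  have cx : ∀ e ∈ G.ins S, e ∈ G.cut {G.ie S c} → e ∈ G.cut (S \ {G.ie S c}) := fun e k1 k2 =>
    (Spl_sd sub e).2 fun k => GO3_ni (k.2 k2) k1
  have ni : ∀ e ∈ G.cut S, ∀ f ∈ G.ins S, e ≠ f := fun e k1 f k2 k => GO3_ni k1 (k ▸ k2)
  have nc : c ∉ ({a, b} : Finset E) := by simp [nac.symm, nbc.symm]
  have bs : ∀ B ∈ Bs, B ⊆ S \ {G.ie S c} := fun B k u hu' => mem_sdiff.2 ⟨(hB.1 B k).2.1 hu',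
    fun k' => hB.not_mem k mc nc ie_at (mem_singleton.1 k' ▸ hu')⟩
  have jc : ∀ e ∈ F.J, e ∈ G.cut (S \ {G.ie S c}) := fun e he => by
    rcases (hJ e).1 he with rfl | rfl | rfl | rfl
    exacts [(ct _ ma nac).1, cx _ ix ((cz _).2 (Or.inl rfl)), (ct _ mb nbc).1,
      cx _ iy ((cz _).2 (Or.inr (Or.inl rfl)))]
  refine ⟨hc, hT, hY ▸ sdiff_subset.trans hS, ⟨hBs ▸ hB.2.1, fun B k => ⟨hY ▸ bs B (hBs ▸ k), ?_⟩,
    fun i => hY ▸ jc _ ?_, fun i => hY ▸ jc _ ?_, pq, pp, qq⟩, fun e he => ?_,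
    fun B k => ⟨(hB.1 B (hBs ▸ k)).1, fun e he => ?_⟩, hY ▸ hv ▸ nt a ma nac, fun N k1 k2 => ?_,
    fun B k B' k' ne => IHa_r2 hc hT hS hB (fun _ k => k) (hBs ▸ k) (hBs ▸ k') ne fun k => k,
    fun N k => hxf ▸ hx N ((hB.1 N (hBs ▸ k)).2.1.trans hS) (hB.1 N (hBs ▸ k)).1,
    fun k => Bool.noConfusion (hf ▸ k)⟩
  · exact Spl_nonempty (hB.1 B (hBs ▸ k)).1.1
  · cases i <;> simp [Kf.J]
  · cases i <;> simp [Kf.J]
  · rw [hY] at he
    have k := (Spl_sd sub e).1 he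
    rw [Spl_mem hq, cz] at k
    rw [hJ, hd]
    clear * - k
    tauto
  · rw [hBs] at k
    rw [hY]
    have k0 := mem_tch_iff.1 (tch_mono (bs B k) (cut_sub_tch he))
    refine mem_union.2 (k0.imp_right fun k0 => ?_)
    have k1 := (Spl_sd sub e).1 k0
    rw [hJ]
    rcases mem_union.1 ((hB.1 B k).2.2 he) with k2 | k2
    · have k3 : e ∈ G.cut {G.ie S c} := by
        by_contra k3
        exact k1 (iff_of_false (fun k => GO3_ni k k2) k3)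
      rcases (cz e).1 k3 with k4 | k4 | k4
      · exact Or.inr (Or.inl k4)
      · exact Or.inr (Or.inr (Or.inr k4))
      · exact (ni c mc e k2 k4.symm).elim
    · rw [mem_insert, mem_singleton] at k2
      exact k2.imp_right fun k => Or.inr (Or.inl k)
  · rw [hY] at k1
    rw [hY, hBs]
    have k3 : N ⊆ S := k1.trans sdiff_subset
    by_cases k : d ∈ G.cut N
    · refine Or.inr (Or.inr ⟨d, k, (ct d md ncd.symm).1, fun k' => ?_⟩)
      rcases (hJ d).1 k' with k4 | k4 | k4 | k4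
      exacts [nad k4.symm, ni d md x ix k4, nbd k4.symm, ni d md y iy k4]
    · refine Or.inl (hB.2.2 N k2 k3 fun e he => mem_union.2 ?_)
      refine (mem_tch_iff.1 (tch_mono k3 (cut_sub_tch he))).imp_right fun k4 => ?_
      rcases (Spl_mem hq e).1 k4 with k5 | k5 | k5 | k5
      · exact k5 ▸ mem_insert_self _ _
      · exact k5 ▸ mem_insert_of_mem (mem_singleton_self _)
      · exact ((mem_sdiff.1 (k1 ((IHa_cut k3 k4).1 he))).2 (k5 ▸ mem_singleton_self _)).elim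
      · exact (k (k5 ▸ he)).elim

/-- closing the second pair at the deleted terminal -/
theorem KF_close {s : ZMod 2} {v : V} (hc : G.Cub) (hT : G.HT T) (hS : S ⊆ T)
    (hq : G.Q4 S a b c d) (hz : G.Q3 {G.ie S c} x y c) (ix : x ∈ G.ins S) (iy : y ∈ G.ins S)
    (hv : v ∈ S \ {G.ie S c})
    (hw : G.Wk (S \ {G.ie S c}) a b x y (s + 1) (G.n x + G.n y) (0 + (s + 1) + (G.n x + G.n y))
      (G.Kv (S \ {G.ie S c}) v)) : G.Pw0 S a b s := by
  obtain ⟨ma, mb, mc, md⟩ := hq.mem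
  obtain ⟨nab, nac, nad, nbc, nbd, ncd⟩ := hq.2
  have tc := Spl_ie mc
  have sub : {G.ie S c} ⊆ S := singleton_subset_iff.2 tc
  have v3 := hT.vtx hc (hS tc)
  have na : ∀ e ∈ G.cut S, e ≠ c → e ∉ G.tch {G.ie S c} := fun e he ne k => by
    rw [v3.2.2, hz.1, mem_insert, mem_insert, mem_singleton] at k
    rcases k with k | k | k
    exacts [GO3_ni he (k ▸ ix), GO3_ni he (k ▸ iy), ne k]
  obtain ⟨O, p1, q1⟩ := hw
  obtain ⟨o2, o1⟩ := q1.close (L := ∅) (D' := Rl.Mt (s + 1)) (vtx_p (L := ∅) v3.2.1 hz)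
    sdiff_disjoint (na a ma nac) (na b mb nbc) (fun _ k => absurd k (notMem_empty _))
    (fun _ k => absurd k (notMem_empty _)) fun R1 R2 r1 r2 => r1.cl_p r2.1 (by rw [zero_add])
  rw [sdiff_union_of_subset sub] at o1 o2
  refine ⟨c, d, _, v, (mem_sdiff.1 hv).1, ?_, o2.cov ?_⟩
  · rw [o1, p1, v3.2.1, inter_empty, show G.par ∅ = 0 from sum_empty]
    linear_combination z2_add_self (G.n x + G.n y)
  rintro _ ⟨⟨N, k1, k2, k3, rfl⟩, -⟩
  by_cases k : G.ie S c ∈ N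
  · refine Or.inr ⟨c, (IHa_cut k1 mc).2 k, cut_sub_tch mc, fun k' => ?_⟩
    exact (o2.cut.2.2.2.2 c mc k').elim nac.symm nbc.symm
  · exact Or.inl ⟨_, Or.inl ⟨N, subset_sdiff.2 ⟨k1, disjoint_singleton_right.2 k⟩, k2, k3, rfl⟩,
      Subset.rfl⟩

/-- an edge of the quotient at a single vertex -/
theorem KF_end {t : V} {N : Finset V} (hpd : PD Bs) (ht : t ∈ S) (hn : nd Bs t = {t})
    (hp : x ∈ (G.quo S Bs).A) (hj : (G.quo S Bs).Je x {t} N) (hN : N ≠ {t}) :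
    x ∈ G.cut {t} ∧ x ∈ G.ins S ∧ N = nd Bs (G.ie (S \ {t}) x) := by
  obtain ⟨p1, -, -, p2, -, p3, -⟩ := quo_je_inv hpd hp hj
  have i := (mem_quo.1 hp).1
  refine ⟨p1, i, p3.symm.trans (congrArg _ (eq_ie ?_ (mem_sdiff.2 ⟨p2, fun k => hN ?_⟩) ie_at))⟩
  · exact (Spl_sd (singleton_subset_iff.2 ht) x).2 fun k => GO3_ni (k.2 p1) i
  · rw [← p3, mem_singleton.1 k, hn]

theorem KF_q3 (hc : G.Cub) (hT : G.HT T) (hS : S ⊆ T) (mc : c ∈ G.cut S)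
    (x1 : x ∈ G.cut {G.ie S c}) (y1 : y ∈ G.cut {G.ie S c}) (ix : x ∈ G.ins S) (iy : y ∈ G.ins S)
    (hxy : x ≠ y) : G.Q3 {G.ie S c} x y c := by
  obtain ⟨z, hz⟩ := hT.third hc (hS (Spl_ie mc)) x1 y1 hxy
  have k : c ∈ G.cut {G.ie S c} := (mem_inter.1 (Cut_ie mc rfl)).1
  rw [hz.1, mem_insert, mem_insert, mem_singleton] at k
  rcases k with k | k | k
  exacts [(GO3_ni mc (k ▸ ix)).elim, (GO3_ni mc (k ▸ iy)).elim, k ▸ hz]

/-- the nodes of the terminals -/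
theorem KF_nd (hc : G.Cub) (hT : G.HT T) (hS : S ⊆ T) (hu : G.US S) (hq : G.Q4 S a b c d)
    (hB : G.Bx G.AU S {a, b} Bs) : nd Bs (G.ie S c) = {G.ie S c} ∧
      ∀ e ∈ G.cut S, e ≠ c → nd Bs (G.ie S e) ≠ {G.ie S c} ∧
        G.ie (S \ {G.ie S c}) e = G.ie S e := by
  have c4 := hT.us_card hc hS hu
  have mc := hq.mem.2.2.1
  refine ⟨nd_of_not fun B k => hB.not_mem k mc ?_ ie_at, fun e he ne => ?_⟩
  · simp [hq.2.2.1.symm, hq.2.2.2.2.1.symm]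
  have k := hT.f2 hc hS hq.card (by omega) he mc ne
  exact ⟨fun r => k (mem_singleton.1 (r ▸ mem_nd_self)), (Spl_cut_of sdiff_subset he
    (mem_sdiff.2 ⟨Spl_ie he, fun r => k (mem_singleton.1 r)⟩)).2⟩

/-- a path through a third terminal with an unbalanced rest -/
theorem kf_key (hc : G.Cub) (hT : G.HT T) (hM : G.ThM T) (hS : S ⊆ T) (hu : G.US S)
    (hq : G.Q4 S a b c d) (hB : G.Bx G.AU S {a, b} Bs) (hx : G.PkA T xf)
    (hp : (G.quo S Bs).Pw (nd Bs (G.ie S a)) (nd Bs (G.ie S b)) X R) (hm : {G.ie S c} ∈ X)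
    (hn : ¬ G.Bal (G.ins (S \ un S Bs X))) : ∃ s, G.Pw0 S a b s := by
  have : Nonempty E := ⟨a⟩
  obtain ⟨ma, mb, mc, md⟩ := hq.mem
  obtain ⟨nab, nac, nad, nbc, nbd, ncd⟩ := hq.2
  obtain ⟨n1, n2⟩ := KF_nd hc hT hS hu hq hB
  obtain ⟨X1, F1, X2, F2, p1, p2, rfl, -, hi, -⟩ := hp.split hm
  have dF := p1.dj1 p2 hi
  obtain ⟨x, u, Y1, R1, xA, jx, q1, m1, rfl, rfl, -, -⟩ := p1.symm.head (n2 a ma nac).1.symm
  obtain ⟨y, w, Y2, R2, yA, jy, q2, m2, rfl, rfl, -, -⟩ := p2.head (n2 b mb nbc).1.symm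
  obtain ⟨x1, ix, eu⟩ := KF_end hB.2.1 (Spl_ie mc) n1 xA jx fun k => m1 (k ▸ q1.left)
  obtain ⟨y1, iy, ew⟩ := KF_end hB.2.1 (Spl_ie mc) n1 yA jy fun k => m2 (k ▸ q2.left)
  have hz := KF_q3 hc hT hS mc x1 y1 ix iy fun k =>
    disjoint_left.1 dF (mem_insert_self _ _) (k ▸ mem_insert_self _ _)
  obtain ⟨n, v, g, t1, t2, t3, rfl, -⟩ := q1.symm
  obtain ⟨n', v', g', r1, r2, r3, rfl, -⟩ := q2.symm
  let M : MP_8c679b_co.Mb V E := ⟨fun i => cond i n' n, fun i => cond i v' v, fun i => cond i g' g⟩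
  obtain ⟨s, hs⟩ : ∃ s, s = Kf.sl G M false + Kf.sl G M true + (G.n x + G.n y) := ⟨_, rfl⟩
  let F : Kf V E := ⟨S \ {G.ie S c}, Bs, fun i => cond i b a, fun i => cond i y x, d, G.ie S a,
    true, false, fun i => cond i (G.n x + G.n y) (s + 1), xf⟩
  have hO : F.Ok G T := KF_ok hc hT hS hu hq hB hx hz ix iy rfl rfl rfl rfl rfl rfl
    (fun e => by
      change e ∈ ({a, x, b, y} : Finset E) ↔ _
      simp only [mem_insert, mem_singleton])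
    (by
      rintro (_ | _) (_ | _)
      exacts [KF_ne ma ix, KF_ne ma iy, KF_ne mb ix, KF_ne mb iy]) nab hz.2.1
  have hI : F.IsM G M := by
    refine ⟨?_, ?_, ?_, fun k hk l hl e => ?_⟩
    · rintro (_ | _)
      · exact IHb_pth t1 fun i hi k => m1 (mem_pv.2 ⟨i, hi, k.trans n1⟩)
      · exact IHb_pth r1 fun i hi k => m2 (mem_pv.2 ⟨i, hi, k.trans n1⟩)
    · rintro (_ | _)
      exacts [t2.trans (congrArg _ (n2 a ma nac).2.symm), r2.trans (congrArg _ (n2 b mb nbc).2.symm)]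
    · rintro (_ | _)
      exacts [t3.trans eu, r3.trans ew]
    · have e' : v k = v' l := e
      have k1 : v k ∈ pv n v := mem_pv.2 ⟨k, hk, rfl⟩
      exact m1 (hi _ (mem_insert_of_mem k1)
        (mem_insert_of_mem (mem_pv.2 ⟨l, hl, e'.symm⟩)) ▸ k1)
  have hC : F.Cb G M := by
    obtain ⟨σ, hσ⟩ := IHb_sign hI (1 + (s + 1) + (G.n x + G.n y)) (Or.inr (by
      rw [hs]
      linear_combination -z2_add_self (G.n x + G.n y) - z2_add_self 1))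
    exact ⟨σ, Or.inr hσ⟩
  have on : F.On M (fun i => pv (M.n i) (M.w i)) fun i => pv (M.n i + 1) (F.e M i) :=
    fun _ => ⟨rfl, rfl⟩
  obtain ⟨t, ht, z, hv, hw⟩ := (hM F M hO hI hC).2 (fun k => hn (k.mono (ins_mono fun z hz' => by
    obtain ⟨z1, z2⟩ := mem_sdiff.1 hz'
    have z3 : nd Bs z ∉ insert {G.ie S c} (pv n v) ∪ insert {G.ie S c} (pv n' v') :=
      fun r => z2 (mem_un.2 ⟨z1, r⟩)
    refine (on_rest hO.wf hI on).2 ⟨mem_sdiff.2 ⟨z1, fun r => z3 ?_⟩, fun r => z3 ?_⟩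
    · rw [mem_singleton.1 r, n1]
      exact hm
    · exact union_subset_union (subset_insert _ _) (subset_insert _ _) r))) 0
  obtain rfl : t = G.n x + G.n y := ht.resolve_left fun k => Bool.noConfusion k
  exact ⟨s, KF_close hc hT hS hq hz ix iy hv hw⟩

/-- a path and a valid ring through a third terminal -/
theorem kf_fam (hc : G.Cub) (hT : G.HT T) (hM : G.ThM T) (hS : S ⊆ T) (hu : G.US S)
    (hq : G.Q4 S a b c d) (hB : G.Bx G.AU S {a, b} Bs) (hx : G.PkA T xf)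
    (hp : (G.quo S Bs).Pw (nd Bs (G.ie S a)) (nd Bs (G.ie S b)) X R)
    (hH : (G.quo S Bs).Vr Bs H) (hm : {G.ie S c} ∈ H) (hd : Disjoint X H) :
    ∃ s, G.Pw0 S a b s := by
  have : Nonempty E := ⟨a⟩
  obtain ⟨ma, mb, mc, md⟩ := hq.mem
  obtain ⟨nab, nac, nad, nbc, nbd, ncd⟩ := hq.2
  obtain ⟨n1, n2⟩ := KF_nd hc hT hS hu hq hB
  obtain ⟨R', hR, hv⟩ := hH
  obtain ⟨x, y, u, w, Y, R2, hxy, jx, jy, q2, m2, rfl, rfl, -⟩ := hR.del hm
  obtain ⟨x1, ix, eu⟩ := KF_end hB.2.1 (Spl_ie mc) n1 (hR.sub (mem_insert_self _ _)) jx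
    fun k => m2 (k ▸ q2.left)
  obtain ⟨y1, iy, ew⟩ := KF_end hB.2.1 (Spl_ie mc) n1
    (hR.sub (mem_insert_of_mem (mem_insert_self _ _))) jy fun k => m2 (k ▸ q2.right)
  have hz := KF_q3 hc hT hS mc x1 y1 ix iy hxy
  obtain ⟨n, v, g, t1, t2, t3, rfl, -⟩ := hp
  obtain ⟨n', v', g', r1, r2, r3, rfl, rfl⟩ := q2
  let M : MP_8c679b_co.Mb V E := ⟨fun i => cond i n' n, fun i => cond i v' v, fun i => cond i g' g⟩
  obtain ⟨s, hs⟩ : ∃ s, s = Kf.sl G M false := ⟨_, rfl⟩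
  let F : Kf V E := ⟨S \ {G.ie S c}, Bs, fun i => cond i x a, fun i => cond i y b, d, G.ie S a,
    false, false, fun i => cond i (G.n x + G.n y) (s + 1), xf⟩
  have hO : F.Ok G T := KF_ok hc hT hS hu hq hB hx hz ix iy rfl rfl rfl rfl rfl rfl
    (fun e => by
      change e ∈ ({a, b, x, y} : Finset E) ↔ _
      simp only [mem_insert, mem_singleton]
      (clear * - hv; grind))
    (by
      rintro (_ | _) (_ | _)
      exacts [nab, KF_ne ma iy, (KF_ne mb ix).symm, hxy]) (KF_ne ma ix) (KF_ne mb iy)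
  have hI : F.IsM G M := by
    refine ⟨?_, ?_, ?_, fun k hk l hl e => ?_⟩
    · rintro (_ | _)
      · exact IHb_pth t1 fun i hi k => disjoint_left.1 hd (mem_pv.2 ⟨i, hi, k.trans n1⟩) hm
      · exact IHb_pth r1 fun i hi k => m2 (mem_pv.2 ⟨i, hi, k.trans n1⟩)
    · rintro (_ | _)
      exacts [t2.trans (congrArg _ (n2 a ma nac).2.symm), r2.trans eu]
    · rintro (_ | _)
      exacts [t3.trans (congrArg _ (n2 b mb nbc).2.symm), r3.trans ew]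
    · have e' : v k = v' l := e
      exact disjoint_left.1 hd (mem_pv.2 ⟨k, hk, rfl⟩)
        (mem_insert_of_mem (mem_pv.2 ⟨l, hl, e'.symm⟩))
  have on : F.On M (fun i => pv (M.n i) (M.w i)) fun i => pv (M.n i + 1) (F.e M i) :=
    fun _ => ⟨rfl, rfl⟩
  have hC : F.Cb G M := by
    obtain ⟨σ, hσ⟩ := on_sign hI on (fun i => F.lam i + 1) (by
      rintro (_ | _)
      · refine Or.inl ?_
        change s + 1 + 1 = _
        rw [add_assoc, z2_add_self, add_zero, hs]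
      · refine hv.imp (fun k => ?_) fun k r => k (disjoint_insert_left.2 ⟨fun r' => ?_, r⟩)
        · have k1 := on_par hO.wf hI on true
          have k2 : G.par (insert x (insert y (pe n' g'))) = 1 := k
          rw [← DF5_es] at k2
          have k3 : (1 : ZMod 2) = G.n x + Kf.sl G M true + G.n y := k2.symm.trans k1
          change G.n x + G.n y + 1 = _
          rw [k3]
          linear_combination z2_add_self (G.n x + G.n y)
        · have := hT.us_card hc ((hB.1 _ r').2.1.trans hS) (hB.1 _ r').1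
          simp at this)
    exact ⟨σ, hσ⟩
  obtain ⟨t, ht, z, hv, hw⟩ := (hM F M hO hI hC).1
  obtain rfl : t = G.n x + G.n y := ht.resolve_left fun k => Bool.noConfusion k
  exact ⟨s, KF_close hc hT hS hq hz ix iy hv hw⟩

end SG

end Pool.Agent.Work.MP_8c679b_co
end

-- merged part: Pool.Agent.Work.MP_8c679b_co.A3.KT
section
/-!
In a side without splits and without passes of the wrong parity no proper side has a terminal.
-/

set_option autoImplicit false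

namespace Pool.Agent.Work.MP_8c679b_co

open Finset

namespace SG

variable {V E : Type} [Fintype V] [DecidableEq V] [DecidableEq E] {G : SG V E}
  {T B M : Finset V} {Bs : Finset (Finset V)} {C : Finset E} {t : V} {a b c d : E}
  {xf : Finset V → E → E → ZMod 2 → Finset V}

/-- an odd circuit through a vertex off the boxes contains a valid ring -/
theorem kt_ring (hc : G.Cub) (hT : G.HT T) (hB : B ⊆ T) (hpd : PD Bs) (hC : C ⊆ G.ins B)
    (cC : G.Cc C) (ho : G.par C = 1) (ht : t ∈ G.vs C) (hn : nd Bs t = {t}) :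
    ∃ H, (G.quo B Bs).Vr Bs H ∧ {t} ∈ H ∧ ∀ N ∈ H, ∃ v ∈ G.vs C, N = nd Bs v := by
  obtain ⟨e, he, k⟩ := mem_vs.1 ht
  have nl := hT.noloop hc (tch_mono hB (ins_sub_tch (hC he)))
  obtain ⟨a1, a2⟩ := (quo_at (G := G) (Y := B) (v := t) hpd).2
    ⟨hC he, hn.symm ▸ (mem_cut_single nl).2 ⟨ins_sub_A (hC he), k⟩⟩
  obtain ⟨n, w, g, hp, -, h0⟩ := cyc_of_rch (G := G.quo B Bs) (mem_inter.2 ⟨he, a1⟩)
    (Or.inl ⟨rfl, rfl⟩) (quo_noloop a1) ((quo_rch (sdiff_subset.trans hC) (cC.2.1.sdiff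
      (od_edge (Or.inr ⟨rfl, rfl⟩)) (singleton_subset_iff.2 he)).rch).mono fun f hf => by
        simp only [mem_inter, mem_sdiff, mem_singleton, mem_erase] at hf ⊢
        exact ⟨hf.1.2, hf.1.1, hf.2⟩)
  obtain ⟨cc, hv, hs, -⟩ := hp.cc
  have hs' : pe (n + 1) g ⊆ C := fun f hf => (mem_inter.1 (@hs f hf)).1
  have me : e ∈ pe (n + 1) g := mem_pe.2 ⟨0, n.succ_pos, h0⟩
  have ms : ∀ f ∈ pe (n + 1) g, nd Bs (G.s f) ∈ pv n w ∧ nd Bs (G.t f) ∈ pv n w := fun f hf =>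
    ⟨hv ▸ s_mem_vs (G := G.quo B Bs) hf, hv ▸ t_mem_vs (G := G.quo B Bs) hf⟩
  refine ⟨pv n w, ⟨_, ⟨n, w, g, hp.mono fun i hi => (mem_inter.1 (hs (mem_pe.2
    ⟨i, Nat.lt_succ_of_le hi, rfl⟩))).2, rfl, rfl⟩, or_iff_not_imp_right.2 fun hd => ?_⟩,
    hv ▸ mem_vs.2 ⟨e, me, hn ▸ a2⟩, fun N hN => ?_⟩
  · have k1 : ∀ v, nd Bs v ∈ pv n w → nd Bs v = {v} := fun v hv =>
      ((nd_cases hpd v).resolve_left (disjoint_left.1 (not_not.1 hd) hv)).2
    have ev : G.Ev (pe (n + 1) g) := fun v => by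
      refine Eq.trans (sum_congr rfl fun e he => ?_) (cc.2.1 {v})
      change _ = iv (nd Bs (G.s e) = {v}) + iv (nd Bs (G.t e) = {v})
      simp only [k1 _ (ms e he).1, k1 _ (ms e he).2, singleton_inj]
    rw [cC.min hc (hC.trans ins_sub_A) hs' ev ⟨e, me⟩]
    exact ho
  · obtain ⟨f, k1, rfl | rfl⟩ := mem_vs.1 (hv ▸ hN)
    exacts [⟨_, s_mem_vs (hs' k1), rfl⟩, ⟨_, t_mem_vs (hs' k1), rfl⟩]

/-- the rest of a side with one terminal is connected -/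
theorem kt_cn (hc : G.Cub) (hT : G.HT T) (hB : B ⊆ T) (hq : G.Q4 B a b c d) (h2 : 2 < B.card)
    (hM : M ⊆ B) (h4 : (G.cut M).card = 4) (h1 : G.cut M ∩ G.cut B = {c}) :
    G.Rch (G.ins (B \ M)) (G.ie B a) (G.ie B b) := by
  obtain ⟨ma, mb, mc, md⟩ := hq.mem
  have m : ∀ e ∈ G.cut B, e ≠ c → G.ie B e ∈ B \ M := fun e he k =>
    mem_sdiff.2 ⟨ie_mem (cut_sub_tch he), fun r =>
      k (mem_singleton.1 (h1 ▸ mem_inter.2 ⟨(IHa_cut hM he).2 r, he⟩))⟩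
  obtain ⟨k1, k2, k3, -⟩ := cmp_spec (G := G) (m a ma hq.2.2.1)
  by_contra k
  have k4 : G.ie B b ∈ (B \ M) \ G.cmp (B \ M) (G.ie B a) :=
    mem_sdiff.2 ⟨m b mb hq.2.2.2.2.1, fun r => k (mem_cmp.1 r).2⟩
  have k5 := cut_add (G := G) k2
  have k6 := Spl_card (G := G) hM
  rw [k3, card_empty] at k5
  rw [h1, card_singleton, hq.card, h4] at k6
  have s : B \ M ⊆ T := sdiff_subset.trans hB
  obtain ⟨c1, c2⟩ := hT _ (k2.trans s) ⟨_, k1⟩
  obtain ⟨c3, c4⟩ := hT _ (sdiff_subset.trans s) ⟨_, k4⟩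
  obtain ⟨v, hv⟩ := Spl_nonempty h4
  have nT : ∀ X ⊆ B \ M, X ≠ T := fun X hX r => (mem_sdiff.1 (hX (r.ge (hB (hM hv))))).2 hv
  have c5 := (c2 (by omega)).resolve_right (nT _ k2)
  have c6 := (c4 (by omega)).resolve_right (nT _ sdiff_subset)
  have dv := fun e f he hf => @HT.f2 V E _ _ _ G T B e f hc hT hB hq.card h2 he hf
  by_cases r : G.ie B d ∈ G.cmp (B \ M) (G.ie B a)
  · exact dv _ _ ma md hq.2.2.2.1 (card_le_one.1 c5.le _ k1 _ r)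
  · exact dv _ _ mb md hq.2.2.2.2.2.1 (card_le_one.1 c6.le _ k4 _
      (mem_sdiff.2 ⟨m d md hq.2.2.2.2.2.2.symm, r⟩))

theorem kt_one (hc : G.Cub) (hT : G.HT T) (hM : G.ThM T) (hx : G.PkA T xf) (hB : B ⊆ T)
    (hu : G.US B) (hq : G.Q4 B a b c d)
    (hN : ∀ X ⊆ B, (G.cut X).card = 4 → (G.cut X ∩ G.cut B).card ≠ 2) (s1 : M ⊆ B) (u1 : G.US M)
    (ne : M ≠ B) (hm : c ∈ G.cut M) : ∃ s, G.Pw0 B a b s := by
  have : Nonempty E := ⟨a⟩
  obtain ⟨ma, mb, mc, md⟩ := hq.mem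
  have h2 : 2 < B.card := by have := hT.us_card hc hB hu; omega
  obtain ⟨B0, h0⟩ := IHa_box hc hT hB hq.card hN
  obtain ⟨Bs, hS⟩ := hT.boxes hc hB (J := {a, b}) card_le_two
  have cu : ∀ X ⊆ B, G.cut X ⊆ G.ins B ∪ G.cut B := fun X hX e he => by
    have := @hX (G.s e)
    have := @hX (G.t e)
    simp only [mem_union, mem_cut, mem_ins] at he ⊢
    grind
  obtain ⟨N, n1, n2⟩ := h0.2.2 M ⟨u1, ne⟩ s1 (cu M s1)
  obtain ⟨⟨u2, ne2⟩, s2, -⟩ := h0.1 N n1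
  have tc : G.ie B c ∈ N := n2 ((IHa_cut s1 mc).1 hm)
  have nc : c ∉ ({a, b} : Finset E) := by simp [hq.2.2.1.symm, hq.2.2.2.2.1.symm]
  have h1 : G.cut N ∩ G.cut B = {c} := eq_singleton_iff_unique_mem.2
    ⟨mem_inter.2 ⟨(IHa_cut s2 mc).2 tc, mc⟩, fun e he => card_le_one.1
      ((IHa_crs hT hB hq.card h2 hN s2 ⟨_, tc⟩ ne2).2.2 u2.1) _ he _
      (mem_inter.2 ⟨(IHa_cut s2 mc).2 tc, mc⟩)⟩
  have key : ∀ v ∈ B, v ∉ N → Disjoint (nd Bs v) N := fun v hv k => by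
    rcases nd_cases hS.2.1 v with r | r
    · by_contra r'
      exact k (h0.max n1 ⟨(hS.1 _ r).1, (hS.ssub r mc nc).ne⟩ (hS.1 _ r).2.1
        (cu _ (hS.1 _ r).2.1) r' mem_nd_self)
    · exact r.2 ▸ disjoint_singleton_left.2 k
  have c4 := hT.us_card hc (s2.trans hB) u2
  obtain ⟨C, c1, c2, c3, c5⟩ := oddc hc (hT.f3 (s2.trans hB) u2.1 (by omega)) u2.2 tc
  obtain ⟨H, r1, r2, r3⟩ := kt_ring hc hT hB hS.2.1 (c1.trans (ins_mono s2)) c2 c3 c5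
    (KF_nd hc hT hB hu hq hS).1
  have w : ∀ v ∈ B \ N, nd Bs v ∉ H := fun v hv r => by
    obtain ⟨u, k1, k2⟩ := r3 _ r
    exact disjoint_left.1 (key v (mem_sdiff.1 hv).1 (mem_sdiff.1 hv).2) (k2 ▸ mem_nd_self)
      ((sub_ins_iff.1 c1).2 k1)
  obtain ⟨X, R, p1, p2, -⟩ := Rv.pw (G := G.quo B Bs) (quo_rch_avo sdiff_subset w
    (kt_cn hc hT hB hq h2 s2 u2.1 h1)) (w _ (mem_sdiff.2 ⟨ie_mem (cut_sub_tch ma), fun r =>
      hq.2.2.1 (mem_singleton.1 (h1 ▸ mem_inter.2 ⟨(IHa_cut s2 ma).2 r, ma⟩))⟩))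
  exact kf_fam hc hT hM hB hu hq hS hx p1 r1 r2 p2

/-- no proper side contains a terminal -/
theorem ns_term (hc : G.Cub) (hT : G.HT T) (hM : G.ThM T) (hx : G.PkA T xf) (hB : B ⊆ T)
    (hu : G.US B) (hq : G.Q4 B a b c d) (n1 : G.NC B a b) (n2 : G.NC B a c) (n3 : G.NC B a d)
    (p1 : ∀ s, ¬ G.Pw0 B a b s) (p2 : ∀ s, ¬ G.Pw0 B a c s) (p3 : ∀ s, ¬ G.Pw0 B b c s) :
    ∀ M ⊆ B, G.US M → M ≠ B → G.cut M ⊆ G.ins B := by
  intro M s1 u1 ne e he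
  have hN := IHa_ns hq n1 n2 n3
  have k : ∀ {x y z w : E}, G.Q4 B x y z w → (∀ s, ¬ G.Pw0 B x y s) → z ∉ G.cut M :=
    fun q p r => (kt_one hc hT hM hx hB hu q hN s1 u1 ne r).elim p
  refine (mem_tch_iff.1 (tch_mono s1 (cut_sub_tch he))).resolve_right fun r => ?_
  rw [hq.1] at r
  simp only [mem_insert, mem_singleton] at r
  rcases r with rfl | rfl | rfl | rfl
  exacts [k hq.swap1.mid p3 he, k hq.mid p2 he, k hq p1 he, k hq.swap2 p1 he]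

/-- one family of boxes for all pairs -/
theorem ns_bx (hc : G.Cub) (hT : G.HT T) (hB : B ⊆ T) (h4 : (G.cut B).card = 4)
    (h : ∀ M ⊆ B, G.US M → M ≠ B → G.cut M ⊆ G.ins B) :
    ∃ Bs, ∀ J : Finset E, J.card ≤ 3 → G.Bx G.AU B J Bs := by
  obtain ⟨Bs, hS⟩ := hT.boxes hc hB (J := ∅) (Nat.zero_le _)
  refine ⟨Bs, fun J hJ => ⟨fun N k => ⟨(hS.1 N k).1, (hS.1 N k).2.1,
    (hS.1 N k).2.2.trans (union_subset_union_right (empty_subset _))⟩, hS.2.1,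
    fun S k1 k2 k3 => hS.2.2 S k1 k2 ((h S k2 k1 ?_).trans subset_union_left)⟩⟩
  rintro rfl
  have := card_le_card (show G.cut S ⊆ J from fun e he =>
    (mem_union.1 (k3 he)).resolve_left (not_ins_of_cut he))
  omega

end SG

end Pool.Agent.Work.MP_8c679b_co
end

-- merged part: Pool.Agent.Work.MP_8c679b_co.A3.KO
section
/-!
A side without proper sides and without passes of the wrong parity is a seed.
-/

set_option autoImplicit false

namespace Pool.Agent.Work.MP_8c679b_co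

open Finset

namespace SG

variable {V E : Type} [Fintype V] [DecidableEq V] [DecidableEq E] {G : SG V E}
  {T B : Finset V} {H : Finset (Finset V)} {C F : Finset E} {a b c d x y : E}
  {xf : Finset V → E → E → ZMod 2 → Finset V}

omit [Fintype V] [DecidableEq E] in
theorem ko_nd (v : V) : nd ∅ v = {v} := nd_of_not fun N h => absurd h (notMem_empty N)

theorem ko_at {e : E} {v : V} (he : e ∈ (G.quo B ∅).A) (h : (G.quo B ∅).At e {v}) :
    e ∈ G.ins B ∧ e ∈ G.cut {v} :=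
  ko_nd v ▸ (quo_at (G := G) fun N k => absurd k (notMem_empty N)).1 ⟨he, (ko_nd v).symm ▸ h⟩

/-- the way from a terminal to the ring -/
theorem ko_out (hc : G.Cub) (hT : G.HT T) (hB : B ⊆ T) (h4 : (G.cut B).card = 4)
    (hH : (G.quo B ∅).Cw H F) (md : d ∈ G.cut B) (hd : {G.ie B d} ∈ H) (mx : x ∈ G.cut B) :
    ∃ p ∈ B, {p} ∈ H ∧ ∃ X R, (G.quo B ∅).Pw {G.ie B x} {p} X R ∧ (∀ v ∈ X, v ∈ H → v = {p}) ∧
      ∃ e ∈ G.cut {p}, e ∉ F ∧ (e = x ∨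
        (e ∈ G.ins B ∧ ∃ w ∈ X, w ∉ H ∧ (G.quo B ∅).Je e {p} w)) := by
  have : Nonempty E := ⟨x⟩
  have k := quo_rch (Ns := ∅) Subset.rfl
    (hT.cn4 hc hB h4 _ (ie_mem (cut_sub_tch mx)) _ (ie_mem (cut_sub_tch md)))
  rw [ko_nd, ko_nd] at k
  obtain ⟨X0, R0, p0, -⟩ := k.pw inter_subset_right
  obtain ⟨N, X, R, -, -, k1, k2, -, -, -, -, -, k3⟩ :=
    p0.first (M := H) fun r => disjoint_left.1 r p0.right hd
  by_cases r : {G.ie B x} = N
  · subst r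
    exact ⟨_, ie_mem (cut_sub_tch mx), k1, X, R, k2, k3, x, (mem_inter.1 (Cut_ie mx rfl)).1,
      fun r => not_ins_of_cut mx (mem_quo.1 (hH.sub r)).1, Or.inl rfl⟩
  obtain ⟨e, w, Y, F', e1, e2, e3, e4, rfl, -⟩ := k2.symm.head (Ne.symm r)
  obtain ⟨p, hp, rfl⟩ := Quo_node e1 e2.symm
  rw [ko_nd] at *
  have e5 : w ∉ H := fun r => e4 (k3 w (mem_insert_of_mem e3.left) r ▸ e3.left)
  obtain ⟨e6, e7⟩ := ko_at e1 (e2.at_iff.2 (Or.inl rfl))
  exact ⟨p, hp, k1, _, R, k2, k3, e, e7, fun r => e5 (hH.ends r (e2.at_iff.2 (Or.inr rfl))),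
    Or.inr ⟨e6, w, mem_insert_of_mem e3.left, e5, e2⟩⟩

/-- two terminals are not joined off a valid ring through the fourth terminal -/
theorem ko_sep (hc : G.Cub) (hT : G.HT T) (hM : G.ThM T) (hx : G.PkA T xf) (hB : B ⊆ T)
    (hu : G.US B) (hq : G.Q4 B a b c d) (h0 : G.Bx G.AU B {a, b} ∅)
    (hH : (G.quo B ∅).Vr ∅ H) (hd : {G.ie B d} ∈ H) (p : ∀ s, ¬ G.Pw0 B a b s)
    (ha : {G.ie B a} ∉ H) : ¬ (G.quo B ∅).Rv H {G.ie B a} {G.ie B b} := fun r => by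
  have : Nonempty E := ⟨a⟩
  obtain ⟨X, R, p1, p2, -⟩ := r.pw ha
  rw [← ko_nd, ← ko_nd] at p1
  exact (kf_fam hc hT hM hB hu hq.swap2 h0 hx p1 hH hd p2).elim p

/-- an odd circuit off the ring is joined to one of two terminals -/
theorem ko_key (hc : G.Cub) (hT : G.HT T) (hM : G.ThM T) (hx : G.PkA T xf) (hB : B ⊆ T)
    (hu : G.US B) (hq : G.Q4 B a b c d) (h0 : G.Bx G.AU B {a, b} ∅)
    (hH : (G.quo B ∅).Vr ∅ H) (hd : {G.ie B d} ∈ H) (p : ∀ s, ¬ G.Pw0 B a b s)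
    (hC : C ⊆ G.ins B) (cC : G.Cc C) (ho : G.par C = 1) (hv : ∀ v ∈ G.vs C, {v} ∉ H) :
    ∃ e, (e = a ∨ e = b) ∧ {G.ie B e} ∉ H ∧ ∃ v ∈ G.vs C, (G.quo B ∅).Rv H {G.ie B e} {v} := by
  have : Nonempty E := ⟨a⟩
  by_contra hn
  obtain ⟨ma, mb, mc, md⟩ := hq.mem
  have sep := ko_sep hc hT hM hx hB hu hq h0 hH hd p
  obtain ⟨F, hF, -⟩ := hH
  obtain ⟨u, u1, u2, X, R, x1, x2, e, e1, e2, e3⟩ := ko_out hc hT hB hq.card hF md hd ma
  obtain ⟨w, w1, w2, Y, R', y1, y2, f, f1, f2, f3⟩ := ko_out hc hT hB hq.card hF md hd mb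
  have rv : ∀ {N N' X R}, (G.quo B ∅).Pw N N' X R → (∀ v ∈ X, v ∈ H → v = N') →
      ∀ v ∈ X, v ∉ H → N ∉ H ∧ (G.quo B ∅).Rv H N v := fun k1 k2 v k3 k4 => by
    have := QG.edo_rv k1 k2 (disjoint_empty_right _) k3 k4
    rw [union_empty] at this
    exact ⟨this.symm.not_mem k4, this⟩
  have dj : ∀ v ∈ X, v ∈ Y → v ∈ H := fun v k1 k2 => by_contra fun k =>
    sep (rv x1 x2 v k1 k).1 ((rv x1 x2 v k1 k).2.trans (rv y1 y2 v k2 k).2.symm)
  have ne : ({u} : Finset V) ≠ {w} := fun r => by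
    obtain rfl := singleton_injective r
    have c1 := hF.deg u2
    have c2 : F ∩ (G.quo B ∅).cut {{u}} ⊆ G.cut {u} ∩ F := fun g hg => by
      obtain ⟨g1, g2⟩ := mem_inter.1 hg
      exact mem_inter.2 ⟨(ko_at (hF.sub g1) ((mem_cut_single (hF.deg_nl g1)).1 g2).2).2, g1⟩
    have c3 := card_le_card c2
    have c4 := card_sdiff_add_card_inter (G.cut {u}) F
    rw [(hT.vtx hc (hB u1)).1] at c4
    obtain rfl := card_le_one.1 (show (G.cut {u} \ F).card ≤ 1 by omega) _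
      (mem_sdiff.2 ⟨e1, e2⟩) _ (mem_sdiff.2 ⟨f1, f2⟩)
    rcases e3 with rfl | ⟨j1, v, j2, j3, j4⟩ <;> rcases f3 with r | ⟨l1, v', l2, l3, l4⟩
    · exact hq.2.1 r
    · exact not_ins_of_cut ma l1
    · exact not_ins_of_cut mb (r ▸ j1)
    · rcases sx_ends j4 l4 with r | r
      · exact j3 (dj v j2 (r.2 ▸ l2))
      · exact j3 (r.2 ▸ u2)
  obtain ⟨X1, F1, X2, F2, a1, -, rfl, -, -, -, -, a2⟩ := hF.arcs u2 w2 ne hd
  have q1 := (x1.cat a1 fun v k1 k2 => x2 v k1 (mem_union_left _ k2)).1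
  have q2 := (q1.cat y1.symm fun v k1 k2 => y2 v k2
    ((mem_union.1 k1).elim (fun k => dj v k k2) (mem_union_left _))).1
  rw [← ko_nd, ← ko_nd] at q2
  refine (kf_key hc hT hM hB hu hq.swap2 h0 hx q2
    (mem_union_left _ (mem_union_right _ a2)) (cC.not_bal ho (sub_ins_iff.2
      ⟨hC.trans ins_sub_A, fun v k => mem_sdiff.2 ⟨(sub_ins_iff.1 hC).2 k, fun r => ?_⟩⟩))).elim p
  have r := (mem_un.1 r).2
  rw [ko_nd, mem_union, mem_union] at r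
  rcases r with (r | r) | r
  · exact hn ⟨a, Or.inl rfl, (rv x1 x2 _ r (hv v k)).1, v, k, (rv x1 x2 _ r (hv v k)).2⟩
  · exact hv v k (mem_union_left _ r)
  · exact hn ⟨b, Or.inr rfl, (rv y1 y2 _ r (hv v k)).1, v, k, (rv y1 y2 _ r (hv v k)).2⟩

theorem ns_zero (hc : G.Cub) (hT : G.HT T) (hM : G.ThM T) (hx : G.PkA T xf) (hB : B ⊆ T)
    (hu : G.US B) (hq : G.Q4 B a b c d) (h0 : ∀ S ⊆ B, G.US S → S = B)
    (p1 : ∀ s, ¬ G.Pw0 B a b s) (p2 : ∀ s, ¬ G.Pw0 B a c s) (p3 : ∀ s, ¬ G.Pw0 B b c s) :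
    G.S4 B := by
  have : Nonempty E := ⟨a⟩
  obtain ⟨ma, mb, mc, md⟩ := hq.mem
  have c4 := hT.us_card hc hB hu
  have bx : ∀ x y, G.Bx G.AU B {x, y} ∅ := fun x y => ⟨fun N k => absurd k (notMem_empty N),
    fun N k => absurd k (notMem_empty N), fun S k1 k2 k3 => by
      obtain rfl := h0 S k2 k1
      have := card_le_card (show G.cut S ⊆ {x, y} from fun e he =>
        (mem_union.1 (k3 he)).resolve_left (not_ins_of_cut he))
      have := card_le_two (a := x) (b := y)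
      have := hq.card
      omega⟩
  obtain ⟨Z, z1, z2, z3, z4⟩ := oddc hc (hT.f3 hB hq.card (by omega)) hu.2
    (ie_mem (cut_sub_tch md))
  obtain ⟨H, r1, r2, r3⟩ := kt_ring hc hT hB (bx a b).2.1 z1 z2 z3 z4 (ko_nd _)
  have w : ∀ v ∈ B \ G.vs Z, nd ∅ v ∉ H := fun v hv r => by
    obtain ⟨u, k1, k2⟩ := r3 _ r
    rw [ko_nd, ko_nd] at k2
    exact (mem_sdiff.1 hv).2 (singleton_injective k2 ▸ k1)
  have s1 := ko_sep hc hT hM hx hB hu hq (bx a b) r1 r2 p1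
  have s2 := ko_sep hc hT hM hx hB hu hq.mid (bx a c) r1 r2 p2
  have s3 := ko_sep hc hT hM hx hB hu hq.swap1.mid (bx b c) r1 r2 p3
  have sep : ∀ e ∈ G.cut B, ∀ f ∈ G.cut B, {G.ie B e} ∉ H →
      (G.quo B ∅).Rv H {G.ie B e} {G.ie B f} → e = f := fun e he f hf k1 k2 => by
    have k3 := k2.not_mem k1
    have k4 := k2.symm
    rw [hq.1] at he hf
    simp only [mem_insert, mem_singleton] at he hf
    rcases he with rfl | rfl | rfl | rfl <;> rcases hf with rfl | rfl | rfl | rfl <;>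
      first | rfl | contradiction | exact absurd k2 (s1 k1) | exact absurd k2 (s2 k1) |
        exact absurd k2 (s3 k1) | exact absurd k4 (s1 k3) | exact absurd k4 (s2 k3) |
        exact absurd k4 (s3 k3)
  refine ce_odd hc hT hB z1 z2 z3 ?_ (fun e he f hf k1 k2 k3 => ?_) ma h0
  · by_contra hb
    obtain ⟨C, c1, c2, c3⟩ := exists_odd_cc hb
    have c5 := c1.trans (ins_mono sdiff_subset)
    have c6 : ∀ v ∈ G.vs C, {v} ∉ H := fun v hv => ko_nd v ▸ w v ((sub_ins_iff.1 c1).2 hv)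
    have c7 : ∀ e ∈ G.cut B, ∀ f ∈ G.cut B, {G.ie B e} ∉ H →
        (∃ v ∈ G.vs C, (G.quo B ∅).Rv H {G.ie B e} {v}) →
        (∃ v ∈ G.vs C, (G.quo B ∅).Rv H {G.ie B f} {v}) → e = f :=
      fun e he f hf k ⟨u, u1, u2⟩ ⟨v, v1, v2⟩ => by
        have := quo_rch_avo sdiff_subset w ((c2.2.2 u u1 v v1).mono c1)
        rw [ko_nd, ko_nd] at this
        exact sep e he f hf k ((u2.trans this).trans v2.symm)
    obtain ⟨-, n1, n2, -, n3, -⟩ := id hq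
    obtain ⟨e, e1, e2⟩ := ko_key hc hT hM hx hB hu hq (bx a b) r1 r2 p1 c5 c2 c3 c6
    rcases e1 with rfl | rfl
    · obtain ⟨f, f1, f2⟩ := ko_key hc hT hM hx hB hu hq.swap1.mid (bx b c) r1 r2 p3 c5 c2 c3 c6
      rcases f1 with rfl | rfl
      exacts [n1 (c7 _ ma _ mb e2.1 e2.2 f2.2), n2 (c7 _ ma _ mc e2.1 e2.2 f2.2)]
    · obtain ⟨f, f1, f2⟩ := ko_key hc hT hM hx hB hu hq.mid (bx a c) r1 r2 p2 c5 c2 c3 c6
      rcases f1 with rfl | rfl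
      exacts [n1 (c7 _ mb _ ma e2.1 e2.2 f2.2).symm, n3 (c7 _ mb _ mc e2.1 e2.2 f2.2)]
  · have := quo_rch_avo sdiff_subset w k3
    have k4 := w _ (ie_mem (cut_sub_tch he))
    rw [(cut_of_sub sdiff_subset k1 (cut_sub_tch he)).2, ko_nd] at this k4
    rw [(cut_of_sub sdiff_subset k2 (cut_sub_tch hf)).2, ko_nd] at this
    exact sep e k1 f k2 k4 this

end SG

end Pool.Agent.Work.MP_8c679b_co
end

-- merged part: Pool.Agent.Work.MP_8c679b_co.A3.E7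
section
/-!
The final configurations that close by rings.
-/

set_option autoImplicit false

namespace Pool.Agent.Work.MP_8c679b_co

open Finset

namespace SG

variable {V E : Type} [Fintype V] [DecidableEq V] [DecidableEq E] {G : SG V E}
  {T W W' X X' X1 X2 X3 Y N N2 N3 B : Finset V} {Bs H D M : Finset (Finset V)} {v0 v : V}
  {O O' O2 O3 F L L1 L2 : Finset E} {K K' : Set (Finset E)} {a b c d a2 b2 c2 d2 a3 b3 c3 d3 : E}
  {ε ε1 ε2 g l s s2 π : ZMod 2} {C C' : Rl → Prop} {fr : Prop}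
  {xf : Finset V → E → E → ZMod 2 → Finset V}

/-- two odd seeds and an object-free rest -/
theorem E7a_two (h : G.Eh T Bs v0) (r1 : Rgn T Bs X1) (r2 : Rgn T Bs X2) (hd : Disjoint X1 X2)
    (p1 : G.Ea0 Bs X1 ∅ 1) (p2 : G.Ea0 Bs X2 ∅ 1) (hM : ∀ v ∈ T \ (X1 ∪ X2), nd Bs v ∉ M)
    (hg : (G.quo T Bs).Goo (G.tq T) M) (ho : (G.quo T Bs).Ofr Bs M) : G.Rall T 0 1 := by
  have p := (ea_seq (L := ∅) r1 hd (by simp) (by simp) (by simp)).2.2 p1 p2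
  refine h.seed (r1.union r2) (p.one v0) (h.gd2_goo sdiff_subset hM hg) (Or.inr ?_)
  rw [(nu_bal (h.bal_ofr sdiff_subset hM ho)).1]
  decide

theorem E7a_nu (h : G.Eh T Bs v0) (hB : B ∈ Bs) (hn : B ∉ H)
    (ho : (G.quo T Bs).Ofr Bs (insert B H)) :
    G.FH (T \ un T Bs H) ∨ G.nu (T \ un T Bs H) = 1 := by
  obtain ⟨b1, b2, -⟩ := h.hy.bx B hB
  refine nu_one h.hc h.hT.1 sdiff_subset (fun v hv => mem_sdiff.2 ⟨b1 hv, fun k => hn ?_⟩) b2
    (h.bal_ofr (sdiff_subset.trans sdiff_subset) (fun v hv k => ?_) ho)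
  · exact nd_of_mem h.hy.pd hB hv ▸ (mem_un.1 k).2
  · obtain ⟨v1, v2⟩ := mem_sdiff.1 hv
    obtain ⟨v3, v4⟩ := mem_sdiff.1 v1
    rcases mem_insert.1 k with k | k
    exacts [v2 (k ▸ mem_nd_self), v4 (mem_un.2 ⟨v3, k⟩)]

/-- HINT: `Eh.seed_odd` twice, `ea_seq`, `Eh.seed`. -/
theorem z0_even (h : G.Eh T Bs v0) (hz : (G.quo T Bs).Z0 Bs (G.tq T)) : G.Rall T 0 1 := by
  obtain ⟨hB, X1, X2, o1, o2, hd, hg, ho⟩ := hz
  refine E7a_two h (h.rgn_un X1) (h.rgn_un X2)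
    (disjoint_left.2 fun v k1 k2 => disjoint_left.1 hd (mem_un.1 k1).2 (mem_un.1 k2).2)
    (h.seed_odd o1 (hB ▸ disjoint_empty_right _)) (h.seed_odd o2 (hB ▸ disjoint_empty_right _))
    (fun v hv k => ?_) hg ho
  obtain ⟨v1, v2⟩ := mem_sdiff.1 hv
  exact v2 (mem_union.2 ((mem_union.1 k).imp (fun k => mem_un.2 ⟨v1, k⟩) fun k => mem_un.2 ⟨v1, k⟩))

/-- HINT: `Eh.eb_free`, `Eh.seed_odd`, `Eh.ss`. -/
theorem z1_even (h : G.Eh T Bs v0) (hx : G.PkA T xf) (hz : (G.quo T Bs).Z1 Bs (G.tq T)) :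
    G.Rall T 0 1 := by
  obtain ⟨B, X1, F1, X2, hB, c1, m1, o2, hd, hg, ho⟩ := hz
  have e : ∀ N ∈ Bs, N = B := fun N hN => mem_singleton.1 (hB ▸ hN)
  exact h.ss (h.rgn_un X2)
    (h.eb_free hx c1 hd (hB ▸ mem_singleton_self B) m1 (fun N hN _ => e N hN) hg ho)
    ((h.seed_odd o2 (disjoint_right.2 fun N hN => e N hN ▸ disjoint_left.1 hd m1)).eb v0)

/-- HINT: `BNu.lp`: `Eh.eb_one` with `fr = False`.  `BTh`: the seeds `B` and `un T Bs X2`. -/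
theorem z2_even (h : G.Eh T Bs v0) (hb : G.BoxH T Bs) (hz : (G.quo T Bs).Z2 Bs (G.tq T)) :
    G.Rall T 0 1 := by
  obtain ⟨B, a, b, c, d, X1, F1, X2, hB, q, c1, ha, hb', o2, hd, g1, f1, hm, g2, f2⟩ := hz
  have e : ∀ N ∈ Bs, N = B := fun N hN => mem_singleton.1 (hB ▸ hN)
  have mB : B ∈ Bs := hB ▸ mem_singleton_self B
  have q' := h.q4 mB q
  have n2 : B ∉ X2 := disjoint_left.1 hd (h.on_ring mB c1 ha (by rw [q'.1]; simp))
  have p2 := h.seed_odd o2 (disjoint_right.2 fun N hN => e N hN ▸ n2)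
  rcases hb B mB a b c d q' hm with ⟨k, -⟩ | k
  · exact h.ss (h.rgn_un X2) (h.eb_one c1 hd mB q' ha hb' (fun N hN _ => e N hN) (k.lp c d _) g1
      False.elim f1) (p2.eb v0)
  · refine E7a_two h (h.ea_box mB).1 (h.rgn_un X2)
      (disjoint_left.2 fun v k1 k2 => n2 (nd_of_mem h.hy.pd mB k1 ▸ (mem_un.1 k2).2))
      (h.seed_th mB k) p2 (fun v hv k => ?_) g2 f2
    obtain ⟨v1, v2⟩ := mem_sdiff.1 hv
    exact v2 (mem_union.2 ((mem_insert.1 k).imp (fun k : nd Bs v = B => k ▸ mem_nd_self)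
      fun k => mem_un.2 ⟨v1, k⟩))

/-- HINT: `nu_one` for `W = T \ un T Bs X1`; `Eh.seed` or `Eh.can_one` with `D = ∅`. -/
theorem z3_even (h : G.Eh T Bs v0) (hx : G.PkA T xf) (hz : (G.quo T Bs).Z3c Bs (G.tq T)) :
    G.Rall T 0 1 := by
  obtain ⟨B, X1, F1, c1, nB, ho, ⟨hB, p1, hg⟩ | ⟨B1, hB, m1, hg⟩⟩ := hz
  · refine h.seed (h.rgn_un X1) ((h.seed_odd ⟨F1, c1, p1⟩ (disjoint_right.2 fun N hN =>
      mem_singleton.1 (hB ▸ hN) ▸ nB)).one v0) (h.gd2_goo sdiff_subset (fun v hv k => ?_) hg)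
      ((E7a_nu h (hB ▸ mem_singleton_self B) nB ho).imp id fun k => by rw [k]; decide)
    exact (mem_sdiff.1 hv).2 (mem_un.2 ⟨(mem_sdiff.1 hv).1, k⟩)
  · have m : B1 ∈ Bs := hB ▸ mem_insert_self _ _
    obtain ⟨a, b, c, d, q, ha, hb⟩ := h.ring_q4 m c1 m1
    obtain ⟨b1, b2, -⟩ := h.hy.bx B1 m
    have k := (h.can_one c1 (disjoint_empty_right _) m q ha hb (fun N hN hm => ?_)
      (lp_free (hx B1 b1 b2 a b c d q) _) (hg.sup ((erase_subset _ _).trans subset_union_left))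
      (fun _ => by rwa [union_empty])).2 0 ?_
    · rw [show un T Bs ∅ = ∅ by simp [un], sdiff_empty] at k
      exact h.rall k
    · rw [hB, mem_insert, mem_singleton] at hN
      exact hN.resolve_right fun r => nB (r ▸ hm)
    · rw [union_empty]
      exact (E7a_nu h (hB ▸ mem_insert_of_mem (mem_singleton_self B)) nB ho).imp id
        fun k => by rw [k]; decide

/-- a ring on which `N` is passed completely and `N2` is free -/
theorem E7b_two (h : G.Eh T Bs v0) (hx : G.PkA T xf) (hN : N ∈ Bs) (hN2 : N2 ∈ Bs) (hne : N ≠ N2)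
    (hB : ∀ B ∈ Bs, B = N ∨ B = N2 ∨ B ∈ D) (hq : G.Q4 N a b c d) (h2 : a2 ∈ G.cut N2)
    (hr : (G.quo T Bs).Hr Bs (G.tq T) D N N2 a b a2 b2 H F) (hp : ∃ s, G.Lp N a b c d s False) :
    G.Eb Bs (T \ un T Bs D) (G.ins T) := by
  obtain ⟨r1, r2, r3, r4, -, r6, r7, -, r9⟩ := hr
  obtain ⟨s, hp⟩ := hp
  refine h.eb_two hx r1 r6 hN2 (h.on_ring hN2 r1 r4 h2) hN hne hq r2 r3 (fun B k k' => ?_) hp r9 r7
  rcases hB B k with l | l | l
  exacts [Or.inr l, Or.inl l, absurd l (disjoint_left.1 r6 k')]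

/-- HINT: first case `Eh.eb_fr2`.  Second case `Eh.eb_two` with `B1` complete and `B2` free: `B1` is
a four-cycle (`bx_four`, `BCt.lp`), or not a chain for `p1, q1`, or not a chain for `p1, h1`
(`cross_nc`; second ring); `bx_nc`, `BNu.lp`. -/
theorem Eh.eb_hx {p1 q1 g1 h1 p2 q2 g2 h2 : E} (h : G.Eh T Bs v0) (hx : G.PkA T xf)
    (hI : G.IHd T) (hN : N ∈ Bs) (hN2 : N2 ∈ Bs) (hB : ∀ B ∈ Bs, B = N ∨ B = N2 ∨ B ∈ D)
    (hz : (G.quo T Bs).Hx Bs (G.tq T) D N N2 p1 q1 g1 h1 p2 q2 g2 h2) :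
    G.Eb Bs (T \ un T Bs D) (G.ins T) := by
  obtain ⟨hne, k1, k2, X, F, hr, hz⟩ := hz
  have k1 := h.q4 hN k1
  have k2 := h.q4 hN2 k2
  obtain ⟨hT, hu, -⟩ := h.hy.bx N hN
  have hI' : G.IHd N := fun S k => hI S (k.trans hT)
  rcases hz with ⟨z1, z2⟩ | ⟨X', F', hr'⟩
  · obtain ⟨r1, r2, -, r4, -, r6, r7, -⟩ := hr
    refine h.eb_fr2 hx r1 r6 hN (h.on_ring hN r1 r2 k1.mem.1) hN2 (h.on_ring hN2 r1 r4 k2.mem.1)
      hne.symm (fun B k k' => ?_) z1 z2 r7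
    exact (hB B k).imp_right fun l => l.resolve_right (disjoint_left.1 r6 k')
  by_cases h4 : N.card = 4
  · exact E7b_two h hx hN hN2 hne hB k1 k2.mem.1 hr ((bx_four h.hc h.hT.1 hT hu k1 h4).2.lp _ _)
  by_cases hn : G.NC N p1 q1
  · exact E7b_two h hx hN hN2 hne hB k1 k2.mem.1 hr
      ⟨0, (bx_nc h.hc h.hT.1 hT hu k1 hI' hn).lp _ _ 0⟩
  obtain ⟨Z, hZ⟩ := not_forall_not.1 hn
  exact E7b_two h hx hN hN2 hne hB k1.swap2.mid k2.mem.1 hr' ⟨0, (bx_nc h.hc h.hT.1 hT hu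
    k1.swap2.mid hI' (cross_nc h.hc h.hT.1 hT k1 hZ h4).2.1).lp _ _ 0⟩

theorem z9_even (h : G.Eh T Bs v0) (hx : G.PkA T xf) (hI : G.IHd T)
    (hz : (G.quo T Bs).Z9 Bs (G.tq T)) : G.Rall T 0 1 := by
  obtain ⟨D, B1, B2, p1, q1, g1, h1, p2, q2, g2, h2, e, hD, hz⟩ := hz
  have m1 : B1 ∈ Bs := by simp [e]
  have m2 : B2 ∈ Bs := by simp [e]
  have hB : ∀ B ∈ Bs, B = B1 ∨ B = B2 := fun B k => by simpa [e] using k
  refine h.ss (h.rgn_un D) (h.eb_hx hx hI m1 m2 (fun B k => (hB B k).imp_right Or.inl) hz)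
    ((h.seed_odd hD (disjoint_right.2 fun B k => ?_)).eb v0)
  obtain ⟨-, k1, k2, X, F, ⟨r1, r2, -, r4, -, r6, -⟩, -⟩ := hz
  rcases hB B k with rfl | rfl
  exacts [disjoint_left.1 r6 (h.on_ring m1 r1 r2 (h.q4 m1 k1).mem.1),
    disjoint_left.1 r6 (h.on_ring m2 r1 r4 (h.q4 m2 k2).mem.1)]

/-- three boxes on a ring through two terminals, not both of the last two are diagonal -/
theorem E7b_ring (h : G.Eh T Bs v0) (hH : (G.quo T Bs).Mr (G.tq T) a b H F) (hN : N ∈ Bs)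
    (hq : G.Q4 N a b c d) (hN2 : N2 ∈ Bs) (hne : N2 ≠ N) (hq2 : G.Q4 N2 a2 b2 c2 d2)
    (ha2 : a2 ∈ F) (hb2 : b2 ∈ F) (hN3 : N3 ∈ Bs) (hne3 : N3 ≠ N) (h23 : N2 ≠ N3)
    (hq3 : G.Q4 N3 a3 b3 c3 d3) (ha3 : a3 ∈ F) (hb3 : b3 ∈ F)
    (h1 : ∀ B ∈ Bs, B = N ∨ B = N2 ∨ B = N3) (hj : G.BAj N a b c d) (n1 : ¬ G.Qd N a b)
    (hn : G.Qd N2 a2 b2 → ¬ G.Qd N3 a3 b3) : G.Rall T 0 1 := by
  obtain ⟨t2, u2, -⟩ := h.hy.bx N2 hN2
  obtain ⟨t3, u3, -⟩ := h.hy.bx N3 hN3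
  by_cases n2 : G.Qd N2 a2 b2
  · exact h.adj3 ⟨hH.1, hH.2.1, ha2, hb2⟩ hN2 hq2 hN hne.symm hq hH.2.2.1 hH.2.2.2 hN3 h23.symm
      hne3.symm hq3 ha3 hb3 (fun B k => by have := h1 B k; tauto)
      (bx_qd h.hc h.hT.1 t2 u2 hq2 n2).2 n1 (hn n2) 0
  by_cases n3 : G.Qd N3 a3 b3
  · exact h.adj3 ⟨hH.1, hH.2.1, ha3, hb3⟩ hN3 hq3 hN hne3.symm hq hH.2.2.1 hH.2.2.2 hN2 h23
      hne.symm hq2 ha2 hb2 (fun B k => by have := h1 B k; tauto)
      (bx_qd h.hc h.hT.1 t3 u3 hq3 n3).2 n1 n2 0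
  exact h.adj3 hH hN hq hN2 hne hq2 ha2 hb2 hN3 hne3 h23 hq3 ha3 hb3 h1 hj n2 n3 0

/-- HINT: `B` a four-cycle or `BTh`: `Eh.eb_hx`, `Eh.ss`.  Else `B` is an adjuster for `a, b` and not
`Qd`: `Eh.adj3` on the first ring unless both `B1, B2` are `Qd` there (a single one is the adjuster,
`bx_qd`), else on the second ring (`HT.qd_mid`). -/
theorem z10_even (h : G.Eh T Bs v0) (hx : G.PkA T xf) (hI : G.IHd T) (hb : G.BoxH T Bs)
    (hz : (G.quo T Bs).Z10 Bs (G.tq T)) : G.Rall T 0 1 := by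
  obtain ⟨B, B1, B2, a, b, c, d, p1, q1, g1, h1, p2, q2, g2, h2, e, n1, n2, hq, hz,
    ⟨X, F, r, r1, r2, r3, r4⟩, X', F', s, s1, s2, s3, s4⟩ := hz
  have m : B ∈ Bs := by simp [e]
  have m1 : B1 ∈ Bs := by simp [e]
  have m2 : B2 ∈ Bs := by simp [e]
  have hB : ∀ B' ∈ Bs, B' = B ∨ B' = B1 ∨ B' = B2 := fun B k => by simpa [e] using k
  have hq := h.q4 m hq
  have k1 := (h.q4 m1 hz.2.1).mid.swap1
  have k2 := (h.q4 m2 hz.2.2.1).mid.swap1
  have fin : G.Ea0 Bs B ∅ 1 → G.Rall T 0 1 := fun k => h.ss (h.ea_box m).1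
    (h.un_box m ▸ h.eb_hx hx hI m1 m2 (fun B' k => by have := hB B' k; simp; tauto) hz) (k.eb v0)
  by_cases h4 : B.card = 4
  · exact fin (h.seed_four m h4)
  rcases hb B m c d a b hq.flip fun ε => ⟨X, F, r,
    Or.inr ⟨B1, m1, h.on_ring m1 r.1 r1 k1.mem.1, n1.symm⟩⟩ with ⟨-, hj⟩ | k
  swap
  · exact fin (h.seed_th m k)
  by_cases hd : G.Qd B1 g1 p1
  · by_cases hd' : G.Qd B2 g2 p2
    · exact E7b_ring h s m hq m1 n1.symm k1.mid s1 s2 m2 n2.symm hz.1 k2.mid s3 s4 hB hj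
        (fun k => h4 k.1) fun _ => (h.hT.1.qd_mid h.hc (h.hy.bx B2 m2).1 k2 hd').1
    · exact E7b_ring h r m hq m1 n1.symm k1 r1 r2 m2 n2.symm hz.1 k2 r3 r4 hB hj
        (fun k => h4 k.1) fun _ => hd'
  · exact E7b_ring h r m hq m1 n1.symm k1 r1 r2 m2 n2.symm hz.1 k2 r3 r4 hB hj
      (fun k => h4 k.1) fun k => absurd k hd

end SG

end Pool.Agent.Work.MP_8c679b_co
end

-- merged part: Pool.Agent.Work.MP_8c679b_co.A3.DFin
section
/-!
The case of two disjoint odd circuits from the five blocks.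
-/

set_option autoImplicit false

namespace Pool.Agent.Work.MP_8c679b_co

open Finset

namespace SG

variable {V E : Type} [Fintype V] [DecidableEq V] [DecidableEq E] {G : SG V E}

theorem d2_of (hc : G.Cub) (hM : ∀ T, G.HT T → G.ThM T)
    (hI : ∀ T, G.HT T → G.ThM T → G.IHd T)
    (h7 : ∀ T, G.T3 T → G.F2 T → ¬ G.K1 T → G.IHd T →
      (∃ Bs v0, G.Sy T Bs v0 ∧ G.To T Bs ∧ G.Ch2 Bs) ∨ G.Rall T 0 1)
    (hg : ∀ (Γ : SG (Finset V) E) (U Nb Tm D D' : Finset (Finset V)), Γ.QG U Nb Tm → Γ.Ha Nb Tm →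
      Γ.Hb Nb Tm → Γ.Ob Nb D → Γ.Ob Nb D' → Disjoint D D' → Γ.Zall U Nb Tm)
    (hz : ∀ T Bs v0 xf, G.T3 T → G.F2 T → G.Sy T Bs v0 → G.Ch2 Bs → G.ThM T → G.IHd T →
      G.PkA T xf → (G.quo T Bs).Zall (T.image (nd Bs)) Bs (G.tq T) → G.Rall T 0 1) : G.D2P := by
  intro T hT hF hK
  have m := hM T hT.1
  have i := hI T hT.1 m
  obtain ⟨xf, hxf⟩ := xf_ex hc hT.1
  have hx : G.PkA T xf := fun N hN hu =>
    hxf N hN hu fun S hS => i S (hS.trans hN)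
  refine ⟨?_, d_odd hc hT hF hx m⟩
  by_contra hn
  rcases h7 T hT hF hK i with ⟨Bs, v0, h, ht, h2⟩ | h
  · obtain ⟨D, D', h1, h1', h3⟩ := h.two_ob hc hT ht
    exact hn (hz T Bs v0 xf hT hF h h2 m i hx (hg _ _ _ _ D D' (h.qg hc hT hF)
      (d_ha hc hT hF h hx m hn) (d_hb hc hT hF h hx m hn) h1 h1' h3))
  · exact hn h

end SG

end Pool.Agent.Work.MP_8c679b_co
end
end

-- merged part: Pool.Agent.Work.MP_8c679b_co.A3.KY
section
-- merged part: Pool.Agent.Work.MP_8c679b_co.A3.CG1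
section
/-!
Two paths or a cut with one edge, in a graph whose vertices off `Nb` have degree at most three.
-/

set_option autoImplicit false
set_option linter.unusedSectionVars false

namespace Pool.Agent.Work.MP_8c679b_co

open Finset

namespace SG

variable {V E : Type} [Fintype V] [DecidableEq V] [DecidableEq E] [Nonempty E]

/-- loopless graphs on `U` with degree at most three off `Nb` -/
structure QW (G : SG V E) (U Nb : Finset V) : Prop where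
  ins : ∀ e ∈ G.A, G.s e ∈ U ∧ G.t e ∈ U ∧ G.s e ≠ G.t e
  d3 : ∀ v ∈ U, v ∉ Nb → (G.cut {v}).card ≤ 3

variable {G : SG V E} {U Nb X Y Z M L D H X1 X2 : Finset V} {F F1 F2 R : Finset E}
  {a b v w x y : V} {e f : E}

theorem QW.je (hq : G.QW U Nb) (he : e ∈ G.A) (hj : G.Je e x y) : x ∈ U ∧ y ∈ U ∧ x ≠ y := by
  obtain ⟨h1, h2, h3⟩ := hq.ins e he
  rcases hj with ⟨rfl, rfl⟩ | ⟨rfl, rfl⟩
  exacts [⟨h1, h2, h3⟩, ⟨h2, h1, h3.symm⟩]

theorem QW.cut1 (hq : G.QW U Nb) : e ∈ G.cut {v} ↔ e ∈ G.A ∧ ∃ w, G.Je e v w := by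
  refine ⟨fun h => ?_, fun ⟨h, w, k⟩ =>
    (mem_cut_single (hq.ins e h).2.2).2 ⟨h, k.at_iff.2 (Or.inl rfl)⟩⟩
  have h1 := (mem_cut.1 h).1
  rcases ((mem_cut_single (hq.ins e h1).2.2).1 h).2 with k | k
  exacts [⟨h1, _, Or.inl ⟨k, rfl⟩⟩, ⟨h1, _, Or.inr ⟨rfl, k⟩⟩]

theorem QW.pw (hq : G.QW U Nb) (h : G.Pw a b X F) (ha : a ∈ U) : X ⊆ U := by
  obtain ⟨n, v, g, hp, rfl, -, rfl, -⟩ := h
  intro x hx
  obtain ⟨i, hi, rfl⟩ := mem_pv.1 hx
  cases i with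
  | zero => exact ha
  | succ i => exact (hq.je (hp.mem i hi) (hp.jn i hi)).2.1

theorem QW.cw (hq : G.QW U Nb) (h : G.Cw X F) : X ⊆ U := by
  obtain ⟨n, v, g, hp, rfl, -⟩ := h
  exact hq.pw ⟨n, v, g, hp.pth, rfl, rfl, rfl, rfl⟩ (hq.je hp.cm hp.cj).2.1

theorem QW.rc (hq : G.QW U Nb) (h : Z ⊆ U) : G.rc M Z ⊆ U := by
  intro v hv
  obtain ⟨z, hz, -, k⟩ := mem_rc.1 hv
  exact k.stay (h hz) fun e he x y hj _ hy => absurd (hq.je he hj).2.1 hy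

theorem QW.compl (hq : G.QW U Nb) : G.cut (U \ X) = G.cut X := by
  ext e
  simp only [mem_cut, mem_sdiff]
  refine and_congr_right fun he => ?_
  have := hq.ins e he
  tauto

/-- two edges off `F` and the edges of `F` at a vertex -/
theorem QW.deg2 (hq : G.QW U Nb) (he : e ∈ G.A) (hf : f ∈ G.A) (hef : e ≠ f) (h1 : G.Je e x a)
    (h2 : G.Je f x b) (ha : e ∉ F) (hb : f ∉ F) :
    (F ∩ G.cut {x}).card + 2 ≤ (G.cut {x}).card := by
  have h3 : insert e (insert f (F ∩ G.cut {x})) ⊆ G.cut {x} :=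
    insert_subset (hq.cut1.2 ⟨he, a, h1⟩) (insert_subset (hq.cut1.2 ⟨hf, b, h2⟩) inter_subset_right)
  have h4 := card_le_card h3
  rwa [card_insert_of_notMem (by simp [hef, ha]), card_insert_of_notMem (by simp [hb])] at h4

theorem QW.ob_two (hq : G.QW U Nb) (h : G.Ob Nb D) (hx : x ∈ D) (he : e ∈ G.A) (hf : f ∈ G.A)
    (hef : e ≠ f) (h1 : G.Je e x a) (h2 : G.Je f x b) (ha : a ∉ D) (hb : b ∉ D) : x ∈ Nb := by
  rcases h with ⟨b, hb, rfl⟩ | ⟨F, hw, -, -⟩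
  · rwa [mem_singleton.1 hx]
  · have h3 := hq.deg2 (F := F) he hf hef h1 h2
      (fun k => ha (hw.ends k (h1.at_iff.2 (Or.inr rfl))))
      fun k => hb (hw.ends k (h2.at_iff.2 (Or.inr rfl)))
    rw [hw.deg hx] at h3
    by_contra k
    have := hq.d3 x (hq.cw hw hx) k
    omega

theorem QW.ea_ob (hq : G.QW U Nb) (hD : G.Ob Nb D) (h : G.Ea v D L x y X1 X2 F1 F2) (hv : v ∉ D) :
    ∃ X, G.Vr Nb X ∧ v ∈ X ∧ X ⊆ X1 ∪ X2 ∪ D := by
  by_cases hxy : x = y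
  · subst hxy
    obtain ⟨e, he, f, hf, a, -, b, -, hef, j1, j2, ha, hb⟩ := h.last hv
    have hN := hq.ob_two hD h.m1 (h.p1.sub he) (h.p2.sub hf) hef j1 j2 ha hb
    exact ⟨_, ⟨_, (h.cw hv).1, Or.inr fun k => disjoint_left.1 k (mem_union_left _ h.p1.right) hN⟩,
      mem_union_left _ h.p1.left, subset_union_left⟩
  · obtain ⟨p1, -, o1⟩ := h.pw hxy
    obtain ⟨Y0, F0, p0, s0, k0⟩ := hD.arc h.m1 h.m2 (fun k => (hxy k).elim) (1 + G.par (F1 ∪ F2))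
    have hi : ∀ w ∈ X1 ∪ X2, w ∈ Y0 → w = x ∨ w = y := fun w h1 h2 => o1 w h1 (s0 h2)
    obtain ⟨c1, c2⟩ := cw_of_two p1 p0 hxy hi (p1.dj2 p0 hi (mem_union_left _ h.p1.left)
      (fun k => hv (k ▸ h.m1)) fun k => hv (k ▸ h.m2))
    refine ⟨_, ⟨_, c1, k0.imp (fun k => ?_) fun k r => disjoint_left.1 r
      (mem_union_left _ (mem_union_left _ h.p1.right)) k.1⟩,
      mem_union_left _ (mem_union_left _ h.p1.left), union_subset_union Subset.rfl s0⟩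
    rw [c2, k.1, add_comm 1, ← add_assoc, z2_add_self, zero_add]

theorem QW.ed2 (hq : G.QW U Nb) (hv : v ∈ U) (hM : v ∉ M) (hL : v ∉ L) :
    (∃ X ⊆ U, v ∈ X ∧ Disjoint X M ∧ Disjoint X L ∧ ∃ f, G.Clo X L {f}) ∨
      ∃ x y X1 X2 F1 F2, G.Pw v x X1 F1 ∧ G.Pw v y X2 F2 ∧ x ∈ M ∧ y ∈ M ∧
        (∀ w ∈ X1, w ∈ M → w = x) ∧ (∀ w ∈ X2, w ∈ M → w = y) ∧ Disjoint F1 F2 ∧
        Disjoint X1 L ∧ Disjoint X2 L := by
  classical
  by_cases hc : ∀ X : Finset V, Disjoint X M →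
      iv (v ∈ X) + iv (v ∈ X) ≤ (G.crs (G.avo G.A L) X).card
  · right
    obtain ⟨p, hp, q, hq', R, r1, r2, -, r4⟩ := two_paths (G := G) _ M v v hM hM hc
    have hA : R ⊆ G.A := r1.trans (filter_subset _ _)
    have ho : G.Od R p q := fun w => by rw [r2 w, z2_add_self, zero_add]
    have hr : G.Rch R v p := by
      have := r4 (univ.filter fun w => G.Rch R v w) fun e he => by
        simp only [mem_filter, mem_univ, true_and]
        exact ⟨fun k => k.trans (rch_edge he), fun k => k.trans (rch_edge he).symm⟩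
      by_contra k
      simp only [iv, mem_filter, mem_univ, true_and, Rch.refl, k, if_true, if_false] at this
      split_ifs at this
      omega
    obtain ⟨Y1, G1, a1, a2⟩ := hr.pw hA
    have ho1 : G.Od G1 p v := by
      obtain ⟨n, u, g, k, rfl, rfl, -, rfl⟩ := a1
      exact k.od.symm
    obtain ⟨Y2, G2, b1, b2⟩ := (ho.sdiff ho1 a2).rch.pw (sdiff_subset.trans hA)
    obtain ⟨x, X1, F1, c1, c2, c3, c4, c5⟩ := QG.ed2_cut a1 (a2.trans r1) hL hp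
    obtain ⟨y, X2, F2, d1, d2, d3, d4, d5⟩ :=
      QG.ed2_cut b1 (b2.trans (sdiff_subset.trans r1)) hL hq'
    exact ⟨x, y, X1, X2, F1, F2, c1, d1, c2, d2, c3, d3,
      disjoint_sdiff.mono c4 (d4.trans b2), c5, d5⟩
  · left
    push Not at hc
    obtain ⟨X, h1, h2⟩ := hc
    have h3 : v ∈ X := by
      by_contra k
      simp [iv, k] at h2
    obtain ⟨f, hf⟩ : ∃ f, G.crs (G.avo G.A L) X ⊆ {f} := card_le_one_iff_subset_singleton.1 (by
      simp only [iv, h3, if_true] at h2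
      omega)
    refine ⟨(X ∩ U) \ L, sdiff_subset.trans inter_subset_right,
      mem_sdiff.2 ⟨mem_inter.2 ⟨h3, hv⟩, hL⟩, h1.mono_left (sdiff_subset.trans inter_subset_left),
      sdiff_disjoint, f, fun e he x y hj hx hy => ?_⟩
    by_cases k : y ∈ L
    · exact Or.inl k
    · have k1 := (mem_inter.1 (mem_sdiff.1 hx).1).1
      have k2 := (mem_sdiff.1 hx).2
      have k3 : y ∉ X := fun h => hy (mem_sdiff.2 ⟨mem_inter.2 ⟨h, (hq.je he hj).2.1⟩, k⟩)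
      refine Or.inr (hf (mem_crs.2 ?_))
      rcases hj with ⟨rfl, rfl⟩ | ⟨rfl, rfl⟩
      · exact ⟨mem_avo.2 ⟨he, k2, k⟩, fun h => k3 (h.1 k1)⟩
      · exact ⟨mem_avo.2 ⟨he, k, k2⟩, fun h => k3 (h.2 k1)⟩

theorem QW.common (hq : G.QW U Nb) (hU : v ∈ U) (h1 : G.Pw v x X1 F1) (h2 : G.Pw v y X2 F2)
    (hd : Disjoint F1 F2) (hw1 : w ∈ X1) (hw2 : w ∈ X2) (hv : w ≠ v) (hx : w ≠ x) (hy : w ≠ y) :
    w ∈ Nb := by
  have k1 := h1.inner hw1 hv hx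
  have k2 := h2.inner hw2 hv hy
  have k3 := card_union_of_disjoint
    (hd.mono (inter_subset_left (s₂ := G.cut {w})) (inter_subset_left (s₂ := G.cut {w})))
  have k4 : (F1 ∩ G.cut {w} ∪ F2 ∩ G.cut {w}).card ≤ (G.cut {w}).card :=
    card_le_card (union_subset inter_subset_right inter_subset_right)
  by_contra k
  have := hq.d3 w (hq.pw h1 hU hw1) k
  omega

theorem QW.ed (hq : G.QW U Nb) (hv : v ∈ U) (hM : v ∉ M) (hL : v ∉ L) :
    (∃ X ⊆ U, v ∈ X ∧ Disjoint X M ∧ Disjoint X L ∧ ∃ f, G.Clo X L {f}) ∨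
      (∃ X F, G.Cw X F ∧ v ∈ X ∧ ¬ Disjoint X Nb ∧ Disjoint X M ∧ Disjoint X L) ∨
      ∃ x y X1 X2 F1 F2, G.Ea v M L x y X1 X2 F1 F2 := by
  rcases hq.ed2 hv hM hL with h | ⟨x, y, X1, X2, F1, F2, p1, p2, m1, m2, o1, o2, d, l1, l2⟩
  · exact Or.inl h
  right
  by_cases hd : Disjoint X1 (X2.erase v \ M)
  · refine Or.inr ⟨x, y, X1, X2, F1, F2, p1, p2, m1, m2, o1, o2, fun w h1 h2 => ?_, d, l1, l2⟩
    by_cases k : w ∈ M
    · exact Or.inr ⟨o1 w h1 k, o2 w h2 k⟩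
    · by_contra k'
      exact disjoint_left.1 hd h1 (mem_sdiff.2 ⟨mem_erase.2 ⟨fun e => k' (Or.inl e), h2⟩, k⟩)
  · obtain ⟨w, Y1, G1, Z1, H1, k1, a1, a2, rfl, rfl, a3, -, a4⟩ := p1.first hd
    obtain ⟨k2, k3⟩ := mem_sdiff.1 k1
    obtain ⟨k4, k5⟩ := mem_erase.1 k2
    have hw := hq.common hv p1 p2 d (mem_union_left _ a1.right) k5 k4 (fun e => k3 (e ▸ m1))
      fun e => k3 (e ▸ m2)
    obtain ⟨Y2, G2, Z2, H2, b1, b2, rfl, rfl, b3, -⟩ := p2.split k5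
    have c1 := QG.ed_off a2 a3 k3 o1
    have c2 := QG.ed_off b2 b3 k3 o2
    refine Or.inl ⟨_, _, (cw_of_two a1 b1 k4.symm (fun u h1 h2 => ?_)
      (d.mono subset_union_left subset_union_left)).1, mem_union_left _ a1.left,
      fun k => disjoint_left.1 k (mem_union_left _ a1.right) hw, disjoint_union_left.2 ⟨c1, c2⟩,
      disjoint_union_left.2 ⟨l1.mono_left subset_union_left, l2.mono_left subset_union_left⟩⟩
    by_cases k : u = v
    · exact Or.inl k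
    · exact Or.inr (a4 u h1 (mem_sdiff.2 ⟨mem_erase.2 ⟨k, mem_union_left _ h2⟩,
        disjoint_left.1 c1 h1⟩))

/-- a valid ring through `v` inside a set `X` that contains an object -/
theorem QW.ring_at (hq : G.QW U Nb) (hX : X ⊆ U) (hv : v ∈ X) (hN : v ∉ Nb) (hD : G.Ob Nb D)
    (hDX : D ⊆ X) (h2 : ∀ Y ⊆ X, v ∈ Y → Disjoint Y D → ∀ f, ¬ G.Clo Y (U \ X) {f}) :
    ∃ Y ⊆ X, G.Vr Nb Y ∧ v ∈ Y := by
  by_cases hvD : v ∈ D
  · rcases hD with ⟨b, hb, rfl⟩ | ⟨F, k1, k2, -⟩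
    · exact absurd (mem_singleton.1 hvD ▸ hb) hN
    · exact ⟨D, hDX, ⟨F, k1, Or.inl k2⟩, hvD⟩
  have sub : ∀ Y ⊆ U, Disjoint Y (U \ X) → Y ⊆ X := fun Y h1 h2 v hv =>
    by_contra fun k => disjoint_left.1 h2 hv (mem_sdiff.2 ⟨h1 hv, k⟩)
  rcases hq.ed (M := D) (L := U \ X) (hX hv) hvD (fun k => (mem_sdiff.1 k).2 hv) with
    ⟨Y, k1, k2, k3, k4, f, k5⟩ | ⟨Y, F, k1, k2, k3, -, k5⟩ | ⟨x, y, X1, X2, F1, F2, k⟩
  · exact absurd k5 (h2 Y (sub Y k1 k4) k2 k3 f)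
  · exact ⟨Y, sub Y (hq.cw k1) k5, ⟨F, k1, Or.inr k3⟩, k2⟩
  · obtain ⟨Y, c1, c2, c3⟩ := hq.ea_ob hD k hvD
    exact ⟨Y, c3.trans (union_subset (union_subset (sub _ (hq.pw k.p1 (hX hv)) k.l1)
      (sub _ (hq.pw k.p2 (hX hv)) k.l2)) hDX), c1, c2⟩

/-- counting the edges at a vertex `b` next to a set that hangs on it -/
theorem clo_cnt (hb : b ∉ X) (h : G.Clo X {b} R) : ∃ m, (G.cut X).card ≤ m + R.card ∧
    (G.cut (insert b X)).card + m ≤ (G.cut {b}).card + R.card := by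
  have h1 : G.cut X ⊆ (G.cut {b} ∩ G.cut X) ∪ R := fun e he => by
    obtain ⟨a1, a2⟩ := mem_cut.1 he
    have a3 := h e a1 _ _ (Or.inl ⟨rfl, rfl⟩)
    have a4 := h e a1 _ _ (Or.inr ⟨rfl, rfl⟩)
    simp only [mem_union, mem_inter, mem_cut, mem_singleton] at a3 a4 ⊢
    grind
  have h2 : G.cut (insert b X) ⊆ (G.cut {b} \ G.cut X) ∪ R := fun e he => by
    obtain ⟨a1, a2⟩ := mem_cut.1 he
    have a3 := h e a1 _ _ (Or.inl ⟨rfl, rfl⟩)
    have a4 := h e a1 _ _ (Or.inr ⟨rfl, rfl⟩)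
    simp only [mem_union, mem_sdiff, mem_cut, mem_singleton, mem_insert] at a2 a3 a4 ⊢
    grind
  have h3 := (card_le_card h1).trans (card_union_le _ _)
  have h4 := (card_le_card h2).trans (card_union_le _ _)
  have h5 := card_sdiff_add_card_inter (G.cut {b}) (G.cut X)
  exact ⟨_, h3, by omega⟩

end SG

end Pool.Agent.Work.MP_8c679b_co
end

-- merged part: Pool.Agent.Work.MP_8c679b_co.A3.CG2
section
/-!
The quotient of a four-side without splits: counting lemmas and valid rings through `d`.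
-/

set_option autoImplicit false
set_option linter.unusedSectionVars false

namespace Pool.Agent.Work.MP_8c679b_co

open Finset

namespace SG

variable {V E : Type} [Fintype V] [DecidableEq V] [DecidableEq E] [Nonempty E]

/-- the conditions on the quotient of a four-side; `Tm = insert d Tr` are its terminals -/
structure QC (G : SG V E) (U Nb Tm Tr : Finset V) (d : V) : Prop where
  w : G.QW U Nb
  nb : Nb ⊆ U
  tm : Tm ⊆ U
  dj : Disjoint Nb Tm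
  eq : Tm = insert d Tr
  nd : d ∉ Tr
  c3 : Tr.card = 3
  d4 : ∀ b ∈ Nb, (G.cut {b}).card = 4
  d2 : ∀ t ∈ Tm, (G.cut {t}).card = 2
  ht : ∀ X ⊆ U, X.Nonempty → 3 ≤ (G.cut X).card + (X ∩ Tm).card ∧
    ((G.cut X).card + (X ∩ Tm).card = 3 → X.card = 1)
  ns : ∀ X ⊆ U, (G.cut X).card = 2 → (X ∩ Tm).card ≠ 2
  mx : ∀ X ⊆ U, ¬ Disjoint X Nb → (G.cut X).card + (X ∩ Tm).card ≤ 4 → X.card = 1 ∨ X = U
  ky : ∀ y ∈ Tr, ∀ z ∈ Tr, y ≠ z → ∀ x ∈ Tm, x ≠ y → x ≠ z → ∀ X F, G.Pw y z X F → x ∈ X →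
    G.Ofr Nb X
  fm : ∀ y ∈ Tr, ∀ z ∈ Tr, y ≠ z → ∀ x ∈ Tm, x ≠ y → x ≠ z → ∀ X F H, G.Pw y z X F →
    G.Vr Nb H → x ∈ H → ¬ Disjoint X H

variable {G : SG V E} {U Nb Tm Tr X Y H D P : Finset V} {F R : Finset E}
  {a b c d p t u v w x y z B : V} {e f : E}

theorem CG2_je (h : G.Je e a b) (h' : G.Je e a c) : b = c := by
  rcases h with ⟨h1, h2⟩ | ⟨h1, h2⟩ <;> rcases h' with ⟨h3, h4⟩ | ⟨h3, h4⟩ <;> simp_all

theorem QC.md (h : G.QC U Nb Tm Tr d) : d ∈ Tm := h.eq ▸ mem_insert_self _ _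

theorem QC.mt (h : G.QC U Nb Tm Tr d) (ht : t ∈ Tr) : t ∈ Tm := h.eq ▸ mem_insert_of_mem ht

theorem QC.c4 (h : G.QC U Nb Tm Tr d) : Tm.card = 4 := by
  rw [h.eq, card_insert_of_notMem h.nd, h.c3]

theorem QC.le4 (h : G.QC U Nb Tm Tr d) (hv : v ∈ U) : (G.cut {v}).card ≤ 4 := by
  by_cases k : v ∈ Nb
  · exact (h.d4 v k).le
  · exact (h.w.d3 v hv k).trans (by norm_num)

theorem QC.tb (h : G.QC U Nb Tm Tr d) (ht : t ∈ Tm) (hB : B ∈ Nb) : t ≠ B :=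
  fun k => disjoint_left.1 h.dj hB (k ▸ ht)

/-- the terminals inside and outside -/
theorem QC.cnt (h : G.QC U Nb Tm Tr d) (X : Finset V) :
    (X ∩ Tm).card + ((U \ X) ∩ Tm).card = 4 := by
  rw [← h.c4, ← card_sdiff_add_card_inter Tm X, add_comm, inter_comm X]
  congr 2
  ext t
  simp only [mem_inter, mem_sdiff]
  exact ⟨fun c => ⟨c.2, c.1.2⟩, fun c => ⟨⟨h.tm c.1, c.2⟩, c.1⟩⟩

/-- a set that misses two terminals -/
theorem QC.le2 (h : G.QC U Nb Tm Tr d) (hy : y ∈ Tm) (hz : z ∈ Tm) (ne : y ≠ z) (h1 : y ∉ X)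
    (h2 : z ∉ X) : (X ∩ Tm).card ≤ 2 := by
  have k : X ∩ Tm ⊆ (Tm.erase y).erase z := fun t ht => mem_erase.2 ⟨fun r =>
    h2 (r ▸ (mem_inter.1 ht).1), mem_erase.2 ⟨fun r => h1 (r ▸ (mem_inter.1 ht).1),
      (mem_inter.1 ht).2⟩⟩
  have k1 := card_le_card k
  rw [card_erase_of_mem (mem_erase.2 ⟨ne.symm, hz⟩), card_erase_of_mem hy, h.c4] at k1
  exact k1

theorem QC.c2 (h : G.QC U Nb Tm Tr d) (hX : X ⊆ U) (hn : X.Nonempty) (h1 : (G.cut X).card ≤ 2)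
    (h2 : (X ∩ Tm).card ≤ 2) : X.card = 1 := by
  obtain ⟨k1, k2⟩ := h.ht X hX hn
  by_cases k : (G.cut X).card + (X ∩ Tm).card = 3
  · exact k2 k
  · exact absurd (by omega) (h.ns X hX (by omega))

/-- a box with something more has at least five leaving edges -/
theorem QC.five (h : G.QC U Nb Tm Tr d) (hB : B ∈ Nb) (hX : X ⊆ U) (hv : v ∈ X) (hb : B ∉ X)
    (hu : u ∈ U) (h1 : u ∉ X) (h2 : u ≠ B) :
    5 ≤ (G.cut (insert B X)).card + (X ∩ Tm).card := by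
  by_contra k
  have e : insert B X ∩ Tm = X ∩ Tm := insert_inter_of_notMem (disjoint_left.1 h.dj hB)
  rcases h.mx (insert B X) (insert_subset (h.nb hB) hX)
    (fun r => disjoint_left.1 r (mem_insert_self _ _) hB) (by rw [e]; omega) with r | r
  · rw [card_insert_of_notMem hb] at r
    have := card_pos.2 ⟨v, hv⟩
    omega
  · exact (mem_insert.1 (r ▸ hu : u ∈ insert B X)).elim h2 h1

theorem QC.nadj (h : G.QC U Nb Tm Tr d) (ht : t ∈ Tm) (hu : u ∈ Tm) (he : e ∈ G.A) :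
    ¬ G.Je e t u := fun hj => by
  have ne := (h.w.je he hj).2.2
  have k : G.cut {t, u} ⊆ (G.cut {t}).erase e ∪ (G.cut {u}).erase e := fun f hf => by
    have k1 : f ≠ e := by
      rintro rfl
      rcases hj with ⟨r1, r2⟩ | ⟨r1, r2⟩ <;> simp [mem_cut, r1, r2] at hf
    simp only [mem_union, mem_erase, mem_cut, mem_insert, mem_singleton] at hf ⊢
    grind
  have k1 := (card_le_card k).trans (card_union_le _ _)
  rw [card_erase_of_mem (h.w.cut1.2 ⟨he, u, hj⟩), card_erase_of_mem (h.w.cut1.2 ⟨he, t, hj.symm⟩),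
    h.d2 t ht, h.d2 u hu] at k1
  have k2 := h.c2 (insert_subset (h.tm ht) (singleton_subset_iff.2 (h.tm hu)))
    (insert_nonempty _ _) k1 ((card_le_card inter_subset_left).trans card_le_two)
  rw [card_pair ne] at k2
  omega

/-- the graph without one box is connected -/
theorem QC.conn (h : G.QC U Nb Tm Tr d) (hB : B ∈ Nb) (hu : u ∈ U) (hv : v ∈ U) (h1 : u ≠ B)
    (h2 : v ≠ B) : ∃ X F, G.Pw u v X F ∧ Disjoint X {B} := by
  have h3 : u ∉ ({B} : Finset V) := notMem_singleton.2 h1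
  suffices k : G.Rv {B} u v from let ⟨X, F, k1, k2, _⟩ := k.pw h3; ⟨X, F, k1, k2⟩
  by_contra k
  have m1 : u ∈ G.rc {B} {u} := mem_rc.2 ⟨u, mem_singleton_self _, h3, Rv.refl _ _⟩
  have m2 : v ∉ G.rc {B} {u} := fun r => by
    obtain ⟨z, r1, -, r2⟩ := mem_rc.1 r
    exact k (mem_singleton.1 r1 ▸ r2)
  have m3 : B ∉ G.rc {B} {u} := disjoint_singleton_right.1 rc_dj
  have m4 : G.rc {B} {u} ⊆ U := h.w.rc (singleton_subset_iff.2 hu)
  obtain ⟨m, k1, k2⟩ := clo_cnt m3 (rc_clo (G := G) (Z := {u}))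
  generalize G.rc {B} {u} = X at m1 m2 m3 m4 k1 k2
  have k3 := h.five hB m4 m1 m3 hv m2 h2
  have k4 := h.five (X := (U \ X).erase B) hB ((erase_subset _ _).trans sdiff_subset)
    (mem_erase.2 ⟨h2, mem_sdiff.2 ⟨hv, m2⟩⟩) (notMem_erase _ _) hu
    (fun r => (mem_sdiff.1 (mem_erase.1 r).2).2 m1) h1
  rw [insert_erase (mem_sdiff.2 ⟨h.nb hB, m3⟩), h.w.compl] at k4
  have k5 : ((U \ X).erase B ∩ Tm).card ≤ ((U \ X) ∩ Tm).card :=
    card_le_card (inter_subset_inter_right (erase_subset _ _))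
  have k6 := h.cnt X
  rw [h.d4 B hB, card_empty] at k2
  rw [card_empty] at k1
  omega

theorem QC.tm_cw (h : G.QC U Nb Tm Tr d) (hH : G.Cw X F) (ht : t ∈ Tm) (hX : t ∈ X) (he : e ∈ G.A)
    (hj : G.Je e t w) : w ∈ X := by
  have h1 := eq_of_subset_of_card_le (inter_subset_right (s₁ := F))
    ((h.d2 t ht).trans (hH.deg hX).symm).le
  have h2 : e ∈ F := (mem_inter.1 (h1.symm ▸ h.w.cut1.2 ⟨he, w, hj⟩ : e ∈ F ∩ G.cut {t})).1
  exact hH.ends h2 (hj.at_iff.2 (Or.inr rfl))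

theorem QC.tm_pw (h : G.QC U Nb Tm Tr d) (hP : G.Pw y z X F) (ht : t ∈ Tm) (hX : t ∈ X)
    (h1 : t ≠ y) (h2 : t ≠ z) (he : e ∈ G.A) (hj : G.Je e t w) : w ∈ X := by
  have h1 := eq_of_subset_of_card_le (inter_subset_right (s₁ := F))
    ((h.d2 t ht).trans (hP.inner hX h1 h2).symm).le
  have h2 : e ∈ F := (mem_inter.1 (h1.symm ▸ h.w.cut1.2 ⟨he, w, hj⟩ : e ∈ F ∩ G.cut {t})).1
  exact hP.ends h2 (hj.at_iff.2 (Or.inr rfl))

/-- two edges leave a path between terminals only at a box -/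
theorem QC.pw_out (h : G.QC U Nb Tm Tr d) (hP : G.Pw y z P F) (hy : y ∈ Tm) (hz : z ∈ Tm)
    (ne : y ≠ z) (hp : p ∈ P) (he : e ∈ G.A) (hf : f ∈ G.A) (hef : e ≠ f) (h1 : G.Je e p a)
    (h2 : G.Je f p b) (ha : a ∉ P) (hb : b ∉ P) : p ∈ Nb := by
  have k := h.w.deg2 (F := F) he hf hef h1 h2 (fun k => ha (hP.ends k (h1.at_iff.2 (Or.inr rfl))))
    fun k => hb (hP.ends k (h2.at_iff.2 (Or.inr rfl)))
  have k1 : ∀ {y z}, G.Pw y z P F → y ∈ Tm → y ≠ z → p ≠ y := fun {y z} q1 q2 q3 q4 => by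
    obtain ⟨g, w, Y, F', r1, r2, -, -, -, r3, -⟩ := q1.head q3
    have r4 : g ∈ F ∩ G.cut {p} := mem_inter.2 ⟨r3 ▸ mem_insert_self _ _,
      h.w.cut1.2 ⟨r1, w, q4 ▸ r2⟩⟩
    have := card_pos.2 ⟨g, r4⟩
    have := h.d2 p (q4 ▸ q2)
    omega
  rw [hP.inner hp (k1 hP hy ne) (k1 hP.symm hz ne.symm)] at k
  by_contra r
  have := h.w.d3 p (h.w.pw hP (h.tm hy) hp) r
  omega

/-- a valid ring through `d` separates the other terminals -/
theorem QC.goo (h : G.QC U Nb Tm Tr d) (hH : G.Vr Nb H) (hd : d ∈ H) : G.Goo Tm H := by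
  intro t ht u hu n1 n2 k
  by_contra ne
  have m : ∀ t ∈ Tm, t ∉ H → t ∈ Tr ∧ d ≠ t := fun t r1 r2 =>
    ⟨(mem_insert.1 (h.eq ▸ r1)).resolve_left fun r => r2 (r ▸ hd), fun r => r2 (r ▸ hd)⟩
  obtain ⟨X, F, k1, k2, -⟩ := k.pw n1
  exact h.fm t (m t ht n1).1 u (m u hu n2).1 ne d h.md (m t ht n1).2 (m u hu n2).2 X F H k1 hH hd k2

/-- the path to an attachment -/
theorem att_pw (he : e ∈ G.A) (hj : G.Je e p x) (hp : p ∈ H) (ht : t ∉ H) (hr : G.Rv H t x) :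
    ∃ X F, G.Pw t p X F ∧ ∀ w ∈ X, w = p ∨ (t ∉ H ∧ G.Rv H t w) := by
  obtain ⟨X, F, k1, k2, k3⟩ := hr.pw ht
  exact ⟨_, _, (k1.symm.cons he hj fun r => disjoint_left.1 k2 r hp).1.symm, fun w hw =>
    (mem_insert.1 hw).imp_right fun r => ⟨ht, k3 w r⟩⟩

/-- two edges from the part of a terminal to the ring -/
theorem QC.att (h : G.QC U Nb Tm Tr d) (hg : G.Goo Tm H) (ht : t ∈ Tm) (hn : t ∉ H) :
    ∃ e f, e ≠ f ∧ ∀ g, g = e ∨ g = f → g ∈ G.A ∧ ∃ p ∈ H, ∃ x, G.Je g p x ∧ G.Rv H t x := by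
  have m1 : t ∈ G.rc H {t} := mem_rc.2 ⟨t, mem_singleton_self _, hn, Rv.refl _ _⟩
  have m2 : ∀ x ∈ G.rc H {t}, G.Rv H t x := fun x r => by
    obtain ⟨z, r1, -, r2⟩ := mem_rc.1 r
    exact mem_singleton.1 r1 ▸ r2
  have k1 := (h.ht _ (h.w.rc (M := H) (singleton_subset_iff.2 (h.tm ht))) ⟨t, m1⟩).1
  have k2 : (G.rc H {t} ∩ Tm).card ≤ 1 := card_le_one.2 fun a ha b hb => by
    have r : ∀ a ∈ G.rc H {t} ∩ Tm, t = a := fun a ha => hg t ht a (mem_inter.1 ha).2 hn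
      (disjoint_left.1 rc_dj (mem_inter.1 ha).1) (m2 a (mem_inter.1 ha).1)
    exact (r a ha).symm.trans (r b hb)
  obtain ⟨e, he, f, hf, ne⟩ := one_lt_card.1 (show 1 < (G.cut (G.rc H {t})).card by omega)
  have key : ∀ g ∈ G.cut (G.rc H {t}), g ∈ G.A ∧ ∃ p ∈ H, ∃ x, G.Je g p x ∧ G.Rv H t x :=
    fun g hg => ⟨(mem_cut.1 hg).1, _, (rc_clo g (mem_cut.1 hg).1 _ _ je_ie_oe
      (ie_mem (cut_sub_tch hg)) (oe_not_mem hg)).resolve_right (notMem_empty _), _, je_ie_oe.symm,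
      m2 _ (ie_mem (cut_sub_tch hg))⟩
  exact ⟨e, f, ne, fun g k => k.elim (fun r => r ▸ key e he) fun r => r ▸ key f hf⟩

/-- different attachments for two terminals -/
theorem QC.att2 (h : G.QC U Nb Tm Tr d) (hH : G.Cw H R) (hg : G.Goo Tm H) (hy : y ∈ Tm)
    (hz : z ∈ Tm) (ne : y ≠ z) : ∃ p ∈ H, ∃ q ∈ H, p ≠ q ∧
      (∃ X F, G.Pw y p X F ∧ ∀ w ∈ X, w = p ∨ (y ∉ H ∧ G.Rv H y w)) ∧
      ∃ X F, G.Pw z q X F ∧ ∀ w ∈ X, w = q ∨ (z ∉ H ∧ G.Rv H z w) := by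
  have t0 : ∀ y : V, ∃ X F, G.Pw y y X F ∧ ∀ w ∈ X, w = y ∨ (y ∉ H ∧ G.Rv H y w) :=
    fun y => ⟨_, _, pw_refl y, fun w hw => Or.inl (mem_singleton.1 hw)⟩
  have t1 : ∀ y ∈ Tm, ∀ z ∈ Tm, y ∈ H → z ∉ H → ∃ q ∈ H, y ≠ q ∧
      ∃ X F, G.Pw z q X F ∧ ∀ w ∈ X, w = q ∨ (z ∉ H ∧ G.Rv H z w) := fun y hy z hz k1 k2 => by
    obtain ⟨e, f, -, k⟩ := h.att hg hz k2
    obtain ⟨r1, q, r2, x, r3, r4⟩ := k e (Or.inl rfl)
    exact ⟨q, r2, fun r => r4.not_mem k2 (h.tm_cw hH hy k1 r1 (r ▸ r3)), att_pw r1 r3 r2 k2 r4⟩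
  by_cases k1 : y ∈ H <;> by_cases k2 : z ∈ H
  · exact ⟨y, k1, z, k2, ne, t0 y, t0 z⟩
  · obtain ⟨q, r1, r2, r3⟩ := t1 y hy z hz k1 k2
    exact ⟨y, k1, q, r1, r2, t0 y, r3⟩
  · obtain ⟨q, r1, r2, r3⟩ := t1 z hz y hy k2 k1
    exact ⟨q, r1, z, k2, r2.symm, r3, t0 z⟩
  obtain ⟨e, f, nef, k⟩ := h.att hg hy k1
  obtain ⟨g, g', -, k'⟩ := h.att hg hz k2
  obtain ⟨a1, p1, a2, x1, a3, a4⟩ := k e (Or.inl rfl)
  obtain ⟨b1, p2, b2, x2, b3, b4⟩ := k f (Or.inr rfl)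
  obtain ⟨c1, q, c2, x3, c3, c4⟩ := k' g (Or.inl rfl)
  by_cases r1 : p1 = q
  swap
  · exact ⟨p1, a2, q, c2, r1, att_pw a1 a3 a2 k1 a4, att_pw c1 c3 c2 k2 c4⟩
  by_cases r2 : p2 = q
  swap
  · exact ⟨p2, b2, q, c2, r2, att_pw b1 b3 b2 k1 b4, att_pw c1 c3 c2 k2 c4⟩
  exfalso
  subst r1 r2
  have nR : ∀ {e x}, G.Je e p2 x → x ∉ H → e ∉ R := fun j n r =>
    n (hH.ends r (j.at_iff.2 (Or.inr rfl)))
  have ng : ∀ {e x}, G.Je e p2 x → G.Rv H y x → e ≠ g := fun j n r =>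
    ne (hg y hy z hz k1 k2 (n.trans (CG2_je (r ▸ j) c3 ▸ c4.symm)))
  have r3 := h.w.deg2 (F := insert g R) a1 b1 nef a3 b3
    (fun r => (mem_insert.1 r).elim (ng a3 a4) (nR a3 (a4.not_mem k1)))
    fun r => (mem_insert.1 r).elim (ng b3 b4) (nR b3 (b4.not_mem k1))
  rw [insert_inter_of_mem (h.w.cut1.2 ⟨c1, _, c3⟩), card_insert_of_notMem fun r =>
    nR c3 (c4.not_mem k2) (mem_inter.1 r).1, hH.deg c2] at r3
  have := h.le4 (h.w.cw hH c2)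
  omega

/-- a valid ring through `d` meets every object -/
theorem QC.ofr (h : G.QC U Nb Tm Tr d) (hH : G.Vr Nb H) (hd : d ∈ H) : G.Ofr Nb H := by
  classical
  intro D hD dj
  have hg := h.goo hH hd
  obtain ⟨R, hR, -⟩ := hH
  have k1 : (Tr.filter fun t => t ∉ H ∧ ∃ p ∈ D, G.Rv H t p).card ≤ 1 :=
    card_le_one.2 fun a ha b hb => by
      obtain ⟨a1, a2, p, a3, a4⟩ := mem_filter.1 ha
      obtain ⟨b1, b2, q, b3, b4⟩ := mem_filter.1 hb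
      exact hg a (h.mt a1) b (h.mt b1) a2 b2 (a4.trans ((hD.rv dj a3 b3).trans b4.symm))
  have k2 := card_filter_add_card_filter_not (s := Tr) fun t => t ∉ H ∧ ∃ p ∈ D, G.Rv H t p
  obtain ⟨y, hy, z, hz, ne⟩ := one_lt_card.1 (show 1 < (Tr.filter fun t =>
    ¬ (t ∉ H ∧ ∃ p ∈ D, G.Rv H t p)).card by rw [h.c3] at k2; omega)
  obtain ⟨y1, y2⟩ := mem_filter.1 hy
  obtain ⟨z1, z2⟩ := mem_filter.1 hz
  obtain ⟨p, hp, q, hq, npq, ⟨X1, F1, a1, a2⟩, X2, F2, b1, b2⟩ :=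
    h.att2 hR hg (h.mt y1) (h.mt z1) ne
  obtain ⟨Y, F, Y', F', c1, -, c2, -, -, -, -, c3⟩ := hR.arcs hp hq npq hd
  have c4 : Y ⊆ H := c2 ▸ subset_union_left
  have p1 := (a1.cat c1 fun v r1 r2 => (a2 v r1).resolve_right fun r : y ∉ H ∧ G.Rv H y v =>
    r.2.not_mem r.1 (c4 r2)).1
  have p2 := (p1.cat b1.symm fun v r1 r2 => (b2 v r2).resolve_right
      fun r : z ∉ H ∧ G.Rv H z v => by
    rcases mem_union.1 r1 with r3 | r3
    · rcases a2 v r3 with r4 | r4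
      · exact r.2.not_mem r.1 (r4 ▸ hp)
      · exact ne (hg y (h.mt y1) z (h.mt z1) r4.1 r.1 (r4.2.trans r.2.symm))
    · exact r.2.not_mem r.1 (c4 r3)).1
  refine h.ky y y1 z z1 ne d h.md (fun r => h.nd (r ▸ y1)) (fun r => h.nd (r ▸ z1)) _ _ p2
    (mem_union_left _ (mem_union_right _ c3)) D hD (disjoint_left.2 fun v r1 r2 => ?_)
  have r3 := disjoint_left.1 dj r1
  rcases mem_union.1 r2 with r | r
  · rcases mem_union.1 r with r | r
    · exact (a2 v r).elim (fun r => r3 (r ▸ hp)) fun r => y2 ⟨r.1, v, r1, r.2⟩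
    · exact r3 (c4 r)
  · exact (b2 v r).elim (fun r => r3 (r ▸ hq)) fun r => z2 ⟨r.1, v, r1, r.2⟩

end SG

end Pool.Agent.Work.MP_8c679b_co
end

-- merged part: Pool.Agent.Work.MP_8c679b_co.A3.KZ
section
/-!
The quotient of a four-side without splits.
-/

set_option autoImplicit false

namespace Pool.Agent.Work.MP_8c679b_co

open Finset

namespace SG

variable {V E : Type} [Fintype V] [DecidableEq V] [DecidableEq E] {G : SG V E}
  {T B : Finset V} {Bs : Finset (Finset V)} {a b c d e : E}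
  {xf : Finset V → E → E → ZMod 2 → Finset V}

/-- the boxes of a side all of whose proper sides avoid the terminals -/
structure Kq (G : SG V E) (T B : Finset V) (Bs : Finset (Finset V)) : Prop where
  hc : G.Cub
  hT : G.HT T
  hB : B ⊆ T
  hu : G.US B
  bx : ∀ J : Finset E, J.card ≤ 3 → G.Bx G.AU B J Bs
  cv : ∀ M ⊆ B, G.US M → M ≠ B → G.cut M ⊆ G.ins B

theorem Kq.b0 (h : G.Kq T B Bs) : G.Bx G.AU B ∅ Bs := h.bx ∅ (Nat.zero_le _)

theorem Kq.pd (h : G.Kq T B Bs) : PD Bs := h.b0.2.1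

theorem Kq.sub (h : G.Kq T B Bs) : ∀ N ∈ Bs, N ⊆ B := fun N k => (h.b0.1 N k).2.1

theorem Kq.us (h : G.Kq T B Bs) : ∀ N ∈ Bs, G.US N := fun N k => (h.b0.1 N k).1

theorem Kq.ne (h : G.Kq T B Bs) : ∀ N ∈ Bs, N.Nonempty := fun N k => Spl_nonempty (h.us N k).1

theorem Kq.c2 (h : G.Kq T B Bs) : 2 < B.card := by
  have := h.hT.us_card h.hc h.hB h.hu
  omega

theorem Kq.cov (h : G.Kq T B Bs) : ∀ S ⊆ B, G.US S → S = B ∨ ∃ N ∈ Bs, S ⊆ N :=
  fun S k1 k2 => or_iff_not_imp_left.2 fun k =>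
    h.b0.2.2 S k2 k1 ((h.cv S k1 k2 k).trans subset_union_left)

theorem Kq.tm (h : G.Kq T B Bs) (he : e ∈ G.cut B) :
    (∀ N ∈ Bs, G.ie B e ∉ N) ∧ nd Bs (G.ie B e) = {G.ie B e} :=
  have k : ∀ N ∈ Bs, G.ie B e ∉ N := fun _ k => h.b0.not_mem k he (notMem_empty _) ie_at
  ⟨k, nd_of_not k⟩

theorem Kq.inj (h : G.Kq T B Bs) {f : E} (he : e ∈ G.cut B) (hf : f ∈ G.cut B)
    (k : ({G.ie B e} : Finset V) = {G.ie B f}) : e = f :=
  by_contra fun r => h.hT.f2 h.hc h.hB h.hu.1 h.c2 he hf r (singleton_injective k)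

theorem Kq.cut_un (h : G.Kq T B Bs) (Z : Finset (Finset V)) :
    (G.cut (un B Bs Z) ∩ G.cut B).card = (Z ∩ G.tq B).card ∧
      (G.cut (un B Bs Z)).card = ((G.quo B Bs).cut Z).card + (Z ∩ G.tq B).card := by
  have hs : un B Bs Z ⊆ B := filter_subset _ _
  have h1 : (G.quo B Bs).cut Z = G.cut (un B Bs Z) \ G.cut B := (quo_crs Z).trans (crs_ins hs)
  have h2 : (G.cut (un B Bs Z) ∩ G.cut B).card = (Z ∩ G.tq B).card := by
    refine card_bij (fun e _ => {G.ie B e}) (fun e he => ?_) (fun e he f hf k => ?_) fun N hN => ?_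
    · obtain ⟨h2, h3⟩ := mem_inter.1 he
      exact mem_inter.2 ⟨(h.tm h3).2 ▸ (mem_un.1 ((IHa_cut hs h3).1 h2)).2, mem_image_of_mem _ h3⟩
    · exact h.inj (mem_inter.1 he).2 (mem_inter.1 hf).2 k
    · obtain ⟨h2, h3⟩ := mem_inter.1 hN
      obtain ⟨e, he, rfl⟩ := mem_image.1 h3
      exact ⟨e, mem_inter.2 ⟨(IHa_cut hs he).2 (mem_un.2 ⟨ie_mem (cut_sub_tch he),
        (h.tm he).2.symm ▸ h2⟩), he⟩, rfl⟩
  exact ⟨h2, by rw [h1, ← h2, card_sdiff_add_card_inter]⟩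

theorem Kq.ob (h : G.Kq T B Bs) {D : Finset (Finset V)} (hD : (G.quo B Bs).Ob Bs D) :
    ¬ G.Bal (G.ins (un B Bs D)) := by
  intro hb
  rcases hD with ⟨N, hN, rfl⟩ | ⟨C, ⟨n, w, g, hp, rfl, rfl⟩, h1, hd⟩
  · exact (h.us N hN).2 (hb.mono (ins_mono fun v hv => mem_un.2
      ⟨h.sub N hN hv, mem_singleton.2 (nd_of_mem h.pd hN hv)⟩))
  · obtain ⟨hC, hv, hs, -⟩ := hp.cc
    have k : ∀ v, nd Bs v ∈ pv n w → nd Bs v = {v} := fun v hv =>
      ((nd_cases h.pd v).resolve_left (disjoint_left.1 hd hv)).2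
    have ms : ∀ e ∈ pe (n + 1) g, nd Bs (G.s e) ∈ pv n w ∧ nd Bs (G.t e) ∈ pv n w := fun e he =>
      ⟨hv ▸ s_mem_vs (G := G.quo B Bs) he, hv ▸ t_mem_vs (G := G.quo B Bs) he⟩
    have ev : G.Ev (pe (n + 1) g) := fun v => by
      refine Eq.trans (sum_congr rfl fun e he => ?_) (hC.2.1 {v})
      change _ = iv (nd Bs (G.s e) = {v}) + iv (nd Bs (G.t e) = {v})
      simp only [k _ (ms e he).1, k _ (ms e he).2, singleton_inj]
    have h0 := hb.par_zero (fun e he => by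
      obtain ⟨a, b, c⟩ := mem_ins.1 (mem_quo.1 (hs he)).1
      exact mem_ins.2 ⟨a, mem_un.2 ⟨b, (ms e he).1⟩, mem_un.2 ⟨c, (ms e he).2⟩⟩) ev
    exact zero_ne_one (h0.symm.trans h1)

theorem Kq.q4 (h : G.Kq T B Bs) (ha : a ∈ G.cut B) (hb : b ∈ G.cut B) (hab : a ≠ b)
    {x : Finset V} (hx : x ∈ G.tq B) (h1 : x ≠ {G.ie B a}) (h2 : x ≠ {G.ie B b}) :
    ∃ c d, G.Q4 B a b c d ∧ x = {G.ie B c} := by
  obtain ⟨e, he, rfl⟩ := mem_image.1 hx
  obtain ⟨c, d, hq⟩ := exists_q4 h.hu.1 ha hb hab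
  rcases (Spl_mem hq e).1 he with rfl | rfl | rfl | rfl
  exacts [(h1 rfl).elim, (h2 rfl).elim, ⟨_, _, hq, rfl⟩, ⟨_, _, hq.swap2, rfl⟩]

/-- the two consequences of the two-line theorem for one pair -/
theorem Kq.pair (h : G.Kq T B Bs) (hM : G.ThM T) (hx : G.PkA T xf) (ha : a ∈ G.cut B)
    (hb : b ∈ G.cut B) (hab : a ≠ b) (p : ∀ s, ¬ G.Pw0 B a b s) {x : Finset V}
    (m : x ∈ G.tq B) (h1 : x ≠ {G.ie B a}) (h2 : x ≠ {G.ie B b}) {X : Finset (Finset V)}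
    {F : Finset E} (hp : (G.quo B Bs).Pw {G.ie B a} {G.ie B b} X F) :
    (x ∈ X → (G.quo B Bs).Ofr Bs X) ∧
      ∀ H, (G.quo B Bs).Vr Bs H → x ∈ H → ¬ Disjoint X H := by
  obtain ⟨c, d, hq, rfl⟩ := h.q4 ha hb hab m h1 h2
  rw [← (h.tm ha).2, ← (h.tm hb).2] at hp
  have hB := h.bx {a, b} (card_le_two.trans (by norm_num))
  refine ⟨fun k D hD dj => ?_, fun H k1 k2 dj => ?_⟩
  · refine (kf_key h.hc h.hT hM h.hB h.hu hq hB hx hp k fun r => h.ob hD (r.mono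
      (ins_mono fun v hv => ?_))).elim p
    obtain ⟨k1, k2⟩ := mem_un.1 hv
    exact mem_sdiff.2 ⟨k1, fun r => disjoint_left.1 dj k2 (mem_un.1 r).2⟩
  · exact (kf_fam h.hc h.hT hM h.hB h.hu hq hB hx hp k1 k2 dj).elim p

theorem Kq.qc [Nonempty E] (h : G.Kq T B Bs) (hM : G.ThM T) (hx : G.PkA T xf)
    (hq : G.Q4 B a b c d) (n1 : G.NC B a b) (n2 : G.NC B a c) (n3 : G.NC B a d)
    (p1 : ∀ s, ¬ G.Pw0 B a b s) (p2 : ∀ s, ¬ G.Pw0 B a c s) (p3 : ∀ s, ¬ G.Pw0 B b c s) :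
    (G.quo B Bs).QC (B.image (nd Bs)) Bs (G.tq B) {{G.ie B a}, {G.ie B b}, {G.ie B c}}
      {G.ie B d} := by
  obtain ⟨ma, mb, mc, md⟩ := hq.mem
  obtain ⟨nab, nac, nad, nbc, nbd, ncd⟩ := hq.2
  have ne : ∀ {e f}, e ∈ G.cut B → f ∈ G.cut B → e ≠ f →
      ({G.ie B e} : Finset V) ≠ {G.ie B f} := fun k1 k2 k3 k => k3 (h.inj k1 k2 k)
  have hdj : Disjoint Bs (G.tq B) := by
    refine disjoint_left.2 fun N hN hN' => ?_
    obtain ⟨e, he, rfl⟩ := mem_image.1 hN'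
    exact (h.tm he).1 _ hN (mem_singleton_self _)
  have hsub : ∀ X, un B Bs X ⊆ B := fun X => filter_subset _ _
  have him : ∀ X ⊆ B.image (nd Bs), ∀ N ∈ X, ∃ v ∈ un B Bs X, nd Bs v = N := by
    intro X hX N hN
    obtain ⟨v, hv, rfl⟩ := mem_image.1 (hX hN)
    exact ⟨v, mem_un.2 ⟨hv, hN⟩, rfl⟩
  have one : ∀ v ∈ B, (G.cut (nd Bs v)).card =
      ((G.quo B Bs).cut {nd Bs v}).card + ({nd Bs v} ∩ G.tq B).card := fun v hv => by
    rw [← (h.cut_un _).2, un_single h.pd h.sub hv]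
  have key : ∀ y ∈ ({{G.ie B a}, {G.ie B b}, {G.ie B c}} : Finset (Finset V)),
      ∀ z ∈ ({{G.ie B a}, {G.ie B b}, {G.ie B c}} : Finset (Finset V)), y ≠ z → ∀ x ∈ G.tq B,
      x ≠ y → x ≠ z → ∀ X F, (G.quo B Bs).Pw y z X F → (x ∈ X → (G.quo B Bs).Ofr Bs X) ∧
      ∀ H, (G.quo B Bs).Vr Bs H → x ∈ H → ¬ Disjoint X H := by
    intro y hy z hz k x m k1 k2 X F hp
    simp only [mem_insert, mem_singleton] at hy hz
    rcases hy with rfl | rfl | rfl <;> rcases hz with rfl | rfl | rfl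
    exacts [(k rfl).elim, h.pair hM hx ma mb nab p1 m k1 k2 hp,
      h.pair hM hx ma mc nac p2 m k1 k2 hp, h.pair hM hx ma mb nab p1 m k2 k1 hp.symm,
      (k rfl).elim, h.pair hM hx mb mc nbc p3 m k1 k2 hp,
      h.pair hM hx ma mc nac p2 m k2 k1 hp.symm, h.pair hM hx mb mc nbc p3 m k2 k1 hp.symm,
      (k rfl).elim]
  refine ⟨⟨fun e he => ?_, fun N hN k => ?_⟩, fun N hN => ?_, fun t ht => ?_, hdj, ?_, ?_, ?_,
    fun N hN => ?_, fun t ht => ?_, fun X hX hn => ?_, fun X hX k r => ?_, fun X hX hb h4 => ?_,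
    fun y hy z hz k x m k1 k2 X F hp => (key y hy z hz k x m k1 k2 X F hp).1,
    fun y hy z hz k x m k1 k2 X F H hp => (key y hy z hz k x m k1 k2 X F hp).2 H⟩
  · have k := mem_ins.1 (mem_quo.1 he).1
    exact ⟨mem_image_of_mem _ k.2.1, mem_image_of_mem _ k.2.2, quo_noloop he⟩
  · obtain ⟨v, hv, rfl⟩ := mem_image.1 hN
    have k1 := one v hv
    have k2 := (h.hT.vtx h.hc (h.hB hv)).1
    rw [← ((nd_cases h.pd v).resolve_left k).2] at k2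
    omega
  · obtain ⟨v, hv⟩ := h.ne N hN
    exact mem_image.2 ⟨v, h.sub N hN hv, nd_of_mem h.pd hN hv⟩
  · obtain ⟨e, he, rfl⟩ := mem_image.1 ht
    exact mem_image.2 ⟨_, ie_mem (cut_sub_tch he), (h.tm he).2⟩
  · rw [tq, hq.1]
    ext t
    simp only [image_insert, image_singleton, mem_insert, mem_singleton]
    (clear * -; tauto)
  · simp only [mem_insert, mem_singleton, not_or]
    exact ⟨ne md ma nad.symm, ne md mb nbd.symm, ne md mc ncd.symm⟩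
  · exact card_eq_three.2 ⟨_, _, _, ne ma mb nab, ne ma mc nac, ne mb mc nbc, rfl⟩
  · obtain ⟨v, hv⟩ := h.ne N hN
    have k := one v (h.sub N hN hv)
    rw [nd_of_mem h.pd hN hv, (h.us N hN).1, singleton_inter_of_notMem (disjoint_left.1 hdj hN),
      card_empty] at k
    exact k.symm
  · obtain ⟨e, he, rfl⟩ := mem_image.1 ht
    have hv := ie_mem (cut_sub_tch he)
    have k := one _ hv
    rw [(h.tm he).2, (h.hT.vtx h.hc (h.hB hv)).1, singleton_inter_of_mem ht, card_singleton] at k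
    omega
  · rw [← (h.cut_un X).2]
    obtain ⟨N, hN⟩ := hn
    obtain ⟨v, hv, -⟩ := him X hX N hN
    obtain ⟨k1, k2⟩ := h.hT _ ((hsub X).trans h.hB) ⟨v, hv⟩
    refine ⟨k1, fun k => (k2 k).elim (fun k3 => ?_) fun k3 => ?_⟩
    · obtain ⟨w, hw⟩ := card_eq_one.1 k3
      refine card_eq_one.2 ⟨nd Bs w, eq_singleton_iff_nonempty_unique_mem.2 ⟨⟨N, hN⟩, ?_⟩⟩
      intro N' hN'
      obtain ⟨u, hu, rfl⟩ := him X hX N' hN'
      rw [hw, mem_singleton] at hu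
      rw [hu]
    · rw [(hsub X).antisymm (h.hB.trans k3.ge), h.hu.1] at k
      omega
  · obtain ⟨k1, k2⟩ := h.cut_un X
    exact IHa_ns hq n1 n2 n3 _ (hsub X) (by omega) (k1.trans r)
  · obtain ⟨N, m1, m2⟩ := not_disjoint_iff.1 hb
    have k1 : N ⊆ un B Bs X := (un_dich h.pd h.sub m2 (h.ne N m2)).1 m1
    have k2 := h.hT.us_card h.hc ((h.sub N m2).trans h.hB) (h.us N m2)
    have k3 := h.hT.four' h.hB h.hu.1 (hsub X) (le_trans (by omega) (card_le_card k1))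
    rw [← (h.cut_un X).2] at h4
    rcases h.cov _ (hsub X) ⟨h4.antisymm k3, fun k => (h.us N m2).2 (k.mono (ins_mono k1))⟩ with
      k4 | ⟨N', m3, k4⟩
    · refine Or.inr (hX.antisymm fun N' hN' => ?_)
      obtain ⟨u, hu, rfl⟩ := mem_image.1 hN'
      rw [← k4] at hu
      exact (mem_un.1 hu).2
    · refine Or.inl (card_eq_one.2 ⟨N', eq_singleton_iff_nonempty_unique_mem.2 ⟨⟨N, m1⟩, ?_⟩⟩)
      intro N hN
      obtain ⟨u, hu, rfl⟩ := him X hX N hN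
      exact nd_of_mem h.pd m3 (k4 hu)

end SG

end Pool.Agent.Work.MP_8c679b_co
end

-- merged part: Pool.Agent.Work.MP_8c679b_co.A3.CE2
section
/-!
One box on the ring; two boxes with all four terminals between them.
-/

set_option autoImplicit false

namespace Pool.Agent.Work.MP_8c679b_co

open Finset

namespace SG

variable {V E : Type} [Fintype V] [DecidableEq V] [DecidableEq E] {G : SG V E}
  {T B W X X0 M M1 M2 : Finset V} {O O0 : Finset E} {v : V} {a b c d x y e0 e1 : E}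
  {s0 : ZMod 2} {g h : E → E}

theorem BCt.symm (h : G.BCt B a b) : G.BCt B b a :=
  ⟨h.1.imp fun _ k => k.imp fun _ r => r.symm fun _ q => q.swap, h.2.imp
    (fun k => k.imp fun _ r => r.imp fun _ q => ⟨q.1, q.2.symm fun _ p => p.swap⟩)
    fun k s ε => (k s ε).imp fun _ r => r.imp fun _ q =>
      ⟨q.1, q.2.1, q.2.2.symm fun _ p => p.swap⟩⟩

theorem BNu.symm (h : G.BNu B a b) : G.BNu B b a :=
  ⟨fun s => (h.1 s).imp fun _ r => r.symm fun _ q => q.swap, fun s => (h.2 s).imp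
    (fun r => r.imp fun _ q => ⟨q.1, q.2.symm fun _ p => p.swap⟩)
    fun k ε => (k ε).imp fun _ r => r.imp fun _ q => ⟨q.1, q.2.1, q.2.2.symm fun _ p => p.swap⟩⟩

theorem CE2_z : ∀ a b c : ZMod 2, (1 + a + (b + c)) + 1 = a + (b + c) ∧
    a + (1 + a + (b + c)) + (b + c) = 1 := by
  decide

/-- A ring with one box that is passed completely; `X0` is passed by a real path. -/
theorem ce_one (hc : G.Cub) (hT : G.HT T) (hB : B ⊆ T)
    (h0 : G.Pas0 X0 O0 e0 e1 ∅ ∅ (Rl.P s0)) (p0 : G.par (O0 ∩ G.ins X0) = s0)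
    (n1 : G.BNu M e1 e0) (d01 : Disjoint X0 M) (hX : X0 ∪ M ⊆ B)
    (hb : G.Bal (G.ins (B \ (X0 ∪ M)))) (hg : G.Sepd (B \ (X0 ∪ M)) (G.cut B)) (ha : a ∈ G.cut B)
    (hK : ∀ S ⊆ B, G.US S → S = B ∨ S ⊆ M) : G.S4 B := by
  have z := CE2_z s0 (G.n e0) (G.n e1)
  have key : ∀ {O1 K1 K0}, G.Pas0 M O1 e1 e0 ∅ K1 (Rl.Mt (1 + s0 + (G.n e0 + G.n e1) + 1)) →
      (∀ t ∈ K0, t ∈ K1 ∨ t = G.cut B) → ∃ O', G.par O' = s0 + G.par (O1 ∩ G.ins M) +
        (G.n e0 + G.n e1) ∧ G.Abs0 B O' ∅ K0 := fun {O1 K1 K0} h1 hk => by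
    obtain ⟨k1, k2⟩ := close_two (Y := univ) h0 h1 d01 (empty_subset _) (subset_univ _)
      (subset_univ _) fun R1 R2 r1 r2 => Rl.y2_mt r1 r2 z.1
    obtain ⟨O', k3, k4⟩ := ce_fin (K0 := K0) hc hT hB hX k1 hb hg ha fun t ht =>
      (hk t ht).imp_left Or.inr
    exact ⟨O', by rw [k3, k2, p0], k4⟩
  have c1 : ∀ v, ∀ t ∈ G.Kv B v, t ∈ G.Kv M v ∨ t = G.cut B := by
    rintro v t ⟨S, r1, r2, r3, rfl⟩
    exact (hK S r1 r2).symm.imp (fun r => ⟨S, r, r2, r3, rfl⟩) (congrArg _)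
  have c3 : ∀ t ∈ G.Kus B, t ∈ G.Kus M ∨ t = G.cut B := by
    rintro t ⟨S, r1, r2, rfl⟩
    exact (hK S r1 r2).symm.imp (fun r => ⟨S, r, r2, rfl⟩) (congrArg _)
  refine ⟨?_, ?_⟩
  · rcases n1.2 (1 + s0 + (G.n e0 + G.n e1)) with ⟨O1, q3, q4⟩ | r
    · obtain ⟨O', k1, k2⟩ := key (q4.imp fun R r => r.mt) c3
      exact ⟨O', G.s a, by rw [k1, q3]; exact z.2,
        k2.cov fun t ht => Or.inl ⟨t, kv_sub ht, Subset.rfl⟩⟩
    · obtain ⟨O1, v, -, q3, q4⟩ := r (1 + s0 + (G.n e0 + G.n e1))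
      obtain ⟨O', k1, k2⟩ := key q4 (c1 v)
      exact ⟨O', v, by rw [k1, q3]; exact z.2, k2⟩
  · obtain ⟨O1, q4⟩ := n1.1 (1 + s0 + (G.n e0 + G.n e1))
    obtain ⟨O', -, k2⟩ := key (q4.imp fun R r => r.mt) c3
    exact ⟨O', k2⟩

/-- edges from the four terminals to a box are its cut -/
theorem CE2_q4 (hc : G.Cub) (hT : G.HT T) (hB : B ⊆ T) (hq : G.Q4 B a b c d) (h2 : 2 < B.card)
    (h4 : (G.cut M).card = 4)
    (hg : ∀ e ∈ G.cut B, G.ie B e ∉ M ∧ g e ∈ G.cut M ∧ G.At (g e) (G.ie B e)) :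
    G.Q4 M (g a) (g b) (g c) (g d) := by
  have inj : ∀ e ∈ G.cut B, ∀ f ∈ G.cut B, e ≠ f → g e ≠ g f := fun e he f hf ne k => by
    have A := (mem_cut.1 (hg e he).2.1).1
    exact FIN_three (X := {G.ie B e}) (S := M) (S' := {G.ie B f})
      (disjoint_singleton_left.2 (hg e he).1)
      (disjoint_singleton.2 (hT.f2 hc hB hq.card h2 he hf ne))
      (disjoint_singleton_right.2 (hg f hf).1) (Cut_tch A (hg e he).2.2 (mem_singleton_self _))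
      (Cut_tch A (k ▸ (hg f hf).2.2) (mem_singleton_self _)) (cut_sub_tch (hg e he).2.1)
  obtain ⟨ma, mb, mc, md⟩ := hq.mem
  obtain ⟨n1, n2, n3, n4, n5, n6⟩ := hq.2
  have n1 := inj a ma b mb n1
  have n2 := inj a ma c mc n2
  have n3 := inj a ma d md n3
  have n4 := inj b mb c mc n4
  have n5 := inj b mb d md n5
  have n6 := inj c mc d md n6
  refine ⟨(eq_of_subset_of_card_le (fun e he => ?_) ?_).symm, n1, n2, n3, n4, n5, n6⟩
  · simp only [mem_insert, mem_singleton] at he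
    rcases he with rfl | rfl | rfl | rfl
    exacts [(hg a ma).2.1, (hg b mb).2.1, (hg c mc).2.1, (hg d md).2.1]
  · rw [h4, card_insert_of_notMem (by simp [n1, n2, n3]), card_insert_of_notMem (by simp [n4, n5]),
      card_pair n6]

/-- the data of two boxes with the terminals between them -/
structure Sand (G : SG V E) (B M1 M2 : Finset V) (g h : E → E) : Prop where
  s1 : M1 ⊆ B
  s2 : M2 ⊆ B
  dj : Disjoint M1 M2
  q3 : ∀ e ∈ G.cut B, G.Q3 {G.ie B e} (h e) (g e) e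
  t1 : ∀ e ∈ G.cut B, G.ie B e ∉ M1 ∧ g e ∈ G.cut M1
  t2 : ∀ e ∈ G.cut B, G.ie B e ∉ M2 ∧ h e ∈ G.cut M2
  all : ∀ v ∈ B, v ∈ M1 ∨ v ∈ M2 ∨ ∃ e ∈ G.cut B, v = G.ie B e

theorem Sand.symm (k : G.Sand B M1 M2 g h) : G.Sand B M2 M1 h g :=
  ⟨k.s2, k.s1, k.dj.symm, fun e he => by
      obtain ⟨r1, r2, r3, r4⟩ := k.q3 e he
      exact ⟨r1.trans (insert_comm _ _ _), r2.symm, r4, r3⟩,
    k.t2, k.t1, fun v hv => or_left_comm.1 (k.all v hv)⟩

theorem Sand.pair (hc : G.Cub) (hT : G.HT T) (hB : B ⊆ T) (h4 : (G.cut B).card = 4)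
    (h2 : 2 < B.card) (k : G.Sand B M1 M2 g h) (hx : x ∈ G.cut B) (hy : y ∈ G.cut B) (ne : x ≠ y)
    (n1 : G.BNu M1 (g x) (g y)) (n2 : G.BCt M2 (h x) (h y))
    (hK : ∀ S ⊆ B, G.US S → S = B ∨ S ⊆ M1 ∨ S ⊆ M2) : G.S4 B := by
  have tx := ie_mem (cut_sub_tch hx)
  have ty := ie_mem (cut_sub_tch hy)
  have ix := (hT.vtx hc (hB tx)).2.1
  have iy := (hT.vtx hc (hB ty)).2.1
  have e : G.ins (B \ ({G.ie B x} ∪ M1 ∪ {G.ie B y} ∪ M2)) = ∅ := by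
    refine eq_empty_of_forall_notMem fun f hf => ?_
    have d1 : Disjoint (B \ ({G.ie B x} ∪ M1 ∪ {G.ie B y} ∪ M2)) M1 :=
      sdiff_disjoint.mono_right fun v hv => by simp [hv]
    have d2 : Disjoint (B \ ({G.ie B x} ∪ M1 ∪ {G.ie B y} ∪ M2)) M2 :=
      sdiff_disjoint.mono_right fun v hv => by simp [hv]
    have r1 := (mem_ins.1 hf).2.1
    rcases k.all _ (mem_sdiff.1 r1).1 with r | r | ⟨z, r2, r3⟩
    · exact disjoint_left.1 d1 r1 r
    · exact disjoint_left.1 d2 r1 r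
    have r4 : f ∈ G.cut {G.ie B z} := (hT.vtx hc (hB (ie_mem (cut_sub_tch r2)))).2.2 ▸
      Cut_tch (mem_ins.1 hf).1 (Or.inl rfl) (mem_singleton.2 r3)
    rw [(k.q3 z r2).1, mem_insert, mem_insert, mem_singleton] at r4
    rcases r4 with rfl | rfl | rfl
    · exact PQ_ins d2 hf (cut_sub_tch (k.t2 z r2).2)
    · exact PQ_ins d1 hf (cut_sub_tch (k.t1 z r2).2)
    · exact not_ins_of_cut r2 (ins_mono sdiff_subset hf)
  refine ce_two hc hT hB ((vtx_p ix (k.q3 x hx)).imp fun _ r => r.1) (by rw [ix]; simp [par])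
    ((vtx_p iy (k.symm.q3 y hy)).imp fun _ r => r.1) (by rw [iy]; simp [par]) n1 n2.symm
    (disjoint_singleton_left.2 (k.t1 x hx).1)
    (disjoint_singleton.2 (hT.f2 hc hB h4 h2 hx hy ne)) (disjoint_singleton_left.2 (k.t2 x hx).1)
    (disjoint_singleton_right.2 (k.t1 y hy).1) k.dj (disjoint_singleton_left.2 (k.t2 y hy).1)
    (union_subset (union_subset (union_subset (singleton_subset_iff.2 tx) k.s1)
      (singleton_subset_iff.2 ty)) k.s2) (e ▸ ⟨fun _ => 0, fun _ r => absurd r (notMem_empty _)⟩)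
    (fun e1 r1 e2 r2 r3 r4 r5 => by_contra fun r6 => ?_) hx hK
  rw [e, (cut_of_sub sdiff_subset r3 (cut_sub_tch r1)).2,
    (cut_of_sub sdiff_subset r4 (cut_sub_tch r2)).2] at r5
  obtain ⟨f, r7, -⟩ := mem_vs.1 (r5.mem_vs (hT.f2 hc hB h4 h2 r3 r4 r6))
  exact notMem_empty f r7

/-- Two boxes; every terminal is adjacent to both of them. -/
theorem ce_sand (hc : G.Cub) (hT : G.HT T) (hB : B ⊆ T) (h4 : (G.cut B).card = 4) (hI : G.IHd B)
    (s1 : M1 ⊆ B) (s2 : M2 ⊆ B) (u1 : G.US M1) (u2 : G.US M2) (dj : Disjoint M1 M2)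
    (t1 : ∀ e ∈ G.cut B, G.ie B e ∉ M1 ∧ ∃ f ∈ G.cut M1, G.At f (G.ie B e))
    (t2 : ∀ e ∈ G.cut B, G.ie B e ∉ M2 ∧ ∃ f ∈ G.cut M2, G.At f (G.ie B e))
    (hK : ∀ S ⊆ B, G.US S → S = B ∨ S ⊆ M1 ∨ S ⊆ M2) : G.S4 B := by
  classical
  have h2 : 2 < B.card := by
    have := card_le_card s1
    have := hT.us_card hc (s1.trans hB) u1
    omega
  obtain ⟨a, ha, b, hb, nab⟩ := one_lt_card.1 (show 1 < (G.cut B).card by omega)
  obtain ⟨c, d, hq⟩ := exists_q4 h4 ha hb nab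
  choose! g g1 g2 using fun e he => (t1 e he).2
  choose! h h1 h2' using fun e he => (t2 e he).2
  have q1 := CE2_q4 (g := g) hc hT hB hq h2 u1.1 fun e he => ⟨(t1 e he).1, g1 e he, g2 e he⟩
  have q2 := CE2_q4 (g := h) hc hT hB hq h2 u2.1 fun e he => ⟨(t2 e he).1, h1 e he, h2' e he⟩
  have tc : ∀ {e f : E} {M : Finset V}, f ∈ G.cut M → G.At f (G.ie B e) → f ∈ G.tch {G.ie B e} :=
    fun k1 k2 => Cut_tch (mem_cut.1 k1).1 k2 (mem_singleton_self _)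
  have q3 : ∀ e ∈ G.cut B, G.Q3 {G.ie B e} (h e) (g e) e := fun e he => by
    have te := ie_mem (cut_sub_tch he)
    have k0 := (hT.vtx hc (hB te)).2.2
    have k1 : h e ≠ g e := fun k => FIN_three (disjoint_singleton_left.2 (t1 e he).1)
      (disjoint_singleton_left.2 (t2 e he).1) dj (tc (h1 e he) (h2' e he))
      (cut_sub_tch (h1 e he)) (k ▸ cut_sub_tch (g1 e he))
    obtain ⟨z, k2⟩ := hT.third hc (hB te) (k0 ▸ tc (h1 e he) (h2' e he))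
      (k0 ▸ tc (g1 e he) (g2 e he)) k1
    have k3 : e ∈ G.cut {G.ie B e} := k0 ▸ tc he ie_at
    rw [k2.1, mem_insert, mem_insert, mem_singleton] at k3
    rcases k3 with k3 | k3 | k3
    · exact absurd (k3 ▸ cut_sub_tch (h1 e he)) (FIN_nt he (singleton_subset_iff.2 te) s2
        (disjoint_singleton_left.2 (t2 e he).1) (tc he ie_at))
    · exact absurd (k3 ▸ cut_sub_tch (g1 e he)) (FIN_nt he (singleton_subset_iff.2 te) s1
        (disjoint_singleton_left.2 (t1 e he).1) (tc he ie_at))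
    · exact k3 ▸ k2
  have k : G.Sand B M1 M2 g h := by
    refine ⟨s1, s2, dj, q3, fun e he => ⟨(t1 e he).1, g1 e he⟩,
      fun e he => ⟨(t2 e he).1, h1 e he⟩, fun v hv => by_contra fun hn => ?_⟩
    let R := B.filter fun v => ¬ (v ∈ M1 ∨ v ∈ M2 ∨ ∃ e ∈ G.cut B, v = G.ie B e)
    have r0 : R ⊆ B := filter_subset _ _
    obtain ⟨f, hf⟩ := card_pos.1 (lt_of_lt_of_le (by norm_num)
      (hT.mono3 (r0.trans hB) ⟨v, mem_filter.2 ⟨hv, hn⟩⟩))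
    have r1 := cut_sub_tch hf
    have rA := (mem_cut.1 hf).1
    have rt : ∀ e ∈ G.cut B, Disjoint R {G.ie B e} := fun e he => disjoint_singleton_right.2
      fun r => (mem_filter.1 r).2 (Or.inr (Or.inr ⟨e, he, rfl⟩))
    have nb : f ∉ G.cut B := fun r => FIN_nt r r0 (singleton_subset_iff.2 (ie_mem (cut_sub_tch r)))
      (rt f r) r1 (tc r ie_at)
    have nm : ∀ {M : Finset V} {g : E → E}, Disjoint R M → G.Q4 M (g a) (g b) (g c) (g d) →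
        (∀ e ∈ G.cut B, G.ie B e ∉ M ∧ G.At (g e) (G.ie B e)) → f ∉ G.tch M :=
      fun {M g} p1 p2 p3 p4 => by
        have p5 := (mem_tch_iff.1 p4).resolve_left fun r => PQ_ins p1.symm r r1
        have p6 : ∃ e ∈ G.cut B, f = g e := by
          rw [p2.1] at p5
          simp only [mem_insert, mem_singleton] at p5
          rcases p5 with r | r | r | r
          exacts [⟨a, ha, r⟩, ⟨b, hb, r⟩, ⟨c, hq.mem.2.2.1, r⟩, ⟨d, hq.mem.2.2.2, r⟩]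
        obtain ⟨e, he, rfl⟩ := p6
        exact FIN_three p1 (rt e he) (disjoint_singleton_right.2 (p3 e he).1) r1
          (Cut_tch rA (p3 e he).2 (mem_singleton_self _)) p4
    have n1 := nm (disjoint_left.2 fun v r r' => (mem_filter.1 r).2 (Or.inl r')) q1
      fun e he => ⟨(t1 e he).1, g2 e he⟩
    have n2 := nm (disjoint_left.2 fun v r r' => (mem_filter.1 r).2 (Or.inr (Or.inl r'))) q2
      fun e he => ⟨(t2 e he).1, h2' e he⟩
    have r2 : G.oe R f ∈ B := by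
      have r3 := mem_ins.1 ((mem_tch_iff.1 (tch_mono r0 r1)).resolve_right nb)
      rcases (oe_at : G.At f (G.oe R f)) with r | r
      exacts [r ▸ r3.2.1, r ▸ r3.2.2]
    have r3 := fun r => oe_not_mem hf (mem_filter.2 ⟨r2, r⟩)
    rcases not_not.1 r3 with r | r | ⟨z, r4, r5⟩
    · exact n1 (Cut_tch rA oe_at r)
    · exact n2 (Cut_tch rA oe_at r)
    have r6 : f ∈ G.cut {G.ie B z} := (hT.vtx hc (hB (ie_mem (cut_sub_tch r4)))).2.2 ▸
      Cut_tch rA oe_at (mem_singleton.2 r5)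
    rw [(q3 z r4).1, mem_insert, mem_insert, mem_singleton] at r6
    rcases r6 with r | r | r
    · exact n2 (r ▸ cut_sub_tch (h1 z r4))
    · exact n1 (r ▸ cut_sub_tch (g1 z r4))
    · exact nb (r ▸ r4)
  have hK' : ∀ S ⊆ B, G.US S → S = B ∨ S ⊆ M2 ∨ S ⊆ M1 := fun S r1 r2 =>
    (hK S r1 r2).imp_right Or.symm
  have P := fun {y} (hy : y ∈ G.cut B) (ne : a ≠ y) n1 n2 =>
    k.pair hc hT hB h4 h2 ha hy ne n1 n2 hK
  have P' := fun {y} (hy : y ∈ G.cut B) (ne : a ≠ y) n1 n2 =>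
    k.symm.pair hc hT hB h4 h2 ha hy ne n1 n2 hK'
  have Pb := P hb nab
  have Pc := P hq.mem.2.2.1 hq.2.2.1
  have Pd := P hq.mem.2.2.2 hq.2.2.2.1
  have Pb' := P' hb nab
  have Pc' := P' hq.mem.2.2.1 hq.2.2.1
  have Pd' := P' hq.mem.2.2.2 hq.2.2.2.1
  have f4 : ∀ {M : Finset V} {a b c d : E}, M ⊆ B → G.US M → G.Q4 M a b c d → M.card = 4 →
      G.BCt M a b ∧ G.BCt M a c ∧ G.BCt M a d := fun p1 p2 p3 p4 =>
    ⟨(bx_four hc hT (p1.trans hB) p2 p3 p4).2, (bx_four hc hT (p1.trans hB) p2 p3.mid p4).2,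
      (bx_four hc hT (p1.trans hB) p2 p3.swap2.mid p4).2⟩
  have w1 := ce_nu hc hT (s1.trans hB) u1 q1 fun S r => hI S (r.trans s1)
  have w2 := ce_nu hc hT (s2.trans hB) u2 q2 fun S r => hI S (r.trans s2)
  rcases w2 with ⟨p, -⟩ | w2
  · obtain ⟨p1, p2, p3⟩ := f4 s2 u2 q2 p
    rcases w1 with ⟨-, r | r | r⟩ | r | r | r
    exacts [Pb r p1, Pc r p2, Pd r p3, Pb r.1 p1, Pb r.1 p1, Pc r.1 p2]
  rcases w1 with ⟨p, -⟩ | w1
  · obtain ⟨p1, p2, p3⟩ := f4 s1 u1 q1 p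
    rcases w2 with r | r | r
    exacts [Pb' r.1 p1, Pb' r.1 p1, Pc' r.1 p2]
  rcases w1 with r | r | r <;> rcases w2 with r' | r' | r'
  exacts [Pb r.1 r'.1.ct, Pb r.1 r'.1.ct, Pc r.2 r'.1.ct, Pb r.1 r'.1.ct, Pb r.1 r'.1.ct,
    Pd r.2 r'.2.ct, Pc r.1 r'.2.ct, Pd r.2 r'.2.ct, Pc r.1 r'.1.ct]

end SG

end Pool.Agent.Work.MP_8c679b_co
end

-- merged part: Pool.Agent.Work.MP_8c679b_co.A3.CG3
section
/-!
The quotient of a four-side without splits: two boxes, adjacent to all terminals.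
-/

set_option autoImplicit false
set_option linter.unusedSectionVars false

namespace Pool.Agent.Work.MP_8c679b_co

open Finset

namespace SG

variable {V E : Type} [Fintype V] [DecidableEq V] [DecidableEq E] [Nonempty E] {G : SG V E}
  {U Nb Tm Tr X Y H D P X1 X2 X3 Y1 Y2 : Finset V} {F R F1 F2 F3 R1 R2 : Finset E}
  {a b c d p q t u v w x y z B N : V} {e f g : E}

/-- rerouting a path along an ear -/
theorem pw_ear (hP : G.Pw y z P F) (hE : G.Pw p q X R) (hp : p ∈ P) (hq : q ∈ P) (ne : p ≠ q)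
    (ho : ∀ w ∈ X, w ∈ P → w = p ∨ w = q) : ∃ Y F', G.Pw y z Y F' ∧ X ⊆ Y ∧ Y ⊆ P ∪ X := by
  obtain ⟨p', q', X1, F1, X2, F2, X3, F3, k, a1, a2, a3, rfl, -, i12, i23, i13, -⟩ :=
    hP.split2 hp hq
  have k1 : G.Pw p' q' X R ∧ p' ≠ q' ∧ ∀ w ∈ X, w ∈ X1 ∪ X2 ∪ X3 → w = p' ∨ w = q' := by
    rcases k with ⟨rfl, rfl⟩ | ⟨rfl, rfl⟩
    exacts [⟨hE, ne, ho⟩, ⟨hE.symm, ne.symm, fun w r1 r2 => (ho w r1 r2).symm⟩]
  obtain ⟨b1, b2, b3⟩ := k1
  have p1 := (a1.cat b1 fun v r1 r2 =>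
    (b3 v r2 (mem_union_left _ (mem_union_left _ r1))).resolve_right
      fun r => b2 ((i13 v r1 (r ▸ a3.left)).1.symm.trans r)).1
  have p2 := (p1.cat a3 fun v r1 r2 => (mem_union.1 r1).elim (fun r => (i13 v r r2).2) fun r =>
    (b3 v r (mem_union_right _ r2)).resolve_left fun r' =>
      b2 (r'.symm.trans (i13 v (r' ▸ a1.right) r2).2)).1
  refine ⟨_, _, p2, subset_union_right.trans subset_union_left, fun v hv => ?_⟩
  simp only [mem_union] at hv ⊢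
  tauto

/-- the two cuts at a terminal -/
theorem QC.adj_cut (h : G.QC U Nb Tm Tr d) (hB : B ∈ Nb) (hx : x ∈ Tm) (hy : y ∈ Tm)
    (hz : z ∈ Tm) (ne : y ≠ z) (nx : x ∉ P) (py : y ∈ P) (pz : z ∈ P) (hP : Disjoint P {B})
    (hX : X ⊆ U) (h1 : x ∈ X) (h2 : x ∈ Y) (d1 : Disjoint X P) (d2 : Disjoint X {B})
    (d4 : Disjoint Y {B}) (c1 : G.Clo X {B} {f}) (c2 : G.Clo Y P {g}) : ∃ e ∈ G.A, G.Je e x B := by
  have hc : G.Clo (X ∩ Y) ∅ {f, g} := fun e he u v hj hu hv => by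
    have k1 := c1 e he u v hj (mem_inter.1 hu).1
    have k2 := c2 e he u v hj (mem_inter.1 hu).2
    have k3 := @disjoint_left.1 hP v
    have k4 := @disjoint_left.1 d1 v
    have k5 := @disjoint_left.1 d4 v
    simp only [mem_inter, mem_singleton, mem_insert] at *
    (clear * - hu hv k1 k2 k3 k4 k5; grind)
  have yX := disjoint_right.1 d1 py
  have zX := disjoint_right.1 d1 pz
  have hv : x ∈ X ∩ Y := mem_inter.2 ⟨h1, h2⟩
  obtain ⟨x', hi⟩ := card_eq_one.1 (h.c2 (inter_subset_left.trans hX) ⟨x, hv⟩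
    ((card_le_card hc.cut).trans card_le_two)
    (h.le2 hy hz ne (fun r => yX (mem_inter.1 r).1) fun r => zX (mem_inter.1 r).1))
  obtain rfl : x = x' := mem_singleton.1 (hi ▸ hv)
  have hc' : G.cut {x} = {f, g} :=
    eq_of_subset_of_card_le (hi ▸ hc.cut) (card_le_two.trans (h.d2 x hx).ge)
  have nfg : f ≠ g := by
    rintro rfl
    have := h.d2 x hx
    rw [hc'] at this
    simp at this
  obtain ⟨fA, a, ha⟩ := h.w.cut1.1 (hc' ▸ mem_insert_self f {g} : f ∈ G.cut {x})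
  obtain ⟨gA, b, hb⟩ := h.w.cut1.1 (hc' ▸ mem_insert_of_mem (mem_singleton_self g) : g ∈ G.cut {x})
  have ea : a ∈ Y.erase x ∨ a ∈ P := (em (a ∈ Y)).imp
    (fun k => mem_erase.2 ⟨(h.w.je fA ha).2.2.symm, k⟩) fun k =>
      (c2 f fA x a ha h2 k).resolve_right fun m => nfg (mem_singleton.1 m)
  by_cases eb : b ∈ X
  swap
  · exact ⟨g, gA, mem_singleton.1 ((c1 g gA x b hb h1 eb).resolve_right fun m =>
      nfg (mem_singleton.1 m).symm) ▸ hb⟩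
  exfalso
  have m1 : b ∈ X.erase x := mem_erase.2 ⟨(h.w.je gA hb).2.2.symm, eb⟩
  have m2 : B ∉ X.erase x := fun r => disjoint_singleton_right.1 d2 (mem_erase.1 r).2
  have m3 : X.erase x ⊆ U := (erase_subset _ _).trans hX
  obtain ⟨m, k1, k2⟩ := clo_cnt m2 (sx_clo hi d1 c1 hc' ha ea)
  have k3 := h.five hB m3 m1 m2 (h.tm hx) (notMem_erase _ _) (h.tb hx hB)
  obtain ⟨k4, k5⟩ := h.ht _ m3 ⟨b, m1⟩
  have k6 := h.le2 hy hz ne yX zX
  have k7 : X ∩ Tm = insert x (X.erase x ∩ Tm) := by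
    rw [← insert_inter_of_mem hx, insert_erase h1]
  rw [k7, card_insert_of_notMem fun r => notMem_erase x X (mem_inter.1 r).1] at k6
  rw [h.d4 B hB, card_singleton] at k2
  rw [card_singleton] at k1
  obtain ⟨b', k8⟩ := card_eq_one.1 (k5 (by omega))
  obtain ⟨t, k9⟩ := card_pos.1 (show 0 < (X.erase x ∩ Tm).card by omega)
  have k10 : t = b := (mem_singleton.1 (k8 ▸ (mem_inter.1 k9).1)).trans
    (mem_singleton.1 (k8 ▸ m1)).symm
  exact h.nadj hx (k10 ▸ (mem_inter.1 k9).2) gA hb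

theorem QC.adj_aux (h : G.QC U Nb Tm Tr d) (hB : B ∈ Nb) (hx : x ∈ Tm) (hy : y ∈ Tr) (hz : z ∈ Tr)
    (ne : y ≠ z) (xy : x ≠ y) (xz : x ≠ z)
    (bad : ∀ P F N H R, G.Pw y z P F → Disjoint P {B} → N ∈ P → N ∈ Nb → G.Cw H R → x ∈ H →
      N ∈ H → Disjoint H {B} → (∀ w ∈ H, w ∈ P → w = N) → False) : ∃ e ∈ G.A, G.Je e x B := by
  have my := h.mt hy
  have mz := h.mt hz
  obtain ⟨P, F, hP, dP⟩ := h.conn hB (h.tm my) (h.tm mz) (h.tb my hB) (h.tb mz hB)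
  have ky : ∀ X F, G.Pw y z X F → x ∈ X → ¬ Disjoint X {B} := fun X F k1 k2 k3 =>
    h.ky y hy z hz ne x hx xy xz X F k1 k2 {B} (ob_box hB) k3.symm
  have fm : ∀ H R, G.Cw H R → x ∈ H → ¬ Disjoint H Nb → ¬ Disjoint H P := fun H R k1 k2 k3 k4 =>
    h.fm y hy z hz ne x hx xy xz P F H hP ⟨R, k1, Or.inr k3⟩ k2 k4.symm
  have xP : x ∉ P := fun k => ky P F hP k dP
  have xB : x ∉ ({B} : Finset V) := notMem_singleton.2 (h.tb hx hB)
  rcases h.w.ed (M := P) (L := {B}) (h.tm hx) xP xB with ⟨X, a1, a2, a3, a4, f, a5⟩ |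
    ⟨H, R, a1, a2, a3, a4, -⟩ | ⟨p, q, X1, X2, F1, F2, a1⟩
  · rcases h.w.ed (M := {B}) (L := P) (h.tm hx) xB xP with ⟨Y, -, b2, b3, -, g, b5⟩ |
      ⟨H, R, b1, b2, b3, -, b4⟩ | ⟨p, q, X1, X2, F1, F2, b1⟩
    · exact h.adj_cut hB hx my mz ne xP hP.left hP.right dP a1 a2 b2 a3 a4 b3 a5 b5
    · exact absurd b4 (fm H R b1 b2 b3)
    · obtain rfl := mem_singleton.1 b1.m1
      obtain rfl := mem_singleton.1 b1.m2
      exact absurd (disjoint_union_left.2 ⟨b1.l1, b1.l2⟩) (fm _ _ (b1.cw xB).1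
        (mem_union_left _ b1.p1.left) fun k => disjoint_left.1 k (mem_union_left _ b1.p1.right) hB)
  · exact absurd a4 (fm H R a1 a2 a3)
  exfalso
  have dE : Disjoint (X1 ∪ X2) {B} := disjoint_union_left.2 ⟨a1.l1, a1.l2⟩
  by_cases k : p = q
  · subst k
    obtain ⟨e, he, f, hf, a, -, b, -, hef, j1, j2, ha, hb⟩ := a1.last xP
    exact bad P F p _ _ hP dP a1.m1 (h.pw_out hP my mz ne a1.m1 (a1.p1.sub he) (a1.p2.sub hf) hef
      j1 j2 ha hb) (a1.cw xP).1 (mem_union_left _ a1.p1.left) (mem_union_left _ a1.p1.right) dE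
      (a1.cw xP).2
  · obtain ⟨b1, -, b2⟩ := a1.pw k
    obtain ⟨Y, F', c1, c2, c3⟩ := pw_ear hP b1 a1.m1 a1.m2 k b2
    exact ky Y F' c1 (c2 (mem_union_left _ a1.p1.left))
      ((disjoint_union_left.2 ⟨dP, dE⟩).mono_left c3)

theorem QC.two_tr (h : G.QC U Nb Tm Tr d) (x : V) :
    ∃ y ∈ Tr, ∃ z ∈ Tr, y ≠ z ∧ x ≠ y ∧ x ≠ z := by
  have k := pred_card_le_card_erase (s := Tr) (a := x)
  rw [h.c3] at k
  obtain ⟨y, hy, z, hz, ne⟩ := one_lt_card.1 (show 1 < (Tr.erase x).card from k)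
  exact ⟨y, (mem_erase.1 hy).2, z, (mem_erase.1 hz).2, ne, (mem_erase.1 hy).1.symm,
    (mem_erase.1 hz).1.symm⟩

theorem QC.adj_d (h : G.QC U Nb Tm Tr d) (hB : B ∈ Nb) : ∃ e ∈ G.A, G.Je e d B := by
  obtain ⟨y, hy, z, hz, ne, k1, k2⟩ := h.two_tr d
  exact h.adj_aux hB h.md hy hz ne k1 k2 fun P F N H R _ _ _ r1 r2 r3 r4 r5 _ =>
    h.ofr ⟨R, r2, Or.inr fun r => disjoint_left.1 r r4 r1⟩ r3 {B} (ob_box hB) r5.symm

/-- every terminal is adjacent to every box -/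
theorem QC.adj (h : G.QC U Nb Tm Tr d) (hx : x ∈ Tm) (hB : B ∈ Nb) : ∃ e ∈ G.A, G.Je e x B := by
  obtain ⟨y, hy, z, hz, ne, k1, k2⟩ := h.two_tr x
  refine h.adj_aux hB hx hy hz ne k1 k2 fun P F N H R hP dP r0 r1 r2 r3 r4 r5 r6 => ?_
  obtain ⟨e, he, j1⟩ := h.adj_d hB
  obtain ⟨f, hf, j2⟩ := h.adj_d r1
  have a1 := hP.inner r0 (h.tb (h.mt hy) r1).symm (h.tb (h.mt hz) r1).symm
  have a2 := r2.deg r4
  have a3 : Disjoint (F ∩ G.cut {N}) (R ∩ G.cut {N}) := disjoint_left.2 fun g g1 g2 => by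
    have g3 := (mem_inter.1 g1).1
    have g4 := (mem_inter.1 g2).1
    exact r2.deg_nl g4 ((r6 _ (r2.ends g4 (Or.inl rfl)) (hP.ends g3 (Or.inl rfl))).trans
      (r6 _ (r2.ends g4 (Or.inr rfl)) (hP.ends g3 (Or.inr rfl))).symm)
  have a4 : F ∩ G.cut {N} ∪ R ∩ G.cut {N} = G.cut {N} := eq_of_subset_of_card_le
    (union_subset inter_subset_right inter_subset_right)
    (by rw [card_union_of_disjoint a3, a1, a2, h.d4 N r1])
  have a5 : G.At f d := j2.at_iff.2 (Or.inl rfl)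
  rcases mem_union.1 (a4.symm ▸ h.w.cut1.2 ⟨hf, d, j2.symm⟩ : f ∈ _ ∪ _) with r | r
  · exact disjoint_singleton_right.1 dP (h.tm_pw hP h.md (hP.ends (mem_inter.1 r).1 a5)
      (fun k => h.nd (k ▸ hy)) (fun k => h.nd (k ▸ hz)) he j1)
  · exact disjoint_singleton_right.1 r5 (h.tm_cw r2 h.md (r2.ends (mem_inter.1 r).1 a5) he j1)

/-- closing a path between two terminals through a box -/
theorem QC.ring_box (h : G.QC U Nb Tm Tr d) (hB : B ∈ Nb) (hy : y ∈ Tm) (hz : z ∈ Tm) (ne : y ≠ z)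
    (hP : G.Pw y z P F) (hb : B ∉ P) : G.Vr Nb (insert B P) := by
  obtain ⟨e, he, j1⟩ := h.adj hy hB
  obtain ⟨f, hf, j2⟩ := h.adj hz hB
  exact ⟨_, (hP.close he hf (fun k => ne (CG2_je j1.symm (k ▸ j2.symm))) j1.symm j2.symm hb).1,
    Or.inr fun k => disjoint_left.1 k (mem_insert_self _ _) hB⟩

/-- splitting a path between the attachments of `c` and `d` -/
theorem QC.one_aux (h : G.QC U Nb Tm Tr d) (hB : B ∈ Nb) (ha : a ∈ Tr) (hb : b ∈ Tr) (hc : c ∈ Tr)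
    (ac : a ≠ c) (a1 : G.Pw a p X1 F1) (a3 : G.Pw q b X3 F3) (d13 : Disjoint X1 X3)
    (b1 : G.Pw c p Y1 R1) (b2 : G.Pw d q Y2 R2) (dY : Disjoint Y1 Y2)
    (o1 : ∀ w ∈ Y1, w ∈ X1 ∪ X3 → w = p) (o2 : ∀ w ∈ Y2, w ∈ X1 ∪ X3 → w = q)
    (hn : B ∉ X1 ∪ X3 ∪ (Y1 ∪ Y2)) : False := by
  have p1 := (a1.cat b1.symm fun v r1 r2 => o1 v r2 (mem_union_left _ r1)).1
  have p2 := (b2.cat a3 fun v r1 r2 => o2 v r1 (mem_union_right _ r2)).1
  simp only [mem_union, not_or] at hn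
  have nd : ∀ t ∈ Tr, d ≠ t := fun t r k => h.nd (k ▸ r)
  refine h.fm a ha c hc ac d h.md (nd a ha) (nd c hc) _ _ _ p1 (h.ring_box hB h.md (h.mt hb)
    (nd b hb) p2 fun r => (mem_union.1 r).elim hn.2.2 hn.1.2)
    (mem_insert_of_mem (mem_union_left _ b2.left)) (disjoint_left.2 fun v r1 r2 => ?_)
  rcases mem_insert.1 r2 with rfl | r2
  · exact (mem_union.1 r1).elim hn.1.1 hn.2.1
  rcases mem_union.1 r1 with r1 | r1 <;> rcases mem_union.1 r2 with r2 | r2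
  · exact disjoint_left.1 d13 r1 (o2 v r2 (mem_union_left _ r1) ▸ a3.left)
  · exact disjoint_left.1 d13 r1 r2
  · exact disjoint_left.1 dY r1 r2
  · exact disjoint_left.1 d13 (o1 v r1 (mem_union_right _ r2) ▸ a1.right) r2

theorem QC.one (h : G.QC U Nb Tm Tr d) (hB : B ∈ Nb) : ∃ B2 ∈ Nb, B2 ≠ B := by
  by_contra hn
  push Not at hn
  obtain ⟨a, b, c, ab, ac, bc, e3⟩ := card_eq_three.1 h.c3
  obtain ⟨ha, hb, hc⟩ : a ∈ Tr ∧ b ∈ Tr ∧ c ∈ Tr := by simp [e3]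
  have nd : ∀ t ∈ Tr, d ≠ t := fun t r k => h.nd (k ▸ r)
  obtain ⟨P, F, hP, dP⟩ := h.conn hB (h.tm (h.mt ha)) (h.tm (h.mt hb)) (h.tb (h.mt ha) hB)
    (h.tb (h.mt hb) hB)
  have att : ∀ x ∈ Tm, x ≠ a → x ≠ b → x ∉ P ∧ ∃ p ∈ P, ∃ X R, G.Pw x p X R ∧
      (∀ w ∈ X, w ∈ P → w = p) ∧ Disjoint X {B} := fun x hx xa xb => by
    obtain ⟨X, R, k1, k2⟩ := h.conn hB (h.tm hx) (h.tm (h.mt ha)) (h.tb hx hB) (h.tb (h.mt ha) hB)
    obtain ⟨p, X1, F1, X2, F2, k3, k4, -, rfl, -, -, -, k5⟩ :=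
      k1.first (M := P) fun r => disjoint_left.1 r k1.right hP.left
    exact ⟨fun k => h.ky a ha b hb ab x hx xa xb P F hP k {B} (ob_box hB) dP.symm,
      p, k3, X1, F1, k4, k5, k2.mono_left subset_union_left⟩
  obtain ⟨cP, p, hp, Y1, R1, b1, o1, n1⟩ := att c (h.mt hc) ac.symm bc.symm
  obtain ⟨dP', q, hq, Y2, R2, b2, o2, n2⟩ := att d h.md (nd a ha) (nd b hb)
  have sep : ∀ w ∈ Y1, w ∈ Y2 → w ∈ P := fun w r1 r2 => by_contra fun r3 => by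
    obtain ⟨X, R, k1, k2, -⟩ := ((QG.edo_rv b2 o2 n2 r2 r3).trans
      (QG.edo_rv b1 o1 n1 r1 r3).symm).pw fun r => (mem_union.1 r).elim dP'
        (notMem_singleton.2 (h.tb h.md hB))
    rw [disjoint_union_right] at k2
    exact h.fm a ha b hb ab d h.md (nd a ha) (nd b hb) P F _ hP (h.ring_box hB h.md (h.mt hc)
      (nd c hc) k1 (disjoint_singleton_right.1 k2.2)) (mem_insert_of_mem k1.left)
      (disjoint_insert_right.2 ⟨disjoint_singleton_right.1 dP, k2.1.symm⟩)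
  have npq : p ≠ q := fun k => by
    subst k
    obtain ⟨e, he, w, w1, j1, w2⟩ := link_last b1 o1 fun r => cP (r ▸ hp)
    obtain ⟨f, hf, w', w3, j2, w4⟩ := link_last b2 o2 fun r => dP' (r ▸ hp)
    have k := h.pw_out hP (h.mt ha) (h.mt hb) ab hp he hf
      (fun r => w2 (sep w w1 (CG2_je j2 (r ▸ j1) ▸ w3))) j1 j2 w2 w4
    exact disjoint_singleton_right.1 dP (hn p k ▸ hp)
  have dY : Disjoint Y1 Y2 := disjoint_left.2 fun w r1 r2 =>
    npq ((o1 w r1 (sep w r1 r2)).symm.trans (o2 w r2 (sep w r1 r2)))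
  obtain ⟨p', q', X1, F1, X2, F2, X3, F3, k, a1, -, a3, rfl, -, -, -, i13, -⟩ := hP.split2 hp hq
  have s13 : X1 ∪ X3 ⊆ X1 ∪ X2 ∪ X3 := union_subset_union subset_union_left Subset.rfl
  have nB : B ∉ X1 ∪ X3 ∪ (Y1 ∪ Y2) := disjoint_singleton_right.1
    (disjoint_union_left.2 ⟨dP.mono_left s13, disjoint_union_left.2 ⟨n1, n2⟩⟩)
  rcases k with ⟨rfl, rfl⟩ | ⟨rfl, rfl⟩
  · exact h.one_aux hB ha hb hc ac a1 a3 (disjoint_left.2 fun v r1 r2 =>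
      npq ((i13 v r1 r2).1.symm.trans (i13 v r1 r2).2)) b1 b2 dY
      (fun w r1 r2 => o1 w r1 (s13 r2)) (fun w r1 r2 => o2 w r1 (s13 r2)) nB
  · exact h.one_aux hB hb ha hc bc a3.symm a1.symm (disjoint_left.2 fun v r1 r2 =>
      npq ((i13 v r2 r1).2.symm.trans (i13 v r2 r1).1)) b1 b2 dY
      (fun w r1 r2 => o1 w r1 (s13 (union_comm X3 X1 ▸ r2)))
      (fun w r1 r2 => o2 w r1 (s13 (union_comm X3 X1 ▸ r2))) (union_comm X1 X3 ▸ nB)

/-- If there is a box, there are exactly two, and every terminal is adjacent to both. -/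
theorem QC.sand (h : G.QC U Nb Tm Tr d) (hB : B ∈ Nb) :
    ∃ B2, B2 ≠ B ∧ Nb = {B, B2} ∧ ∀ t ∈ Tm, ∀ M ∈ Nb, ∃ e ∈ G.A, G.Je e t M := by
  obtain ⟨B2, h2, ne⟩ := h.one hB
  refine ⟨B2, ne, Subset.antisymm (fun N hN => by_contra fun k => ?_)
    (insert_subset hB (singleton_subset_iff.2 h2)), fun t ht M hM => h.adj ht hM⟩
  rw [mem_insert, mem_singleton, not_or] at k
  obtain ⟨e, he, j1⟩ := h.adj_d hB
  obtain ⟨f, hf, j2⟩ := h.adj_d h2
  obtain ⟨g, hg, j3⟩ := h.adj_d hN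
  have k1 := h.w.deg2 (F := {g}) he hf (fun r => ne (CG2_je j2 (r ▸ j1))) j1 j2
    (fun r => k.1 (CG2_je j3 (mem_singleton.1 r ▸ j1)))
    fun r => k.2 (CG2_je j3 (mem_singleton.1 r ▸ j2))
  rw [singleton_inter_of_mem (h.w.cut1.2 ⟨hg, N, j3⟩), card_singleton, h.d2 d h.md] at k1
  omega

end SG

end Pool.Agent.Work.MP_8c679b_co
end

-- merged part: Pool.Agent.Work.MP_8c679b_co.A3.GM
section
/-!
The graph theorem.
-/

set_option autoImplicit false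
set_option linter.unusedSectionVars false

namespace Pool.Agent.Work.MP_8c679b_co

open Finset

namespace SG

variable {V E : Type} [Fintype V] [DecidableEq V] [DecidableEq E] [Nonempty E] {G : SG V E}
  {U Nb Tm X Y Z M L D D' H P Q W X1 X2 A1 A2 A3 A4 S : Finset V}
  {F F' F1 F2 E1 E2 E3 E4 R : Finset E} {a b c v w x y z s t u B B1 B2 : V} {e f g : E}
  {P' Q' Y1 Y2 Y3 Y4 : Finset V} {f' g' α β : E} {R1 R2 R3 R4 R' : Finset E} {w' z' : V}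

/-- HINT: `th_sig` with `D' = D`, `a2_nb`, `a2_two`: at most one box off `D`.  `D` a ring: `a2_gz`,
`fin_real`.  `D = {B}` and no other box: `a2_gz`, `end_box0`.  One other box: `bb_both`, or `bb_one` for
`h` or `Th.fl`. -/
theorem caseA2 (hq : G.QG U Nb Tm) (ha : G.Ha Nb Tm) (hb : G.Hb Nb Tm) (hd : G.Hdd Nb Tm)
    (h : G.Th Nb Tm s t x y A1 A2 A3 A4 S E1 E2 E3 E4 F)
    (hD : G.Ob Nb D) (hj : Disjoint (A1 ∪ A2 ∪ A3 ∪ A4 ∪ S) D) (hm : G.Tmin Nb Tm D F.card) :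
    G.Zall U Nb Tm := by
  obtain ⟨u, h3⟩ := hq.third h.hs h.ht h.st
  obtain ⟨α, α1, β, β1, α2, β2, hc⟩ :=
    th_sig hq ha h hD hD (Or.inl rfl) (by rwa [union_self]) (by rwa [union_self])
  have one : ∀ B ∈ Nb, ∀ B' ∈ Nb, B ∉ D → B' ∉ D → B = B' := fun B b1 B' b2 n1 n2 =>
    a2_two hq ha hd h h3 hD hj ⟨α2, α1⟩ ⟨β2, β1⟩ hc b1 b2 (a2_nb hd h hD hj b1 n1).1
      (a2_nb hd h hD hj b2 n2).1
  rcases id hD with ⟨B, hB, rfl⟩ | ⟨_, -, -, hN⟩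
  · by_cases k : ∀ B' ∈ Nb, B' = B
    · obtain ⟨s', H, R, hz, hg⟩ := a2_gz hq ha hb hd h h3 hD hj ⟨α2, α1⟩ ⟨β2, β1⟩ hc
      exact end_box0 hq ha hb hd hz hB (disjoint_right.2 fun v hv =>
        k v hv ▸ disjoint_singleton_right.1 hz.dj) (hg.mono sdiff_subset)
    obtain ⟨B1, b1, n1⟩ : ∃ B1 ∈ Nb, B1 ∉ ({B} : Finset V) := by
      by_contra k'
      exact k fun B' hB' => by_contra fun n => k' ⟨B', hB', fun m => n (mem_singleton.1 m)⟩
    have hS := (a2_nb hd h hD hj b1 n1).1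
    have hN : Nb = {B1, B} := by
      ext v
      rw [mem_insert]
      refine ⟨fun hv => (em (v ∈ ({B} : Finset V))).symm.imp (fun n => one v hv B1 b1 n n1) id, ?_⟩
      rintro (rfl | m)
      exacts [b1, mem_singleton.1 m ▸ hB]
    by_cases r2 : ∃ z' ∈ A3 ∪ A4, ∃ X R, G.Pw B z' X R ∧
        (∀ v ∈ X, v ∈ A1 ∪ A2 ∪ A3 ∪ A4 → v = z') ∧ Disjoint X (G.rc (A1 ∪ A2 ∪ A3 ∪ A4 ∪ {B}) S)
    swap
    · refine Or.inr (Or.inr (Or.inr (Or.inl (bb_one hq ha hb hd h h3 hD hj ⟨α2, α1⟩ ⟨β2, β1⟩ hc hN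
        hS fun z hz X R hp => ?_))))
      rw [union_assoc (A1 ∪ A2), mem_union] at hz
      exact hz.resolve_right fun m => r2 ⟨z, m, X, R, hp⟩
    obtain ⟨z', z2, X2, F2, r2⟩ := r2
    by_cases r1 : ∃ z ∈ A1 ∪ A2, ∃ X R, G.Pw B z X R ∧
        (∀ v ∈ X, v ∈ A1 ∪ A2 ∪ A3 ∪ A4 → v = z) ∧ Disjoint X (G.rc (A1 ∪ A2 ∪ A3 ∪ A4 ∪ {B}) S)
    · obtain ⟨z, z1, X1, F1, r1⟩ := r1
      exact Or.inr (Or.inr (Or.inr (Or.inr (Or.inl (bb_both hq ha hb hd h h3 hD hj ⟨α2, α1⟩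
        ⟨β2, β1⟩ hc hN hS hm z1 z2 r1 r2)))))
    have e4 : A4 ∪ A3 ∪ A2 ∪ A1 = A1 ∪ A2 ∪ A3 ∪ A4 := by ac_rfl
    refine Or.inr (Or.inr (Or.inr (Or.inl (bb_one hq ha hb hd h.fl h3 hD (e4 ▸ hj) ⟨β2, β1⟩
      ⟨α2, α1⟩ (by rwa [e4, pair_comm]) hN hS ?_))))
    rw [e4]
    intro z hz X R hp
    rw [union_assoc (A1 ∪ A2), mem_union, union_comm A3] at hz
    exact hz.resolve_left fun m => r1 ⟨z, m, X, R, hp⟩
  · obtain ⟨s', H, R, hg⟩ := a2_gz hq ha hb hd h h3 hD hj ⟨α2, α1⟩ ⟨β2, β1⟩ hc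
    exact (fin_real hd hg hN fun B b1 B' b2 => one B b1 B' b2 (disjoint_right.1 hN b1)
      (disjoint_right.1 hN b2)).imp id Or.inl

/-- HINT: `d3`; `caseB` if `He`; else a triple, `tz_ed` for both other terminals, `th_min`,
`caseA2`, `caseA1`. -/
theorem gmain (hq : G.QG U Nb Tm) (ha : G.Ha Nb Tm) (hb : G.Hb Nb Tm) (hD : G.Ob Nb D)
    (hD' : G.Ob Nb D') (hd : Disjoint D D') : G.Zall U Nb Tm := by
  have hdd := d3 hq ha hb
  by_cases he : G.He Nb Tm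
  · exact caseB hq he hD hD' hd
  obtain ⟨H, R, s, L, hz⟩ : ∃ H R s L, G.Tz Nb Tm s H R L := by
    by_contra k
    exact he fun H ⟨R, c, va⟩ s hs sH L hL dj => k ⟨H, R, s, L, hs, c, sH, va, hL, dj⟩
  obtain ⟨t, u, h3⟩ := hq.two hz.tm
  have key : ∀ v ∈ Tm, s ≠ v → G.Zall U Nb Tm ∨
      (v ∉ H ∪ L ∧ ∃ P Q f g, G.Sx U v H L P Q f g) := by
    intro v hv hsv
    obtain ⟨n1, n2, ⟨x, y, A1, A2, A3, A4, S, E1, E2, E3, E4, F, h, hj⟩ | k⟩ :=
      tz_ed hq ha hb hz hz.ob hz.dj (Or.inl rfl) hv hsv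
    · rw [union_self] at hj
      obtain ⟨s, t, x, y, A1, A2, A3, A4, S, E1, E2, E3, E4, F, h, hj, hm⟩ := th_min h hj
      exact Or.inl (caseA2 hq ha hb hdd h hz.ob hj hm)
    · exact Or.inr ⟨notMem_union.2 ⟨n1, n2⟩, k⟩
  rcases key t h3.mem.2.1 h3.2.1 with k | ⟨h1, P, Q, f, g, h⟩
  · exact k
  rcases key u h3.mem.2.2.1 h3.2.2.1 with k | ⟨h2, P', Q', f', g', h'⟩
  · exact k
  exact caseA1 hb hq ha hdd h3 hz h1 h2 h h'

end SG

end Pool.Agent.Work.MP_8c679b_co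
end

-- merged part: Pool.Agent.Work.MP_8c679b_co.A3.ZE
section
/-!
All final configurations close.
-/

set_option autoImplicit false

namespace Pool.Agent.Work.MP_8c679b_co

open Finset

namespace SG

variable {V E : Type} [Fintype V] [DecidableEq V] [DecidableEq E] {G : SG V E}
  {T : Finset V} {Bs : Finset (Finset V)} {v0 : V} {xf : Finset V → E → E → ZMod 2 → Finset V}

theorem z_even [Nonempty E] (h : G.Eh T Bs v0) (hF : G.F2 T) (h2 : G.Ch2 Bs) (hM : G.ThM T)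
    (hI : G.IHd T) (hx : G.PkA T xf) (hk : G.CoreH T Bs)
    (hz : (G.quo T Bs).Zall (T.image (nd Bs)) Bs (G.tq T)) : G.Rall T 0 1 := by
  by_contra hn
  have hA := d_ha h.hc h.hT hF h.hy hx hM hn
  have hb := h.box_h hx hI hn
  refine hn ?_
  rcases hz with z | z | z | z | z | z | z | z | z | z | z
  exacts [z0_even h z, z1_even h hx z, z2_even h hb z, z3_even h hx z, z4_even h hx hA hk z,
    z5_even h hx hA hk z, z6_even h hx hA hb hk z, z7_even h hx hI h2 z,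
    z8_even h hF hx hA hk z, z9_even h hx hI z, z10_even h hx hI hb z]

/-- the case of two disjoint odd circuits -/
theorem d2_glue (hc : G.Cub) (hM : ∀ T, G.ThM T)
    (hk : ∀ T Bs v0 xf, G.Eh T Bs v0 → G.ThM T → G.IHd T → G.PkA T xf → G.CoreH T Bs) :
    G.D2P := by
  intro T hT
  obtain ⟨e, -⟩ := card_pos.1 (show 0 < (G.cut T).card by rw [hT.2.1]; omega)
  haveI : Nonempty E := ⟨e⟩
  exact d2_of hc (fun T _ => hM T) (fun T h m => ihd_of_thm hc h m)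
    (fun T h1 h2 h3 h4 => seven_c hc h1 h2 h3 h4) (fun Γ U Nb Tm D D' => gmain)
    (fun T Bs v0 xf h1 h2 h4 h5 m i x => z_even ⟨hc, h1, h4⟩ h2 h5 m i x
      (hk T Bs v0 xf ⟨hc, h1, h4⟩ m i x)) T hT

end SG

end Pool.Agent.Work.MP_8c679b_co
end

-- merged part: Pool.Agent.Work.MP_8c679b_co.Key.U4
section
/-!
The end of the machine and the two-line theorem.

Hints.  `untie`: `sw2`.  A bead: `fl σ (M.w i x)` closes the swapped member (`Bd.ps`, `cls_tog2`)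
with fewer rungs (`Bd.swap`, `fl_lf`), against `bd_move`.  A four-cycle `N4`: change both signs
(`cls_fl2`); `fl_lf`, `fl_cp`, `fl_le`, `mc_sig`, `fl_xs`.
`f5_sh`: the partner `c` is not on the other track, so it is not tied.  If it is single use
`f5_two`.  Else `mc_bal`, `HT.abs_bal` (`Ab.sl`), `jt_of`, `br_live`: the branch of `c` has the
leaving edges `gx, gy` and at most one more, so exactly three (`HT.mono3`); `tw3`, `f5_joint`.
`f5_five`: `jt_of` for both tracks; the branch has four edges to the tracks and at most one more.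
Four leaving edges are impossible by `lb_br` (the third edge of `a` leaves the branch); `tw5`,
`f5_joint` on the track with the equal pair; the positions on the other track are single vertices
(`nn2`), so no rung is left there.
`machine`: `mc_ex`, `at_three`, `dbl`, `f1`, `by2`; one ring: `end_ring`, `jm`, `f5_two`; two rings:
`end_fam`, `nn2` (`lf_str`), `f5_two`, `f5_sh`, `untie`, `f5_five`.  In the third case of `end_fam`:
if `F.Aj M i x` use `f5_sh` on track `i`, else `untie` and `f5_sh` on track `!i`.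
`thmM`: if `F.WinN G F.nat` fails, `canon` gives `nu = 1`, so the rest is unbalanced (`nu_bal`).
-/

set_option autoImplicit false

namespace Pool.Agent.Work.MP_8c679b_co

open Finset

variable {V E : Type} [Fintype V] [DecidableEq V] [DecidableEq E] {G : SG V E}
  {T U Z X B N N' XU Br : Finset V} {F : Kf V E} {M M' : Mb V E} {i j j' : Bool}
  {k l x y m : ℕ} {σ σ' π : Finset V → ZMod 2} {u : ℕ → Finset V} {h : ℕ → E} {c d e f gx gy : E}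
  {a b a' v q0 : V} {Zs : Finset (Finset V)} {g s : ZMod 2} {Q D O OB : Finset E}
  {α β x1 x2 x3 y1 y2 y3 : ℕ} {p : V → ZMod 2} {φ : E → ZMod 3}

namespace Kf

theorem untie (hF : F.Ok G T) (hH : ¬ F.WinN G g) (hm : F.MC G M σ Q q0)
    (hg : F.Gp G M Q q0 i x1 y1) (ha : F.At G M Q q0 i x a) (hl : F.Lf M σ i x)
    (hj : ¬ F.Aj M i x) : ∃ σ', F.MC G M σ' Q q0 ∧ ¬ F.Lf M σ' i x := by
  have hM := hm.cf.isM
  have hc := hm.cf.cls
  have hn := MB4_lf_nd hl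
  rcases sw2 hF hH hm hg with ⟨k, k1, k2, hk, -⟩ | ⟨α, β, m, u, h, hb⟩
  · have hne : ¬ (i = i ∧ k = x) := fun e => hg.1.2 k k1 k2 a (e.2 ▸ ha)
    obtain ⟨f1, -, f3⟩ := fl_lf hF hM hl hj
    refine ⟨fl (fl σ (M.w i x)) (M.w i k),
      mc_sig hm (cls_fl2 hM hc hn hk (Or.inr rfl) hne) ?_, fun h' => f1 ⟨h'.1, ?_⟩⟩
    · by_cases hlk : F.Lf M (fl σ (M.w i x)) i k
      · have := (fl_le hF hM (Or.inl hlk)).2
        omega
      · have := (fl_cp hF hM hk.1 hlk).2.2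
        omega
    · rw [← fl_xs hM hk.1 hn.1 fun e => hne ⟨rfl, e.2.symm⟩]
      exact h'.2
  · exfalso
    obtain ⟨l, hl', e1, e2, e3⟩ := Bd.ps hM hb hn.1 (Or.inr (Or.inr (Or.inr hn.2)))
    have hM' := hb.ear.isM hF.wf hM
    obtain ⟨-, s2, s3, s4, -⟩ := Bd.swap (σ := σ) (Zs := ∅) hF hM hb
    have hnd : F.Nd (M.rr i α β m u h) i l := ⟨hl', by rw [e1]; exact hn.2⟩
    have hc' := cls_tog2 hc (Or.inr rfl) hM' hnd s3 s4
    have hL : F.Lf (M.rr i α β m u h) σ i l :=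
      ⟨hl', by rw [MB6_xs e1 e2 e3, e1]; exact hl.2⟩
    have hA : ¬ F.Aj (M.rr i α β m u h) i l := fun k =>
      hj ⟨hn, by have := k.2; rwa [e1, e2, e3] at this⟩
    have := (fl_lf hF hM' hL hA).2.2
    have := (bd_move hF hH hm hg hb hc').1
    omega

omit [Fintype V] in
/-- a single label is a unit when the tracks lie on two rings -/
theorem U4_gu (hty : F.ty = false) (hs : ASi (F.At G M Q q0) i x a)
    (ht : ¬ F.Ti G M σ Q q0 i a ∨ (F.Lf M σ i x ∧ F.Aj M i x)) : F.Gu G M σ Q q0 i x a := by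
  refine ⟨hs.1, fun j y hj hy => ?_, ht⟩
  rcases hj with k | k
  · rw [hty] at k
    cases k
  · subst k
    exact ⟨rfl, hs.2 y hy⟩

/-- a potential and a solution on the branch of a label -/
theorem U4_pot (hF : F.Ok G T) (hH : ¬ F.WinN G g) (hm : F.MC G M σ Q q0)
    (ha : F.At G M Q q0 i x a) (hB : Br = (G.lb (F.rest M) Q a).erase a) :
    Br ⊆ F.rest M ∧ Br ⊆ T ∧ ∃ p O φ, (∀ e ∈ G.ins Br, G.sw p e = 0) ∧ G.St Br O ∅ ∧
      G.Sl Br O ∅ φ := by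
  have h1 : Br ⊆ F.rest M := hB ▸ (erase_subset _ _).trans (SG.lb_self hm.cf.odd ha.1).2
  have h2 : Br ⊆ T := h1.trans (mc_fh hF hH hm).2.2.1
  obtain ⟨p, hp⟩ : G.Bal (G.ins Br) :=
    (mc_bal hF hH hm ha.1 ha.2.1).mono (SG.ins_mono (hB ▸ erase_subset _ _))
  obtain ⟨O, -, hS, hA⟩ := hF.hT.abs_bal h2 ⟨p, hp⟩
  obtain ⟨φ, hφ⟩ := hA.sl
  exact ⟨h1, h2, p, O, φ, hp, hS, hφ⟩

/-- equal twisted outflows on the two edges to track `i` -/
theorem U4_join (hF : F.Ok G T) (hH : ¬ F.WinN G g) (hm : F.MC G M σ Q q0)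
    (hty : F.ty = false) (hA : AAb (F.At G M Q q0) i x1 x x3 a' a) (hu : F.Gu G M σ Q q0 i x a)
    (ho : ∀ z, F.At G M Q q0 (!i) z a' → ¬ F.Lf M σ (!i) z)
    (hB : Br = (G.lb (F.rest M) Q a').erase a') (hS : G.St Br OB ∅) (hφ : G.Sl Br OB ∅ φ)
    (hx : gx ∈ G.cut Br ∧ gx ∈ G.cut (M.w i x1)) (hy : gy ∈ G.cut Br ∧ gy ∈ G.cut (M.w i x3))
    (hall : ∀ e ∈ G.cut Br, ∀ k ≤ M.n i, e ∈ G.cut (M.w i k) → e = gx ∨ e = gy)
    (hj : F.Jt G M i (M.w i x1) (M.w i x) (M.w i x3) (F.e M i x) (F.e M i (x + 1)) s)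
    (hs : s + F.lam i + G.n gx + G.n gy = p (G.ie Br gx) + p (G.ie Br gy))
    (ht : chi (p (G.ie Br gx)) * G.out Br φ gx = chi (p (G.ie Br gy)) * G.out Br φ gy) :
    False := by
  obtain ⟨e0, he0, hv⟩ := br_live hF hH hm hA.2.2.1.1 hA.2.2.1.2.1
  refine f5_joint hF hH hm hty hA hu hB hS hφ hx hy (fun e he => ?_) hj ?_
  · rcases hv e (hB ▸ he) with k | ⟨j, y, hy', k1, k2, k3⟩
    · exact Or.inr (Or.inr (Or.inl (k ▸ he0)))
    · by_cases hji : j = i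
      · subst hji
        exact (hall e he y hy' k1).imp_right Or.inl
      · obtain rfl : j = !i := Bool.eq_not.2 hji
        exact Or.inr (Or.inr (Or.inr (k3 (ho y k2))))
  · rw [hs, chi_add]
    linear_combination (chi (p (G.ie Br gy)) : ZMod 3) * ht +
      G.out Br φ gy * chi_mul_self (R := ZMod 3) (p (G.ie Br gy))



theorem f5_sh (hF : F.Ok G T) (hH : ¬ F.WinN G g) (hm : F.MC G M σ Q q0)
    (hty : F.ty = false) (hs : ASh (F.At G M Q q0) i x a)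
    (ht : ¬ F.Ti G M σ Q q0 i a ∨ (F.Lf M σ i x ∧ F.Aj M i x)) : False := by
  obtain ⟨hsi, ⟨u0, w0, hg⟩, c0, hca, hno, hcase⟩ := hs
  have hu := U4_gu hty hsi ht
  rcases hcase with ⟨y, hy⟩ | ⟨x1, x3, hA⟩
  · exact f5_two hF hH hm (Or.inr rfl) (Or.inr rfl) hu
      (U4_gu hty hy (Or.inl fun k => k.2.elim fun z hz => hno z hz.1)) hca.symm hg
  · obtain ⟨-, hT, p, O, φ, hp, hS, hφ⟩ := U4_pot hF hH hm hA.2.2.1 rfl
    obtain ⟨gx, gy, s, hx, hy, -, hall, hj, hs⟩ := jt_of hF hH hm hA rfl hp hty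
    obtain ⟨e0, -, hv⟩ := br_live hF hH hm hA.2.2.1.1 hA.2.2.1.2.1
    have hsub : G.cut ((G.lb (F.rest M) Q c0).erase c0) ⊆ {gx, gy, e0} := fun e he => by
      simp only [mem_insert, mem_singleton]
      rcases hv e he with k | ⟨j, y, hy', k1, k2, -⟩
      · exact Or.inr (Or.inr k)
      · by_cases hji : j = i
        · subst hji
          exact (hall e he y hy' k1).imp_right Or.inl
        · obtain rfl : j = !i := Bool.eq_not.2 hji
          exact absurd k2 (hno y)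
    have h3 := hF.hT.mono3 hT ⟨_, SG.ie_mem (SG.cut_sub_tch hx.1)⟩
    have h4 : ({gx, gy, e0} : Finset E).card = 3 :=
      le_antisymm card_le_three (h3.trans (card_le_card hsub))
    exact U4_join hF hH hm hty hA hu (fun z hz => absurd hz (hno z)) rfl hS hφ hx hy hall hj hs
      (tw3 hp ⟨eq_of_subset_of_card_le hsub (h4 ▸ h3), card_triple_eq_three_iff.1 h4⟩ hS hφ)

/-- no rung is left at a label that has two positions on the track -/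
theorem U4_two (hF : F.Ok G T) (hH : ¬ F.WinN G g) (hm : F.MC G M σ Q q0)
    (hA : AAb (F.At G M Q q0) i x1 x x3 a' a) (hz : F.At G M Q q0 i y a') : ¬ F.Lf M σ i y := by
  intro hl
  have h1 := nn2 hF hH hm hz hA.2.2.1 (MB4_lf_nd hl).2
  have h3 := nn2 hF hH hm hz hA.2.2.2.1 (MB4_lf_nd hl).2
  have := hA.1.1.1
  have := hA.2.1.1.1
  omega



theorem f5_five {c' : V} (hF : F.Ok G T) (hH : ¬ F.WinN G g) (hm : F.MC G M σ Q q0)
    (hty : F.ty = false) (h1 : AAb (F.At G M Q q0) false x1 x x3 a b)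
    (h2 : AAb (F.At G M Q q0) true y1 y y3 a c') (hb : ∀ z, ¬ F.At G M Q q0 true z b)
    (hc : ∀ z, ¬ F.At G M Q q0 false z c') : False := by
  have hM := hm.cf.isM
  have a1 := h1.2.2.1
  obtain ⟨Br, hB⟩ : ∃ Br, Br = (G.lb (F.rest M) Q a).erase a := ⟨_, rfl⟩
  obtain ⟨hR, hT, p, O, φ, hp, hS, hφ⟩ := U4_pot hF hH hm a1 hB
  obtain ⟨gx, gy, s, hx, hy, hne, hall, hj, hs⟩ := jt_of hF hH hm h1 hB hp hty
  obtain ⟨gx', gy', s', hx', hy', hne', hall', hj', hs'⟩ := jt_of hF hH hm h2 hB hp hty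
  obtain ⟨e0, -, hv⟩ := br_live hF hH hm a1.1 a1.2.1
  rw [← hB] at hv
  have hsub : G.cut Br ⊆ {gx, gy, gx', gy', e0} := fun e he => by
    simp only [mem_insert, mem_singleton]
    rcases hv e he with k | ⟨j, y, hy', k1, -⟩
    · tauto
    · cases j
      · have := hall e he y hy' k1
        tauto
      · have := hall' e he y hy' k1
        grind
  have hd : ∀ {e k l}, k ≤ M.n false → l ≤ M.n true → e ∈ G.cut Br → e ∈ G.cut (M.w false k) →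
      e ∉ G.cut (M.w true l) := fun hk hl k1 k2 k3 =>
    SG.Quo_three (hM.disj hF.wf hk hl (by simp)) ((rest_disj hk).mono_right hR)
      ((rest_disj hl).mono_right hR) (SG.cut_sub_tch k2) (SG.cut_sub_tch k3) (SG.cut_sub_tch k1)
  have n1 := a1.2.2.1
  have n3 := h1.2.2.2.1.2.2.1
  have m1 := h2.2.2.1.2.2.1
  have m3 := h2.2.2.2.1.2.2.1
  have d1 : gx ≠ gx' := fun k => hd n1 m1 hx.1 hx.2 (k ▸ hx'.2)
  have d2 : gx ≠ gy' := fun k => hd n1 m3 hx.1 hx.2 (k ▸ hy'.2)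
  have d3 : gy ≠ gx' := fun k => hd n3 m1 hy.1 hy.2 (k ▸ hx'.2)
  have d4 : gy ≠ gy' := fun k => hd n3 m3 hy.1 hy.2 (k ▸ hy'.2)
  obtain ⟨fh, -, hRT⟩ := mc_fh hF hH hm
  obtain ⟨e, e1, -, -, -, -, -, -, e2⟩ := SG.lb_br hF.hc hF.hT hRT.1 fh hm.cf.odd a1.1
  have e3 : e ∈ G.cut Br := by
    rcases e2 with k | k
    · have := SG.ie_mem (SG.cut_sub_tch hx.1)
      rw [hB, k.2] at this
      simp at this
    · exact hB ▸ k.1
  have ha : ({a} : Finset V) ⊆ F.rest M :=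
    singleton_subset_iff.2 ((SG.lb_self hm.cf.odd a1.1).2 (SG.lb_self hm.cf.odd a1.1).1)
  have e4 : ∀ {j k}, k ≤ M.n j → e ∉ G.cut (M.w j k) := fun hk k1 =>
    SG.Quo_three ((rest_disj hk).mono_right hR) ((rest_disj hk).mono_right ha)
      (by rw [hB]; simp) (SG.cut_sub_tch k1) (SG.cut_sub_tch e3) (SG.cut_sub_tch e1)
  have f1 : gx ≠ e := fun k => e4 n1 (k ▸ hx.2)
  have f2 : gy ≠ e := fun k => e4 n3 (k ▸ hy.2)
  have f3 : gx' ≠ e := fun k => e4 m1 (k ▸ hx'.2)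
  have f4 : gy' ≠ e := fun k => e4 m3 (k ▸ hy'.2)
  have h5 : (G.cut Br).card = 5 := by
    refine le_antisymm ((card_le_card hsub).trans card_le_five) ?_
    have k1 : ({gx, gy, gx', gy', e} : Finset E) ⊆ G.cut Br := by
      simp only [insert_subset_iff, singleton_subset_iff]
      exact ⟨hx.1, hy.1, hx'.1, hy'.1, e3⟩
    have k2 : ({gx, gy, gx', gy', e} : Finset E).card = 5 := by
      rw [card_insert_of_notMem (by simp [hne, d1, d2, f1]),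
        card_insert_of_notMem (by simp [d3, d4, f2]), card_insert_of_notMem (by simp [hne', f3]),
        card_pair f4]
    exact k2 ▸ card_le_card k1
  rcases tw5 hp h5 hx.1 hy.1 hx'.1 hy'.1 ⟨hne, d1, d2, d3, d4, hne'⟩ hS hφ with k | k
  · exact U4_join hF hH hm hty h1
      (U4_gu hty h1.2.2.2.2.1 (Or.inl fun t => t.2.elim fun z hz => hb z hz.1))
      (fun z hz => U4_two hF hH hm h2 hz) hB hS hφ hx hy hall hj hs k
  · exact U4_join hF hH hm hty h2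
      (U4_gu hty h2.2.2.2.2.1 (Or.inl fun t => t.2.elim fun z hz => hc z hz.1))
      (fun z hz => U4_two hF hH hm h1 hz) hB hS hφ hx' hy' hall' hj' hs' k

theorem machine (hF : F.Ok G T) (hM : F.IsM G M) (hc : F.Cb G M)
    (hu : ¬ G.Bal (G.ins (F.rest M))) (g : ZMod 2) : F.WinN G g := by
  by_contra hH
  obtain ⟨M, σ, Q, q0, hm⟩ := mc_ex hF hH hM hc hu
  obtain ⟨a, b, c, hab, hac, hbc, ha, hb, hc⟩ := at_three hF hH hm
  have one := fun i x a b => dbl (i := i) (x := x) (a := a) (b := b) hF hH hm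
  have two := fun i x y a b x1 y1 x2 y2 => by2 (i := i) (x := x) (y := y) (a := a) (b := b)
    (x1 := x1) (y1 := y1) (x2 := x2) (y2 := y2) hF hH hm
  cases hty : F.ty
  · have gu : ∀ {i x a}, ASi (F.At G M Q q0) i x a →
        (∀ z, F.At G M Q q0 (!i) z a → ¬ F.Lf M σ (!i) z) → F.Gu G M σ Q q0 i x a :=
      fun k1 k2 => ⟨k1.1, fun j y s k => by
        obtain rfl := s.resolve_left (by simp [hty])
        exact ⟨rfl, k1.2 y k⟩, Or.inl fun ⟨_, z, k3, k4⟩ => k2 z k3 k4⟩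
    rcases end_fam (Lf := F.Lf M σ) one hab hac hbc ha hb hc
      (fun i x y a u w k1 k2 k3 k4 => f1 hF hH hm k1 k2 k3 (Or.inl ⟨i, u, w, Or.inr rfl, k4⟩)) two
      (fun i x y a k1 k2 k3 => nn2 hF hH hm k1 k2 (MB4_lf_nd k3).2) with
      ⟨i, x, y, a, b, k1, k2, k3, ⟨u, w, k4⟩, k5, k6⟩ | ⟨i, x, a, k1, k2⟩ |
      ⟨i, x, y, a, k1, k2, k3⟩ | ⟨x1, x, x3, y1, y, y3, a, b, c, k1, k2, k3, k4⟩
    · exact f5_two hF hH hm (Or.inr rfl) (Or.inr rfl) (gu k2 k5) (gu k3 k6) k1 k4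
    · exact f5_sh hF hH hm hty k1 (Or.inl fun ⟨_, z, k3, k4⟩ => k2 z k3 k4)
    · by_cases hj : F.Aj M i x
      · exact f5_sh hF hH hm hty k1 (Or.inr ⟨k3, hj⟩)
      obtain ⟨u, w, k4⟩ := k1.2.1
      obtain ⟨σ', hm', k5⟩ := untie hF hH hm k4 k1.1.1 k3 hj
      refine f5_sh hF hH hm' hty k2 (Or.inl fun ⟨_, z, k6, k7⟩ => ?_)
      rw [Bool.not_not] at k6 k7
      exact k5 (k1.1.2 z k6 ▸ k7)
    · exact f5_five hF hH hm hty k1 k2 k3 k4
  · obtain ⟨⟨j, u, w, hg⟩, i, x, a, i', y, b, k1, k2, k3, k4, k5⟩ :=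
      end_ring one hab hac hbc ha hb hc (fun i x y a j u w k1 k2 k3 k4 =>
        f1 hF hH hm k1 k2 k3 (Or.inl ⟨j, u, w, Or.inl hty, k4⟩)) two
      fun i x1 x x3 a y1 y2 b c => jm hF hH hm hty
    exact f5_two hF hH hm (Or.inl hty) (Or.inl hty)
      ⟨k2, fun k z _ => k4 k z, Or.inl fun k => by simpa [hty] using k.1⟩
      ⟨k3, fun k z _ => k5 k z, Or.inl fun k => by simpa [hty] using k.1⟩ k1 hg

theorem thmM (hF : F.Ok G T) (hM : F.IsM G M) (hc : F.Cb G M) :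
    F.WinN G F.nat ∧ (¬ G.Bal (G.ins (F.rest M)) → ∀ g, F.WinN G g) := by
  refine ⟨by_contra fun hH => hH (machine hF hM hc (fun hb => ?_) _), machine hF hM hc⟩
  have k := (canon hF hH hM hc).2
  rw [(SG.nu_bal hb).1, z2_add_self, zero_add] at k
  exact zero_ne_one k

end Kf

end Pool.Agent.Work.MP_8c679b_co
end

-- merged part: Pool.Agent.Work.MP_8c679b_co.Key.Exp
section
/-!
The two-line theorem in the form used by the assembly.
-/

set_option autoImplicit false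

namespace Pool.Agent.Work.MP_8c679b_co

variable {V E : Type} [Fintype V] [DecidableEq V] [DecidableEq E]

theorem SG.thM_all (G : SG V E) (T : Finset V) : G.ThM T :=
  fun _ _ h hM hc => Kf.thmM h hM hc

end Pool.Agent.Work.MP_8c679b_co
end

-- merged part: Pool.Agent.Work.MP_8c679b_co.A3.KY
section
/-!
A side without splits is a seed; the case of two disjoint odd circuits.
-/

set_option autoImplicit false

namespace Pool.Agent.Work.MP_8c679b_co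

open Finset

namespace SG

variable {V E : Type} [Fintype V] [DecidableEq V] [DecidableEq E] {G : SG V E}
  {T B : Finset V} {a b c d : E} {xf : Finset V → E → E → ZMod 2 → Finset V}

theorem core_ns (hc : G.Cub) (hT : G.HT T) (hM : G.ThM T) (hI : G.IHd T) (hx : G.PkA T xf)
    (hB : B ⊆ T) (hu : G.US B) (hq : G.Q4 B a b c d) (n1 : G.NC B a b) (n2 : G.NC B a c)
    (n3 : G.NC B a d) (p1 : ∀ s, ¬ G.Pw0 B a b s) (p2 : ∀ s, ¬ G.Pw0 B a c s)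
    (p3 : ∀ s, ¬ G.Pw0 B b c s) : G.S4 B := by
  have : Nonempty E := ⟨a⟩
  have cv := ns_term hc hT hM hx hB hu hq n1 n2 n3 p1 p2 p3
  obtain ⟨Bs, bx⟩ := ns_bx hc hT hB hq.card cv
  have h : G.Kq T B Bs := ⟨hc, hT, hB, hu, bx, cv⟩
  rcases Bs.eq_empty_or_nonempty with rfl | ⟨M1, m1⟩
  · exact ns_zero hc hT hM hx hB hu hq (fun S k1 k2 => (h.cov S k1 k2).resolve_right
      fun ⟨N, k, _⟩ => notMem_empty N k) p1 p2 p3
  obtain ⟨M2, ne, e2, k⟩ := (h.qc hM hx hq n1 n2 n3 p1 p2 p3).sand m1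
  have m2 : M2 ∈ Bs := e2 ▸ mem_insert_of_mem (mem_singleton_self _)
  have t : ∀ M ∈ Bs, ∀ e ∈ G.cut B, G.ie B e ∉ M ∧ ∃ f ∈ G.cut M, G.At f (G.ie B e) :=
    fun M m e he => by
      obtain ⟨f, k1, k2⟩ := k _ (mem_image_of_mem _ he) M m
      obtain ⟨r1, r2, -⟩ := quo_je_inv h.pd k1 k2
      exact ⟨(h.tm he).1 M m, f, r2, mem_singleton.1 (ie_mem (cut_sub_tch r1)) ▸ ie_at⟩
  refine ce_sand hc hT hB hq.card (fun S r => hI S (r.trans hB)) (h.sub _ m1) (h.sub _ m2)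
    (h.us _ m1) (h.us _ m2) (h.pd _ m1 _ m2 ne.symm) (t _ m1) (t _ m2) fun S k1 k2 =>
    (h.cov S k1 k2).imp_right fun ⟨N, r1, r2⟩ => ?_
  rw [e2, mem_insert, mem_singleton] at r1
  exact r1.imp (fun r => r2.trans r.le) fun r => r2.trans r.le

/-- the case of two disjoint odd circuits -/
theorem d2p (hc : G.Cub) : G.D2P :=
  d2_glue hc G.thM_all fun _ _ _ _ h m i x => h.core_of i fun _ hB hu _ _ _ _ =>
    core_ns hc h.hT.1 m i x hB hu

end SG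

end Pool.Agent.Work.MP_8c679b_co
end
end
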