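import Pool.Agent.Work.MP_8c679b_co.Blow
import Pool.Agent.Work.MP_8c679b_co.A3.Defs

/-!
A cyclic order at every vertex that keeps the graph three-edge-connected.
-/

set_option autoImplicit false

namespace Pool.Agent.Work.MP_8c679b_co

open Finset

/-- The successor in the cyclic order of each fibre.
HINT: `π x` is the member of the fibre with the least position above that of `x`, or the member
with the least position if there is none (or sort each fibre and use `List.formPerm` /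
`finRotate`).  A change of membership between two positions gives a crossing between them. -/
theorem A3Perm_cyc {H V : Type} [Fintype H] [DecidableEq H] [DecidableEq V] (x : H → V)
    (S : Finset H) (pos : H → ℕ) (hp : Set.InjOn pos S) : ∃ π : Equiv.Perm H,
    (∀ h, x (π h) = x h) ∧ (∀ h, h ∉ S → π h = h) ∧
    (∀ K : Finset H, ∀ a ∈ S, ∀ b ∈ S, x a = x b → pos a < pos b → ¬ (a ∈ K ↔ b ∈ K) →
      (∃ c ∈ S, x c = x a ∧ pos a ≤ pos c ∧ pos c < pos b ∧ ¬ (c ∈ K ↔ π c ∈ K)) ∧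
      ∃ c ∈ S, x c = x a ∧ (pos c < pos a ∨ pos b ≤ pos c) ∧ ¬ (c ∈ K ↔ π c ∈ K)) := by
  have k0 : ∀ h : H, ∃ n : H, x n = x h ∧ (h ∉ S → n = h) ∧ (h ∈ S → n ∈ S ∧
      ((pos h < pos n ∧ ∀ c ∈ S, x c = x h → pos h < pos c → pos n ≤ pos c) ∨
        ∀ c ∈ S, x c = x h → pos c ≤ pos h ∧ pos n ≤ pos c)) := by
    intro h
    by_cases hS : h ∈ S
    · by_cases k : ∃ c ∈ S, x c = x h ∧ pos h < pos c
      · obtain ⟨c, k1, k2⟩ := k
        obtain ⟨n, n1, n2⟩ := exists_min_image (S.filter fun c => x c = x h ∧ pos h < pos c) pos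
          ⟨c, mem_filter.2 ⟨k1, k2⟩⟩
        obtain ⟨n3, n4, n5⟩ := mem_filter.1 n1
        exact ⟨n, n4, fun k => absurd hS k, fun _ => ⟨n3, Or.inl ⟨n5, fun c c1 c2 c3 =>
          n2 c (mem_filter.2 ⟨c1, c2, c3⟩)⟩⟩⟩
      · obtain ⟨n, n1, n2⟩ := exists_min_image (S.filter fun c => x c = x h) pos
          ⟨h, mem_filter.2 ⟨hS, rfl⟩⟩
        obtain ⟨n3, n4⟩ := mem_filter.1 n1
        exact ⟨n, n4, fun k => absurd hS k, fun _ => ⟨n3, Or.inr fun c c1 c2 =>
          ⟨not_lt.1 fun c3 => k ⟨c, c1, c2, c3⟩, n2 c (mem_filter.2 ⟨c1, c2⟩)⟩⟩⟩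
    · exact ⟨h, rfl, fun _ => rfl, fun k => absurd k hS⟩
  choose f f1 f2 f3 using k0
  have up : ∀ a ∈ S, ∀ b ∈ S, x b = x a → pos a < pos b → pos a < pos (f a) ∧ pos (f a) ≤ pos b := by
    intro a ha b hb hx hl
    rcases (f3 a ha).2 with k | k
    · exact ⟨k.1, k.2 b hb hx hl⟩
    · exact absurd (k b hb hx).1 (not_le.2 hl)
  have lt : ∀ a ∈ S, ∀ b ∈ S, pos a < pos b → f a ≠ f b := by
    intro a ha b hb hl he
    have hx : x b = x a := by rw [← f1 b, ← he, f1]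
    obtain ⟨k1, k2⟩ := up a ha b hb hx hl
    rw [he] at k1 k2
    rcases (f3 b hb).2 with k | k
    · exact absurd k.1 (not_lt.2 k2)
    · exact absurd (k a ha hx.symm).2 (not_le.2 k1)
  have inj : Function.Injective f := by
    intro a b he
    by_cases ha : a ∈ S <;> by_cases hb : b ∈ S
    · rcases lt_trichotomy (pos a) (pos b) with k | k | k
      exacts [absurd he (lt a ha b hb k), hp ha hb k, absurd he.symm (lt b hb a ha k)]
    · exact absurd (f2 b hb ▸ he ▸ (f3 a ha).1) hb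
    · exact absurd (f2 a ha ▸ he ▸ (f3 b hb).1) ha
    · rw [← f2 a ha, he, f2 b hb]
  have cr : ∀ K : Finset H, ∀ a ∈ S, ∀ b ∈ S, x a = x b → pos a < pos b → ¬ (a ∈ K ↔ b ∈ K) →
      ∃ c ∈ S, x c = x a ∧ pos a ≤ pos c ∧ pos c < pos b ∧ ¬ (c ∈ K ↔ f c ∈ K) := by
    intro K a ha b hb hx hl hK
    obtain ⟨c, c1, c2⟩ := exists_max_image
      (S.filter fun c => x c = x a ∧ pos a ≤ pos c ∧ pos c < pos b ∧ (c ∈ K ↔ a ∈ K)) pos
      ⟨a, mem_filter.2 ⟨ha, rfl, le_rfl, hl, Iff.rfl⟩⟩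
    obtain ⟨c3, c4, c5, c6, c7⟩ := mem_filter.1 c1
    refine ⟨c, c3, c4, c5, c6, fun k => ?_⟩
    obtain ⟨k1, k2⟩ := up c c3 b hb (hx.symm.trans c4.symm) c6
    rcases k2.lt_or_eq with k3 | k3
    · exact absurd (c2 (f c) (mem_filter.2 ⟨(f3 c c3).1, (f1 c).trans c4, c5.trans k1.le, k3,
        k.symm.trans c7⟩)) (not_le.2 k1)
    · rw [hp (f3 c c3).1 hb k3] at k
      exact hK (c7.symm.trans k)
  refine ⟨Equiv.ofBijective f (Finite.injective_iff_bijective.1 inj), f1, f2,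
    fun K a ha b hb hx hl hK => ⟨cr K a ha b hb hx hl hK, ?_⟩⟩
  simp only [Equiv.ofBijective_apply]
  obtain ⟨c, c1, c2⟩ := exists_max_image
    (S.filter fun c => x c = x a ∧ pos b ≤ pos c ∧ (c ∈ K ↔ b ∈ K)) pos
    ⟨b, mem_filter.2 ⟨hb, hx.symm, le_rfl, Iff.rfl⟩⟩
  obtain ⟨c3, c4, c5, c7⟩ := mem_filter.1 c1
  by_cases k : c ∈ K ↔ f c ∈ K
  · rcases (f3 c c3).2 with k1 | k1
    · exact absurd (c2 (f c) (mem_filter.2 ⟨(f3 c c3).1, (f1 c).trans c4, c5.trans k1.1.le,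
        k.symm.trans c7⟩)) (not_le.2 k1.1)
    · have k2 : ¬ (f c ∈ K ↔ a ∈ K) := fun k2 => hK (k2.symm.trans (k.symm.trans c7))
      have k3 : pos (f c) < pos a := (k1 a ha c4.symm).2.lt_of_ne fun k3 =>
        k2 (by rw [hp (f3 c c3).1 ha k3])
      obtain ⟨d, d1, d2, -, d4, d5⟩ := cr K (f c) (f3 c c3).1 a ha ((f1 c).trans c4) k3 k2
      exact ⟨d, d1, d2.trans ((f1 c).trans c4), Or.inl d4, d5⟩
  · exact ⟨c, c3, c4, Or.inr c5, k⟩

theorem Perm_set {H : Type} [Fintype H] (P : H → Prop) : ∃ K : Finset H, ∀ k, k ∈ K ↔ P k := by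
  classical
  exact ⟨univ.filter P, fun k => by simp⟩

/-- positions in which any two classes with two members alternate -/
theorem Perm_pos {H : Type} [Fintype H] (r : Setoid H) : ∃ pos : H → ℕ, Function.Injective pos ∧
    ∀ a a' b b', r a a' → a' ≠ a → r b b' → b' ≠ b → ¬ r a b →
      ∃ a1 a2 b1 b2, r a a1 ∧ r a a2 ∧ r b b1 ∧ r b b2 ∧
        ((pos a1 < pos b1 ∧ pos b1 < pos a2 ∧ pos a2 < pos b2) ∨
          (pos b1 < pos a1 ∧ pos a1 < pos b2 ∧ pos b2 < pos a2)) := by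
  classical
  obtain ⟨N, i, hi, hN⟩ : ∃ (N : ℕ) (i : H → ℕ), Function.Injective i ∧ ∀ h, i h < N :=
    ⟨_, fun h => (Fintype.equivFin H h : ℕ),
      Fin.val_injective.comp (Fintype.equivFin H).injective, fun h => (Fintype.equivFin H h).2⟩
  obtain ⟨f, f1, f2⟩ : ∃ f : H → H, (∀ h, r h (f h)) ∧ ∀ h h', r h h' → f h = f h' :=
    ⟨fun h => (Quotient.mk r h).out, fun h => r.symm (Quotient.mk_out (s := r) h),
      fun h h' k => by simp only [Quotient.sound k]⟩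
  have f3 : ∀ h, f (f h) = f h := fun h => (f2 _ _ (f1 h)).symm
  have two : ∀ a a', r a a' → a' ≠ a → ∃ c, r a c ∧ c ≠ f c ∧ f c = f a := by
    intro a a' k1 k2
    by_cases k : a = f a
    · exact ⟨a', k1, by rwa [← f2 _ _ k1, ← k], (f2 _ _ k1).symm⟩
    · exact ⟨a, r.refl a, k, rfl⟩
  refine ⟨fun h => i h + N * if h = f h then 0 else i (f h) + 1, fun a b k => hi ?_,
    fun a a' b b' h1 h2 h3 h4 h5 => ?_⟩
  · have := congrArg (· % N) k
    simpa only [Nat.add_mul_mod_self_left, Nat.mod_eq_of_lt (hN _)] using this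
  · obtain ⟨a2, a3, a4, a5⟩ := two a a' h1 h2
    obtain ⟨b2, b3, b4, b5⟩ := two b b' h3 h4
    have ne : i (f a) ≠ i (f b) := fun k => h5 (r.trans (f1 a) (hi k ▸ r.symm (f1 b)))
    refine ⟨f a, a2, f b, b2, f1 a, a3, f1 b, b3, ?_⟩
    rw [a5] at a4
    rw [b5] at b4
    simp only [f3, if_true, a5, b5, if_neg a4, if_neg b4, mul_zero, add_zero, mul_add, mul_one]
    have n1 := hN (f a)
    have n2 := hN (f b)
    have n3 := hN a2
    have n4 := hN b2
    rcases lt_or_gt_of_ne ne with k | k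
    · have := Nat.mul_le_mul_left N (Nat.succ_le_of_lt k)
      rw [Nat.mul_succ] at this
      exact Or.inl ⟨k, by omega, by omega⟩
    · have := Nat.mul_le_mul_left N (Nat.succ_le_of_lt k)
      rw [Nat.mul_succ] at this
      exact Or.inr ⟨k, by omega, by omega⟩

namespace SG

variable {V E : Type} [Fintype V] [DecidableEq V] [DecidableEq E] {G : SG V E}

variable (G) in
/-- sets of ends closed under passing along edges and through vertices other than `v` -/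
def Perm_Gd (v : V) (K : Finset (E × Bool)) : Prop :=
  (∀ e ∈ G.A, ((e, true) ∈ K ↔ (e, false) ∈ K)) ∧
    ∀ a ∈ G.A ×ˢ (univ : Finset Bool), ∀ b ∈ G.A ×ˢ (univ : Finset Bool),
      G.blowV a = G.blowV b → G.blowV a ≠ v → (a ∈ K ↔ b ∈ K)

variable (G) in
/-- ends at the same vertex that are not separated by closed sets -/
def Perm_r : Setoid (E × Bool) where
  r a b := (a.1 ∈ G.A ↔ b.1 ∈ G.A) ∧ G.blowV a = G.blowV b ∧
    ∀ K, G.Perm_Gd (G.blowV a) K → (a ∈ K ↔ b ∈ K)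
  iseqv := ⟨fun _ => ⟨Iff.rfl, rfl, fun _ _ => Iff.rfl⟩,
    fun h => ⟨h.1.symm, h.2.1.symm, fun K k => (h.2.2 K (h.2.1 ▸ k)).symm⟩,
    fun h h' => ⟨h.1.trans h'.1, h.2.1.trans h'.2.1,
      fun K k => (h.2.2 K k).trans (h'.2.2 K (h.2.1 ▸ k))⟩⟩

theorem Perm_mem {a : E × Bool} : a ∈ G.A ×ˢ (univ : Finset Bool) ↔ a.1 ∈ G.A := by simp

theorem Perm_vs {a : E × Bool} (ha : a.1 ∈ G.A) : G.blowV a ∈ G.vs G.A := by
  obtain ⟨e, _ | _⟩ := a
  exacts [t_mem_vs ha, s_mem_vs ha]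

theorem Perm_two [Fintype E] (h : G.E3) {a : E × Bool} (ha : a.1 ∈ G.A) :
    ∃ a', G.Perm_r a a' ∧ a' ≠ a := by
  classical
  by_contra hn
  obtain ⟨K, hK⟩ : ∃ K : Finset (E × Bool), ∀ k, k ∈ K ↔
      ∀ K', G.Perm_Gd (G.blowV a) K' → a ∈ K' → k ∈ K' := Perm_set _
  have g1 : ∀ e ∈ G.A, ((e, true) ∈ K ↔ (e, false) ∈ K) := fun e he => by
    rw [hK, hK]
    exact forall_congr' fun K' => forall_congr' fun k => forall_congr' fun _ => k.1 e he
  have g2 : ∀ c d : E × Bool, c.1 ∈ G.A → d.1 ∈ G.A → G.blowV c = G.blowV d →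
      G.blowV c ≠ G.blowV a → (c ∈ K ↔ d ∈ K) := fun c d hc hd h1 h2 => by
    rw [hK, hK]
    exact forall_congr' fun K' => forall_congr' fun k => forall_congr' fun _ =>
      k.2 c (Perm_mem.2 hc) d (Perm_mem.2 hd) h1 h2
  have g3 : ∀ c ∈ K, c.1 ∈ G.A → G.blowV c = G.blowV a → c = a := by
    intro c hc h1 h2
    by_contra k
    refine hn ⟨c, ⟨iff_of_true ha h1, h2.symm, fun K' k1 => ⟨(hK c).1 hc K' k1, fun k2 => ?_⟩⟩, k⟩
    by_contra k3
    refine mem_compl.1 ((hK c).1 hc K'ᶜ ⟨fun e he => ?_, fun x hx y hy h3 h4 => ?_⟩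
      (mem_compl.2 k3)) k2
    · rw [mem_compl, mem_compl, k1.1 e he]
    · rw [mem_compl, mem_compl, k1.2 x hx y hy h3 h4]
  have g4 : ∀ e ∈ G.A, ∀ β, (e, β) ∈ K → (e, !β) ∈ K := by
    rintro e he (_ | _) k
    exacts [(g1 e he).2 k, (g1 e he).1 k]
  obtain ⟨X, hX⟩ : ∃ X : Finset V, ∀ u, u ∈ X ↔
      u ≠ G.blowV a ∧ ∃ c ∈ K, c.1 ∈ G.A ∧ G.blowV c = u := Perm_set _
  have g5 : ∀ e ∈ G.A, ∀ β, G.blowV (e, β) ∈ X → G.blowV (e, !β) ∉ X → e = a.1 := by
    intro e he β k1 k2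
    obtain ⟨k3, c, c1, c2, c3⟩ := (hX _).1 k1
    have k4 := g4 e he β ((g2 (e, β) c he c2 c3.symm k3).2 c1)
    by_cases k5 : G.blowV (e, !β) = G.blowV a
    · exact congrArg Prod.fst (g3 _ k4 he k5)
    · exact absurd ((hX _).2 ⟨k5, _, k4, he, rfl⟩) k2
  have k1 : (a.1, !a.2) ∈ K := g4 a.1 ha a.2 ((hK a).2 fun _ _ k => k)
  have k2 : G.blowV (a.1, !a.2) ≠ G.blowV a := fun k => by
    have := congrArg Prod.snd (g3 _ k1 ha k)
    simp at this
  have k3 := h X (Finset.ssubset_iff_subset_ne.2 ⟨fun u hu => by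
      obtain ⟨-, c, -, c2, rfl⟩ := (hX u).1 hu
      exact Perm_vs c2, fun k => ((hX _).1 (k ▸ Perm_vs ha)).1 rfl⟩)
    ⟨_, (hX _).2 ⟨k2, _, k1, ha, rfl⟩⟩
  have k4 : G.cut X ⊆ {a.1} := fun e he => by
    obtain ⟨k5, k6⟩ := mem_cut.1 he
    refine mem_singleton.2 ?_
    by_cases k7 : G.s e ∈ X
    · exact g5 e k5 true k7 fun k => k6 (iff_of_true k7 k)
    · refine g5 e k5 false ?_ k7
      by_contra k
      exact k6 (iff_of_false k7 k)
  have := card_le_card k4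
  rw [card_singleton] at this
  omega

/-- HINT: `A3Perm_cyc` with the following position.  For two ends `h, h'` at the same vertex `v`
put `h ≈ h'` if every set `K` that is closed under passing to the other end of an active edge and
contains all or none of the active ends at each vertex other than `v` contains both or none of
them.  Every class has two members: the intersection `K` of all such sets containing `h` is one
of them; if its only active end at `v` is `h` then the other end of the edge of `h` is at another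
vertex, and the vertices other than `v` whose active ends lie in `K` form a set with one leaving
edge.  Choose in each class two members `a ≠ b`; with an injection `i` into `Fin N` the position
is `i a` for `a`, `N + i a` for `b`, `2 N + i h` for the other members.  Now let `K` be given.  If
it splits no fibre its cut contains the image of a cut of `G`.  If it splits two fibres there are
four edges.  If it splits one fibre there are two edges, a third one if `K` is not closed, and if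
it is closed it contains a class and misses a class, which gives four alternating ends. -/
theorem exists_perm3 [Fintype E] (h : G.E3) : ∃ π : Equiv.Perm (E × Bool),
    (∀ x, G.blowV (π x) = G.blowV x) ∧ (∀ x, x ∉ G.A ×ˢ (univ : Finset Bool) → π x = x) ∧
    (∀ v, (G.blow π).Cn ((G.A ×ˢ univ).filter fun x => G.blowV x = v)
      (((G.A ×ˢ univ).filter fun x => G.blowV x = v).image Sum.inr)) ∧
    (∀ v z, (G.blow π).Cn ((G.A ×ˢ univ).filter fun x => G.blowV x = v)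
      ((((G.A ×ˢ univ).filter fun x => G.blowV x = v).image Sum.inr).erase z)) ∧
    (G.blow π).E3 := by
  classical
  obtain ⟨pos, hp, ho⟩ := Perm_pos G.Perm_r
  obtain ⟨π, h1, h2, h3⟩ := A3Perm_cyc G.blowV (G.A ×ˢ (univ : Finset Bool)) pos hp.injOn
  have two : ∀ K : Finset (E × Bool), ∀ a ∈ G.A ×ˢ (univ : Finset Bool),
      ∀ b ∈ G.A ×ˢ (univ : Finset Bool), G.blowV a = G.blowV b → ¬ (a ∈ K ↔ b ∈ K) →
      ∃ c ∈ G.A ×ˢ (univ : Finset Bool), ∃ d ∈ G.A ×ˢ (univ : Finset Bool), c ≠ d ∧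
        G.blowV c = G.blowV a ∧ G.blowV d = G.blowV a ∧ ¬ (c ∈ K ↔ π c ∈ K) ∧
        ¬ (d ∈ K ↔ π d ∈ K) := by
    intro K a ha b hb hx hK
    rcases lt_trichotomy (pos a) (pos b) with k | k | k
    · obtain ⟨⟨c, c1, c2, c3, c4, c5⟩, d, d1, d2, d3, d4⟩ := h3 K a ha b hb hx k hK
      exact ⟨c, c1, d, d1, by rintro rfl; omega, c2, d2, c5, d4⟩
    · exact absurd (by rw [hp k]) hK
    · obtain ⟨⟨c, c1, c2, c3, c4, c5⟩, d, d1, d2, d3, d4⟩ :=
        h3 K b hb a ha hx.symm k fun k => hK k.symm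
      exact ⟨c, c1, d, d1, by rintro rfl; omega, c2.trans hx.symm, d2.trans hx.symm, c5, d4⟩
  have cn : ∀ v z, (G.blow π).Cn ((G.A ×ˢ univ).filter fun x => G.blowV x = v)
      ((((G.A ×ˢ univ).filter fun x => G.blowV x = v).image Sum.inr).erase z) := by
    intro v z a ha b hb
    obtain ⟨a1, a2⟩ := mem_filter.1 ha
    obtain ⟨b1, b2⟩ := mem_filter.1 hb
    by_contra hn
    obtain ⟨K, hK⟩ : ∃ K : Finset (E × Bool), ∀ k, k ∈ K ↔ (G.blow π).Rch
        ((((G.A ×ˢ univ).filter fun x => G.blowV x = v).image Sum.inr).erase z) a k := Perm_set _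
    have k1 : ∀ c ∈ G.A ×ˢ (univ : Finset Bool), G.blowV c = G.blowV a → ¬ (c ∈ K ↔ π c ∈ K) →
        Sum.inr c = z := by
      intro c c1 c2 c3
      by_contra k
      have k2 := rch_edge (G := G.blow π) (mem_erase.2 ⟨k, mem_image_of_mem Sum.inr
        (mem_filter.2 ⟨c1, c2.trans a2⟩ : c ∈ (G.A ×ˢ univ).filter fun x => G.blowV x = v)⟩)
      refine c3 ?_
      rw [hK, hK]
      exact ⟨fun k3 => k3.trans k2, fun k3 => k3.trans k2.symm⟩
    obtain ⟨c, c1, d, d1, k2, c2, d2, c3, d3⟩ := two K a a1 b b1 (a2.trans b2.symm) fun k =>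
      hn ((hK b).1 (k.1 ((hK a).2 (Rch.refl _ _))))
    exact k2 (Sum.inr_injective ((k1 c c1 c2 c3).trans (k1 d d1 d2 d3).symm))
  refine ⟨π, h1, h2, fun v a ha b hb => (cn v (Sum.inr a) a ha b hb).mono (erase_subset _ _), cn,
    fun K hK hn => ?_⟩
  have m0 : (G.blow π).vs (G.blow π).A = G.A ×ˢ (univ : Finset Bool) := by
    refine Subset.antisymm (fun v hv => ?_) fun c hc =>
      s_mem_vs (G := G.blow π) (e := Sum.inr c) (inr_mem_disjSum.2 hc)
    obtain ⟨e | c, k1, rfl | rfl⟩ := mem_vs.1 hv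
    · exact Perm_mem.2 (inl_mem_disjSum.1 k1)
    · exact Perm_mem.2 (inl_mem_disjSum.1 k1)
    · exact inr_mem_disjSum.1 k1
    · by_contra k
      have k2 : π c = c := π.injective (h2 _ k)
      exact k (k2.symm ▸ inr_mem_disjSum.1 k1 : π c ∈ _)
  have m1 : ∀ e ∈ G.A, ¬ ((e, true) ∈ K ↔ (e, false) ∈ K) → Sum.inl e ∈ (G.blow π).cut K :=
    fun e he k => mem_cut.2 ⟨inl_mem_disjSum.2 he, k⟩
  have m2 : ∀ c ∈ G.A ×ˢ (univ : Finset Bool), ¬ (c ∈ K ↔ π c ∈ K) →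
      Sum.inr c ∈ (G.blow π).cut K := fun c hc k => mem_cut.2 ⟨inr_mem_disjSum.2 hc, k⟩
  rw [m0] at hK
  by_cases sp : ∃ a ∈ G.A ×ˢ (univ : Finset Bool), ∃ b ∈ G.A ×ˢ (univ : Finset Bool),
      G.blowV a = G.blowV b ∧ ¬ (a ∈ K ↔ b ∈ K)
  · obtain ⟨a, ha, b, hb, hx, hs⟩ := sp
    obtain ⟨c, c1, d, d1, k2, c2, d2, c3, d3⟩ := two K a ha b hb hx hs
    refine two_lt_card_iff.2 ?_
    by_cases g : G.Perm_Gd (G.blowV a) K
    · obtain ⟨a', r1, r2⟩ := Perm_two h (Perm_mem.1 ha)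
      obtain ⟨b', r3, r4⟩ := Perm_two h (Perm_mem.1 hb)
      obtain ⟨a1, a2, b1, b2, s1, s2, s3, s4, o⟩ :=
        ho a a' b b' r1 r2 r3 r4 fun k => hs (k.2.2 K g)
      have alt : ∀ a1 ∈ G.A ×ˢ (univ : Finset Bool), ∀ b1 ∈ G.A ×ˢ (univ : Finset Bool),
          ∀ a2 ∈ G.A ×ˢ (univ : Finset Bool), ∀ b2 ∈ G.A ×ˢ (univ : Finset Bool),
          G.blowV a1 = G.blowV b1 → G.blowV b1 = G.blowV a2 → G.blowV a2 = G.blowV b2 →
          ¬ (a1 ∈ K ↔ b1 ∈ K) → ¬ (b1 ∈ K ↔ a2 ∈ K) → ¬ (a2 ∈ K ↔ b2 ∈ K) →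
          pos a1 < pos b1 ∧ pos b1 < pos a2 ∧ pos a2 < pos b2 →
          ∃ x y z, x ∈ (G.blow π).cut K ∧ y ∈ (G.blow π).cut K ∧ z ∈ (G.blow π).cut K ∧
            x ≠ y ∧ x ≠ z ∧ y ≠ z := by
        intro a1 n1 b1 n2 a2 n3 b2 n4 e1 e2 e3 q1 q2 q3 o
        obtain ⟨x, x1, -, x2, x3, x4⟩ := (h3 K a1 n1 b1 n2 e1 o.1 q1).1
        obtain ⟨y, y1, -, y2, y3, y4⟩ := (h3 K b1 n2 a2 n3 e2 o.2.1 q2).1
        obtain ⟨z, z1, -, z2, z3, z4⟩ := (h3 K a2 n3 b2 n4 e3 o.2.2 q3).1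
        refine ⟨_, _, _, m2 x x1 x4, m2 y y1 y4, m2 z z1 z4, fun k => ?_, fun k => ?_,
          fun k => ?_⟩ <;> obtain rfl := Sum.inr_injective k <;> omega
      have n1 := Perm_mem.2 (s1.1.1 (Perm_mem.1 ha))
      have n2 := Perm_mem.2 (s2.1.1 (Perm_mem.1 ha))
      have n3 := Perm_mem.2 (s3.1.1 (Perm_mem.1 hb))
      have n4 := Perm_mem.2 (s4.1.1 (Perm_mem.1 hb))
      have e1 := s1.2.1.symm
      have e2 := s2.2.1.symm
      have e3 := s3.2.1.symm.trans hx.symm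
      have e4 := s4.2.1.symm.trans hx.symm
      have q1 := s1.2.2 K g
      have q2 := s2.2.2 K g
      have q3 := s3.2.2 K (hx ▸ g)
      have q4 := s4.2.2 K (hx ▸ g)
      rcases o with o | o
      · exact alt a1 n1 b1 n3 a2 n2 b2 n4 (e1.trans e3.symm) (e3.trans e2.symm) (e2.trans e4.symm)
          (fun k => hs (q1.trans (k.trans q3.symm))) (fun k => hs (q2.trans (k.symm.trans q3.symm)))
          (fun k => hs (q2.trans (k.trans q4.symm))) o
      · exact alt b1 n3 a1 n1 b2 n4 a2 n2 (e3.trans e1.symm) (e1.trans e4.symm) (e4.trans e2.symm)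
          (fun k => hs (q1.trans (k.symm.trans q3.symm))) (fun k => hs (q1.trans (k.trans q4.symm)))
          (fun k => hs (q2.trans (k.symm.trans q4.symm))) o
    · have k3 : (Sum.inr c : E ⊕ E × Bool) ≠ Sum.inr d := fun k => k2 (Sum.inr_injective k)
      rcases not_and_or.1 g with g | g
      · obtain ⟨e, g⟩ := not_forall.1 g
        obtain ⟨he, g⟩ := Classical.not_imp.1 g
        exact ⟨_, _, _, m1 e he g, m2 c c1 c3, m2 d d1 d3, Sum.inl_ne_inr, Sum.inl_ne_inr, k3⟩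
      · simp only [not_forall] at g
        obtain ⟨a', ha', b', hb', hx', hv, hs'⟩ := g
        obtain ⟨c', c1', -, -, -, c2', -, c3', -⟩ := two K a' ha' b' hb' hx' hs'
        refine ⟨_, _, _, m2 c' c1' c3', m2 c c1 c3, m2 d d1 d3, fun k => hv ?_, fun k => hv ?_, k3⟩
        · rw [← c2', Sum.inr_injective k, c2]
        · rw [← c2', Sum.inr_injective k, d2]
  · have sp' : ∀ a : E × Bool, a.1 ∈ G.A → (G.blowV a ∈ K.image G.blowV ↔ a ∈ K) := by
      refine fun a ha => ⟨fun k => ?_, mem_image_of_mem _⟩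
      obtain ⟨b, b1, b2⟩ := mem_image.1 k
      by_contra k1
      exact sp ⟨b, hK.1 b1, a, Perm_mem.2 ha, b2, fun k2 => k1 (k2.1 b1)⟩
    obtain ⟨a, a1, a2⟩ := exists_of_ssubset hK
    have k1 := h (K.image G.blowV) (Finset.ssubset_iff_subset_ne.2 ⟨fun u hu => by
        obtain ⟨c, c1, rfl⟩ := mem_image.1 hu
        exact Perm_vs (Perm_mem.1 (hK.1 c1)),
      fun k => a2 ((sp' a (Perm_mem.1 a1)).1 (k ▸ Perm_vs (Perm_mem.1 a1)))⟩) (hn.image _)
    refine k1.trans (card_le_card_of_injOn Sum.inl (fun e he => ?_) Sum.inl_injective.injOn)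
    obtain ⟨k2, k3⟩ := mem_cut.1 he
    refine m1 e k2 fun k => k3 ?_
    exact (sp' (e, true) k2).trans (k.trans (sp' (e, false) k2).symm)

end SG

end Pool.Agent.Work.MP_8c679b_co
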