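import Pool.Agent.Work.MP_8c679b_co.A3.Main
import Pool.Agent.Work.MP_8c679b_co.A3.Perm
import Pool.Agent.Work.MP_8c679b_co.Six.AMain

/-!
Three-edge-connected graphs.
-/

set_option autoImplicit false

namespace Pool.Agent.Work.MP_8c679b_co

open Finset

namespace SG

variable {V E : Type} [Fintype V] [DecidableEq V] [DecidableEq E] {G : SG V E}

/-- HINT: `exists_perm3`.  The blown-up graph is cubic (as in `six_of_root`).  `Adm1` holds by
`E3.ne1`.  A set with empty cut contains all active vertices or none (`E3.con`).  If the blown-up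
graph minus an edge `z` is balanced by `p`, then `p` is constant on the active ends at each vertex
(third and fourth part of `exists_perm3`, `Rch.closed`), so `G` minus `z`, or `G` itself if `z` is a
new edge, is balanced; in the first case `G` is balanced by `Adm.erase`; a potential of `G` gives
one of the blown-up graph.  Project the flow as in `six_of_root`. -/
theorem three_all [Fintype E]
    (hA3 : ∀ G' : SG (E × Bool) (E ⊕ E × Bool), G'.Cub → G'.A3) (hA : G.Adm) (h : G.E3) :
    ∃ f, G.Fl6 f := by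
  obtain ⟨π, h1, h2, -, h4, hE⟩ := exists_perm3 h
  have mem : ∀ h, π.symm h ∈ G.A ×ˢ (univ : Finset Bool) ↔ h ∈ G.A ×ˢ (univ : Finset Bool) := by
    intro h
    by_cases k : π.symm h ∈ G.A ×ˢ (univ : Finset Bool)
    · refine iff_of_true k ?_
      by_contra k'
      exact k' (by rwa [π.symm_apply_eq.2 (h2 h k').symm] at k)
    · refine iff_of_false k ?_
      have := h2 _ k
      rw [Equiv.apply_symm_apply] at this
      rwa [this]
  have cub : (G.blow π).Cub := by
    intro h
    have e1 := blow_left (R := ℕ) G.A (fun _ => 1) h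
    have e2 := blow_iv (R := ℕ) (Equiv.refl _) (G.A ×ˢ (univ : Finset Bool)) (fun _ => 1) h
    have e3 := blow_iv (R := ℕ) π (G.A ×ˢ (univ : Finset Bool)) (fun _ => 1) h
    simp only [mul_one, Equiv.refl_apply, Equiv.refl_symm, mem] at e1 e2 e3
    rw [show (G.blow π).deg (G.blow π).A h = _ from (sum_disjSum _ _ _).trans
      (congrArg₂ (· + ·) e1 (sum_add_distrib.trans (congrArg₂ (· + ·) e2 e3)))]
    unfold iv
    split_ifs <;> simp
  have down : ∀ z, (G.blow π).Bal ((G.blow π).A.erase z) → G.Bal G.A := by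
    rintro z ⟨p, hp⟩
    have c1 : ∀ a ∈ G.A ×ˢ (univ : Finset Bool), ∀ b ∈ G.A ×ˢ (univ : Finset Bool),
        G.blowV a = G.blowV b → p b = p a := by
      intro a ha b hb e
      refine (h4 (G.blowV b) z a (mem_filter.2 ⟨ha, e⟩) b (mem_filter.2 ⟨hb, rfl⟩)).closed
        (P := fun y => p y = p a) (fun k hk => ?_) rfl
      obtain ⟨k1, k2⟩ := mem_erase.1 hk
      obtain ⟨y, hy, rfl⟩ := mem_image.1 k2
      have k3 : (0 : ZMod 2) + p y + p (π y) = 0 :=
        hp _ (mem_erase.2 ⟨k1, inr_mem_disjSum.2 (mem_filter.1 hy).1⟩)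
      rw [zero_add] at k3
      change p y = p a ↔ p (π y) = p a
      rw [z2_eq_of_add k3]
    obtain ⟨q, hq⟩ : ∃ q : V → ZMod 2, ∀ a ∈ G.A ×ˢ (univ : Finset Bool), q (G.blowV a) = p a := by
      classical
      refine ⟨fun v => if k : ∃ a ∈ G.A ×ˢ (univ : Finset Bool), G.blowV a = v then p k.choose
        else 0, fun a ha => ?_⟩
      have k : ∃ b ∈ G.A ×ˢ (univ : Finset Bool), G.blowV b = G.blowV a := ⟨a, ha, rfl⟩
      beta_reduce
      rw [dif_pos k]
      exact c1 a ha _ k.choose_spec.1 k.choose_spec.2.symm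
    have c2 : ∀ e ∈ G.A, Sum.inl e ≠ z → G.sw q e = 0 := by
      intro e he k
      have k1 : G.n e + p (e, true) + p (e, false) = 0 :=
        hp _ (mem_erase.2 ⟨k, inl_mem_disjSum.2 he⟩)
      rw [← hq (e, true) (mem_product.2 ⟨he, mem_univ _⟩),
        ← hq (e, false) (mem_product.2 ⟨he, mem_univ _⟩)] at k1
      exact k1
    rcases z with z | z
    · have e : G.ins univ = G.A := filter_true_of_mem fun _ _ => ⟨mem_univ _, mem_univ _⟩
      by_contra k
      refine hA.erase (W := univ) (filter_false_of_mem fun _ _ => by simp) (by rwa [e]) z ?_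
      rw [e]
      exact ⟨q, fun y hy => c2 y (mem_erase.1 hy).2 fun m => (mem_erase.1 hy).1 (Sum.inl.inj m)⟩
    · exact ⟨q, fun y hy => c2 y hy Sum.inl_ne_inr⟩
  have up : G.Bal G.A → (G.blow π).Bal (G.blow π).A := by
    rintro ⟨q, hq⟩
    refine ⟨fun x => q (G.blowV x), ?_⟩
    rintro (e | k) he
    · exact hq e (inl_mem_disjSum.1 he)
    · change (0 : ZMod 2) + q (G.blowV k) + q (G.blowV (π k)) = 0
      rw [h1, zero_add, z2_add_self]
  have adm : (G.blow π).Adm2 := by
    refine ⟨fun X hX => absurd hX (hE.ne1 X), fun X hX hU z hz => hU ?_⟩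
    rcases ((G.blow π).ins X).eq_empty_or_nonempty with e | ⟨e0, he0⟩
    · exact ⟨0, fun y hy => absurd (e ▸ hy) (notMem_empty y)⟩
    obtain ⟨k1, k2, -⟩ := mem_ins.1 he0
    have cl : ∀ e ∈ (G.blow π).A, (G.blow π).s e ∈ X ↔ (G.blow π).t e ∈ X := by
      intro e he
      by_contra k
      exact notMem_empty e (hX ▸ mem_cut.2 ⟨he, k⟩)
    have e : (G.blow π).ins X = (G.blow π).A := filter_true_of_mem fun y hy =>
      ⟨(hE.con _ (s_mem_vs k1) _ (s_mem_vs hy)).closed (P := fun v => v ∈ X) cl k2,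
        (hE.con _ (s_mem_vs k1) _ (t_mem_vs hy)).closed (P := fun v => v ∈ X) cl k2⟩
    rw [e] at hz ⊢
    exact up (down z hz)
  obtain ⟨φ, hφ, hc⟩ := three_cubic hA3 cub adm hE
  refine ⟨fun e => φ (Sum.inl e), fun v => ?_, fun e he => hc _ (inl_mem_disjSum.2 he)⟩
  have := sum_eq_zero (s := univ.filter fun h => G.blowV h = v) fun h _ => hφ h
  simp only [bd] at this
  rw [sum_comm] at this
  simp only [← sum_mul, sum_sub_distrib, blow_fib] at this
  replace this := (sum_disjSum _ _ _).symm.trans this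
  rw [sum_eq_zero (s := G.A ×ˢ (univ : Finset Bool)) fun k _ => ?_, add_zero] at this
  · exact this
  · change (iv (G.blowV k = v) - iv (G.blowV (π k) = v) * chi 0) * _ = 0
    rw [h1, chi_zero, mul_one, sub_self, zero_mul]

end SG

end Pool.Agent.Work.MP_8c679b_co
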